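import Pool.Agent.H91.LA.Nat

/-!
# Natural jets: existence and the own window

`exs_jet`: if labels of the precision `p` are attained, the natural jets exist. `few0_jet`: to
`p - j w` digits the jets over the labels of the window `w` are few bits.
-/

set_option autoImplicit false

namespace Pool.LA91

open Finset Real MvPolynomial
open Pool.Agent.H49.Ent Pool.Agent.H32.Dense Pool.STK Pool.KA Pool.KSAT Pool.K2S Pool.PB Pool.GEN
open Pool.S6C Pool.RCD
open Pool.GRD (LbP Pb_mono_pos)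
open Pool.UNJ (ceI Tub)
open Pool.BFL (Pb)
open Pool.FLF (Fam.sub)

variable {m : ℕ}

/-! ### Existence -/

theorem cnt_le_of_abs {Ω : Type} [Fintype Ω] {p : Ω → ℝ} {u : Ω → ℤ} {A : Ω → Prop} {B : ℝ}
    (hB : 0 ≤ B) (h : ∀ ω, A ω → |(u ω : ℝ)| ≤ B) : (cnt p u A : ℝ) ≤ 2 * B + 1 := by
  rw [← cset_card]
  have h1 : cset p u A ⊆ Finset.Icc (-⌊B⌋) ⌊B⌋ := by
    intro x hx
    obtain ⟨ω, -, hω, rfl⟩ := of_mem_cset hx
    have h2 := abs_le.1 (h ω hω)
    rw [Finset.mem_Icc]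
    constructor
    · rw [neg_le, Int.le_floor]
      push_cast
      linarith [h2.1]
    · rw [Int.le_floor]
      exact h2.2
  have h2 : ((cset p u A).card : ℝ) ≤ ((Finset.Icc (-⌊B⌋) ⌊B⌋).card : ℝ) := by
    exact_mod_cast Finset.card_le_card h1
  refine h2.trans ?_
  rw [Int.card_Icc]
  have h3 : (0 : ℤ) ≤ ⌊B⌋ := Int.floor_nonneg.2 hB
  have h4 : (((⌊B⌋ + 1 - -⌊B⌋).toNat : ℕ) : ℝ) = ((⌊B⌋ + 1 - -⌊B⌋ : ℤ) : ℝ) := by
    have : (((⌊B⌋ + 1 - -⌊B⌋).toNat : ℕ) : ℤ) = ⌊B⌋ + 1 - -⌊B⌋ := Int.toNat_of_nonneg (by omega)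
    exact_mod_cast this
  rw [h4]
  push_cast
  have h5 : (⌊B⌋ : ℝ) ≤ B := Int.floor_le B
  linarith

/-- The own jets over a label with bounded gradients. -/
theorem ojet_big (m K j : ℕ) : ∃ C : ℝ, 1 ≤ C ∧ ∀ (J : ℕ) (F : Fam m J) (I : Finset (Fin m))
    (k : Fin m) (e w ρ P : ℕ) (A : F.Ω → Prop) (V : Type) (z : PtT F → V) (z' : LnT F → V)
    (G : V → MvPolynomial (Option (Fin m)) ℝ), LbOK F I k K e J w ρ P A z z' G →
    ∀ ω, A ω → |ojet F k j (G (z' (slam F w ω))) ω| ≤ C * 2 ^ e * (2 ^ ρ) ^ j := by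
  obtain ⟨C, hC, hj⟩ := jet_le m (max 1 K) j
  have h2j : (1 : ℝ) ≤ 2 ^ j := one_le_pow₀ (by norm_num)
  have hm0 : (0 : ℝ) ≤ m := Nat.cast_nonneg m
  refine ⟨C * (m + 3) * 2 ^ j, by nlinarith [mul_le_mul hC h2j (by norm_num) (by linarith)], ?_⟩
  intro J F I k e w ρ P A V z z' G h ω hω
  obtain ⟨g, hg⟩ : ∃ g, g = G (z' (slam F w ω)) := ⟨_, rfl⟩
  have hpos := h.pos ω hω
  have hlip := h.lip ω hω
  rw [← hg] at hpos hlip ⊢
  obtain ⟨r, hr⟩ : ∃ r : ℝ, r = 1 / (2 * 2 ^ ρ) := ⟨_, rfl⟩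
  have hr0 : 0 < r := by rw [hr]; positivity
  have h2r : 2 * r = 1 / 2 ^ ρ := by
    rw [hr]
    field_simp
  have hρ1 : (1 : ℝ) / 2 ^ ρ ≤ 1 := by
    rw [div_le_one (by positivity)]
    exact one_le_pow₀ (by norm_num)
  have he1 : (1 : ℝ) ≤ 2 ^ e := one_le_pow₀ (by norm_num)
  have hdeg : (X (some k) - g : MvPolynomial (Option (Fin m)) ℝ).totalDegree ≤ max 1 K := by
    refine (MvPolynomial.totalDegree_sub _ _).trans (max_le_max (totalDegree_X _).le ?_)
    rw [hg]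
    exact h.deg _
  have key := hj (X (some k) - g) (bt F ω) (bt F ω) (bd F ω) r ((m + 3) * 2 ^ e) hdeg hr0 (by
    intro b hb
    rw [map_sub, eval_X]
    have e1 : b (some k) - eval b g = (F.x ω k - eval (bt F ω) g) + (b (some k) - F.x ω k) -
      (eval b g - eval (bt F ω) g) := by ring
    have e2 : |b (some k) - F.x ω k| ≤ 1 := by
      have := hb (some k)
      rw [h2r] at this
      exact this.trans hρ1
    have e3 := mvσ g (bt F ω) b (2 ^ e) fun y' hy' i =>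
      hlip y' (fun o => ((hy' o).trans (hb o)).trans (le_of_eq h2r)) i
    have e4 : ∑ o, |b o - bt F ω o| ≤ (m + 1) * 1 := by
      refine (Finset.sum_le_sum fun o _ => ((hb o).trans (le_of_eq h2r)).trans hρ1).trans
        (le_of_eq ?_)
      rw [Finset.sum_const, Finset.card_univ, Fintype.card_option, Fintype.card_fin, nsmul_eq_mul]
      push_cast
      ring
    have e5 := e3.trans (mul_le_mul_of_nonneg_left e4 (by positivity))
    have e6 : (1 : ℝ) / 2 ^ P ≤ 1 := by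
      rw [div_le_one (by positivity)]
      exact one_le_pow₀ (by norm_num)
    rw [e1]
    refine (abs_sub _ _).trans ?_
    have e7 := abs_add_le (F.x ω k - eval (bt F ω) g) (b (some k) - F.x ω k)
    nlinarith) (fun o => by
    rw [sub_self, abs_zero]
    exact hr0.le) (bd_le F ω)
  refine key.trans (le_of_eq ?_)
  have e3 : (1 : ℝ) / r ^ j = 2 ^ j * (2 ^ ρ) ^ j := by
    rw [hr, one_div_pow, one_div_one_div, mul_pow]
  rw [div_eq_mul_one_div, e3]
  ring

/-- **Labels are attained** at the window `w`, of the precision `p`. -/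
def Att (S : PCl m) (I : Finset (Fin m)) (k : Fin m) (w p r : ℝ) : Prop :=
  ∀ e : ℝ, 0 < e → ∃ K : ℕ, Bas S (fun J F A =>
    Lb F I k K ⌊e * J⌋₊ J ⌊w * J⌋₊ ⌊(r + e) * J⌋₊ ⌊(p - e) * J⌋₊ A)

theorem Att.sub {S S' : PCl m} (hs : ∀ (τ : ℝ) (J : ℕ) (F : Fam m J) (A : F.Ω → Prop),
    S'.St τ J F A → S.St τ J F A) {I : Finset (Fin m)} {k : Fin m} {w p r : ℝ}
    (h : Att S I k w p r) : Att S' I k w p r := fun e he => by
  obtain ⟨K, hK⟩ := h e he
  exact ⟨K, hK.sub hs⟩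

theorem LamW.att' {S : PCl m} {L : Finset (Fin m) → Fin m → ℝ → ℝ → ℝ} (hL : LamW S L)
    (I : Finset (Fin m)) (k : Fin m) {w p r : ℝ} (hw0 : 0 < w) (hw1 : w ≤ 1)
    (hp : ∀ c : ℝ, c < p → ∃ w' < w, c ≤ L I k w' r) : Att S I k w p r := by
  intro e he
  obtain ⟨w', hw', h1⟩ := hp (p - e / 2) (by linarith)
  obtain ⟨K, hK⟩ := hL.att I k w' w r (e / 2) hw0 hw1 hw' (half_pos he)
  refine ⟨K, Bas.mono 0 hK ?_⟩
  rintro J - F A ⟨V, z, z', G, h⟩
  have hJ0 : (0 : ℝ) ≤ J := Nat.cast_nonneg J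
  exact ⟨V, z, z', G, h.mono (Finset.Subset.refl _) le_rfl
    (Nat.floor_le_floor (mul_le_mul_of_nonneg_right (by linarith) hJ0))
    (Nat.floor_le_floor (mul_le_mul_of_nonneg_right (by linarith) hJ0))
    (Nat.floor_le_floor (mul_le_mul_of_nonneg_right (by linarith) hJ0))⟩

/-- **The natural jets exist.** -/
theorem exs_jet {S : PCl m} {I : Finset (Fin m)} {k : Fin m} {j : ℕ} {w p r N : ℝ}
    (hr : 0 ≤ r) (h : Att S I k w p r) : Exs S (qJet m I k j w p N) := by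
  intro e he
  obtain ⟨K, hK⟩ := h e he
  obtain ⟨C, hC, hbig⟩ := ojet_big m K j
  have hC0 : 0 < C := by linarith
  have hl2 : 0 < Real.log 2 := Real.log_pos one_lt_two
  obtain ⟨B, hB⟩ : ∃ B : ℝ, B = |N| + e + j * (r + e) := ⟨_, rfl⟩
  have hB0 : 0 ≤ B := by
    rw [hB]
    positivity
  obtain ⟨M, hM⟩ : ∃ M : ℕ, M = max K ⌈B * Real.log 2 + 1⌉₊ := ⟨_, rfl⟩
  have hM1 : B * Real.log 2 + 1 ≤ M := by
    refine (Nat.le_ceil _).trans ?_
    rw [hM]
    exact_mod_cast le_max_right _ _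
  have hKM : K ≤ M := by
    rw [hM]
    exact le_max_left _ _
  obtain ⟨J₁, hJ₁⟩ := exists_nat_ge (Real.log (2 * (C + 1) + 1))
  refine ⟨M, M, Bas.mono J₁ hK ?_⟩
  rintro J hJ F A ⟨V, z, z', G, hlb⟩
  have hJ0 : (0 : ℝ) ≤ J := Nat.cast_nonneg J
  have hJ1 : (J₁ : ℝ) ≤ J := by exact_mod_cast hJ
  have hcnt : (cnt F.p (fun ω => ⌊(2 : ℝ) ^ (N * J) *
      ojet F k j (G (z' (slam F ⌊w * J⌋₊ ω))) ω⌋) A : ℝ) ≤ Real.exp (M * J) := by
    have b1 : (1 : ℝ) ≤ 2 ^ (B * J) := by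
      rw [← exp_p2]
      exact Real.one_le_exp (by positivity)
    have h1 := cnt_le_of_abs (p := F.p) (u := fun ω => ⌊(2 : ℝ) ^ (N * J) *
      ojet F k j (G (z' (slam F ⌊w * J⌋₊ ω))) ω⌋) (A := A) (B := (C + 1) * 2 ^ (B * J))
      (by positivity) (by
        intro ω hω
        have h2 := hbig J F I k _ _ _ _ A V z z' G hlb ω hω
        obtain ⟨o, ho⟩ : ∃ o, o = ojet F k j (G (z' (slam F ⌊w * J⌋₊ ω))) ω := ⟨_, rfl⟩
        rw [← ho] at h2 ⊢
        have h3 : |(2 : ℝ) ^ (N * J) * o| ≤ C * 2 ^ (B * J) := by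
          rw [abs_mul, abs_of_pos (by positivity)]
          have a2 : (2 : ℝ) ^ ⌊e * J⌋₊ ≤ 2 ^ (e * J) := p2_le (by positivity)
          have a3 : ((2 : ℝ) ^ ⌊(r + e) * J⌋₊) ^ j ≤ 2 ^ (j * ((r + e) * J)) := by
            refine (pow_le_pow_left₀ (by positivity) (p2_le (by positivity)) j).trans (le_of_eq ?_)
            rw [← Real.rpow_natCast, ← Real.rpow_mul (by norm_num)]
            congr 1
            ring
          have b3 : (0 : ℝ) < 2 ^ (N * J) := Real.rpow_pos_of_pos (by norm_num) _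
          have b4 : (0 : ℝ) < 2 ^ (e * J) := Real.rpow_pos_of_pos (by norm_num) _
          have b5 : (0 : ℝ) < 2 ^ (j * ((r + e) * J)) := Real.rpow_pos_of_pos (by norm_num) _
          calc (2 : ℝ) ^ (N * J) * |o| ≤ 2 ^ (N * J) * (C * 2 ^ (e * J) *
                2 ^ (j * ((r + e) * J))) := by
                refine mul_le_mul_of_nonneg_left (h2.trans ?_) b3.le
                exact mul_le_mul (mul_le_mul_of_nonneg_left a2 hC0.le) a3 (by positivity)
                  (by positivity)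
            _ = C * (2 ^ (N * J) * 2 ^ (e * J) * 2 ^ (j * ((r + e) * J))) := by ring
            _ ≤ C * 2 ^ (B * J) := by
                rw [← Real.rpow_add (by norm_num), ← Real.rpow_add (by norm_num)]
                refine mul_le_mul_of_nonneg_left ?_ hC0.le
                refine Real.rpow_le_rpow_of_exponent_le (by norm_num) ?_
                have := mul_le_mul_of_nonneg_right (le_abs_self N) hJ0
                rw [hB]
                linarith
        have h4 := Int.floor_le ((2 : ℝ) ^ (N * J) * o)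
        have h5 := Int.lt_floor_add_one ((2 : ℝ) ^ (N * J) * o)
        have h6 := abs_le.1 h3
        rw [abs_le]
        constructor <;> nlinarith [h6.1, h6.2])
    refine h1.trans ?_
    have h2 : 2 * ((C + 1) * 2 ^ (B * J)) + 1 ≤ (2 * (C + 1) + 1) * 2 ^ (B * J) := by linarith
    refine h2.trans ?_
    rw [← exp_p2]
    calc (2 * (C + 1) + 1) * Real.exp (B * J * Real.log 2)
        = Real.exp (Real.log (2 * (C + 1) + 1)) * Real.exp (B * J * Real.log 2) := by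
          rw [Real.exp_log (by positivity)]
      _ = Real.exp (Real.log (2 * (C + 1) + 1) + B * J * Real.log 2) := (Real.exp_add _ _).symm
      _ ≤ Real.exp (M * J) := by
          refine Real.exp_le_exp.2 ?_
          have := mul_le_mul_of_nonneg_right hM1 hJ0
          nlinarith [hJ₁.trans hJ1]
  refine ⟨_, ⟨hcnt, V, z, z', G, ?_, fun ω _ => rfl⟩, hcnt⟩
  exact (LbP.of hlb).mono (Finset.Subset.refl _) hKM le_rfl

/-! ### The own window -/

theorem Pb_cond {Ω : Type} [Fintype Ω] {p : Ω → ℝ} {A : Ω → Prop}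
    (hA : 0 < Pe p A) (Q : Ω → Prop) : Pb (Pool.Agent.H49.Ent.cond p A True) Q =
      Pe p (fun ω => A ω ∧ Q ω) / Pe p A := by
  classical
  unfold Pb
  rw [eq_div_iff hA.ne', Finset.sum_mul]
  show _ = law p (fun ω => A ω ∧ Q ω) True
  unfold law
  refine Finset.sum_congr rfl fun ω _ => ?_
  unfold Pool.Agent.H49.Ent.cond
  by_cases h1 : A ω
  · by_cases h2 : Q ω
    · simp only [h1, h2, and_self, if_true]
      exact div_mul_cancel₀ _ hA.ne'
    · simp [h1, h2]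
  · simp [h1]

/-- **The size of the own jets** over the labels of the own window, outside a small event. -/
theorem own_cls {S : PCl m} {C₀ : ℝ} (htm : TmC S C₀) (I : Finset (Fin m)) (k : Fin m) (j K : ℕ)
    {w η ε : ℝ} (hw0 : 0 ≤ w) (hw1 : w < 1) (hη : 0 < η) (hε : 0 < ε) :
    Bas S (fun J F A => ∀ (P : ℕ) (V : Type) (z : PtT F → V) (z' : LnT F → V)
      (G : V → MvPolynomial (Option (Fin m)) ℝ), LbP F I k K J ⌊w * J⌋₊ P A z z' G →
      Pb (Pool.Agent.H49.Ent.cond F.p A True) (fun ω =>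
        ¬ |ojet F k j (G (z' (slam F ⌊w * J⌋₊ ω))) ω| ≤ 2 ^ ((ε + j * w) * J) * (1 / 2 ^ P)) ≤ η) := by
  classical
  obtain ⟨C, hC, hown⟩ := own_fam m K j
  have hC0 : 0 < C := by linarith
  have hl2 : 0 < Real.log 2 := Real.log_pos one_lt_two
  obtain ⟨δ, hδ⟩ : ∃ δ : ℝ, δ = min ε (1 - w) * Real.log 2 / (2 * C) := ⟨_, rfl⟩
  have hmn : 0 < min ε (1 - w) := lt_min hε (by linarith)
  have hδ0 : 0 < δ := by
    rw [hδ]
    positivity
  have hδ1 : 2 * (C * δ) = min ε (1 - w) * Real.log 2 := by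
    rw [hδ]
    field_simp
  obtain ⟨J₂, hJ₂⟩ := exists_nat_ge (1 / δ)
  refine Bas.mono J₂ ((Pool.GRW.bas_part (Pool.GRW.tms_bas htm hδ0) (c := 1 / η) (by positivity)).and
    (Pool.GRW.tmc_bas htm hδ0)) ?_
  rintro J hJ F A ⟨hpart, hA, -⟩ P V z z' G hlb
  have hJ0 : (0 : ℝ) ≤ J := Nat.cast_nonneg J
  have hJ2 : (J₂ : ℝ) ≤ J := by exact_mod_cast hJ
  have f1 : 1 ≤ δ * J := by
    have : 1 / δ ≤ J := hJ₂.trans hJ2
    rw [div_le_iff₀ hδ0] at this
    linarith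
  obtain ⟨R, hR⟩ : ∃ R : F.Ω → Prop, R = fun ω => A ω ∧
    ¬ |ojet F k j (G (z' (slam F ⌊w * J⌋₊ ω))) ω| ≤ 2 ^ ((ε + j * w) * J) * (1 / 2 ^ P) := ⟨_, rfl⟩
  have hRA : Sub R A := fun ω hω => by
    rw [hR] at hω
    exact hω.1
  -- the probability of the bad event
  have hPb : Pb (Pool.Agent.H49.Ent.cond F.p A True) (fun ω =>
      ¬ |ojet F k j (G (z' (slam F ⌊w * J⌋₊ ω))) ω| ≤ 2 ^ ((ε + j * w) * J) * (1 / 2 ^ P)) =
      Pe F.p R / Pe F.p A := by
    rw [hR]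
    exact Pb_cond hA _
  rw [hPb, div_le_iff₀ hA]
  by_contra hcon
  push Not at hcon
  have hR1 : Pe F.p A ≤ 1 / η * Pe F.p R := by
    rw [one_div, ← div_eq_inv_mul, le_div_iff₀ hη]
    linarith
  obtain ⟨hRp, hTm⟩ := hpart R hRA hR1
  obtain ⟨B, hBR, hPB, hB⟩ := hown J F R hRp ⌊w * J⌋₊ (fun s => G (z' s)) k (1 / 2 ^ P) (δ * J)
    (floor_le hw1.le J) (fun s => hlb.deg _) (by positivity) (by positivity) hTm (by
      have hwf : ((⌊w * J⌋₊ : ℕ) : ℝ) ≤ w * J := Nat.floor_le (by positivity)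
      calc C * (δ * J + 1) ≤ 2 * (C * δ) * J := by nlinarith
        _ = min ε (1 - w) * Real.log 2 * J := by rw [hδ1]
        _ ≤ (1 - w) * Real.log 2 * J :=
          mul_le_mul_of_nonneg_right (mul_le_mul_of_nonneg_right (min_le_right _ _) hl2.le) hJ0
        _ = (J - w * J) * Real.log 2 := by ring
        _ ≤ ((J : ℝ) - (⌊w * J⌋₊ : ℕ)) * Real.log 2 :=
          mul_le_mul_of_nonneg_right (by linarith) hl2.le)
    (fun ω hω => hlb.pos ω (hRA ω hω))
  have hBp : 0 < Pe F.p B := lt_of_lt_of_le (by linarith) hPB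
  obtain ⟨ω, hωp, hωB⟩ : ∃ ω, 0 < F.p ω ∧ B ω := by
    by_contra hno
    push Not at hno
    have : Pe F.p B = 0 := by
      show law F.p B True = 0
      unfold law
      refine Finset.sum_eq_zero fun ω _ => ?_
      split_ifs with hω
      · by_contra hne
        exact hno ω (lt_of_le_of_ne (F.isLaw.nonneg ω) (Ne.symm hne)) (of_eq_true hω)
      · rfl
    linarith
  have h1 := hB ω hωB
  have h2 := hBR ω hωB
  rw [hR] at h2
  refine h2.2 (h1.trans ?_)
  refine mul_le_mul_of_nonneg_right ?_ (by positivity)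
  have e1 : Real.exp (C * (δ * J + 1)) ≤ 2 ^ (ε * J) := by
    rw [← exp_p2]
    refine Real.exp_le_exp.2 ?_
    calc C * (δ * J + 1) ≤ 2 * (C * δ) * J := by nlinarith
      _ = min ε (1 - w) * Real.log 2 * J := by rw [hδ1]
      _ ≤ ε * Real.log 2 * J :=
        mul_le_mul_of_nonneg_right (mul_le_mul_of_nonneg_right (min_le_left _ _) hl2.le) hJ0
      _ = ε * J * Real.log 2 := by ring
  have e2 : ((2 : ℝ) ^ ⌊w * J⌋₊) ^ j ≤ 2 ^ (j * (w * J)) := by
    refine (pow_le_pow_left₀ (by positivity) (p2_le (by positivity)) j).trans (le_of_eq ?_)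
    rw [← Real.rpow_natCast, ← Real.rpow_mul (by norm_num)]
    congr 1
    ring
  have e3 : (2 : ℝ) ^ ((ε + j * w) * J) = 2 ^ (ε * J) * 2 ^ (j * (w * J)) := by
    rw [← Real.rpow_add (by norm_num)]
    congr 1
    ring
  rw [e3]
  exact mul_le_mul e1 e2 (by positivity) (Real.rpow_pos_of_pos (by norm_num) _).le

/-- **To the natural digits of the own window the jets are few bits.** -/
theorem few0_jet {S : PCl m} {C₀ : ℝ} (htm : TmC S C₀) {I : Finset (Fin m)} {k : Fin m} {j : ℕ}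
    {w p N : ℝ} (hw0 : 0 ≤ w) (hw1 : w < 1) (hN : N + j * w ≤ p)
    {α β γ : ∀ J : ℕ, Fam m J → Type} (f : ∀ (J : ℕ) (F : Fam m J), F.Ω → α J F)
    (g : ∀ (J : ℕ) (F : Fam m J), F.Ω → β J F) (y : ∀ (J : ℕ) (F : Fam m J), F.Ω → γ J F) :
    Few0 S f g y (qJet m I k j w p N) := by
  classical
  intro h hh
  refine ⟨h / 8, by linarith, fun K => ?_⟩
  have hl2 : 0 < Real.log 2 := Real.log_pos one_lt_two
  have hl21 : Real.log 2 ≤ 1 := by
    have := Real.log_two_lt_d9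
    linarith
  obtain ⟨η, hη⟩ : ∃ η : ℝ, η = h / (2 * ((K : ℝ) + 1)) := ⟨_, rfl⟩
  have hη0 : 0 < η := by
    rw [hη]
    positivity
  have hηK : η * K ≤ h / 2 := by
    rw [hη, div_mul_eq_mul_div, div_le_iff₀ (by positivity)]
    have : (0 : ℝ) ≤ K := Nat.cast_nonneg K
    nlinarith
  obtain ⟨J₃, hJ₃⟩ := exists_nat_ge ((Real.log 2 + Real.log 7) / (h / 4))
  refine Bas.mono J₃ ((own_cls htm I k j K hw0 hw1 hη0 (show 0 < h / 8 by linarith)).and
    (Pool.GRW.tmc_bas htm one_pos)) ?_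
  rintro J hJ F A ⟨hbad, hA, -⟩ u ⟨hc, V, z, z', G, hlb, hu⟩
  have hJ0 : (0 : ℝ) ≤ J := Nat.cast_nonneg J
  have hJ3 : (J₃ : ℝ) ≤ J := by exact_mod_cast hJ
  have hl7 : 0 < Real.log 7 := Real.log_pos (by norm_num)
  have f4 : Real.log 2 + Real.log 7 ≤ h / 4 * J := by
    have : (Real.log 2 + Real.log 7) / (h / 4) ≤ J := hJ₃.trans hJ3
    rw [div_le_iff₀ (by positivity)] at this
    linarith
  refine ⟨Unit, fun _ => (), ⟨⟨fun _ => (), fun _ _ => rfl⟩, fun _ => (), fun _ _ => rfl⟩, ?_⟩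
  obtain ⟨D, hD⟩ : ∃ D : ℝ, D = 2 * 2 ^ (h / 4 * J) + 1 := ⟨_, rfl⟩
  have hp1 : (1 : ℝ) ≤ 2 ^ (h / 4 * J) := by
    rw [← exp_p2]
    exact Real.one_le_exp (by positivity)
  have key := CH_near (isLaw_cond F.isLaw hA) u (fun ω => ((), y J F ω)) (fun _ => 0)
    (fun ω => ¬ |ojet F k j (G (z' (slam F ⌊w * J⌋₊ ω))) ω| ≤
      2 ^ ((h / 8 + j * w) * J) * (1 / 2 ^ ⌊(p - h / 8) * J⌋₊)) (M := K * J) (D := D)
    (hbad _ V z z' G hlb) (by positivity) (by rw [hD]; linarith)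
    (le_trans (by exact_mod_cast cnt_cond_le F.isLaw u A) hc) (by
      intro ω hω hgood
      rw [not_not] at hgood
      rw [hu ω (of_cond_pos hω)]
      obtain ⟨o, ho⟩ : ∃ o, o = ojet F k j (G (z' (slam F ⌊w * J⌋₊ ω))) ω := ⟨_, rfl⟩
      rw [← ho] at hgood ⊢
      have h3 : |(2 : ℝ) ^ (N * J) * o| ≤ 2 * 2 ^ (h / 4 * J) := by
        rw [abs_mul, abs_of_pos (by positivity)]
        have a2 := ip2_le ((p - h / 8) * J)
        have b3 : (0 : ℝ) < 2 ^ (N * J) := Real.rpow_pos_of_pos (by norm_num) _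
        have b4 : (0 : ℝ) < 2 ^ ((h / 8 + j * w) * J) := Real.rpow_pos_of_pos (by norm_num) _
        calc (2 : ℝ) ^ (N * J) * |o| ≤ 2 ^ (N * J) * (2 ^ ((h / 8 + j * w) * J) *
              (2 * 2 ^ (-((p - h / 8) * J)))) := by
              refine mul_le_mul_of_nonneg_left (hgood.trans ?_) b3.le
              exact mul_le_mul_of_nonneg_left a2 b4.le
          _ = 2 * (2 ^ (N * J) * 2 ^ ((h / 8 + j * w) * J) * 2 ^ (-((p - h / 8) * J))) := by ring
          _ = 2 * 2 ^ (N * J + (h / 8 + j * w) * J + -((p - h / 8) * J)) := by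
              rw [Real.rpow_add (by norm_num), Real.rpow_add (by norm_num)]
          _ ≤ 2 * 2 ^ (h / 4 * J) := by
              refine mul_le_mul_of_nonneg_left ?_ (by norm_num)
              refine Real.rpow_le_rpow_of_exponent_le (by norm_num) ?_
              have e1 : N * J + (h / 8 + j * w) * J + -((p - h / 8) * J) =
                  (N + j * w - p + h / 4) * J := by ring
              rw [e1]
              exact mul_le_mul_of_nonneg_right (by linarith) hJ0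
      have h4 := Int.floor_le ((2 : ℝ) ^ (N * J) * o)
      have h5 := Int.lt_floor_add_one ((2 : ℝ) ^ (N * J) * o)
      have h6 := abs_le.1 h3
      rw [hD, sub_zero, abs_le]
      constructor <;> linarith [h6.1, h6.2])
  refine key.trans ?_
  have h7 : Real.log (2 * D + 1) ≤ Real.log 7 + h / 4 * J := by
    have e1 : 2 * D + 1 ≤ 7 * 2 ^ (h / 4 * J) := by
      rw [hD]
      linarith
    have e2 := Real.log_le_log (by rw [hD]; positivity) e1
    refine e2.trans ?_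
    rw [Real.log_mul (by norm_num) (by positivity), ← exp_p2, Real.log_exp]
    have : h / 4 * J * Real.log 2 ≤ h / 4 * J * 1 :=
      mul_le_mul_of_nonneg_left hl21 (by positivity)
    linarith
  have h8 : η * (K * J) ≤ h / 2 * J := by
    calc η * (K * J) = η * K * J := by ring
      _ ≤ h / 2 * J := mul_le_mul_of_nonneg_right hηK hJ0
  linarith

/-- Few bits, transitivity. -/
theorem Few0.trans {U U' : Type} {α β γ : ∀ J : ℕ, Fam m J → Type}
    {f : ∀ (J : ℕ) (F : Fam m J), F.Ω → α J F} {g : ∀ (J : ℕ) (F : Fam m J), F.Ω → β J F}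
    {y : ∀ (J : ℕ) (F : Fam m J), F.Ω → γ J F} {S : PCl m}
    (hpos : ∀ (τ : ℝ) (J : ℕ) (F : Fam m J) (A : F.Ω → Prop), S.St τ J F A → 0 < Pe F.p A)
    {Q : Qt m U} {Q' : Qt m U'} (x : Exs S Q) (h0 : Few0 S f g y Q) (hf : Few S f g y Q Q') :
    Few0 S f g y Q' := by
  intro h hh
  obtain ⟨e1, he1, H1⟩ := h0 (h / 2) (half_pos hh)
  obtain ⟨e2, he2, H2⟩ := hf (h / 2) (half_pos hh)
  obtain ⟨K₀, M₀, hx⟩ := x (min e1 e2) (lt_min he1 he2)
  refine ⟨min e1 e2, lt_min he1 he2, fun K => ?_⟩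
  refine Bas.mono 0 (((H1 (max K K₀)).and (H2 (max K K₀))).and (hx.and (pos_bas hpos))) ?_
  rintro J - F A ⟨⟨H1, H2⟩, ⟨u, hu, -⟩, hA⟩ u' hu'
  have hcl := isLaw_cond F.isLaw hA
  obtain ⟨V, z, hz, h1⟩ := H1 u (Q.mono (le_max_right _ _) (min_le_left _ _) hu)
  obtain ⟨V', z', hz', h2⟩ := H2 u u' (Q.mono (le_max_right _ _) (min_le_right _ _) hu)
    (Q'.mono (le_max_left _ _) (min_le_right _ _) hu')
  refine ⟨V × V', fun ω => (z ω, z' ω), hz.join hz', ?_⟩
  have h3 := CH_le_add hcl.nonneg u' u (fun ω => ((z ω, z' ω), y J F ω))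
  have h4 : CH (Pool.Agent.H49.Ent.cond F.p A True) u (fun ω => ((z ω, z' ω), y J F ω)) ≤
      CH (Pool.Agent.H49.Ent.cond F.p A True) u (fun ω => (z ω, y J F ω)) := by
    refine CH_mono_cond hcl.nonneg fun ω ω' _ _ hh => ?_
    simp only [Prod.mk.injEq] at hh ⊢
    exact ⟨hh.1.1, hh.2⟩
  have h5 : CH (Pool.Agent.H49.Ent.cond F.p A True) u'
      (fun ω => (u ω, ((z ω, z' ω), y J F ω))) ≤
      CH (Pool.Agent.H49.Ent.cond F.p A True) u' (fun ω => (u ω, (z' ω, y J F ω))) := by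
    refine CH_mono_cond hcl.nonneg fun ω ω' _ _ hh => ?_
    simp only [Prod.mk.injEq] at hh ⊢
    exact ⟨hh.1, hh.2.1.2, hh.2.2⟩
  linarith

end Pool.LA91
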