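import Pool.Agent.H91.LA.Two
import Pool.Agent.H91.LA.Own

/-!
# The natural jets as two-parameter families

`two_jet`: the jets of the order `j` of the coordinate `k` over the labels over `I` are a
two-parameter family: `Q w o := qJet m I k j w (p w) (p o - j o)`, where `p w` is a precision which
is attained at the window `w`.
-/

set_option autoImplicit false

namespace Pool.LA91

open Finset Real
open Pool.Agent.H49.Ent Pool.Agent.H32.Dense Pool.STK Pool.KA Pool.KSAT Pool.K2S Pool.PB Pool.S6C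
  Pool.GEN Pool.RCD

variable {m : ℕ} {α γ : ∀ J : ℕ, Fam m J → Type}
  {f : ∀ (J : ℕ) (F : Fam m J), F.Ω → α J F} {y : ∀ (J : ℕ) (F : Fam m J), F.Ω → γ J F}
  {S : PCl m}

/-- **The natural jets are a two-parameter family.** -/
theorem two_jet {C₀ : ℝ} (htm : TmC S C₀)
    (hpos : ∀ (τ : ℝ) (J : ℕ) (F : Fam m J) (A : F.Ω → Prop), S.St τ J F A → 0 < Pe F.p A)
    {I : Finset (Fin m)} {k : Fin m} {j : ℕ} {A B lam lam' p₀ : ℝ} (hA : 0 ≤ A) (hB : B ≤ 1)
    {p u₀ r : ℚ → ℝ} (hr : ∀ w : ℚ, A < w → (w : ℝ) < B → 0 ≤ r w)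
    (hatt : ∀ w : ℚ, A < w → (w : ℝ) < B → Att S I k w (p w) (r w))
    (hu₀ : ∀ w : ℚ, A < w → (w : ℝ) < B → (w : ℝ) ≤ u₀ w ∧ u₀ w < p₀) (hp0 : p₀ ≤ 1)
    (hful : ∀ w : ℚ, A < w → (w : ℝ) < B → ∀ u : ℝ, u₀ w < u → u < 1 → Ful S I w u)
    (hf : ∀ (J : ℕ) (F : Fam m J), ∃ φ : α J F → PtT F, ∀ ω, ptr F J ω = φ (f J F ω))
    (hy : Kn I p₀ lam' y)
    (hmono : ∀ v o : ℚ, A < v → v ≤ o → (o : ℝ) < B → p v - j * v ≤ p o - j * o)
    (hlt : ∀ w v o : ℚ, A < w → w ≤ v → v ≤ o → (o : ℝ) < B → (o : ℝ) < w + lam →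
      p o - j * o + j * u₀ v < min (p w) (p v) + min lam' (p₀ - u₀ v)) :
    TwoPar S f y (fun w o => qJet m I k j w (p w) (p o - j * o)) A B lam where
  exs w o a b c d := by
    have b' : (w : ℝ) ≤ o := by exact_mod_cast b
    exact exs_jet (hr w a (by linarith)) (hatt w a (by linarith))
  row w v o a b c d e := by
    have b' : (w : ℝ) ≤ v := by exact_mod_cast b
    have c' : (v : ℝ) ≤ o := by exact_mod_cast c
    obtain ⟨u1, u2⟩ := hu₀ w a (by linarith)
    have h1 := hlt w w v a le_rfl b (by linarith) (by linarith)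
    exact few_jet htm le_rfl le_rfl (by linarith) u1 (by linarith) u2 hp0
      (hful w a (by linarith)) hf hy (hmono v o (by linarith) c d) h1
  chg w v o a b c d e := by
    have b' : (w : ℝ) ≤ v := by exact_mod_cast b
    have c' : (v : ℝ) ≤ o := by exact_mod_cast c
    obtain ⟨u1, u2⟩ := hu₀ v (by linarith) (by linarith)
    exact few_jet htm b' le_rfl (by linarith) u1 (by linarith) u2 hp0
      (hful v (by linarith) (by linarith)) hf hy le_rfl (hlt w v o a b c d e)
  own w v a b c d := by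
    have b' : (w : ℝ) ≤ v := by exact_mod_cast b
    obtain ⟨u1, u2⟩ := hu₀ v (by linarith) (by linarith)
    have h1 : Exs S (qJet m I k j v (p v) (p v - j * v)) :=
      exs_jet (hr v (by linarith) (by linarith)) (hatt v (by linarith) (by linarith))
    have h2 : Few0 S f (vg (v : ℝ)) y (qJet m I k j v (p v) (p v - j * v)) :=
      few0_jet htm (by linarith) (by linarith) (by linarith) _ _ _
    refine Few0.trans hpos h1 h2 ?_
    have h3 := hlt w v v a b le_rfl c d
    rw [min_comm] at h3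
    exact few_jet htm le_rfl b' (by linarith) u1 (by linarith) u2 hp0
      (hful v (by linarith) (by linarith)) hf hy le_rfl h3

end Pool.LA91
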