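import Pool.Agent.H91.LA.Own
import Pool.Agent.H91.LA.TwoJ

/-!
# Labels which are affine in one coordinate: few bits

A label of `k` over `I` and `ι` which is affine in the coordinate `ι`, with a closed slope. If the
slopes of any two such labels differ by the natural amount only (`SloN`), then the jets over the
labels of one window are few bits given the jets over the labels of another window and the jets of
`ι` to the natural digits (`few_af`).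
-/

set_option autoImplicit false

namespace Pool.LA91

open Finset Real MvPolynomial
open Pool.Agent.H49.Ent Pool.Agent.H32.Dense Pool.STK Pool.KA Pool.KSAT Pool.K2S Pool.PB Pool.GEN
open Pool.S6C Pool.RCD
open Pool.GRD (LbP Pb_mono_pos)
open Pool.UNJ (ceI Tub)
open Pool.BFL (Pb)

variable {m : ℕ}

/-- `G` is affine in the coordinate `ι`, with the constant slope `c`. -/
def AfI (ι : Fin m) (c : ℝ) (G : MvPolynomial (Option (Fin m)) ℝ) : Prop :=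
  ∀ (b : Option (Fin m) → ℝ) (s : ℝ),
    eval (Function.update b (some ι) s) G = eval b G + c * (s - b (some ι))

theorem jet_cmul (j : ℕ) (κ : ℝ) (H : MvPolynomial (Option (Fin m)) ℝ)
    (b v : Option (Fin m) → ℝ) : jet j (C κ * H) b v = κ * jet j H b v := by
  unfold jet
  have h1 : aeval (lp b v) (C κ * H) = Polynomial.C κ * aeval (lp b v) H := by
    rw [map_mul]
    congr 1
    exact aeval_C _ _
  rw [h1, Polynomial.iterate_derivative_C_mul, Polynomial.eval_mul, Polynomial.eval_C]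

/-! ### The ball -/

/-- **A closed polynomial which is small at the own point** is small on the ball of radius
`2 ^ (-u)`. -/
theorem uni_ball (m K : ℕ) : ∃ C : ℝ, 1 ≤ C ∧
    ∀ (J : ℕ) (F : Fam m J) (q : F.Ω → ℝ) (I : Finset (Fin m)) (w u X : ℕ) (Γ : Type)
      (c : F.Ω → Γ) (D : Γ → MvPolynomial (Option (Fin m)) ℝ) (Gd : F.Ω → Prop) (t θ e η : ℝ),
      IsLaw q → (J : ℝ) * Real.log 2 - e ≤ CH q F.T (fun ω => (F.l ω, F.Z ω)) → w + X ≤ J →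
      (∀ ω ω', slam F w ω = slam F w ω' → c ω = c ω') → (∀ x, (D x).totalDegree ≤ K) →
      (∀ x, ∀ b b' : Option (Fin m) → ℝ, b none = b' none →
        (∀ i ∈ I, b (some i) = b' (some i)) → eval b (D x) = eval b' (D x)) →
      w ≤ u → 0 ≤ θ → 0 ≤ e → 0 < η → η ≤ 1 → 0 < t →
      I.card * (X * Real.log 2) - θ ≤ CH q (fun ω => ceI I (fun _ => u + X) (F.x ω))
        (fun ω => (ceI I (fun _ => u) (F.x ω), c ω, F.W ω)) →
      Pb q (fun ω => ¬ Gd ω) ≤ η / C → C * (θ + e + 1) / η ≤ X * Real.log 2 →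
      (∀ ω, Gd ω → |eval (bt F ω) (D (c ω))| ≤ t) →
      Pb q (fun ω => ¬ ∀ b : Option (Fin m) → ℝ, (∀ o, |b o - bt F ω o| ≤ 2 / 2 ^ u) →
        |eval b (D (c ω))| ≤ Real.exp (C * (θ + e + 1) / η) * t) ≤ η := by
  classical
  obtain ⟨C₁, hC₁, hU⟩ := Pool.UNJ.uni_dep m K 4 (by norm_num)
  refine ⟨C₁, hC₁, ?_⟩
  intro J F q I w u X Γ c D Gd t θ e η hq he hwX hc hD hdep hwu hθ he0 hη hη1 ht hV hGd hX hsm
  have h0 := hq.nonneg
  have key := hU J F q I (fun _ => u) w X Γ c D Gd (fun _ => t) θ e η hq he hwX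
    (fun ω ω' _ _ h => hc ω ω' h) hD hdep hθ he0 hη hη1 (fun _ => ht) hV hGd hX hsm
  refine le_trans (Pb_mono_pos h0 fun ω hqω hω => ?_) key
  intro hall
  refine hω fun b hb => hall b ?_
  have hwu' : (1 : ℝ) / 2 ^ u ≤ 1 / 2 ^ w := inv_mono hwu
  have e2' : (2 : ℝ) / 2 ^ u = 2 * (1 / 2 ^ u) := by ring
  refine ⟨?_, fun i _ => ?_⟩
  · have e1 := hb none
    have e2 : bt F ω none = F.t ω := rfl
    rw [e2] at e1
    have e3 : (4 : ℝ) / 2 ^ w = 4 * (1 / 2 ^ w) := by ring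
    rw [e3]
    rw [e2'] at e1
    have : (0 : ℝ) < 1 / 2 ^ w := by positivity
    linarith
  · have e1 := hb none
    have e2 := hb (some i)
    have e3 : bt F ω none = F.t ω := rfl
    have e4 : bt F ω (some i) = F.u ω i + F.t ω * F.d ω i := rfl
    rw [e3, e2'] at e1
    rw [e4, e2'] at e2
    have e5 := F.dir ω i
    have e6 : |(b none - F.t ω) * F.d ω i| ≤ 2 * (1 / 2 ^ u) := by
      rw [abs_mul]
      exact (mul_le_of_le_one_right (abs_nonneg _) e5).trans e1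
    have e7 : b (some i) - (F.u ω i + b none * F.d ω i) =
        (b (some i) - (F.u ω i + F.t ω * F.d ω i)) - (b none - F.t ω) * F.d ω i := by ring
    rw [e7]
    refine (abs_sub _ _).trans ?_
    have e8 : (4 : ℝ) / 2 ^ u = 4 * (1 / 2 ^ u) := by ring
    show _ ≤ (4 : ℝ) / 2 ^ u
    rw [e8]
    linarith

/-! ### Families -/

theorem Pb_or_le {Ω : Type} [Fintype Ω] {p : Ω → ℝ} (hp : IsLaw p) (A B : Ω → Prop) :
    Pb p (fun ω => A ω ∨ B ω) ≤ Pb p A + Pb p B := by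
  classical
  unfold Pb
  rw [← Finset.sum_add_distrib]
  refine Finset.sum_le_sum fun ω _ => ?_
  have h0 := hp.nonneg ω
  by_cases h1 : A ω <;> by_cases h2 : B ω <;> simp [h1, h2, h0]

/-- **Change of the charts** for labels which are affine in one coordinate, for a family. -/
theorem few_afm (m K j : ℕ) : ∃ C : ℝ, 1 ≤ C ∧ ∀ (J : ℕ) (F : Fam m J) (A : F.Ω → Prop)
    (I : Finset (Fin m)) (ι k : Fin m) (w u a l P₀ P₁ P₂ : ℕ) (s₀ s₁ s₂ : ℝ) (V₀ V₁ V₂ : Type)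
    (z₀ : PtT F → V₀) (z₀' : LnT F → V₀) (G₀ : V₀ → MvPolynomial (Option (Fin m)) ℝ)
    (z₁ : PtT F → V₁) (z₁' : LnT F → V₁) (G₁ : V₁ → MvPolynomial (Option (Fin m)) ℝ)
    (z₂ : PtT F → V₂) (z₂' : LnT F → V₂) (G₂ : V₂ → MvPolynomial (Option (Fin m)) ℝ)
    (c₁ : V₁ → ℝ) (c₂ : V₂ → ℝ) (u₀ u₁ u₂ : F.Ω → ℤ) (Y : Type) (y : F.Ω → Y)
    (θ e η M κ D : ℝ), 0 < Pe F.p A →
    (J : ℝ) * Real.log 2 - e ≤
      CH (Pool.Agent.H49.Ent.cond F.p A True) F.T (fun ω => (F.l ω, F.Z ω)) →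
    LbP F I ι K J w P₀ A z₀ z₀' G₀ → LbP F (insert ι I) k K J w P₁ A z₁ z₁' G₁ →
    LbP F (insert ι I) k K J w P₂ A z₂ z₂' G₂ →
    (∀ x, AfI ι (c₁ x) (G₁ x)) → (∀ x, AfI ι (c₂ x) (G₂ x)) → 0 < κ →
    Pb (Pool.Agent.H49.Ent.cond F.p A True) (fun ω =>
      ¬ |c₁ (z₁' (slam F w ω)) - c₂ (z₂' (slam F w ω))| ≤ κ) ≤ η / C →
    w ≤ u → u + 1 ≤ a → u ≤ J → 0 ≤ θ → 0 ≤ e → 0 < η → η ≤ 1 → 0 ≤ M →
    I.card * (((J - u : ℕ) : ℝ) * Real.log 2) - θ ≤ CH (Pool.Agent.H49.Ent.cond F.p A True)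
      (fun ω => ceI I (fun _ => J) (F.x ω))
      (fun ω => (ceI I (fun _ => u) (F.x ω),
        (z₀' (slam F w ω), z₁' (slam F w ω), z₂' (slam F w ω)), F.W ω)) →
    C * (θ + e + 1) / η ≤ ((J - u : ℕ) : ℝ) * Real.log 2 → 0 < s₀ → 0 < s₂ → s₂ ≤ s₁ → 0 ≤ D →
    κ * s₂ ≤ D * s₀ →
    s₂ * (C * (Real.exp (C * (θ + e + 1) / η) * (1 / 2 ^ P₁ + 1 / 2 ^ P₂ + κ * (1 / 2 ^ P₀))) *
      (2 ^ u / 2 ^ a + 1 / 2 ^ l) * (2 ^ u) ^ j) ≤ 1 →
    (∃ φ : Y → ℕ × (Fin m → ℤ) × (Fin m → ℤ), ∀ ω, φ (y ω) = (F.T ω,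
      (fun i => if i ∈ I then F.X a ω i else 0), (fun i => if i ∈ I then F.D l ω i else 0))) →
    (∀ ω, A ω → u₀ ω = ⌊s₀ * ojet F ι j (G₀ (z₀' (slam F w ω))) ω⌋) →
    (∀ ω, A ω → u₁ ω = ⌊s₁ * ojet F k j (G₁ (z₁' (slam F w ω))) ω⌋) →
    (∀ ω, A ω → u₂ ω = ⌊s₂ * ojet F k j (G₂ (z₂' (slam F w ω))) ω⌋) →
    (cnt F.p u₂ A : ℝ) ≤ Real.exp M →
    CH (Pool.Agent.H49.Ent.cond F.p A True) u₂ (fun ω => ((u₀ ω, u₁ ω),
      ((z₀' (slam F w ω), z₁' (slam F w ω), z₂' (slam F w ω)), y ω))) ≤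
      Real.log 2 + Real.log (2 * (3 + D) + 1) + 2 * η * M := by
  classical
  obtain ⟨C₁, hC₁, hdif⟩ := uni_ball m (max 1 K)
  obtain ⟨C₂, hC₂, hchg⟩ := chg_fam m (max 1 K) j
  refine ⟨max C₁ C₂, hC₁.trans (le_max_left _ _), ?_⟩
  intro J F A I ι k w u a l P₀ P₁ P₂ s₀ s₁ s₂ V₀ V₁ V₂ z₀ z₀' G₀ z₁ z₁' G₁ z₂ z₂' G₂ c₁ c₂
    u₀ u₁ u₂ Y y θ e η M κ D hA htm h₀ h₁ h₂ haf₁ haf₂ hκ hslo hwu hua huJ hθ he hη hη1 hM hful
    hX p0 p2 hn hD hκD hsm hy hu₀ hu₁ hu₂ hc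
  have hq := isLaw_cond F.isLaw hA
  have hqA : ∀ ω, 0 < Pool.Agent.H49.Ent.cond F.p A True ω → A ω := fun ω hω => of_cond_pos hω
  obtain ⟨φ, hφ⟩ := hy
  obtain ⟨Cm, hCm⟩ : ∃ Cm : ℝ, Cm = max C₁ C₂ := ⟨_, rfl⟩
  rw [← hCm] at hX hsm hslo
  have m1 : C₁ ≤ Cm := by rw [hCm]; exact le_max_left _ _
  have m2 : C₂ ≤ Cm := by rw [hCm]; exact le_max_right _ _
  have mE : C₁ * (θ + e + 1) / η ≤ Cm * (θ + e + 1) / η :=
    div_le_div_of_nonneg_right (mul_le_mul_of_nonneg_right m1 (by linarith)) hη.le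
  have hηC : η / Cm ≤ η / C₁ := div_le_div_of_nonneg_left hη.le (by linarith) m1
  have hηC' : η / Cm ≤ η := div_le_self hη.le (hC₁.trans m1)
  have huX : u + (J - u) = J := by omega
  -- the corrected difference
  obtain ⟨E, hE⟩ : ∃ E : V₀ × V₁ × V₂ → MvPolynomial (Option (Fin m)) ℝ, E = fun x =>
    (G₁ x.2.1 - G₂ x.2.2) - C (c₁ x.2.1 - c₂ x.2.2) * (X (some ι) - G₀ x.1) := ⟨_, rfl⟩
  obtain ⟨t, ht⟩ : ∃ t : ℝ, t = 1 / 2 ^ P₁ + 1 / 2 ^ P₂ + κ * (1 / 2 ^ P₀) := ⟨_, rfl⟩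
  rw [← ht] at hsm
  have ht0 : 0 < t := by
    rw [ht]
    positivity
  have hEdeg : ∀ x, (E x).totalDegree ≤ max 1 K := by
    intro x
    rw [hE]
    refine (totalDegree_sub _ _).trans (max_le ?_ ?_)
    · refine (totalDegree_sub _ _).trans (max_le ?_ ?_)
      · exact (h₁.deg _).trans (le_max_right _ _)
      · exact (h₂.deg _).trans (le_max_right _ _)
    · refine (totalDegree_mul _ _).trans ?_
      rw [totalDegree_C, zero_add]
      refine (totalDegree_sub _ _).trans (max_le ?_ ?_)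
      · exact (totalDegree_X (R := ℝ) (some ι)).le.trans (le_max_left _ _)
      · exact (h₀.deg _).trans (le_max_right _ _)
  have hEdep : ∀ x, ∀ b b' : Option (Fin m) → ℝ, b none = b' none →
      (∀ i ∈ I, b (some i) = b' (some i)) → eval b (E x) = eval b' (E x) := by
    intro x b b' hb hb'
    have e1 := haf₁ x.2.1 b (b' (some ι))
    have e2 := haf₂ x.2.2 b (b' (some ι))
    have e3 := h₁.dep x.2.1 (Function.update b (some ι) (b' (some ι))) b' (by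
      rw [Function.update_of_ne (by simp)]
      exact hb) (by
      intro i hi
      rcases Finset.mem_insert.1 hi with rfl | hi
      · rw [Function.update_self]
      · by_cases hii : i = ι
        · rw [hii, Function.update_self]
        · rw [Function.update_of_ne (by simpa using hii)]
          exact hb' i hi)
    have e4 := h₂.dep x.2.2 (Function.update b (some ι) (b' (some ι))) b' (by
      rw [Function.update_of_ne (by simp)]
      exact hb) (by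
      intro i hi
      rcases Finset.mem_insert.1 hi with rfl | hi
      · rw [Function.update_self]
      · by_cases hii : i = ι
        · rw [hii, Function.update_self]
        · rw [Function.update_of_ne (by simpa using hii)]
          exact hb' i hi)
    have e5 := h₀.dep x.1 b b' hb hb'
    rw [hE]
    simp only [map_sub, map_mul, eval_C, eval_X]
    rw [e5, ← e3, ← e4, e1, e2]
    ring
  have key := hdif J F (Pool.Agent.H49.Ent.cond F.p A True) I w u (J - u) (V₀ × V₁ × V₂)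
    (fun ω => (z₀' (slam F w ω), z₁' (slam F w ω), z₂' (slam F w ω))) E
    (fun ω => A ω ∧ |c₁ (z₁' (slam F w ω)) - c₂ (z₂' (slam F w ω))| ≤ κ) t θ e η hq htm
    (by omega) (fun ω ω' h => by simp only [h]) hEdeg hEdep hwu hθ he hη hη1 ht0 (by
      rw [huX]
      exact hful) (by
      refine le_trans (Pb_mono_pos hq.nonneg fun ω hω hbad => ?_) (hslo.trans hηC)
      intro hgood
      exact hbad ⟨hqA ω hω, hgood⟩) (mE.trans hX) (by
      rintro ω ⟨hω, hgood⟩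
      have a0 := h₀.pos ω hω
      have a1 := h₁.pos ω hω
      have a2 := h₂.pos ω hω
      rw [hE]
      simp only [map_sub, map_mul, eval_C, eval_X]
      obtain ⟨g₀, hg₀⟩ : ∃ g, g = eval (bt F ω) (G₀ (z₀' (slam F w ω))) := ⟨_, rfl⟩
      obtain ⟨g₁, hg₁⟩ : ∃ g, g = eval (bt F ω) (G₁ (z₁' (slam F w ω))) := ⟨_, rfl⟩
      obtain ⟨g₂, hg₂⟩ : ∃ g, g = eval (bt F ω) (G₂ (z₂' (slam F w ω))) := ⟨_, rfl⟩
      obtain ⟨κ', hκ'⟩ : ∃ g, g = c₁ (z₁' (slam F w ω)) - c₂ (z₂' (slam F w ω)) := ⟨_, rfl⟩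
      have hx : bt F ω (some ι) = F.x ω ι := rfl
      rw [← hg₀] at a0 ⊢
      rw [← hg₁] at a1 ⊢
      rw [← hg₂] at a2 ⊢
      rw [← hκ'] at hgood ⊢
      rw [hx, ht]
      have e1 : g₁ - g₂ - κ' * (F.x ω ι - g₀) =
          (F.x ω k - g₂) - (F.x ω k - g₁) - κ' * (F.x ω ι - g₀) := by ring
      rw [e1]
      have e2 := abs_sub ((F.x ω k - g₂) - (F.x ω k - g₁)) (κ' * (F.x ω ι - g₀))
      have e3 := abs_sub (F.x ω k - g₂) (F.x ω k - g₁)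
      have e4 : |κ' * (F.x ω ι - g₀)| ≤ κ * (1 / 2 ^ P₀) := by
        rw [abs_mul]
        exact mul_le_mul hgood a0 (abs_nonneg _) hκ.le
      linarith)
  obtain ⟨B, hB⟩ : ∃ B : ℝ, B = Real.exp (Cm * (θ + e + 1) / η) * t := ⟨_, rfl⟩
  have hB0 : 0 ≤ B := by
    rw [hB]
    positivity
  rw [← hB] at hsm
  have hbb : Real.exp (C₁ * (θ + e + 1) / η) * t ≤ B := by
    rw [hB]
    exact mul_le_mul_of_nonneg_right (Real.exp_le_exp.2 mE) ht0.le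
  -- the function of the conditions
  obtain ⟨κf, hκf⟩ : ∃ κf : (ℤ × ℤ) × ((V₀ × V₁ × V₂) × Y) → ℝ, κf = fun x =>
      (x.1.2 : ℝ) * (s₂ / s₁) + s₂ * (c₁ x.2.1.2.1 - c₂ x.2.1.2.2) * ((x.1.1 : ℝ) / s₀) +
        s₂ * jet j (E x.2.1) (bx I J a (φ x.2.2).1 (φ x.2.2).2.1) (vx I l (φ x.2.2).2.2) :=
    ⟨_, rfl⟩
  have key2 := CH_near hq u₂ (fun ω => ((u₀ ω, u₁ ω),
      ((z₀' (slam F w ω), z₁' (slam F w ω), z₂' (slam F w ω)), y ω))) κf
    (fun ω => (¬ |c₁ (z₁' (slam F w ω)) - c₂ (z₂' (slam F w ω))| ≤ κ) ∨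
      ¬ ∀ b : Option (Fin m) → ℝ, (∀ o, |b o - bt F ω o| ≤ 2 / 2 ^ u) →
      |eval b (E (z₀' (slam F w ω), z₁' (slam F w ω), z₂' (slam F w ω)))| ≤
        Real.exp (C₁ * (θ + e + 1) / η) * t) (η := 2 * η) (M := M) (D := 3 + D)
    ((Pb_or_le hq _ _).trans (by linarith)) hM (by linarith) (by
      refine le_trans ?_ hc
      exact_mod_cast cnt_cond_le F.isLaw u₂ A) ?_
  · exact key2
  · intro ω hω hgood
    rw [not_or, not_not, not_not] at hgood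
    obtain ⟨hg1, hgood⟩ := hgood
    have hAω := hqA ω hω
    have h3 := hchg J F I (E (z₀' (slam F w ω), z₁' (slam F w ω), z₂' (slam F w ω))) u a l B ω
      (hEdeg _) (hEdep _) hua (fun b hb => (hgood b hb).trans hbb)
    have h4 := ojet_sub F k j (G₁ (z₁' (slam F w ω))) (G₂ (z₂' (slam F w ω))) ω
    have h6 : jet j (G₁ (z₁' (slam F w ω)) - G₂ (z₂' (slam F w ω))) (bt F ω) (bd F ω) =
        jet j (E (z₀' (slam F w ω), z₁' (slam F w ω), z₂' (slam F w ω))) (bt F ω) (bd F ω) +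
        (c₁ (z₁' (slam F w ω)) - c₂ (z₂' (slam F w ω))) *
          ojet F ι j (G₀ (z₀' (slam F w ω))) ω := by
      rw [hE]
      unfold ojet
      simp only
      rw [jet_sub j _ (C (c₁ (z₁' (slam F w ω)) - c₂ (z₂' (slam F w ω))) * _), jet_cmul]
      ring
    have h5 : κf ((u₀ ω, u₁ ω), ((z₀' (slam F w ω), z₁' (slam F w ω), z₂' (slam F w ω)), y ω)) =
        (u₁ ω : ℝ) * (s₂ / s₁) + s₂ * (c₁ (z₁' (slam F w ω)) - c₂ (z₂' (slam F w ω))) *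
          ((u₀ ω : ℝ) / s₀) +
        s₂ * jet j (E (z₀' (slam F w ω), z₁' (slam F w ω), z₂' (slam F w ω)))
        (bx I J a (F.T ω) (fun i => if i ∈ I then F.X a ω i else 0))
        (vx I l (fun i => if i ∈ I then F.D l ω i else 0)) := by
      rw [hκf]
      simp only [hφ ω]
    rw [h5]
    obtain ⟨o₀, ho₀⟩ : ∃ o : ℝ, o = ojet F ι j (G₀ (z₀' (slam F w ω))) ω := ⟨_, rfl⟩
    obtain ⟨o₁, ho₁⟩ : ∃ o₁ : ℝ, o₁ = ojet F k j (G₁ (z₁' (slam F w ω))) ω := ⟨_, rfl⟩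
    obtain ⟨o₂, ho₂⟩ : ∃ o₂ : ℝ, o₂ = ojet F k j (G₂ (z₂' (slam F w ω))) ω := ⟨_, rfl⟩
    obtain ⟨κ', hκ'⟩ : ∃ g, g = c₁ (z₁' (slam F w ω)) - c₂ (z₂' (slam F w ω)) := ⟨_, rfl⟩
    obtain ⟨Je, hJe⟩ : ∃ Je : ℝ, Je = jet j (E (z₀' (slam F w ω), z₁' (slam F w ω),
      z₂' (slam F w ω))) (bt F ω) (bd F ω) := ⟨_, rfl⟩
    obtain ⟨Jf, hJf⟩ : ∃ Jf : ℝ, Jf = jet j (E (z₀' (slam F w ω), z₁' (slam F w ω),
        z₂' (slam F w ω)))
        (bx I J a (F.T ω) (fun i => if i ∈ I then F.X a ω i else 0))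
        (vx I l (fun i => if i ∈ I then F.D l ω i else 0)) := ⟨_, rfl⟩
    rw [h6, ← ho₁, ← ho₂, ← hJe, ← hκ', ← ho₀] at h4
    rw [← hJe, ← hJf] at h3
    rw [← hκ'] at hg1
    rw [← hJf, hu₀ ω hAω, hu₁ ω hAω, hu₂ ω hAω, ← ho₁, ← ho₂, ← ho₀, ← hκ']
    have p1 : 0 < s₁ := lt_of_lt_of_le p2 hn
    -- the floors
    have a3 := Int.floor_le (s₂ * o₂)
    have a4 := Int.lt_floor_add_one (s₂ * o₂)
    have b1 : |(⌊s₁ * o₁⌋ : ℝ) * (s₂ / s₁) - s₂ * o₁| ≤ 1 := by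
      have a1 := Int.floor_le (s₁ * o₁)
      have a2 := Int.lt_floor_add_one (s₁ * o₁)
      have e1 : (⌊s₁ * o₁⌋ : ℝ) * (s₂ / s₁) - s₂ * o₁ =
          ((⌊s₁ * o₁⌋ : ℝ) - s₁ * o₁) * (s₂ / s₁) := by
        field_simp
      have e2 : s₂ / s₁ ≤ 1 := (div_le_one p1).2 hn
      rw [e1, abs_mul, abs_of_pos (div_pos p2 p1)]
      have e3 : |(⌊s₁ * o₁⌋ : ℝ) - s₁ * o₁| ≤ 1 := by
        rw [abs_le]
        constructor <;> linarith
      exact mul_le_one₀ e3 (div_pos p2 p1).le e2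
    have b0 : |s₂ * κ' * ((⌊s₀ * o₀⌋ : ℝ) / s₀) - s₂ * (κ' * o₀)| ≤ D := by
      have a1 := Int.floor_le (s₀ * o₀)
      have a2 := Int.lt_floor_add_one (s₀ * o₀)
      have e1 : s₂ * κ' * ((⌊s₀ * o₀⌋ : ℝ) / s₀) - s₂ * (κ' * o₀) =
          κ' * (s₂ / s₀) * ((⌊s₀ * o₀⌋ : ℝ) - s₀ * o₀) := by
        field_simp
      have e3 : |(⌊s₀ * o₀⌋ : ℝ) - s₀ * o₀| ≤ 1 := by
        rw [abs_le]
        constructor <;> linarith
      have e4 : |κ' * (s₂ / s₀)| ≤ D := by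
        rw [abs_mul, abs_of_pos (div_pos p2 p0)]
        calc |κ'| * (s₂ / s₀) ≤ κ * (s₂ / s₀) :=
              mul_le_mul_of_nonneg_right hg1 (div_pos p2 p0).le
          _ = κ * s₂ / s₀ := by ring
          _ ≤ D := by rw [div_le_iff₀ p0]; exact hκD
      rw [e1, abs_mul]
      calc |κ' * (s₂ / s₀)| * |(⌊s₀ * o₀⌋ : ℝ) - s₀ * o₀| ≤ D * 1 :=
            mul_le_mul e4 e3 (abs_nonneg _) hD
        _ = D := mul_one D
    have b2 : |s₂ * Je - s₂ * Jf| ≤ 1 := by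
      rw [← mul_sub, abs_mul, abs_of_pos p2]
      refine le_trans (mul_le_mul_of_nonneg_left ?_ p2.le) hsm
      refine h3.trans ?_
      have q1 : (0 : ℝ) ≤ 2 ^ u / 2 ^ a + 1 / 2 ^ l := by positivity
      have q2 : (0 : ℝ) ≤ (2 ^ u) ^ j := by positivity
      refine mul_le_mul_of_nonneg_right (mul_le_mul_of_nonneg_right ?_ q1) q2
      exact mul_le_mul_of_nonneg_right m2 hB0
    have b3 : s₂ * o₂ = s₂ * o₁ + (s₂ * Je + s₂ * (κ' * o₀)) := by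
      rw [h4]
      ring
    rw [abs_le] at b0 b1 b2 ⊢
    constructor <;> linarith [b0.1, b0.2, b1.1, b1.2, b2.1, b2.2]

/-! ### Classes -/

/-- **A relation for the slope** of a label: a hereditary property of real functions. -/
structure SRel (m : ℕ) : Type 1 where
  /-- the slope has the relation on the event, complexity `K`, accuracy `e` -/
  P : ℕ → ℝ → ∀ (J : ℕ) (F : Fam m J), (F.Ω → Prop) → (F.Ω → ℝ) → Prop
  sub : ∀ {K : ℕ} {e : ℝ} {J : ℕ} {F : Fam m J} {A B : F.Ω → Prop} {c : F.Ω → ℝ}, Sub B A →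
    P K e J F A c → P K e J F B c
  mono : ∀ {K K' : ℕ} {e e' : ℝ} {J : ℕ} {F : Fam m J} {A : F.Ω → Prop} {c : F.Ω → ℝ}, K ≤ K' →
    e ≤ e' → P K e J F A c → P K' e' J F A c

/-- **Natural slopes**: two slopes with the relations `R₁` and `R₂` differ by `2 ^ (-(Δ - ε) J)`,
except on an event of small probability. -/
def SloN (S : PCl m) (R₁ R₂ : SRel m) (Δ : ℝ) : Prop :=
  ∀ ε : ℝ, 0 < ε → ∃ e₁ : ℝ, 0 < e₁ ∧ ∀ K : ℕ, ∀ η : ℝ, 0 < η → Bas S (fun J F A =>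
    ∀ c₁ c₂ : F.Ω → ℝ, R₁.P K e₁ J F A c₁ → R₂.P K e₁ J F A c₂ →
    Pb (Pool.Agent.H49.Ent.cond F.p A True)
      (fun ω => ¬ |c₁ ω - c₂ ω| ≤ 2 ^ (-((Δ - ε) * J))) ≤ η)

theorem SloN.sub {S S' : PCl m} (hs : ∀ (τ : ℝ) (J : ℕ) (F : Fam m J) (A : F.Ω → Prop),
    S'.St τ J F A → S.St τ J F A) {R₁ R₂ : SRel m} {Δ : ℝ} (h : SloN S R₁ R₂ Δ) :
    SloN S' R₁ R₂ Δ := by
  intro ε hε
  obtain ⟨e₁, he₁, H⟩ := h ε hε
  exact ⟨e₁, he₁, fun K η hη => (H K η hη).sub hs⟩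

/-- **The jets over a label which is affine in one coordinate**: `qJet` over `I` and `ι`, for the
labels which are affine in `ι` with a closed slope with the relation `R`. -/
noncomputable def qAf (m : ℕ) (R : SRel m) (I : Finset (Fin m)) (ι k : Fin m) (j : ℕ)
    (w p N : ℝ) : Qt m ℤ where
  P K e J F A u := (cnt F.p u A : ℝ) ≤ Real.exp (K * J) ∧
    ∃ (V : Type) (z : PtT F → V) (z' : LnT F → V) (G : V → MvPolynomial (Option (Fin m)) ℝ)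
      (c : V → ℝ),
      LbP F (insert ι I) k K J ⌊w * J⌋₊ ⌊(p - e) * J⌋₊ A z z' G ∧ (∀ x, AfI ι (c x) (G x)) ∧
      R.P K e J F A (fun ω => c (z' (slam F ⌊w * J⌋₊ ω))) ∧
      ∀ ω, A ω → u ω = ⌊(2 : ℝ) ^ (N * J) * ojet F k j (G (z' (slam F ⌊w * J⌋₊ ω))) ω⌋
  sub := by
    rintro K e J F A B u hB ⟨hc, V, z, z', G, c, hl, ha, hR, hu⟩
    refine ⟨le_trans ?_ hc, V, z, z', G, c, hl.sub hB, ha, R.sub hB hR, fun ω hω => hu ω (hB ω hω)⟩
    exact_mod_cast cnt_mono F.p u hB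
  mono := by
    rintro K K' e e' J F A u hK he ⟨hc, V, z, z', G, c, hl, ha, hR, hu⟩
    refine ⟨hc.trans (Real.exp_le_exp.2 ?_), V, z, z', G, c, hl.mono (Finset.Subset.refl _) hK
      (Nat.floor_le_floor (mul_le_mul_of_nonneg_right (by linarith) (Nat.cast_nonneg J))), ha,
      R.mono hK he hR, hu⟩
    exact mul_le_mul_of_nonneg_right (by exact_mod_cast hK) (Nat.cast_nonneg J)

theorem qAf.jet {R : SRel m} {I : Finset (Fin m)} {ι k : Fin m} {j : ℕ} {w p N : ℝ} {K : ℕ}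
    {e : ℝ} {J : ℕ} {F : Fam m J} {A : F.Ω → Prop} {u : F.Ω → ℤ}
    (h : (qAf m R I ι k j w p N).P K e J F A u) :
    (qJet m (insert ι I) k j w p N).P K e J F A u := by
  obtain ⟨hc, V, z, z', G, c, hl, -, -, hu⟩ := h
  exact ⟨hc, V, z, z', G, hl, hu⟩

/-- **Few bits at the own window.** -/
theorem few0_af {S : PCl m} {C₀ : ℝ} (htm : TmC S C₀) {R : SRel m} {I : Finset (Fin m)}
    {ι k : Fin m} {j : ℕ} {w p N : ℝ} (hw0 : 0 ≤ w) (hw1 : w < 1) (hN : N + j * w ≤ p)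
    {α β γ : ∀ J : ℕ, Fam m J → Type} (f : ∀ (J : ℕ) (F : Fam m J), F.Ω → α J F)
    (g : ∀ (J : ℕ) (F : Fam m J), F.Ω → β J F) (y : ∀ (J : ℕ) (F : Fam m J), F.Ω → γ J F) :
    Few0 S f g y (qAf m R I ι k j w p N) := by
  intro h hh
  obtain ⟨e, he, H⟩ := few0_jet htm (I := insert ι I) (k := k) hw0 hw1 hN f g y h hh
  exact ⟨e, he, fun K => Bas.mono 0 (H K) fun J _ F A H u hu => H u (qAf.jet hu)⟩

/-- **Labels which are affine in `ι` are attained** at the window `w`, of the precision `p`, with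
own jets of the order `j` which are at most exponentially large. -/
def AttA (S : PCl m) (R : SRel m) (I : Finset (Fin m)) (ι k : Fin m) (j : ℕ) (w p : ℝ) : Prop :=
  ∀ e : ℝ, 0 < e → ∃ K : ℕ, Bas S (fun J F A => ∃ (V : Type) (z : PtT F → V) (z' : LnT F → V)
    (G : V → MvPolynomial (Option (Fin m)) ℝ) (c : V → ℝ),
    LbP F (insert ι I) k K J ⌊w * J⌋₊ ⌊(p - e) * J⌋₊ A z z' G ∧ (∀ x, AfI ι (c x) (G x)) ∧
    R.P K e J F A (fun ω => c (z' (slam F ⌊w * J⌋₊ ω))) ∧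
    ∀ ω, A ω → |ojet F k j (G (z' (slam F ⌊w * J⌋₊ ω))) ω| ≤ (2 : ℝ) ^ ((K : ℝ) * J))

theorem AttA.sub {S S' : PCl m} (hs : ∀ (τ : ℝ) (J : ℕ) (F : Fam m J) (A : F.Ω → Prop),
    S'.St τ J F A → S.St τ J F A) {R : SRel m} {I : Finset (Fin m)} {ι k : Fin m} {j : ℕ}
    {w p : ℝ} (h : AttA S R I ι k j w p) : AttA S' R I ι k j w p := fun e he => by
  obtain ⟨K, hK⟩ := h e he
  exact ⟨K, hK.sub hs⟩

/-- **The jets exist.** -/
theorem exs_af {S : PCl m} {R : SRel m} {I : Finset (Fin m)} {ι k : Fin m} {j : ℕ} {w p N : ℝ}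
    (h : AttA S R I ι k j w p) : Exs S (qAf m R I ι k j w p N) := by
  intro e he
  obtain ⟨K, hK⟩ := h e he
  have hl2 : 0 < Real.log 2 := Real.log_pos one_lt_two
  obtain ⟨B, hB⟩ : ∃ B : ℝ, B = |N| + K := ⟨_, rfl⟩
  have hB0 : 0 ≤ B := by
    rw [hB]
    positivity
  obtain ⟨M, hM⟩ : ∃ M : ℕ, M = max K ⌈B * Real.log 2 + 1⌉₊ := ⟨_, rfl⟩
  have hM1 : B * Real.log 2 + 1 ≤ M := by
    refine (Nat.le_ceil _).trans ?_
    rw [hM]
    exact_mod_cast le_max_right _ _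
  have hKM : K ≤ M := by
    rw [hM]
    exact le_max_left _ _
  obtain ⟨J₁, hJ₁⟩ := exists_nat_ge (Real.log 5)
  refine ⟨M, M, Bas.mono J₁ hK ?_⟩
  rintro J hJ F A ⟨V, z, z', G, c, hlb, ha, hR, hbig⟩
  have hJ0 : (0 : ℝ) ≤ J := Nat.cast_nonneg J
  have hJ1 : (J₁ : ℝ) ≤ J := by exact_mod_cast hJ
  have hcnt : (cnt F.p (fun ω => ⌊(2 : ℝ) ^ (N * J) *
      ojet F k j (G (z' (slam F ⌊w * J⌋₊ ω))) ω⌋) A : ℝ) ≤ Real.exp (M * J) := by
    have b1 : (1 : ℝ) ≤ 2 ^ (B * J) := by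
      rw [← exp_p2]
      exact Real.one_le_exp (by positivity)
    have h1 := cnt_le_of_abs (p := F.p) (u := fun ω => ⌊(2 : ℝ) ^ (N * J) *
      ojet F k j (G (z' (slam F ⌊w * J⌋₊ ω))) ω⌋) (A := A) (B := 2 * 2 ^ (B * J))
      (by positivity) (by
        intro ω hω
        have h2 := hbig ω hω
        obtain ⟨o, ho⟩ : ∃ o, o = ojet F k j (G (z' (slam F ⌊w * J⌋₊ ω))) ω := ⟨_, rfl⟩
        rw [← ho] at h2 ⊢
        have h3 : |(2 : ℝ) ^ (N * J) * o| ≤ 2 ^ (B * J) := by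
          have b3 : (0 : ℝ) < 2 ^ (N * J) := Real.rpow_pos_of_pos (by norm_num) _
          rw [abs_mul, abs_of_pos b3]
          calc (2 : ℝ) ^ (N * J) * |o| ≤ 2 ^ (N * J) * 2 ^ ((K : ℝ) * J) :=
                mul_le_mul_of_nonneg_left h2 b3.le
            _ ≤ 2 ^ (B * J) := by
                rw [← Real.rpow_add (by norm_num)]
                refine Real.rpow_le_rpow_of_exponent_le (by norm_num) ?_
                have := mul_le_mul_of_nonneg_right (le_abs_self N) hJ0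
                rw [hB]
                linarith
        have h4 := Int.floor_le ((2 : ℝ) ^ (N * J) * o)
        have h5 := Int.lt_floor_add_one ((2 : ℝ) ^ (N * J) * o)
        have h6 := abs_le.1 h3
        rw [abs_le]
        constructor <;> linarith [h6.1, h6.2])
    refine h1.trans ?_
    have h2 : 2 * (2 * (2 : ℝ) ^ (B * J)) + 1 ≤ 5 * 2 ^ (B * J) := by linarith
    refine h2.trans ?_
    rw [← exp_p2]
    calc 5 * Real.exp (B * J * Real.log 2)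
        = Real.exp (Real.log 5) * Real.exp (B * J * Real.log 2) := by
          rw [Real.exp_log (by norm_num)]
      _ = Real.exp (Real.log 5 + B * J * Real.log 2) := (Real.exp_add _ _).symm
      _ ≤ Real.exp (M * J) := by
          refine Real.exp_le_exp.2 ?_
          have := mul_le_mul_of_nonneg_right hM1 hJ0
          nlinarith [hJ₁.trans hJ1]
  refine ⟨_, ⟨hcnt, V, z, z', G, c, ?_, ha, R.mono hKM le_rfl hR, fun ω _ => rfl⟩, hcnt⟩
  exact hlb.mono (Finset.Subset.refl _) hKM le_rfl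

/-- **Change of the charts** for labels which are affine in `ι` with natural slopes. -/
theorem few_af {S : PCl m} {C₀ : ℝ} (htm : TmC S C₀) {R₁ R₂ : SRel m} {Δ : ℝ}
    (hslo : SloN S R₁ R₂ Δ) {I : Finset (Fin m)} {ι k : Fin m} {j : ℕ}
    {w w₀ w₁ w₂ q p₁ p₂ N₀ N₁ N₂ p₀ lam u₀ : ℝ} (hw₀ : w₀ ≤ w) (hw₁ : w₁ ≤ w) (hw₂ : w₂ ≤ w)
    (hw : w ≤ 1) (hwu : w ≤ u₀) (hu0 : 0 ≤ u₀) (hu1 : u₀ < p₀) (hp0 : p₀ ≤ 1)
    (hful : ∀ u : ℝ, u₀ < u → u < 1 → Ful S I w u)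
    {α γ : ∀ J : ℕ, Fam m J → Type} {f : ∀ (J : ℕ) (F : Fam m J), F.Ω → α J F}
    {y : ∀ (J : ℕ) (F : Fam m J), F.Ω → γ J F}
    (hf : ∀ (J : ℕ) (F : Fam m J), ∃ φ : α J F → PtT F, ∀ ω, ptr F J ω = φ (f J F ω))
    (hy : Kn I p₀ lam y) (hN : N₂ ≤ N₁) (hN₀ : N₂ ≤ N₀ + Δ)
    (hlt : N₂ + j * u₀ < min (min p₁ p₂) (q + Δ) + min lam (p₀ - u₀)) :
    Few S f (vg w) y ((qJet m I ι j w₀ q N₀).prod (qAf m R₁ I ι k j w₁ p₁ N₁))
      (qAf m R₂ I ι k j w₂ p₂ N₂) := by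
  classical
  intro h hh
  obtain ⟨p, hp⟩ : ∃ p, p = min (min p₁ p₂) (q + Δ) := ⟨_, rfl⟩
  obtain ⟨L, hL⟩ : ∃ L, L = min lam (p₀ - u₀) := ⟨_, rfl⟩
  rw [← hp, ← hL] at hlt
  have hp1 : p ≤ p₁ := by rw [hp]; exact (min_le_left _ _).trans (min_le_left _ _)
  have hp2 : p ≤ p₂ := by rw [hp]; exact (min_le_left _ _).trans (min_le_right _ _)
  have hpq : p ≤ q + Δ := by rw [hp]; exact min_le_right _ _
  have hL1 : L ≤ lam := by rw [hL]; exact min_le_left _ _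
  have hL2 : L ≤ p₀ - u₀ := by rw [hL]; exact min_le_right _ _
  obtain ⟨σ, hσ⟩ : ∃ σ, σ = p + L - (N₂ + j * u₀) := ⟨_, rfl⟩
  have hσ0 : 0 < σ := by rw [hσ]; linarith
  have hj0 : (0 : ℝ) ≤ j := Nat.cast_nonneg j
  obtain ⟨δ, hδ⟩ : ∃ δ : ℝ, δ = min (σ / (8 * ((j : ℝ) + 1))) ((p₀ - u₀) / 2) := ⟨_, rfl⟩
  have hδ0 : 0 < δ := by
    rw [hδ]
    refine lt_min (by positivity) (by linarith)
  have hδ1 : ((j : ℝ) + 1) * δ ≤ σ / 8 := by
    have e1 : δ ≤ σ / (8 * ((j : ℝ) + 1)) := by rw [hδ]; exact min_le_left _ _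
    have e2 : ((j : ℝ) + 1) * (σ / (8 * ((j : ℝ) + 1))) = σ / 8 := by field_simp
    rw [← e2]
    exact mul_le_mul_of_nonneg_left e1 (by linarith)
  have hδ2 : δ ≤ (p₀ - u₀) / 2 := by rw [hδ]; exact min_le_right _ _
  obtain ⟨ε, hε⟩ : ∃ ε : ℝ, ε = min (σ / 8) (h / 8) := ⟨_, rfl⟩
  have hε0 : 0 < ε := by
    rw [hε]
    exact lt_min (by linarith) (by linarith)
  have hεσ : ε ≤ σ / 8 := by rw [hε]; exact min_le_left _ _
  have hεh : ε ≤ h / 8 := by rw [hε]; exact min_le_right _ _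
  obtain ⟨e₁, he₁, hslo⟩ := hslo ε hε0
  obtain ⟨e₂, he₂⟩ : ∃ e₂ : ℝ, e₂ = min (σ / 8) e₁ := ⟨_, rfl⟩
  have he₂0 : 0 < e₂ := by
    rw [he₂]
    exact lt_min (by linarith) he₁
  have he₂σ : e₂ ≤ σ / 8 := by rw [he₂]; exact min_le_left _ _
  have he₂1 : e₂ ≤ e₁ := by rw [he₂]; exact min_le_right _ _
  refine ⟨e₂, he₂0, fun K => ?_⟩
  obtain ⟨C, hC, hfam⟩ := few_afm m K j
  have hC0 : 0 < C := by linarith
  have hl2 : 0 < Real.log 2 := Real.log_pos one_lt_two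
  have hl21 : Real.log 2 ≤ 1 := by
    have := Real.log_two_lt_d9
    linarith
  obtain ⟨η, hη⟩ : ∃ η : ℝ, η = min 1 (h / (4 * ((K : ℝ) + 1))) := ⟨_, rfl⟩
  have hη0 : 0 < η := by
    rw [hη]
    exact lt_min one_pos (by positivity)
  have hη1 : η ≤ 1 := by rw [hη]; exact min_le_left _ _
  have hηK : 2 * η * K ≤ h / 2 := by
    have e1 : η ≤ h / (4 * ((K : ℝ) + 1)) := by rw [hη]; exact min_le_right _ _
    have e2 : (K : ℝ) * (h / (4 * ((K : ℝ) + 1))) ≤ h / 4 := by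
      rw [mul_div_assoc', div_le_iff₀ (by positivity)]
      have : (0 : ℝ) ≤ K := Nat.cast_nonneg K
      nlinarith
    have e3 := mul_le_mul_of_nonneg_left e1 (Nat.cast_nonneg (α := ℝ) K)
    linarith
  obtain ⟨ψ, hψ⟩ : ∃ ψ : ℝ, ψ = η * min (σ / 8) ((p₀ - u₀) / 2) * Real.log 2 / (3 * C) := ⟨_, rfl⟩
  have hmn0 : 0 < min (σ / 8) ((p₀ - u₀) / 2) := lt_min (by linarith) (by linarith)
  have hψ0 : 0 < ψ := by
    rw [hψ]
    positivity
  have hψ1 : C * (3 * ψ) / η = min (σ / 8) ((p₀ - u₀) / 2) * Real.log 2 := by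
    rw [hψ]
    field_simp
  -- the limits
  obtain ⟨J₃, hJ₃⟩ := exists_nat_ge (Real.log (24 * C) / (σ / 8 * Real.log 2) + 1 / ψ +
    1 / ((p₀ - u₀) / 2) + (Real.log 2 + Real.log 9) / (h / 4))
  refine Bas.mono J₃ (((hful (u₀ + δ) (by linarith) (by linarith) ψ hψ0).and
    (Pool.GRW.tmc_bas htm hψ0)).and (hslo K (η / C) (by positivity))) ?_
  rintro J hJ F A ⟨⟨hF, hA, hT⟩, hslo⟩ u u' ⟨⟨-, V₀, z₀, z₀', G₀, hl₀, hu₀⟩, -, V₁, z₁, z₁', G₁, c₁,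
    hl₁, ha₁, hR₁, hu₁⟩ ⟨hc, V₂, z₂, z₂', G₂, c₂, hl₂, ha₂, hR₂, hu₂⟩
  have hJ3 : (J₃ : ℝ) ≤ J := by exact_mod_cast hJ
  have hJ0 : (0 : ℝ) ≤ J := Nat.cast_nonneg J
  have hl12 : 0 ≤ Real.log (24 * C) := Real.log_nonneg (by linarith)
  have hl9 : 0 < Real.log 9 := Real.log_pos (by norm_num)
  have t1 : 0 ≤ Real.log (24 * C) / (σ / 8 * Real.log 2) := by positivity
  have t2 : 0 < 1 / ψ := by positivity
  have t3 : 0 < 1 / ((p₀ - u₀) / 2) := div_pos one_pos (by linarith)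
  have t4 : 0 < (Real.log 2 + Real.log 9) / (h / 4) := by positivity
  have f1 : Real.log (24 * C) ≤ σ / 8 * Real.log 2 * J := by
    have : Real.log (24 * C) / (σ / 8 * Real.log 2) ≤ J := by linarith
    rw [div_le_iff₀ (by positivity)] at this
    linarith
  have f2 : 1 ≤ ψ * J := by
    have : 1 / ψ ≤ J := by linarith
    rw [div_le_iff₀ hψ0] at this
    linarith
  have f3 : 1 ≤ (p₀ - u₀) / 2 * J := by
    have : 1 / ((p₀ - u₀) / 2) ≤ J := by linarith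
    rw [div_le_iff₀ (by linarith)] at this
    linarith
  have f4 : Real.log 2 + Real.log 9 ≤ h / 4 * J := by
    have : (Real.log 2 + Real.log 9) / (h / 4) ≤ J := by linarith
    rw [div_le_iff₀ (by positivity)] at this
    linarith
  -- the integers
  have hwJ : ⌊w * J⌋₊ ≤ J := floor_le hw J
  have hw0J : ⌊w₀ * J⌋₊ ≤ ⌊w * J⌋₊ := Nat.floor_le_floor (mul_le_mul_of_nonneg_right hw₀ hJ0)
  have hw1J : ⌊w₁ * J⌋₊ ≤ ⌊w * J⌋₊ := Nat.floor_le_floor (mul_le_mul_of_nonneg_right hw₁ hJ0)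
  have hw2J : ⌊w₂ * J⌋₊ ≤ ⌊w * J⌋₊ := Nat.floor_le_floor (mul_le_mul_of_nonneg_right hw₂ hJ0)
  have huf : ((⌊(u₀ + δ) * J⌋₊ : ℕ) : ℝ) ≤ (u₀ + δ) * J := Nat.floor_le (by positivity)
  have hua1 : ⌊(u₀ + δ) * J⌋₊ + 1 ≤ ⌊p₀ * J⌋₊ := by
    refine Nat.le_floor ?_
    push_cast
    have : (u₀ + δ) * J ≤ (p₀ - (p₀ - u₀) / 2) * J :=
      mul_le_mul_of_nonneg_right (by linarith) hJ0
    linarith
  have haJ : ⌊p₀ * J⌋₊ ≤ J := floor_le hp0 J
  have huJ1 : ⌊(u₀ + δ) * J⌋₊ ≤ J := by omega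
  have hl₀' := hl₀.win hw0J hwJ
  have hl₁' := hl₁.win hw1J hwJ
  have hl₂' := hl₂.win hw2J hwJ
  obtain ⟨y₀, hy₀⟩ : ∃ y₀ : LnT F → V₀, y₀ = fun s =>
    z₀' (s.1, s.2.1, s.2.2 / 2 ^ (⌊w * J⌋₊ - ⌊w₀ * J⌋₊)) := ⟨_, rfl⟩
  obtain ⟨y₁, hy₁⟩ : ∃ y₁ : LnT F → V₁, y₁ = fun s =>
    z₁' (s.1, s.2.1, s.2.2 / 2 ^ (⌊w * J⌋₊ - ⌊w₁ * J⌋₊)) := ⟨_, rfl⟩
  obtain ⟨y₂, hy₂⟩ : ∃ y₂ : LnT F → V₂, y₂ = fun s =>
    z₂' (s.1, s.2.1, s.2.2 / 2 ^ (⌊w * J⌋₊ - ⌊w₂ * J⌋₊)) := ⟨_, rfl⟩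
  rw [← hy₀] at hl₀'
  rw [← hy₁] at hl₁'
  rw [← hy₂] at hl₂'
  have g0 : ∀ ω, y₀ (slam F ⌊w * J⌋₊ ω) = z₀' (slam F ⌊w₀ * J⌋₊ ω) := fun ω => by
    rw [hy₀]
    show z₀' ((slam F ⌊w * J⌋₊ ω).1, (slam F ⌊w * J⌋₊ ω).2.1,
      (slam F ⌊w * J⌋₊ ω).2.2 / 2 ^ (⌊w * J⌋₊ - ⌊w₀ * J⌋₊)) = _
    rw [← slam_coarse F hw0J hwJ ω]
  have g1 : ∀ ω, y₁ (slam F ⌊w * J⌋₊ ω) = z₁' (slam F ⌊w₁ * J⌋₊ ω) := fun ω => by
    rw [hy₁]
    show z₁' ((slam F ⌊w * J⌋₊ ω).1, (slam F ⌊w * J⌋₊ ω).2.1,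
      (slam F ⌊w * J⌋₊ ω).2.2 / 2 ^ (⌊w * J⌋₊ - ⌊w₁ * J⌋₊)) = _
    rw [← slam_coarse F hw1J hwJ ω]
  have g2 : ∀ ω, y₂ (slam F ⌊w * J⌋₊ ω) = z₂' (slam F ⌊w₂ * J⌋₊ ω) := fun ω => by
    rw [hy₂]
    show z₂' ((slam F ⌊w * J⌋₊ ω).1, (slam F ⌊w * J⌋₊ ω).2.1,
      (slam F ⌊w * J⌋₊ ω).2.2 / 2 ^ (⌊w * J⌋₊ - ⌊w₂ * J⌋₊)) = _
    rw [← slam_coarse F hw2J hwJ ω]
  have hslo' := hslo _ _ (R₁.mono le_rfl he₂1 hR₁) (R₂.mono le_rfl he₂1 hR₂)
  refine ⟨V₀ × V₁ × V₂, fun ω => (y₀ (slam F ⌊w * J⌋₊ ω), y₁ (slam F ⌊w * J⌋₊ ω),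
    y₂ (slam F ⌊w * J⌋₊ ω)), ⟨?_, ?_⟩, ?_⟩
  · obtain ⟨φ, hφ⟩ := hf J F
    refine ⟨fun a => (z₀ (φ a), z₁ (φ a), z₂ (φ a)), fun ω hω => ?_⟩
    show (y₀ (slam F ⌊w * J⌋₊ ω), y₁ (slam F ⌊w * J⌋₊ ω), y₂ (slam F ⌊w * J⌋₊ ω)) =
      (z₀ (φ (f J F ω)), z₁ (φ (f J F ω)), z₂ (φ (f J F ω)))
    rw [← hφ ω, hl₀'.cls ω hω, hl₁'.cls ω hω, hl₂'.cls ω hω]
  · exact ⟨fun s => (y₀ s, y₁ s, y₂ s), fun ω _ => rfl⟩
  have hexp : C * (ψ * J + ψ * J + 1) / η ≤ min (σ / 8) ((p₀ - u₀) / 2) * Real.log 2 * J := by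
    rw [← hψ1]
    have e1 : C * (ψ * J + ψ * J + 1) ≤ C * (3 * ψ) * J := by nlinarith
    calc C * (ψ * J + ψ * J + 1) / η ≤ C * (3 * ψ) * J / η := div_le_div_of_nonneg_right e1 hη0.le
      _ = _ := by ring
  have hpε : (1 : ℝ) ≤ 2 ^ (ε * J) := by
    rw [← exp_p2]
    exact Real.one_le_exp (by positivity)
  have key := hfam J F A I ι k ⌊w * J⌋₊ ⌊(u₀ + δ) * J⌋₊ ⌊p₀ * J⌋₊ ⌊lam * J⌋₊ ⌊(q - e₂) * J⌋₊
    ⌊(p₁ - e₂) * J⌋₊ ⌊(p₂ - e₂) * J⌋₊ (2 ^ (N₀ * J)) (2 ^ (N₁ * J)) (2 ^ (N₂ * J)) V₀ V₁ V₂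
    z₀ y₀ G₀ z₁ y₁ G₁ z₂ y₂ G₂ c₁ c₂ (fun ω => (u ω).1) (fun ω => (u ω).2) u' (γ J F) (y J F)
    (ψ * J) (ψ * J) η (K * J) (2 ^ (-((Δ - ε) * J))) (2 ^ (ε * J)) hA (by linarith) hl₀' hl₁' hl₂'
    ha₁ ha₂ (Real.rpow_pos_of_pos (by norm_num) _) (by
      refine le_trans (le_of_eq ?_) hslo'
      congr 1
      funext ω
      rw [g1 ω, g2 ω])
    (Nat.floor_le_floor (mul_le_mul_of_nonneg_right (by linarith) hJ0)) hua1 huJ1 (by positivity)
    (by positivity) hη0 hη1 (by positivity) ?_ ?_ (Real.rpow_pos_of_pos (by norm_num) _)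
    (Real.rpow_pos_of_pos (by norm_num) _)
    (Real.rpow_le_rpow_of_exponent_le (by norm_num) (mul_le_mul_of_nonneg_right hN hJ0))
    (by linarith) (by
      rw [← Real.rpow_add (by norm_num), ← Real.rpow_add (by norm_num)]
      refine Real.rpow_le_rpow_of_exponent_le (by norm_num) ?_
      have e1 : -((Δ - ε) * J) + N₂ * J = (ε + (N₂ - Δ)) * J := by ring
      have e2 : ε * J + N₀ * J = (ε + N₀) * J := by ring
      rw [e1, e2]
      exact mul_le_mul_of_nonneg_right (by linarith) hJ0) ?_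
    (hy J F) (fun ω hω => by rw [g0 ω]; exact hu₀ ω hω)
    (fun ω hω => by rw [g1 ω]; exact hu₁ ω hω) (fun ω hω => by rw [g2 ω]; exact hu₂ ω hω) hc
  · refine key.trans ?_
    have e1 : 2 * η * (K * J) ≤ h / 2 * J := by
      calc 2 * η * (K * J) = 2 * η * K * J := by ring
        _ ≤ h / 2 * J := mul_le_mul_of_nonneg_right hηK hJ0
    have e2 : Real.log (2 * (3 + 2 ^ (ε * J)) + 1) ≤ Real.log 9 + h / 8 * J := by
      have e3 : 2 * (3 + (2 : ℝ) ^ (ε * J)) + 1 ≤ 9 * 2 ^ (ε * J) := by linarith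
      refine (Real.log_le_log (by positivity) e3).trans ?_
      rw [Real.log_mul (by norm_num) (by positivity), ← exp_p2, Real.log_exp]
      have e4 : ε * J * Real.log 2 ≤ ε * J * 1 :=
        mul_le_mul_of_nonneg_left hl21 (by positivity)
      have e5 : ε * J ≤ h / 8 * J := mul_le_mul_of_nonneg_right hεh hJ0
      linarith
    have e6 : 0 ≤ h * J := by positivity
    linarith
  · have h3 := hF (V₀ × V₁ × V₂) (fun x => (z₀ x, z₁ x, z₂ x)) (fun x => (y₀ x, y₁ x, y₂ x))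
      (fun ω hω => by rw [hl₀'.cls ω hω, hl₁'.cls ω hω, hl₂'.cls ω hω])
    exact h3
  · refine hexp.trans ?_
    rw [Nat.cast_sub huJ1]
    calc min (σ / 8) ((p₀ - u₀) / 2) * Real.log 2 * J ≤ (p₀ - u₀) / 2 * Real.log 2 * J :=
          mul_le_mul_of_nonneg_right (mul_le_mul_of_nonneg_right (min_le_right _ _) hl2.le) hJ0
      _ = ((p₀ - u₀) / 2 * J) * Real.log 2 := by ring
      _ ≤ ((J : ℝ) - (⌊(u₀ + δ) * J⌋₊ : ℕ)) * Real.log 2 := by
        refine mul_le_mul_of_nonneg_right ?_ hl2.le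
        have h1 : (u₀ + δ) * J ≤ (p₀ - (p₀ - u₀) / 2) * J :=
          mul_le_mul_of_nonneg_right (by linarith) hJ0
        have h2 : p₀ * J ≤ 1 * J := mul_le_mul_of_nonneg_right hp0 hJ0
        linarith
  · -- the exponents
    have a2 : Real.exp (C * (ψ * J + ψ * J + 1) / η) ≤ 2 ^ (σ / 8 * J) := by
      rw [← exp_p2]
      refine Real.exp_le_exp.2 (hexp.trans ?_)
      have : min (σ / 8) ((p₀ - u₀) / 2) * Real.log 2 * J ≤ σ / 8 * Real.log 2 * J :=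
        mul_le_mul_of_nonneg_right (mul_le_mul_of_nonneg_right (min_le_left _ _) hl2.le) hJ0
      linarith
    have a3 : 1 / (2 : ℝ) ^ ⌊(p₁ - e₂) * J⌋₊ ≤ 2 * 2 ^ (-((p - σ / 4) * J)) := by
      refine (ip2_le _).trans (mul_le_mul_of_nonneg_left ?_ (by norm_num))
      refine Real.rpow_le_rpow_of_exponent_le (by norm_num) ?_
      have : (p - σ / 4) * J ≤ (p₁ - e₂) * J := mul_le_mul_of_nonneg_right (by linarith) hJ0
      linarith
    have a4 : 1 / (2 : ℝ) ^ ⌊(p₂ - e₂) * J⌋₊ ≤ 2 * 2 ^ (-((p - σ / 4) * J)) := by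
      refine (ip2_le _).trans (mul_le_mul_of_nonneg_left ?_ (by norm_num))
      refine Real.rpow_le_rpow_of_exponent_le (by norm_num) ?_
      have : (p - σ / 4) * J ≤ (p₂ - e₂) * J := mul_le_mul_of_nonneg_right (by linarith) hJ0
      linarith
    have a40 : (2 : ℝ) ^ (-((Δ - ε) * J)) * (1 / (2 : ℝ) ^ ⌊(q - e₂) * J⌋₊) ≤
        2 * 2 ^ (-((p - σ / 4) * J)) := by
      have e1 : (0 : ℝ) < 2 ^ (-((Δ - ε) * J)) := Real.rpow_pos_of_pos (by norm_num) _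
      refine (mul_le_mul_of_nonneg_left (ip2_le _) e1.le).trans ?_
      have e2 : (2 : ℝ) ^ (-((Δ - ε) * J)) * (2 * 2 ^ (-((q - e₂) * J))) =
          2 * 2 ^ (-((Δ - ε) * J) + -((q - e₂) * J)) := by
        rw [Real.rpow_add (by norm_num)]
        ring
      rw [e2]
      refine mul_le_mul_of_nonneg_left ?_ (by norm_num)
      refine Real.rpow_le_rpow_of_exponent_le (by norm_num) ?_
      have e3 : (p - σ / 4) * J ≤ ((Δ - ε) + (q - e₂)) * J :=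
        mul_le_mul_of_nonneg_right (by linarith) hJ0
      linarith
    have a5 : (2 : ℝ) ^ ⌊(u₀ + δ) * J⌋₊ ≤ 2 ^ ((u₀ + δ) * J) := p2_le (by positivity)
    have a6 : (2 : ℝ) ^ ⌊(u₀ + δ) * J⌋₊ / 2 ^ ⌊p₀ * J⌋₊ ≤ 2 * 2 ^ (-((L - δ) * J)) := by
      rw [div_eq_mul_one_div]
      have e1 := ip2_le (p₀ * J)
      have e2 : (0 : ℝ) < 2 ^ ((u₀ + δ) * J) := Real.rpow_pos_of_pos (by norm_num) _
      calc (2 : ℝ) ^ ⌊(u₀ + δ) * J⌋₊ * (1 / 2 ^ ⌊p₀ * J⌋₊)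
          ≤ 2 ^ ((u₀ + δ) * J) * (2 * 2 ^ (-(p₀ * J))) :=
            mul_le_mul a5 e1 (by positivity) e2.le
        _ = 2 * 2 ^ ((u₀ + δ) * J + -(p₀ * J)) := by
            rw [Real.rpow_add (by norm_num)]
            ring
        _ ≤ 2 * 2 ^ (-((L - δ) * J)) := by
            refine mul_le_mul_of_nonneg_left ?_ (by norm_num)
            refine Real.rpow_le_rpow_of_exponent_le (by norm_num) ?_
            have : (u₀ + δ) * J ≤ (p₀ - (L - δ)) * J :=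
              mul_le_mul_of_nonneg_right (by linarith) hJ0
            linarith
    have a7 : 1 / (2 : ℝ) ^ ⌊lam * J⌋₊ ≤ 2 * 2 ^ (-((L - δ) * J)) := by
      refine (ip2_le _).trans (mul_le_mul_of_nonneg_left ?_ (by norm_num))
      refine Real.rpow_le_rpow_of_exponent_le (by norm_num) ?_
      have : (L - δ) * J ≤ lam * J := mul_le_mul_of_nonneg_right (by linarith) hJ0
      linarith
    have a8 : ((2 : ℝ) ^ ⌊(u₀ + δ) * J⌋₊) ^ j ≤ 2 ^ (j * ((u₀ + δ) * J)) := by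
      refine (pow_le_pow_left₀ (by positivity) a5 j).trans (le_of_eq ?_)
      rw [← Real.rpow_natCast, ← Real.rpow_mul (by norm_num)]
      congr 1
      ring
    have b1 : (0 : ℝ) < 2 ^ (-((p - σ / 4) * J)) := Real.rpow_pos_of_pos (by norm_num) _
    have b2 : (0 : ℝ) < 2 ^ (-((L - δ) * J)) := Real.rpow_pos_of_pos (by norm_num) _
    have b3 : (0 : ℝ) < 2 ^ (σ / 8 * J) := Real.rpow_pos_of_pos (by norm_num) _
    have b4 : (0 : ℝ) < 2 ^ (N₂ * J) := Real.rpow_pos_of_pos (by norm_num) _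
    have b5 : (0 : ℝ) < 2 ^ (j * ((u₀ + δ) * J)) := Real.rpow_pos_of_pos (by norm_num) _
    have c1 : Real.exp (C * (ψ * J + ψ * J + 1) / η) *
        (1 / 2 ^ ⌊(p₁ - e₂) * J⌋₊ + 1 / 2 ^ ⌊(p₂ - e₂) * J⌋₊ +
          2 ^ (-((Δ - ε) * J)) * (1 / 2 ^ ⌊(q - e₂) * J⌋₊)) ≤
        2 ^ (σ / 8 * J) * (6 * 2 ^ (-((p - σ / 4) * J))) := by
      refine mul_le_mul a2 (by linarith) (by positivity) b3.le
    have c2 : (2 : ℝ) ^ ⌊(u₀ + δ) * J⌋₊ / 2 ^ ⌊p₀ * J⌋₊ + 1 / 2 ^ ⌊lam * J⌋₊ ≤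
        4 * 2 ^ (-((L - δ) * J)) := by linarith
    calc (2 : ℝ) ^ (N₂ * J) * (C * (Real.exp (C * (ψ * J + ψ * J + 1) / η) *
          (1 / 2 ^ ⌊(p₁ - e₂) * J⌋₊ + 1 / 2 ^ ⌊(p₂ - e₂) * J⌋₊ +
            2 ^ (-((Δ - ε) * J)) * (1 / 2 ^ ⌊(q - e₂) * J⌋₊))) *
          (2 ^ ⌊(u₀ + δ) * J⌋₊ / 2 ^ ⌊p₀ * J⌋₊ + 1 / 2 ^ ⌊lam * J⌋₊) * (2 ^ ⌊(u₀ + δ) * J⌋₊) ^ j)
        ≤ 2 ^ (N₂ * J) * (C * (2 ^ (σ / 8 * J) * (6 * 2 ^ (-((p - σ / 4) * J)))) *
          (4 * 2 ^ (-((L - δ) * J))) * 2 ^ (j * ((u₀ + δ) * J))) := by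
          refine mul_le_mul_of_nonneg_left ?_ b4.le
          refine mul_le_mul ?_ a8 (by positivity) (by positivity)
          refine mul_le_mul ?_ c2 (by positivity) (by positivity)
          exact mul_le_mul_of_nonneg_left c1 hC0.le
      _ = 24 * C * (2 ^ (N₂ * J) * 2 ^ (σ / 8 * J) * 2 ^ (-((p - σ / 4) * J)) *
          2 ^ (-((L - δ) * J)) * 2 ^ (j * ((u₀ + δ) * J))) := by ring
      _ = 24 * C * 2 ^ (N₂ * J + σ / 8 * J + -((p - σ / 4) * J) + -((L - δ) * J) +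
          j * ((u₀ + δ) * J)) := by
          rw [Real.rpow_add (by norm_num), Real.rpow_add (by norm_num),
            Real.rpow_add (by norm_num), Real.rpow_add (by norm_num)]
      _ ≤ 24 * C * 2 ^ (-(σ / 8 * J)) := by
          refine mul_le_mul_of_nonneg_left ?_ (by positivity)
          refine Real.rpow_le_rpow_of_exponent_le (by norm_num) ?_
          have e1 : N₂ * J + σ / 8 * J + -((p - σ / 4) * J) + -((L - δ) * J) +
              j * ((u₀ + δ) * J) = (-σ + σ / 8 + σ / 4 + ((j : ℝ) + 1) * δ) * J := by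
            rw [hσ]
            ring
          rw [e1]
          have : (-σ + σ / 8 + σ / 4 + ((j : ℝ) + 1) * δ) * J ≤ (-(σ / 8)) * J :=
            mul_le_mul_of_nonneg_right (by linarith) hJ0
          linarith
      _ ≤ 1 := by
          have e1 : 24 * C = Real.exp (Real.log (24 * C)) := (Real.exp_log (by positivity)).symm
          rw [← exp_p2, e1, ← Real.exp_add, Real.exp_le_one_iff]
          linarith

theorem SloN.symm {S : PCl m} {R₁ R₂ : SRel m} {Δ : ℝ} (h : SloN S R₁ R₂ Δ) :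
    SloN S R₂ R₁ Δ := by
  intro ε hε
  obtain ⟨e₁, he₁, H⟩ := h ε hε
  refine ⟨e₁, he₁, fun K η hη => Bas.mono 0 (H K η hη) ?_⟩
  intro J _ F A H c₁ c₂ h1 h2
  refine le_trans (le_of_eq ?_) (H c₂ c₁ h2 h1)
  congr 1
  funext ω
  rw [abs_sub_comm]

/-! ### Families -/

/-- **The jets over the labels which are affine in `ι`, together with the jets of `ι`, are a
two-parameter family**, if the slopes are natural. -/
theorem two_af {S : PCl m} {C₀ : ℝ} (htm : TmC S C₀)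
    (hpos : ∀ (τ : ℝ) (J : ℕ) (F : Fam m J) (A : F.Ω → Prop), S.St τ J F A → 0 < Pe F.p A)
    {α γ : ∀ J : ℕ, Fam m J → Type} {f : ∀ (J : ℕ) (F : Fam m J), F.Ω → α J F}
    {y : ∀ (J : ℕ) (F : Fam m J), F.Ω → γ J F}
    {I : Finset (Fin m)} {ι k : Fin m} {j : ℕ} {A B lam lam' p₀ Δ : ℝ} (hA : 0 ≤ A) (hB : B ≤ 1)
    {R : ℚ → SRel m} {p q u₀ r : ℚ → ℝ} (hlam : 0 < lam)
    (hr : ∀ w : ℚ, A < w → (w : ℝ) < B → 0 ≤ r w)
    (hatt₀ : ∀ w : ℚ, A < w → (w : ℝ) < B → Att S I ι w (q w) (r w))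
    (hatt : ∀ w : ℚ, A < w → (w : ℝ) < B → AttA S (R w) I ι k j w (p w))
    (hslo : ∀ w v : ℚ, A < w → w ≤ v → (v : ℝ) < B → (v : ℝ) < w + lam → SloN S (R w) (R v) Δ)
    (hu₀ : ∀ w : ℚ, A < w → (w : ℝ) < B → (w : ℝ) ≤ u₀ w ∧ u₀ w < p₀) (hp0 : p₀ ≤ 1)
    (hful : ∀ w : ℚ, A < w → (w : ℝ) < B → ∀ u : ℝ, u₀ w < u → u < 1 → Ful S I w u)
    (hf : ∀ (J : ℕ) (F : Fam m J), ∃ φ : α J F → PtT F, ∀ ω, ptr F J ω = φ (f J F ω))
    (hy : Kn I p₀ lam' y)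
    (hmq : ∀ v o : ℚ, A < v → v ≤ o → (o : ℝ) < B → q v - j * v ≤ q o - j * o)
    (hmp : ∀ v o : ℚ, A < v → v ≤ o → (o : ℝ) < B → p v - j * v ≤ p o - j * o)
    (hΔ : ∀ v : ℚ, A < v → (v : ℝ) < B → p v ≤ q v + Δ)
    (hlq : ∀ w v o : ℚ, A < w → w ≤ v → v ≤ o → (o : ℝ) < B → (o : ℝ) < w + lam →
      q o - j * o + j * u₀ v < min (q w) (q v) + min lam' (p₀ - u₀ v))
    (hlp : ∀ w v o : ℚ, A < w → w ≤ v → v ≤ o → (o : ℝ) < B → (o : ℝ) < w + lam →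
      p o - j * o + j * u₀ v < min (min (p w) (p v)) (q w + Δ) + min lam' (p₀ - u₀ v)) :
    TwoPar S f y (fun w o => (qJet m I ι j w (q w) (q o - j * o)).prod
      (qAf m (R w) I ι k j w (p w) (p o - j * o))) A B lam where
  exs w o a b c d := by
    have b' : (w : ℝ) ≤ o := by exact_mod_cast b
    exact (exs_jet (hr w a (by linarith)) (hatt₀ w a (by linarith))).prod
      (exs_af (hatt w a (by linarith)))
  row w v o a b c d e := by
    have b' : (w : ℝ) ≤ v := by exact_mod_cast b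
    have c' : (v : ℝ) ≤ o := by exact_mod_cast c
    obtain ⟨u1, u2⟩ := hu₀ w a (by linarith)
    have h1 := hlq w w v a le_rfl b (by linarith) (by linarith)
    have h2 := hlp w w v a le_rfl b (by linarith) (by linarith)
    have h3 := hmq v o (by linarith) c d
    have h4 := hΔ v (by linarith) (by linarith)
    exact Few.pair hpos (Few.fst hpos (few_jet htm le_rfl le_rfl (by linarith) u1 (by linarith) u2
      hp0 (hful w a (by linarith)) hf hy h3 h1))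
      (few_af htm (hslo w w a le_rfl (by linarith) (by linarith)) le_rfl le_rfl le_rfl
        (by linarith) u1 (by linarith) u2 hp0 (hful w a (by linarith)) hf hy
        (hmp v o (by linarith) c d) (by linarith) h2)
  chg w v o a b c d e := by
    have b' : (w : ℝ) ≤ v := by exact_mod_cast b
    have c' : (v : ℝ) ≤ o := by exact_mod_cast c
    obtain ⟨u1, u2⟩ := hu₀ v (by linarith) (by linarith)
    have h4 := hΔ o (by linarith) (by linarith)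
    exact Few.pair hpos (Few.fst hpos (few_jet htm b' le_rfl (by linarith) u1 (by linarith) u2
      hp0 (hful v (by linarith) (by linarith)) hf hy le_rfl (hlq w v o a b c d e)))
      (few_af htm (hslo w v a b (by linarith) (by linarith)) b' b' le_rfl
        (by linarith) u1 (by linarith) u2 hp0 (hful v (by linarith) (by linarith)) hf hy
        le_rfl (by linarith) (hlp w v o a b c d e))
  own w v a b c d := by
    have b' : (w : ℝ) ≤ v := by exact_mod_cast b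
    have a' : A < v := by linarith
    have hwB : (w : ℝ) < B := by linarith
    obtain ⟨u1, u2⟩ := hu₀ v a' c
    have hj0 : (0 : ℝ) ≤ j := Nat.cast_nonneg j
    have hx : Exs S ((qJet m I ι j v (q v) (q v - j * v)).prod
        (qAf m (R v) I ι k j v (p v) (p v - j * v))) :=
      (exs_jet (hr v a' c) (hatt₀ v a' c)).prod (exs_af (hatt v a' c))
    have h0 : Few0 S f (vg (v : ℝ)) y ((qJet m I ι j v (q v) (q v - j * v)).prod
        (qAf m (R v) I ι k j v (p v) (p v - j * v))) :=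
      Few0.pair hpos (few0_jet htm (by linarith) (by linarith) (by linarith) _ _ _)
        (few0_af htm (by linarith) (by linarith) (by linarith) _ _ _)
    refine Few0.trans hpos hx h0 ?_
    have h1 := hlq w v v a b le_rfl c d
    rw [min_comm] at h1
    have h2 := hlp w v v a b le_rfl c d
    have h4 := hΔ v a' c
    have h5 := hmq w v a b c
    have h6 : q w ≤ q v := by
      have := mul_le_mul_of_nonneg_left b' hj0
      linarith
    have h7 : p v - j * v + j * u₀ v < min (min (p v) (p w)) (q v + Δ) + min lam' (p₀ - u₀ v) := by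
      refine lt_of_lt_of_le h2 ?_
      have : min (min (p w) (p v)) (q w + Δ) ≤ min (min (p v) (p w)) (q v + Δ) := by
        rw [min_comm (p w) (p v)]
        exact min_le_min_left _ (by linarith)
      linarith
    exact Few.pair hpos (Few.fst hpos (few_jet htm le_rfl b' (by linarith) u1 (by linarith) u2
      hp0 (hful v a' c) hf hy le_rfl h1))
      (few_af htm (hslo w v a b c d).symm le_rfl le_rfl b'
        (by linarith) u1 (by linarith) u2 hp0 (hful v a' c) hf hy le_rfl (by linarith) h7)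

end Pool.LA91
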