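import Pool.Agent.H91.LA.TwoN
import Pool.Agent.H91.LA.TwoJ
import Pool.Agent.H91.LA.Aff
import Pool.Agent.H83.OWN.Shf

/-!
# The natural jets as two-parameter families at the shifted rational windows

`two_jetS`, `two_jetNS`, `two_afS`: the windows are `w + s`, `w` rational, with a fixed real `s`.
-/

set_option autoImplicit false

namespace Pool.LA91

open Finset Real MvPolynomial
open Pool.Agent.H49.Ent Pool.Agent.H32.Dense Pool.STK Pool.KA Pool.KSAT Pool.K2S Pool.PB Pool.S6C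
  Pool.GEN Pool.RCD
open Pool.OWN83 (TwoParS TwoRelS)

variable {m : ℕ} {α γ : ∀ J : ℕ, Fam m J → Type}
  {f : ∀ (J : ℕ) (F : Fam m J), F.Ω → α J F} {y : ∀ (J : ℕ) (F : Fam m J), F.Ω → γ J F}
  {S : PCl m} {s : ℝ}

/-- **The natural jets are a two-parameter family**, shifted windows. -/
theorem two_jetS {C₀ : ℝ} (htm : TmC S C₀)
    (hpos : ∀ (τ : ℝ) (J : ℕ) (F : Fam m J) (A : F.Ω → Prop), S.St τ J F A → 0 < Pe F.p A)
    {I : Finset (Fin m)} {k : Fin m} {j : ℕ} {A B lam lam' p₀ : ℝ} (hA : 0 ≤ A + s)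
    (hB : B + s ≤ 1) {p u₀ r : ℚ → ℝ} (hr : ∀ w : ℚ, A < w → (w : ℝ) < B → 0 ≤ r w)
    (hatt : ∀ w : ℚ, A < w → (w : ℝ) < B → Att S I k (w + s) (p w) (r w))
    (hu₀ : ∀ w : ℚ, A < w → (w : ℝ) < B → (w : ℝ) + s ≤ u₀ w ∧ u₀ w < p₀) (hp0 : p₀ ≤ 1)
    (hful : ∀ w : ℚ, A < w → (w : ℝ) < B → ∀ u : ℝ, u₀ w < u → u < 1 → Ful S I (w + s) u)
    (hf : ∀ (J : ℕ) (F : Fam m J), ∃ φ : α J F → PtT F, ∀ ω, ptr F J ω = φ (f J F ω))
    (hy : Kn I p₀ lam' y)
    (hmono : ∀ v o : ℚ, A < v → v ≤ o → (o : ℝ) < B →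
      p v - (j : ℝ) * (v + s) ≤ p o - (j : ℝ) * (o + s))
    (hlt : ∀ w v o : ℚ, A < w → w ≤ v → v ≤ o → (o : ℝ) < B → (o : ℝ) < w + lam →
      p o - (j : ℝ) * (o + s) + j * u₀ v < min (p w) (p v) + min lam' (p₀ - u₀ v)) :
    TwoParS S f y s (fun w o => qJet m I k j (w + s) (p w) (p o - (j : ℝ) * (o + s)))
      A B lam where
  exs w o a b c d := by
    have b' : (w : ℝ) ≤ o := by exact_mod_cast b
    exact exs_jet (hr w a (by linarith)) (hatt w a (by linarith))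
  row w v o a b c d e := by
    have b' : (w : ℝ) ≤ v := by exact_mod_cast b
    have c' : (v : ℝ) ≤ o := by exact_mod_cast c
    obtain ⟨u1, u2⟩ := hu₀ w a (by linarith)
    have h1 := hlt w w v a le_rfl b (by linarith) (by linarith)
    exact few_jet htm le_rfl le_rfl (by linarith) u1 (by linarith) u2 hp0
      (hful w a (by linarith)) hf hy (hmono v o (by linarith) c d) h1
  chg w v o a b c d e := by
    have b' : (w : ℝ) ≤ v := by exact_mod_cast b
    have c' : (v : ℝ) ≤ o := by exact_mod_cast c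
    obtain ⟨u1, u2⟩ := hu₀ v (by linarith) (by linarith)
    exact few_jet htm (by linarith) le_rfl (by linarith) u1 (by linarith) u2 hp0
      (hful v (by linarith) (by linarith)) hf hy le_rfl (hlt w v o a b c d e)
  own w v a b c d := by
    have b' : (w : ℝ) ≤ v := by exact_mod_cast b
    obtain ⟨u1, u2⟩ := hu₀ v (by linarith) (by linarith)
    have h1 : Exs S (qJet m I k j (v + s) (p v) (p v - (j : ℝ) * (v + s))) :=
      exs_jet (hr v (by linarith) (by linarith)) (hatt v (by linarith) (by linarith))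
    have h2 : Few0 S f (vg ((v : ℝ) + s)) y
        (qJet m I k j (v + s) (p v) (p v - (j : ℝ) * (v + s))) :=
      few0_jet htm (by linarith) (by linarith) (by linarith) _ _ _
    refine Few0.trans hpos h1 h2 ?_
    have h3 := hlt w v v a b le_rfl c d
    rw [min_comm] at h3
    exact few_jet htm le_rfl (by linarith) (by linarith) u1 (by linarith) u2 hp0
      (hful v (by linarith) (by linarith)) hf hy le_rfl h3

/-- **The jets over a nested chain, relative to the jets of the chain to a fixed number of digits,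
are a relative two-parameter family**, shifted windows. -/
theorem two_jetNS {C₀ : ℝ} (htm : TmC S C₀)
    (hpos : ∀ (τ : ℝ) (J : ℕ) (F : Fam m J) (A : F.Ω → Prop), S.St τ J F A → 0 < Pe F.p A)
    {c : ℕ → Fin m} {r₀ r : ℕ} {k : Fin m} {j : ℕ} {A B lam lam' p₀ σ₀ : ℝ} (hA : 0 ≤ A + s)
    {u₀ u₁ p rk : ℚ → ℝ} {sc rd : ℚ → ℕ → ℝ} {N₀ : ℕ → ℕ → ℝ} {lv : ℕ → ℝ}
    (hch : ∀ w : ℚ, A < w → (w : ℝ) < B →
      Chn S c r₀ r (w + s) (u₀ w) (u₁ w) (sc w) (rd w))
    (hrd : ∀ w : ℚ, A < w → (w : ℝ) < B → ∀ i, r₀ ≤ i → i < r → 0 ≤ rd w i)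
    (hrk : ∀ w : ℚ, A < w → (w : ℝ) < B → 0 ≤ rk w)
    (hatt : ∀ w : ℚ, A < w → (w : ℝ) < B → Att S ((range r).image c) k (w + s) (p w) (rk w))
    (hu₀ : ∀ w : ℚ, A < w → (w : ℝ) < B → u₀ w < p₀) (hp0 : p₀ ≤ 1) (hlam' : 0 < lam')
    (hσ₀ : 0 < σ₀) (hlam : 0 < lam) (hlv : ∀ i, r₀ ≤ i → i < r → 0 < lv i)
    (hf : ∀ (J : ℕ) (F : Fam m J), ∃ φ : α J F → PtT F, ∀ ω, ptr F J ω = φ (f J F ω))
    (hy : Kn ((range r₀).image c) p₀ lam' y)
    (hsm : ∀ w v : ℚ, A < w → w ≤ v → (v : ℝ) < B → (v : ℝ) < w + lam → ∀ i, r₀ ≤ i → i < r →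
      sc w i ≤ sc v i)
    (c1 : ∀ v : ℚ, A < v → (v : ℝ) < B → ∀ i, r₀ ≤ i → i < r → ∀ j' ≤ j,
      sc v i + lv i + σ₀ ≤ N₀ i j' + j' * u₀ v)
    (c2 : ∀ w v : ℚ, A < w → w ≤ v → (v : ℝ) < B → (v : ℝ) < w + lam → ∀ i, r₀ ≤ i → i < r →
      sc v i + lv i + σ₀ ≤ sc w i + min lam' (p₀ - u₀ v))
    (c2' : ∀ w v : ℚ, A < w → w ≤ v → (v : ℝ) < B → (v : ℝ) < w + lam → ∀ i, r₀ ≤ i → i < r →
      ∀ l, r₀ ≤ l → l < i → sc v i + lv i + σ₀ ≤ sc w i + lv l)
    (c4 : ∀ w v : ℚ, A < w → w ≤ v → (v : ℝ) < B → (v : ℝ) < w + lam → ∀ i, r₀ ≤ i → i < r →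
      ∀ j' ≤ j, N₀ i j' + j' * u₀ v + σ₀ ≤ sc w i + min lam' (p₀ - u₀ v))
    (c4' : ∀ w v : ℚ, A < w → w ≤ v → (v : ℝ) < B → (v : ℝ) < w + lam → ∀ i, r₀ ≤ i → i < r →
      ∀ j' ≤ j, ∀ l, r₀ ≤ l → l < i → N₀ i j' + j' * u₀ v + σ₀ ≤ sc w i + lv l)
    (hmono : ∀ v o : ℚ, A < v → v ≤ o → (o : ℝ) < B →
      p v - (j : ℝ) * (v + s) ≤ p o - (j : ℝ) * (o + s))
    (c3 : ∀ w v o : ℚ, A < w → w ≤ v → v ≤ o → (o : ℝ) < B → (o : ℝ) < w + lam →
      p o - (j : ℝ) * (o + s) + j * u₀ v + σ₀ ≤ min (p w) (p v) + min lam' (p₀ - u₀ v))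
    (c3' : ∀ w v o : ℚ, A < w → w ≤ v → v ≤ o → (o : ℝ) < B → (o : ℝ) < w + lam →
      ∀ l, r₀ ≤ l → l < r →
        p o - (j : ℝ) * (o + s) + j * u₀ v + σ₀ ≤ min (p w) (p v) + lv l) :
    TwoRelS S f y s (fun w => qJets m c r₀ r j (fun _ _ => (w : ℝ) + s) (fun i _ => sc w i) N₀)
      (fun w o => qJet m ((range r).image c) k j (w + s) (p w) (p o - (j : ℝ) * (o + s)))
      A B lam where
  exs₀ w a b := exs_qjets fun i hi0 hi j' _ => exs_jet (hrd w a b i hi0 hi)
    ((hch w a b).att i hi0 hi)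
  exs w o a b c' d := by
    have b' : (w : ℝ) ≤ o := by exact_mod_cast b
    exact exs_jet (hrk w a (by linarith)) (hatt w a (by linarith))
  tr w v a b c' d := by
    have b' : (w : ℝ) ≤ v := by exact_mod_cast b
    have a' : A < v := by linarith
    refine few_jets htm hpos (hch v a' c') (wv := fun _ _ => (v : ℝ) + s) (lv := lv)
      (fun _ _ _ _ _ => le_rfl) (fun _ _ _ _ _ => by linarith) (hu₀ v a' c') hp0 hlam' hσ₀ hlv
      (fun i e1 e2 j' e3 => c1 v a' c' i e1 e2 j' e3) (fun i e1 e2 j' _ => ?_)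
      (fun i e1 e2 j' _ l e4 e5 => ?_) (fun _ _ _ _ _ => le_rfl) (fun i e1 e2 j' e3 => ?_)
      (fun i e1 e2 j' e3 l e4 e5 => ?_) hf hy
    · rw [min_self]
      exact c2 v v a' le_rfl c' (by linarith) i e1 e2
    · rw [min_self]
      exact c2' v v a' le_rfl c' (by linarith) i e1 e2 l e4 e5
    · rw [min_eq_right (hsm w v a b c' d i e1 e2)]
      exact c4 w v a b c' d i e1 e2 j' e3
    · rw [min_eq_right (hsm w v a b c' d i e1 e2)]
      exact c4' w v a b c' d i e1 e2 j' e3 l e4 e5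
  row w v o a b c' d e := by
    have b' : (w : ℝ) ≤ v := by exact_mod_cast b
    have c'' : (v : ℝ) ≤ o := by exact_mod_cast c'
    have hwB : (w : ℝ) < B := by linarith
    refine few_jetN htm (hch w a hwB) (lv := lv) (fun _ _ _ _ _ => le_rfl) le_rfl le_rfl
      (hu₀ w a hwB) hp0 hlam' hσ₀ hlv (fun i e1 e2 j' e3 => c1 w a hwB i e1 e2 j' e3)
      (fun i e1 e2 j' _ => ?_) (fun i e1 e2 j' _ l e4 e5 => ?_)
      (hmono v o (by linarith) c' d) (c3 w w v a le_rfl b (by linarith) (by linarith))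
      (fun l e4 e5 => c3' w w v a le_rfl b (by linarith) (by linarith) l e4 e5) hf hy
    · rw [min_self]
      exact c2 w w a le_rfl hwB (by linarith) i e1 e2
    · rw [min_self]
      exact c2' w w a le_rfl hwB (by linarith) i e1 e2 l e4 e5
  chg w v o a b c' d e := by
    have b' : (w : ℝ) ≤ v := by exact_mod_cast b
    have c'' : (v : ℝ) ≤ o := by exact_mod_cast c'
    have a' : A < v := by linarith
    have hvB : (v : ℝ) < B := by linarith
    have hvl : (v : ℝ) < w + lam := by linarith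
    refine few_jetN htm (hch v a' hvB) (lv := lv) (fun _ _ _ _ _ => by linarith) (by linarith)
      le_rfl
      (hu₀ v a' hvB) hp0 hlam' hσ₀ hlv (fun i e1 e2 j' e3 => c1 v a' hvB i e1 e2 j' e3)
      (fun i e1 e2 j' _ => ?_) (fun i e1 e2 j' _ l e4 e5 => ?_) le_rfl
      (c3 w v o a b c' d e) (fun l e4 e5 => c3' w v o a b c' d e l e4 e5) hf hy
    · rw [min_eq_left (hsm w v a b hvB hvl i e1 e2)]
      exact c2 w v a b hvB hvl i e1 e2
    · rw [min_eq_left (hsm w v a b hvB hvl i e1 e2)]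
      exact c2' w v a b hvB hvl i e1 e2 l e4 e5
  own w v a b c' d := by
    have b' : (w : ℝ) ≤ v := by exact_mod_cast b
    have a' : A < v := by linarith
    have hx : Exs S (qJet m ((range r).image c) k j (v + s) (p v)
        (p v - (j : ℝ) * (v + s))) := exs_jet (hrk v a' c') (hatt v a' c')
    have h0 : Few0 S f (vg ((v : ℝ) + s)) y (qJet m ((range r).image c) k j (v + s) (p v)
        (p v - (j : ℝ) * (v + s))) :=
      few0_jet htm (by linarith) (by linarith [(hch v a' c').wu0, (hch v a' c').u0])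
        (by linarith) _ _ _
    refine few0_cut hpos hx h0 ?_
    refine few_jetN htm (hch v a' c') (lv := lv) (fun _ _ _ _ _ => by linarith) le_rfl
      (by linarith)
      (hu₀ v a' c') hp0 hlam' hσ₀ hlv (fun i e1 e2 j' e3 => c1 v a' c' i e1 e2 j' e3)
      (fun i e1 e2 j' _ => ?_) (fun i e1 e2 j' _ l e4 e5 => ?_) le_rfl ?_ ?_ hf hy
    · rw [min_eq_left (hsm w v a b c' d i e1 e2)]
      exact c2 w v a b c' d i e1 e2
    · rw [min_eq_left (hsm w v a b c' d i e1 e2)]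
      exact c2' w v a b c' d i e1 e2 l e4 e5
    · rw [min_comm]
      exact c3 w v v a b le_rfl c' d
    · intro l e4 e5
      rw [min_comm]
      exact c3' w v v a b le_rfl c' d l e4 e5

/-- **The jets over the labels which are affine in `ι`, together with the jets of `ι`**, shifted
windows. -/
theorem two_afS {C₀ : ℝ} (htm : TmC S C₀)
    (hpos : ∀ (τ : ℝ) (J : ℕ) (F : Fam m J) (A : F.Ω → Prop), S.St τ J F A → 0 < Pe F.p A)
    {I : Finset (Fin m)} {ι k : Fin m} {j : ℕ} {A B lam lam' p₀ Δ : ℝ} (hA : 0 ≤ A + s)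
    (hB : B + s ≤ 1)
    {R : ℚ → SRel m} {p q u₀ r : ℚ → ℝ} (hlam : 0 < lam)
    (hr : ∀ w : ℚ, A < w → (w : ℝ) < B → 0 ≤ r w)
    (hatt₀ : ∀ w : ℚ, A < w → (w : ℝ) < B → Att S I ι (w + s) (q w) (r w))
    (hatt : ∀ w : ℚ, A < w → (w : ℝ) < B → AttA S (R w) I ι k j (w + s) (p w))
    (hslo : ∀ w v : ℚ, A < w → w ≤ v → (v : ℝ) < B → (v : ℝ) < w + lam → SloN S (R w) (R v) Δ)
    (hu₀ : ∀ w : ℚ, A < w → (w : ℝ) < B → (w : ℝ) + s ≤ u₀ w ∧ u₀ w < p₀) (hp0 : p₀ ≤ 1)
    (hful : ∀ w : ℚ, A < w → (w : ℝ) < B → ∀ u : ℝ, u₀ w < u → u < 1 → Ful S I (w + s) u)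
    (hf : ∀ (J : ℕ) (F : Fam m J), ∃ φ : α J F → PtT F, ∀ ω, ptr F J ω = φ (f J F ω))
    (hy : Kn I p₀ lam' y)
    (hmq : ∀ v o : ℚ, A < v → v ≤ o → (o : ℝ) < B →
      q v - (j : ℝ) * (v + s) ≤ q o - (j : ℝ) * (o + s))
    (hmp : ∀ v o : ℚ, A < v → v ≤ o → (o : ℝ) < B →
      p v - (j : ℝ) * (v + s) ≤ p o - (j : ℝ) * (o + s))
    (hΔ : ∀ v : ℚ, A < v → (v : ℝ) < B → p v ≤ q v + Δ)
    (hlq : ∀ w v o : ℚ, A < w → w ≤ v → v ≤ o → (o : ℝ) < B → (o : ℝ) < w + lam →
      q o - (j : ℝ) * (o + s) + j * u₀ v < min (q w) (q v) + min lam' (p₀ - u₀ v))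
    (hlp : ∀ w v o : ℚ, A < w → w ≤ v → v ≤ o → (o : ℝ) < B → (o : ℝ) < w + lam →
      p o - (j : ℝ) * (o + s) + j * u₀ v <
        min (min (p w) (p v)) (q w + Δ) + min lam' (p₀ - u₀ v)) :
    TwoParS S f y s (fun w o => (qJet m I ι j (w + s) (q w) (q o - (j : ℝ) * (o + s))).prod
      (qAf m (R w) I ι k j (w + s) (p w) (p o - (j : ℝ) * (o + s)))) A B lam where
  exs w o a b c d := by
    have b' : (w : ℝ) ≤ o := by exact_mod_cast b
    exact (exs_jet (hr w a (by linarith)) (hatt₀ w a (by linarith))).prod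
      (exs_af (hatt w a (by linarith)))
  row w v o a b c d e := by
    have b' : (w : ℝ) ≤ v := by exact_mod_cast b
    have c' : (v : ℝ) ≤ o := by exact_mod_cast c
    obtain ⟨u1, u2⟩ := hu₀ w a (by linarith)
    have h1 := hlq w w v a le_rfl b (by linarith) (by linarith)
    have h2 := hlp w w v a le_rfl b (by linarith) (by linarith)
    have h3 := hmq v o (by linarith) c d
    have h4 := hΔ v (by linarith) (by linarith)
    exact Few.pair hpos (Few.fst hpos (few_jet htm le_rfl le_rfl (by linarith) u1 (by linarith) u2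
      hp0 (hful w a (by linarith)) hf hy h3 h1))
      (few_af htm (hslo w w a le_rfl (by linarith) (by linarith)) le_rfl le_rfl le_rfl
        (by linarith) u1 (by linarith) u2 hp0 (hful w a (by linarith)) hf hy
        (hmp v o (by linarith) c d) (by linarith) h2)
  chg w v o a b c d e := by
    have b' : (w : ℝ) ≤ v := by exact_mod_cast b
    have c' : (v : ℝ) ≤ o := by exact_mod_cast c
    obtain ⟨u1, u2⟩ := hu₀ v (by linarith) (by linarith)
    have h4 := hΔ o (by linarith) (by linarith)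
    exact Few.pair hpos (Few.fst hpos (few_jet htm (by linarith) le_rfl (by linarith) u1
      (by linarith) u2
      hp0 (hful v (by linarith) (by linarith)) hf hy le_rfl (hlq w v o a b c d e)))
      (few_af htm (hslo w v a b (by linarith) (by linarith)) (by linarith) (by linarith) le_rfl
        (by linarith) u1 (by linarith) u2 hp0 (hful v (by linarith) (by linarith)) hf hy
        le_rfl (by linarith) (hlp w v o a b c d e))
  own w v a b c d := by
    have b' : (w : ℝ) ≤ v := by exact_mod_cast b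
    have a' : A < v := by linarith
    have hwB : (w : ℝ) < B := by linarith
    obtain ⟨u1, u2⟩ := hu₀ v a' c
    have hj0 : (0 : ℝ) ≤ j := Nat.cast_nonneg j
    have hx : Exs S ((qJet m I ι j (v + s) (q v) (q v - (j : ℝ) * (v + s))).prod
        (qAf m (R v) I ι k j (v + s) (p v) (p v - (j : ℝ) * (v + s)))) :=
      (exs_jet (hr v a' c) (hatt₀ v a' c)).prod (exs_af (hatt v a' c))
    have h0 : Few0 S f (vg ((v : ℝ) + s)) y
        ((qJet m I ι j (v + s) (q v) (q v - (j : ℝ) * (v + s))).prod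
        (qAf m (R v) I ι k j (v + s) (p v) (p v - (j : ℝ) * (v + s)))) :=
      Few0.pair hpos (few0_jet htm (by linarith) (by linarith) (by linarith) _ _ _)
        (few0_af htm (by linarith) (by linarith) (by linarith) _ _ _)
    refine Few0.trans hpos hx h0 ?_
    have h1 := hlq w v v a b le_rfl c d
    rw [min_comm] at h1
    have h2 := hlp w v v a b le_rfl c d
    have h4 := hΔ v a' c
    have h5 := hmq w v a b c
    have h6 : q w ≤ q v := by
      have := mul_le_mul_of_nonneg_left b' hj0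
      linarith
    have h7 : p v - (j : ℝ) * (v + s) + j * u₀ v <
        min (min (p v) (p w)) (q v + Δ) + min lam' (p₀ - u₀ v) := by
      refine lt_of_lt_of_le h2 ?_
      have : min (min (p w) (p v)) (q w + Δ) ≤ min (min (p v) (p w)) (q v + Δ) := by
        rw [min_comm (p w) (p v)]
        exact min_le_min_left _ (by linarith)
      linarith
    exact Few.pair hpos (Few.fst hpos (few_jet htm le_rfl (by linarith) (by linarith) u1
      (by linarith) u2
      hp0 (hful v a' c) hf hy le_rfl h1))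
      (few_af htm (hslo w v a b c d).symm le_rfl le_rfl (by linarith)
        (by linarith) u1 (by linarith) u2 hp0 (hful v a' c) hf hy le_rfl (by linarith) h7)

end Pool.LA91
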