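import Pool.Agent.H91.LA.Jet
import Pool.Agent.H92.GN.Cl
import Pool.Agent.H74.PZ.Zrt
import Pool.Agent.H45.EXA.ExvB

/-!
# Natural jets: one family

`CH_near`: an integer which is near a function of `W`, outside an event of small probability.
`ojet`: the jets of the own path over a label. `chg_fam`: the jets over two closed labels, given
the labels, the exact point and the first digits of the direction. `own_fam`: the size of the own
jets.
-/

set_option autoImplicit false

namespace Pool.LA91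

open Finset Real MvPolynomial
open Pool.Agent.H49.Ent Pool.Agent.H32.Dense Pool.STK Pool.KA Pool.KSAT Pool.K2S Pool.PB Pool.GEN
open Pool.S6C
open Pool.GRD (LbP Pb_mono_pos)
open Pool.UNJ (ceI Tub)
open Pool.BFL (Pb)
open Pool.FLF (Fam.sub sub_CH)
open Pool.PB.Trl (rt rt_mem t_rt)

variable {m J : ℕ}

/-! ### Counting -/

theorem Pb_le_one {Ω : Type} [Fintype Ω] {p : Ω → ℝ} (hp : IsLaw p) (A : Ω → Prop) :
    Pb p A ≤ 1 := by
  classical
  rw [← hp.sum_one]
  unfold Pb
  refine Finset.sum_le_sum fun ω _ => ?_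
  split_ifs
  · exact le_rfl
  · exact hp.nonneg ω

/-- **An integer which is near a function of `W`**, outside an event of small probability. -/
theorem CH_near {Ω γ : Type} [Fintype Ω] {p : Ω → ℝ} (hp : IsLaw p) (X : Ω → ℤ) (W : Ω → γ)
    (κ : γ → ℝ) (Bad : Ω → Prop) {η M D : ℝ} (hη : Pb p Bad ≤ η) (hM : 0 ≤ M) (hD : 0 ≤ D)
    (hc : (cnt p X (fun _ => True) : ℝ) ≤ Real.exp M)
    (hg : ∀ ω, 0 < p ω → ¬ Bad ω → |(X ω : ℝ) - κ (W ω)| ≤ D) :
    CH p X W ≤ Real.log 2 + Real.log (2 * D + 1) + η * M := by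
  classical
  have h0 := hp.nonneg
  obtain ⟨T, hT⟩ : ∃ T : Finset ℤ, T = Pool.RCD.cset p X (fun _ => True) := ⟨_, rfl⟩
  have hTm : ∀ ω, 0 < p ω → X ω ∈ T := fun ω hω => by
    rw [hT]
    exact Pool.RCD.mem_cset X hω trivial
  have hTc : (T.card : ℝ) ≤ Real.exp M := by
    rw [hT, Pool.RCD.cset_card]
    exact hc
  have s1 := CH_le_add h0 X (fun ω => decide (Bad ω)) W
  have s2 : CH p (fun ω => decide (Bad ω)) W ≤ Real.log 2 := by
    have := CH_le_card h0 hp.sum_one (fun ω => decide (Bad ω)) W (fun _ => Finset.univ)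
      (fun ω _ => Finset.mem_univ _)
    refine this.trans (le_of_eq ?_)
    rw [show (fun ω => Real.log (((Finset.univ : Finset Bool).card : ℕ) : ℝ)) =
      (fun _ : Ω => Real.log 2) from by
        funext ω
        rw [Finset.card_univ, Fintype.card_bool]
        norm_num]
    exact Ex_const hp.sum_one _
  obtain ⟨S, hS⟩ : ∃ S : Bool × γ → Finset ℤ, S = fun x =>
    if x.1 = true then T else Finset.Icc ⌈κ x.2 - D⌉ ⌊κ x.2 + D⌋ := ⟨_, rfl⟩
  have s3 := CH_le_card h0 hp.sum_one X (fun ω => (decide (Bad ω), W ω)) S (by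
    intro ω hω
    rw [hS]
    by_cases hb : Bad ω
    · simp only [hb, decide_true, if_true]
      exact hTm ω hω
    · simp only [hb, decide_false, Bool.false_eq_true, if_false]
      have h1 := abs_le.1 (hg ω hω hb)
      rw [Finset.mem_Icc]
      constructor
      · rw [Int.ceil_le]
        linarith [h1.1]
      · rw [Int.le_floor]
        linarith [h1.2])
  have hlD : 0 ≤ Real.log (2 * D + 1) := Real.log_nonneg (by linarith)
  have s4 : Ex p (fun ω => Real.log ((S (decide (Bad ω), W ω)).card)) ≤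
      Real.log (2 * D + 1) + η * M := by
    have h2 : Ex p (fun ω => Real.log ((S (decide (Bad ω), W ω)).card)) ≤
        Ex p (fun ω => Real.log (2 * D + 1) + (if Bad ω then M else 0)) := by
      refine Ex_mono h0 fun ω hω => ?_
      rw [hS]
      by_cases hb : Bad ω
      · simp only [hb, decide_true, if_true]
        have h3 : (1 : ℝ) ≤ T.card := by
          have : 0 < T.card := Finset.card_pos.2 ⟨_, hTm ω hω⟩
          exact_mod_cast this
        have h4 := Real.log_le_log (by linarith) hTc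
        rw [Real.log_exp] at h4
        linarith
      · simp only [hb, decide_false, Bool.false_eq_true, if_false, add_zero]
        have h1 := abs_le.1 (hg ω hω hb)
        have h3 : ((Finset.Icc ⌈κ (W ω) - D⌉ ⌊κ (W ω) + D⌋).card : ℝ) ≤ 2 * D + 1 := by
          rw [Int.card_Icc]
          have h5 : (⌊κ (W ω) + D⌋ : ℝ) ≤ κ (W ω) + D := Int.floor_le _
          have h6 : κ (W ω) - D ≤ (⌈κ (W ω) - D⌉ : ℝ) := Int.le_ceil _
          have h7 : ((⌊κ (W ω) + D⌋ + 1 - ⌈κ (W ω) - D⌉ : ℤ) : ℝ) ≤ 2 * D + 1 := by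
            push_cast
            linarith
          rcases le_total 0 (⌊κ (W ω) + D⌋ + 1 - ⌈κ (W ω) - D⌉) with h8 | h8
          · have h9 : (((⌊κ (W ω) + D⌋ + 1 - ⌈κ (W ω) - D⌉).toNat : ℤ) : ℝ) =
                ((⌊κ (W ω) + D⌋ + 1 - ⌈κ (W ω) - D⌉ : ℤ) : ℝ) := by
              rw [Int.toNat_of_nonneg h8]
            rw [← h9] at h7
            exact_mod_cast h7
          · rw [Int.toNat_of_nonpos h8]
            push_cast
            linarith
        have h4 : (1 : ℝ) ≤ ((Finset.Icc ⌈κ (W ω) - D⌉ ⌊κ (W ω) + D⌋).card : ℝ) := by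
          have : 0 < (Finset.Icc ⌈κ (W ω) - D⌉ ⌊κ (W ω) + D⌋).card := by
            refine Finset.card_pos.2 ⟨X ω, ?_⟩
            rw [Finset.mem_Icc]
            constructor
            · rw [Int.ceil_le]
              linarith [h1.1]
            · rw [Int.le_floor]
              linarith [h1.2]
          exact_mod_cast this
        exact Real.log_le_log (by linarith) h3
    refine h2.trans ?_
    rw [Ex_add, Ex_const hp.sum_one]
    have h3 : Ex p (fun ω => if Bad ω then M else 0) = Pb p Bad * M := by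
      unfold Ex Pb
      rw [Finset.sum_mul]
      refine Finset.sum_congr rfl fun ω _ => ?_
      by_cases hb : Bad ω <;> simp [hb]
    rw [h3]
    have := mul_le_mul_of_nonneg_right hη hM
    linarith
  linarith

/-! ### The own jets -/

/-- **The jets of the own path** of the coordinate `k` over the polynomial `G`. -/
noncomputable def ojet (F : Fam m J) (k : Fin m) (j : ℕ) (G : MvPolynomial (Option (Fin m)) ℝ)
    (ω : F.Ω) : ℝ := jet j (X (some k) - G) (bt F ω) (bd F ω)

theorem ojet_sub (F : Fam m J) (k : Fin m) (j : ℕ) (G G' : MvPolynomial (Option (Fin m)) ℝ)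
    (ω : F.Ω) : ojet F k j G' ω = ojet F k j G ω + jet j (G - G') (bt F ω) (bd F ω) := by
  unfold ojet
  rw [jet_sub, jet_sub, jet_sub]
  ring

theorem bd_le (F : Fam m J) (ω : F.Ω) (o : Option (Fin m)) : |bd F ω o| ≤ 1 := by
  cases o with
  | none => simp [bd]
  | some i => exact F.dir ω i

/-- The time, and the point to `a` digits. -/
noncomputable def bx (I : Finset (Fin m)) (J a : ℕ) (T : ℕ) (x : Fin m → ℤ) :
    Option (Fin m) → ℝ
  | none => (T : ℝ) / 2 ^ J
  | some i => if i ∈ I then (x i : ℝ) / 2 ^ a else 0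

/-- The direction, to `n` digits. -/
noncomputable def vx (I : Finset (Fin m)) (n : ℕ) (d : Fin m → ℤ) : Option (Fin m) → ℝ
  | none => 1
  | some i => if i ∈ I then (d i : ℝ) / 2 ^ n else 0

theorem fl_near (n : ℕ) (x : ℝ) : |((⌊(2 : ℝ) ^ n * x⌋ : ℤ) : ℝ) / 2 ^ n - x| ≤ 1 / 2 ^ n := by
  have hp : (0 : ℝ) < 2 ^ n := by positivity
  have h2 := Int.floor_le ((2 : ℝ) ^ n * x)
  have h3 := Int.lt_floor_add_one ((2 : ℝ) ^ n * x)
  have e1 : (⌊(2 : ℝ) ^ n * x⌋ : ℝ) / 2 ^ n - x = ((⌊(2 : ℝ) ^ n * x⌋ : ℝ) - 2 ^ n * x) / 2 ^ n := by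
    field_simp
  rw [e1, abs_div, abs_of_pos hp]
  refine div_le_div_of_nonneg_right ?_ hp.le
  rw [abs_le]
  constructor <;> linarith

/-- **The jets of a polynomial which is small around the point**, from the first digits of the
point and of the direction. -/
theorem chg_fam (m D j : ℕ) : ∃ C : ℝ, 1 ≤ C ∧ ∀ (J : ℕ) (F : Fam m J) (I : Finset (Fin m))
    (H : MvPolynomial (Option (Fin m)) ℝ) (u a l : ℕ) (B : ℝ) (ω : F.Ω), H.totalDegree ≤ D →
    (∀ b b' : Option (Fin m) → ℝ, b none = b' none →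
      (∀ i ∈ I, b (some i) = b' (some i)) → eval b H = eval b' H) → u + 1 ≤ a →
    (∀ b : Option (Fin m) → ℝ, (∀ o, |b o - bt F ω o| ≤ 2 / 2 ^ u) → |eval b H| ≤ B) →
    |jet j H (bt F ω) (bd F ω) - jet j H (bx I J a (F.T ω) (fun i => if i ∈ I then F.X a ω i else 0))
      (vx I l (fun i => if i ∈ I then F.D l ω i else 0))| ≤
      C * B * (2 ^ u / 2 ^ a + 1 / 2 ^ l) * (2 ^ u) ^ j := by
  classical
  obtain ⟨C, hC, hj⟩ := jet_sub_le m D j
  refine ⟨C * 2 * 2 ^ j, by
    have : (1 : ℝ) ≤ 2 ^ j := one_le_pow₀ (by norm_num)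
    nlinarith, ?_⟩
  intro J F I H u a l B ω hH hdep hu hB
  have hB0 : 0 ≤ B := (abs_nonneg _).trans (hB (bt F ω) (fun o => by
    rw [sub_self, abs_zero]
    positivity))
  obtain ⟨r, hr⟩ : ∃ r : ℝ, r = 1 / (2 * 2 ^ u) := ⟨_, rfl⟩
  have hr0 : 0 < r := by rw [hr]; positivity
  have h4r : 4 * r = 2 / 2 ^ u := by
    rw [hr]
    field_simp
    norm_num
  have hsr : (1 : ℝ) / 2 ^ a ≤ r := by
    rw [hr]
    refine one_div_le_one_div_of_le (by positivity) ?_
    calc (2 : ℝ) * 2 ^ u = 2 ^ (u + 1) := by ring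
      _ ≤ 2 ^ a := pow_le_pow_right₀ (by norm_num) hu
  -- the points
  obtain ⟨b, hb⟩ : ∃ b : Option (Fin m) → ℝ, b = fun o => match o with
    | none => (F.T ω : ℝ) / 2 ^ J
    | some i => if i ∈ I then (F.X a ω i : ℝ) / 2 ^ a else bt F ω (some i) := ⟨_, rfl⟩
  obtain ⟨v, hv⟩ : ∃ v : Option (Fin m) → ℝ, v = fun o => match o with
    | none => 1
    | some i => if i ∈ I then (F.D l ω i : ℝ) / 2 ^ l else bd F ω (some i) := ⟨_, rfl⟩
  have e1 : jet j H (bx I J a (F.T ω) (fun i => if i ∈ I then F.X a ω i else 0))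
      (vx I l (fun i => if i ∈ I then F.D l ω i else 0)) = jet j H b v := by
    refine jet_congr hdep j ?_ (fun i hi => ?_) ?_ fun i hi => ?_
    · rw [hb]
      rfl
    · rw [hb]
      simp only [bx, if_pos hi]
    · rw [hv]
      rfl
    · rw [hv]
      simp only [vx, if_pos hi]
  rw [e1, abs_sub_comm]
  have hbb : ∀ o, |b o - bt F ω o| ≤ 1 / 2 ^ a := by
    intro o
    rw [hb]
    cases o with
    | none =>
      have : bt F ω none = (F.T ω : ℝ) / 2 ^ J := rfl
      simp only [this, sub_self, abs_zero]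
      positivity
    | some i =>
      simp only
      split_ifs with hi
      · exact fl_near a (F.x ω i)
      · rw [sub_self, abs_zero]
        positivity
  have hvv : ∀ o, |v o - bd F ω o| ≤ 1 / 2 ^ l := by
    intro o
    rw [hv]
    cases o with
    | none =>
      have : bd F ω none = 1 := rfl
      simp only [this, sub_self, abs_zero]
      positivity
    | some i =>
      simp only
      split_ifs with hi
      · exact fl_near l (F.d ω i)
      · rw [sub_self, abs_zero]
        positivity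
  have hl1 : (1 : ℝ) / 2 ^ l ≤ 1 := by
    rw [div_le_one (by positivity)]
    exact one_le_pow₀ (by norm_num)
  have key := hj H (bt F ω) b (bt F ω) v (bd F ω) r (1 / 2 ^ a) (1 / 2 ^ l) B hH hr0
    (by positivity) (by positivity) (by nlinarith) (fun b' hb' => hB b' fun o => by
      rw [← h4r]
      exact hb' o) (fun o => by
      rw [sub_self, abs_zero]
      exact hr0.le) (bd_le F ω) hbb hvv
  refine key.trans ?_
  have e2 : (1 / 2 ^ a + r * (1 / 2 ^ l)) / r = 2 * (2 ^ u / 2 ^ a) + 1 / 2 ^ l := by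
    rw [hr]
    field_simp
  have e3 : (1 : ℝ) / r ^ j = 2 ^ j * (2 ^ u) ^ j := by
    rw [hr, one_div_pow, one_div_one_div, mul_pow]
  rw [e2, div_eq_mul_one_div, e3]
  have e4 : 2 * (2 ^ u / 2 ^ a) + (1 : ℝ) / 2 ^ l ≤ 2 * (2 ^ u / 2 ^ a + 1 / 2 ^ l) := by
    have : (0 : ℝ) < 1 / 2 ^ l := by positivity
    linarith
  have e5 : 0 ≤ C * B := mul_nonneg (by linarith) hB0
  calc C * B * (2 * (2 ^ u / 2 ^ a) + 1 / 2 ^ l) * (2 ^ j * (2 ^ u) ^ j)
      ≤ C * B * (2 * (2 ^ u / 2 ^ a + 1 / 2 ^ l)) * (2 ^ j * (2 ^ u) ^ j) :=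
        mul_le_mul_of_nonneg_right (mul_le_mul_of_nonneg_left e4 e5) (by positivity)
    _ = C * 2 * 2 ^ j * B * (2 ^ u / 2 ^ a + 1 / 2 ^ l) * (2 ^ u) ^ j := by ring

/-- The window in the parameter of the own path. -/
theorem dv_comp (F : Fam m J) {w : ℕ} (hw : w ≤ J) (G : LnT F → MvPolynomial (Option (Fin m)) ℝ)
    (k : Fin m) (ω : F.Ω) : dv w (fun s _ => G s) k (slam F w ω) =
      (aeval (lp (bt F ω) (bd F ω)) (X (some k) - G (slam F w ω))).comp
        (Polynomial.C (1 / 2 ^ w) * (Polynomial.X - Polynomial.C (rt F w ω))) := by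
  refine Polynomial.funext fun t => ?_
  rw [Polynomial.eval_comp, eval_alp, Polynomial.eval_mul, Polynomial.eval_C,
    Polynomial.eval_sub, Polynomial.eval_X, Polynomial.eval_C]
  have hl : ∀ o, (lc w (slam F w ω) o).eval t =
      bt F ω o + 1 / 2 ^ w * (t - rt F w ω) * bd F ω o := by
    intro o
    have h1 := eval_lc F hw ω o
    cases o with
    | none =>
      simp only [lc, Polynomial.eval_add, Polynomial.eval_C, Polynomial.eval_mul,
        Polynomial.eval_X] at h1 ⊢
      rw [← h1]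
      simp only [bd]
      ring
    | some i =>
      simp only [lc, Polynomial.eval_add, Polynomial.eval_C, Polynomial.eval_mul,
        Polynomial.eval_X] at h1 ⊢
      rw [← h1]
      have : (slam F w ω).1.2 i = bd F ω (some i) := rfl
      rw [this]
      ring
  unfold dv
  rw [Polynomial.eval_sub, Pool.KBX.eval_aeval_poly, hl (some k), map_sub, eval_X]
  congr 3
  funext o
  exact hl o

theorem der_aff (q : Polynomial ℝ) (a c : ℝ) (j : ℕ) :
    Polynomial.derivative^[j] (q.comp (Polynomial.C a * (Polynomial.X - Polynomial.C c))) =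
      Polynomial.C (a ^ j) * (Polynomial.derivative^[j] q).comp
        (Polynomial.C a * (Polynomial.X - Polynomial.C c)) := by
  induction j with
  | zero => simp
  | succ j ih =>
    rw [Function.iterate_succ_apply', ih, Function.iterate_succ_apply',
      Polynomial.derivative_C_mul, Polynomial.derivative_comp, Polynomial.derivative_C_mul,
      Polynomial.derivative_sub, Polynomial.derivative_X, Polynomial.derivative_C, sub_zero,
      mul_one, ← mul_assoc, pow_succ, Polynomial.C_mul]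

/-- **The size of the own jets**, on one half of the event. -/
theorem own_fam (m K j : ℕ) : ∃ C : ℝ, 1 ≤ C ∧ ∀ (J : ℕ) (F : Fam m J) (A : F.Ω → Prop)
    (hA : 0 < Pe F.p A) (w : ℕ) (G : LnT F → MvPolynomial (Option (Fin m)) ℝ) (k : Fin m)
    (S₀ θ : ℝ), w ≤ J → (∀ s, (G s).totalDegree ≤ K) → 0 < S₀ → 0 ≤ θ →
    (Fam.sub F A hA).Tm θ → C * (θ + 1) ≤ ((J : ℝ) - w) * Real.log 2 →
    (∀ ω, A ω → |F.x ω k - eval (bt F ω) (G (slam F w ω))| ≤ S₀) →
    ∃ B : F.Ω → Prop, Sub B A ∧ Pe F.p A / 2 ≤ Pe F.p B ∧ ∀ ω, B ω →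
      |ojet F k j (G (slam F w ω)) ω| ≤ Real.exp (C * (θ + 1)) * (2 ^ w) ^ j * S₀ := by
  classical
  obtain ⟨C₁, hC₁, hrem⟩ := Pool.PZ.Zrt.rem_ev (m := m) (K + 1)
  obtain ⟨C₂, hC₂, hmk⟩ := markov_iter (K + 1) j
  have hlog : 0 ≤ Real.log C₂ := Real.log_nonneg hC₂
  refine ⟨C₁ + Real.log C₂, by linarith, ?_⟩
  intro J F A hA w G k S₀ θ hw hG hS₀ hθ hTm hJ hpos
  obtain ⟨B, hBA, hPB, hB⟩ := hrem J F A hA w (fun s => dv w (fun s _ => G s) k s) S₀ θ hw
    (fun s => natDegree_dv w (fun s _ => hG s) k s) hS₀ hθ hTm (by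
      refine le_trans ?_ hJ
      refine mul_le_mul_of_nonneg_right ?_ (by linarith)
      linarith) (by
      intro ω hω
      show |(dv w (fun s _ => G s) k (slam F w ω)).eval (rt F w ω)| ≤ S₀
      rw [eval_dv F hw (fun s _ => G s) ω k]
      exact hpos ω hω)
  refine ⟨B, hBA, hPB, fun ω hω => ?_⟩
  obtain ⟨E, hE⟩ : ∃ E : ℝ, E = Real.exp (C₁ * (θ + 1)) := ⟨_, rfl⟩
  have hE0 : 0 < E := by
    rw [hE]
    exact Real.exp_pos _
  have h2 := hmk _ (E * S₀) (natDegree_dv w (fun s _ => hG s) k (slam F w ω)) (by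
    intro t ht
    rw [hE]
    exact hB ω hω t ht) (rt F w ω) (rt_mem F w ω)
  rw [dv_comp F hw G k ω, der_aff, Polynomial.eval_mul, Polynomial.eval_C,
    Polynomial.eval_comp, Polynomial.eval_mul, Polynomial.eval_C, Polynomial.eval_sub,
    Polynomial.eval_X, Polynomial.eval_C, sub_self, mul_zero, abs_mul,
    abs_of_pos (by positivity : (0 : ℝ) < (1 / 2 ^ w) ^ j)] at h2
  have h3 : |ojet F k j (G (slam F w ω)) ω| ≤ (2 ^ w) ^ j * (C₂ * (E * S₀)) := by
    unfold ojet jet
    rw [one_div_pow, one_div, inv_mul_le_iff₀ (by positivity)] at h2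
    exact h2
  refine h3.trans ?_
  have h4 : Real.exp ((C₁ + Real.log C₂) * (θ + 1)) = E * Real.exp (Real.log C₂ * (θ + 1)) := by
    rw [hE, ← Real.exp_add]
    congr 1
    ring
  have h5 : C₂ ≤ Real.exp (Real.log C₂ * (θ + 1)) := by
    calc C₂ = Real.exp (Real.log C₂) := (Real.exp_log (by linarith)).symm
      _ ≤ _ := Real.exp_le_exp.2 (by nlinarith)
  rw [h4]
  have h6 : 0 ≤ (2 ^ w) ^ j * (E * S₀) := by positivity
  calc ((2 : ℝ) ^ w) ^ j * (C₂ * (E * S₀)) = C₂ * ((2 ^ w) ^ j * (E * S₀)) := by ring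
    _ ≤ Real.exp (Real.log C₂ * (θ + 1)) * ((2 ^ w) ^ j * (E * S₀)) :=
        mul_le_mul_of_nonneg_right h5 h6
    _ = _ := by ring

end Pool.LA91
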