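import Pool.Agent.H99.GEN.Gr

/-!
# The difference of two closed labels of one coordinate (family level)

`dif_ball`: two closed labels of the same coordinate differ by the sum of their errors on the ball
of radius `2 ^ (-u)` around the point, if the coordinates of the base are full behind `u` digits.
-/

set_option autoImplicit false

namespace Pool.LA91

open Finset Real MvPolynomial
open Pool.Agent.H49.Ent Pool.Agent.H32.Dense Pool.STK Pool.KA Pool.KSAT Pool.K2S Pool.PB Pool.GEN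
open Pool.GRD (LbP Pb_mono_pos)
open Pool.UNJ (ceI Tub)
open Pool.BFL (Pb)

variable {m J : ℕ}

/-- **Two closed labels of one coordinate.** -/
theorem dif_ball (m K : ℕ) : ∃ C : ℝ, 1 ≤ C ∧
    ∀ (J : ℕ) (F : Fam m J) (q : F.Ω → ℝ) (I : Finset (Fin m)) (k : Fin m) (w u X : ℕ)
      (A : F.Ω → Prop) (r₁ P₁ r₂ P₂ : ℕ) (V₁ V₂ : Type)
      (z₁ : PtT F → V₁) (z₁' : LnT F → V₁) (G₁ : V₁ → MvPolynomial (Option (Fin m)) ℝ)
      (z₂ : PtT F → V₂) (z₂' : LnT F → V₂) (G₂ : V₂ → MvPolynomial (Option (Fin m)) ℝ)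
      (θ e η : ℝ), IsLaw q → (∀ ω, 0 < q ω → A ω) →
      (J : ℝ) * Real.log 2 - e ≤ CH q F.T (fun ω => (F.l ω, F.Z ω)) → w + X ≤ J →
      LbP F I k K r₁ w P₁ A z₁ z₁' G₁ → LbP F I k K r₂ w P₂ A z₂ z₂' G₂ →
      w ≤ u → 0 ≤ θ → 0 ≤ e → 0 < η → η ≤ 1 →
      I.card * (X * Real.log 2) - θ ≤ CH q (fun ω => ceI I (fun _ => u + X) (F.x ω))
        (fun ω => (ceI I (fun _ => u) (F.x ω), (z₁' (slam F w ω), z₂' (slam F w ω)), F.W ω)) →
      C * (θ + e + 1) / η ≤ X * Real.log 2 →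
      Pb q (fun ω => ¬ ∀ b : Option (Fin m) → ℝ, (∀ o, |b o - bt F ω o| ≤ 2 / 2 ^ u) →
        |eval b (G₁ (z₁' (slam F w ω)) - G₂ (z₂' (slam F w ω)))| ≤
          Real.exp (C * (θ + e + 1) / η) * (1 / 2 ^ P₁ + 1 / 2 ^ P₂)) ≤ η := by
  classical
  obtain ⟨C₁, hC₁, hU⟩ := Pool.UNJ.uni_dep m K 4 (by norm_num)
  refine ⟨C₁, hC₁, ?_⟩
  intro J F q I k w u X A r₁ P₁ r₂ P₂ V₁ V₂ z₁ z₁' G₁ z₂ z₂' G₂ θ e η hq hA he hwX
    h₁ h₂ hwu hθ he0 hη hη1 hV hX
  have h0 := hq.nonneg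
  have key := hU J F q I (fun _ => u) w X (V₁ × V₂)
    (fun ω => (z₁' (slam F w ω), z₂' (slam F w ω)))
    (fun x => G₁ x.1 - G₂ x.2) A (fun _ => 1 / 2 ^ P₁ + 1 / 2 ^ P₂) θ e η hq he hwX
    (fun ω ω' _ _ h => by simp only [h])
    (fun x => (MvPolynomial.totalDegree_sub _ _).trans (max_le (h₁.deg _) (h₂.deg _)))
    (fun x b b' hb hb' => by
      rw [map_sub, map_sub, h₁.dep _ b b' hb hb', h₂.dep _ b b' hb hb']) hθ he0 hη hη1
    (fun _ => by positivity) hV (by
      have h1 : Pb q (fun ω => ¬ A ω) = 0 := by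
        unfold Pb
        refine Finset.sum_eq_zero fun ω _ => ?_
        by_cases hω : A ω
        · rw [if_neg (not_not.2 hω)]
        · rw [if_pos hω]
          by_contra hne
          exact hω (hA ω (lt_of_le_of_ne (h0 ω) (Ne.symm hne)))
      rw [h1]
      positivity) hX ?_
  · refine le_trans (Pb_mono_pos h0 fun ω hqω hω => ?_) key
    intro hall
    refine hω fun b hb => hall b ?_
    have hwu' : (1 : ℝ) / 2 ^ u ≤ 1 / 2 ^ w := inv_mono hwu
    have e2' : (2 : ℝ) / 2 ^ u = 2 * (1 / 2 ^ u) := by ring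
    refine ⟨?_, fun i _ => ?_⟩
    · have e1 := hb none
      have e2 : bt F ω none = F.t ω := rfl
      rw [e2] at e1
      have e3 : (4 : ℝ) / 2 ^ w = 4 * (1 / 2 ^ w) := by ring
      rw [e3]
      rw [e2'] at e1
      have : (0 : ℝ) < 1 / 2 ^ w := by positivity
      linarith
    · have e1 := hb none
      have e2 := hb (some i)
      have e3 : bt F ω none = F.t ω := rfl
      have e4 : bt F ω (some i) = F.u ω i + F.t ω * F.d ω i := rfl
      rw [e3, e2'] at e1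
      rw [e4, e2'] at e2
      have e5 := F.dir ω i
      have e6 : |(b none - F.t ω) * F.d ω i| ≤ 2 * (1 / 2 ^ u) := by
        rw [abs_mul]
        exact (mul_le_of_le_one_right (abs_nonneg _) e5).trans e1
      have e7 : b (some i) - (F.u ω i + b none * F.d ω i) =
          (b (some i) - (F.u ω i + F.t ω * F.d ω i)) - (b none - F.t ω) * F.d ω i := by ring
      rw [e7]
      refine (abs_sub _ _).trans ?_
      have e8 : (4 : ℝ) / 2 ^ u = 4 * (1 / 2 ^ u) := by ring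
      show _ ≤ (4 : ℝ) / 2 ^ u
      rw [e8]
      linarith
  · intro ω hω
    simp only
    rw [map_sub]
    have h1 := h₁.pos ω hω
    have h2 := h₂.pos ω hω
    have e1 : MvPolynomial.eval (bt F ω) (G₁ (z₁' (slam F w ω))) -
        MvPolynomial.eval (bt F ω) (G₂ (z₂' (slam F w ω))) =
        (F.x ω k - MvPolynomial.eval (bt F ω) (G₂ (z₂' (slam F w ω)))) -
        (F.x ω k - MvPolynomial.eval (bt F ω) (G₁ (z₁' (slam F w ω)))) := by ring
    rw [e1]
    have h3 := abs_sub (F.x ω k - MvPolynomial.eval (bt F ω) (G₂ (z₂' (slam F w ω))))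
      (F.x ω k - MvPolynomial.eval (bt F ω) (G₁ (z₁' (slam F w ω))))
    linarith

end Pool.LA91
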