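import Pool.Agent.H91.LA.Nbx
import Pool.Agent.H91.LA.Dif
import Pool.Agent.H91.LA.Own

/-!
# Two closed labels are near on the nested natural boxes, for classes

A chain of coordinates `c 0, …, c (r - 1)` at the window `w`: the first `r₀` are full behind `u₂ J`
digits; the other ones have closed labels over all earlier coordinates of the precision `s i` and
are full behind it. `nbx_cls`: there are charts of the coordinates, with arbitrarily small defects,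
such that any two closed labels over a part of the chain differ by their errors only, up to
`2 ^ (ε J)`, on the natural boxes of the charts.
-/

set_option autoImplicit false

namespace Pool.LA91

open Finset Real MvPolynomial
open Pool.Agent.H49.Ent Pool.Agent.H32.Dense Pool.STK Pool.KA Pool.KSAT Pool.K2S Pool.PB Pool.GEN
open Pool.S6C Pool.RCD
open Pool.GRD (LbP Pb_mono_pos)
open Pool.BFL (Pb)
open Pool.UNJ (ceI)
open Pool.LIV (Pb_mono25 Pb_or25 Pb_ex25)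
open Pool.GRW (uc uc_zero uc_succ uc_inj depU_of DepU DBx kmx le_kmx Cm Cg_le_Cm
  one_le_Cm Cm_mono xr xr_near hier tmc_bas bas_part TmC.wn)

variable {m J : ℕ}

theorem Cm_left {N N' M : ℕ} (h : N ≤ N') : Cm N M ≤ Cm N' M := by
  have h0 : ∀ n k, 0 ≤ Pool.GRW.Cg n k := fun n k => zero_le_one.trans (Pool.GRW.one_le_Cg n k)
  unfold Cm
  exact Finset.sum_le_sum_of_subset_of_nonneg (Finset.range_subset_range.2 (by omega))
    fun n _ _ => Finset.sum_nonneg fun k _ => h0 n k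

/-- Fullness of the coordinates with charts, given the earlier ones. -/
def FulC (S : PCl m) (c : ℕ → Fin m) (r₀ r : ℕ) (w : ℝ) (s : ℕ → ℝ) : Prop :=
  ∀ ρ : ℝ, 0 < ρ → Bas S (fun J F A => ∀ (V : Type) (z : PtT F → V) (z' : LnT F → V),
      (∀ ω, A ω → z (ptr F J ω) = z' (slam F ⌊w * J⌋₊ ω)) → ∀ i, r₀ ≤ i → i < r →
      ((1 - s i) - ρ) * Real.log 2 * J ≤ CH (Pool.Agent.H49.Ent.cond F.p A True)
        (fun ω => F.X J ω (c i)) (fun ω => ((fun l' : Fin i => F.X J ω (c l')),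
          z' (slam F ⌊w * J⌋₊ ω), F.W ω)))

theorem FulC.sub {S S' : PCl m} (hs : ∀ (τ : ℝ) (J : ℕ) (F : Fam m J) (A : F.Ω → Prop),
    S'.St τ J F A → S.St τ J F A) {c : ℕ → Fin m} {r₀ r : ℕ} {w : ℝ} {s : ℕ → ℝ}
    (h : FulC S c r₀ r w s) : FulC S' c r₀ r w s := fun ρ hρ => (h ρ hρ).sub hs

/-- **The natural box** of the charts `g`. -/
def NB (F : Fam m J) (c : ℕ → Fin m) (r₀ n u : ℕ) (δ : ℕ → ℝ)
    (g : ℕ → MvPolynomial (Option (Fin m)) ℝ) (ω : F.Ω) (x : Option (Fin m) → ℝ) : Prop :=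
  |x none - F.t ω| ≤ 1 / 2 ^ u ∧ (∀ l < r₀, |x (some (c l)) - xr F ω (some (c l))| ≤ 1 / 2 ^ u) ∧
    ∀ i, r₀ ≤ i → i < n → |x (some (c i)) - eval x (g i)| ≤ δ i

/-- **The data of a nested chain** at the window `w`. -/
structure Chn (S : PCl m) (c : ℕ → Fin m) (r₀ r : ℕ) (w u₀ u₁ : ℝ) (s rd : ℕ → ℝ) : Prop where
  hr : r₀ ≤ r
  inj : Set.InjOn c (Set.Iio r)
  w0 : 0 ≤ w
  wu0 : w ≤ u₀
  u0 : u₀ < 1
  wu1 : w ≤ u₁
  u1 : u₁ < 1
  s0 : ∀ i, r₀ ≤ i → i < r → 0 ≤ s i ∧ s i < 1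
  r1 : ∀ i, r₀ ≤ i → i < r → rd i < 1
  att : ∀ i, r₀ ≤ i → i < r → Att S ((range i).image c) (c i) w (s i) (rd i)
  base : ∀ u : ℝ, u₀ < u → u < 1 → Ful S ((range r₀).image c) w u
  pre : ∀ n, r₀ ≤ n → n ≤ r → Ful S ((range n).image c) w u₁
  ful : FulC S c r₀ r w s

theorem Chn.sub {S S' : PCl m} (hs : ∀ (τ : ℝ) (J : ℕ) (F : Fam m J) (A : F.Ω → Prop),
    S'.St τ J F A → S.St τ J F A) {c : ℕ → Fin m} {r₀ r : ℕ} {w u₀ u₁ : ℝ} {s rd : ℕ → ℝ}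
    (h : Chn S c r₀ r w u₀ u₁ s rd) : Chn S' c r₀ r w u₀ u₁ s rd :=
  ⟨h.hr, h.inj, h.w0, h.wu0, h.u0, h.wu1, h.u1, h.s0, h.r1, fun i a b => (h.att i a b).sub hs,
    fun u a b => (h.base u a b).sub hs, fun n a b => (h.pre n a b).sub hs, h.ful.sub hs⟩

theorem card_im {c : ℕ → Fin m} {r n : ℕ} (hc : Set.InjOn c (Set.Iio r)) (hn : n ≤ r) :
    ((range n).image c).card = n := by
  rw [Finset.card_image_of_injOn, card_range]
  intro a ha b hb hab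
  have h1 := Finset.mem_range.1 (Finset.mem_coe.1 ha)
  have h2 := Finset.mem_range.1 (Finset.mem_coe.1 hb)
  exact hc (show a < r by omega) (show b < r by omega) hab

/-- The fullness of the base, for the digits. -/
theorem base_dig {F : Fam m J} {q : F.Ω → ℝ} (h0 : ∀ ω, 0 ≤ q ω) {c : ℕ → Fin m} {r₀ u : ℕ}
    {W : Type} (z : F.Ω → W) :
    CH q (fun ω => ceI ((range r₀).image c) (fun _ => J) (F.x ω))
        (fun ω => (ceI ((range r₀).image c) (fun _ => u) (F.x ω), z ω, F.W ω)) ≤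
      CH q (fun ω (l : Fin r₀) => F.X J ω (c l))
        (fun ω => ((fun l : Fin r₀ => F.X u ω (c l)), z ω, F.W ω)) := by
  refine (CH_mono_left h0 (X' := fun ω (l : Fin r₀) => F.X J ω (c l))
    fun ω ω' _ _ hh => ?_).trans (CH_mono_cond h0 fun ω ω' _ _ hh => ?_)
  · have h4 := Prod.ext_iff.mp hh
    funext k
    unfold ceI
    by_cases hk : k ∈ (range r₀).image c
    · obtain ⟨l, hl, rfl⟩ := mem_image.1 hk
      simp only [if_pos hk]
      exact congrFun h4.1 ⟨l, mem_range.1 hl⟩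
    · simp only [if_neg hk]
  · have h4 := Prod.ext_iff.mp hh
    refine Prod.ext (funext fun l => ?_) h4.2
    have h5 := congrFun h4.1 (c l)
    have h6 : c l ∈ (range r₀).image c := mem_image_of_mem _ (mem_range.2 l.2)
    unfold ceI at h5
    simp only [if_pos h6] at h5
    exact h5

/-- **Two closed labels are near on the nested natural boxes.** -/
theorem nbx_cls {S : PCl m} {C₀ : ℝ} (htm : TmC S C₀) {c : ℕ → Fin m} {r₀ r : ℕ}
    {w u₀ u₁ u₂ : ℝ} {s rd : ℕ → ℝ} (hch : Chn S c r₀ r w u₀ u₁ s rd) (hu₂ : u₀ < u₂)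
    (hu2 : u₂ < 1) (KT : ℕ) {ε δ : ℝ} (hε : 0 < ε) (hδ : 0 < δ) :
    ∃ (K : ℕ → ℕ) (d : ℕ → ℝ), (∀ i, r₀ ≤ i → i < r → 0 < d i ∧ d i ≤ δ) ∧
      ∀ η : ℝ, 0 < η → η ≤ 1 → Bas S (fun J F A =>
        ∃ (V : Type) (z : PtT F → V) (z' : LnT F → V)
          (g : V → ℕ → MvPolynomial (Option (Fin m)) ℝ),
        (∀ i, r₀ ≤ i → i < r → LbOK F ((range i).image c) (c i) (K i) ⌊d i * J⌋₊ J ⌊w * J⌋₊
          ⌊(rd i + d i) * J⌋₊ ⌊(s i - d i) * J⌋₊ A z z' (fun v => g v i)) ∧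
        (∀ v i, i < r₀ ∨ r ≤ i → g v i = 0) ∧ (∀ ω, A ω → z (ptr F J ω) = z' (slam F ⌊w * J⌋₊ ω)) ∧
        ∀ n, r₀ ≤ n → n ≤ r → ∀ (k : Fin m) (KD P₁ P₂ : ℕ) (V₁ V₂ : Type)
          (z₁ : PtT F → V₁) (z₁' : LnT F → V₁) (G₁ : V₁ → MvPolynomial (Option (Fin m)) ℝ)
          (z₂ : PtT F → V₂) (z₂' : LnT F → V₂) (G₂ : V₂ → MvPolynomial (Option (Fin m)) ℝ),
          KD ≤ max KT (if n < r then K n else 0) →
          LbP F ((range n).image c) k KD J ⌊w * J⌋₊ P₁ A z₁ z₁' G₁ →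
          LbP F ((range n).image c) k KD J ⌊w * J⌋₊ P₂ A z₂ z₂' G₂ →
          Pb (Pool.Agent.H49.Ent.cond F.p A True) (fun ω =>
            ¬ ∀ x, NB F c r₀ n ⌊u₂ * J⌋₊ (fun i => 2 / 2 ^ ⌊(s i - d i) * J⌋₊)
                (g (z' (slam F ⌊w * J⌋₊ ω))) ω x →
              |eval x (G₁ (z₁' (slam F ⌊w * J⌋₊ ω)) - G₂ (z₂' (slam F ⌊w * J⌋₊ ω)))| ≤
                2 ^ (ε * J) * (1 / 2 ^ P₁ + 1 / 2 ^ P₂)) ≤ η) := by
  classical
  obtain ⟨hr, hc, hw0, hwu0, -, hwu1, hu1, hs0, hr1, hatt, hbase, hpre, hful⟩ := hch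
  have hwu2 : w ≤ u₂ := by linarith
  have hl0 : 0 < Real.log 2 := Real.log_pos one_lt_two
  have hlog0 : 0 < Real.log 2 := hl0
  have hl1 : Real.log 2 ≤ 1 := by
    have := Real.log_two_lt_d9
    linarith
  have hl2 : 1 / 2 ≤ Real.log 2 := by
    have := Real.log_two_gt_d9
    linarith
  have hr0 : (0 : ℝ) ≤ r := Nat.cast_nonneg r
  -- the room
  have hroom : ∃ χ : ℝ, 0 < χ ∧ u₂ + χ ≤ 1 ∧ ∀ l < r, r₀ ≤ l → s l + 3 * χ ≤ 1 ∧ rd l + χ ≤ 1 := by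
    have key : ∀ k ≤ r, ∃ χ : ℝ, 0 < χ ∧ u₂ + χ ≤ 1 ∧
        ∀ l < k, r₀ ≤ l → s l + 3 * χ ≤ 1 ∧ rd l + χ ≤ 1 := by
      intro k
      induction k with
      | zero =>
        intro _
        exact ⟨1 - u₂, by linarith, by linarith, fun l hl => absurd hl (Nat.not_lt_zero l)⟩
      | succ k ih =>
        intro hk
        obtain ⟨χ, h1, h2, h3⟩ := ih (by omega)
        by_cases hk0 : r₀ ≤ k
        · have a1 := (hs0 k hk0 (by omega)).2
          have a2 := hr1 k hk0 (by omega)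
          refine ⟨min χ (min ((1 - s k) / 3) (1 - rd k)), lt_min h1 (lt_min (by linarith)
            (by linarith)), ?_, fun l hl hl0 => ?_⟩
          · have := min_le_left χ (min ((1 - s k) / 3) (1 - rd k))
            linarith
          have e1 := min_le_left χ (min ((1 - s k) / 3) (1 - rd k))
          have e2 := (min_le_right χ (min ((1 - s k) / 3) (1 - rd k))).trans (min_le_left _ _)
          have e3 := (min_le_right χ (min ((1 - s k) / 3) (1 - rd k))).trans (min_le_right _ _)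
          rcases Nat.lt_or_ge l k with h4 | h4
          · have := h3 l h4 hl0
            constructor <;> linarith [this.1, this.2]
          · rw [show l = k by omega]
            constructor <;> linarith
        · refine ⟨χ, h1, h2, fun l hl hl0 => ?_⟩
          omega
    exact key r le_rfl
  obtain ⟨χ, hχ, hu2χ, hsχ⟩ := hroom
  -- the constants
  obtain ⟨Q, hQ⟩ : ∃ Q : ℝ, Q = 8 ^ r / (1 / 2) := ⟨_, rfl⟩
  have hQ0 : 0 < Q := by rw [hQ]; positivity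
  obtain ⟨γ₀, hγ₀⟩ : ∃ γ₀ : ℝ, γ₀ = min (χ / 4) (ε * Real.log 2 / (2 * ((r : ℝ) + 1))) := ⟨_, rfl⟩
  have hγ0 : 0 < γ₀ := by rw [hγ₀]; exact lt_min (by positivity) (by positivity)
  have hγχ : γ₀ ≤ χ / 4 := by rw [hγ₀]; exact min_le_left _ _
  have hγε : (r + 1) * γ₀ ≤ ε / 2 * Real.log 2 := by
    have h1 : γ₀ ≤ ε * Real.log 2 / (2 * ((r : ℝ) + 1)) := by rw [hγ₀]; exact min_le_right _ _
    refine (mul_le_mul_of_nonneg_left h1 (by linarith)).trans (le_of_eq ?_)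
    field_simp
  obtain ⟨φ', hφ'⟩ : ∃ φ' : ℕ → ℝ, φ' = fun M =>
    min (min δ (χ / 2)) (γ₀ / (4 * (Cm (r + 1) M * Q))) := ⟨_, rfl⟩
  have hCm : ∀ M, 0 < Cm (r + 1) M := fun M => zero_lt_one.trans_le (one_le_Cm (r + 1) M)
  have hφ'0 : ∀ M, 0 < φ' M := by
    intro M
    rw [hφ']
    have := hCm M
    exact lt_min (lt_min hδ (by positivity)) (by positivity)
  have hφ2 : ∀ M, φ' M ≤ δ := fun M => by
    rw [hφ']
    exact (min_le_left _ _).trans (min_le_left _ _)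
  have hφ3 : ∀ M, φ' M ≤ χ / 2 := fun M => by
    rw [hφ']
    exact (min_le_left _ _).trans (min_le_right _ _)
  have hφ4 : ∀ M, Cm (r + 1) M * Q * φ' M ≤ γ₀ / 4 := by
    intro M
    have h1 : φ' M ≤ γ₀ / (4 * (Cm (r + 1) M * Q)) := by
      rw [hφ']
      exact min_le_right _ _
    have h2 : 0 < Cm (r + 1) M * Q := mul_pos (hCm M) hQ0
    refine (mul_le_mul_of_nonneg_left h1 h2.le).trans (le_of_eq ?_)
    have h3 := h2.ne'
    rw [mul_div_assoc', div_eq_div_iff (by positivity) (by norm_num)]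
    ring
  -- the labels
  have hKf : ∀ (i : ℕ) (e : ℝ), ∃ K : ℕ, r₀ ≤ i → i < r → 0 < e → Bas S (fun J F A =>
      Lb F ((range i).image c) (c i) K ⌊e * J⌋₊ J ⌊w * J⌋₊ ⌊(rd i + e) * J⌋₊
        ⌊(s i - e) * J⌋₊ A) := by
    intro i e
    by_cases h : r₀ ≤ i ∧ i < r ∧ 0 < e
    · obtain ⟨K, hK⟩ := hatt i h.1 h.2.1 e h.2.2
      exact ⟨K, fun _ _ _ => hK⟩
    · exact ⟨0, fun h1 h2 h3 => absurd ⟨h1, h2, h3⟩ h⟩
  choose Kf hKf using hKf
  obtain ⟨K, d, hKd⟩ := hier r Kf (fun M => φ' (max KT M)) (fun M => hφ'0 _)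
  refine ⟨K, d, fun i _ hi => ⟨(hKd i hi).1, (hKd i hi).2.2.trans (hφ2 _)⟩, ?_⟩
  intro η hη hη1
  obtain ⟨Mt, hMt⟩ : ∃ Mt, Mt = max KT ((range r).sup K) := ⟨_, rfl⟩
  have hMtQ : 0 < Cm (r + 1) Mt * Q := mul_pos (hCm Mt) hQ0
  obtain ⟨ρ, hρ⟩ : ∃ ρ : ℝ, ρ = γ₀ / (4 * (Cm (r + 1) Mt * Q)) := ⟨_, rfl⟩
  have hρ0 : 0 < ρ := by rw [hρ]; positivity
  have hρQ : Cm (r + 1) Mt * Q * ρ = γ₀ / 4 := by
    rw [hρ, mul_div_assoc', div_eq_div_iff (by positivity) (by norm_num)]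
    ring
  obtain ⟨C, hC, hdif⟩ := dif_ball m Mt
  have hC0 : 0 < C := by linarith
  obtain ⟨κ, hκ⟩ : ∃ κ : ℝ, κ = min (ε / 2) (1 - u₁) := ⟨_, rfl⟩
  have hκ0 : 0 < κ := by rw [hκ]; exact lt_min (by linarith) (by linarith)
  obtain ⟨ψ, hψ⟩ : ∃ ψ : ℝ, ψ = η / 2 * κ * Real.log 2 / (3 * C) := ⟨_, rfl⟩
  have hψ0 : 0 < ψ := by
    rw [hψ]
    positivity
  have hψ1 : C * (3 * ψ) / (η / 2) = κ * Real.log 2 := by
    rw [hψ]
    field_simp
  have hall : Bas S (fun J F A => ∀ i < r, r₀ ≤ i → Lb F ((range i).image c) (c i) (K i)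
      ⌊d i * J⌋₊ J ⌊w * J⌋₊ ⌊(rd i + d i) * J⌋₊ ⌊(s i - d i) * J⌋₊ A) := by
    refine Bas.all r fun i hi => ?_
    by_cases hi0 : r₀ ≤ i
    · have h1 := hKf i (d i) hi0 hi (hKd i hi).1
      rw [← (hKd i hi).2.1] at h1
      exact h1.mono 0 fun J _ F A h _ => h
    · exact ⟨1, one_pos, 0, fun J _ F A _ h => absurd h hi0⟩
  have hpreA : Bas S (fun J F A => ∀ n < r + 1, r₀ ≤ n →
      ∀ (V : Type) (z : PtT F → V) (z' : LnT F → V),
      (∀ ω, A ω → z (ptr F J ω) = z' (slam F ⌊w * J⌋₊ ω)) →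
      ((range n).image c).card * (((J - ⌊u₁ * J⌋₊ : ℕ) : ℝ) * Real.log 2) - ψ * J ≤
        CH (Pool.Agent.H49.Ent.cond F.p A True)
          (fun ω => ceI ((range n).image c) (fun _ => J) (F.x ω))
          (fun ω => (ceI ((range n).image c) (fun _ => ⌊u₁ * J⌋₊) (F.x ω),
            z' (slam F ⌊w * J⌋₊ ω), F.W ω))) := by
    refine Bas.all (r + 1) fun n hn => ?_
    by_cases hn0 : r₀ ≤ n
    · exact (hpre n hn0 (by omega) ψ hψ0).mono 0 fun J _ F A h _ => h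
    · exact ⟨1, one_pos, 0, fun J _ F A _ h => absurd h hn0⟩
  obtain ⟨J₁, hJ₁⟩ := exists_nat_ge ((m + 2) / χ)
  obtain ⟨J₂, hJ₂⟩ := exists_nat_ge (4 / χ)
  obtain ⟨J₃, hJ₃⟩ := exists_nat_ge (1 / ψ)
  obtain ⟨J₄, hJ₄⟩ := exists_nat_ge (24 * (Cm (r + 1) Mt * Q) * (r + 1) / γ₀)
  refine Bas.mono (J₁ + J₂ + J₃ + J₄) ((bas_part ((hbase u₂ hu₂ hu2 ρ hρ0).and ((hful ρ hρ0).and
    (TmC.wn htm u₂ ρ hρ0))) (c := 2 / η) (by positivity)).and (hall.and (hpreA.and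
      (tmc_bas htm hψ0)))) ?_
  rintro J hJ F A ⟨hpart, hlb, hprA, hA, hT⟩
  have hJ0 : (0 : ℝ) ≤ J := Nat.cast_nonneg J
  have hJ' : (J₁ : ℝ) + J₂ + J₃ + J₄ ≤ J := by exact_mod_cast hJ
  have hn1 : (0 : ℝ) ≤ J₁ := Nat.cast_nonneg _
  have hn2 : (0 : ℝ) ≤ J₂ := Nat.cast_nonneg _
  have hn3 : (0 : ℝ) ≤ J₃ := Nat.cast_nonneg _
  have hn4 : (0 : ℝ) ≤ J₄ := Nat.cast_nonneg _
  have k1 : (m : ℝ) + 2 ≤ χ * J := by
    have : (m + 2) / χ ≤ J := by linarith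
    rw [div_le_iff₀ hχ] at this
    linarith
  have k2 : 4 ≤ χ * J := by
    have : 4 / χ ≤ J := by linarith
    rw [div_le_iff₀ hχ] at this
    linarith
  have k3 : 1 ≤ ψ * J := by
    have : 1 / ψ ≤ J := by linarith
    rw [div_le_iff₀ hψ0] at this
    linarith
  have k4 : 24 * (Cm (r + 1) Mt * Q) * (r + 1) ≤ γ₀ * J := by
    have : 24 * (Cm (r + 1) Mt * Q) * (r + 1) / γ₀ ≤ J := by linarith
    rw [div_le_iff₀ hγ0] at this
    linarith
  -- one type of the labels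
  choose V z z' G hG using hlb
  obtain ⟨z₀, hz₀⟩ : ∃ z₀ : PtT F → (∀ i : Fin r, ∀ h : r₀ ≤ i, V i i.2 h), z₀ =
    fun y (i : Fin r) h => z i i.2 h y := ⟨_, rfl⟩
  obtain ⟨z₀', hz₀'⟩ : ∃ z₀' : LnT F → (∀ i : Fin r, ∀ h : r₀ ≤ i, V i i.2 h), z₀' =
    fun y (i : Fin r) h => z' i i.2 h y := ⟨_, rfl⟩
  obtain ⟨g₀, hg₀⟩ : ∃ g₀ : (∀ i : Fin r, ∀ h : r₀ ≤ i, V i i.2 h) → ℕ →
      MvPolynomial (Option (Fin m)) ℝ,
    g₀ = fun v i => if hi : i < r then (if h : r₀ ≤ i then G i hi h (v ⟨i, hi⟩ h) else 0) else 0 :=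
    ⟨_, rfl⟩
  have hg₀e : ∀ v i (hi : i < r) (h : r₀ ≤ i), g₀ v i = G i hi h (v ⟨i, hi⟩ h) := by
    intro v i hi h
    rw [hg₀]
    show (if hi : i < r then (if h : r₀ ≤ i then G i hi h (v ⟨i, hi⟩ h) else 0) else 0) = _
    rw [dif_pos hi, dif_pos h]
  have hcl : ∀ ω, A ω → z₀ (ptr F J ω) = z₀' (slam F ⌊w * J⌋₊ ω) := by
    intro ω hω
    rw [hz₀, hz₀']
    funext j h
    exact (hG j j.2 h).cls ω hω
  have hlab : ∀ i, r₀ ≤ i → i < r → LbOK F ((range i).image c) (c i) (K i) ⌊d i * J⌋₊ J ⌊w * J⌋₊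
      ⌊(rd i + d i) * J⌋₊ ⌊(s i - d i) * J⌋₊ A z₀ z₀' (fun v => g₀ v i) := by
    intro i hi0 hi
    have h1 := hG i hi hi0
    have e1 : (fun v => g₀ v i) = fun v => G i hi hi0 (v ⟨i, hi⟩ hi0) :=
      funext fun v => hg₀e v i hi hi0
    rw [e1]
    refine ⟨fun v => h1.deg _, fun v => h1.dep _, hcl, fun ω hω => ?_, fun ω hω => ?_,
      fun ω hω => ?_⟩
    · rw [hz₀']
      exact h1.pos ω hω
    · rw [hz₀']
      exact h1.vel ω hω
    · rw [hz₀']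
      exact h1.lip ω hω
  refine ⟨_, z₀, z₀', g₀, hlab, fun v i hi => ?_, hcl, ?_⟩
  · rw [hg₀]
    show (if hi : i < r then (if h : r₀ ≤ i then G i hi h (v ⟨i, hi⟩ h) else 0) else 0) = _
    rcases hi with hi | hi
    · by_cases h : i < r
      · rw [dif_pos h, dif_neg (by omega)]
      · rw [dif_neg h]
    · rw [dif_neg (by omega)]
  intro n hn0 hn k KD P₁ P₂ V₁ V₂ z₁ z₁' G₁ z₂ z₂' G₂ hKD h₁ h₂
  have hnR : (n : ℝ) ≤ r := by exact_mod_cast hn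
  obtain ⟨MM, hMM⟩ : ∃ MM : ℕ → ℕ, MM = fun l => max KT ((Finset.Ioo l r).sup K) := ⟨_, rfl⟩
  have hMMt : ∀ l, MM l ≤ Mt := by
    intro l
    rw [hMM, hMt]
    refine max_le_max le_rfl (Finset.sup_le fun x hx => Finset.le_sup (f := K)
      (Finset.mem_range.2 (Finset.mem_Ioo.1 hx).2))
  have hKDM : ∀ l < n, KD ≤ MM l := by
    intro l hl
    refine hKD.trans ?_
    rw [hMM]
    by_cases h : n < r
    · rw [if_pos h]
      exact max_le_max le_rfl (Finset.le_sup (f := K) (Finset.mem_Ioo.2 ⟨hl, h⟩))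
    · rw [if_neg h]
      exact max_le_max le_rfl (Nat.zero_le _)
  have hKDt : KD ≤ Mt := by
    refine hKD.trans ?_
    rw [hMt]
    by_cases h : n < r
    · rw [if_pos h]
      exact max_le_max le_rfl (Finset.le_sup (f := K) (Finset.mem_range.2 h))
    · rw [if_neg h]
      exact max_le_max le_rfl (Nat.zero_le _)
  have hq := isLaw_cond F.isLaw hA
  have h0 := hq.nonneg
  have hqA : ∀ ω, 0 < Pool.Agent.H49.Ent.cond F.p A True ω → A ω := fun ω hω => of_cond_pos hω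
  -- the windows
  have hwf : ⌊w * J⌋₊ ≤ ⌊u₁ * J⌋₊ := Nat.floor_le_floor (mul_le_mul_of_nonneg_right hwu1 hJ0)
  have hwf2 : ⌊w * J⌋₊ ≤ ⌊u₂ * J⌋₊ := Nat.floor_le_floor (mul_le_mul_of_nonneg_right hwu2 hJ0)
  have hu1J : ⌊u₁ * J⌋₊ ≤ J := floor_le hu1.le J
  have hu2J : ⌊u₂ * J⌋₊ ≤ J := floor_le hu2.le J
  have hwJ' : ⌊w * J⌋₊ + (J - ⌊u₁ * J⌋₊) ≤ J := by omega
  obtain ⟨W, hW⟩ : ∃ W : Type, W = ((∀ i : Fin r, ∀ h : r₀ ≤ i, V i i.2 h) × (V₁ × V₂)) := ⟨_, rfl⟩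
  obtain ⟨y, hy⟩ : ∃ y : PtT F → (∀ i : Fin r, ∀ h : r₀ ≤ i, V i i.2 h) × (V₁ × V₂),
    y = fun a => (z₀ a, (z₁ a, z₂ a)) := ⟨_, rfl⟩
  obtain ⟨y', hy'⟩ : ∃ y' : LnT F → (∀ i : Fin r, ∀ h : r₀ ≤ i, V i i.2 h) × (V₁ × V₂),
    y' = fun a => (z₀' a, (z₁' a, z₂' a)) := ⟨_, rfl⟩
  have hycl : ∀ ω, A ω → y (ptr F J ω) = y' (slam F ⌊w * J⌋₊ ω) := by
    intro ω hω
    rw [hy, hy']
    show (z₀ (ptr F J ω), (z₁ (ptr F J ω), z₂ (ptr F J ω))) = _
    rw [hcl ω hω, h₁.cls ω hω, h₂.cls ω hω]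
  obtain ⟨D, hD⟩ : ∃ D : (∀ i : Fin r, ∀ h : r₀ ≤ i, V i i.2 h) × (V₁ × V₂) →
      MvPolynomial (Option (Fin m)) ℝ, D = fun v => G₁ v.2.1 - G₂ v.2.2 := ⟨_, rfl⟩
  have hDe : ∀ a, D (y' a) = G₁ (z₁' a) - G₂ (z₂' a) := fun a => by rw [hD, hy']
  -- the ball
  obtain ⟨τ, hτ⟩ : ∃ τ : ℝ, τ = Real.exp (C * (ψ * J + ψ * J + 1) / (η / 2)) *
    (1 / 2 ^ P₁ + 1 / 2 ^ P₂) := ⟨_, rfl⟩
  have hτ0 : 0 < τ := by rw [hτ]; positivity
  have hexp : C * (ψ * J + ψ * J + 1) / (η / 2) ≤ κ * Real.log 2 * J := by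
    rw [← hψ1]
    have e1 : C * (ψ * J + ψ * J + 1) ≤ C * (3 * ψ) * J := by nlinarith
    calc C * (ψ * J + ψ * J + 1) / (η / 2) ≤ C * (3 * ψ) * J / (η / 2) :=
          div_le_div_of_nonneg_right e1 (by linarith)
      _ = _ := by ring
  have hdf := hdif J F _ ((range n).image c) k ⌊w * J⌋₊ ⌊u₁ * J⌋₊ (J - ⌊u₁ * J⌋₊) A J P₁ J P₂
    V₁ V₂ z₁ z₁' G₁ z₂ z₂' G₂ (ψ * J) (ψ * J) (η / 2) hq hqA hT hwJ'
    (h₁.mono (Finset.Subset.refl _) hKDt le_rfl) (h₂.mono (Finset.Subset.refl _) hKDt le_rfl) hwf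
    (by positivity) (by positivity) (by linarith) (by linarith) (by
      rw [Nat.add_sub_cancel' hu1J]
      exact hprA n (by omega) hn0 (V₁ × V₂) (fun a => (z₁ a, z₂ a)) (fun a => (z₁' a, z₂' a))
        (fun ω hω => by rw [h₁.cls ω hω, h₂.cls ω hω])) (by
      refine hexp.trans ?_
      rw [Nat.cast_sub hu1J]
      have e1 : ((⌊u₁ * J⌋₊ : ℕ) : ℝ) ≤ u₁ * J := Nat.floor_le (mul_nonneg (by linarith) hJ0)
      have e2 : κ ≤ 1 - u₁ := by rw [hκ]; exact min_le_right _ _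
      have e3 : κ * J ≤ (1 - u₁) * J := mul_le_mul_of_nonneg_right e2 hJ0
      calc κ * Real.log 2 * J = κ * J * Real.log 2 := by ring
        _ ≤ (J - (⌊u₁ * J⌋₊ : ℕ)) * Real.log 2 :=
          mul_le_mul_of_nonneg_right (by linarith) hl0.le)
  rw [← hτ] at hdf
  obtain ⟨good, hgood⟩ : ∃ good : F.Ω → Prop, good = fun ω => ∀ b : Option (Fin m) → ℝ,
    (∀ o, |b o - bt F ω o| ≤ 2 / 2 ^ ⌊u₁ * J⌋₊) →
      |eval b (G₁ (z₁' (slam F ⌊w * J⌋₊ ω)) - G₂ (z₂' (slam F ⌊w * J⌋₊ ω)))| ≤ τ := ⟨_, rfl⟩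
  obtain ⟨box, hbox⟩ : ∃ box : F.Ω → Prop, box = fun ω =>
    ∀ x, NB F c r₀ n ⌊u₂ * J⌋₊ (fun i => 2 / 2 ^ ⌊(s i - d i) * J⌋₊)
      (g₀ (z₀' (slam F ⌊w * J⌋₊ ω))) ω x →
      |eval x (G₁ (z₁' (slam F ⌊w * J⌋₊ ω)) - G₂ (z₂' (slam F ⌊w * J⌋₊ ω)))| ≤
        2 ^ (ε * J) * (1 / 2 ^ P₁ + 1 / 2 ^ P₂) := ⟨_, rfl⟩
  have hgd : Pb (Pool.Agent.H49.Ent.cond F.p A True) (fun ω => ¬ good ω) ≤ η / 2 := by
    rw [hgood]
    exact hdf
  suffices hsuff : Pb (Pool.Agent.H49.Ent.cond F.p A True) (fun ω => ¬ box ω) ≤ η by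
    rw [hbox] at hsuff
    exact hsuff
  obtain ⟨R, hR⟩ : ∃ R : F.Ω → Prop, R = fun ω => A ω ∧ good ω ∧ ¬ box ω := ⟨_, rfl⟩
  have hRA : Sub R A := fun ω hω => by
    rw [hR] at hω
    exact hω.1
  by_contra hcon
  push Not at hcon
  have hp1 : Pb (Pool.Agent.H49.Ent.cond F.p A True) (fun ω => ¬ box ω) ≤
      Pb (Pool.Agent.H49.Ent.cond F.p A True) (fun ω => ¬ good ω) +
        Pb (Pool.Agent.H49.Ent.cond F.p A True) R := by
    refine le_trans (Pb_mono25 h0 fun ω hω hn => ?_) (Pb_or25 h0 (fun ω => ¬ good ω) R)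
    by_cases hg : good ω
    · right
      rw [hR]
      exact ⟨hqA ω hω, hg, hn⟩
    · left
      exact hg
  have hp2 : Pb (Pool.Agent.H49.Ent.cond F.p A True) R = Pe F.p R / Pe F.p A := by
    rw [Pb_cond hA]
    congr 2
    funext ω
    exact propext ⟨fun h => h.2, fun h => ⟨hRA ω h, h⟩⟩
  have hp3 : η / 2 < Pe F.p R / Pe F.p A := by
    rw [← hp2]
    linarith
  have hp4 : Pe F.p A ≤ 2 / η * Pe F.p R := by
    rw [lt_div_iff₀ hA] at hp3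
    rw [div_mul_eq_mul_div, le_div_iff₀ hη]
    linarith
  obtain ⟨hbR, hfR, hRp, htR⟩ := hpart R hRA hp4
  have hqR := isLaw_cond F.isLaw hRp
  have hqRR : ∀ ω, 0 < Pool.Agent.H49.Ent.cond F.p R True ω → R ω := fun ω hω => of_cond_pos hω
  -- the length of the growth
  obtain ⟨L, hL⟩ : ∃ L, L = ⌊χ * (J : ℝ)⌋₊ := ⟨_, rfl⟩
  have hLle : (L : ℝ) ≤ χ * J := by
    rw [hL]
    exact Nat.floor_le (by positivity)
  have hLge : χ * J - 1 ≤ L := by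
    rw [hL]
    have := Nat.lt_floor_add_one (χ * (J : ℝ))
    linarith
  have hu2f : ((⌊u₂ * J⌋₊ : ℕ) : ℝ) ≤ u₂ * J := Nat.floor_le (mul_nonneg (by linarith) hJ0)
  have huL : ⌊u₂ * (J : ℝ)⌋₊ + L ≤ J := by
    have h1 : ((⌊u₂ * (J : ℝ)⌋₊ + L : ℕ) : ℝ) ≤ J := by
      push_cast
      nlinarith
    exact_mod_cast h1
  have hd2 : ∀ i < r, d i ≤ χ / 2 := fun i hi => (hKd i hi).2.2.trans (hφ3 _)
  obtain ⟨θ, hθ⟩ : ∃ θ : ℕ → ℝ, θ = fun l => (|d l| + ρ) * J + 1 := ⟨_, rfl⟩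
  have hlossT : Cm (n + 1) Mt * (ρ * J + 2 * n + 1) * (8 ^ n / (1 / 2)) ≤ γ₀ * J := by
    have hQn : (8 : ℝ) ^ n / (1 / 2) ≤ Q := by
      rw [hQ]
      exact div_le_div_of_nonneg_right (pow_le_pow_right₀ (by norm_num) hn) (by norm_num)
    have hCn : Cm (n + 1) Mt ≤ Cm (r + 1) Mt := Cm_left (by omega)
    have hC := hCm Mt
    have e0 : ρ * J + 2 * n + 1 ≤ ρ * J + 2 * ((r : ℝ) + 1) := by linarith
    have h9 : Cm (n + 1) Mt * (ρ * J + 2 * n + 1) * (8 ^ n / (1 / 2)) ≤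
        Cm (r + 1) Mt * (ρ * J + 2 * ((r : ℝ) + 1)) * Q :=
      mul_le_mul (mul_le_mul hCn e0 (by positivity) hC.le) hQn (by positivity)
        (mul_nonneg hC.le (by positivity))
    refine h9.trans ?_
    have h5 := mul_le_mul_of_nonneg_right hρQ.le hJ0
    have e1 : Cm (r + 1) Mt * (ρ * J + 2 * ((r : ℝ) + 1)) * Q =
      Cm (r + 1) Mt * Q * ρ * J + 2 * (Cm (r + 1) Mt * Q) * (r + 1) := by ring
    rw [e1]
    have : 0 ≤ γ₀ * J := by positivity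
    have e2 : 0 ≤ Cm (r + 1) Mt * Q * (r + 1) := by positivity
    linarith
  have key := nbx_fam (r := n) hn0 (F := F) (A := R) hqR hqRR (c := c)
    (fun a ha b hb hab => hc (Set.mem_Iio.2 (lt_of_lt_of_le ha hn))
      (Set.mem_Iio.2 (lt_of_lt_of_le hb hn)) hab) (K := K)
    (e := fun i => ⌊d i * J⌋₊) (ρ := fun i => ⌊(rd i + d i) * (J : ℝ)⌋₊)
    (g := fun i => ⌊(s i - d i) * (J : ℝ)⌋₊) (M := fun l => max KD (MM l))
    (w := ⌊w * (J : ℝ)⌋₊) (u := ⌊u₂ * (J : ℝ)⌋₊) (L := L) (KD := KD) (Mt := Mt) (z := y) (z' := y')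
    (G := fun v => g₀ v.1) (D := D) ?_ ?_ ?_ ?_ hwf2 huL ?_ ?_ (fun l => le_max_left _ _) ?_ hKDt
    (θ := θ) (fun l => by rw [hθ]; positivity) (θt := ρ * J) (θb := ρ * J) (by positivity)
    (by positivity) (htR L huL) ?_ ?_ (τ := τ) (η := 1 / 2) (γ := γ₀ * J) (by norm_num)
    (by norm_num) hτ0 ?_ ?_ ?_ ?_ ?_
  · -- the end
    have h1 : Pb (Pool.Agent.H49.Ent.cond F.p R True) (fun _ => True) ≤ 1 / 2 := by
      refine le_trans (Pb_mono25 hqR.nonneg fun ω hω _ => ?_) key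
      have h2 := hqRR ω hω
      rw [hR] at h2
      intro hall
      refine h2.2.2 ?_
      rw [hbox]
      intro x hx
      have h3 := hall x hx.1 hx.2.1 (fun i hi hi' => by
        rw [hy']
        exact hx.2.2 i hi hi')
      rw [hDe] at h3
      refine h3.trans ?_
      rw [hτ, ← mul_assoc]
      refine mul_le_mul_of_nonneg_right ?_ (by positivity)
      rw [← Real.exp_add, ← exp_p2]
      refine Real.exp_le_exp.2 ?_
      have e1 : ((n : ℝ) + 1) * (γ₀ * J) ≤ ε / 2 * Real.log 2 * J := by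
        calc ((n : ℝ) + 1) * (γ₀ * J) ≤ (r + 1) * (γ₀ * J) :=
              mul_le_mul_of_nonneg_right (by linarith) (by positivity)
          _ = (r + 1) * γ₀ * J := by ring
          _ ≤ _ := mul_le_mul_of_nonneg_right hγε hJ0
      have e2 : κ * Real.log 2 * J ≤ ε / 2 * Real.log 2 * J :=
        mul_le_mul_of_nonneg_right (mul_le_mul_of_nonneg_right (by
          rw [hκ]
          exact min_le_left _ _) hl0.le) hJ0
      linarith
    have h2 : Pb (Pool.Agent.H49.Ent.cond F.p R True) (fun _ => True) = 1 := by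
      unfold Pb
      simp only [if_true]
      exact hqR.sum_one
    linarith
  · -- the labels
    intro i hi0 hi
    have h1 := hlab i hi0 (by omega)
    refine ⟨fun v => h1.deg _, fun v => h1.dep _, fun ω hω => hycl ω (hRA ω hω), fun ω hω => ?_,
      fun ω hω => ?_, fun ω hω => ?_⟩
    · rw [hy']
      exact h1.pos ω (hRA ω hω)
    · rw [hy']
      exact h1.vel ω (hRA ω hω)
    · rw [hy']
      exact h1.lip ω (hRA ω hω)
  · intro i hi0 hi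
    refine Nat.floor_le_of_le ?_
    have h1 := (hsχ i (by omega) hi0).2
    have h2 := hd2 i (by omega)
    calc (rd i + d i) * (J : ℝ) ≤ 1 * J := mul_le_mul_of_nonneg_right (by linarith) hJ0
      _ = J := one_mul _
  · intro v
    rw [hD]
    exact (totalDegree_sub _ _).trans (max_le (h₁.deg _) (h₂.deg _))
  · intro v b₁ b₂ hb hbb
    rw [hD]
    have e1 : ∀ i ∈ (range n).image c, b₁ (some i) = b₂ (some i) := by
      intro i hi
      obtain ⟨l, hl, rfl⟩ := mem_image.1 hi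
      exact hbb l (mem_range.1 hl)
    show eval b₁ (G₁ v.2.1 - G₂ v.2.2) = eval b₂ (G₁ v.2.1 - G₂ v.2.2)
    rw [map_sub, map_sub, h₁.dep _ b₁ b₂ hb e1, h₂.dep _ b₁ b₂ hb e1]
  · -- the room
    intro l hl0 hl
    have hlr : l < r := by omega
    have h1 := (hsχ l hlr hl0).1
    have h2 := hd2 l hlr
    have h3 := (hKd l hlr).1
    have h4 : (⌊(s l - d l) * (J : ℝ)⌋₊ : ℝ) ≤ s l * J := by
      rcases le_or_gt 0 ((s l - d l) * (J : ℝ)) with h5 | h5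
      · refine (Nat.floor_le h5).trans ?_
        nlinarith
      · rw [Nat.floor_of_nonpos h5.le, Nat.cast_zero]
        exact mul_nonneg (hs0 l hl0 hlr).1 hJ0
    have h5 : (⌊d l * (J : ℝ)⌋₊ : ℝ) ≤ χ / 2 * J :=
      (Nat.floor_le (by positivity)).trans (mul_le_mul_of_nonneg_right h2 hJ0)
    have h6 : ((⌊(s l - d l) * (J : ℝ)⌋₊ + ⌊d l * (J : ℝ)⌋₊ + m + 2 + L : ℕ) : ℝ) ≤ J := by
      push_cast
      nlinarith
    exact_mod_cast h6
  · intro l i hl0 hli hi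
    refine le_max_of_le_right ?_
    rw [hMM]
    exact le_max_of_le_right (Finset.le_sup (f := K) (Finset.mem_Ioo.2 ⟨hli, by omega⟩))
  · intro i hi0 hi
    rw [hMt]
    exact le_max_of_le_right (Finset.le_sup (f := K) (Finset.mem_range.2 (by omega)))
  · -- the base
    have h1 := hbR _ y y' (fun ω hω => hycl ω (hRA ω hω))
    rw [card_im hc hr, Nat.cast_sub hu2J] at h1
    exact h1.trans (base_dig hqR.nonneg (fun ω => y' (slam F ⌊w * J⌋₊ ω)))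
  · -- fullness
    intro l hl0 hl
    have hlr : l < r := by omega
    have h1 := hfR _ y y' (fun ω hω => hycl ω (hRA ω hω)) l hl0 hlr
    refine le_trans ?_ h1
    rw [hθ]
    have h2 : (s l - d l) * (J : ℝ) < ⌊(s l - d l) * (J : ℝ)⌋₊ + 1 := Nat.lt_floor_add_one _
    have h3 := (hKd l hlr).1
    have h4 : |d l| = d l := abs_of_pos h3
    beta_reduce
    rw [h4]
    have h5 : ((J : ℝ) - ⌊(s l - d l) * (J : ℝ)⌋₊) * Real.log 2 ≤
        (J - s l * J + d l * J + 1) * Real.log 2 :=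
      mul_le_mul_of_nonneg_right (by linarith) hlog0.le
    have h6 : (d l * J + 1) * Real.log 2 ≤ d l * J + 1 :=
      mul_le_of_le_one_right (by positivity) hl1
    have h7 : ρ * J * Real.log 2 ≤ ρ * J := mul_le_of_le_one_right (by positivity) hl1
    nlinarith
  · -- the losses of the coordinates
    intro l hl0 hl
    have hlr : l < r := by omega
    have h3 := (hKd l hlr).1
    have hmx : max KD (MM l) = MM l := max_eq_right (hKDM l hl)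
    rw [hmx, hθ]
    beta_reduce
    rw [abs_of_pos h3]
    have hQn : (8 : ℝ) ^ n / (1 / 2) ≤ Q := by
      rw [hQ]
      exact div_le_div_of_nonneg_right (pow_le_pow_right₀ (by norm_num) hn) (by norm_num)
    have hCn : Cm (n + 1) (MM l) ≤ Cm (r + 1) (MM l) := Cm_left (by omega)
    have hM1 : Cm (r + 1) (MM l) ≤ Cm (r + 1) Mt := Cm_mono (hMMt l)
    have hC := hCm (MM l)
    have hCn0 : 0 < Cm (n + 1) (MM l) := zero_lt_one.trans_le (one_le_Cm _ _)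
    have h4 : Cm (r + 1) (MM l) * Q * d l ≤ γ₀ / 4 := by
      have h5 := (hKd l hlr).2.2
      have h6 := hφ4 (MM l)
      rw [hMM] at h6 ⊢
      exact (mul_le_mul_of_nonneg_left h5 (mul_pos (hCm _) hQ0).le).trans h6
    have h5 : Cm (r + 1) (MM l) * Q * ρ ≤ γ₀ / 4 := by
      rw [← hρQ]
      exact mul_le_mul_of_nonneg_right (mul_le_mul_of_nonneg_right hM1 hQ0.le) hρ0.le
    have h6 : Cm (r + 1) (MM l) * Q * 6 ≤ γ₀ * J / 4 := by
      have e1 := mul_le_mul_of_nonneg_right hM1 hQ0.le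
      have e2 : (24 : ℝ) * (Cm (r + 1) Mt * Q) ≤ 24 * (Cm (r + 1) Mt * Q) * (r + 1) :=
        le_mul_of_one_le_right (by positivity) (by linarith)
      linarith
    have h7 := mul_le_mul_of_nonneg_right h4 hJ0
    have h8 := mul_le_mul_of_nonneg_right h5 hJ0
    have h9 : Cm (n + 1) (MM l) * ((d l + ρ) * J + 1 + 5) * (8 ^ n / (1 / 2)) ≤
        Cm (r + 1) (MM l) * ((d l + ρ) * J + 1 + 5) * Q := by
      refine mul_le_mul (mul_le_mul_of_nonneg_right hCn (by positivity)) hQn (by positivity)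
        (mul_nonneg hC.le (by positivity))
    refine h9.trans ?_
    have e1 : Cm (r + 1) (MM l) * ((d l + ρ) * J + 1 + 5) * Q =
        Cm (r + 1) (MM l) * Q * d l * J +
        Cm (r + 1) (MM l) * Q * ρ * J + Cm (r + 1) (MM l) * Q * 6 := by
      ring
    rw [e1]
    have : 0 ≤ γ₀ * J := by positivity
    linarith
  · exact hlossT
  · exact hlossT
  · -- the room for the growth
    have h1 : γ₀ * J ≤ χ / 4 * J := mul_le_mul_of_nonneg_right hγχ hJ0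
    have h2 : (χ * J - 1) * (1 / 2) ≤ L * Real.log 2 := by
      have h3 : 0 ≤ χ * J - 1 := by linarith
      exact mul_le_mul hLge hl2 (by norm_num) (Nat.cast_nonneg L)
    linarith
  · -- the own points
    intro ω hω
    rw [hDe]
    rw [hR] at hω
    have h1 := hω.2.1
    rw [hgood] at h1
    refine h1 _ fun o => (xr_near F ω o).trans ?_
    have e1 : (1 : ℝ) / 2 ^ J ≤ 1 / 2 ^ ⌊u₁ * J⌋₊ := Pool.PB.inv_mono hu1J
    have e2 : (2 : ℝ) / 2 ^ ⌊u₁ * J⌋₊ = 2 * (1 / 2 ^ ⌊u₁ * J⌋₊) := by ring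
    have e3 : (0 : ℝ) < 1 / 2 ^ ⌊u₁ * J⌋₊ := by positivity
    rw [e2]
    linarith

end Pool.LA91
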