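import Pool.Agent.H92.GN.Num

/-!
# Numbers of natural quantities

A natural quantity `Q` says which functions `u` are the quantity on an event (`Q.P K e`: for charts
of complexity `K`, with accuracy `e`). It can depend on charts which depend on the event. If two
functions with `Q` are few bits of each other given a closed function and `y` (`Few`), then there
is a number `θ` such that on all events of a subclass the entropy of every function with `Q` given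
the record and `y` is `θ J` (`NN`, `nn_ext`).
-/

set_option autoImplicit false

namespace Pool.LA91

open Finset Real
open Pool.Agent.H49.Ent Pool.Agent.H32.Dense Pool.STK Pool.KA Pool.KSAT Pool.K2S Pool.PB Pool.S6C
  Pool.GEN Pool.RCD

variable {m : ℕ}

/-- **A natural quantity.** -/
structure Qt (m : ℕ) (U : Type) : Type 1 where
  /-- the function is the quantity on the event, complexity `K`, accuracy `e` -/
  P : ℕ → ℝ → ∀ (J : ℕ) (F : Fam m J), (F.Ω → Prop) → (F.Ω → U) → Prop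
  sub : ∀ {K : ℕ} {e : ℝ} {J : ℕ} {F : Fam m J} {A B : F.Ω → Prop} {u : F.Ω → U}, Sub B A →
    P K e J F A u → P K e J F B u
  mono : ∀ {K K' : ℕ} {e e' : ℝ} {J : ℕ} {F : Fam m J} {A : F.Ω → Prop} {u : F.Ω → U}, K ≤ K' →
    e ≤ e' → P K e J F A u → P K' e' J F A u

section one

variable {U : Type} {α β γ : ∀ J : ℕ, Fam m J → Type}
  (f : ∀ (J : ℕ) (F : Fam m J), F.Ω → α J F) (g : ∀ (J : ℕ) (F : Fam m J), F.Ω → β J F)
  (y : ∀ (J : ℕ) (F : Fam m J), F.Ω → γ J F) (Q : Qt m U) (K : ℕ) (e : ℝ)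

/-- The property: there are a function with `Q` and a closed function such that the first one has
at most `exp (-(s J))` values in each cell of the second one and of `y`. -/
def qQt (s : ℝ) : Stat m := fun J F A =>
  ∃ u : F.Ω → U, Q.P K e J F A u ∧ ∃ (V : Type) (z : F.Ω → V), Cl2 (f J F) (g J F) A z ∧
    ∀ v, (cnt F.p u (fun ω => A ω ∧ (z ω, y J F ω) = v) : ℝ) ≤ Real.exp (-(s * J))

theorem qQt.hered (s : ℝ) (J : ℕ) (F : Fam m J) : Hered (qQt f g y Q K e s J F) := by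
  rintro A B hB ⟨u, hu, V, z, h1, h2⟩
  refine ⟨u, Q.sub hB hu, V, z, h1.sub hB, fun v => le_trans ?_ (h2 v)⟩
  have h3 : Sub (fun ω => B ω ∧ (z ω, y J F ω) = v) (fun ω => A ω ∧ (z ω, y J F ω) = v) :=
    fun ω hω => ⟨hB ω hω.1, hω.2⟩
  exact_mod_cast cnt_mono F.p u h3

theorem qQt.anti (s s' : ℝ) (J : ℕ) (F : Fam m J) (A : F.Ω → Prop)
    (h : s' ≤ s) (hA : qQt f g y Q K e s J F A) : qQt f g y Q K e s' J F A := by
  obtain ⟨u, hu, V, z, h1, h2⟩ := hA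
  refine ⟨u, hu, V, z, h1, fun v => (h2 v).trans (Real.exp_le_exp.2 ?_)⟩
  have := mul_le_mul_of_nonneg_right h (Nat.cast_nonneg (α := ℝ) J)
  linarith

theorem qQt.lo {S : PCl m} {M : ℝ}
    (hM : Bas S (fun J F A => ∃ u, Q.P K e J F A u ∧ (cnt F.p u A : ℝ) ≤ Real.exp (M * J))) :
    Bas S (qQt f g y Q K e (-M)) := by
  refine Bas.mono 0 hM fun J _ F A hA => ?_
  obtain ⟨u, hu, hA⟩ := hA
  refine ⟨u, hu, Unit, fun _ => (), ⟨⟨fun _ => (), fun _ _ => rfl⟩,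
    fun _ => (), fun _ _ => rfl⟩, fun v => ?_⟩
  have h1 : (cnt F.p u (fun ω => A ω ∧ ((), y J F ω) = v) : ℝ) ≤ cnt F.p u A := by
    have h3 : Sub (fun ω => A ω ∧ ((), y J F ω) = v) A := fun ω hω => hω.1
    exact_mod_cast cnt_mono F.p u h3
  refine h1.trans (hA.trans (Real.exp_le_exp.2 (le_of_eq (by ring))))

theorem qQt.up {J : ℕ} (hJ : 1 ≤ J) {F : Fam m J}
    {A : F.Ω → Prop} (hA : 0 < Pe F.p A) : ¬ qQt f g y Q K e 1 J F A := by
  rintro ⟨u, -, V, z, -, h2⟩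
  have h0 : cset F.p u A ≠ ∅ := by
    intro h
    have h1 := one_le_cnt F.isLaw u hA
    rw [← cset_card, h, card_empty] at h1
    omega
  obtain ⟨x, hx⟩ := Finset.nonempty_iff_ne_empty.2 h0
  obtain ⟨ω, h1, h3, -⟩ := of_mem_cset hx
  have h4 := h2 (z ω, y J F ω)
  have h5 : (1 : ℝ) ≤ cnt F.p u (fun ω' => A ω' ∧ (z ω', y J F ω') = (z ω, y J F ω)) := by
    rw [← cset_card]
    have : 0 < (cset F.p u fun ω' => A ω' ∧ (z ω', y J F ω') = (z ω, y J F ω)).card :=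
      card_pos.2 ⟨u ω, mem_cset u h1 ⟨h3, rfl⟩⟩
    exact_mod_cast this
  have h6 : Real.exp (-(1 * (J : ℝ))) < 1 := by
    rw [Real.exp_lt_one_iff]
    have : (1 : ℝ) ≤ J := by exact_mod_cast hJ
    linarith
  linarith

/-- The number of `Q` at complexity `K` and accuracy `e`. -/
structure QNum (S : PCl m) (θ : ℝ) : Prop where
  at' : ∀ h : ℝ, 0 < h → Bas S (qQt f g y Q K e (-θ - h))
  no : ∀ h : ℝ, 0 < h → Bas S (fun J F A => ¬ qQt f g y Q K e (-θ + h) J F A)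

end one

/-- Numbers of countably many quantities, complexities and accuracies. -/
theorem ext_qt {S : PCl m} (hS : S.Ne)
    (hpos : ∀ (τ : ℝ) (J : ℕ) (F : Fam m J) (A : F.Ω → Prop), S.St τ J F A → 0 < Pe F.p A)
    (U : ℕ → Type) (α β γ : ℕ → ∀ J : ℕ, Fam m J → Type)
    (f : ∀ (i J : ℕ) (F : Fam m J), F.Ω → α i J F)
    (g : ∀ (i J : ℕ) (F : Fam m J), F.Ω → β i J F)
    (y : ∀ (i J : ℕ) (F : Fam m J), F.Ω → γ i J F) (Q : ∀ i, Qt m (U i)) (K : ℕ → ℕ)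
    (e : ℕ → ℝ) (M : ℕ → ℝ)
    (hM : ∀ i, Bas S (fun J F A => ∃ u, (Q i).P (K i) (e i) J F A u ∧
      (cnt F.p u A : ℝ) ≤ Real.exp (M i * J))) :
    ∃ S' : PCl m, S'.Ne ∧
      (∀ (τ : ℝ) (J : ℕ) (F : Fam m J) (A : F.Ω → Prop), S'.St τ J F A → S.St τ J F A) ∧
      ∀ i, ∃ θ : ℝ, QNum (f i) (g i) (y i) (Q i) (K i) (e i) S' θ := by
  have hlo : ∀ i, Bas S (qQt (f i) (g i) (y i) (Q i) (K i) (e i) (-M i)) := fun i =>
    qQt.lo _ _ _ _ _ _ (hM i)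
  obtain ⟨S', h1, h2, -, h4⟩ := hS.diag
    (fun n S₁ P => ∃ s : ℝ, PNum (S₁.sl P) (qQt (f n) (g n) (y n) (Q n) (K n) (e n)) s ∧
      P.P = (fun τ J F A => qQt (f n) (g n) (y n) (Q n) (K n) (e n) (s - τ) J F A ∨
        s - τ ≤ -M n)) (by
    intro n S₁ hle hn
    obtain ⟨s, -, -, P, hP, hs, hPe⟩ := hn.num (qQt (f n) (g n) (y n) (Q n) (K n) (e n))
      (fun s J F => qQt.hered _ _ _ _ _ _ s J F)
      (fun s s' J F A h hA => qQt.anti _ _ _ _ _ _ s s' J F A h hA)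
      (a := -M n) (b := 1) ((hlo n).clp.le hle)
      ((Clp.of one_pos 1 fun J hJ F A hA => qQt.up _ _ _ _ _ _ hJ (hpos 1 J F A hA) :
        Clp S (fun J F A => ¬ qQt (f n) (g n) (y n) (Q n) (K n) (e n) 1 J F A)).le hle)
    exact ⟨P, ⟨s, hs, hPe⟩, hP⟩)
  refine ⟨S', h1, h2, fun i => ?_⟩
  obtain ⟨S₁, P, ⟨s, hs, hPe⟩, -, -, hle, hall⟩ := h4 i
  refine ⟨-s, ⟨fun h hh => ?_, fun h hh => ?_⟩⟩
  · obtain ⟨τ₀, hτ₀, J₀, hb⟩ := (hlo i).sub h2
    have hi : (0 : ℝ) < (i : ℝ) + 1 := by positivity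
    refine ⟨min τ₀ (min h (1 / ((i : ℝ) + 1))), lt_min hτ₀ (lt_min hh (by positivity)), J₀,
      fun J hJ F A hA => ?_⟩
    have k1 : min τ₀ (min h (1 / ((i : ℝ) + 1))) ≤ h := (min_le_right _ _).trans (min_le_left _ _)
    have k2 : min τ₀ (min h (1 / ((i : ℝ) + 1))) ≤ 1 / ((i : ℝ) + 1) :=
      (min_le_right _ _).trans (min_le_right _ _)
    have k3 : ((i : ℝ) + 1) * min τ₀ (min h (1 / ((i : ℝ) + 1))) ≤ 1 := by
      rw [le_div_iff₀ hi] at k2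
      linarith
    have k4 := (hall _ J F A k3 hA).2
    rw [hPe] at k4
    rcases k4 with k4 | k4
    · exact qQt.anti _ _ _ _ _ _ _ _ J F A (by linarith) k4
    · exact qQt.anti _ _ _ _ _ _ _ _ J F A (by linarith)
        (hb J hJ F A (S'.mono (min_le_left _ _) hA))
  · have := Bas.neg (fun J F => qQt.hered (f i) (g i) (y i) (Q i) (K i) (e i) (s + h) J F)
      ((hs.le hle).2 h hh)
    have e : -(-s) + h = s + h := by ring
    rw [e]
    exact this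

section rel

variable {U U' U'' : Type} {α β γ α' β' : ∀ J : ℕ, Fam m J → Type}
  {f : ∀ (J : ℕ) (F : Fam m J), F.Ω → α J F} {g : ∀ (J : ℕ) (F : Fam m J), F.Ω → β J F}
  {f' : ∀ (J : ℕ) (F : Fam m J), F.Ω → α' J F} {g' : ∀ (J : ℕ) (F : Fam m J), F.Ω → β' J F}
  {y : ∀ (J : ℕ) (F : Fam m J), F.Ω → γ J F}

/-- The entropy of every function with `Q` given `y` and any closed function is at least the
number. -/
theorem QNum.low {S : PCl m} (hpos : ∀ (τ : ℝ) (J : ℕ) (F : Fam m J) (A : F.Ω → Prop),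
      S.St τ J F A → 0 < Pe F.p A) {Q : Qt m U} {K : ℕ} {e θ : ℝ}
    (hθ : QNum f g y Q K e S θ) (h : ℝ) (hh : 0 < h) :
    Bas S (fun J F A => ∀ u, Q.P K e J F A u → ∀ (V : Type) (z : F.Ω → V),
      Cl2 (f J F) (g J F) A z →
      (θ - h) * J ≤ CH (Pool.Agent.H49.Ent.cond F.p A True) u (fun ω => (z ω, y J F ω))) := by
  obtain ⟨c, hc, J₂, hn⟩ := hθ.no (h / 2) (half_pos hh)
  obtain ⟨κ, hκe⟩ : ∃ κ, κ = c / 2 := ⟨_, rfl⟩
  have hκ : 0 < κ := by rw [hκe]; linarith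
  obtain ⟨C, hC⟩ : ∃ C, C = max 1 (2 * |θ| / h) := ⟨_, rfl⟩
  have hC1 : 1 ≤ C := by rw [hC]; exact le_max_left _ _
  have hC2 : 2 * |θ| / h ≤ C := by rw [hC]; exact le_max_right _ _
  obtain ⟨J₁, hJ₁⟩ := exp_small' hκ hC1
  refine ⟨κ, hκ, max J₁ J₂, fun J hJ F A hSt u hu V z hz => ?_⟩
  have hA := hpos κ J F A hSt
  have hJ0 : (0 : ℝ) ≤ J := Nat.cast_nonneg J
  have hcl := isLaw_cond F.isLaw hA
  by_cases hneg : θ - h / 2 ≤ 0
  · refine le_trans ?_ (CH_nonneg hcl.nonneg _ _)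
    exact mul_nonpos_of_nonpos_of_nonneg (by linarith) hJ0
  push Not at hneg
  obtain ⟨M, hM⟩ : ∃ M, M = Real.exp (-((-θ + h / 2) * J)) := ⟨_, rfl⟩
  have hM1 : 1 ≤ M := by
    rw [hM, Real.one_le_exp_iff]
    have : 0 ≤ (θ - h / 2) * J := mul_nonneg hneg.le hJ0
    linarith
  have key := CH_ge_cells F.isLaw u (fun ω => (z ω, y J F ω)) hA (κ := κ * J) hM1 (by
    intro B hB hP
    have hSB : S.St c J F B := S.mono (by linarith) (S.res hκ.le hSt hB hP)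
    have h3 := hn J ((le_max_right _ _).trans hJ) F B hSB
    by_contra hcon
    push Not at hcon
    refine h3 ⟨u, Q.sub hB hu, V, z, hz.sub hB, fun v => ?_⟩
    rw [← hM]
    exact hcon v)
  refine le_trans ?_ key
  have hlM : Real.log M = (θ - h / 2) * J := by
    rw [hM, Real.log_exp]
    ring
  rw [hlM]
  have e1 := hJ₁ J ((le_max_left _ _).trans hJ)
  have hC0 : 0 < C := by linarith
  have e2 : Real.exp (-(κ * J)) * ((θ - h / 2) * J) ≤ 1 / C * ((θ - h / 2) * J) :=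
    mul_le_mul_of_nonneg_right e1 (mul_nonneg hneg.le hJ0)
  have e3 : 1 / C * ((θ - h / 2) * J) ≤ h / 2 * J := by
    have a1 : θ - h / 2 ≤ |θ| := by
      have := le_abs_self θ
      linarith
    have a2 : |θ| ≤ h / 2 * C := by
      rw [div_le_iff₀ hh] at hC2
      linarith
    have a3 : 1 / C * (θ - h / 2) ≤ h / 2 := by
      rw [one_div, inv_mul_le_iff₀ hC0]
      linarith
    calc 1 / C * ((θ - h / 2) * J) = 1 / C * (θ - h / 2) * J := by ring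
      _ ≤ h / 2 * J := mul_le_mul_of_nonneg_right a3 hJ0
  nlinarith

/-- There is a function with `Q` whose entropy given a closed function and `y` is at most the
number. -/
theorem QNum.upp {S : PCl m} (hpos : ∀ (τ : ℝ) (J : ℕ) (F : Fam m J) (A : F.Ω → Prop),
      S.St τ J F A → 0 < Pe F.p A) {Q : Qt m U} {K : ℕ} {e θ : ℝ}
    (hθ : QNum f g y Q K e S θ) (h : ℝ) (hh : 0 < h) :
    Bas S (fun J F A => ∃ u, Q.P K e J F A u ∧ ∃ (V : Type) (z : F.Ω → V),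
      Cl2 (f J F) (g J F) A z ∧
      CH (Pool.Agent.H49.Ent.cond F.p A True) u (fun ω => (z ω, y J F ω)) ≤ (θ + h) * J) := by
  have hpc : Bas S (fun _ F A => 0 < Pe F.p A) := ⟨1, one_pos, 0, fun J _ F A hA =>
    hpos 1 J F A hA⟩
  refine Bas.mono 0 ((hθ.at' h hh).and hpc) ?_
  rintro J - F A ⟨⟨u, hu, V, z, hz, hv⟩, hA⟩
  refine ⟨u, hu, V, z, hz, ?_⟩
  have h2 := CH_le_cells F.isLaw u (fun ω => (z ω, y J F ω)) hA hv
  rw [Real.log_exp] at h2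
  linarith

/-- **Few bits**: given a function with `Q`, a closed function and `y`, every function with `Q'`
has little entropy. -/
def Few (S : PCl m) (f : ∀ (J : ℕ) (F : Fam m J), F.Ω → α J F)
    (g : ∀ (J : ℕ) (F : Fam m J), F.Ω → β J F) (y : ∀ (J : ℕ) (F : Fam m J), F.Ω → γ J F)
    (Q : Qt m U) (Q' : Qt m U') : Prop :=
  ∀ h : ℝ, 0 < h → ∃ e₀ : ℝ, 0 < e₀ ∧ ∀ K : ℕ, Bas S (fun J F A => ∀ u u',
    Q.P K e₀ J F A u → Q'.P K e₀ J F A u' → ∃ (V : Type) (z : F.Ω → V),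
      Cl2 (f J F) (g J F) A z ∧ CH (Pool.Agent.H49.Ent.cond F.p A True) u'
        (fun ω => (u ω, (z ω, y J F ω))) ≤ h * J)

/-- There are functions with `Q`, of all accuracies. -/
def Exs (S : PCl m) (Q : Qt m U) : Prop :=
  ∀ e : ℝ, 0 < e → ∃ (K : ℕ) (M : ℝ), Bas S (fun J F A => ∃ u, Q.P K e J F A u ∧
    (cnt F.p u A : ℝ) ≤ Real.exp (M * J))

/-- The closed function `z` determines every closed function, up to `k J`. -/
def Mx (f : ∀ (J : ℕ) (F : Fam m J), F.Ω → α J F) (g : ∀ (J : ℕ) (F : Fam m J), F.Ω → β J F)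
    (k : ℝ) {J : ℕ} (F : Fam m J) (A : F.Ω → Prop) {V : Type} (z : F.Ω → V) : Prop :=
  Cl2 (f J F) (g J F) A z ∧ ∀ (V' : Type) (z' : F.Ω → V'), Cl2 (f J F) (g J F) A z' →
    CH (Pool.Agent.H49.Ent.cond F.p A True) z' z ≤ k * J

/-- **The number of the quantity `Q`** given the record of `(f, g)` and `y`. -/
def NN (S : PCl m) (f : ∀ (J : ℕ) (F : Fam m J), F.Ω → α J F)
    (g : ∀ (J : ℕ) (F : Fam m J), F.Ω → β J F) (y : ∀ (J : ℕ) (F : Fam m J), F.Ω → γ J F)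
    (Q : Qt m U) (θ : ℝ) : Prop :=
  ∀ h : ℝ, 0 < h → ∃ k : ℝ, 0 < k ∧ ∃ e₀ : ℝ, 0 < e₀ ∧ ∀ K : ℕ, Bas S (fun J F A =>
    ∀ (V : Type) (z : F.Ω → V), Mx f g k F A z → ∀ u, Q.P K e₀ J F A u →
      |CH (Pool.Agent.H49.Ent.cond F.p A True) u (fun ω => (z ω, y J F ω)) - θ * J| ≤ h * J)

theorem Few.sub {S S' : PCl m} (hs : ∀ (τ : ℝ) (J : ℕ) (F : Fam m J) (A : F.Ω → Prop),
    S'.St τ J F A → S.St τ J F A) {Q : Qt m U} {Q' : Qt m U'} (h : Few S f g y Q Q') :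
    Few S' f g y Q Q' := by
  intro c hc
  obtain ⟨e, he, h1⟩ := h c hc
  exact ⟨e, he, fun K => (h1 K).sub hs⟩

theorem Exs.sub {S S' : PCl m} (hs : ∀ (τ : ℝ) (J : ℕ) (F : Fam m J) (A : F.Ω → Prop),
    S'.St τ J F A → S.St τ J F A) {Q : Qt m U} (h : Exs S Q) : Exs S' Q := by
  intro e he
  obtain ⟨K, M, h1⟩ := h e he
  exact ⟨K, M, h1.sub hs⟩

theorem NN.sub {S S' : PCl m} (hs : ∀ (τ : ℝ) (J : ℕ) (F : Fam m J) (A : F.Ω → Prop),
    S'.St τ J F A → S.St τ J F A) {Q : Qt m U} {θ : ℝ} (h : NN S f g y Q θ) :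
    NN S' f g y Q θ := by
  intro c hc
  obtain ⟨k, hk, e, he, h1⟩ := h c hc
  exact ⟨k, hk, e, he, fun K => (h1 K).sub hs⟩

/-- The numbers at two accuracies. -/
theorem QNum.cmp {S : PCl m} (hS : S.Ne)
    (hpos : ∀ (τ : ℝ) (J : ℕ) (F : Fam m J) (A : F.Ω → Prop), S.St τ J F A → 0 < Pe F.p A)
    {Q : Qt m U} (hQ : Few S f g y Q Q) (h : ℝ) (hh : 0 < h) : ∃ e₀ : ℝ, 0 < e₀ ∧
    ∀ (K K' : ℕ) (e e' θ θ' : ℝ), e ≤ e₀ → e' ≤ e₀ → QNum f g y Q K e S θ →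
      QNum f g y Q K' e' S θ' →
      Bas S (fun J F A => ∃ u, Q.P K' e' J F A u) → θ' ≤ θ + h := by
  obtain ⟨e₀, he₀, hF⟩ := hQ (h / 4) (by positivity)
  refine ⟨e₀, he₀, fun K K' e e' θ θ' he he' hθ hθ' hex => ?_⟩
  refine le_of_bas hS fun ε hε => ?_
  have hpc : Bas S (fun _ F A => 0 < Pe F.p A) := ⟨1, one_pos, 0, fun J _ F A hA =>
    hpos 1 J F A hA⟩
  refine Bas.mono 0 ((((hθ.upp hpos (h / 4) (by positivity)).and
    (hθ'.low hpos (h / 4) (by positivity))).and ((hF (max K K')).and hex)).and hpc) ?_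
  rintro J - F A ⟨⟨⟨⟨u, hu, V, z, hz, h1⟩, h2⟩, h3, u', hu'⟩, hA⟩
  have hcl := isLaw_cond F.isLaw hA
  have hJ0 : (0 : ℝ) ≤ J := Nat.cast_nonneg J
  obtain ⟨V₁, z₁, hz₁, h4⟩ := h3 u u' (Q.mono (le_max_left _ _) he hu)
    (Q.mono (le_max_right _ _) he' hu')
  have h5 := h2 u' hu' _ _ (hz.join hz₁)
  have h6 := CH_le_add hcl.nonneg u' u (fun ω => ((z ω, z₁ ω), y J F ω))
  have h7 : CH (Pool.Agent.H49.Ent.cond F.p A True) u (fun ω => ((z ω, z₁ ω), y J F ω)) ≤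
      CH (Pool.Agent.H49.Ent.cond F.p A True) u (fun ω => (z ω, y J F ω)) := by
    refine CH_mono_cond hcl.nonneg fun ω ω' _ _ hh => ?_
    simp only [Prod.mk.injEq] at hh ⊢
    exact ⟨hh.1.1, hh.2⟩
  have h8 : CH (Pool.Agent.H49.Ent.cond F.p A True) u'
      (fun ω => (u ω, ((z ω, z₁ ω), y J F ω))) ≤
      CH (Pool.Agent.H49.Ent.cond F.p A True) u' (fun ω => (u ω, (z₁ ω, y J F ω))) := by
    refine CH_mono_cond hcl.nonneg fun ω ω' _ _ hh => ?_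
    simp only [Prod.mk.injEq] at hh ⊢
    exact ⟨hh.1, hh.2.1.2, hh.2.2⟩
  have h9 : 0 ≤ h * J := by positivity
  have h10 : 0 ≤ ε * J := by positivity
  linarith

/-- **The numbers of countably many quantities exist in a subclass.** -/
theorem nn_ext {S : PCl m} (hS : S.Ne)
    (hpos : ∀ (τ : ℝ) (J : ℕ) (F : Fam m J) (A : F.Ω → Prop), S.St τ J F A → 0 < Pe F.p A)
    (U : ℕ → Type) (α β γ : ℕ → ∀ J : ℕ, Fam m J → Type)
    (f : ∀ (i J : ℕ) (F : Fam m J), F.Ω → α i J F)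
    (g : ∀ (i J : ℕ) (F : Fam m J), F.Ω → β i J F)
    (y : ∀ (i J : ℕ) (F : Fam m J), F.Ω → γ i J F) (Q : ∀ i, Qt m (U i))
    (hex : ∀ i, Exs S (Q i)) (hfew : ∀ i, Few S (f i) (g i) (y i) (Q i) (Q i)) :
    ∃ S' : PCl m, S'.Ne ∧
      (∀ (τ : ℝ) (J : ℕ) (F : Fam m J) (A : F.Ω → Prop), S'.St τ J F A → S.St τ J F A) ∧
      ∀ i, ∃ θ : ℝ, NN S' (f i) (g i) (y i) (Q i) θ := by
  have he : ∀ j : ℕ, (0 : ℝ) < 1 / ((j : ℝ) + 1) := fun j => by positivity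
  choose K M hKM using fun (i j : ℕ) => hex i (1 / ((j : ℝ) + 1)) (he j)
  obtain ⟨S', h1, h2, h3⟩ := ext_qt hS hpos (fun n => U n.unpair.1) (fun n => α n.unpair.1)
    (fun n => β n.unpair.1) (fun n => γ n.unpair.1) (fun n => f n.unpair.1)
    (fun n => g n.unpair.1) (fun n => y n.unpair.1) (fun n => Q n.unpair.1)
    (fun n => K n.unpair.1 n.unpair.2) (fun n => 1 / ((n.unpair.2 : ℝ) + 1))
    (fun n => M n.unpair.1 n.unpair.2) (fun n => hKM n.unpair.1 n.unpair.2)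
  have h3' : ∀ i j : ℕ, ∃ θ : ℝ, QNum (f i) (g i) (y i) (Q i) (K i j) (1 / ((j : ℝ) + 1)) S' θ := by
    intro i j
    obtain ⟨θ, hθ⟩ := h3 (Nat.pair i j)
    rw [Nat.unpair_pair] at hθ
    exact ⟨θ, hθ⟩
  choose θ hθ using h3'
  have hpos' : ∀ (τ : ℝ) (J : ℕ) (F : Fam m J) (A : F.Ω → Prop), S'.St τ J F A → 0 < Pe F.p A :=
    fun τ J F A h => hpos τ J F A (h2 τ J F A h)
  refine ⟨S', h1, h2, fun i => ?_⟩
  have hF : Few S' (f i) (g i) (y i) (Q i) (Q i) := (hfew i).sub h2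
  have hE : ∀ j, Bas S' (fun J F A => ∃ u, (Q i).P (K i j) (1 / ((j : ℝ) + 1)) J F A u) := by
    intro j
    refine Bas.mono 0 ((hKM i j).sub h2) ?_
    rintro J - F A ⟨u, hu, -⟩
    exact ⟨u, hu⟩
  -- the numbers converge
  have hc : ∀ h : ℝ, 0 < h → ∃ j₀ : ℕ, ∀ j ≥ j₀, ∀ j' ≥ j₀, |θ i j - θ i j'| ≤ h := by
    intro h hh
    obtain ⟨e₀, he₀, hcmp⟩ := QNum.cmp h1 hpos' hF h hh
    obtain ⟨j₀, hj₀⟩ := exists_nat_one_div_lt he₀
    have hle : ∀ j ≥ j₀, 1 / ((j : ℝ) + 1) ≤ e₀ := by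
      intro j hj
      refine le_trans ?_ hj₀.le
      refine one_div_le_one_div_of_le (by positivity) ?_
      have : (j₀ : ℝ) ≤ j := by exact_mod_cast hj
      linarith
    refine ⟨j₀, fun j hj j' hj' => ?_⟩
    have k1 := hcmp _ _ _ _ _ _ (hle j hj) (hle j' hj') (hθ i j) (hθ i j') (hE j')
    have k2 := hcmp _ _ _ _ _ _ (hle j' hj') (hle j hj) (hθ i j') (hθ i j) (hE j)
    rw [abs_le]
    constructor <;> linarith
  have hcs : CauchySeq (fun j => θ i j) := by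
    rw [Metric.cauchySeq_iff]
    intro ε hε
    obtain ⟨j₀, hj₀⟩ := hc (ε / 2) (half_pos hε)
    refine ⟨j₀, fun j hj j' hj' => ?_⟩
    rw [Real.dist_eq]
    exact lt_of_le_of_lt (hj₀ j hj j' hj') (by linarith)
  obtain ⟨t, ht⟩ := cauchySeq_tendsto_of_complete hcs
  refine ⟨t, ?_⟩
  intro h hh
  obtain ⟨e₀, he₀, hfe⟩ := hF (h / 8) (by positivity)
  obtain ⟨j₁, hj₁⟩ := exists_nat_one_div_lt he₀
  obtain ⟨j₂, hj₂⟩ := (Metric.tendsto_atTop.1 ht) (h / 8) (by positivity)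
  obtain ⟨j, hj⟩ : ∃ j, j = max j₁ j₂ := ⟨_, rfl⟩
  have hje : 1 / ((j : ℝ) + 1) ≤ e₀ := by
    refine le_trans ?_ hj₁.le
    refine one_div_le_one_div_of_le (by positivity) ?_
    have : (j₁ : ℝ) ≤ j := by
      rw [hj]
      exact_mod_cast le_max_left j₁ j₂
    linarith
  have hjt : |θ i j - t| ≤ h / 8 := by
    have := hj₂ j (by rw [hj]; exact le_max_right _ _)
    rw [Real.dist_eq] at this
    exact this.le
  refine ⟨h / 8, by positivity, e₀, he₀, fun K' => ?_⟩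
  have hpc : Bas S' (fun _ F A => 0 < Pe F.p A) := ⟨1, one_pos, 0, fun J _ F A hA =>
    hpos' 1 J F A hA⟩
  refine Bas.mono 0 (((((hθ i j).upp hpos' (h / 8) (by positivity)).and
    ((hθ i j).low hpos' (h / 8) (by positivity))).and (hfe (max K' (K i j)))).and hpc) ?_
  rintro J - F A ⟨⟨⟨⟨u₀, hu₀, V₀, z₀, hz₀, a1⟩, a2⟩, a3⟩, hA⟩ V z ⟨hz, hmax⟩ u hu
  have hcl := isLaw_cond F.isLaw hA
  have hJ0 : (0 : ℝ) ≤ J := Nat.cast_nonneg J
  have hu' := (Q i).mono (le_max_left K' (K i j)) le_rfl hu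
  have hu₀' := (Q i).mono (le_max_right K' (K i j)) hje hu₀
  obtain ⟨V₁, z₁, hz₁, b1⟩ := a3 u₀ u hu₀' hu'
  obtain ⟨V₂, z₂, hz₂, b2⟩ := a3 u u₀ hu' hu₀'
  -- the upper bound
  have c1 := CH_le_add hcl.nonneg u (fun ω => (z₀ ω, z₁ ω)) (fun ω => (z ω, y i J F ω))
  have c2 : CH (Pool.Agent.H49.Ent.cond F.p A True) (fun ω => (z₀ ω, z₁ ω))
      (fun ω => (z ω, y i J F ω)) ≤
      CH (Pool.Agent.H49.Ent.cond F.p A True) (fun ω => (z₀ ω, z₁ ω)) z :=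
    CH_mono_cond hcl.nonneg fun _ _ _ _ hh => (Prod.ext_iff.mp hh).1
  have c3 := hmax _ _ (hz₀.join hz₁)
  have c4 : CH (Pool.Agent.H49.Ent.cond F.p A True) u
      (fun ω => ((z₀ ω, z₁ ω), (z ω, y i J F ω))) ≤
      CH (Pool.Agent.H49.Ent.cond F.p A True) u (fun ω => ((z₀ ω, z₁ ω), y i J F ω)) := by
    refine CH_mono_cond hcl.nonneg fun ω ω' _ _ hh => ?_
    simp only [Prod.mk.injEq] at hh ⊢
    exact ⟨hh.1, hh.2.2⟩
  have c5 := CH_le_add hcl.nonneg u u₀ (fun ω => ((z₀ ω, z₁ ω), y i J F ω))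
  have c6 : CH (Pool.Agent.H49.Ent.cond F.p A True) u₀ (fun ω => ((z₀ ω, z₁ ω), y i J F ω)) ≤
      CH (Pool.Agent.H49.Ent.cond F.p A True) u₀ (fun ω => (z₀ ω, y i J F ω)) := by
    refine CH_mono_cond hcl.nonneg fun ω ω' _ _ hh => ?_
    simp only [Prod.mk.injEq] at hh ⊢
    exact ⟨hh.1.1, hh.2⟩
  have c7 : CH (Pool.Agent.H49.Ent.cond F.p A True) u
      (fun ω => (u₀ ω, ((z₀ ω, z₁ ω), y i J F ω))) ≤
      CH (Pool.Agent.H49.Ent.cond F.p A True) u (fun ω => (u₀ ω, (z₁ ω, y i J F ω))) := by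
    refine CH_mono_cond hcl.nonneg fun ω ω' _ _ hh => ?_
    simp only [Prod.mk.injEq] at hh ⊢
    exact ⟨hh.1, hh.2.1.2, hh.2.2⟩
  -- the lower bound
  have d1 := a2 u₀ hu₀ _ _ (hz.join hz₂)
  have d2 := CH_le_add hcl.nonneg u₀ u (fun ω => ((z ω, z₂ ω), y i J F ω))
  have d3 : CH (Pool.Agent.H49.Ent.cond F.p A True) u (fun ω => ((z ω, z₂ ω), y i J F ω)) ≤
      CH (Pool.Agent.H49.Ent.cond F.p A True) u (fun ω => (z ω, y i J F ω)) := by
    refine CH_mono_cond hcl.nonneg fun ω ω' _ _ hh => ?_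
    simp only [Prod.mk.injEq] at hh ⊢
    exact ⟨hh.1.1, hh.2⟩
  have d4 : CH (Pool.Agent.H49.Ent.cond F.p A True) u₀
      (fun ω => (u ω, ((z ω, z₂ ω), y i J F ω))) ≤
      CH (Pool.Agent.H49.Ent.cond F.p A True) u₀ (fun ω => (u ω, (z₂ ω, y i J F ω))) := by
    refine CH_mono_cond hcl.nonneg fun ω ω' _ _ hh => ?_
    simp only [Prod.mk.injEq] at hh ⊢
    exact ⟨hh.1, hh.2.1.2, hh.2.2⟩
  rw [abs_le] at hjt
  have e1 : θ i j * J ≤ (t + h / 8) * J := mul_le_mul_of_nonneg_right (by linarith) hJ0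
  have e2 : (t - h / 8) * J ≤ θ i j * J := mul_le_mul_of_nonneg_right (by linarith) hJ0
  have e3 : 0 ≤ h * J := by positivity
  rw [abs_le]
  constructor
  · nlinarith
  · nlinarith

end rel

end Pool.LA91
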