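import Pool.Agent.H45.JMP.Lst
import Pool.Agent.H91.LA.Nbxc

/-!
# Chains of coordinates from greedy orders

`chn_vs`: where a greedy order is exact, its coordinates form a chain. `chn_pair`: two coordinates,
the first one active, at all windows outside a countable set.
-/

set_option autoImplicit false

namespace Pool.LA91

open Finset Real MvPolynomial
open Pool.Agent.H49.Ent Pool.Agent.H32.Dense Pool.STK Pool.KA Pool.KSAT Pool.K2S Pool.PB Pool.GEN
open Pool.S6C Pool.RCD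
open Pool.GRW (VExa img_eq tmc_bas vst_crd)
open Pool.UNJ (ceI)

variable {m n : ℕ}

/-- **A greedy order is a chain** at the windows where it is exact. -/
theorem chn_vs {S : PCl m} {C₀ : ℝ} (htm : TmC S C₀)
    {L : Finset (Fin m) → Fin m → ℝ → ℝ → ℝ} (hL : LamW S L) {ε : Fin n → Fin m}
    (hinj : Function.Injective ε) {c : ℕ → Fin m} (hcε : ∀ i : Fin n, c i = ε i) {w : ℝ}
    (hw : w ∈ Wv L ε) (hex : VExa S L ε w) {r₀ r : ℕ} (hr : r₀ ≤ r) (hrn : r ≤ n) {u₀ : ℝ}
    (h0 : vs L ε w r₀ ≤ u₀) (hu₀ : u₀ < 1) (h1 : vs L ε w r < 1) :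
    Chn S c r₀ r w u₀ (vs L ε w r) (fun i => vs L ε w (i + 1)) (fun i => vs L ε w i) := by
  have hg := hw.2.2.1
  have hmono := hg.mono hL hw.2.1.le
  have hs0 : ∀ l, w ≤ vs L ε w l := le_vs hL ε hw.2.1.le
  have hpos : Bas S (fun _ F A => 0 < Pe F.p A) := (tmc_bas htm one_pos).mono 0
    fun _ _ _ _ h => h.1
  refine ⟨hr, ?_, hw.1.le, (hs0 r₀).trans h0, hu₀, hs0 r, h1, fun i _ hi => ?_, fun i _ hi => ?_,
    fun i _ hi => ?_, fun u hu _ => ?_, fun k _ hk => ?_, fun ρ hρ => ?_⟩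
  · intro a ha b hb hab
    have ha' : a < n := lt_of_lt_of_le ha hrn
    have hb' : b < n := lt_of_lt_of_le hb hrn
    have h2 : c a = ε ⟨a, ha'⟩ := hcε ⟨a, ha'⟩
    have h3 : c b = ε ⟨b, hb'⟩ := hcε ⟨b, hb'⟩
    rw [h2, h3] at hab
    exact Fin.mk.inj_iff.1 (hinj hab)
  · exact ⟨hw.1.le.trans (hs0 _), lt_of_le_of_lt (hmono (show i + 1 ≤ r by omega)) h1⟩
  · exact lt_of_le_of_lt (hmono (show i ≤ r by omega)) h1
  · intro e he
    obtain ⟨K, hK⟩ := vst_att hL hw.1 hw.2.1 hg hw.2.2.2 he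
    have hin : i < n := by omega
    refine ⟨K, Bas.mono 0 (hK ⟨i, hin⟩ ⟨i, hin⟩ le_rfl) ?_⟩
    intro J _ F A hG
    have hJ : (0 : ℝ) ≤ J := Nat.cast_nonneg J
    have h4 : (Iio (⟨i, hin⟩ : Fin n)).image ε = (range i).image c := img_eq hcε ⟨i, hin⟩
    rw [h4, ← hcε ⟨i, hin⟩] at hG
    exact hG.mono (Finset.Subset.refl _) le_rfl le_rfl le_rfl le_rfl
      (fl_le hw.2.1.le J) (Nat.floor_le_floor (mul_le_mul_of_nonneg_right (min_le_left _ _) hJ))
      le_rfl
  · exact Pool.JMP45.ful_of htm hL hcε hw hex (hr.trans hrn) (h0.trans hu.le)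
  · exact Pool.JMP45.ful_of htm hL hcε hw hex (hk.trans hrn) (hmono hk)
  · refine Bas.mono 0 (vst_crd hpos hL hcε hw.1 hw.2.1 hg hw.2.2.2 hex hρ) ?_
    intro J _ F A h V z z' hz i _ hi
    exact h V z z' hz i (hi.trans_le hrn)

/-- **Two coordinates**, the first one active. -/
theorem chn_pair (hF : FZX 2) {S : PCl m} (hS : S.Ne) {C₀ : ℝ} (hC : 0 ≤ C₀) (htm : TmC S C₀)
    {L : Finset (Fin m) → Fin m → ℝ → ℝ → ℝ} (hL : LamW S L) {N : ℚ → ℚ → ℝ} {al : ℝ}
    (hal : 0 < al) {g₀ : ℝ → ℝ} (hg₀ : ∀ ε : ℝ, 0 < ε → 0 < g₀ ε) (hN : ActM N al g₀)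
    {y u : Fin m} (hyu : y ≠ u) (hact : ActB N S y) {c : ℕ → Fin m} (hc0 : c 0 = y)
    (hc1 : c 1 = u) :
    ∃ B : Set ℝ, B.Countable ∧ ∀ w : ℝ, 0 < w → w < 1 → w ∉ B → L {y} u w w < 1 →
      Chn S c 1 2 w w (L {y} u w w) (fun i => if i = 0 then w else L {y} u w w)
        (fun _ => w) := by
  classical
  have hpos : Bas S (fun _ F A => 0 < Pe F.p A) := (tmc_bas htm one_pos).mono 0
    fun _ _ _ _ h => h.1
  obtain ⟨ε, hε⟩ : ∃ ε : Fin 2 → Fin m, ε = ![y, u] := ⟨_, rfl⟩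
  have e0 : ε 0 = y := by rw [hε]; rfl
  have e1 : ε 1 = u := by rw [hε]; rfl
  have hinj : Function.Injective ε := by
    intro a b hab
    fin_cases a <;> fin_cases b
    · rfl
    · exact absurd (by simpa [hε] using hab) hyu
    · exact absurd (by simpa [hε] using hab.symm) hyu
    · rfl
  have hcε : ∀ i : Fin 2, c i = ε i := by
    intro i
    fin_cases i
    · exact hc0.trans e0.symm
    · exact hc1.trans e1.symm
  have i0 : (Iio (0 : Fin 2)).image ε = ∅ := by
    rw [Finset.image_eq_empty]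
    ext x
    simp
  have i1 : (Iio (1 : Fin 2)).image ε = {y} := by
    have h1 : Iio (1 : Fin 2) = {0} := by
      ext x
      fin_cases x <;> simp
    rw [h1, Finset.image_singleton, e0]
  refine ⟨{w | ¬ Vct L ε w}, vct_ae hL ε, fun w hw0 hw1 hwB hU => ?_⟩
  have hct : Vct L ε w := by
    by_contra h
    exact hwB h
  have v1 : vs L ε w 1 = w := by
    have h1 := vs_succ L ε w 0
    unfold vn at h1
    rw [i0, e0] at h1
    exact h1.trans (hL.act hS hal (hN.q hg₀) hact hpos hw0.le hw1)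
  have v2 : vs L ε w 2 = L {y} u w w := by
    have h1 := vs_succ L ε w 1
    unfold vn at h1
    rw [i1, e1] at h1
    have h2 : vs L ε w ((1 : Fin 2) : ℕ) = w := v1
    rw [h2] at h1
    exact h1
  have hgr : Vgr L ε w := by
    intro j k hjk
    rw [vs_succ]
    fin_cases j
    · have h1 : vn L ε 0 (ε 0) w = w := by
        have := vs_succ L ε w 0
        exact this.symm.trans v1
      show vn L ε 0 (ε 0) w ≤ vn L ε 0 (ε k) w
      rw [h1]
      exact hL.low _ _ _ _ hw1.le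
    · have h1 : k = 1 := by
        fin_cases k
        · exact absurd hjk (by decide)
        · rfl
      rw [h1]
      exact le_rfl
  have hWv : w ∈ Wv L ε := ⟨hw0, hw1, hgr, hct⟩
  have hex : VExa S L ε w := fun ρ hρ => vst_exa hF hS hC htm hL hal hg₀ hN hpos hinj
    (fun k hk => by
      have h1 : k = 0 := Fin.ext hk
      rw [h1, e0]
      exact hact) hw0 hw1 hgr hct hρ
  have h := chn_vs htm hL hinj hcε hWv hex (r₀ := 1) (r := 2) (by norm_num) le_rfl (u₀ := w)
    v1.le hw1 (by rw [v2]; exact hU)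
  rw [v2] at h
  exact ⟨h.hr, h.inj, h.w0, h.wu0, h.u0, h.wu1, h.u1, fun i a b => by
    have hi : i = 1 := by omega
    subst hi
    have := h.s0 1 le_rfl (by norm_num)
    rw [show vs L ε w (1 + 1) = L {y} u w w from v2] at this
    exact this, fun i _ _ => hw1, fun i a b => by
    have hi : i = 1 := by omega
    subst hi
    have := h.att 1 le_rfl (by norm_num)
    rw [show vs L ε w (1 + 1) = L {y} u w w from v2, v1] at this
    exact this, h.base, h.pre, fun ρ hρ => Bas.mono 0 (h.ful ρ hρ) fun J _ F A H V z z' hz i a b => by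
    have hi : i = 1 := by omega
    subst hi
    have := H V z z' hz 1 le_rfl (by norm_num)
    rw [show vs L ε w (1 + 1) = L {y} u w w from v2] at this
    exact this⟩

end Pool.LA91
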