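import Pool.Agent.H91.LA.Own

/-!
# The natural precision grows with the window

`grow_fam`: a closed label of the precision `P` at the window `w` gives, on a large part, a closed
label at the window `w'` of the precision `P + (w' - w)`. `num_grow`: `L I k w r + (w' - w) ≤
L I k w' r`.
-/

set_option autoImplicit false

namespace Pool.LA91

open Finset Real MvPolynomial
open Pool.Agent.H49.Ent Pool.Agent.H32.Dense Pool.STK Pool.KA Pool.KSAT Pool.K2S Pool.PB Pool.GEN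
open Pool.S6C Pool.RCD
open Pool.GRD (LbP Pb_mono_pos)
open Pool.BFL (Pb)
open Pool.FLF (Fam.sub)
open Pool.PB.Trl (rt rt_mem t_rt)
open Pool.GRW (xr xr_near)

variable {m : ℕ}

/-- The own point, rounded, as a function of the values at the point. -/
noncomputable def ptx {J : ℕ} (F : Fam m J) (p : PtT F) (o : Option (Fin m)) : ℝ :=
  match o with
  | none => (p.2.1 : ℝ) / 2 ^ J
  | some k => (p.1 k : ℝ) / 2 ^ J

theorem ptx_ptr {J : ℕ} (F : Fam m J) (ω : F.Ω) : ptx F (ptr F J ω) = xr F ω := by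
  funext o
  cases o with
  | none => rfl
  | some k => rfl

/-- A bounded polynomial on `[0, 1]` is Lipschitz. -/
theorem markov_lip (D : ℕ) : ∃ C : ℝ, 1 ≤ C ∧ ∀ (q : Polynomial ℝ) (S : ℝ), q.natDegree ≤ D →
    (∀ t ∈ Set.Icc (0 : ℝ) 1, |q.eval t| ≤ S) → ∀ s ∈ Set.Icc (0 : ℝ) 1,
    ∀ t ∈ Set.Icc (0 : ℝ) 1, |q.eval s - q.eval t| ≤ C * S * |s - t| := by
  obtain ⟨C, hC, hmk⟩ := Pool.Agent.H40.BFL.unit_markov D
  refine ⟨C, hC, fun q S hq hS s hs t ht => ?_⟩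
  have h2 := (convex_Icc (0 : ℝ) 1).norm_image_sub_le_of_norm_deriv_le
    (f := fun t => q.eval t) (C := C * S) (fun t _ => q.differentiableAt) (by
      intro t ht
      rw [Polynomial.deriv, Real.norm_eq_abs]
      exact hmk q S hq hS t ht) (x := t) (y := s) ht hs
  simp only [Real.norm_eq_abs] at h2
  exact h2

/-- **The label of a later window.** -/
theorem grow_fam (m K : ℕ) : ∃ C : ℝ, 1 ≤ C ∧ ∀ (J : ℕ) (F : Fam m J) (A : F.Ω → Prop)
    (hA : 0 < Pe F.p A) (I : Finset (Fin m)) (k : Fin m) (e Wa Wb ρ Pa P : ℕ) (θ : ℝ),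
    Lb F I k K e J Wa ρ Pa A → Wa ≤ Wb → Wb ≤ J → ρ ≤ J → 0 ≤ θ → (Fam.sub F A hA).Tm θ →
    C * (θ + 1) ≤ ((J : ℝ) - Wa) * Real.log 2 →
    C * Real.exp (C * (θ + 1)) * (2 ^ P * 2 ^ Wa) ≤ 2 ^ Pa * 2 ^ Wb →
    2 * (m + 2) * 2 ^ e * 2 ^ P ≤ (2 : ℝ) ^ J →
    ∃ B : F.Ω → Prop, Sub B A ∧ Pe F.p A ≤ 18 * Pe F.p B ∧ Lb F I k K e J Wb ρ P B := by
  classical
  obtain ⟨C₁, hC₁, hrem⟩ := Pool.PZ.Zrt.rem_ev (m := m) (K + 1)
  obtain ⟨C₂, hC₂, hmk⟩ := markov_lip (K + 1)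
  refine ⟨2 * C₁ * C₂, by nlinarith, ?_⟩
  intro J F A hA I k e Wa Wb ρ Pa P θ ⟨V, z, z', G, hl⟩ hWab hWb hρ hθ hTm hJ hsl hJ2
  have hWa : Wa ≤ J := hWab.trans hWb
  have hC12 : C₁ ≤ 2 * C₁ * C₂ := by nlinarith
  obtain ⟨B₀, hB₀A, hPB₀, hB₀⟩ := hrem J F A hA Wa (fun s => dv Wa (fun s _ => G (z' s)) k s)
    (1 / 2 ^ Pa) θ hWa (fun s => natDegree_dv Wa (fun s _ => hl.deg (z' s)) k s) (by positivity)
    hθ hTm (by
      refine le_trans ?_ hJ
      exact mul_le_mul_of_nonneg_right hC12 (by linarith)) (by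
      intro ω hω
      show |(dv Wa (fun s _ => G (z' s)) k (slam F Wa ω)).eval (rt F Wa ω)| ≤ 1 / 2 ^ Pa
      rw [eval_dv F hWa (fun s _ => G (z' s)) ω k]
      exact hl.pos ω hω)
  -- the rounded height
  obtain ⟨ht, hht⟩ : ∃ ht : PtT F → ℝ, ht = fun p =>
    (p.1 k : ℝ) / 2 ^ J - eval (ptx F p) (G (z p)) := ⟨_, rfl⟩
  obtain ⟨Rf, hRf⟩ : ∃ Rf : PtT F → ℤ, Rf = fun p => ⌊(2 : ℝ) ^ (P + 1) * ht p⌋ := ⟨_, rfl⟩
  have hheight : ∀ ω, A ω → |ht (ptr F J ω) -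
      (F.x ω k - eval (bt F ω) (G (z' (slam F Wa ω))))| ≤ 1 / 2 ^ (P + 1) := by
    intro ω hω
    have e1 : ht (ptr F J ω) = xr F ω (some k) - eval (xr F ω) (G (z' (slam F Wa ω))) := by
      rw [hht]
      simp only
      rw [ptx_ptr, hl.cls ω hω]
      rfl
    have e2 := mvσ (G (z' (slam F Wa ω))) (bt F ω) (xr F ω) (2 ^ e) (fun y hy i =>
      hl.lip ω hω y (fun o => (hy o).trans ((xr_near F ω o).trans (inv_mono hρ))) i)
    have e3 : ∑ o, |xr F ω o - bt F ω o| ≤ (m + 1) * (1 / 2 ^ J) := by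
      refine (Finset.sum_le_sum fun o _ => xr_near F ω o).trans (le_of_eq ?_)
      rw [Finset.sum_const, Finset.card_univ, Fintype.card_option, Fintype.card_fin, nsmul_eq_mul]
      push_cast
      ring
    have e4 := e2.trans (mul_le_mul_of_nonneg_left e3 (by positivity))
    have e5 := xr_near F ω (some k)
    have e6 : bt F ω (some k) = F.x ω k := rfl
    rw [e6] at e5
    rw [e1]
    have e7 : xr F ω (some k) - eval (xr F ω) (G (z' (slam F Wa ω))) -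
        (F.x ω k - eval (bt F ω) (G (z' (slam F Wa ω)))) = (xr F ω (some k) - F.x ω k) -
        (eval (xr F ω) (G (z' (slam F Wa ω))) - eval (bt F ω) (G (z' (slam F Wa ω)))) := by ring
    rw [e7]
    refine (abs_sub _ _).trans ?_
    have e8 : (m + 2) * 2 ^ e * (1 / (2 : ℝ) ^ J) ≤ 1 / 2 ^ (P + 1) := by
      rw [mul_one_div, div_le_div_iff₀ (by positivity) (by positivity), one_mul]
      calc (m + 2) * 2 ^ e * (2 : ℝ) ^ (P + 1) = 2 * (m + 2) * 2 ^ e * 2 ^ P := by ring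
        _ ≤ 2 ^ J := hJ2
    have e9 : (1 : ℝ) ≤ 2 ^ e := one_le_pow₀ (by norm_num)
    have e10 : (1 : ℝ) / 2 ^ J ≤ 2 ^ e * (1 / 2 ^ J) := le_mul_of_one_le_left (by positivity) e9
    have e11 : (m + 2) * 2 ^ e * (1 / (2 : ℝ) ^ J) =
        2 ^ e * (1 / 2 ^ J) + 2 ^ e * ((m + 1) * (1 / 2 ^ J)) := by ring
    linarith
  -- the differences of the heights
  have hdif : ∀ ω ω', B₀ ω → B₀ ω' → slam F Wb ω = slam F Wb ω' →
      ∀ i : Fin 1, |(fun ω (_ : Fin 1) => Rf (ptr F J ω)) ω i -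
        (fun ω (_ : Fin 1) => Rf (ptr F J ω)) ω' i| ≤ ((4 : ℕ) : ℤ) := by
    intro ω ω' hω hω' hs _
    have hsa : slam F Wa ω = slam F Wa ω' := by
      rw [slam_coarse F hWab hWb ω, slam_coarse F hWab hWb ω', hs]
    obtain ⟨x, hx⟩ : ∃ x, x = F.x ω k - eval (bt F ω) (G (z' (slam F Wa ω))) := ⟨_, rfl⟩
    obtain ⟨x', hx'⟩ : ∃ x, x = F.x ω' k - eval (bt F ω') (G (z' (slam F Wa ω'))) := ⟨_, rfl⟩
    have g1 := hheight ω (hB₀A ω hω)
    have g2 := hheight ω' (hB₀A ω' hω')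
    rw [← hx] at g1
    rw [← hx'] at g2
    have g3 : (dv Wa (fun s _ => G (z' s)) k (slam F Wa ω)).eval (rt F Wa ω) = x := by
      rw [eval_dv F hWa (fun s _ => G (z' s)) ω k, hx]
    have g4 : (dv Wa (fun s _ => G (z' s)) k (slam F Wa ω)).eval (rt F Wa ω') = x' := by
      rw [hsa, eval_dv F hWa (fun s _ => G (z' s)) ω' k, hx']
    have g5 := hmk (dv Wa (fun s _ => G (z' s)) k (slam F Wa ω))
      (Real.exp (C₁ * (θ + 1)) * (1 / 2 ^ Pa))
      (natDegree_dv Wa (fun s _ => hl.deg (z' s)) k _) (fun t ht => hB₀ ω hω t ht)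
      (rt F Wa ω) (rt_mem F Wa ω) (rt F Wa ω') (rt_mem F Wa ω')
    rw [g3, g4] at g5
    have g6 : |rt F Wa ω - rt F Wa ω'| ≤ 2 ^ Wa / 2 ^ Wb := by
      have a1 := t_rt F hWa ω
      have a2 := t_rt F hWa ω'
      have b1 := t_rt F hWb ω
      have b2 := t_rt F hWb ω'
      rw [← hsa] at a2
      rw [← hs] at b2
      have c1 : rt F Wa ω - rt F Wa ω' = 2 ^ Wa * (F.t ω - F.t ω') := by
        rw [a1, a2]
        field_simp
        ring
      have c2 : F.t ω - F.t ω' = (rt F Wb ω - rt F Wb ω') / 2 ^ Wb := by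
        rw [b1, b2]
        field_simp
        ring
      rw [c1, c2, mul_div_assoc', abs_div, abs_mul, abs_of_pos (by positivity : (0 : ℝ) < 2 ^ Wa),
        abs_of_pos (by positivity : (0 : ℝ) < 2 ^ Wb)]
      refine div_le_div_of_nonneg_right ?_ (by positivity)
      refine mul_le_of_le_one_right (by positivity) ?_
      have d1 := rt_mem F Wb ω
      have d2 := rt_mem F Wb ω'
      rw [abs_le]
      constructor <;> linarith [d1.1, d1.2, d2.1, d2.2]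
    have g7 : (2 : ℝ) ^ (P + 1) * |x - x'| ≤ 1 := by
      have c1 : (2 : ℝ) ^ (P + 1) * |x - x'| ≤ 2 ^ (P + 1) *
          (C₂ * (Real.exp (C₁ * (θ + 1)) * (1 / 2 ^ Pa)) * (2 ^ Wa / 2 ^ Wb)) :=
        mul_le_mul_of_nonneg_left (g5.trans (mul_le_mul_of_nonneg_left g6 (by positivity)))
          (by positivity)
      refine c1.trans ?_
      have c2 : (2 : ℝ) ^ (P + 1) *
          (C₂ * (Real.exp (C₁ * (θ + 1)) * (1 / 2 ^ Pa)) * (2 ^ Wa / 2 ^ Wb)) =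
          2 * C₂ * Real.exp (C₁ * (θ + 1)) * (2 ^ P * 2 ^ Wa) / (2 ^ Pa * 2 ^ Wb) := by
        field_simp
        ring
      rw [c2, div_le_one (by positivity)]
      refine le_trans ?_ hsl
      refine mul_le_mul_of_nonneg_right ?_ (by positivity)
      have c3 : Real.exp (C₁ * (θ + 1)) ≤ Real.exp (2 * C₁ * C₂ * (θ + 1)) :=
        Real.exp_le_exp.2 (mul_le_mul_of_nonneg_right hC12 (by linarith))
      have c4 : 2 * C₂ ≤ 2 * C₁ * C₂ := by nlinarith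
      exact mul_le_mul c4 c3 (Real.exp_pos _).le (by positivity)
    -- the integers
    have hp : (0 : ℝ) < 2 ^ (P + 1) := by positivity
    obtain ⟨a, ha⟩ : ∃ a, a = ht (ptr F J ω) := ⟨_, rfl⟩
    obtain ⟨a', ha'⟩ : ∃ a, a = ht (ptr F J ω') := ⟨_, rfl⟩
    rw [← ha] at g1
    rw [← ha'] at g2
    have k1 : |(2 : ℝ) ^ (P + 1) * a - 2 ^ (P + 1) * x| ≤ 1 := by
      rw [← mul_sub, abs_mul, abs_of_pos hp]
      calc (2 : ℝ) ^ (P + 1) * |a - x| ≤ 2 ^ (P + 1) * (1 / 2 ^ (P + 1)) :=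
            mul_le_mul_of_nonneg_left g1 hp.le
        _ = 1 := by field_simp
    have k2 : |(2 : ℝ) ^ (P + 1) * a' - 2 ^ (P + 1) * x'| ≤ 1 := by
      rw [← mul_sub, abs_mul, abs_of_pos hp]
      calc (2 : ℝ) ^ (P + 1) * |a' - x'| ≤ 2 ^ (P + 1) * (1 / 2 ^ (P + 1)) :=
            mul_le_mul_of_nonneg_left g2 hp.le
        _ = 1 := by field_simp
    have k3 : |(2 : ℝ) ^ (P + 1) * x - 2 ^ (P + 1) * x'| ≤ 1 := by
      rw [← mul_sub, abs_mul, abs_of_pos hp]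
      exact g7
    have k4 : |(2 : ℝ) ^ (P + 1) * a - 2 ^ (P + 1) * a'| ≤ 3 := by
      rw [abs_le] at k1 k2 k3 ⊢
      constructor <;> linarith [k1.1, k1.2, k2.1, k2.2, k3.1, k3.2]
    show |Rf (ptr F J ω) - Rf (ptr F J ω')| ≤ ((4 : ℕ) : ℤ)
    have r1 : Rf (ptr F J ω) = ⌊(2 : ℝ) ^ (P + 1) * a⌋ := by rw [hRf, ha]
    have r2 : Rf (ptr F J ω') = ⌊(2 : ℝ) ^ (P + 1) * a'⌋ := by rw [hRf, ha']
    rw [r1, r2]
    have l1 := Int.floor_le ((2 : ℝ) ^ (P + 1) * a)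
    have l2 := Int.lt_floor_add_one ((2 : ℝ) ^ (P + 1) * a)
    have l3 := Int.floor_le ((2 : ℝ) ^ (P + 1) * a')
    have l4 := Int.lt_floor_add_one ((2 : ℝ) ^ (P + 1) * a')
    rw [abs_le] at k4
    have h5 : |((⌊(2 : ℝ) ^ (P + 1) * a⌋ - ⌊(2 : ℝ) ^ (P + 1) * a'⌋ : ℤ) : ℝ)| ≤ 4 := by
      push_cast
      rw [abs_le]
      constructor <;> linarith [k4.1, k4.2]
    have h6 : ((|⌊(2 : ℝ) ^ (P + 1) * a⌋ - ⌊(2 : ℝ) ^ (P + 1) * a'⌋| : ℤ) : ℝ) ≤ ((4 : ℤ) : ℝ) := by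
      rw [Int.cast_abs]
      push_cast at h5 ⊢
      exact h5
    exact_mod_cast h6
  obtain ⟨B, hBB₀, hPB, φ, hφ⟩ := Pool.S6K.exact_label F.isLaw 4 (slam F Wb)
    (fun ω (_ : Fin 1) => Rf (ptr F J ω)) B₀ hdif
  refine ⟨B, fun ω hω => hB₀A ω (hBB₀ ω hω), ?_, V × ℤ, fun p => (z p, Rf p),
    fun s => (z' (s.1, s.2.1, s.2.2 / 2 ^ (Wb - Wa)), φ s 0),
    fun v => G v.1 + C ((v.2 : ℝ) / 2 ^ (P + 1)), ?_⟩
  · push_cast at hPB
    linarith
  have hz : ∀ ω, z' ((slam F Wb ω).1, (slam F Wb ω).2.1, (slam F Wb ω).2.2 / 2 ^ (Wb - Wa)) =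
      z' (slam F Wa ω) := fun ω => by rw [← slam_coarse F hWab hWb ω]
  have hpd : ∀ (g : MvPolynomial (Option (Fin m)) ℝ) (x : ℝ) (o : Option (Fin m)),
      pderiv o (g + C x) = pderiv o g := fun g x o => by rw [map_add, pderiv_C, add_zero]
  refine ⟨fun v => ?_, fun v b b' hb hb' => ?_, fun ω hω => ?_, fun ω hω => ?_, fun ω hω => ?_,
    fun ω hω b hb o => ?_⟩
  · refine (totalDegree_add _ _).trans (max_le (hl.deg _) ?_)
    rw [totalDegree_C]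
    exact Nat.zero_le _
  · rw [map_add, map_add, eval_C, eval_C, hl.dep _ b b' hb hb']
  · have h1 := hφ ω hω
    have h2 : Rf (ptr F J ω) = φ (slam F Wb ω) 0 := congrFun h1 0
    show (z (ptr F J ω), Rf (ptr F J ω)) = _
    rw [h2, hl.cls ω (hB₀A ω (hBB₀ ω hω)), ← hz ω]
  · have hA' := hB₀A ω (hBB₀ ω hω)
    have h1 := hφ ω hω
    have h2 : Rf (ptr F J ω) = φ (slam F Wb ω) 0 := congrFun h1 0
    show |F.x ω k - eval (bt F ω) (G (z' ((slam F Wb ω).1, (slam F Wb ω).2.1,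
      (slam F Wb ω).2.2 / 2 ^ (Wb - Wa))) + C ((φ (slam F Wb ω) 0 : ℝ) / 2 ^ (P + 1)))| ≤ _
    rw [hz ω, map_add, eval_C, ← h2]
    have g1 := hheight ω hA'
    obtain ⟨a, ha⟩ : ∃ a, a = ht (ptr F J ω) := ⟨_, rfl⟩
    have r1 : Rf (ptr F J ω) = ⌊(2 : ℝ) ^ (P + 1) * a⌋ := by rw [hRf, ha]
    rw [← ha] at g1
    rw [r1]
    have l1 := Int.floor_le ((2 : ℝ) ^ (P + 1) * a)
    have l2 := Int.lt_floor_add_one ((2 : ℝ) ^ (P + 1) * a)
    have hp : (0 : ℝ) < 2 ^ (P + 1) := by positivity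
    have k1 : |a - (⌊(2 : ℝ) ^ (P + 1) * a⌋ : ℝ) / 2 ^ (P + 1)| ≤ 1 / 2 ^ (P + 1) := by
      have e1 : a - (⌊(2 : ℝ) ^ (P + 1) * a⌋ : ℝ) / 2 ^ (P + 1) =
          ((2 : ℝ) ^ (P + 1) * a - ⌊(2 : ℝ) ^ (P + 1) * a⌋) / 2 ^ (P + 1) := by
        field_simp
      rw [e1, abs_div, abs_of_pos hp]
      refine div_le_div_of_nonneg_right ?_ hp.le
      rw [abs_le]
      constructor <;> linarith
    have e2 : F.x ω k - (eval (bt F ω) (G (z' (slam F Wa ω))) +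
        (⌊(2 : ℝ) ^ (P + 1) * a⌋ : ℝ) / 2 ^ (P + 1)) =
        (a - (⌊(2 : ℝ) ^ (P + 1) * a⌋ : ℝ) / 2 ^ (P + 1)) -
        (a - (F.x ω k - eval (bt F ω) (G (z' (slam F Wa ω))))) := by ring
    rw [e2]
    refine (abs_sub _ _).trans ?_
    have e3 : (1 : ℝ) / 2 ^ P = 1 / 2 ^ (P + 1) + 1 / 2 ^ (P + 1) := by
      rw [pow_succ]
      field_simp
      norm_num
    rw [e3]
    exact add_le_add k1 g1
  · have hA' := hB₀A ω (hBB₀ ω hω)
    have h1 := hl.vel ω hA'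
    simp only [hpd, hz ω]
    refine h1.trans ?_
    rw [div_le_div_iff₀ (by positivity) (by positivity)]
    have h2 : (1 : ℝ) ≤ 2 * C₁ * C₂ * Real.exp (2 * C₁ * C₂ * (θ + 1)) := by
      have h3 : (1 : ℝ) ≤ 2 * C₁ * C₂ := by nlinarith
      have h4 : (1 : ℝ) ≤ Real.exp (2 * C₁ * C₂ * (θ + 1)) :=
        Real.one_le_exp (mul_nonneg (by linarith) (by linarith))
      exact one_le_mul_of_one_le_of_one_le h3 h4
    have h5 : (2 : ℝ) ^ P * 2 ^ Wa ≤
        2 * C₁ * C₂ * Real.exp (2 * C₁ * C₂ * (θ + 1)) * (2 ^ P * 2 ^ Wa) :=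
      le_mul_of_one_le_left (by positivity) h2
    calc (2 : ℝ) ^ Wa * 2 ^ P = 2 ^ P * 2 ^ Wa := mul_comm _ _
      _ ≤ 2 ^ Pa * 2 ^ Wb := h5.trans hsl
      _ = 2 ^ Wb * 2 ^ Pa := mul_comm _ _
  · have hA' := hB₀A ω (hBB₀ ω hω)
    have h1 := hl.lip ω hA' b hb o
    simp only [hpd, hz ω]
    exact h1

theorem two_pow_exp (n : ℕ) : (2 : ℝ) ^ n = Real.exp (n * Real.log 2) := by
  rw [← Real.rpow_natCast, Real.rpow_def_of_pos two_pos, mul_comm]

/-- **The labels of a class at later windows.** -/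
theorem grow_bas {S : PCl m} {C₀ : ℝ} (htm : TmC S C₀) (I : Finset (Fin m)) (k : Fin m) (K : ℕ)
    {w w' q h e r : ℝ} (hw0 : 0 ≤ w) (hww : w ≤ w') (hw' : w' < 1) (hh0 : 0 ≤ h) (he0 : 0 ≤ e)
    (hhe : h + e < 1) (hr : r ≤ 1) (hq : h + w < q + w') :
    Bas S (fun J F A => Lb F I k K ⌊e * J⌋₊ J ⌊w * J⌋₊ ⌊r * J⌋₊ ⌊q * J⌋₊ A →
      ∃ B : F.Ω → Prop, Sub B A ∧ Pe F.p A ≤ 18 * Pe F.p B ∧
        Lb F I k K ⌊e * J⌋₊ J ⌊w' * J⌋₊ ⌊r * J⌋₊ ⌊h * J⌋₊ B) := by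
  classical
  obtain ⟨C, hC, hgr⟩ := grow_fam m K
  have hC0 : 0 < C := by linarith
  have hl2 : 0 < Real.log 2 := Real.log_pos one_lt_two
  obtain ⟨g, hg⟩ : ∃ g : ℝ, g = min (q + w' - h - w) (1 - w) := ⟨_, rfl⟩
  have hg0 : 0 < g := by
    rw [hg]
    exact lt_min (by linarith) (by linarith)
  have hg1 : g ≤ q + w' - h - w := by
    rw [hg]
    exact min_le_left _ _
  have hg2 : g ≤ 1 - w := by
    rw [hg]
    exact min_le_right _ _
  obtain ⟨δ, hδ⟩ : ∃ δ : ℝ, δ = g * Real.log 2 / (6 * C) := ⟨_, rfl⟩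
  have hδ0 : 0 < δ := by
    rw [hδ]
    positivity
  have hδ1 : 6 * (C * δ) = g * Real.log 2 := by
    rw [hδ]
    field_simp
  obtain ⟨J₂, hJ₂⟩ := exists_nat_ge (max (1 / δ) (max (4 / g)
    (Real.log (2 * (m + 2)) / ((1 - (h + e)) * Real.log 2))))
  refine Bas.mono J₂ (Pool.GRW.tms_bas htm hδ0) ?_
  rintro J hJ F A ⟨hA, hTm⟩ hlb
  have hJ0 : (0 : ℝ) ≤ J := Nat.cast_nonneg J
  have hJ2 : (J₂ : ℝ) ≤ J := by exact_mod_cast hJ
  have f1 : 1 ≤ δ * J := by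
    have : 1 / δ ≤ J := (le_max_left _ _).trans (hJ₂.trans hJ2)
    rw [div_le_iff₀ hδ0] at this
    linarith
  have f2 : 4 ≤ g * J := by
    have : 4 / g ≤ J := (le_max_left _ _).trans ((le_max_right _ _).trans (hJ₂.trans hJ2))
    rw [div_le_iff₀ hg0] at this
    linarith
  have f3 : Real.log (2 * (m + 2)) ≤ (1 - (h + e)) * Real.log 2 * J := by
    have : Real.log (2 * (m + 2)) / ((1 - (h + e)) * Real.log 2) ≤ J :=
      (le_max_right _ _).trans ((le_max_right _ _).trans (hJ₂.trans hJ2))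
    rw [div_le_iff₀ (mul_pos (by linarith) hl2)] at this
    linarith
  have w1 : ((⌊w * J⌋₊ : ℕ) : ℝ) ≤ w * J := Nat.floor_le (by positivity)
  have w2 : w' * J < ((⌊w' * J⌋₊ : ℕ) : ℝ) + 1 := Nat.lt_floor_add_one _
  have w3 : ((⌊h * J⌋₊ : ℕ) : ℝ) ≤ h * J := Nat.floor_le (by positivity)
  have w4 : q * J < ((⌊q * J⌋₊ : ℕ) : ℝ) + 1 := Nat.lt_floor_add_one _
  have w5 : ((⌊e * J⌋₊ : ℕ) : ℝ) ≤ e * J := Nat.floor_le (by positivity)
  refine hgr J F A hA I k ⌊e * J⌋₊ ⌊w * J⌋₊ ⌊w' * J⌋₊ ⌊r * J⌋₊ ⌊q * J⌋₊ ⌊h * J⌋₊ (δ * J) hlb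
    (Nat.floor_le_floor (mul_le_mul_of_nonneg_right hww hJ0)) (floor_le hw'.le J)
    (floor_le hr J) (by positivity) hTm ?_ ?_ ?_
  · calc C * (δ * J + 1) ≤ 2 * (C * δ) * J := by nlinarith
      _ ≤ 6 * (C * δ) * J := by
          have : 0 ≤ C * δ * J := by positivity
          linarith
      _ = g * J * Real.log 2 := by rw [hδ1]; ring
      _ ≤ ((J : ℝ) - (⌊w * J⌋₊ : ℕ)) * Real.log 2 := by
          refine mul_le_mul_of_nonneg_right ?_ hl2.le
          have : g * J ≤ (1 - w) * J := mul_le_mul_of_nonneg_right hg2 hJ0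
          linarith
  · have c1 : C ≤ Real.exp (C * δ * J) := by
      have h1 := Real.add_one_le_exp (C * δ * J)
      have h2 : C ≤ C * δ * J := by nlinarith
      linarith
    rw [two_pow_exp, two_pow_exp, two_pow_exp, two_pow_exp]
    calc C * Real.exp (C * (δ * J + 1)) *
        (Real.exp ((⌊h * J⌋₊ : ℕ) * Real.log 2) * Real.exp ((⌊w * J⌋₊ : ℕ) * Real.log 2))
        ≤ Real.exp (C * δ * J) * Real.exp (C * (δ * J + 1)) *
        (Real.exp ((⌊h * J⌋₊ : ℕ) * Real.log 2) * Real.exp ((⌊w * J⌋₊ : ℕ) * Real.log 2)) :=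
          mul_le_mul_of_nonneg_right (mul_le_mul_of_nonneg_right c1 (Real.exp_pos _).le)
            (by positivity)
      _ = Real.exp (C * δ * J + C * (δ * J + 1) + ((⌊h * J⌋₊ : ℕ) + (⌊w * J⌋₊ : ℕ)) *
          Real.log 2) := by
          rw [← Real.exp_add, ← Real.exp_add, ← Real.exp_add]
          congr 1
          ring
      _ ≤ Real.exp (((⌊q * J⌋₊ : ℕ) + (⌊w' * J⌋₊ : ℕ)) * Real.log 2) := by
          refine Real.exp_le_exp.2 ?_
          have c2 : C * δ * J + C * (δ * J + 1) ≤ 1 / 2 * (g * J) * Real.log 2 := by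
            have d1 : 1 / 2 * (g * J) * Real.log 2 = 3 * (C * δ) * J := by
              linear_combination (-(J : ℝ) / 2) * hδ1
            rw [d1]
            nlinarith
          have c3 : 1 / 2 * (g * J) + ((⌊h * J⌋₊ : ℕ) + (⌊w * J⌋₊ : ℕ)) ≤
              (((⌊q * J⌋₊ : ℕ) : ℝ) + (⌊w' * J⌋₊ : ℕ)) := by
            have : g * J ≤ (q + w' - h - w) * J := mul_le_mul_of_nonneg_right hg1 hJ0
            linarith
          have c4 := mul_le_mul_of_nonneg_right c3 hl2.le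
          linarith
      _ = Real.exp ((⌊q * J⌋₊ : ℕ) * Real.log 2) * Real.exp ((⌊w' * J⌋₊ : ℕ) * Real.log 2) := by
          rw [← Real.exp_add]
          congr 1
          ring
  · have hm : (0 : ℝ) < 2 * (m + 2) := by positivity
    rw [two_pow_exp, two_pow_exp, two_pow_exp, ← Real.exp_log hm, ← Real.exp_add, ← Real.exp_add]
    refine Real.exp_le_exp.2 ?_
    have c1 : ((⌊e * J⌋₊ : ℕ) + (⌊h * J⌋₊ : ℕ)) * Real.log 2 ≤ (e * J + h * J) * Real.log 2 :=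
      mul_le_mul_of_nonneg_right (by linarith) hl2.le
    linarith

/-- **The natural precision grows with the window.** -/
theorem num_grow {S : PCl m} (hS : S.Ne) {C₀ : ℝ} (htm : TmC S C₀)
    {L : Finset (Fin m) → Fin m → ℝ → ℝ → ℝ} (hL : LamW S L) {I : Finset (Fin m)} {k : Fin m}
    {w w' r : ℝ} (hw : 0 < w) (hww : w ≤ w') (hr : r < 1) (h1 : L I k w r + (w' - w) < 1) :
    L I k w r + (w' - w) ≤ L I k w' r := by
  classical
  rcases hww.eq_or_lt with h0 | hww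
  · rw [← h0, sub_self, add_zero]
  by_contra hcon
  push Not at hcon
  obtain ⟨h, hh⟩ : ∃ h, h = (L I k w' r + (L I k w r + (w' - w))) / 2 := ⟨_, rfl⟩
  have hh1 : L I k w' r < h := by linarith
  have hh2 : h < L I k w r + (w' - w) := by linarith
  have hh3 : h < 1 := by linarith
  have hLw := hL.low I k w r
  obtain ⟨d, hd0, hd1, habs⟩ := hL.abs I k w' r h hh1 hh3.le
  have hh0 : 0 ≤ h := by
    have := hL.low I k w' r (by linarith)
    linarith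
  obtain ⟨g, hg⟩ : ∃ g, g = L I k w r + (w' - w) - h := ⟨_, rfl⟩
  have hg0 : 0 < g := by linarith
  obtain ⟨η, hη⟩ : ∃ η, η = min (g / 4) (w' - w) := ⟨_, rfl⟩
  have hη0 : 0 < η := by
    rw [hη]
    exact lt_min (by linarith) (by linarith)
  have hη1 : η ≤ g / 4 := by
    rw [hη]
    exact min_le_left _ _
  have hη2 : η ≤ w' - w := by
    rw [hη]
    exact min_le_right _ _
  obtain ⟨e, he⟩ : ∃ e, e = min d (min (g / 4) (min ((1 - h) / 2) (1 - r))) := ⟨_, rfl⟩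
  have he0 : 0 < e := by
    rw [he]
    exact lt_min hd0 (lt_min (by linarith) (lt_min (by linarith) (by linarith)))
  have he1 : e ≤ d := by
    rw [he]
    exact min_le_left _ _
  have he2 : e ≤ g / 4 := by
    rw [he]
    exact (min_le_right _ _).trans (min_le_left _ _)
  have he3 : e ≤ (1 - h) / 2 := by
    rw [he]
    exact (min_le_right _ _).trans ((min_le_right _ _).trans (min_le_left _ _))
  have he4 : e ≤ 1 - r := by
    rw [he]
    exact (min_le_right _ _).trans ((min_le_right _ _).trans (min_le_right _ _))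
  obtain ⟨K, hK⟩ := hL.att I k w (w + η) r e (by linarith) (by linarith) (by linarith) he0
  have hgb := grow_bas htm I k K (w := w + η) (w' := w') (q := L I k w r - e) (h := h) (e := e)
    (r := r + e) (by linarith) (by linarith) (by linarith) hh0 he0.le (by linarith) (by linarith)
    (by linarith)
  have hab := Pool.GRW.bas_part (habs d le_rfl K) (c := 18) (by norm_num)
  obtain ⟨τ, hτ, J₁, hall⟩ := (hK.and hgb).and hab
  obtain ⟨J, hJ, F, A, hFA⟩ := hS τ hτ J₁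
  obtain ⟨⟨k1, k2⟩, k3⟩ := hall J hJ F A hFA
  obtain ⟨B, hBA, hPB, hB⟩ := k2 k1
  have hJ0 : (0 : ℝ) ≤ J := Nat.cast_nonneg J
  refine k3 B hBA hPB (hB.mono (Finset.Subset.refl _) le_rfl
    (Nat.floor_le_floor (mul_le_mul_of_nonneg_right he1 hJ0)) le_rfl
    (Nat.floor_le_floor (mul_le_mul_of_nonneg_right (by linarith) hJ0)) (floor_le hd1 J)
    (Nat.floor_le_floor (mul_le_mul_of_nonneg_right (by linarith) hJ0)) le_rfl)

theorem num_grow_min {S : PCl m} (hS : S.Ne) {C₀ : ℝ} (htm : TmC S C₀)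
    {L : Finset (Fin m) → Fin m → ℝ → ℝ → ℝ} (hL : LamW S L) {I : Finset (Fin m)} {k : Fin m}
    {w w' r : ℝ} (hw : 0 < w) (hww : w ≤ w') (hr : r < 1) :
    min 1 (L I k w r + (w' - w)) ≤ L I k w' r := by
  refine le_of_forall_lt fun c hc => ?_
  obtain ⟨h, hch, hh⟩ := exists_between hc
  have hh1 := hh.trans_le (min_le_left _ _)
  have hh2 := hh.trans_le (min_le_right _ _)
  refine lt_of_lt_of_le hch ?_
  rcases le_total h (L I k w r) with h0 | h0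
  · exact h0.trans (hL.mono I I k w w' r r (Finset.Subset.refl _) hww le_rfl)
  · have g1 := num_grow hS htm hL (I := I) (k := k) (w := w) (w' := w + (h - L I k w r)) (r := r)
      hw (by linarith) hr (by linarith)
    have g2 := hL.mono I I k (w + (h - L I k w r)) w' r r (Finset.Subset.refl _) (by linarith)
      le_rfl
    linarith

end Pool.LA91
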