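import Pool.Agent.H91.LA.Dg2
import Pool.Agent.H91.LA.Chp
import Pool.Agent.H91.LA.Grow
import Pool.Agent.H17.COR.Qlin

/-!
# The numbers of a pair of coordinates with a constant

Windows `q + s`, `q ∈ G`. `WinG`: the data of the windows: `U q` and `D q` are the precisions of the
labels of `ι` and of the labels of `k` which are affine in `ι`. `gX`, `gD`: the heights and the
velocities of `ι` and `k` at the window `w`, to the natural digits of `o`, with the constant `g`.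
`row_gP`, `chg_gP`, `own_gP`: rows, change of charts, own windows. `num_gP`: the numbers.
`win_of`: the data from the numbers of the class. `num_pair`: all of it.
-/

set_option autoImplicit false

namespace Pool.LA91

open Finset Real MvPolynomial
open Pool.Agent.H49.Ent Pool.Agent.H32.Dense Pool.STK Pool.KA Pool.KSAT Pool.K2S Pool.PB Pool.GEN
open Pool.S6C Pool.RCD
open Pool.OWN17 (GC UD NumG)

variable {m : ℕ}

/-- **The data of the windows** `q + s`, `q ∈ G`. -/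
structure WinG (S : PCl m) (I : Finset (Fin m)) (ι k : Fin m) (G : Set ℚ) (s : ℝ)
    (U D : ℚ → ℝ) : Prop where
  w0 : ∀ q ∈ G, 0 < (q : ℝ) + s
  w1 : ∀ q ∈ G, (q : ℝ) + s < 1
  U0 : ∀ q ∈ G, 0 ≤ U q ∧ U q ≤ 1
  D0 : ∀ q ∈ G, 0 ≤ D q ∧ D q ≤ 1
  um : ∀ q ∈ G, ∀ q' ∈ G, q ≤ q' → U q + (q' - q) ≤ U q'
  dm : ∀ q ∈ G, ∀ q' ∈ G, q ≤ q' → D q + (q' - q) ≤ D q'
  att : ∀ q ∈ G, ∃ r : ℝ, 0 ≤ r ∧ Att S I ι ((q : ℝ) + s) (U q) r
  attQ : ∀ q ∈ G, ∀ j ≤ 1, AttQ S I ι k j ((q : ℝ) + s) (D q)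
  ful : ∀ q ∈ G, ∀ u : ℝ, (q : ℝ) + s < u → u < 1 → Ful S I ((q : ℝ) + s) u
  slo : ∀ q ∈ G, ∀ w₁ w₂ p₁ p₂ : ℝ, w₁ ≤ (q : ℝ) + s → w₂ ≤ (q : ℝ) + s →
    SloN S (RL m I ι k w₁ p₁) (RL m I ι k w₂ p₂) (min p₁ p₂ - U q)

/-- The heights (`j = 0`) and the velocities (`j = 1`) of the pair at the window `w + s`, to the
natural digits of `o + s`, with the constant `g`. -/
noncomputable def gP (m : ℕ) (I : Finset (Fin m)) (ι k : Fin m) (j : ℕ) (s : ℝ) (U : ℚ → ℝ)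
    (g w o : ℚ) : Qt m (ℤ × ℤ) :=
  qP m I ι k j ((w : ℝ) + s) (U w) (U o - j * ((o : ℝ) + s)) (U w + g)
    (U o + g - j * ((o : ℝ) + s))

/-- The heights of the pair. -/
noncomputable def gX (m : ℕ) (I : Finset (Fin m)) (ι k : Fin m) (s : ℝ) (U : ℚ → ℝ)
    (g w o : ℚ) : Qt m (ℤ × ℤ) :=
  qP m I ι k 0 ((w : ℝ) + s) (U w) (U o) (U w + g) (U o + g)

/-- The velocities of the pair. -/
noncomputable def gD (m : ℕ) (I : Finset (Fin m)) (ι k : Fin m) (s : ℝ) (U : ℚ → ℝ)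
    (g w o : ℚ) : Qt m (ℤ × ℤ) :=
  qP m I ι k 1 ((w : ℝ) + s) (U w) (U o - ((o : ℝ) + s)) (U w + g) (U o + g - ((o : ℝ) + s))

theorem gX_eq (I : Finset (Fin m)) (ι k : Fin m) (s : ℝ) (U : ℚ → ℝ) (g w o : ℚ) :
    gP m I ι k 0 s U g w o = gX m I ι k s U g w o := by
  unfold gP gX
  simp only [Nat.cast_zero, zero_mul, sub_zero]

theorem gD_eq (I : Finset (Fin m)) (ι k : Fin m) (s : ℝ) (U : ℚ → ℝ) (g w o : ℚ) :
    gP m I ι k 1 s U g w o = gD m I ι k s U g w o := by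
  unfold gP gD
  simp only [Nat.cast_one, one_mul]

section

variable {S : PCl m} {C₀ : ℝ} {I : Finset (Fin m)} {ι k : Fin m} {G : Set ℚ} {s : ℝ}
  {U D : ℚ → ℝ} {α γ : ∀ J : ℕ, Fam m J → Type} {f : ∀ (J : ℕ) (F : Fam m J), F.Ω → α J F}
  {y : ∀ (J : ℕ) (F : Fam m J), F.Ω → γ J F} {lam : ℝ}

theorem WinG.sub {S' : PCl m} (hs : ∀ (τ : ℝ) (J : ℕ) (F : Fam m J) (A : F.Ω → Prop),
    S'.St τ J F A → S.St τ J F A) (H : WinG S I ι k G s U D) : WinG S' I ι k G s U D where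
  w0 := H.w0
  w1 := H.w1
  U0 := H.U0
  D0 := H.D0
  um := H.um
  dm := H.dm
  att q hq := by
    obtain ⟨r, hr, h⟩ := H.att q hq
    exact ⟨r, hr, h.sub hs⟩
  attQ q hq j hj := (H.attQ q hq j hj).sub hs
  ful q hq u a b := (H.ful q hq u a b).sub hs
  slo q hq w₁ w₂ p₁ p₂ a b := (H.slo q hq w₁ w₂ p₁ p₂ a b).sub hs

theorem WinG.ud {A B : ℝ} (H : WinG S I ι k G s U D)
    (hG : ∀ q : ℚ, A < q → (q : ℝ) < B → q ∈ G) : UD U D A B where
  u0 w a b := H.U0 w (hG w a b)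
  d0 w a b := H.D0 w (hG w a b)
  um w v a b c := by
    have b' : (w : ℝ) ≤ v := by exact_mod_cast b
    exact H.um w (hG w a (by linarith)) v (hG v (by linarith) c) b
  dm w v a b c := by
    have b' : (w : ℝ) ≤ v := by exact_mod_cast b
    exact H.dm w (hG w a (by linarith)) v (hG v (by linarith) c) b

/-- **The slopes along a chain of windows.** -/
theorem WinG.chain (htm : TmC S C₀) {A B : ℝ} (H : WinG S I ι k G s U D)
    (hG : ∀ q : ℚ, A < q → (q : ℝ) < B → q ∈ G) {g w o : ℚ} (h : GC U D g w o) (hw : A < w)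
    (ho : (o : ℝ) < B) : SloN S (RL m I ι k ((w : ℝ) + s) (U w + g))
      (RL m I ι k ((o : ℝ) + s) (U o + g)) g := by
  have hud := H.ud hG
  induction h with
  | nil w h =>
    have h1 := H.slo w (hG w hw ho) ((w : ℝ) + s) ((w : ℝ) + s) (U w + g) (U w + g) le_rfl le_rfl
    rw [min_self, add_sub_cancel_left] at h1
    exact h1
  | @cons w v o h1 h2 h3 ih =>
    have h1' : (w : ℝ) < v := by exact_mod_cast h1
    have h3' : (v : ℝ) ≤ o := by exact_mod_cast h3.le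
    have gw := hG w hw (by linarith)
    have gv := hG v (by linarith) (by linarith)
    have hU := hud.umon hw h1.le (by linarith)
    have hf := GC.first hud (by linarith : A < (v : ℝ)) ho h3
    have e1 : SRel.Ex S (RL m I ι k ((v : ℝ) + s) (U v + g)) :=
      ((H.attQ v gv 0 (by norm_num)).le (by linarith)).ex
    have e2 : SRel.Ex S (RL m I ι k ((w : ℝ) + s) (D w)) := (H.attQ w gw 0 (by norm_num)).ex
    have s1 := H.slo w gw ((w : ℝ) + s) ((w : ℝ) + s) (U w + g) (D w) le_rfl le_rfl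
    have s2 := H.slo v gv ((w : ℝ) + s) ((v : ℝ) + s) (D w) (U v + g) (by linarith) le_rfl
    have s1' := s1.le htm (Δ' := (g : ℝ)) (by
      have : U w + g ≤ min (U w + g) (D w) := le_min le_rfl (by linarith)
      linarith)
    have s2' := s2.le htm (Δ' := (g : ℝ)) (by
      have : U v + g ≤ min (D w) (U v + g) := le_min (by linarith) le_rfl
      linarith)
    exact (s1'.trans htm s2' e2).trans htm (ih (by linarith) ho) e1

variable (htm : TmC S C₀)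
  (hpos : ∀ (τ : ℝ) (J : ℕ) (F : Fam m J) (A : F.Ω → Prop), S.St τ J F A → 0 < Pe F.p A)
  (hf : ∀ (J : ℕ) (F : Fam m J), ∃ φ : α J F → PtT F, ∀ ω, ptr F J ω = φ (f J F ω))
  (hy : Kn I 1 lam y) (H : WinG S I ι k G s U D)

theorem jle {j : ℕ} (hj : j ≤ 1) : (0 : ℝ) ≤ j ∧ (j : ℝ) ≤ 1 :=
  ⟨Nat.cast_nonneg j, by exact_mod_cast hj⟩

include H in
theorem exs_gP {j : ℕ} (hj : j ≤ 1) {g w o : ℚ} (hw : w ∈ G) (hg : g + U w ≤ D w) :
    Exs S (gP m I ι k j s U g w o) := by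
  obtain ⟨r, hr, h⟩ := H.att w hw
  exact pair_exs hr h ((H.attQ w hw j hj).le (by linarith))

include htm hpos hf hy H in
/-- **Rows**, also with a larger constant. -/
theorem row_gP {j : ℕ} (hj : j ≤ 1) {g g' w v o : ℚ} (hw : w ∈ G) (hv : v ∈ G) (ho : o ∈ G)
    (hwv : w ≤ v) (hvo : v ≤ o) (hg : g ≤ g') (h0 : U v + g' ≤ U o + g)
    (h1 : U v - v + g' ≤ U o - o + g)
    (hcl : U o < U w + min lam (1 - ((o : ℝ) + s))) :
    Few S f (vg ((w : ℝ) + s)) y (gP m I ι k j s U g w o) (gP m I ι k j s U g' w v) := by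
  have hwv' : (w : ℝ) ≤ v := by exact_mod_cast hwv
  have hvo' : (v : ℝ) ≤ o := by exact_mod_cast hvo
  have hg' : (g : ℝ) ≤ g' := by exact_mod_cast hg
  obtain ⟨j0, j1⟩ := jle hj
  have hm := H.um v hv o ho hvo
  have b1 : (j : ℝ) * ((o : ℝ) - v) ≤ o - v := mul_le_of_le_one_left (by linarith) j1
  have b0 : 0 ≤ (j : ℝ) * ((o : ℝ) - v) := mul_nonneg j0 (by linarith)
  have b2 : 0 ≤ (j : ℝ) * ((v : ℝ) - w) := mul_nonneg j0 (by linarith)
  have hjj : U v - j * v + g' ≤ U o - j * o + g := by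
    have e1 : U v - j * v + g' = (1 - j) * (U v + g') + j * (U v - v + g') := by ring
    have e2 : U o - j * o + g = (1 - j) * (U o + g) + j * (U o - o + g) := by ring
    rw [e1, e2]
    exact add_le_add (mul_le_mul_of_nonneg_left h0 (by linarith))
      (mul_le_mul_of_nonneg_left h1 j0)
  have w0 := H.w0 w hw
  have w1 := H.w1 w hw
  have hs := H.slo w hw ((w : ℝ) + s) ((w : ℝ) + s) (U w + g) (U w + g') le_rfl le_rfl
  have e3 : min (U w + g) (U w + (g' : ℝ)) - U w = g := by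
    rw [min_eq_left (by linarith)]
    ring
  rw [e3] at hs
  have hmin : min lam (1 - ((o : ℝ) + s)) ≤ min lam (1 - ((w : ℝ) + s)) :=
    min_le_min le_rfl (by linarith)
  refine pair_few htm hpos hs le_rfl le_rfl w1.le le_rfl w0.le w1 le_rfl (H.ful w hw) hf hy
    ?_ ?_ ?_ ?_ ?_
  · nlinarith
  · nlinarith
  · nlinarith
  · rw [min_self]
    nlinarith
  · rw [show min (min (U w + g) (U w + (g' : ℝ))) (U w + g) = U w + g from by
      rw [min_eq_left (show U w + (g : ℝ) ≤ U w + g' by linarith), min_self]]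
    nlinarith

include htm hpos hf hy H in
/-- **Change of the charts.** -/
theorem chg_gP {A B : ℝ} (hG : ∀ q : ℚ, A < q → (q : ℝ) < B → q ∈ G) {j : ℕ} (hj : j ≤ 1)
    {g w v o : ℚ} (hw : A < w) (hwv : w ≤ v) (hvo : v ≤ o) (ho : (o : ℝ) < B)
    (hgc : GC U D g w v) (hcl : U o < U w + min lam (1 - ((o : ℝ) + s))) :
    Few S f (vg ((v : ℝ) + s)) y (gP m I ι k j s U g w o) (gP m I ι k j s U g v o) := by
  have hwv' : (w : ℝ) ≤ v := by exact_mod_cast hwv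
  have hvo' : (v : ℝ) ≤ o := by exact_mod_cast hvo
  have gv := hG v (by linarith) (by linarith)
  have gw := hG w hw (by linarith)
  obtain ⟨j0, j1⟩ := jle hj
  have hU := H.um w gw v gv hwv
  have b0 : 0 ≤ (j : ℝ) * ((o : ℝ) - v) := mul_nonneg j0 (by linarith)
  have v0 := H.w0 v gv
  have v1 := H.w1 v gv
  have hs := H.chain htm hG hgc hw (by linarith)
  have hmin : min lam (1 - ((o : ℝ) + s)) ≤ min lam (1 - ((v : ℝ) + s)) :=
    min_le_min le_rfl (by linarith)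
  refine pair_few htm hpos hs (by linarith) le_rfl v1.le le_rfl v0.le v1 le_rfl (H.ful v gv) hf hy
    le_rfl le_rfl (by linarith) ?_ ?_
  · rw [min_eq_left (by linarith)]
    nlinarith
  · rw [show min (min (U w + g) (U v + (g : ℝ))) (U w + g) = U w + g from by
      rw [min_eq_left (show U w + (g : ℝ) ≤ U v + g by linarith), min_self]]
    nlinarith

include htm hpos hf hy H in
/-- **The own window.** -/
theorem own_gP {A B : ℝ} (hG : ∀ q : ℚ, A < q → (q : ℝ) < B → q ∈ G) {j : ℕ} (hj : j ≤ 1)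
    {g w v : ℚ} (hw : A < w) (hwv : w ≤ v) (hv : (v : ℝ) < B) (hgc : GC U D g w v)
    (hcl : U v < U w + min lam (1 - ((v : ℝ) + s))) :
    Few0 S f (vg ((v : ℝ) + s)) y (gP m I ι k j s U g w v) := by
  have hwv' : (w : ℝ) ≤ v := by exact_mod_cast hwv
  have gv := hG v (by linarith) hv
  have gw := hG w hw (by linarith)
  have hU := H.um w gw v gv hwv
  have v0 := H.w0 v gv
  have v1 := H.w1 v gv
  have hs := (H.chain htm hG hgc hw hv).symm
  obtain ⟨r, hr, hatt⟩ := H.att v gv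
  have hl := GC.last hgc
  refine pair_own (qv := U v) (pv := U v + g) htm hpos hs (by linarith) v0.le v1 hr hatt
    ((H.attQ v gv j hj).le (by linarith)) le_rfl v1 le_rfl (H.ful v gv) hf hy ?_ ?_ ?_ ?_ ?_
  · linarith
  · linarith
  · linarith
  · rw [min_eq_right (by linarith)]
    linarith
  · rw [show min (min (U v + g) (U w + (g : ℝ))) (U v + g) = U w + g from by
      rw [min_eq_right (show U w + (g : ℝ) ≤ U v + g by linarith), min_eq_left (by linarith)]]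
    linarith

include htm hpos hf hy H in
/-- A smaller constant. -/
theorem dn_gP {j : ℕ} (hj : j ≤ 1) {g g' w o : ℚ} (hw : w ∈ G) (_ho : o ∈ G)
    (hwo : w ≤ o) (hg : g ≤ g') (hcl : U o < U w + min lam (1 - ((o : ℝ) + s))) :
    Few S f (vg ((w : ℝ) + s)) y (gP m I ι k j s U g' w o) (gP m I ι k j s U g w o) := by
  have hwo' : (w : ℝ) ≤ o := by exact_mod_cast hwo
  have hg' : (g : ℝ) ≤ g' := by exact_mod_cast hg
  obtain ⟨j0, j1⟩ := jle hj
  have b0 : 0 ≤ (j : ℝ) * ((o : ℝ) - w) := mul_nonneg j0 (by linarith)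
  have w0 := H.w0 w hw
  have w1 := H.w1 w hw
  have hs := H.slo w hw ((w : ℝ) + s) ((w : ℝ) + s) (U w + g') (U w + g) le_rfl le_rfl
  have e3 : min (U w + g') (U w + (g : ℝ)) - U w = g := by
    rw [min_eq_right (by linarith)]
    ring
  rw [e3] at hs
  have hmin : min lam (1 - ((o : ℝ) + s)) ≤ min lam (1 - ((w : ℝ) + s)) :=
    min_le_min le_rfl (by linarith)
  refine pair_few htm hpos hs le_rfl le_rfl w1.le le_rfl w0.le w1 le_rfl (H.ful w hw) hf hy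
    le_rfl (by linarith) (by linarith) ?_ ?_
  · rw [min_self]
    nlinarith
  · rw [show min (min (U w + g') (U w + (g : ℝ))) (U w + g) = U w + g from by
      rw [min_eq_right (show U w + (g : ℝ) ≤ U w + g' by linarith), min_self]]
    nlinarith

include htm hpos hf hy H in
/-- **A larger constant**: more digits of a better label. -/
theorem up_gP {j : ℕ} (hj : j ≤ 1) {g g' w o : ℚ} (hw : w ∈ G) (_ho : o ∈ G)
    (hwo : w ≤ o) (hg : g ≤ g') (hgD : g' + U w ≤ D w)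
    (hcl : U o < U w + min lam (1 - ((o : ℝ) + s))) :
    ∃ Q₁ : Qt m (ℤ × ℤ), Few S f (vg ((w : ℝ) + s)) y (gP m I ι k j s U g w o) Q₁ ∧
      Dg2 S Q₁ (gP m I ι k j s U g' w o) (((g' : ℝ) - g) * Real.log 2) := by
  have hwo' : (w : ℝ) ≤ o := by exact_mod_cast hwo
  have hg' : (g : ℝ) ≤ g' := by exact_mod_cast hg
  obtain ⟨j0, j1⟩ := jle hj
  have b0 : 0 ≤ (j : ℝ) * ((o : ℝ) - w) := mul_nonneg j0 (by linarith)
  have w0 := H.w0 w hw
  have w1 := H.w1 w hw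
  have hs := H.slo w hw ((w : ℝ) + s) ((w : ℝ) + s) (U w + g) (U w + g') le_rfl le_rfl
  have e3 : min (U w + g) (U w + (g' : ℝ)) - U w = g := by
    rw [min_eq_left (by linarith)]
    ring
  rw [e3] at hs
  have hmin : min lam (1 - ((o : ℝ) + s)) ≤ min lam (1 - ((w : ℝ) + s)) :=
    min_le_min le_rfl (by linarith)
  obtain ⟨r, hr, hatt⟩ := H.att w hw
  refine ⟨qP m I ι k j ((w : ℝ) + s) (U w) (U o - j * ((o : ℝ) + s)) (U w + g')
    (U o + g - j * ((o : ℝ) + s)), ?_, ?_⟩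
  · refine pair_few htm hpos hs le_rfl le_rfl w1.le le_rfl w0.le w1 le_rfl (H.ful w hw) hf hy
      le_rfl le_rfl (by linarith) ?_ ?_
    · rw [min_self]
      nlinarith
    · rw [show min (min (U w + g) (U w + (g' : ℝ))) (U w + g) = U w + g from by
        rw [min_eq_left (show U w + (g : ℝ) ≤ U w + g' by linarith), min_self]]
      nlinarith
  · have h1 := Dg2.prod hpos (dg_refl hpos (exs_jet (I := I) (k := ι) (j := j)
      (N := U o - j * ((o : ℝ) + s)) hr hatt))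
      (dg_qA hpos (N := U o + g - j * ((o : ℝ) + s)) (N' := U o + g' - j * ((o : ℝ) + s))
        ((H.attQ w hw j hj).le (show U w + (g' : ℝ) ≤ D w by linarith)) (by linarith))
    have e4 : (0 : ℝ) + (U o + g' - j * ((o : ℝ) + s) - (U o + g - j * ((o : ℝ) + s))) *
        Real.log 2 = ((g' : ℝ) - g) * Real.log 2 := by ring
    rw [e4] at h1
    exact h1

end

/-- A larger bound. -/
theorem Dg2.le {U' U'' : Type} {S : PCl m} {Q : Qt m U'} {Q' : Qt m U''} {c c' : ℝ}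
    (h : Dg2 S Q Q' c) (hc : c ≤ c') : Dg2 S Q Q' c' := by
  intro e he
  obtain ⟨K, M, H⟩ := h e he
  refine ⟨K, M, Bas.mono 0 H ?_⟩
  rintro J - F A ⟨u, u', a, b, d⟩
  refine ⟨u, u', a, b, d.trans ?_⟩
  have := mul_le_mul_of_nonneg_right hc (Nat.cast_nonneg (α := ℝ) J)
  linarith

/-- **Numbers with a constant**, from rows, changes of charts and own windows. -/
theorem numg_of {U' : Type} {S : PCl m} (hS : S.Ne)
    (hpos : ∀ (τ : ℝ) (J : ℕ) (F : Fam m J) (A : F.Ω → Prop), S.St τ J F A → 0 < Pe F.p A)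
    {U D : ℚ → ℝ} {s : ℝ} {α γ : ∀ J : ℕ, Fam m J → Type}
    {f : ∀ (J : ℕ) (F : Fam m J), F.Ω → α J F} {y : ∀ (J : ℕ) (F : Fam m J), F.Ω → γ J F}
    {Q : ℚ → ℚ → ℚ → Qt m U'} {n : ℚ → ℚ → ℚ → ℝ} {A B lam c : ℝ} (hud : UD U D A B)
    (h1 : ∀ q : ℚ, A < q → (q : ℝ) < B → (q : ℝ) + s ≤ 1)
    (hη : ∀ q : ℚ, A < q → (q : ℝ) < B → ∃ η, RNum S f (vg ((q : ℝ) + s)) η)
    (N : ∀ g w o : ℚ, A < w → w ≤ o → (o : ℝ) < B → (o : ℝ) < w + lam → GC U D g w o →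
      NN S f (vg ((w : ℝ) + s)) y (Q g w o) (n g w o))
    (x : ∀ g w o : ℚ, A < w → w ≤ o → (o : ℝ) < B → (o : ℝ) < w + lam → GC U D g w o →
      Exs S (Q g w o))
    (row : ∀ g g' w v o : ℚ, A < w → w ≤ v → v ≤ o → (o : ℝ) < B → (o : ℝ) < w + lam →
      g ≤ g' → U v + g' ≤ U o + g → U v - v + g' ≤ U o - o + g →
      Few S f (vg ((w : ℝ) + s)) y (Q g w o) (Q g' w v))
    (dn : ∀ g g' w o : ℚ, A < w → w ≤ o → (o : ℝ) < B → (o : ℝ) < w + lam → g ≤ g' →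
      Few S f (vg ((w : ℝ) + s)) y (Q g' w o) (Q g w o))
    (up : ∀ g g' w o : ℚ, A < w → w ≤ o → (o : ℝ) < B → (o : ℝ) < w + lam → g ≤ g' →
      GC U D g' w o → ∃ Q₁ : Qt m U', Few S f (vg ((w : ℝ) + s)) y (Q g w o) Q₁ ∧
      Dg2 S Q₁ (Q g' w o) (c * (g' - g)))
    (chg : ∀ g w v o : ℚ, A < w → w ≤ v → v ≤ o → (o : ℝ) < B → (o : ℝ) < w + lam →
      GC U D g w v → Few S f (vg ((v : ℝ) + s)) y (Q g w o) (Q g v o))
    (own : ∀ g w v : ℚ, A < w → w ≤ v → (v : ℝ) < B → (v : ℝ) < w + lam →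
      GC U D g w v → Few0 S f (vg ((v : ℝ) + s)) y (Q g w v)) : NumG U D n A B lam c where
  n0 g w o a b d e hg := by
    have b' : (w : ℝ) ≤ o := by exact_mod_cast b
    obtain ⟨η, hη⟩ := hη w a (by linarith)
    exact (N g w o a b d e hg).nonneg hS hpos hη (x g w o a b d e hg)
  nm g g' w o a b d e hg hgc := by
    have b' : (w : ℝ) ≤ o := by exact_mod_cast b
    have hgc' : GC U D g w o := hgc.mono (by exact_mod_cast hg)
    obtain ⟨η, hη⟩ := hη w a (by linarith)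
    constructor
    · have h2 := (N g' w o a b d e hgc).le_dg hS hpos hη (N g w o a b d e hgc')
        (x g' w o a b d e hgc) (dn g g' w o a b d e hg) (dg_refl hpos (x g w o a b d e hgc'))
      linarith
    · obtain ⟨Q₁, h2, h3⟩ := up g g' w o a b d e hg hgc
      exact (N g w o a b d e hgc').le_dg hS hpos hη (N g' w o a b d e hgc)
        (x g w o a b d e hgc') h2 h3
  n3 g g' w v o a b b₂ d e hgc hgc' hg h2 h3 := by
    have b' : (w : ℝ) ≤ v := by exact_mod_cast b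
    have b₂' : (v : ℝ) ≤ o := by exact_mod_cast b₂
    obtain ⟨η, hη₁⟩ := hη w a (by linarith)
    obtain ⟨η', hη₂⟩ := hη v (by linarith) (by linarith)
    obtain ⟨g1, g2⟩ := GC.split hud a d hgc b b₂
    refine NN.super (η := η) (η' := η') hS hpos (fun J F => ⟨fun x => x, fun _ => rfl⟩)
      (fun J F => ?_) hη₁ hη₂ (N g w o a (b.trans b₂) d e hgc)
      (N g' w v a b (by linarith) (by linarith) hgc')
      (N g v o (by linarith) b₂ d (by linarith) g2) (x g w o a (b.trans b₂) d e hgc)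
      (x g' w v a b (by linarith) (by linarith) hgc') (x g v o (by linarith) b₂ d (by linarith) g2)
      (row g g' w v o a b b₂ d e hg h2 h3) (own g' w v a b (by linarith) (by linarith) hgc')
      (chg g w v o a b b₂ d e g1)
    exact vg_mono (by linarith) (h1 v (by linarith) (by linarith)) J F

section

variable {S : PCl m} {C₀ : ℝ} {I : Finset (Fin m)} {ι k : Fin m} {G : Set ℚ} {s : ℝ}
  {U D : ℚ → ℝ} {α : ∀ J : ℕ, Fam m J → Type} {f : ∀ (J : ℕ) (F : Fam m J), F.Ω → α J F}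

/-- **The numbers exist** in a subclass, for countably many side informations. -/
theorem num_gP (hS : S.Ne) (htm : TmC S C₀)
    (hpos : ∀ (τ : ℝ) (J : ℕ) (F : Fam m J) (A : F.Ω → Prop), S.St τ J F A → 0 < Pe F.p A)
    (H : WinG S I ι k G s U D)
    (hf : ∀ (J : ℕ) (F : Fam m J), ∃ φ : α J F → PtT F, ∀ ω, ptr F J ω = φ (f J F ω))
    {β : ℕ → ∀ J : ℕ, Fam m J → Type} (V : ∀ (i J : ℕ) (F : Fam m J), F.Ω → β i J F)
    {lam : ℕ → ℝ} (hy : ∀ i, Kn I 1 (lam i) (V i)) :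
    ∃ S' : PCl m, S'.Ne ∧
      (∀ (τ : ℝ) (J : ℕ) (F : Fam m J) (A : F.Ω → Prop), S'.St τ J F A → S.St τ J F A) ∧
      ∃ nX nD : ℕ → ℚ → ℚ → ℚ → ℝ, ∀ (i : ℕ) (g w o : ℚ), w ∈ G → o ∈ G → w ≤ o →
        g + U w ≤ D w → U o < U w + min (lam i) (1 - ((o : ℝ) + s)) →
        NN S' f (vg ((w : ℝ) + s)) (V i) ((gX m I ι k s U g w o).prod (gD m I ι k s U g w o))
          (nX i g w o) ∧
        NN S' f (vg ((w : ℝ) + s)) (V i) (gD m I ι k s U g w o) (nD i g w o) := by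
  classical
  obtain ⟨Ad, hAd⟩ : ∃ Ad : ℕ × ℚ × ℚ × ℚ → Prop, Ad = fun x => x.2.2.1 ∈ G ∧ x.2.2.2 ∈ G ∧
    x.2.2.1 ≤ x.2.2.2 ∧ x.2.1 + U x.2.2.1 ≤ D x.2.2.1 ∧
    U x.2.2.2 < U x.2.2.1 + min (lam x.1) (1 - ((x.2.2.2 : ℝ) + s)) := ⟨_, rfl⟩
  have ad : ∀ x, Ad x → x.2.2.1 ∈ G ∧ x.2.2.2 ∈ G ∧
    x.2.2.1 ≤ x.2.2.2 ∧ x.2.1 + U x.2.2.1 ≤ D x.2.2.1 ∧
    U x.2.2.2 < U x.2.2.1 + min (lam x.1) (1 - ((x.2.2.2 : ℝ) + s)) := fun x hx => by
    rw [hAd] at hx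
    exact hx
  have hrow : ∀ x : {x : ℕ × ℚ × ℚ × ℚ // Ad x}, ∀ j : ℕ, j ≤ 1 →
      Few S f (vg ((x.1.2.2.1 : ℝ) + s)) (V x.1.1)
        (gP m I ι k j s U x.1.2.1 x.1.2.2.1 x.1.2.2.2)
        (gP m I ι k j s U x.1.2.1 x.1.2.2.1 x.1.2.2.2) := by
    intro x j hj
    obtain ⟨a, b, d, -, e⟩ := ad x.1 x.2
    exact row_gP htm hpos hf (hy x.1.1) H hj a b b d le_rfl le_rfl le_rfl le_rfl e
  have hexs : ∀ x : {x : ℕ × ℚ × ℚ × ℚ // Ad x}, ∀ j : ℕ, j ≤ 1 →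
      Exs S (gP m I ι k j s U x.1.2.1 x.1.2.2.1 x.1.2.2.2) := by
    intro x j hj
    obtain ⟨a, -, -, d, -⟩ := ad x.1 x.2
    exact exs_gP H hj a d
  obtain ⟨S₁, a1, a2, a3⟩ := nn_ext_ct hS hpos (ι := {x : ℕ × ℚ × ℚ × ℚ // Ad x})
    (fun _ => (ℤ × ℤ) × (ℤ × ℤ)) (fun _ => α) (fun _ J F => LnT F) (fun x => β x.1.1)
    (fun _ => f) (fun x => vg ((x.1.2.2.1 : ℝ) + s)) (fun x => V x.1.1)
    (fun x => (gP m I ι k 0 s U x.1.2.1 x.1.2.2.1 x.1.2.2.2).prod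
      (gP m I ι k 1 s U x.1.2.1 x.1.2.2.1 x.1.2.2.2))
    (fun x => (hexs x 0 (by norm_num)).prod (hexs x 1 le_rfl))
    (fun x => Few.prod hpos (hrow x 0 (by norm_num)) (hrow x 1 le_rfl))
  have hpos₁ : ∀ (τ : ℝ) (J : ℕ) (F : Fam m J) (A : F.Ω → Prop), S₁.St τ J F A → 0 < Pe F.p A :=
    fun τ J F A h => hpos τ J F A (a2 τ J F A h)
  obtain ⟨S', b1, b2, b3⟩ := nn_ext_ct a1 hpos₁ (ι := {x : ℕ × ℚ × ℚ × ℚ // Ad x})
    (fun _ => ℤ × ℤ) (fun _ => α) (fun _ J F => LnT F) (fun x => β x.1.1)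
    (fun _ => f) (fun x => vg ((x.1.2.2.1 : ℝ) + s)) (fun x => V x.1.1)
    (fun x => gP m I ι k 1 s U x.1.2.1 x.1.2.2.1 x.1.2.2.2)
    (fun x => (hexs x 1 le_rfl).sub a2) (fun x => (hrow x 1 le_rfl).sub a2)
  choose θ hθ using a3
  choose θ' hθ' using b3
  refine ⟨S', b1, fun τ J F A hA => a2 τ J F A (b2 τ J F A hA),
    fun i g w o => if hx : Ad (i, g, w, o) then θ ⟨(i, g, w, o), hx⟩ else 0,
    fun i g w o => if hx : Ad (i, g, w, o) then θ' ⟨(i, g, w, o), hx⟩ else 0,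
    fun i g w o hw ho hwo hg hcl => ?_⟩
  have hx : Ad (i, g, w, o) := by
    rw [hAd]
    exact ⟨hw, ho, hwo, hg, hcl⟩
  have h3 := (hθ ⟨(i, g, w, o), hx⟩).sub b2
  have h4 := hθ' ⟨(i, g, w, o), hx⟩
  simp only [gX_eq, gD_eq] at h3 h4
  simp only [hx, dif_pos]
  exact ⟨h3, h4⟩

/-- **The numbers have a constant.** -/
theorem numg_gP (hS : S.Ne) (htm : TmC S C₀)
    (hpos : ∀ (τ : ℝ) (J : ℕ) (F : Fam m J) (A : F.Ω → Prop), S.St τ J F A → 0 < Pe F.p A)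
    (H : WinG S I ι k G s U D)
    (hf : ∀ (J : ℕ) (F : Fam m J), ∃ φ : α J F → PtT F, ∀ ω, ptr F J ω = φ (f J F ω))
    (hη : ∀ q ∈ G, ∃ η, RNum S f (vg ((q : ℝ) + s)) η)
    {γ : ∀ J : ℕ, Fam m J → Type} {y : ∀ (J : ℕ) (F : Fam m J), F.Ω → γ J F} {lam : ℝ}
    (hy : Kn I 1 lam y) {nX nD : ℚ → ℚ → ℚ → ℝ}
    (hN : ∀ g w o : ℚ, w ∈ G → o ∈ G → w ≤ o →
        g + U w ≤ D w → U o < U w + min lam (1 - ((o : ℝ) + s)) →
        NN S f (vg ((w : ℝ) + s)) y ((gX m I ι k s U g w o).prod (gD m I ι k s U g w o))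
          (nX g w o) ∧
        NN S f (vg ((w : ℝ) + s)) y (gD m I ι k s U g w o) (nD g w o))
    {A B lam' : ℝ} (hG : ∀ q : ℚ, A < q → (q : ℝ) < B → q ∈ G)
    (hcl : ∀ w o : ℚ, A < w → w ≤ o → (o : ℝ) < B → (o : ℝ) < w + lam' →
      U o < U w + min lam (1 - ((o : ℝ) + s))) :
    NumG U D nX A B lam' (6 * Real.log 2) ∧ NumG U D nD A B lam' (6 * Real.log 2) := by
  have hl2 : 0 < Real.log 2 := Real.log_pos one_lt_two
  have hud := H.ud hG
  have ho : ∀ {w o : ℚ}, A < w → w ≤ o → A < (o : ℝ) := fun {w o} a b => by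
    have : (w : ℝ) ≤ o := by exact_mod_cast b
    linarith
  have hw : ∀ {w o : ℚ}, w ≤ o → (o : ℝ) < B → (w : ℝ) < B := fun {w o} a b => by
    have : (w : ℝ) ≤ o := by exact_mod_cast a
    linarith
  have ex : ∀ (j : ℕ), j ≤ 1 → ∀ g w o : ℚ, A < w → w ≤ o → (o : ℝ) < B → GC U D g w o →
      Exs S (gP m I ι k j s U g w o) := fun j hj g w o a b c hg =>
    exs_gP H hj (hG w a (hw b c)) (GC.first hud a c hg)
  have nn : ∀ g w o : ℚ, A < w → w ≤ o → (o : ℝ) < B → (o : ℝ) < w + lam' → GC U D g w o →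
      NN S f (vg ((w : ℝ) + s)) y ((gX m I ι k s U g w o).prod (gD m I ι k s U g w o))
          (nX g w o) ∧
        NN S f (vg ((w : ℝ) + s)) y (gD m I ι k s U g w o) (nD g w o) :=
    fun g w o a b c d hg => hN g w o (hG w a (hw b c)) (hG o (ho a b) c) b
      (GC.first hud a c hg) (hcl w o a b c d)
  have rw' : ∀ (j : ℕ), j ≤ 1 → ∀ g g' w v o : ℚ, A < w → w ≤ v → v ≤ o → (o : ℝ) < B →
      (o : ℝ) < w + lam' → g ≤ g' → U v + g' ≤ U o + g → U v - v + g' ≤ U o - o + g →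
      Few S f (vg ((w : ℝ) + s)) y (gP m I ι k j s U g w o) (gP m I ι k j s U g' w v) :=
    fun j hj g g' w v o a b c d e h1 h2 h3 => row_gP htm hpos hf hy H hj
      (hG w a (hw (b.trans c) d)) (hG v (ho a b) (hw c d)) (hG o (ho a (b.trans c)) d) b c
      h1 h2 h3 (hcl w o a (b.trans c) d e)
  have dn' : ∀ (j : ℕ), j ≤ 1 → ∀ g g' w o : ℚ, A < w → w ≤ o → (o : ℝ) < B →
      (o : ℝ) < w + lam' → g ≤ g' →
      Few S f (vg ((w : ℝ) + s)) y (gP m I ι k j s U g' w o) (gP m I ι k j s U g w o) :=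
    fun j hj g g' w o a b c d h1 => dn_gP htm hpos hf hy H hj (hG w a (hw b c))
      (hG o (ho a b) c) b h1 (hcl w o a b c d)
  have up' : ∀ (j : ℕ), j ≤ 1 → ∀ g g' w o : ℚ, A < w → w ≤ o → (o : ℝ) < B →
      (o : ℝ) < w + lam' → g ≤ g' → GC U D g' w o → ∃ Q₁ : Qt m (ℤ × ℤ),
      Few S f (vg ((w : ℝ) + s)) y (gP m I ι k j s U g w o) Q₁ ∧
      Dg2 S Q₁ (gP m I ι k j s U g' w o) (((g' : ℝ) - g) * Real.log 2) :=
    fun j hj g g' w o a b c d h1 h2 => up_gP htm hpos hf hy H hj (hG w a (hw b c))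
      (hG o (ho a b) c) b h1 (GC.first hud a c h2) (hcl w o a b c d)
  have ch' : ∀ (j : ℕ), j ≤ 1 → ∀ g w v o : ℚ, A < w → w ≤ v → v ≤ o → (o : ℝ) < B →
      (o : ℝ) < w + lam' → GC U D g w v →
      Few S f (vg ((v : ℝ) + s)) y (gP m I ι k j s U g w o) (gP m I ι k j s U g v o) :=
    fun j hj g w v o a b c d e h1 => chg_gP htm hpos hf hy H hG hj a b c d h1
      (hcl w o a (b.trans c) d e)
  have ow' : ∀ (j : ℕ), j ≤ 1 → ∀ g w v : ℚ, A < w → w ≤ v → (v : ℝ) < B →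
      (v : ℝ) < w + lam' → GC U D g w v →
      Few0 S f (vg ((v : ℝ) + s)) y (gP m I ι k j s U g w v) :=
    fun j hj g w v a b c d h1 => own_gP htm hpos hf hy H hG hj a b c h1 (hcl w v a b c d)
  have hw1 : ∀ q : ℚ, A < q → (q : ℝ) < B → (q : ℝ) + s ≤ 1 := fun q a b =>
    (H.w1 q (hG q a b)).le
  have hηq : ∀ q : ℚ, A < q → (q : ℝ) < B → ∃ η, RNum S f (vg ((q : ℝ) + s)) η :=
    fun q a b => hη q (hG q a b)
  simp only [← gX_eq, ← gD_eq] at nn
  have l0 : (0 : ℕ) ≤ 1 := by norm_num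
  constructor
  · refine numg_of (Q := fun g w o => (gP m I ι k 0 s U g w o).prod (gP m I ι k 1 s U g w o))
      hS hpos hud hw1 hηq (fun g w o a b c d hg => (nn g w o a b c d hg).1)
      (fun g w o a b c d hg => (ex 0 l0 g w o a b c hg).prod (ex 1 le_rfl g w o a b c hg))
      (fun g g' w v o a b c d e h1 h2 h3 => Few.prod hpos (rw' 0 l0 g g' w v o a b c d e h1 h2 h3)
        (rw' 1 le_rfl g g' w v o a b c d e h1 h2 h3))
      (fun g g' w o a b c d h1 => Few.prod hpos (dn' 0 l0 g g' w o a b c d h1)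
        (dn' 1 le_rfl g g' w o a b c d h1))
      (fun g g' w o a b c d h1 h2 => ?_)
      (fun g w v o a b c d e h1 => Few.prod hpos (ch' 0 l0 g w v o a b c d e h1)
        (ch' 1 le_rfl g w v o a b c d e h1))
      (fun g w v a b c d h1 => Few0.pair hpos (ow' 0 l0 g w v a b c d h1)
        (ow' 1 le_rfl g w v a b c d h1))
    obtain ⟨Q₀, k1, k2⟩ := up' 0 l0 g g' w o a b c d h1 h2
    obtain ⟨Q₁, k3, k4⟩ := up' 1 le_rfl g g' w o a b c d h1 h2
    have hgg : (0 : ℝ) ≤ g' - g := by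
      have : (g : ℝ) ≤ g' := by exact_mod_cast h1
      linarith
    refine ⟨Q₀.prod Q₁, Few.prod hpos k1 k3, (Dg2.prod hpos k2 k4).le ?_⟩
    nlinarith [mul_nonneg hgg hl2.le]
  · refine numg_of (Q := fun g w o => gP m I ι k 1 s U g w o)
      hS hpos hud hw1 hηq (fun g w o a b c d hg => (nn g w o a b c d hg).2)
      (fun g w o a b c d hg => ex 1 le_rfl g w o a b c hg)
      (fun g g' w v o a b c d e h1 h2 h3 => rw' 1 le_rfl g g' w v o a b c d e h1 h2 h3)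
      (fun g g' w o a b c d h1 => dn' 1 le_rfl g g' w o a b c d h1)
      (fun g g' w o a b c d h1 h2 => ?_)
      (fun g w v o a b c d e h1 => ch' 1 le_rfl g w v o a b c d e h1)
      (fun g w v a b c d h1 => ow' 1 le_rfl g w v a b c d h1)
    obtain ⟨Q₁, k3, k4⟩ := up' 1 le_rfl g g' w o a b c d h1 h2
    have hgg : (0 : ℝ) ≤ g' - g := by
      have : (g : ℝ) ≤ g' := by exact_mod_cast h1
      linarith
    refine ⟨Q₁, k3, k4.le ?_⟩
    nlinarith [mul_nonneg hgg hl2.le]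

end

/-- **The data of the windows** from the numbers of the class. -/
theorem win_of {S : PCl m} (hS : S.Ne) {C₀ : ℝ} (htm : TmC S C₀)
    {L : Finset (Fin m) → Fin m → ℝ → ℝ → ℝ} (hL : LamW S L) {y u v : Fin m} {c : ℕ → Fin m}
    (hc0 : c 0 = y) (hc1 : c 1 = u) {G : Set ℚ} {s : ℝ}
    (h01 : ∀ q ∈ G, 0 < (q : ℝ) + s ∧ (q : ℝ) + s < 1)
    (hU : ∀ q ∈ G, L {y} u ((q : ℝ) + s) ((q : ℝ) + s) < 1)
    (hD : ∀ q ∈ G, L {y, u} v ((q : ℝ) + s) ((q : ℝ) + s) < 1)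
    (hch : ∀ q ∈ G, Chn S c 1 2 ((q : ℝ) + s) ((q : ℝ) + s)
      (L {y} u ((q : ℝ) + s) ((q : ℝ) + s))
      (fun i => if i = 0 then (q : ℝ) + s else L {y} u ((q : ℝ) + s) ((q : ℝ) + s))
      (fun _ => (q : ℝ) + s))
    (hatt : ∀ q ∈ G, ∀ j ≤ 1, AttQ S {y} u v j ((q : ℝ) + s)
      (L {y, u} v ((q : ℝ) + s) ((q : ℝ) + s))) :
    WinG S {y} u v G s (fun q => L {y} u ((q : ℝ) + s) ((q : ℝ) + s))
      (fun q => L {y, u} v ((q : ℝ) + s) ((q : ℝ) + s)) := by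
  have hgr : ∀ (I : Finset (Fin m)) (k : Fin m) (w w' : ℝ), 0 < w → w < 1 → w ≤ w' →
      L I k w' w' < 1 → L I k w w + (w' - w) ≤ L I k w' w' := by
    intro I k w w' a b c d
    have h1 := num_grow_min hS htm hL (I := I) (k := k) (w := w) (w' := w') (r := w) a c b
    have h2 := hL.mono I I k w' w' w w' (Finset.Subset.refl _) le_rfl c
    rcases le_total (L I k w w + (w' - w)) 1 with h3 | h3
    · rw [min_eq_right h3] at h1
      exact h1.trans h2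
    · rw [min_eq_left h3] at h1
      linarith
  have himg : (range 1).image c = {y} := by
    rw [Finset.range_one, Finset.image_singleton, hc0]
  refine ⟨fun q hq => (h01 q hq).1, fun q hq => (h01 q hq).2, fun q hq => ⟨?_, (hU q hq).le⟩,
    fun q hq => ⟨?_, (hD q hq).le⟩, fun q hq q' hq' hqq => ?_, fun q hq q' hq' hqq => ?_,
    fun q hq => ⟨(q : ℝ) + s, (h01 q hq).1.le, ?_⟩, hatt, fun q hq x hx hx1 => ?_,
    fun q hq w₁ w₂ p₁ p₂ h1 h2 => ?_⟩
  · exact (h01 q hq).1.le.trans (hL.low _ _ _ _ (h01 q hq).2.le)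
  · exact (h01 q hq).1.le.trans (hL.low _ _ _ _ (h01 q hq).2.le)
  · have hqq' : (q : ℝ) ≤ q' := by exact_mod_cast hqq
    have := hgr {y} u ((q : ℝ) + s) ((q' : ℝ) + s) (h01 q hq).1 (h01 q hq).2 (by linarith)
      (hU q' hq')
    show L {y} u ((q : ℝ) + s) ((q : ℝ) + s) + (q' - q) ≤ L {y} u ((q' : ℝ) + s) ((q' : ℝ) + s)
    linarith
  · have hqq' : (q : ℝ) ≤ q' := by exact_mod_cast hqq
    have := hgr {y, u} v ((q : ℝ) + s) ((q' : ℝ) + s) (h01 q hq).1 (h01 q hq).2 (by linarith)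
      (hD q' hq')
    show L {y, u} v ((q : ℝ) + s) ((q : ℝ) + s) + (q' - q) ≤
      L {y, u} v ((q' : ℝ) + s) ((q' : ℝ) + s)
    linarith
  · have h1 := (hch q hq).att 1 le_rfl (by norm_num)
    rw [himg, hc1] at h1
    simp only [one_ne_zero, if_false] at h1
    exact h1
  · have h1 := (hch q hq).base x hx hx1
    rw [himg] at h1
    exact h1
  · have h3 := slo_af htm (hch q hq) (n := 1) le_rfl v (p₁ := p₁) (p₂ := p₂) h1 h2
    rw [himg, hc1] at h3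
    simp only [one_ne_zero, if_false] at h3
    exact h3

/-- **The pair of coordinates `u`, `v` over the active coordinate `y`**: the data of the windows
hold outside a countable set. -/
theorem win_pair (hF : FZX 2) {S : PCl m} (hS : S.Ne) {C₀ : ℝ} (hC : 0 ≤ C₀) (htm : TmC S C₀)
    {L : Finset (Fin m) → Fin m → ℝ → ℝ → ℝ} (hL : LamW S L) {N : ℚ → ℚ → ℝ} {al : ℝ}
    (hal : 0 < al) {g₀ : ℝ → ℝ} (hg₀ : ∀ ε : ℝ, 0 < ε → 0 < g₀ ε) (hN : ActM N al g₀)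
    {y u : Fin m} (hyu : y ≠ u) (hact : ActB N S y) (v : Fin m) :
    ∃ B : Set ℝ, B.Countable ∧ ∀ (G : Set ℚ) (s : ℝ), (∀ q ∈ G, 0 < (q : ℝ) + s ∧
      (q : ℝ) + s < 1 ∧ (q : ℝ) + s ∉ B ∧ L {y} u ((q : ℝ) + s) ((q : ℝ) + s) < 1 ∧
      L {y, u} v ((q : ℝ) + s) ((q : ℝ) + s) < 1 ∧ ∀ j ≤ 1, AttQ S {y} u v j ((q : ℝ) + s)
      (L {y, u} v ((q : ℝ) + s) ((q : ℝ) + s))) →
      WinG S {y} u v G s (fun q => L {y} u ((q : ℝ) + s) ((q : ℝ) + s))
        (fun q => L {y, u} v ((q : ℝ) + s) ((q : ℝ) + s)) := by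
  obtain ⟨c, hc0, hc1⟩ : ∃ c : ℕ → Fin m, c 0 = y ∧ c 1 = u :=
    ⟨fun i => if i = 0 then y else u, by simp, by simp⟩
  obtain ⟨B, hB, h⟩ := chn_pair hF hS hC htm hL hal hg₀ hN hyu hact hc0 hc1
  exact ⟨B, hB, fun G s hG => win_of hS htm hL hc0 hc1
    (fun q hq => ⟨(hG q hq).1, (hG q hq).2.1⟩) (fun q hq => (hG q hq).2.2.2.1)
    (fun q hq => (hG q hq).2.2.2.2.1)
    (fun q hq => h _ (hG q hq).1 (hG q hq).2.1 (hG q hq).2.2.1 (hG q hq).2.2.2.1)
    (fun q hq => (hG q hq).2.2.2.2.2)⟩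

end Pool.LA91
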