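import Pool.Agent.H91.LA.Aff
import Pool.Agent.H91.LA.Nbxc

/-!
# Natural slopes from labels

`RL I ι k w p`: the slopes of the labels of `k` over `I` and `ι` at the window `w`, of precision
`p`, which are affine in `ι`. `slo_af`: the slopes of two such labels differ by
`2 ^ (-(min p₁ p₂ - s) J)`, where `s` is the precision of the chart of `ι` at the later window.
`SloN.trans`, `slo_chain`: chains of windows. `qA`, `pair_few`: the jets over the labels which are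
affine in `ι`, together with the jets of `ι`, at real windows.
-/

set_option autoImplicit false

namespace Pool.LA91

open Finset Real MvPolynomial
open Pool.Agent.H49.Ent Pool.Agent.H32.Dense Pool.STK Pool.KA Pool.KSAT Pool.K2S Pool.PB Pool.GEN
open Pool.S6C Pool.RCD
open Pool.GRD (LbP Pb_mono_pos)
open Pool.UNJ (ceI Tub)
open Pool.BFL (Pb)

variable {m : ℕ}

/-- A polynomial of degree at most one is affine in every coordinate. -/
theorem afi_deg (ι : Fin m) {G : MvPolynomial (Option (Fin m)) ℝ} (hG : G.totalDegree ≤ 1) :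
    AfI ι (coeff (Finsupp.single (some ι) 1) G) G := by
  classical
  intro b s
  have key : ∀ d ∈ G.support, (coeff d G * d.prod fun i k => Function.update b (some ι) s i ^ k) =
      (coeff d G * d.prod fun i k => b i ^ k) +
        if d = Finsupp.single (some ι) 1 then coeff d G * (s - b (some ι)) else 0 := by
    intro d hd
    have h1 : (d.sum fun _ e => e) ≤ 1 := (le_totalDegree hd).trans hG
    by_cases h2 : d (some ι) = 0
    · rw [if_neg (by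
        rintro rfl
        rw [Finsupp.single_eq_same] at h2
        exact one_ne_zero h2), add_zero]
      congr 1
      refine Finsupp.prod_congr fun i hi => ?_
      rw [Function.update_of_ne]
      rintro rfl
      exact (Finsupp.mem_support_iff.1 hi) h2
    · have h3 : d = Finsupp.single (some ι) 1 := by
        have h4 : (d.sum fun _ e => e) = ∑ i, d i := by
          rw [Finsupp.sum_fintype]
          intro i
          rfl
        rw [h4] at h1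
        have h5 : ∀ i, i ≠ some ι → d i = 0 := by
          intro i hi
          have h6 : d i + d (some ι) ≤ ∑ i, d i := by
            have h7 := Finset.sum_le_sum_of_subset (f := fun i => d i)
              (Finset.subset_univ ({i, some ι} : Finset (Option (Fin m))))
            rw [Finset.sum_pair hi] at h7
            exact h7
          omega
        have h8 : d (some ι) = 1 := by
          have h9 := Finset.single_le_sum (f := fun i => d i) (fun _ _ => Nat.zero_le _)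
            (Finset.mem_univ (some ι))
          have h10 : d (some ι) ≤ ∑ i, d i := h9
          omega
        ext i
        by_cases hi : i = some ι
        · rw [hi, h8, Finsupp.single_eq_same]
        · rw [h5 i hi, Finsupp.single_eq_of_ne hi]
      rw [if_pos h3, h3, Finsupp.prod_single_index (by rw [pow_zero]),
        Finsupp.prod_single_index (by rw [pow_zero]), Function.update_self, pow_one, pow_one]
      ring
  rw [eval_eq, eval_eq]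
  have h1 : ∀ (x : Option (Fin m) → ℝ) (d : Option (Fin m) →₀ ℕ),
      (∏ i ∈ d.support, x i ^ d i) = d.prod fun i k => x i ^ k := fun x d => rfl
  simp only [h1]
  rw [Finset.sum_congr rfl key, Finset.sum_add_distrib]
  congr 1
  rw [Finset.sum_ite_eq']
  split_ifs with h2
  · rfl
  · rw [notMem_support_iff.1 h2, zero_mul]

/-! ### The slopes of the labels -/

/-- **The slopes** of the labels of `k` over `I` and `ι` at the window `w`, of precision `p`,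
which are affine in `ι`. -/
noncomputable def RL (m : ℕ) (I : Finset (Fin m)) (ι k : Fin m) (w p : ℝ) : SRel m where
  P K e J F A c := ∃ (V : Type) (z : PtT F → V) (z' : LnT F → V)
    (G : V → MvPolynomial (Option (Fin m)) ℝ) (c' : V → ℝ),
    LbP F (insert ι I) k K J ⌊w * J⌋₊ ⌊(p - e) * J⌋₊ A z z' G ∧ (∀ x, AfI ι (c' x) (G x)) ∧
      ∀ ω, A ω → c ω = c' (z' (slam F ⌊w * J⌋₊ ω))
  sub := by
    rintro K e J F A B c hB ⟨V, z, z', G, c', hl, ha, hc⟩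
    exact ⟨V, z, z', G, c', hl.sub hB, ha, fun ω hω => hc ω (hB ω hω)⟩
  mono := by
    rintro K K' e e' J F A c hK he ⟨V, z, z', G, c', hl, ha, hc⟩
    exact ⟨V, z, z', G, c', hl.mono (Finset.Subset.refl _) hK (Nat.floor_le_floor
      (mul_le_mul_of_nonneg_right (by linarith) (Nat.cast_nonneg J))), ha, hc⟩

/-- A smaller precision. -/
theorem RL.le {I : Finset (Fin m)} {ι k : Fin m} {w p p' : ℝ} (hp : p' ≤ p) {K : ℕ} {e : ℝ}
    {J : ℕ} {F : Fam m J} {A : F.Ω → Prop} {c : F.Ω → ℝ} (h : (RL m I ι k w p).P K e J F A c) :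
    (RL m I ι k w p').P K e J F A c := by
  obtain ⟨V, z, z', G, c', hl, ha, hc⟩ := h
  exact ⟨V, z, z', G, c', hl.mono (Finset.Subset.refl _) le_rfl (Nat.floor_le_floor
    (mul_le_mul_of_nonneg_right (by linarith) (Nat.cast_nonneg J))), ha, hc⟩

theorem SloN.incl {S : PCl m} {R₁ R₂ R₁' R₂' : SRel m} {Δ : ℝ} (h : SloN S R₁ R₂ Δ)
    (h₁ : ∀ (K : ℕ) (e : ℝ) (J : ℕ) (F : Fam m J) (A : F.Ω → Prop) (c : F.Ω → ℝ),
      R₁'.P K e J F A c → R₁.P K e J F A c)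
    (h₂ : ∀ (K : ℕ) (e : ℝ) (J : ℕ) (F : Fam m J) (A : F.Ω → Prop) (c : F.Ω → ℝ),
      R₂'.P K e J F A c → R₂.P K e J F A c) : SloN S R₁' R₂' Δ := by
  intro ε hε
  obtain ⟨e₁, he₁, H⟩ := h ε hε
  exact ⟨e₁, he₁, fun K η hη => Bas.mono 0 (H K η hη) fun J _ F A H c₁ c₂ g₁ g₂ =>
    H c₁ c₂ (h₁ _ _ _ _ _ _ g₁) (h₂ _ _ _ _ _ _ g₂)⟩

theorem SloN.le {S : PCl m} {C₀ : ℝ} (htm : TmC S C₀) {R₁ R₂ : SRel m} {Δ Δ' : ℝ}
    (h : SloN S R₁ R₂ Δ) (hΔ : Δ' ≤ Δ) : SloN S R₁ R₂ Δ' := by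
  intro ε hε
  obtain ⟨e₁, he₁, H⟩ := h ε hε
  refine ⟨e₁, he₁, fun K η hη => Bas.mono 0 ((H K η hη).and (Pool.GRW.tmc_bas htm one_pos)) ?_⟩
  rintro J - F A ⟨H, hA, -⟩ c₁ c₂ g₁ g₂
  refine le_trans (Pb_mono_pos (isLaw_cond F.isLaw hA).nonneg fun ω _ hω hle => ?_) (H c₁ c₂ g₁ g₂)
  refine hω (hle.trans (Real.rpow_le_rpow_of_exponent_le (by norm_num) ?_))
  have : (Δ' - ε) * J ≤ (Δ - ε) * J :=
    mul_le_mul_of_nonneg_right (by linarith) (Nat.cast_nonneg J)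
  linarith

/-- The relation is attained. -/
def SRel.Ex (S : PCl m) (R : SRel m) : Prop :=
  ∀ e : ℝ, 0 < e → ∃ K : ℕ, Bas S (fun J F A => ∃ c : F.Ω → ℝ, R.P K e J F A c)

/-- **Three slopes.** -/
theorem SloN.trans {S : PCl m} {C₀ : ℝ} (htm : TmC S C₀) {R₁ R₂ R₃ : SRel m} {Δ : ℝ}
    (h₁ : SloN S R₁ R₂ Δ) (h₂ : SloN S R₂ R₃ Δ) (x : SRel.Ex S R₂) : SloN S R₁ R₃ Δ := by
  intro ε hε
  obtain ⟨e₁, he₁, H₁⟩ := h₁ (ε / 2) (half_pos hε)
  obtain ⟨e₂, he₂, H₂⟩ := h₂ (ε / 2) (half_pos hε)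
  obtain ⟨K₀, hK₀⟩ := x (min e₁ e₂) (lt_min he₁ he₂)
  refine ⟨min e₁ e₂, lt_min he₁ he₂, fun K η hη => ?_⟩
  have hl2 : 0 < Real.log 2 := Real.log_pos one_lt_two
  obtain ⟨J₁, hJ₁⟩ := exists_nat_ge (1 / (ε / 2))
  refine Bas.mono J₁ (((H₁ (max K K₀) (η / 2) (half_pos hη)).and
    (H₂ (max K K₀) (η / 2) (half_pos hη))).and (hK₀.and (Pool.GRW.tmc_bas htm one_pos))) ?_
  rintro J hJ F A ⟨⟨H₁, H₂⟩, ⟨c, hc⟩, hA, -⟩ c₁ c₃ g₁ g₃
  have hJ0 : (0 : ℝ) ≤ J := Nat.cast_nonneg J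
  have hJ1 : (J₁ : ℝ) ≤ J := by exact_mod_cast hJ
  have f1 : 1 ≤ ε / 2 * J := by
    have : 1 / (ε / 2) ≤ J := hJ₁.trans hJ1
    rw [div_le_iff₀ (by positivity)] at this
    linarith
  have a1 := H₁ c₁ c (R₁.mono (le_max_left _ _) (min_le_left _ _) g₁)
    (R₂.mono (le_max_right _ _) (min_le_left _ _) hc)
  have a2 := H₂ c c₃ (R₂.mono (le_max_right _ _) (min_le_right _ _) hc)
    (R₃.mono (le_max_left _ _) (min_le_right _ _) g₃)
  have hq := isLaw_cond F.isLaw hA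
  have a3 := Pb_or_le hq (fun ω => ¬ |c₁ ω - c ω| ≤ 2 ^ (-((Δ - ε / 2) * J)))
    (fun ω => ¬ |c ω - c₃ ω| ≤ 2 ^ (-((Δ - ε / 2) * J)))
  refine le_trans (Pb_mono_pos hq.nonneg fun ω _ hω => ?_) (a3.trans (by linarith))
  by_contra hno
  rw [not_or, not_not, not_not] at hno
  refine hω ?_
  have b1 := abs_sub_le (c₁ ω) (c ω) (c₃ ω)
  have b2 : (2 : ℝ) * 2 ^ (-((Δ - ε / 2) * J)) ≤ 2 ^ (-((Δ - ε) * J)) := by
    have e1 : (2 : ℝ) * 2 ^ (-((Δ - ε / 2) * J)) = 2 ^ (1 + -((Δ - ε / 2) * J)) := by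
      rw [Real.rpow_add (by norm_num), Real.rpow_one]
    rw [e1]
    refine Real.rpow_le_rpow_of_exponent_le (by norm_num) ?_
    have e2 : -((Δ - ε / 2) * J) = -((Δ - ε) * J) - ε / 2 * J := by ring
    rw [e2]
    linarith
  linarith [hno.1, hno.2]

/-- **The slopes of two labels**: the last coordinate of a chain at the window `w`. -/
theorem slo_af {S : PCl m} {C₀ : ℝ} (htm : TmC S C₀) {c : ℕ → Fin m} {r₀ n : ℕ}
    {w u₀ u₁ : ℝ} {s rd : ℕ → ℝ} (hch : Chn S c r₀ (n + 1) w u₀ u₁ s rd) (hn : r₀ ≤ n)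
    (k : Fin m) {w₁ w₂ p₁ p₂ : ℝ} (hw₁ : w₁ ≤ w) (hw₂ : w₂ ≤ w) :
    SloN S (RL m ((range n).image c) (c n) k w₁ p₁) (RL m ((range n).image c) (c n) k w₂ p₂)
      (min p₁ p₂ - s n) := by
  classical
  intro ε hε
  refine ⟨ε / 4, by linarith, fun K η hη => ?_⟩
  have hu0 := hch.u0
  obtain ⟨u₂, hu₂⟩ : ∃ u₂ : ℝ, u₂ = (u₀ + 1) / 2 := ⟨_, rfl⟩
  obtain ⟨Kf, d, hd, hB⟩ := nbx_cls htm hch (u₂ := u₂) (by rw [hu₂]; linarith)
    (by rw [hu₂]; linarith) K (ε := ε / 4) (δ := ε / 4) (by linarith) (by linarith)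
  obtain ⟨hd0, hd1⟩ := hd n hn (Nat.lt_succ_self n)
  obtain ⟨J₁, hJ₁⟩ := exists_nat_ge (3 / (ε / 4))
  refine Bas.mono J₁ ((hB (min η 1) (lt_min hη one_pos) (min_le_right _ _)).and
    (Pool.GRW.tmc_bas htm one_pos)) ?_
  rintro J hJ F A ⟨⟨V, z, z', g, hg, -, hgc, hbox⟩, hA, -⟩ c₁ c₂ ⟨V₁, z₁, z₁', G₁, c₁', hl₁, ha₁,
    hc₁⟩ ⟨V₂, z₂, z₂', G₂, c₂', hl₂, ha₂, hc₂⟩
  have hJ0 : (0 : ℝ) ≤ J := Nat.cast_nonneg J
  have hJ1 : (J₁ : ℝ) ≤ J := by exact_mod_cast hJ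
  have f1 : 3 ≤ ε / 4 * J := by
    have : 3 / (ε / 4) ≤ J := hJ₁.trans hJ1
    rw [div_le_iff₀ (by positivity)] at this
    linarith
  have hq := isLaw_cond F.isLaw hA
  have hw1 : w ≤ 1 := by linarith [hch.wu0, hch.u0]
  have hwJ : ⌊w * J⌋₊ ≤ J := floor_le hw1 J
  have hw1J : ⌊w₁ * J⌋₊ ≤ ⌊w * J⌋₊ := Nat.floor_le_floor (mul_le_mul_of_nonneg_right hw₁ hJ0)
  have hw2J : ⌊w₂ * J⌋₊ ≤ ⌊w * J⌋₊ := Nat.floor_le_floor (mul_le_mul_of_nonneg_right hw₂ hJ0)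
  have hins : insert (c n) ((range n).image c) = (range (n + 1)).image c := by
    rw [Finset.range_add_one, Finset.image_insert]
  have hl₁' := hl₁.win hw1J hwJ
  have hl₂' := hl₂.win hw2J hwJ
  obtain ⟨y₁, hy₁⟩ : ∃ y₁ : LnT F → V₁, y₁ = fun s =>
    z₁' (s.1, s.2.1, s.2.2 / 2 ^ (⌊w * J⌋₊ - ⌊w₁ * J⌋₊)) := ⟨_, rfl⟩
  obtain ⟨y₂, hy₂⟩ : ∃ y₂ : LnT F → V₂, y₂ = fun s =>
    z₂' (s.1, s.2.1, s.2.2 / 2 ^ (⌊w * J⌋₊ - ⌊w₂ * J⌋₊)) := ⟨_, rfl⟩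
  rw [← hy₁, hins] at hl₁'
  rw [← hy₂, hins] at hl₂'
  have g1 : ∀ ω, y₁ (slam F ⌊w * J⌋₊ ω) = z₁' (slam F ⌊w₁ * J⌋₊ ω) := fun ω => by
    rw [hy₁]
    show z₁' ((slam F ⌊w * J⌋₊ ω).1, (slam F ⌊w * J⌋₊ ω).2.1,
      (slam F ⌊w * J⌋₊ ω).2.2 / 2 ^ (⌊w * J⌋₊ - ⌊w₁ * J⌋₊)) = _
    rw [← slam_coarse F hw1J hwJ ω]
  have g2 : ∀ ω, y₂ (slam F ⌊w * J⌋₊ ω) = z₂' (slam F ⌊w₂ * J⌋₊ ω) := fun ω => by
    rw [hy₂]
    show z₂' ((slam F ⌊w * J⌋₊ ω).1, (slam F ⌊w * J⌋₊ ω).2.1,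
      (slam F ⌊w * J⌋₊ ω).2.2 / 2 ^ (⌊w * J⌋₊ - ⌊w₂ * J⌋₊)) = _
    rw [← slam_coarse F hw2J hwJ ω]
  have hb := hbox (n + 1) hch.hr le_rfl k K ⌊(p₁ - ε / 4) * J⌋₊ ⌊(p₂ - ε / 4) * J⌋₊ V₁ V₂ z₁ y₁ G₁
    z₂ y₂ G₂ (le_max_left _ _) hl₁' hl₂'
  refine le_trans (Pb_mono_pos hq.nonneg fun ω hωp hω => ?_) (hb.trans (min_le_left _ _))
  intro hall
  have hAω := of_cond_pos hωp
  refine hω ?_
  obtain ⟨δn, hδn⟩ : ∃ δ : ℝ, δ = 2 / 2 ^ ⌊(s n - d n) * J⌋₊ := ⟨_, rfl⟩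
  have hδ0 : 0 < δn := by rw [hδn]; positivity
  obtain ⟨γ, hγ⟩ : ∃ γ : ℝ, γ = eval (bt F ω) (g (z' (slam F ⌊w * J⌋₊ ω)) n) := ⟨_, rfl⟩
  -- the two points
  have hpt : ∀ σ : ℝ, |σ| ≤ δn → NB F c r₀ (n + 1) ⌊u₂ * J⌋₊
      (fun i => 2 / 2 ^ ⌊(s i - d i) * J⌋₊) (g (z' (slam F ⌊w * J⌋₊ ω))) ω
      (Function.update (bt F ω) (some (c n)) (γ + σ)) := by
    intro σ hσ
    have hne : ∀ i < n, (some (c i) : Option (Fin m)) ≠ some (c n) := by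
      intro i hi h
      have h1 := hch.inj (show i < n + 1 by omega) (show n < n + 1 by omega)
        (Option.some_injective _ h)
      omega
    have hev : ∀ i, r₀ ≤ i → i ≤ n → eval (Function.update (bt F ω) (some (c n)) (γ + σ))
        (g (z' (slam F ⌊w * J⌋₊ ω)) i) = eval (bt F ω) (g (z' (slam F ⌊w * J⌋₊ ω)) i) := by
      intro i h1 h2
      refine (hg i h1 (by omega)).dep _ _ _ (by rw [Function.update_of_ne (by simp)]) ?_
      intro l hl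
      obtain ⟨l', hl', rfl⟩ := Finset.mem_image.1 hl
      have hl'' := Finset.mem_range.1 hl'
      rw [Function.update_of_ne (hne l' (by omega))]
    refine ⟨?_, fun l hl => ?_, fun i h1 h2 => ?_⟩
    · rw [Function.update_of_ne (by simp)]
      have : bt F ω none = F.t ω := rfl
      rw [this, sub_self, abs_zero]
      positivity
    · rw [Function.update_of_ne (hne l (by omega))]
      have h4 := Pool.GRW.xr_near F ω (some (c l))
      rw [abs_sub_comm] at h4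
      refine h4.trans (inv_mono ?_)
      exact floor_le (by rw [hu₂]; linarith) J
    · rw [hev i h1 (by omega)]
      rcases Nat.lt_or_ge i n with h3 | h3
      · rw [Function.update_of_ne (hne i h3)]
        have h4 := (hg i h1 (by omega)).pos ω hAω
        have h5 : bt F ω (some (c i)) = F.x ω (c i) := rfl
        rw [h5]
        refine h4.trans ?_
        exact div_le_div_of_nonneg_right (by norm_num) (by positivity)
      · have h4 : i = n := by omega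
        subst h4
        rw [Function.update_self, ← hγ, add_sub_cancel_left]
        exact hσ.trans (le_of_eq hδn)
  have k1 := hall _ (hpt δn (by rw [abs_of_pos hδ0]))
  have k2 := hall _ (hpt 0 (by rw [abs_zero]; exact hδ0.le))
  rw [map_sub, ha₁ _ (bt F ω) (γ + δn), ha₂ _ (bt F ω) (γ + δn)] at k1
  rw [map_sub, ha₁ _ (bt F ω) (γ + 0), ha₂ _ (bt F ω) (γ + 0)] at k2
  rw [hc₁ ω hAω, hc₂ ω hAω, ← g1 ω, ← g2 ω]
  obtain ⟨a, hadef⟩ : ∃ a, a = c₁' (y₁ (slam F ⌊w * J⌋₊ ω)) := ⟨_, rfl⟩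
  obtain ⟨a', hadef'⟩ : ∃ a, a = c₂' (y₂ (slam F ⌊w * J⌋₊ ω)) := ⟨_, rfl⟩
  obtain ⟨v, hv⟩ : ∃ a, a = eval (bt F ω) (G₁ (y₁ (slam F ⌊w * J⌋₊ ω))) := ⟨_, rfl⟩
  obtain ⟨v', hv'⟩ : ∃ a, a = eval (bt F ω) (G₂ (y₂ (slam F ⌊w * J⌋₊ ω))) := ⟨_, rfl⟩
  rw [← hadef, ← hadef', ← hv, ← hv'] at k1 k2
  rw [← hadef, ← hadef']
  obtain ⟨Q, hQ⟩ : ∃ Q : ℝ, Q = 2 ^ (ε / 4 * J) * (1 / 2 ^ ⌊(p₁ - ε / 4) * J⌋₊ +
    1 / 2 ^ ⌊(p₂ - ε / 4) * J⌋₊) := ⟨_, rfl⟩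
  rw [← hQ] at k1 k2
  have k3 : |(a - a') * δn| ≤ 2 * Q := by
    have e1 : (a - a') * δn = (v + a * (γ + δn - bt F ω (some (c n))) -
        (v' + a' * (γ + δn - bt F ω (some (c n))))) - (v + a * (γ + 0 - bt F ω (some (c n))) -
        (v' + a' * (γ + 0 - bt F ω (some (c n))))) := by ring
    rw [e1]
    exact (abs_sub _ _).trans (by linarith)
  rw [abs_mul, abs_of_pos hδ0] at k3
  -- the exponents
  have hQ1 : Q ≤ 4 * 2 ^ ((ε / 2 - min p₁ p₂) * J) := by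
    have e1 : 1 / (2 : ℝ) ^ ⌊(p₁ - ε / 4) * J⌋₊ ≤ 2 * 2 ^ (-((min p₁ p₂ - ε / 4) * J)) := by
      refine (ip2_le _).trans (mul_le_mul_of_nonneg_left ?_ (by norm_num))
      refine Real.rpow_le_rpow_of_exponent_le (by norm_num) ?_
      have : (min p₁ p₂ - ε / 4) * J ≤ (p₁ - ε / 4) * J :=
        mul_le_mul_of_nonneg_right (by linarith [min_le_left p₁ p₂]) hJ0
      linarith
    have e2 : 1 / (2 : ℝ) ^ ⌊(p₂ - ε / 4) * J⌋₊ ≤ 2 * 2 ^ (-((min p₁ p₂ - ε / 4) * J)) := by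
      refine (ip2_le _).trans (mul_le_mul_of_nonneg_left ?_ (by norm_num))
      refine Real.rpow_le_rpow_of_exponent_le (by norm_num) ?_
      have : (min p₁ p₂ - ε / 4) * J ≤ (p₂ - ε / 4) * J :=
        mul_le_mul_of_nonneg_right (by linarith [min_le_right p₁ p₂]) hJ0
      linarith
    have e3 : (0 : ℝ) < 2 ^ (ε / 4 * J) := Real.rpow_pos_of_pos (by norm_num) _
    rw [hQ]
    calc (2 : ℝ) ^ (ε / 4 * J) * (1 / 2 ^ ⌊(p₁ - ε / 4) * J⌋₊ + 1 / 2 ^ ⌊(p₂ - ε / 4) * J⌋₊)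
        ≤ 2 ^ (ε / 4 * J) * (4 * 2 ^ (-((min p₁ p₂ - ε / 4) * J))) :=
          mul_le_mul_of_nonneg_left (by linarith) e3.le
      _ = 4 * 2 ^ (ε / 4 * J + -((min p₁ p₂ - ε / 4) * J)) := by
          rw [Real.rpow_add (by norm_num)]
          ring
      _ = 4 * 2 ^ ((ε / 2 - min p₁ p₂) * J) := by
          congr 2
          ring
  have hδ1 : 2 * 2 ^ (-(s n * J)) ≤ δn := by
    have hs0 := (hch.s0 n hn (Nat.lt_succ_self n)).1
    have e1 : (2 : ℝ) ^ ⌊(s n - d n) * J⌋₊ ≤ 2 ^ (s n * J) := by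
      rcases le_or_gt 0 (s n - d n) with h1 | h1
      · refine (p2_le (mul_nonneg h1 hJ0)).trans ?_
        refine Real.rpow_le_rpow_of_exponent_le (by norm_num) ?_
        exact mul_le_mul_of_nonneg_right (by linarith) hJ0
      · rw [Nat.floor_of_nonpos (mul_nonpos_of_nonpos_of_nonneg h1.le hJ0), pow_zero]
        exact Real.one_le_rpow (by norm_num) (mul_nonneg hs0 hJ0)
    rw [hδn, Real.rpow_neg (by norm_num), div_eq_mul_inv]
    exact mul_le_mul_of_nonneg_left (inv_anti₀ (by positivity) e1) (by norm_num)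
  have b0 : (0 : ℝ) < 2 ^ (-(s n * J)) := Real.rpow_pos_of_pos (by norm_num) _
  have k4 : |a - a'| * (2 * 2 ^ (-(s n * J))) ≤ 2 * (4 * 2 ^ ((ε / 2 - min p₁ p₂) * J)) :=
    (mul_le_mul_of_nonneg_left hδ1 (abs_nonneg _)).trans (k3.trans (by linarith))
  have k5 : |a - a'| ≤ 4 * (2 ^ ((ε / 2 - min p₁ p₂) * J) * 2 ^ (s n * J)) := by
    have e1 : (2 : ℝ) ^ (-(s n * J)) * 2 ^ (s n * J) = 1 := by
      rw [← Real.rpow_add (by norm_num), neg_add_cancel, Real.rpow_zero]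
    have e2 : (0 : ℝ) < 2 ^ (s n * J) := Real.rpow_pos_of_pos (by norm_num) _
    have e3 := mul_le_mul_of_nonneg_right k4 e2.le
    have e4 : |a - a'| * (2 * 2 ^ (-(s n * J))) * 2 ^ (s n * J) = 2 * |a - a'| := by
      rw [mul_assoc, mul_assoc, e1]
      ring
    rw [e4] at e3
    linarith
  refine k5.trans ?_
  have e5 : (4 : ℝ) ≤ 2 ^ (ε / 4 * J) := by
    calc (4 : ℝ) = 2 ^ (2 : ℝ) := by norm_num
      _ ≤ 2 ^ (ε / 4 * J) := Real.rpow_le_rpow_of_exponent_le (by norm_num) (by linarith)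
  have e6 : (0 : ℝ) ≤ 2 ^ ((ε / 2 - min p₁ p₂) * J) * 2 ^ (s n * J) := by positivity
  calc 4 * ((2 : ℝ) ^ ((ε / 2 - min p₁ p₂) * J) * 2 ^ (s n * J))
      ≤ 2 ^ (ε / 4 * J) * (2 ^ ((ε / 2 - min p₁ p₂) * J) * 2 ^ (s n * J)) :=
        mul_le_mul_of_nonneg_right e5 e6
    _ = 2 ^ (ε / 4 * J + ((ε / 2 - min p₁ p₂) * J + s n * J)) := by
        rw [Real.rpow_add (by norm_num), Real.rpow_add (by norm_num)]
    _ ≤ 2 ^ (-((min p₁ p₂ - s n - ε) * J)) := by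
        refine Real.rpow_le_rpow_of_exponent_le (by norm_num) ?_
        have h1 : ε / 4 * J + ((ε / 2 - min p₁ p₂) * J + s n * J) =
            -((min p₁ p₂ - s n - 3 / 4 * ε) * J) := by ring
        rw [h1]
        have h2 : (min p₁ p₂ - s n - ε) * J ≤ (min p₁ p₂ - s n - 3 / 4 * ε) * J :=
          mul_le_mul_of_nonneg_right (by linarith) hJ0
        linarith

/-- **A chain of windows**: natural slopes from labels at intermediate windows. -/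
theorem slo_chain {S : PCl m} {C₀ : ℝ} (htm : TmC S C₀) {c : ℕ → Fin m} {r₀ n : ℕ} (hn : r₀ ≤ n)
    (k : Fin m) {x u₀ u₁ D : ℕ → ℝ} {s rd : ℕ → ℕ → ℝ} {g : ℝ} (N : ℕ)
    (hx : ∀ i < N, x i ≤ x (i + 1))
    (hch : ∀ i ≤ N, Chn S c r₀ (n + 1) (x i) (u₀ i) (u₁ i) (s i) (rd i))
    (hD : ∀ i < N, SRel.Ex S (RL m ((range n).image c) (c n) k (x i) (D i)))
    (h1 : ∀ i < N, s (i + 1) n + g ≤ D i) (h2 : ∀ i < N, s i n ≤ s (i + 1) n) :
    SloN S (RL m ((range n).image c) (c n) k (x 0) (s 0 n + g))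
      (RL m ((range n).image c) (c n) k (x N) (s N n + g)) g := by
  induction N with
  | zero =>
    have h3 := slo_af htm (hch 0 le_rfl) hn k (w₁ := x 0) (w₂ := x 0) (p₁ := s 0 n + g)
      (p₂ := s 0 n + g) le_rfl le_rfl
    rw [min_self, add_sub_cancel_left] at h3
    exact h3
  | succ N ih =>
    have h3 := ih (fun i hi => hx i (by omega)) (fun i hi => hch i (by omega))
      (fun i hi => hD i (by omega)) (fun i hi => h1 i (by omega)) (fun i hi => h2 i (by omega))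
    have d1 := h1 N (Nat.lt_succ_self N)
    have d2 := h2 N (Nat.lt_succ_self N)
    have h4 := h3.incl (R₁' := RL m ((range n).image c) (c n) k (x 0) (s 0 n + g))
      (R₂' := RL m ((range n).image c) (c n) k (x N) (D N)) (fun _ _ _ _ _ _ h => h)
      (fun _ _ _ _ _ _ h => RL.le (by linarith) h)
    have h5 := slo_af htm (hch (N + 1) le_rfl) hn k (w₁ := x N) (w₂ := x (N + 1)) (p₁ := D N)
      (p₂ := s (N + 1) n + g) (hx N (Nat.lt_succ_self N)) le_rfl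
    have h6 := h5.le htm (Δ' := g) (by
      have : s (N + 1) n + g ≤ min (D N) (s (N + 1) n + g) := le_min d1 le_rfl
      linarith)
    exact h4.trans htm h6 (hD N (Nat.lt_succ_self N))

/-! ### The jets over the labels which are affine in one coordinate -/

/-- **The jets over a label which is affine in one coordinate**, no relation. -/
noncomputable def qA (m : ℕ) (I : Finset (Fin m)) (ι k : Fin m) (j : ℕ) (w p N : ℝ) :
    Qt m ℤ where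
  P K e J F A u := (cnt F.p u A : ℝ) ≤ Real.exp (K * J) ∧
    ∃ (V : Type) (z : PtT F → V) (z' : LnT F → V) (G : V → MvPolynomial (Option (Fin m)) ℝ)
      (c : V → ℝ),
      LbP F (insert ι I) k K J ⌊w * J⌋₊ ⌊(p - e) * J⌋₊ A z z' G ∧ (∀ x, AfI ι (c x) (G x)) ∧
      ∀ ω, A ω → u ω = ⌊(2 : ℝ) ^ (N * J) * ojet F k j (G (z' (slam F ⌊w * J⌋₊ ω))) ω⌋
  sub := by
    rintro K e J F A B u hB ⟨hc, V, z, z', G, c, hl, ha, hu⟩
    refine ⟨le_trans ?_ hc, V, z, z', G, c, hl.sub hB, ha, fun ω hω => hu ω (hB ω hω)⟩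
    exact_mod_cast cnt_mono F.p u hB
  mono := by
    rintro K K' e e' J F A u hK he ⟨hc, V, z, z', G, c, hl, ha, hu⟩
    refine ⟨hc.trans (Real.exp_le_exp.2 ?_), V, z, z', G, c, hl.mono (Finset.Subset.refl _) hK
      (Nat.floor_le_floor (mul_le_mul_of_nonneg_right (by linarith) (Nat.cast_nonneg J))), ha,
      hu⟩
    exact mul_le_mul_of_nonneg_right (by exact_mod_cast hK) (Nat.cast_nonneg J)

theorem qA.af {I : Finset (Fin m)} {ι k : Fin m} {j : ℕ} {w p N : ℝ} {K : ℕ}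
    {e : ℝ} {J : ℕ} {F : Fam m J} {A : F.Ω → Prop} {u : F.Ω → ℤ}
    (h : (qA m I ι k j w p N).P K e J F A u) :
    (qAf m (RL m I ι k w p) I ι k j w p N).P K e J F A u := by
  obtain ⟨hc, V, z, z', G, c, hl, ha, hu⟩ := h
  exact ⟨hc, V, z, z', G, c, hl, ha, ⟨V, z, z', G, c, hl, ha, fun _ _ => rfl⟩, hu⟩

/-- **Few bits at the own window.** -/
theorem few0_qA {S : PCl m} {C₀ : ℝ} (htm : TmC S C₀) {I : Finset (Fin m)}
    {ι k : Fin m} {j : ℕ} {w p N : ℝ} (hw0 : 0 ≤ w) (hw1 : w < 1) (hN : N + j * w ≤ p)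
    {α β γ : ∀ J : ℕ, Fam m J → Type} (f : ∀ (J : ℕ) (F : Fam m J), F.Ω → α J F)
    (g : ∀ (J : ℕ) (F : Fam m J), F.Ω → β J F) (y : ∀ (J : ℕ) (F : Fam m J), F.Ω → γ J F) :
    Few0 S f g y (qA m I ι k j w p N) := by
  intro h hh
  obtain ⟨e, he, H⟩ := few0_af htm (R := RL m I ι k w p) (I := I) (ι := ι) (k := k) hw0 hw1 hN
    f g y h hh
  exact ⟨e, he, fun K => Bas.mono 0 (H K) fun J _ F A H u hu => H u (qA.af hu)⟩

/-- **Change of the charts** for labels which are affine in `ι`. -/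
theorem few_qA {S : PCl m} {C₀ : ℝ} (htm : TmC S C₀) {I : Finset (Fin m)} {ι k : Fin m} {j : ℕ}
    {w w₀ w₁ w₂ q p₁ p₂ N₀ N₁ N₂ p₀ lam u₀ Δ : ℝ}
    (hslo : SloN S (RL m I ι k w₁ p₁) (RL m I ι k w₂ p₂) Δ) (hw₀ : w₀ ≤ w) (hw₁ : w₁ ≤ w)
    (hw₂ : w₂ ≤ w) (hw : w ≤ 1) (hwu : w ≤ u₀) (hu0 : 0 ≤ u₀) (hu1 : u₀ < p₀) (hp0 : p₀ ≤ 1)
    (hful : ∀ u : ℝ, u₀ < u → u < 1 → Ful S I w u)
    {α γ : ∀ J : ℕ, Fam m J → Type} {f : ∀ (J : ℕ) (F : Fam m J), F.Ω → α J F}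
    {y : ∀ (J : ℕ) (F : Fam m J), F.Ω → γ J F}
    (hf : ∀ (J : ℕ) (F : Fam m J), ∃ φ : α J F → PtT F, ∀ ω, ptr F J ω = φ (f J F ω))
    (hy : Kn I p₀ lam y) (hN : N₂ ≤ N₁) (hN₀ : N₂ ≤ N₀ + Δ)
    (hlt : N₂ + j * u₀ < min (min p₁ p₂) (q + Δ) + min lam (p₀ - u₀)) :
    Few S f (vg w) y ((qJet m I ι j w₀ q N₀).prod (qA m I ι k j w₁ p₁ N₁))
      (qA m I ι k j w₂ p₂ N₂) := by
  intro h hh
  obtain ⟨e, he, H⟩ := few_af htm hslo hw₀ hw₁ hw₂ hw hwu hu0 hu1 hp0 hful hf hy hN hN₀ hlt h hh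
  exact ⟨e, he, fun K => Bas.mono 0 (H K) fun J _ F A H u u' hu hu' =>
    H u u' ⟨hu.1, qA.af hu.2⟩ (qA.af hu')⟩

/-- Labels which are affine in `ι` are attained, with own jets of the order `j` which are at most
exponentially large. -/
def AttQ (S : PCl m) (I : Finset (Fin m)) (ι k : Fin m) (j : ℕ) (w p : ℝ) : Prop :=
  ∀ e : ℝ, 0 < e → ∃ K : ℕ, Bas S (fun J F A => ∃ (V : Type) (z : PtT F → V) (z' : LnT F → V)
    (G : V → MvPolynomial (Option (Fin m)) ℝ) (c : V → ℝ),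
    LbP F (insert ι I) k K J ⌊w * J⌋₊ ⌊(p - e) * J⌋₊ A z z' G ∧ (∀ x, AfI ι (c x) (G x)) ∧
    ∀ ω, A ω → |ojet F k j (G (z' (slam F ⌊w * J⌋₊ ω))) ω| ≤ (2 : ℝ) ^ ((K : ℝ) * J))

theorem AttQ.sub {S S' : PCl m} (hs : ∀ (τ : ℝ) (J : ℕ) (F : Fam m J) (A : F.Ω → Prop),
    S'.St τ J F A → S.St τ J F A) {I : Finset (Fin m)} {ι k : Fin m} {j : ℕ}
    {w p : ℝ} (h : AttQ S I ι k j w p) : AttQ S' I ι k j w p := fun e he => by
  obtain ⟨K, hK⟩ := h e he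
  exact ⟨K, hK.sub hs⟩

theorem AttQ.le {S : PCl m} {I : Finset (Fin m)} {ι k : Fin m} {j : ℕ}
    {w p p' : ℝ} (h : AttQ S I ι k j w p) (hp : p' ≤ p) : AttQ S I ι k j w p' := fun e he => by
  obtain ⟨K, hK⟩ := h e he
  refine ⟨K, Bas.mono 0 hK ?_⟩
  rintro J - F A ⟨V, z, z', G, c, hl, ha, hb⟩
  exact ⟨V, z, z', G, c, hl.mono (Finset.Subset.refl _) le_rfl (Nat.floor_le_floor
    (mul_le_mul_of_nonneg_right (by linarith) (Nat.cast_nonneg J))), ha, hb⟩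

theorem AttQ.att {S : PCl m} {I : Finset (Fin m)} {ι k : Fin m} {j : ℕ}
    {w p : ℝ} (h : AttQ S I ι k j w p) : AttA S (RL m I ι k w p) I ι k j w p := fun e he => by
  obtain ⟨K, hK⟩ := h e he
  refine ⟨K, Bas.mono 0 hK ?_⟩
  rintro J - F A ⟨V, z, z', G, c, hl, ha, hb⟩
  exact ⟨V, z, z', G, c, hl, ha, ⟨V, z, z', G, c, hl, ha, fun _ _ => rfl⟩, hb⟩

theorem AttQ.ex {S : PCl m} {I : Finset (Fin m)} {ι k : Fin m} {j : ℕ}
    {w p : ℝ} (h : AttQ S I ι k j w p) : SRel.Ex S (RL m I ι k w p) := fun e he => by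
  obtain ⟨K, hK⟩ := h e he
  refine ⟨K, Bas.mono 0 hK ?_⟩
  rintro J - F A ⟨V, z, z', G, c, hl, ha, hb⟩
  exact ⟨fun ω => c (z' (slam F ⌊w * J⌋₊ ω)), V, z, z', G, c, hl, ha, fun _ _ => rfl⟩

/-- **The jets exist.** -/
theorem exs_qA {S : PCl m} {I : Finset (Fin m)} {ι k : Fin m} {j : ℕ} {w p N : ℝ}
    (h : AttQ S I ι k j w p) : Exs S (qA m I ι k j w p N) := by
  intro e he
  obtain ⟨K, M, H⟩ := exs_af (N := N) h.att e he
  refine ⟨K, M, Bas.mono 0 H ?_⟩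
  rintro J - F A ⟨u, ⟨hc, V, z, z', G, c, hl, ha, -, hu⟩, hu'⟩
  exact ⟨u, ⟨hc, V, z, z', G, c, hl, ha, hu⟩, hu'⟩

/-! ### The pairs, at real windows -/

/-- **The jets of `ι` and of `k`** over the charts of the window `w`. -/
noncomputable def qP (m : ℕ) (I : Finset (Fin m)) (ι k : Fin m) (j : ℕ) (w q N p M : ℝ) :
    Qt m (ℤ × ℤ) := (qJet m I ι j w q N).prod (qA m I ι k j w p M)

theorem pair_exs {S : PCl m} {I : Finset (Fin m)} {ι k : Fin m} {j : ℕ} {w q r N p M : ℝ}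
    (hr : 0 ≤ r) (h₀ : Att S I ι w q r) (h : AttQ S I ι k j w p) :
    Exs S (qP m I ι k j w q N p M) := (exs_jet hr h₀).prod (exs_qA h)

/-- **Few bits at the own window.** -/
theorem pair_few0 {S : PCl m} {C₀ : ℝ} (htm : TmC S C₀)
    (hpos : ∀ (τ : ℝ) (J : ℕ) (F : Fam m J) (A : F.Ω → Prop), S.St τ J F A → 0 < Pe F.p A)
    {I : Finset (Fin m)} {ι k : Fin m} {j : ℕ} {w q N p M : ℝ} (hw0 : 0 ≤ w) (hw1 : w < 1)
    (hN : N + j * w ≤ q) (hM : M + j * w ≤ p)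
    {α β γ : ∀ J : ℕ, Fam m J → Type} (f : ∀ (J : ℕ) (F : Fam m J), F.Ω → α J F)
    (g : ∀ (J : ℕ) (F : Fam m J), F.Ω → β J F) (y : ∀ (J : ℕ) (F : Fam m J), F.Ω → γ J F) :
    Few0 S f g y (qP m I ι k j w q N p M) :=
  Few0.pair hpos (few0_jet htm hw0 hw1 hN f g y) (few0_qA htm hw0 hw1 hM f g y)

/-- **Rows and changes of the charts**: the pair over the charts of the window `w₂`, given the pair
over the charts of the window `w₁`, at the window `w ≥ w₁, w₂`. -/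
theorem pair_few {S : PCl m} {C₀ : ℝ} (htm : TmC S C₀)
    (hpos : ∀ (τ : ℝ) (J : ℕ) (F : Fam m J) (A : F.Ω → Prop), S.St τ J F A → 0 < Pe F.p A)
    {I : Finset (Fin m)} {ι k : Fin m} {j : ℕ}
    {w w₁ w₂ q₁ q₂ N₁ N₂ p₁ p₂ M₁ M₂ p₀ lam u₀ Δ : ℝ}
    (hslo : SloN S (RL m I ι k w₁ p₁) (RL m I ι k w₂ p₂) Δ) (hw₁ : w₁ ≤ w)
    (hw₂ : w₂ ≤ w) (hw : w ≤ 1) (hwu : w ≤ u₀) (hu0 : 0 ≤ u₀) (hu1 : u₀ < p₀) (hp0 : p₀ ≤ 1)
    (hful : ∀ u : ℝ, u₀ < u → u < 1 → Ful S I w u)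
    {α γ : ∀ J : ℕ, Fam m J → Type} {f : ∀ (J : ℕ) (F : Fam m J), F.Ω → α J F}
    {y : ∀ (J : ℕ) (F : Fam m J), F.Ω → γ J F}
    (hf : ∀ (J : ℕ) (F : Fam m J), ∃ φ : α J F → PtT F, ∀ ω, ptr F J ω = φ (f J F ω))
    (hy : Kn I p₀ lam y) (hN : N₂ ≤ N₁) (hM : M₂ ≤ M₁) (hNM : M₂ ≤ N₁ + Δ)
    (hlN : N₂ + j * u₀ < min q₁ q₂ + min lam (p₀ - u₀))
    (hlM : M₂ + j * u₀ < min (min p₁ p₂) (q₁ + Δ) + min lam (p₀ - u₀)) :
    Few S f (vg w) y (qP m I ι k j w₁ q₁ N₁ p₁ M₁) (qP m I ι k j w₂ q₂ N₂ p₂ M₂) :=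
  Few.pair hpos (Few.fst hpos (few_jet htm hw₁ hw₂ hw hwu hu0 hu1 hp0 hful hf hy hN hlN))
    (few_qA htm hslo hw₁ hw₁ hw₂ hw hwu hu0 hu1 hp0 hful hf hy hM hNM hlM)

/-- **The own window**: at the window `v` the pair over the charts of an earlier window `w` is few
bits, to the natural digits of `v`. -/
theorem pair_own {S : PCl m} {C₀ : ℝ} (htm : TmC S C₀)
    (hpos : ∀ (τ : ℝ) (J : ℕ) (F : Fam m J) (A : F.Ω → Prop), S.St τ J F A → 0 < Pe F.p A)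
    {I : Finset (Fin m)} {ι k : Fin m} {j : ℕ}
    {w v qw qv pw pv N M r p₀ lam u₀ Δ : ℝ}
    (hslo : SloN S (RL m I ι k v pv) (RL m I ι k w pw) Δ) (hwv : w ≤ v) (hv0 : 0 ≤ v)
    (hv1 : v < 1) (hr : 0 ≤ r) (hatt₀ : Att S I ι v qv r) (hatt : AttQ S I ι k j v pv)
    (hwu : v ≤ u₀) (hu1 : u₀ < p₀) (hp0 : p₀ ≤ 1)
    (hful : ∀ u : ℝ, u₀ < u → u < 1 → Ful S I v u)
    {α γ : ∀ J : ℕ, Fam m J → Type} {f : ∀ (J : ℕ) (F : Fam m J), F.Ω → α J F}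
    {y : ∀ (J : ℕ) (F : Fam m J), F.Ω → γ J F}
    (hf : ∀ (J : ℕ) (F : Fam m J), ∃ φ : α J F → PtT F, ∀ ω, ptr F J ω = φ (f J F ω))
    (hy : Kn I p₀ lam y) (hN : N + j * v ≤ qv) (hM : M + j * v ≤ pv) (hNM : M ≤ N + Δ)
    (hlN : N + j * u₀ < min qv qw + min lam (p₀ - u₀))
    (hlM : M + j * u₀ < min (min pv pw) (qv + Δ) + min lam (p₀ - u₀)) :
    Few0 S f (vg v) y (qP m I ι k j w qw N pw M) :=
  Few0.trans hpos (pair_exs hr hatt₀ hatt) (pair_few0 htm hpos hv0 hv1 hN hM f (vg v) y)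
    (pair_few htm hpos hslo le_rfl hwv hv1.le hwu (by linarith) hu1 hp0 hful hf hy le_rfl le_rfl
      hNM hlN hlM)

end Pool.LA91
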