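import Pool.Agent.H91.LA.Grad
import Pool.Agent.H91.LA.Afn

/-!
# The derivatives of the closed labels along fields

`RV`: the derivatives of the closed labels of a coordinate along a field. `NatF`: the field is
natural over the charts of a chain. `slo_vec`: two derivatives along a natural field differ by the
natural amount. `RD`: the partial derivatives at the own point; `slo_par`.
-/

set_option autoImplicit false

namespace Pool.LA91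

open Finset Real MvPolynomial
open Pool.Agent.H49.Ent Pool.Agent.H32.Dense Pool.STK Pool.KA Pool.KSAT Pool.K2S Pool.PB Pool.GEN
open Pool.S6C Pool.RCD
open Pool.GRD (LbP Pb_mono_pos)
open Pool.BFL (Pb)
open Pool.LIV (Pb_mono25 Pb_or25 Pb_ex25)
open Pool.GRW (xr xr_near tmc_bas)

variable {m : ℕ}

/-- **The derivatives of order `j` along the field `Y`** of the labels of `k` over `I` at the window
`a`, of precision `p`. -/
noncomputable def RV (m : ℕ) (I : Finset (Fin m)) (k : Fin m) (a p : ℝ) (j : ℕ)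
    (Y : ∀ (J : ℕ) (F : Fam m J), F.Ω → Option (Fin m) → ℝ) : SRel m where
  P K e J F A y := ∃ (V : Type) (z : PtT F → V) (z' : LnT F → V)
    (G : V → MvPolynomial (Option (Fin m)) ℝ),
    LbP F I k K J ⌊a * J⌋₊ ⌊(p - e) * J⌋₊ A z z' G ∧
      ∀ ω, A ω → y ω = jet j (G (z' (slam F ⌊a * J⌋₊ ω))) (bt F ω) (Y J F ω)
  sub := by
    rintro K e J F A B c hB ⟨V, z, z', G, hl, hc⟩
    exact ⟨V, z, z', G, hl.sub hB, fun ω hω => hc ω (hB ω hω)⟩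
  mono := by
    rintro K K' e e' J F A c hK he ⟨V, z, z', G, hl, hc⟩
    exact ⟨V, z, z', G, hl.mono (Finset.Subset.refl _) hK (Nat.floor_le_floor
      (mul_le_mul_of_nonneg_right (by linarith) (Nat.cast_nonneg J))), hc⟩

/-- A smaller precision. -/
theorem RV.le {I : Finset (Fin m)} {k : Fin m} {a p p' : ℝ} {j : ℕ}
    {Y : ∀ (J : ℕ) (F : Fam m J), F.Ω → Option (Fin m) → ℝ} (hp : p' ≤ p) {K : ℕ} {e : ℝ}
    {J : ℕ} {F : Fam m J} {A : F.Ω → Prop} {c : F.Ω → ℝ}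
    (h : (RV m I k a p j Y).P K e J F A c) : (RV m I k a p' j Y).P K e J F A c := by
  obtain ⟨V, z, z', G, hl, hc⟩ := h
  exact ⟨V, z, z', G, hl.mono (Finset.Subset.refl _) le_rfl (Nat.floor_le_floor
    (mul_le_mul_of_nonneg_right (by linarith) (Nat.cast_nonneg J))), hc⟩

/-- The labels exist. -/
theorem RV.ex {S : PCl m} {I : Finset (Fin m)} {k : Fin m} {a p rd : ℝ}
    (h : Att S I k a p rd) (j : ℕ)
    (Y : ∀ (J : ℕ) (F : Fam m J), F.Ω → Option (Fin m) → ℝ) : SRel.Ex S (RV m I k a p j Y) := by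
  intro e he
  obtain ⟨K, hK⟩ := h e he
  refine ⟨K, hK.mono 0 ?_⟩
  rintro J - F A ⟨V, z, z', G, hl⟩
  exact ⟨_, V, z, z', G, LbP.of hl, fun ω _ => rfl⟩

/-- **The field is natural** over the charts of the chain, up to the factor `2 ^ (σ J)`. -/
def NatF (S : PCl m) (c : ℕ → Fin m) (r₀ r : ℕ) (w u₀ : ℝ) (s : ℕ → ℝ) (j : ℕ) (σ : ℝ)
    (Y : ∀ (J : ℕ) (F : Fam m J), F.Ω → Option (Fin m) → ℝ) : Prop :=
  ∀ e : ℝ, 0 < e → ∃ K : ℕ, ∀ η : ℝ, 0 < η → Bas S (fun J F A =>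
    ∃ (V : Type) (z : PtT F → V) (z' : LnT F → V) (g : V → ℕ → MvPolynomial (Option (Fin m)) ℝ),
      (∀ i, r₀ ≤ i → i < r → LbP F ((range i).image c) (c i) K J ⌊w * J⌋₊
        ⌊(s i - e) * J⌋₊ A z z' (fun v => g v i)) ∧
      Pb (Pool.Agent.H49.Ent.cond F.p A True) (fun ω =>
        ¬ (|Y J F ω none| ≤ 2 ^ ((σ + e) * J) * 2 ^ (-u₀ * J) ∧
          (∀ l < r₀, |Y J F ω (some (c l))| ≤ 2 ^ ((σ + e) * J) * 2 ^ (-u₀ * J)) ∧
          ∀ i, r₀ ≤ i → i < r → ∀ j', 1 ≤ j' → j' ≤ j →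
            |jet j' (X (some (c i)) - g (z' (slam F ⌊w * J⌋₊ ω)) i) (bt F ω) (Y J F ω)| ≤
              (2 ^ ((σ + e) * J)) ^ j' * 2 ^ (-s i * J))) ≤ η)

theorem NatF.sub {S S' : PCl m} (hs : ∀ (τ : ℝ) (J : ℕ) (F : Fam m J) (A : F.Ω → Prop),
    S'.St τ J F A → S.St τ J F A) {c : ℕ → Fin m} {r₀ r : ℕ} {w u₀ : ℝ} {s : ℕ → ℝ} {j : ℕ}
    {σ : ℝ} {Y : ∀ (J : ℕ) (F : Fam m J), F.Ω → Option (Fin m) → ℝ}
    (h : NatF S c r₀ r w u₀ s j σ Y) : NatF S' c r₀ r w u₀ s j σ Y := fun e he => by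
  obtain ⟨K, hK⟩ := h e he
  exact ⟨K, fun η hη => (hK η hη).sub hs⟩

/-- **The derivatives of two labels along a natural field.** -/
theorem slo_vec {S : PCl m} {C₀ : ℝ} (htm : TmC S C₀) {c : ℕ → Fin m} {r₀ r : ℕ}
    {w u₀ u₁ : ℝ} {s rd : ℕ → ℝ} (hch : Chn S c r₀ r w u₀ u₁ s rd) (k : Fin m) {j : ℕ} {σ : ℝ}
    {Y : ∀ (J : ℕ) (F : Fam m J), F.Ω → Option (Fin m) → ℝ}
    (hY : NatF S c r₀ r w u₀ s j σ Y) {w₁ w₂ p₁ p₂ : ℝ} (hw₁ : w₁ ≤ w) (hw₂ : w₂ ≤ w)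
    {j₁ : ℕ} (hj : j₁ ≤ j) :
    SloN S (RV m ((range r).image c) k w₁ p₁ j₁ Y) (RV m ((range r).image c) k w₂ p₂ j₁ Y)
      (min p₁ p₂ - j₁ * σ) := by
  classical
  intro ε hε
  have hj0 : (0 : ℝ) ≤ j₁ := Nat.cast_nonneg j₁
  obtain ⟨ε₁, hε₁⟩ : ∃ ε₁ : ℝ, ε₁ = ε / (4 * ((j₁ : ℝ) + 1)) := ⟨_, rfl⟩
  have hε10 : 0 < ε₁ := by rw [hε₁]; positivity
  have hε11 : ((j₁ : ℝ) + 1) * ε₁ = ε / 4 := by
    rw [hε₁]
    field_simp
  have hε14 : ε₁ ≤ ε / 4 := by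
    rw [← hε11]
    exact le_mul_of_one_le_left hε10.le (by linarith)
  obtain ⟨e₁, he₁, hjc⟩ := jet_cls htm hch j (ε := ε / 4) (by linarith)
  obtain ⟨e₂, he₂⟩ : ∃ e₂ : ℝ, e₂ = min e₁ ε₁ := ⟨_, rfl⟩
  have he20 : 0 < e₂ := by rw [he₂]; exact lt_min he₁ hε10
  have he21 : e₂ ≤ e₁ := by rw [he₂]; exact min_le_left _ _
  have he22 : e₂ ≤ ε₁ := by rw [he₂]; exact min_le_right _ _
  obtain ⟨K₀, hK₀⟩ := hY e₂ he20
  refine ⟨e₂, he20, fun K η hη => ?_⟩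
  obtain ⟨J₁, hJ₁⟩ := E_big (a := ε / 4) (C := 4) (by linarith)
  refine Bas.mono J₁ (((hjc (max K K₀) (η / 2) (half_pos hη)).and (hK₀ (η / 2) (half_pos hη))).and
    (tmc_bas htm one_pos)) ?_
  rintro J hJ F A ⟨⟨H, V, z, z', g, hg, hnat⟩, hA, -⟩ y₁ y₂ ⟨V₁, z₁, z₁', G₁, hl₁, hy₁⟩
    ⟨V₂, z₂, z₂', G₂, hl₂, hy₂⟩
  have hJ0 : (0 : ℝ) ≤ J := Nat.cast_nonneg J
  have f1 := hJ₁ J hJ
  have hw1 : w ≤ 1 := by linarith [hch.wu0, hch.u0]
  have hwJ : ⌊w * J⌋₊ ≤ J := floor_le hw1 J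
  have hw1J : ⌊w₁ * J⌋₊ ≤ ⌊w * J⌋₊ := Nat.floor_le_floor (mul_le_mul_of_nonneg_right hw₁ hJ0)
  have hw2J : ⌊w₂ * J⌋₊ ≤ ⌊w * J⌋₊ := Nat.floor_le_floor (mul_le_mul_of_nonneg_right hw₂ hJ0)
  have hq := isLaw_cond F.isLaw hA
  have hl₁' := hl₁.win hw1J hwJ
  have hl₂' := hl₂.win hw2J hwJ
  obtain ⟨x₁, hx₁⟩ : ∃ y₁ : LnT F → V₁, y₁ = fun s =>
    z₁' (s.1, s.2.1, s.2.2 / 2 ^ (⌊w * J⌋₊ - ⌊w₁ * J⌋₊)) := ⟨_, rfl⟩
  obtain ⟨x₂, hx₂⟩ : ∃ y₂ : LnT F → V₂, y₂ = fun s =>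
    z₂' (s.1, s.2.1, s.2.2 / 2 ^ (⌊w * J⌋₊ - ⌊w₂ * J⌋₊)) := ⟨_, rfl⟩
  rw [← hx₁] at hl₁'
  rw [← hx₂] at hl₂'
  have g1 : ∀ ω, x₁ (slam F ⌊w * J⌋₊ ω) = z₁' (slam F ⌊w₁ * J⌋₊ ω) := fun ω => by
    rw [hx₁]
    show z₁' ((slam F ⌊w * J⌋₊ ω).1, (slam F ⌊w * J⌋₊ ω).2.1,
      (slam F ⌊w * J⌋₊ ω).2.2 / 2 ^ (⌊w * J⌋₊ - ⌊w₁ * J⌋₊)) = _
    rw [← slam_coarse F hw1J hwJ ω]
  have g2 : ∀ ω, x₂ (slam F ⌊w * J⌋₊ ω) = z₂' (slam F ⌊w₂ * J⌋₊ ω) := fun ω => by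
    rw [hx₂]
    show z₂' ((slam F ⌊w * J⌋₊ ω).1, (slam F ⌊w * J⌋₊ ω).2.1,
      (slam F ⌊w * J⌋₊ ω).2.2 / 2 ^ (⌊w * J⌋₊ - ⌊w₂ * J⌋₊)) = _
    rw [← slam_coarse F hw2J hwJ ω]
  have hb := H k ⌊(p₁ - e₂) * J⌋₊ ⌊(p₂ - e₂) * J⌋₊ V V₁ V₂ z z' g z₁ x₁ G₁ z₂ x₂ G₂
    (fun i a b => (hg i a b).mono (Finset.Subset.refl _) (le_max_right _ _) (Nat.floor_le_floor
      (mul_le_mul_of_nonneg_right (by linarith) hJ0)))
    (hl₁'.mono (Finset.Subset.refl _) (le_max_left _ _) le_rfl)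
    (hl₂'.mono (Finset.Subset.refl _) (le_max_left _ _) le_rfl)
  have h2 := Pb_or_le hq _ _ |>.trans (add_le_add hb hnat)
  refine le_trans (Pb_mono_pos hq.nonneg fun ω hωp hω => ?_) (h2.trans (le_of_eq (by ring)))
  by_contra hno
  rw [not_or, not_not, not_not] at hno
  obtain ⟨n1, n2, n3, n4⟩ := hno
  refine hω ?_
  have hAω := of_cond_pos hωp
  have h3 := n1 (Y J F ω) (2 ^ ((σ + e₂) * J)) (E_pos J _) n2 n3 n4 j₁ hj
  rw [g1, g2, jet_sub, ← hy₁ ω hAω, ← hy₂ ω hAω] at h3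
  refine h3.trans ?_
  have e1 : 1 / (2 : ℝ) ^ ⌊(p₁ - e₂) * J⌋₊ ≤ 2 * 2 ^ (-(min p₁ p₂ - e₂) * J) :=
    (E_inv_floor J (p₁ - e₂)).trans (mul_le_mul_of_nonneg_left
      (E_mono J (by linarith [min_le_left p₁ p₂])) (by norm_num))
  have e2 : 1 / (2 : ℝ) ^ ⌊(p₂ - e₂) * J⌋₊ ≤ 2 * 2 ^ (-(min p₁ p₂ - e₂) * J) :=
    (E_inv_floor J (p₂ - e₂)).trans (mul_le_mul_of_nonneg_left
      (E_mono J (by linarith [min_le_right p₁ p₂])) (by norm_num))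
  have e3 := E_pos J (-(min p₁ p₂ - e₂))
  have e4 := E_pos J (ε / 4)
  rw [E_pow]
  calc (2 : ℝ) ^ (ε / 4 * J) * (1 / 2 ^ ⌊(p₁ - e₂) * J⌋₊ + 1 / 2 ^ ⌊(p₂ - e₂) * J⌋₊) *
        2 ^ (j₁ * (σ + e₂) * J)
      ≤ 2 ^ (ε / 4 * J) * (4 * 2 ^ (-(min p₁ p₂ - e₂) * J)) * 2 ^ (j₁ * (σ + e₂) * J) :=
        mul_le_mul_of_nonneg_right (mul_le_mul_of_nonneg_left (by linarith) e4.le)
          (E_pos J _).le
    _ = 4 * (2 ^ (ε / 4 * J) * 2 ^ (-(min p₁ p₂ - e₂) * J) * 2 ^ (j₁ * (σ + e₂) * J)) := by ring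
    _ ≤ 2 ^ (ε / 4 * J) * (2 ^ (ε / 4 * J) * 2 ^ (-(min p₁ p₂ - e₂) * J) *
        2 ^ (j₁ * (σ + e₂) * J)) := mul_le_mul_of_nonneg_right f1 (by positivity)
    _ = 2 ^ ((ε / 4 + (ε / 4 + -(min p₁ p₂ - e₂) + j₁ * (σ + e₂))) * J) := by
        rw [E_add, E_add, E_add]
    _ ≤ 2 ^ (-((min p₁ p₂ - j₁ * σ - ε) * J)) := by
        have e5 : -((min p₁ p₂ - j₁ * σ - ε) * (J : ℝ)) = -(min p₁ p₂ - j₁ * σ - ε) * J := by
          ring
        rw [e5]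
        refine E_mono J ?_
        have e6 : ((j₁ : ℝ) + 1) * e₂ ≤ ε / 4 := by
          rw [← hε11]
          exact mul_le_mul_of_nonneg_left he22 (by linarith)
        nlinarith

/-! ### Partial derivatives -/

/-- **The partial derivatives** at the own point of the labels of `k` over `I` at the window `a`, of
precision `p`. -/
noncomputable def RD (m : ℕ) (I : Finset (Fin m)) (k : Fin m) (o : Option (Fin m)) (a p : ℝ) :
    SRel m where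
  P K e J F A y := ∃ (V : Type) (z : PtT F → V) (z' : LnT F → V)
    (G : V → MvPolynomial (Option (Fin m)) ℝ),
    LbP F I k K J ⌊a * J⌋₊ ⌊(p - e) * J⌋₊ A z z' G ∧
      ∀ ω, A ω → y ω = eval (bt F ω) (pderiv o (G (z' (slam F ⌊a * J⌋₊ ω))))
  sub := by
    rintro K e J F A B c hB ⟨V, z, z', G, hl, hc⟩
    exact ⟨V, z, z', G, hl.sub hB, fun ω hω => hc ω (hB ω hω)⟩
  mono := by
    rintro K K' e e' J F A c hK he ⟨V, z, z', G, hl, hc⟩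
    exact ⟨V, z, z', G, hl.mono (Finset.Subset.refl _) hK (Nat.floor_le_floor
      (mul_le_mul_of_nonneg_right (by linarith) (Nat.cast_nonneg J))), hc⟩

theorem jet_single (H : MvPolynomial (Option (Fin m)) ℝ) (b : Option (Fin m) → ℝ)
    (o : Option (Fin m)) : jet 1 H b (Pi.single o 1) = eval b (pderiv o H) := by
  classical
  rw [jet_one, Finset.sum_eq_single o]
  · rw [Pi.single_eq_same, one_mul]
  · intro o' _ ho
    rw [Pi.single_eq_of_ne ho, zero_mul]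
  · intro h
    exact absurd (Finset.mem_univ o) h

theorem RD.rv {I : Finset (Fin m)} {k : Fin m} {o : Option (Fin m)} {a p : ℝ} {K : ℕ} {e : ℝ}
    {J : ℕ} {F : Fam m J} {A : F.Ω → Prop} {c : F.Ω → ℝ} (h : (RD m I k o a p).P K e J F A c) :
    (RV m I k a p 1 (fun _ _ _ => Pi.single o 1)).P K e J F A c := by
  obtain ⟨V, z, z', G, hl, hc⟩ := h
  exact ⟨V, z, z', G, hl, fun ω hω => by rw [jet_single]; exact hc ω hω⟩

/-- A smaller precision. -/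
theorem RD.le {I : Finset (Fin m)} {k : Fin m} {o : Option (Fin m)} {a p p' : ℝ} (hp : p' ≤ p)
    {K : ℕ} {e : ℝ} {J : ℕ} {F : Fam m J} {A : F.Ω → Prop} {c : F.Ω → ℝ}
    (h : (RD m I k o a p).P K e J F A c) : (RD m I k o a p').P K e J F A c := by
  obtain ⟨V, z, z', G, hl, hc⟩ := h
  exact ⟨V, z, z', G, hl.mono (Finset.Subset.refl _) le_rfl (Nat.floor_le_floor
    (mul_le_mul_of_nonneg_right (by linarith) (Nat.cast_nonneg J))), hc⟩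

/-- The labels exist. -/
theorem RD.ex {S : PCl m} {I : Finset (Fin m)} {k : Fin m} {a p rd : ℝ}
    (h : Att S I k a p rd) (o : Option (Fin m)) : SRel.Ex S (RD m I k o a p) := by
  intro e he
  obtain ⟨K, hK⟩ := h e he
  refine ⟨K, hK.mono 0 ?_⟩
  rintro J - F A ⟨V, z, z', G, hl⟩
  exact ⟨_, V, z, z', G, LbP.of hl, fun ω _ => rfl⟩

/-- **The coordinate directions are natural**, up to the worst later chart. -/
theorem natF_par {S : PCl m} {C₀ : ℝ} (htm : TmC S C₀) {c : ℕ → Fin m} {r₀ r : ℕ}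
    {w u₀ u₁ : ℝ} {s rd : ℕ → ℝ} (hch : Chn S c r₀ r w u₀ u₁ s rd) (o : Option (Fin m)) {σ : ℝ}
    (h0 : (o = none ∨ ∃ l < r₀, o = some (c l)) → u₀ ≤ σ)
    (h1 : ∀ i, r₀ ≤ i → i < r → (o = none ∨ ∃ l ≤ i, o = some (c l)) → s i ≤ σ) :
    NatF S c r₀ r w u₀ s 1 σ (fun _ _ _ => Pi.single o 1) := by
  classical
  intro e he
  have hu01 := hch.u0
  obtain ⟨u₂, hu₂⟩ : ∃ u₂ : ℝ, u₂ = (u₀ + 1) / 2 := ⟨_, rfl⟩
  obtain ⟨Kc, d, hd, hB⟩ := nbx_cls htm hch (u₂ := u₂) (by rw [hu₂]; linarith)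
    (by rw [hu₂]; linarith) 0 (ε := e) (δ := e / 2) he (half_pos he)
  obtain ⟨K, hK⟩ : ∃ K, K = (range r).sup Kc := ⟨_, rfl⟩
  obtain ⟨J₁, hJ₁⟩ := E_big (a := e / 2) (C := 2) (by linarith)
  refine ⟨K, fun η hη => Bas.mono J₁ ((hB 1 one_pos le_rfl).and (tmc_bas htm one_pos)) ?_⟩
  rintro J hJ F A ⟨⟨V, z, z', g, hg, -, hgc, -⟩, hA, -⟩
  have hJ0 : (0 : ℝ) ≤ J := Nat.cast_nonneg J
  have f1 := hJ₁ J hJ
  refine ⟨V, z, z', g, fun i hi0 hi => (LbP.of (hg i hi0 hi)).mono (Finset.Subset.refl _)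
    (by rw [hK]; exact Finset.le_sup (f := Kc) (mem_range.2 hi)) (Nat.floor_le_floor
      (mul_le_mul_of_nonneg_right (by linarith [(hd i hi0 hi).2]) hJ0)), ?_⟩
  have hbase : (o = none ∨ ∃ l < r₀, o = some (c l)) →
      (1 : ℝ) ≤ 2 ^ ((σ + e) * J) * 2 ^ (-u₀ * J) := by
    intro h
    rw [E_add]
    exact E_one (by linarith [h0 h])
  have hpos : (0 : ℝ) ≤ 2 ^ ((σ + e) * J) * 2 ^ (-u₀ * J) :=
    mul_nonneg (E_pos J _).le (E_pos J _).le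
  refine le_trans (Pb_mono25 (isLaw_cond F.isLaw hA).nonneg (B := fun _ => False)
    fun ω hω hn => hn ?_) (le_of_eq_of_le ?_ hη.le)
  swap
  · unfold Pb
    simp
  have hAω := of_cond_pos hω
  refine ⟨?_, fun l hl => ?_, fun i hi0 hi j' hj1 hj2 => ?_⟩
  · beta_reduce
    by_cases ho : o = none
    · have h2 := hbase (Or.inl ho)
      rw [ho, Pi.single_eq_same, abs_one]
      exact h2
    · rw [Pi.single_eq_of_ne (Ne.symm ho), abs_zero]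
      exact hpos
  · beta_reduce
    by_cases ho : o = some (c l)
    · have h2 := hbase (Or.inr ⟨l, hl, ho⟩)
      rw [ho, Pi.single_eq_same, abs_one]
      exact h2
    · rw [Pi.single_eq_of_ne (Ne.symm ho), abs_zero]
      exact hpos
  · obtain rfl : j' = 1 := by omega
    rw [pow_one]
    beta_reduce
    by_cases ho : o = none ∨ ∃ l ≤ i, o = some (c l)
    · have hs := h1 i hi0 hi ho
      rw [jet_single, map_sub, map_sub, pderiv_X]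
      obtain ⟨q, hq⟩ : ∃ q : MvPolynomial (Option (Fin m)) ℝ, q = Pi.single (M := fun _ =>
        MvPolynomial (Option (Fin m)) ℝ) o 1 (some (c i)) := ⟨_, rfl⟩
      rw [← hq]
      have e1 : |eval (bt F ω) q| ≤ 1 := by
        rw [hq]
        by_cases h : o = some (c i)
        · rw [h, Pi.single_eq_same, map_one, abs_one]
        · rw [Pi.single_eq_of_ne (Ne.symm h), map_zero, abs_zero]
          exact zero_le_one
      have e2 := (hg i hi0 hi).lip ω hAω (bt F ω) (fun o => by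
        rw [sub_self, abs_zero]
        positivity) o
      have e3 : (2 : ℝ) ^ ⌊d i * J⌋₊ ≤ 2 ^ (e / 2 * J) :=
        (E_floor_le (hd i hi0 hi).1.le).trans (E_mono J (hd i hi0 hi).2)
      have e4 : (1 : ℝ) ≤ 2 ^ (e / 2 * J) := E_one (by linarith)
      have e5 : (2 : ℝ) ^ (e * J) ≤ 2 ^ ((σ + e) * J) * 2 ^ (-s i * J) := by
        rw [E_add]
        exact E_mono J (by linarith)
      have e6 : (2 : ℝ) ^ (e / 2 * J) * 2 ^ (e / 2 * J) = 2 ^ (e * J) := by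
        rw [E_add]
        congr 1
        ring
      have e7 : (2 : ℝ) * 2 ^ (e / 2 * J) ≤ 2 ^ (e / 2 * J) * 2 ^ (e / 2 * J) :=
        mul_le_mul_of_nonneg_right f1 (by linarith)
      refine (abs_sub _ _).trans ?_
      linarith
    · push Not at ho
      have hz : jet 1 (X (some (c i)) - g (z' (slam F ⌊w * J⌋₊ ω)) i) (bt F ω)
          (Pi.single o 1) = 0 := by
        have e1 := jet_congr (H := X (some (c i)) - g (z' (slam F ⌊w * J⌋₊ ω)) i)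
          (I := (range (i + 1)).image c) (fun b b' hb hb' => by
            rw [map_sub, map_sub, eval_X, eval_X,
              hb' (c i) (mem_image_of_mem _ (mem_range.2 (Nat.lt_succ_self i)))]
            congr 1
            refine (hg i hi0 hi).dep _ b b' hb fun l hl => hb' l ?_
            obtain ⟨l', hl', rfl⟩ := mem_image.1 hl
            exact mem_image_of_mem _ (mem_range.2 (by have := mem_range.1 hl'; omega))) 1
          (b := bt F ω) (b' := bt F ω) (v := Pi.single o 1) (v' := 0) rfl (fun _ _ => rfl) (by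
            rw [Pi.single_eq_of_ne (Ne.symm ho.1)]
            rfl) (fun l hl => by
            obtain ⟨l', hl', rfl⟩ := mem_image.1 hl
            rw [Pi.single_eq_of_ne (Ne.symm (ho.2 l' (by have := mem_range.1 hl'; omega)))]
            rfl)
        rw [e1, jet_one]
        simp
      rw [hz, abs_zero]
      exact mul_nonneg (E_pos J _).le (E_pos J _).le

/-- **The partial derivatives of two labels.** -/
theorem slo_par {S : PCl m} {C₀ : ℝ} (htm : TmC S C₀) {c : ℕ → Fin m} {r₀ r : ℕ}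
    {w u₀ u₁ : ℝ} {s rd : ℕ → ℝ} (hch : Chn S c r₀ r w u₀ u₁ s rd) (k : Fin m)
    (o : Option (Fin m)) {σ : ℝ} (h0 : (o = none ∨ ∃ l < r₀, o = some (c l)) → u₀ ≤ σ)
    (h1 : ∀ i, r₀ ≤ i → i < r → (o = none ∨ ∃ l ≤ i, o = some (c l)) → s i ≤ σ)
    {w₁ w₂ p₁ p₂ : ℝ} (hw₁ : w₁ ≤ w) (hw₂ : w₂ ≤ w) :
    SloN S (RD m ((range r).image c) k o w₁ p₁) (RD m ((range r).image c) k o w₂ p₂)
      (min p₁ p₂ - σ) := by
  have h := slo_vec htm hch k (natF_par htm hch o h0 h1) (p₁ := p₁) (p₂ := p₂) hw₁ hw₂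
    (le_refl 1)
  rw [Nat.cast_one, one_mul] at h
  exact h.incl (fun _ _ _ _ _ _ h => RD.rv h) (fun _ _ _ _ _ _ h => RD.rv h)

end Pool.LA91
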