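import Pool.Agent.H91.LA.Njet

/-!
# The derivatives along natural vectors

`jet_box`: a polynomial which is bounded on the nested box of the charts `g` at `b` has bounded
derivatives along every vector whose heights over the charts are natural.
-/

set_option autoImplicit false

namespace Pool.LA91

open Finset Real MvPolynomial
open Pool.Agent.H49.Ent Pool.Agent.H32.Dense Pool.STK Pool.KA Pool.KSAT Pool.K2S Pool.PB Pool.GEN
open Pool.S6C Pool.RCD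
open Pool.GRD (LbP Pb_mono_pos)
open Pool.BFL (Pb)
open Pool.LIV (Pb_mono25 Pb_or25 Pb_ex25)
open Pool.GRW (xr xr_near tmc_bas)

variable {m : ℕ}

/-- **The derivatives along a natural vector on a nested box.** -/
theorem jet_box (m r K K' j : ℕ) : ∃ C : ℝ, 1 ≤ C ∧
    ∀ (c : ℕ → Fin m) (g : ℕ → MvPolynomial (Option (Fin m)) ℝ)
      (D : MvPolynomial (Option (Fin m)) ℝ) (b v : Option (Fin m) → ℝ) (s₀ δ : ℕ → ℝ)
      (δ₀ B M : ℝ), Set.InjOn c (Set.Iio r) →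
      (∀ i < r, DepN c i (g i)) → (∀ i < r, (g i).totalDegree ≤ K') → DepN c r D →
      D.totalDegree ≤ K → 0 < M → 0 < δ₀ → (∀ i < r, 0 < δ i) →
      (∀ x : Option (Fin m) → ℝ, |x none - b none| ≤ δ₀ →
        (∀ i < r, |x (some (c i)) - eval x (g i) - s₀ i| ≤ 2 * δ i) → |eval x D| ≤ B) →
      (∀ i < r, |jet 0 (X (some (c i)) - g i) b v - s₀ i| ≤ δ i) → |v none| ≤ M * δ₀ →
      (∀ i < r, ∀ j', 1 ≤ j' → j' ≤ j → |jet j' (X (some (c i)) - g i) b v| ≤ M ^ j' * δ i) →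
      |jet j D b v| ≤ C * B * M ^ j := by
  obtain ⟨K₁, hK₁⟩ : ∃ K₁, K₁ = max 1 K' := ⟨_, rfl⟩
  obtain ⟨E, hE⟩ : ∃ E : ℕ, E = max 1 j := ⟨_, rfl⟩
  obtain ⟨N, hN⟩ : ∃ N : ℕ, N = K * (K₁ ^ r * E) := ⟨_, rfl⟩
  obtain ⟨C₂, hC₂, hend⟩ := markov_end N j
  obtain ⟨n, hn⟩ : ∃ n : ℝ, n = (j : ℝ) + 1 := ⟨_, rfl⟩
  have hj0 : (0 : ℝ) ≤ j := Nat.cast_nonneg j
  have hn1 : 1 ≤ n := by rw [hn]; linarith
  have hn0 : 0 < n := by linarith
  refine ⟨C₂ * n ^ j, ?_, ?_⟩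
  · have h1 : (1 : ℝ) ≤ n ^ j := one_le_pow₀ hn1
    nlinarith
  intro c g D b v s₀ δ δ₀ B M hc hg hgd hD hDd hM hδ0 hδ hbox h0 hv hj
  obtain ⟨η, hη⟩ : ∃ η : ℕ → ℕ → ℝ, η = fun i j' => jet j' (X (some (c i)) - g i) b v := ⟨_, rfl⟩
  have hη' : ∀ i j', jet j' (X (some (c i)) - g i) b v = η i j' := fun i j' => by rw [hη]
  simp only [hη'] at h0 hj
  obtain ⟨P₂, hP₂⟩ : ∃ P₂, P₂ = nst c g (lp b v) (fun i => tay j (η i)) r := ⟨_, rfl⟩
  have hE1 : 1 ≤ E := by rw [hE]; exact le_max_left _ _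
  have hjE : j ≤ E := by rw [hE]; exact le_max_right _ _
  have hK1 : 1 ≤ K₁ := by rw [hK₁]; exact le_max_left _ _
  have hgd' : ∀ i < r, (g i).totalDegree ≤ K₁ := fun i hi => (hgd i hi).trans (by
    rw [hK₁]
    exact le_max_right _ _)
  have hlp : ∀ o, (lp b v o).natDegree ≤ E := fun o => (natDegree_lp b v o).trans hE1
  have hd2 : (aeval P₂ D).natDegree ≤ N := by
    rw [hN, hP₂]
    exact natDegree_aevalE D _ (fun o => nst_deg hK1 hgd' hlp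
      (fun i _ => (natDegree_tay j _).trans hjE) le_rfl o) hDd
  have e1 : jet j D b v = (Polynomial.derivative^[j] (aeval P₂ D)).eval 0 := by
    unfold jet
    refine der_of_dvd (dvd_aeval D fun o => ?_)
    have h1 := nst_own c g (lp b v) r
    have h2 : lp b v o = nst c g (lp b v) (fun i => aeval (lp b v) (X (some (c i)) - g i)) r o :=
      by rw [h1]
    rw [h2, hP₂]
    refine nst_dvd (fun o => by rw [sub_self]; exact dvd_zero _) (fun i _ => ?_) le_rfl o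
    rw [hη]
    exact dvd_tay _ j
  have hfac : ∀ k : ℕ, (1 : ℝ) ≤ k.factorial := fun k => by exact_mod_cast k.factorial_pos
  have key : ∀ t ∈ Set.Icc (0 : ℝ) (1 / (n * M)), |(aeval P₂ D).eval t| ≤ B := by
    intro t ht
    have ht1 : M * t ≤ 1 / n := by
      have := mul_le_mul_of_nonneg_left ht.2 hM.le
      refine this.trans (le_of_eq ?_)
      field_simp
    have ht0 : 0 ≤ M * t := mul_nonneg hM.le ht.1
    have ht2 : M * t ≤ 1 := ht1.trans (by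
      rw [div_le_one hn0]
      exact hn1)
    rw [Pool.KBX.eval_aeval_poly]
    refine hbox _ ?_ fun i hi => ?_
    · rw [hP₂, nst_none]
      simp only [lp, Polynomial.eval_add, Polynomial.eval_C, Polynomial.eval_mul,
        Polynomial.eval_X, add_sub_cancel_left]
      rw [abs_mul, abs_of_nonneg ht.1]
      calc |v none| * t ≤ M * δ₀ * t := mul_le_mul_of_nonneg_right hv ht.1
        _ = M * t * δ₀ := by ring
        _ ≤ 1 * δ₀ := mul_le_mul_of_nonneg_right ht2 hδ0.le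
        _ = δ₀ := one_mul _
    · have h3 := nst_pt hc hg (lp b v) (fun i => tay j (η i)) t hi
      rw [← hP₂] at h3
      rw [h3, eval_tay, Finset.sum_range_succ' _ j]
      simp only [Nat.factorial_zero, Nat.cast_one, div_one, pow_zero, mul_one]
      have h1 : |∑ k ∈ range j, η i (k + 1) / ((k + 1).factorial : ℝ) * t ^ (k + 1)| ≤
          ∑ k ∈ range j, δ i * (1 / n) := by
        refine (Finset.abs_sum_le_sum_abs _ _).trans (Finset.sum_le_sum fun k hk => ?_)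
        have hk' := Finset.mem_range.1 hk
        have h2 := hj i hi (k + 1) (by omega) (by omega)
        rw [abs_mul, abs_div, abs_of_pos (lt_of_lt_of_le one_pos (hfac (k + 1))),
          abs_of_nonneg (pow_nonneg ht.1 _)]
        have h4 : |η i (k + 1)| / ((k + 1).factorial : ℝ) ≤ |η i (k + 1)| :=
          div_le_self (abs_nonneg _) (hfac _)
        calc |η i (k + 1)| / ((k + 1).factorial : ℝ) * t ^ (k + 1)
            ≤ M ^ (k + 1) * δ i * t ^ (k + 1) :=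
              mul_le_mul_of_nonneg_right (h4.trans h2) (pow_nonneg ht.1 _)
          _ = δ i * ((M * t) ^ k * (M * t)) := by
              rw [← pow_succ, mul_pow]
              ring
          _ ≤ δ i * (1 * (1 / n)) := mul_le_mul_of_nonneg_left
              (mul_le_mul (pow_le_one₀ ht0 ht2) ht1 ht0 zero_le_one) (hδ i hi).le
          _ = δ i * (1 / n) := by rw [one_mul]
      rw [Finset.sum_const, Finset.card_range, nsmul_eq_mul] at h1
      have h2 : (j : ℝ) * (δ i * (1 / n)) ≤ δ i := by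
        have h5 : (j : ℝ) * (1 / n) ≤ 1 := by
          rw [mul_one_div, div_le_one hn0, hn]
          linarith
        have h6 := mul_le_mul_of_nonneg_right h5 (hδ i hi).le
        linarith
      have h4 : (∑ k ∈ range j, η i (k + 1) / ((k + 1).factorial : ℝ) * t ^ (k + 1)) + η i 0 -
          s₀ i = (∑ k ∈ range j, η i (k + 1) / ((k + 1).factorial : ℝ) * t ^ (k + 1)) +
          (η i 0 - s₀ i) := by ring
      rw [h4]
      refine (abs_add_le _ _).trans ?_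
      have h5 := h0 i hi
      linarith
  have h5 := hend (aeval P₂ D) B (1 / (n * M)) hd2 (by positivity) key
  rw [← e1] at h5
  refine h5.trans (le_of_eq ?_)
  rw [one_div, inv_pow, div_inv_eq_mul, mul_pow]
  ring

/-- **The change of the charts.** -/
theorem jet_frame (m r K K' j : ℕ) : ∃ C : ℝ, 1 ≤ C ∧
    ∀ (c : ℕ → Fin m) (g g' : ℕ → MvPolynomial (Option (Fin m)) ℝ)
      (b v : Option (Fin m) → ℝ) (s₀ δ : ℕ → ℝ)
      (δ₀ l M : ℝ), Set.InjOn c (Set.Iio r) →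
      (∀ i < r, DepN c i (g i)) → (∀ i < r, DepN c i (g' i)) →
      (∀ i < r, (g i).totalDegree ≤ K') → (∀ i < r, (g' i).totalDegree ≤ K) → 0 < M → 1 ≤ l →
      0 < δ₀ → (∀ i < r, 0 < δ i) →
      (∀ n < r, ∀ x : Option (Fin m) → ℝ, |x none - b none| ≤ δ₀ →
        (∀ i < n, |x (some (c i)) - eval x (g i) - s₀ i| ≤ 2 * δ i) →
        |eval x (g n - g' n)| ≤ l * δ n) →
      (∀ i < r, |jet 0 (X (some (c i)) - g i) b v - s₀ i| ≤ δ i) → |v none| ≤ M * δ₀ →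
      (∀ i < r, ∀ j', 1 ≤ j' → j' ≤ j → |jet j' (X (some (c i)) - g' i) b v| ≤ M ^ j' * δ i) →
      ∀ i < r, ∀ j', 1 ≤ j' → j' ≤ j →
        |jet j' (X (some (c i)) - g i) b v| ≤ ((C * l) ^ r * M) ^ j' * δ i := by
  have hex : ∀ n j' : ℕ, ∃ C : ℝ, 1 ≤ C ∧
    ∀ (c : ℕ → Fin m) (g : ℕ → MvPolynomial (Option (Fin m)) ℝ)
      (D : MvPolynomial (Option (Fin m)) ℝ) (b v : Option (Fin m) → ℝ) (s₀ δ : ℕ → ℝ)
      (δ₀ B M : ℝ), Set.InjOn c (Set.Iio n) →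
      (∀ i < n, DepN c i (g i)) → (∀ i < n, (g i).totalDegree ≤ K') → DepN c n D →
      D.totalDegree ≤ max K K' → 0 < M → 0 < δ₀ → (∀ i < n, 0 < δ i) →
      (∀ x : Option (Fin m) → ℝ, |x none - b none| ≤ δ₀ →
        (∀ i < n, |x (some (c i)) - eval x (g i) - s₀ i| ≤ 2 * δ i) → |eval x D| ≤ B) →
      (∀ i < n, |jet 0 (X (some (c i)) - g i) b v - s₀ i| ≤ δ i) → |v none| ≤ M * δ₀ →
      (∀ i < n, ∀ j'', 1 ≤ j'' → j'' ≤ j' → |jet j'' (X (some (c i)) - g i) b v| ≤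
        M ^ j'' * δ i) →
      |jet j' D b v| ≤ C * B * M ^ j' := fun n j' => jet_box m n (max K K') K' j'
  choose Cf hCf1 hCf using hex
  obtain ⟨C, hC⟩ : ∃ C : ℝ, C = 1 + ∑ n ∈ range (r + 1), ∑ j' ∈ range (j + 1), Cf n j' := ⟨_, rfl⟩
  have hsum0 : ∀ n, 0 ≤ ∑ j' ∈ range (j + 1), Cf n j' := fun n =>
    Finset.sum_nonneg fun j' _ => by linarith [hCf1 n j']
  have hCle : ∀ n ≤ r, ∀ j' ≤ j, Cf n j' + 1 ≤ C := by
    intro n hn j' hj'
    have h1 : Cf n j' ≤ ∑ j' ∈ range (j + 1), Cf n j' :=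
      Finset.single_le_sum (f := fun j' => Cf n j') (fun i _ => by linarith [hCf1 n i])
        (mem_range.2 (by omega))
    have h2 : ∑ j' ∈ range (j + 1), Cf n j' ≤ ∑ n ∈ range (r + 1), ∑ j' ∈ range (j + 1), Cf n j' :=
      Finset.single_le_sum (f := fun n => ∑ j' ∈ range (j + 1), Cf n j') (fun i _ => hsum0 i)
        (mem_range.2 (by omega))
    rw [hC]
    linarith
  have hC1 : 1 ≤ C := by
    have := hCle 0 (Nat.zero_le _) 0 (Nat.zero_le _)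
    linarith [hCf1 0 0]
  refine ⟨C, hC1, ?_⟩
  intro c g g' b v s₀ δ δ₀ l M hc hg hg' hgd hgd' hM hl hδ0 hδ hbox h0 hv hj
  have hCl : 1 ≤ C * l := by nlinarith
  have key : ∀ n ≤ r, ∀ i < n, ∀ j', 1 ≤ j' → j' ≤ j →
      |jet j' (X (some (c i)) - g i) b v| ≤ ((C * l) ^ n * M) ^ j' * δ i := by
    intro n
    induction n with
    | zero =>
      intro _ i hi
      exact absurd hi (Nat.not_lt_zero i)
    | succ n ih =>
      intro hn i hi j' hj1 hj2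
      have hP1 : (1 : ℝ) ≤ (C * l) ^ n := one_le_pow₀ hCl
      have hM' : M ≤ (C * l) ^ n * M := le_mul_of_one_le_left hM.le hP1
      have hM0 : 0 < (C * l) ^ n * M := by positivity
      rcases Nat.lt_or_ge i n with hi' | hi'
      · refine (ih (by omega) i hi' j' hj1 hj2).trans ?_
        refine mul_le_mul_of_nonneg_right ?_ (hδ i (by omega)).le
        refine pow_le_pow_left₀ hM0.le ?_ _
        refine mul_le_mul_of_nonneg_right ?_ hM.le
        exact pow_le_pow_right₀ hCl (Nat.le_succ n)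
      · have hin : i = n := by omega
        subst hin
        have h1 := hCf i j' c g (g i - g' i) b v s₀ δ δ₀ (l * δ i) ((C * l) ^ i * M)
          (hc.mono fun x hx => show x < r from lt_trans hx (by omega))
          (fun i' hi' => hg i' (by omega)) (fun i' hi' => hgd i' (by omega))
          (fun x x' e1 e2 => by
            rw [map_sub, map_sub, hg i (by omega) x x' e1 e2, hg' i (by omega) x x' e1 e2])
          ((totalDegree_sub _ _).trans (max_le ((hgd i (by omega)).trans (le_max_right _ _))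
            ((hgd' i (by omega)).trans (le_max_left _ _)))) hM0 hδ0
          (fun i' hi' => hδ i' (by omega)) (hbox i (by omega)) (fun i' hi' => h0 i' (by omega))
          (hv.trans (mul_le_mul_of_nonneg_right hM' hδ0.le))
          (fun i' hi' j'' h1 h2 => ih (by omega) i' hi' j'' h1 (by omega))
        have h2 := hj i (by omega) j' hj1 hj2
        have e : jet j' (X (some (c i)) - g i) b v = jet j' (X (some (c i)) - g' i) b v -
            jet j' (g i - g' i) b v := by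
          rw [← jet_sub]
          congr 1
          ring
        rw [e]
        refine (abs_sub _ _).trans ((add_le_add h2 h1).trans ?_)
        have hpj : 0 < ((C * l) ^ i * M) ^ j' := by positivity
        have h3 : M ^ j' ≤ ((C * l) ^ i * M) ^ j' := pow_le_pow_left₀ hM.le hM' _
        have hCij := hCle i (by omega) j' hj2
        have hδi := hδ i (by omega)
        calc M ^ j' * δ i + Cf i j' * (l * δ i) * ((C * l) ^ i * M) ^ j'
            ≤ ((C * l) ^ i * M) ^ j' * δ i + Cf i j' * (l * δ i) * ((C * l) ^ i * M) ^ j' := by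
              have := mul_le_mul_of_nonneg_right h3 hδi.le
              linarith
          _ = (1 + Cf i j' * l) * (((C * l) ^ i * M) ^ j' * δ i) := by ring
          _ ≤ (C * l) ^ j' * (((C * l) ^ i * M) ^ j' * δ i) := by
              refine mul_le_mul_of_nonneg_right ?_ (mul_pos hpj hδi).le
              have h4 : (C * l) ≤ (C * l) ^ j' := le_self_pow₀ hCl (by omega)
              refine le_trans ?_ h4
              have h5 : (Cf i j' + 1) * l ≤ C * l := mul_le_mul_of_nonneg_right hCij (by linarith)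
              linarith
          _ = ((C * l) ^ (i + 1) * M) ^ j' * δ i := by
              rw [pow_succ, mul_pow, mul_pow, mul_pow]
              ring
  exact key r le_rfl

theorem jet_one (H : MvPolynomial (Option (Fin m)) ℝ) (b v : Option (Fin m) → ℝ) :
    jet 1 H b v = ∑ o, v o * eval b (pderiv o H) := by
  have e0 : (fun o => b o + 0 * v o) = b := by
    funext o
    ring
  unfold jet
  rw [Function.iterate_one, der_aevalσ, Polynomial.eval_finsetSum]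
  refine Finset.sum_congr rfl fun o _ => ?_
  rw [Polynomial.eval_mul, eval_alp, e0, mul_comm]
  congr 1
  unfold lp
  simp

/-- **The derivatives of two closed labels along natural vectors.** -/
theorem jet_cls {S : PCl m} {C₀ : ℝ} (htm : TmC S C₀) {c : ℕ → Fin m} {r₀ r : ℕ}
    {w u₀ u₁ : ℝ} {s rd : ℕ → ℝ} (hch : Chn S c r₀ r w u₀ u₁ s rd) (j : ℕ) {ε : ℝ} (hε : 0 < ε) :
    ∃ e₁ : ℝ, 0 < e₁ ∧ ∀ (K : ℕ) (η : ℝ), 0 < η → Bas S (fun J F A =>
      ∀ (k : Fin m) (P₁ P₂ : ℕ) (V V₁ V₂ : Type)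
        (z : PtT F → V) (z' : LnT F → V) (g : V → ℕ → MvPolynomial (Option (Fin m)) ℝ)
        (z₁ : PtT F → V₁) (z₁' : LnT F → V₁) (G₁ : V₁ → MvPolynomial (Option (Fin m)) ℝ)
        (z₂ : PtT F → V₂) (z₂' : LnT F → V₂) (G₂ : V₂ → MvPolynomial (Option (Fin m)) ℝ),
        (∀ i, r₀ ≤ i → i < r → LbP F ((range i).image c) (c i) K J ⌊w * J⌋₊
          ⌊(s i - e₁) * J⌋₊ A z z' (fun v => g v i)) →
        LbP F ((range r).image c) k K J ⌊w * J⌋₊ P₁ A z₁ z₁' G₁ →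
        LbP F ((range r).image c) k K J ⌊w * J⌋₊ P₂ A z₂ z₂' G₂ →
        Pb (Pool.Agent.H49.Ent.cond F.p A True) (fun ω =>
          ¬ ∀ (v : Option (Fin m) → ℝ) (M : ℝ), 0 < M → |v none| ≤ M * 2 ^ (-u₀ * J) →
            (∀ l < r₀, |v (some (c l))| ≤ M * 2 ^ (-u₀ * J)) →
            (∀ i, r₀ ≤ i → i < r → ∀ j', 1 ≤ j' → j' ≤ j →
              |jet j' (X (some (c i)) - g (z' (slam F ⌊w * J⌋₊ ω)) i) (bt F ω) v| ≤
                M ^ j' * 2 ^ (-s i * J)) →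
            ∀ j' ≤ j,
              |jet j' (G₁ (z₁' (slam F ⌊w * J⌋₊ ω)) - G₂ (z₂' (slam F ⌊w * J⌋₊ ω))) (bt F ω) v| ≤
                2 ^ (ε * J) * (1 / 2 ^ P₁ + 1 / 2 ^ P₂) * M ^ j') ≤ η) := by
  classical
  have hr := hch.hr
  have hu01 := hch.u0
  have hw0 := hch.w0
  have hwu0 := hch.wu0
  have hw1 : w < 1 := by linarith
  have hu00 : 0 ≤ u₀ := by linarith
  have hj0 : (0 : ℝ) ≤ j := Nat.cast_nonneg j
  have hr0 : (0 : ℝ) ≤ r := Nat.cast_nonneg r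
  obtain ⟨ε₁, hε₁⟩ : ∃ ε₁ : ℝ, ε₁ = ε / (2 * (1 + j * (2 * r + 1))) := ⟨_, rfl⟩
  have hε10 : 0 < ε₁ := by rw [hε₁]; positivity
  have hε11 : ε₁ * (1 + j * (2 * r + 1)) = ε / 2 := by
    rw [hε₁]
    have : (1 + (j : ℝ) * (2 * r + 1)) ≠ 0 := by positivity
    field_simp
  obtain ⟨υ, hυ⟩ : ∃ υ : ℝ, υ = min ε₁ ((1 - u₀) / 2) := ⟨_, rfl⟩
  have hυ0 : 0 < υ := by rw [hυ]; exact lt_min hε10 (by linarith)
  have hυ1 : υ ≤ ε₁ := by rw [hυ]; exact min_le_left _ _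
  have hυ2 : υ ≤ (1 - u₀) / 2 := by rw [hυ]; exact min_le_right _ _
  obtain ⟨u₂, hu₂⟩ : ∃ u₂ : ℝ, u₂ = u₀ + υ := ⟨_, rfl⟩
  have hu02 : u₀ < u₂ := by linarith
  have hu21 : u₂ < 1 := by linarith
  have hu20 : 0 ≤ u₂ := by linarith
  refine ⟨ε₁, hε10, fun K η hη => ?_⟩
  obtain ⟨Kc, d, hd, hnb⟩ := nbx_cls htm hch hu02 hu21 K hε10 hε10
  obtain ⟨K', hK'⟩ : ∃ K', K' = (range r).sup Kc := ⟨_, rfl⟩
  obtain ⟨C₁, hC₁, hfr⟩ := jet_frame m r K K' j
  have hex : ∀ j' : ℕ, ∃ C : ℝ, 1 ≤ C ∧ ∀ (c : ℕ → Fin m) (g : ℕ → MvPolynomial (Option (Fin m)) ℝ)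
      (D : MvPolynomial (Option (Fin m)) ℝ) (b v : Option (Fin m) → ℝ) (s₀ δ : ℕ → ℝ)
      (δ₀ B M : ℝ), Set.InjOn c (Set.Iio r) →
      (∀ i < r, DepN c i (g i)) → (∀ i < r, (g i).totalDegree ≤ K') → DepN c r D →
      D.totalDegree ≤ K → 0 < M → 0 < δ₀ → (∀ i < r, 0 < δ i) →
      (∀ x : Option (Fin m) → ℝ, |x none - b none| ≤ δ₀ →
        (∀ i < r, |x (some (c i)) - eval x (g i) - s₀ i| ≤ 2 * δ i) → |eval x D| ≤ B) →
      (∀ i < r, |jet 0 (X (some (c i)) - g i) b v - s₀ i| ≤ δ i) → |v none| ≤ M * δ₀ →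
      (∀ i < r, ∀ j'', 1 ≤ j'' → j'' ≤ j' → |jet j'' (X (some (c i)) - g i) b v| ≤
        M ^ j'' * δ i) →
      |jet j' D b v| ≤ C * B * M ^ j' := fun j' => jet_box m r K K' j'
  choose Cf hCf1 hCf using hex
  obtain ⟨C₂, hC₂⟩ : ∃ C : ℝ, C = 1 + ∑ j' ∈ range (j + 1), Cf j' := ⟨_, rfl⟩
  have hCle : ∀ j' ≤ j, Cf j' + 1 ≤ C₂ := by
    intro j' hj'
    have h1 : Cf j' ≤ ∑ j' ∈ range (j + 1), Cf j' :=
      Finset.single_le_sum (f := fun j' => Cf j') (fun i _ => by linarith [hCf1 i])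
        (mem_range.2 (by omega))
    rw [hC₂]
    linarith
  have hC21 : 1 ≤ C₂ := by
    have := hCle 0 (Nat.zero_le _)
    linarith [hCf1 0]
  obtain ⟨Q, hQ⟩ : ∃ Q : ℝ, Q = C₂ * ((4 * C₁) ^ r * 2) ^ j := ⟨_, rfl⟩
  obtain ⟨J₁, hJ₁⟩ := E_big (a := ε / 2) (C := Q) (by linarith)
  obtain ⟨η', hη'⟩ : ∃ η' : ℝ, η' = min 1 (η / (r + 1)) := ⟨_, rfl⟩
  have hη0 : 0 < η' := by rw [hη']; exact lt_min one_pos (by positivity)
  have hη1 : η' ≤ 1 := by rw [hη']; exact min_le_left _ _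
  have hη2 : (r + 1) * η' ≤ η := by
    have : η' ≤ η / (r + 1) := by rw [hη']; exact min_le_right _ _
    rw [le_div_iff₀ (by positivity)] at this
    linarith
  refine Bas.mono (J₁ + 1 + ⌈1 / (1 - u₂)⌉₊) ((hnb η' hη0 hη1).and (tmc_bas htm one_pos)) ?_
  rintro J hJ F A ⟨⟨V, z, z', g, hlab, hg0, hgc, hbox⟩, hA, -⟩ k P₁ P₂ V' V₁ V₂ y y' g' z₁ z₁' G₁
    z₂ z₂' G₂ hfrm hl₁ hl₂
  have hJ0 : (0 : ℝ) ≤ J := Nat.cast_nonneg J
  have hJpos : 1 ≤ J := by omega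
  have f1 := hJ₁ J (by omega)
  have hUJ : ⌊u₂ * J⌋₊ + 1 ≤ J := by
    have e1 : ((⌊u₂ * J⌋₊ : ℕ) : ℝ) ≤ u₂ * J := Nat.floor_le (by positivity)
    have e2 : (1 : ℝ) ≤ J := by exact_mod_cast hJpos
    have e3 : u₂ * J < 1 * J := mul_lt_mul_of_pos_right hu21 (by linarith)
    have e4 : ((⌊u₂ * J⌋₊ : ℕ) : ℝ) < J := by linarith
    exact_mod_cast e4
  have hq := isLaw_cond F.isLaw hA
  have h0 := hq.nonneg
  have hd8 : ∀ i, r₀ ≤ i → i < r → d i ≤ ε₁ ∧ 0 < d i := fun i a b => ⟨(hd i a b).2,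
    (hd i a b).1⟩
  obtain ⟨gg, hgg⟩ : ∃ gg : ℕ → ℕ, gg = fun i => ⌊(s i - d i) * J⌋₊ := ⟨_, rfl⟩
  have hgdep : ∀ i, r₀ ≤ i → i < r → ∀ v, DepN c i (g v i) := by
    intro i hi0 hi v x x' e1 e2
    refine (hlab i hi0 hi).dep v x x' e1 fun l hl => ?_
    obtain ⟨l', hl', rfl⟩ := mem_image.1 hl
    exact e2 l' (mem_range.1 hl')
  have hgdep' : ∀ i, r₀ ≤ i → i < r → ∀ v, DepN c i (g' v i) := by
    intro i hi0 hi v x x' e1 e2
    refine (hfrm i hi0 hi).dep v x x' e1 fun l hl => ?_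
    obtain ⟨l', hl', rfl⟩ := mem_image.1 hl
    exact e2 l' (mem_range.1 hl')
  have hgdeg : ∀ i < r, ∀ v, (g v i).totalDegree ≤ K' := by
    intro i hi v
    rcases Nat.lt_or_ge i r₀ with h' | h'
    · rw [hg0 v i (Or.inl h'), totalDegree_zero]
      exact Nat.zero_le _
    · rw [hK']
      exact ((hlab i h' hi).deg v).trans (Finset.le_sup (f := Kc) (mem_range.2 hi))
  have hG12 : ∀ v₁ v₂, DepN c r (G₁ v₁ - G₂ v₂) ∧ (G₁ v₁ - G₂ v₂).totalDegree ≤ K := by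
    intro v₁ v₂
    refine ⟨fun x x' e1 e2 => ?_, (totalDegree_sub _ _).trans (max_le (hl₁.deg _) (hl₂.deg _))⟩
    have e3 : ∀ i ∈ (range r).image c, x (some i) = x' (some i) := by
      intro i hi
      obtain ⟨l, hl, rfl⟩ := mem_image.1 hi
      exact e2 l (mem_range.1 hl)
    rw [map_sub, map_sub, hl₁.dep _ x x' e1 e3, hl₂.dep _ x x' e1 e3]
  -- the bad events
  obtain ⟨bad1, hbad1⟩ : ∃ bad1 : ℕ → F.Ω → Prop, bad1 = fun i ω =>
    r₀ ≤ i ∧ ¬ ∀ x, NB F c r₀ i ⌊u₂ * J⌋₊ (fun i => 2 / 2 ^ gg i)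
        (g (z' (slam F ⌊w * J⌋₊ ω))) ω x →
      |eval x (g (z' (slam F ⌊w * J⌋₊ ω)) i - g' (y' (slam F ⌊w * J⌋₊ ω)) i)| ≤
        2 ^ (ε₁ * J) * (1 / 2 ^ gg i + 1 / 2 ^ ⌊(s i - ε₁) * J⌋₊) := ⟨_, rfl⟩
  obtain ⟨bad3, hbad3⟩ : ∃ bad3 : F.Ω → Prop, bad3 = fun ω =>
    ¬ ∀ x, NB F c r₀ r ⌊u₂ * J⌋₊ (fun i => 2 / 2 ^ gg i)
        (g (z' (slam F ⌊w * J⌋₊ ω))) ω x →
      |eval x (G₁ (z₁' (slam F ⌊w * J⌋₊ ω)) - G₂ (z₂' (slam F ⌊w * J⌋₊ ω)))| ≤
        2 ^ (ε₁ * J) * (1 / 2 ^ P₁ + 1 / 2 ^ P₂) := ⟨_, rfl⟩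
  have hP1 : ∀ i < r, Pb (Pool.Agent.H49.Ent.cond F.p A True) (bad1 i) ≤ η' := by
    intro i hi
    by_cases hi0 : r₀ ≤ i
    · have b3 := hbox i hi0 hi.le (c i) (max K (Kc i)) ⌊(s i - d i) * J⌋₊ ⌊(s i - ε₁) * J⌋₊
        _ _ _ _ _ _ _ _ (by rw [if_pos hi])
        ((LbP.of (hlab i hi0 hi)).mono (Finset.Subset.refl _) (le_max_right _ _) le_rfl)
        ((hfrm i hi0 hi).mono (Finset.Subset.refl _) (le_max_left _ _) le_rfl)
      refine le_trans (Pb_mono25 h0 fun ω hω hn => ?_) b3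
      rw [hbad1] at hn
      intro hall
      refine hn.2 fun x hx => ?_
      rw [hgg] at hx ⊢
      exact hall x hx
    · refine le_trans (Pb_mono25 h0 (B := fun _ => False) fun ω hω hn => ?_) (le_of_eq_of_le ?_
        hη0.le)
      · rw [hbad1] at hn
        exact hi0 hn.1
      · unfold Pb
        simp
  have hP3 : Pb (Pool.Agent.H49.Ent.cond F.p A True) bad3 ≤ η' := by
    have b3 := hbox r hr le_rfl k K P₁ P₂ V₁ V₂ z₁ z₁' G₁ z₂ z₂' G₂ (le_max_left _ _) hl₁ hl₂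
    rw [hbad3, hgg]
    exact b3
  have hPB : Pb (Pool.Agent.H49.Ent.cond F.p A True)
      (fun ω => (∃ i < r, bad1 i ω) ∨ bad3 ω) ≤ η := by
    have b1 := Pb_ex25 h0 (fun i ω => bad1 i ω) r fun i hi => hP1 i hi
    refine (Pb_or25 h0 _ _).trans ?_
    linarith
  refine le_trans (Pb_mono25 h0 fun ω hω hn => ?_) hPB
  by_contra hgood
  push Not at hgood
  obtain ⟨hg1, hg3⟩ := hgood
  have hωA : A ω := of_cond_pos hω
  refine hn ?_
  intro v M hM hv0 hvb hvc j' hj'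
  have hUle : (2 : ℝ) ^ ⌊u₂ * J⌋₊ ≤ 2 ^ (u₂ * J) := E_floor_le hu20
  have hgg' : ∀ i, r₀ ≤ i → i < r → (2 : ℝ) ^ (-s i * J) ≤ 1 / 2 ^ gg i := by
    intro i hi0 hi
    rw [hgg]
    exact E_inv_floor_ge (hch.s0 i hi0 hi).1 (by linarith [(hd8 i hi0 hi).2])
  obtain ⟨M₂, hM₂⟩ : ∃ M₂ : ℝ, M₂ = 2 * 2 ^ (ε₁ * J) * M := ⟨_, rfl⟩
  have hE1 := E_pos J ε₁
  have hE11 : (1 : ℝ) ≤ 2 ^ (ε₁ * J) := E_one hε10.le
  have hMM : M ≤ M₂ := by
    rw [hM₂]
    exact le_mul_of_one_le_left hM.le (by linarith)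
  have hM20 : 0 < M₂ := by linarith
  have hub : M * 2 ^ (-u₀ * J) ≤ M₂ * (1 / 2 ^ (⌊u₂ * J⌋₊ + 1)) := by
    have e1 : (2 : ℝ) ^ (-u₀ * J) ≤ 2 ^ (ε₁ * J) * (1 / 2 ^ ⌊u₂ * J⌋₊) := by
      have e2 : (2 : ℝ) ^ (-u₀ * J) ≤ 2 ^ (ε₁ * J) * 2 ^ (-u₂ * J) := by
        rw [E_add]
        exact E_mono J (by linarith)
      have e3 : (2 : ℝ) ^ (-u₂ * J) ≤ 1 / 2 ^ ⌊u₂ * J⌋₊ := E_inv_floor_ge hu20 le_rfl
      exact e2.trans (mul_le_mul_of_nonneg_left e3 hE1.le)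
    have e4 : M₂ * (1 / 2 ^ (⌊u₂ * J⌋₊ + 1)) = M * (2 ^ (ε₁ * J) * (1 / 2 ^ ⌊u₂ * J⌋₊)) := by
      rw [hM₂, pow_succ]
      field_simp
    rw [e4]
    exact mul_le_mul_of_nonneg_left e1 hM.le
  -- the charts
  obtain ⟨gb, hgb⟩ : ∃ gb, gb = g (z' (slam F ⌊w * J⌋₊ ω)) := ⟨_, rfl⟩
  obtain ⟨gf, hgf⟩ : ∃ gf : ℕ → MvPolynomial (Option (Fin m)) ℝ, gf = fun i => if i < r₀ then 0
    else g' (y' (slam F ⌊w * J⌋₊ ω)) i := ⟨_, rfl⟩
  have hgfb : ∀ i < r₀, gf i = 0 := fun i hi => by rw [hgf]; exact if_pos hi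
  have hgfc : ∀ i, r₀ ≤ i → gf i = g' (y' (slam F ⌊w * J⌋₊ ω)) i := fun i hi => by
    rw [hgf]
    exact if_neg (not_lt.2 hi)
  have hgbb : ∀ i < r₀, gb i = 0 := fun i hi => by rw [hgb]; exact hg0 _ i (Or.inl hi)
  have hdep0 : ∀ n, DepN c n (0 : MvPolynomial (Option (Fin m)) ℝ) := fun n x x' _ _ => by
    rw [map_zero, map_zero]
  obtain ⟨s₀, hs₀⟩ : ∃ s₀ : ℕ → ℝ, s₀ = fun i => if i < r₀ then xr F ω (some (c i)) else 0 :=
    ⟨_, rfl⟩
  have hs₀b : ∀ i < r₀, s₀ i = xr F ω (some (c i)) := fun i hi => by rw [hs₀]; exact if_pos hi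
  have hs₀c : ∀ i, r₀ ≤ i → s₀ i = 0 := fun i hi => by rw [hs₀]; exact if_neg (not_lt.2 hi)
  obtain ⟨δ, hδ⟩ : ∃ δ : ℕ → ℝ, δ = fun i => if i < r₀ then 1 / 2 ^ (⌊u₂ * J⌋₊ + 1) else
    1 / 2 ^ gg i := ⟨_, rfl⟩
  have hδb : ∀ i < r₀, δ i = 1 / 2 ^ (⌊u₂ * J⌋₊ + 1) := fun i hi => by rw [hδ]; exact if_pos hi
  have hδc : ∀ i, r₀ ≤ i → δ i = 1 / 2 ^ gg i := fun i hi => by
    rw [hδ]
    exact if_neg (not_lt.2 hi)
  have hδ0 : ∀ i, 0 < δ i := by
    intro i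
    rcases Nat.lt_or_ge i r₀ with h' | h'
    · rw [hδb i h']
      positivity
    · rw [hδc i h']
      positivity
  have hNB : ∀ n, n ≤ r → ∀ x : Option (Fin m) → ℝ, |x none - bt F ω none| ≤
      1 / 2 ^ (⌊u₂ * J⌋₊ + 1) →
      (∀ i < n, |x (some (c i)) - eval x (gb i) - s₀ i| ≤ 2 * δ i) →
      NB F c r₀ n ⌊u₂ * J⌋₊ (fun i => 2 / 2 ^ gg i) gb ω x ∨ n < r₀ := by
    intro n hn x hx0 hx
    rcases Nat.lt_or_ge n r₀ with hnr | hnr
    · exact Or.inr hnr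
    left
    have e1 : (1 : ℝ) / 2 ^ (⌊u₂ * J⌋₊ + 1) ≤ 1 / 2 ^ ⌊u₂ * J⌋₊ := inv_mono (Nat.le_succ _)
    refine ⟨hx0.trans e1, fun l hl => ?_, fun i hi0 hi => ?_⟩
    · have e2 := hx l (by omega)
      rw [hgbb l hl, map_zero, sub_zero, hs₀b l hl, hδb l hl] at e2
      refine e2.trans (le_of_eq ?_)
      rw [pow_succ]
      field_simp
    · have e2 := hx i hi
      rw [hs₀c i hi0, sub_zero, hδc i hi0] at e2
      refine e2.trans (le_of_eq ?_)
      ring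
  have hb0 : ∀ i < r, |jet 0 (X (some (c i)) - gb i) (bt F ω) v - s₀ i| ≤ δ i := by
    intro i hi
    have e1 : jet 0 (X (some (c i)) - gb i) (bt F ω) v = F.x ω (c i) - eval (bt F ω) (gb i) := by
      unfold jet
      rw [Function.iterate_zero, id, eval_alp]
      have e0 : (fun o => bt F ω o + 0 * v o) = bt F ω := by
        funext o
        ring
      rw [e0, map_sub, eval_X]
      rfl
    rw [e1]
    rcases Nat.lt_or_ge i r₀ with h' | h'
    · rw [hgbb i h', map_zero, sub_zero, hs₀b i h', hδb i h']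
      have e2 := xr_near F ω (some (c i))
      rw [abs_sub_comm] at e2
      exact e2.trans (inv_mono hUJ)
    · rw [hs₀c i h', sub_zero, hδc i h', hgb, hgg]
      exact (hlab i h' hi).pos ω hωA
  obtain ⟨l, hl⟩ : ∃ l : ℝ, l = 4 * 2 ^ (2 * ε₁ * J) := ⟨_, rfl⟩
  have hl1 : 1 ≤ l := by
    rw [hl]
    have : (1 : ℝ) ≤ 2 ^ (2 * ε₁ * J) := E_one (by linarith)
    linarith
  have hframe := hfr c gb gf (bt F ω) v s₀ δ (1 / 2 ^ (⌊u₂ * J⌋₊ + 1)) l M₂ hch.inj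
    (fun i hi => by
      rcases Nat.lt_or_ge i r₀ with h' | h'
      · rw [hgbb i h']
        exact hdep0 i
      · rw [hgb]
        exact hgdep i h' hi _)
    (fun i hi => by
      rcases Nat.lt_or_ge i r₀ with h' | h'
      · rw [hgfb i h']
        exact hdep0 i
      · rw [hgfc i h']
        exact hgdep' i h' hi _)
    (fun i hi => by rw [hgb]; exact hgdeg i hi _)
    (fun i hi => by
      rcases Nat.lt_or_ge i r₀ with h' | h'
      · rw [hgfb i h', totalDegree_zero]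
        exact Nat.zero_le _
      · rw [hgfc i h']
        exact (hfrm i h' hi).deg _) hM20 hl1 (by positivity) (fun i _ => hδ0 i) (by
      intro n hn x hx0 hx
      rcases Nat.lt_or_ge n r₀ with h' | h'
      · rw [hgbb n h', hgfb n h', sub_zero, map_zero, abs_zero]
        exact mul_nonneg (by linarith) (hδ0 n).le
      · have e1 := (hNB n hn.le x hx0 hx).resolve_right (by omega)
        have e2 := hg1 n hn
        rw [hbad1] at e2
        have e3 : ∀ x, NB F c r₀ n ⌊u₂ * J⌋₊ (fun i => 2 / 2 ^ gg i)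
            (g (z' (slam F ⌊w * J⌋₊ ω))) ω x →
            |eval x (g (z' (slam F ⌊w * J⌋₊ ω)) n - g' (y' (slam F ⌊w * J⌋₊ ω)) n)| ≤
            2 ^ (ε₁ * J) * (1 / 2 ^ gg n + 1 / 2 ^ ⌊(s n - ε₁) * J⌋₊) := by
          by_contra hno
          exact e2 ⟨h', hno⟩
        rw [← hgb] at e3
        have e4 := e3 x e1
        rw [hgfc n h']
        refine e4.trans ?_
        rw [hδc n h', hl]
        have e5 : (1 : ℝ) / 2 ^ ⌊(s n - ε₁) * J⌋₊ ≤ 2 * (2 ^ (ε₁ * J) * (1 / 2 ^ gg n)) := by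
          refine (E_inv_floor J (s n - ε₁)).trans ?_
          refine mul_le_mul_of_nonneg_left ?_ (by norm_num)
          have e6 : (2 : ℝ) ^ (-(s n - ε₁) * J) = 2 ^ (ε₁ * J) * 2 ^ (-s n * J) := by
            rw [E_add]
            congr 1
            ring
          rw [e6]
          exact mul_le_mul_of_nonneg_left (hgg' n h' hn) hE1.le
        have e7 : (2 : ℝ) ^ (2 * ε₁ * J) = 2 ^ (ε₁ * J) * 2 ^ (ε₁ * J) := by
          rw [E_add]
          congr 1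
          ring
        have e8 : (0 : ℝ) < 1 / 2 ^ gg n := by positivity
        have e9 : (1 : ℝ) / 2 ^ gg n ≤ 2 ^ (ε₁ * J) * (1 / 2 ^ gg n) :=
          le_mul_of_one_le_left e8.le hE11
        rw [e7]
        calc 2 ^ (ε₁ * J) * (1 / 2 ^ gg n + 1 / 2 ^ ⌊(s n - ε₁) * J⌋₊)
            ≤ 2 ^ (ε₁ * J) * (4 * (2 ^ (ε₁ * J) * (1 / 2 ^ gg n))) :=
              mul_le_mul_of_nonneg_left (by linarith [mul_pos hE1 e8]) hE1.le
          _ = 4 * (2 ^ (ε₁ * J) * 2 ^ (ε₁ * J)) * (1 / 2 ^ gg n) := by ring)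
    hb0 (hv0.trans hub) (by
      intro i hi j'' h1 h2
      rcases Nat.lt_or_ge i r₀ with h' | h'
      · rw [hgfb i h', sub_zero, hδb i h']
        obtain ⟨-, x1, x2⟩ := jet_X (some (c i)) (bt F ω) v
        rcases Nat.eq_or_lt_of_le h1 with h3 | h3
        · rw [← h3, x1, pow_one]
          exact (hvb i h').trans hub
        · obtain ⟨q, rfl⟩ : ∃ q, j'' = q + 2 := ⟨j'' - 2, by omega⟩
          rw [x2, abs_zero]
          positivity
      · rw [hgfc i h', hδc i h']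
        refine (hvc i h' hi j'' h1 h2).trans ?_
        exact mul_le_mul (pow_le_pow_left₀ hM.le hMM _) (hgg' i h' hi) (E_pos J _).le
          (by positivity))
  -- the end
  obtain ⟨B, hB⟩ : ∃ B : ℝ, B = 2 ^ (ε₁ * J) * (1 / 2 ^ P₁ + 1 / 2 ^ P₂) := ⟨_, rfl⟩
  have hB0 : 0 ≤ B := by rw [hB]; positivity
  have hCl : 1 ≤ C₁ * l := by nlinarith
  have hCl' : (1 : ℝ) ≤ (C₁ * l) ^ r := one_le_pow₀ hCl
  have hM3 : M₂ ≤ (C₁ * l) ^ r * M₂ := le_mul_of_one_le_left hM20.le hCl'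
  have hfin := hCf j' c gb (G₁ (z₁' (slam F ⌊w * J⌋₊ ω)) - G₂ (z₂' (slam F ⌊w * J⌋₊ ω)))
    (bt F ω) v s₀ δ (1 / 2 ^ (⌊u₂ * J⌋₊ + 1)) B ((C₁ * l) ^ r * M₂) hch.inj
    (fun i hi => by
      rcases Nat.lt_or_ge i r₀ with h' | h'
      · rw [hgbb i h']
        exact hdep0 i
      · rw [hgb]
        exact hgdep i h' hi _)
    (fun i hi => by rw [hgb]; exact hgdeg i hi _) (hG12 _ _).1 (hG12 _ _).2 (by linarith)
    (by positivity) (fun i _ => hδ0 i) (by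
      intro x hx0 hx
      have e1 := (hNB r le_rfl x hx0 hx).resolve_right (by omega)
      rw [hbad3] at hg3
      push Not at hg3
      rw [hgb] at e1
      rw [hB]
      exact hg3 x e1) hb0
    ((hv0.trans hub).trans (mul_le_mul_of_nonneg_right hM3 (by positivity)))
    (fun i hi j'' h1 h2 => hframe i hi j'' h1 (by omega))
  refine hfin.trans ?_
  have hMj : 0 < M ^ j' := by positivity
  have e1 : ((C₁ * l) ^ r * M₂) ^ j' = ((4 * C₁) ^ r * 2) ^ j' *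
      (2 ^ ((2 * r + 1) * ε₁ * J)) ^ j' * M ^ j' := by
    rw [← mul_pow, ← mul_pow]
    congr 1
    have e2 : (C₁ * l) ^ r = (4 * C₁) ^ r * 2 ^ (2 * r * ε₁ * J) := by
      rw [hl]
      have e3 : C₁ * (4 * 2 ^ (2 * ε₁ * J)) = 4 * C₁ * 2 ^ (2 * ε₁ * J) := by ring
      rw [e3, mul_pow, E_pow]
      congr 2
      ring
    have e4 : (2 : ℝ) ^ ((2 * r + 1) * ε₁ * J) = 2 ^ (2 * r * ε₁ * J) * 2 ^ (ε₁ * J) := by
      rw [E_add]
      congr 1
      ring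
    rw [e2, hM₂, e4]
    ring
  have e5 : ((4 * C₁) ^ r * 2) ^ j' ≤ ((4 * C₁) ^ r * 2) ^ j := by
    refine pow_le_pow_right₀ ?_ hj'
    have : (1 : ℝ) ≤ (4 * C₁) ^ r := one_le_pow₀ (by linarith)
    linarith
  have e6 : ((2 : ℝ) ^ ((2 * r + 1) * ε₁ * J)) ^ j' ≤ 2 ^ (j * ((2 * r + 1) * ε₁) * J) := by
    have e7 : (1 : ℝ) ≤ 2 ^ ((2 * r + 1) * ε₁ * J) := E_one (by positivity)
    refine (pow_le_pow_right₀ e7 hj').trans (le_of_eq ?_)
    exact E_pow J ((2 * r + 1) * ε₁) j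
  have hCfj := hCle j' hj'
  have hCf0 := hCf1 j'
  rw [e1]
  have hP0 : (0 : ℝ) ≤ ((4 * C₁) ^ r * 2) ^ j := by positivity
  have hX0 : (0 : ℝ) ≤ 1 / 2 ^ P₁ + 1 / 2 ^ P₂ := by positivity
  calc Cf j' * B * (((4 * C₁) ^ r * 2) ^ j' * (2 ^ ((2 * r + 1) * ε₁ * J)) ^ j' * M ^ j')
      ≤ C₂ * B * (((4 * C₁) ^ r * 2) ^ j * 2 ^ (j * ((2 * r + 1) * ε₁) * J) * M ^ j') := by
        refine mul_le_mul (mul_le_mul_of_nonneg_right (by linarith) hB0)
          (mul_le_mul_of_nonneg_right (mul_le_mul e5 e6 (by positivity) hP0) hMj.le)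
          (by positivity) (mul_nonneg (by linarith) hB0)
    _ = Q * (2 ^ (ε₁ * J) * 2 ^ (j * ((2 * r + 1) * ε₁) * J)) * (1 / 2 ^ P₁ + 1 / 2 ^ P₂) *
        M ^ j' := by
        rw [hQ, hB]
        ring
    _ = Q * 2 ^ (ε / 2 * J) * (1 / 2 ^ P₁ + 1 / 2 ^ P₂) * M ^ j' := by
        rw [E_add]
        congr 5
        rw [← hε11]
        ring
    _ ≤ 2 ^ (ε / 2 * J) * 2 ^ (ε / 2 * J) * (1 / 2 ^ P₁ + 1 / 2 ^ P₂) * M ^ j' := by
        refine mul_le_mul_of_nonneg_right (mul_le_mul_of_nonneg_right ?_ hX0) hMj.le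
        exact mul_le_mul_of_nonneg_right f1 (E_pos J _).le
    _ = 2 ^ (ε * J) * (1 / 2 ^ P₁ + 1 / 2 ^ P₂) * M ^ j' := by
        rw [E_add]
        congr 4
        ring

end Pool.LA91
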