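import Pool.Agent.H91.LA.Two

/-!
# Relative two-parameter families

`Q₀ w`: a quantity (macroscopic digits) over the charts of the window `w`, which is in the condition;
`Q w o`: the quantity over the charts of the window `w`, to the natural digits of `o`. `TwoRel`: the
conditions; `TRel`: the numbers; they are nonnegative and superadditive (`TRel.super`), additive in
the boxes of almost every point (`TRel.ae`); `TwoRel.la`: no look-ahead.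
-/

set_option autoImplicit false

namespace Pool.LA91

open Finset Real
open Pool.Agent.H49.Ent Pool.Agent.H32.Dense Pool.STK Pool.KA Pool.KSAT Pool.K2S Pool.PB Pool.S6C
  Pool.GEN Pool.RCD

variable {m : ℕ} {U₀ U U₁ U₂ : Type} {α β γ α' β' : ∀ J : ℕ, Fam m J → Type}
  {f : ∀ (J : ℕ) (F : Fam m J), F.Ω → α J F} {g : ∀ (J : ℕ) (F : Fam m J), F.Ω → β J F}
  {f' : ∀ (J : ℕ) (F : Fam m J), F.Ω → α' J F} {g' : ∀ (J : ℕ) (F : Fam m J), F.Ω → β' J F}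
  {y : ∀ (J : ℕ) (F : Fam m J), F.Ω → γ J F} {S : PCl m}

/-- Few bits, with any condition. -/
theorem Few0.few {Q₁ : Qt m U₁} {Q₂ : Qt m U₂}
    (hpos : ∀ (τ : ℝ) (J : ℕ) (F : Fam m J) (A : F.Ω → Prop), S.St τ J F A → 0 < Pe F.p A)
    (h₂ : Few0 S f g y Q₂) : Few S f g y Q₁ Q₂ := by
  intro c hc
  obtain ⟨e, he, H⟩ := h₂ c hc
  refine ⟨e, he, fun K => Bas.mono 0 ((H K).and (pos_bas hpos)) ?_⟩
  rintro J - F A ⟨H, hA⟩ u u' - hu'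
  obtain ⟨V, z, hz, a⟩ := H u' hu'
  refine ⟨V, z, hz, le_trans (CH_mono_cond (isLaw_cond F.isLaw hA).nonneg ?_) a⟩
  intro ω ω' _ _ hh
  exact (Prod.ext_iff.mp hh).2

theorem Mx.le' {J : ℕ} {F : Fam m J} {A : F.Ω → Prop} {k k' : ℝ} (hk : k ≤ k') {V : Type}
    {z : F.Ω → V} (h : Mx f g k F A z) : Mx f g k' F A z :=
  ⟨h.1, fun V' z' hz' => (h.2 V' z' hz').trans
    (mul_le_mul_of_nonneg_right hk (Nat.cast_nonneg J))⟩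

/-- **The later window**: the quantity over the charts of the earlier window, given the record at
the later window. -/
theorem NN.late
    (hpos : ∀ (τ : ℝ) (J : ℕ) (F : Fam m J) (A : F.Ω → Prop), S.St τ J F A → 0 < Pe F.p A)
    {Qa Qb : Qt m U₀} {Q : Qt m U} {Q₂ : Qt m U₂} {θb θ₂ : ℝ} (Nb : NN S f g y Qb θb)
    (N₂ : NN S f g y (Qb.prod Q₂) θ₂) (xb : Exs S Qb) (x₂ : Exs S Q₂)
    (t : Few S f g y Qb Qa) (i : Few S f g y (Qa.prod Q) Q₂) (h : ℝ) (hh : 0 < h) :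
    ∃ k : ℝ, 0 < k ∧ ∃ e₀ : ℝ, 0 < e₀ ∧ ∀ K : ℕ, Bas S (fun J F A =>
      ∀ (V : Type) (z : F.Ω → V), Mx f g k F A z → ∀ u₀ u, Qa.P K e₀ J F A u₀ →
      Q.P K e₀ J F A u → (θ₂ - θb - h) * J ≤
        CH (Pool.Agent.H49.Ent.cond F.p A True) u (fun ω => (u₀ ω, (z ω, y J F ω)))) := by
  obtain ⟨k1, hk1, e1, he1, H1⟩ := NN.cond hpos N₂ Nb (h / 4) (by positivity)
  obtain ⟨e2, he2, H2⟩ := t.mx hpos (h / 4) (by positivity)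
  obtain ⟨e3, he3, H3⟩ := i.mx hpos (h / 4) (by positivity)
  obtain ⟨e₀, he₀, l1, l2, l3⟩ : ∃ e₀ : ℝ, 0 < e₀ ∧ e₀ ≤ e1 ∧ e₀ ≤ e2 ∧ e₀ ≤ e3 :=
    ⟨min e1 (min e2 e3), by positivity, min_le_left _ _,
      (min_le_right _ _).trans (min_le_left _ _), (min_le_right _ _).trans (min_le_right _ _)⟩
  obtain ⟨k, hk, m1, m2⟩ : ∃ k : ℝ, 0 < k ∧ k ≤ k1 ∧ k ≤ h / 4 / 2 :=
    ⟨min k1 (h / 4 / 2), by positivity, min_le_left _ _, min_le_right _ _⟩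
  obtain ⟨K₁, M₁, hx1⟩ := xb e₀ he₀
  obtain ⟨K₂, M₂, hx2⟩ := x₂ e₀ he₀
  refine ⟨k, hk, e₀, he₀, fun K => ?_⟩
  obtain ⟨K', hK'⟩ : ∃ K', K' = max K (max K₁ K₂) := ⟨_, rfl⟩
  have n0 : K ≤ K' := by rw [hK']; exact le_max_left _ _
  have n1 : K₁ ≤ K' := by rw [hK']; exact (le_max_left _ _).trans (le_max_right _ _)
  have n2 : K₂ ≤ K' := by rw [hK']; exact (le_max_right _ _).trans (le_max_right _ _)
  refine Bas.mono 0 ((((H1 K').and (H2 K')).and (H3 K')).and ((hx1.and hx2).and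
    (pos_bas hpos))) ?_
  rintro J - F A ⟨⟨⟨H1, H2⟩, H3⟩, ⟨⟨ub, hub, -⟩, u₂, hu₂, -⟩, hA⟩ V z hz u₀ u hu₀ hu
  have hcl := isLaw_cond F.isLaw hA
  have hJ0 : (0 : ℝ) ≤ J := Nat.cast_nonneg J
  have a1 := (abs_le.1 (H1 V z (hz.le' m1) ub u₂ (Qb.mono n1 l1 hub) (Q₂.mono n2 l1 hu₂))).1
  have a2 := H2 V z (hz.le' m2) ub u₀ (Qb.mono n1 l2 hub) (Qa.mono n0 l2 hu₀)
  have a3 := H3 V z (hz.le' m2) (fun ω => (u₀ ω, u ω)) u₂
    ⟨Qa.mono n0 l3 hu₀, Q.mono n0 l3 hu⟩ (Q₂.mono n2 l3 hu₂)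
  -- the chain rules
  have s1 := CH_le_add hcl.nonneg u₂ u₀ (fun ω => (ub ω, (z ω, y J F ω)))
  have s2 := CH_le_add hcl.nonneg u₂ u (fun ω => (u₀ ω, (z ω, y J F ω)))
  have s3 : CH (Pool.Agent.H49.Ent.cond F.p A True) u₂
      (fun ω => (u₀ ω, (ub ω, (z ω, y J F ω)))) ≤
      CH (Pool.Agent.H49.Ent.cond F.p A True) u₂ (fun ω => (u₀ ω, (z ω, y J F ω))) := by
    refine CH_mono_cond hcl.nonneg fun ω ω' _ _ hh => ?_
    simp only [Prod.mk.injEq] at hh ⊢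
    exact ⟨hh.1, hh.2.2⟩
  have s4 : CH (Pool.Agent.H49.Ent.cond F.p A True) u₂
      (fun ω => (u ω, (u₀ ω, (z ω, y J F ω)))) ≤
      CH (Pool.Agent.H49.Ent.cond F.p A True) u₂ (fun ω => ((u₀ ω, u ω), (z ω, y J F ω))) := by
    refine CH_mono_cond hcl.nonneg fun ω ω' _ _ hh => ?_
    simp only [Prod.mk.injEq] at hh ⊢
    exact ⟨⟨hh.2.1, hh.1⟩, hh.2.2⟩
  nlinarith

/-- The quantity, given the quantity to fewer digits. -/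
theorem NN.early
    (hpos : ∀ (τ : ℝ) (J : ℕ) (F : Fam m J) (A : F.Ω → Prop), S.St τ J F A → 0 < Pe F.p A)
    {Qa : Qt m U₀} {Q : Qt m U} {Q₁ : Qt m U₁} {θa θ θ₁ : ℝ} (Na : NN S f g y Qa θa)
    (N : NN S f g y (Qa.prod Q) θ) (N₁ : NN S f g y (Qa.prod Q₁) θ₁)
    (r : Few S f g y (Qa.prod Q) Q₁) (h : ℝ) (hh : 0 < h) :
    ∃ k : ℝ, 0 < k ∧ ∃ e₀ : ℝ, 0 < e₀ ∧ ∀ K : ℕ, Bas S (fun J F A =>
      ∀ (V : Type) (z : F.Ω → V), Mx f g k F A z → ∀ u₀ u u₁, Qa.P K e₀ J F A u₀ →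
      Q.P K e₀ J F A u → Q₁.P K e₀ J F A u₁ →
      CH (Pool.Agent.H49.Ent.cond F.p A True) u (fun ω => (u₁ ω, (u₀ ω, (z ω, y J F ω)))) ≤
        (θ - θ₁ + h) * J) := by
  obtain ⟨k1, hk1, e1, he1, H1⟩ := NN.cond hpos N Na (h / 4) (by positivity)
  obtain ⟨k2, hk2, e2, he2, H2⟩ := NN.cond hpos N₁ Na (h / 4) (by positivity)
  obtain ⟨e3, he3, H3⟩ := r.mx hpos (h / 4) (by positivity)
  obtain ⟨e₀, he₀, l1, l2, l3⟩ : ∃ e₀ : ℝ, 0 < e₀ ∧ e₀ ≤ e1 ∧ e₀ ≤ e2 ∧ e₀ ≤ e3 :=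
    ⟨min e1 (min e2 e3), by positivity, min_le_left _ _,
      (min_le_right _ _).trans (min_le_left _ _), (min_le_right _ _).trans (min_le_right _ _)⟩
  obtain ⟨k, hk, m1, m2, m3⟩ : ∃ k : ℝ, 0 < k ∧ k ≤ k1 ∧ k ≤ k2 ∧ k ≤ h / 4 / 2 :=
    ⟨min k1 (min k2 (h / 4 / 2)), by positivity, min_le_left _ _,
      (min_le_right _ _).trans (min_le_left _ _), (min_le_right _ _).trans (min_le_right _ _)⟩
  refine ⟨k, hk, e₀, he₀, fun K => ?_⟩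
  refine Bas.mono 0 ((((H1 K).and (H2 K)).and (H3 K)).and (pos_bas hpos)) ?_
  rintro J - F A ⟨⟨⟨H1, H2⟩, H3⟩, hA⟩ V z hz u₀ u u₁ hu₀ hu hu₁
  have hcl := isLaw_cond F.isLaw hA
  have hJ0 : (0 : ℝ) ≤ J := Nat.cast_nonneg J
  have a1 := (abs_le.1 (H1 V z (hz.le' m1) u₀ u (Qa.mono le_rfl l1 hu₀)
    (Q.mono le_rfl l1 hu))).2
  have a2 := (abs_le.1 (H2 V z (hz.le' m2) u₀ u₁ (Qa.mono le_rfl l2 hu₀)
    (Q₁.mono le_rfl l2 hu₁))).1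
  have a3 := H3 V z (hz.le' m3) (fun ω => (u₀ ω, u ω)) u₁
    ⟨Qa.mono le_rfl l3 hu₀, Q.mono le_rfl l3 hu⟩ (Q₁.mono le_rfl l3 hu₁)
  have s1 := CH_chain hcl.nonneg u u₁ (fun ω => (u₀ ω, (z ω, y J F ω)))
  have s2 := CH_chain hcl.nonneg u₁ u (fun ω => (u₀ ω, (z ω, y J F ω)))
  have s3 : CH (Pool.Agent.H49.Ent.cond F.p A True) (fun ω => (u ω, u₁ ω))
      (fun ω => (u₀ ω, (z ω, y J F ω))) = CH (Pool.Agent.H49.Ent.cond F.p A True)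
      (fun ω => (u₁ ω, u ω)) (fun ω => (u₀ ω, (z ω, y J F ω))) := by
    refine CH_congr hcl.nonneg ?_ ?_ (fun _ _ _ _ h => h) (fun _ _ _ _ h => h) <;>
    · intro ω ω' _ _ hh
      simp only [Prod.mk.injEq] at hh ⊢
      tauto
  have s4 : CH (Pool.Agent.H49.Ent.cond F.p A True) u₁
      (fun ω => (u ω, (u₀ ω, (z ω, y J F ω)))) ≤
      CH (Pool.Agent.H49.Ent.cond F.p A True) u₁ (fun ω => ((u₀ ω, u ω), (z ω, y J F ω))) := by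
    refine CH_mono_cond hcl.nonneg fun ω ω' _ _ hh => ?_
    simp only [Prod.mk.injEq] at hh ⊢
    exact ⟨⟨hh.2.1, hh.1⟩, hh.2.2⟩
  nlinarith

/-- **No look-ahead**, relative form. -/
theorem NN.rla
    (hpos : ∀ (τ : ℝ) (J : ℕ) (F : Fam m J) (A : F.Ω → Prop), S.St τ J F A → 0 < Pe F.p A)
    {Qa Qb : Qt m U₀} {Q : Qt m U} {Q₁ : Qt m U₁} {Q₂ : Qt m U₂} {θa θ θ₁ θb θ₂ : ℝ}
    (Na : NN S f g y Qa θa) (N : NN S f g y (Qa.prod Q) θ) (N₁ : NN S f g y (Qa.prod Q₁) θ₁)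
    (Nb : NN S f' g' y Qb θb) (N₂ : NN S f' g' y (Qb.prod Q₂) θ₂) (xb : Exs S Qb)
    (x₂ : Exs S Q₂) (r : Few S f g y (Qa.prod Q) Q₁) (t : Few S f' g' y Qb Qa)
    (i : Few S f' g' y (Qa.prod Q) Q₂) (h : ℝ) (hh : 0 < h) :
    ∃ k : ℝ, 0 < k ∧ ∃ e₀ : ℝ, 0 < e₀ ∧ ∀ K : ℕ, Bas S (fun J F A =>
      ∀ (V : Type) (z : F.Ω → V) (V' : Type) (z' : F.Ω → V'), Mx f g k F A z →
      Mx f' g' k F A z' → ∀ u₀ u u₁, Qa.P K e₀ J F A u₀ → Q.P K e₀ J F A u →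
      Q₁.P K e₀ J F A u₁ →
      CH (Pool.Agent.H49.Ent.cond F.p A True) u (fun ω => (u₁ ω, (u₀ ω, (z ω, y J F ω)))) ≤
        CH (Pool.Agent.H49.Ent.cond F.p A True) u (fun ω => (u₀ ω, (z' ω, y J F ω))) +
          ((θ - θa) - (θ₁ - θa) - (θ₂ - θb) + h) * J) := by
  obtain ⟨k1, hk1, e1, he1, H1⟩ := NN.early hpos Na N N₁ r (h / 2) (half_pos hh)
  obtain ⟨k2, hk2, e2, he2, H2⟩ := NN.late hpos Nb N₂ xb x₂ t i (h / 2) (half_pos hh)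
  refine ⟨min k1 k2, lt_min hk1 hk2, min e1 e2, lt_min he1 he2, fun K => ?_⟩
  refine Bas.mono 0 ((H1 K).and (H2 K)) ?_
  rintro J - F A ⟨H1, H2⟩ V z V' z' hz hz' u₀ u u₁ hu₀ hu hu₁
  have a1 := H1 V z (hz.le' (min_le_left _ _)) u₀ u u₁ (Qa.mono le_rfl (min_le_left _ _) hu₀)
    (Q.mono le_rfl (min_le_left _ _) hu) (Q₁.mono le_rfl (min_le_left _ _) hu₁)
  have a2 := H2 V' z' (hz'.le' (min_le_right _ _)) u₀ u (Qa.mono le_rfl (min_le_right _ _) hu₀)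
    (Q.mono le_rfl (min_le_right _ _) hu)
  nlinarith

/-- **The relative numbers are superadditive.** -/
theorem NN.rsuper (hS : S.Ne)
    (hpos : ∀ (τ : ℝ) (J : ℕ) (F : Fam m J) (A : F.Ω → Prop), S.St τ J F A → 0 < Pe F.p A)
    (hf : ∀ (J : ℕ) (F : Fam m J), ∃ φ : α' J F → α J F, ∀ ω, f J F ω = φ (f' J F ω))
    (hg : ∀ (J : ℕ) (F : Fam m J), ∃ φ : β' J F → β J F, ∀ ω, g J F ω = φ (g' J F ω))
    {η η' : ℝ} (hη : RNum S f g η) (hη' : RNum S f' g' η')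
    {Qa Qb : Qt m U₀} {Q : Qt m U} {Q₁ : Qt m U₁} {Q₂ : Qt m U₂} {θa θ θ₁ θb θ₂ : ℝ}
    (Na : NN S f g y Qa θa) (N : NN S f g y (Qa.prod Q) θ) (N₁ : NN S f g y (Qa.prod Q₁) θ₁)
    (Nb : NN S f' g' y Qb θb) (N₂ : NN S f' g' y (Qb.prod Q₂) θ₂) (xa : Exs S Qa)
    (x : Exs S Q) (x₁ : Exs S Q₁) (xb : Exs S Qb) (x₂ : Exs S Q₂)
    (r : Few S f g y (Qa.prod Q) Q₁) (t : Few S f' g' y Qb Qa)
    (d : Few S f' g' y Qa Q₁) (i : Few S f' g' y (Qa.prod Q) Q₂) :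
    (θ₁ - θa) + (θ₂ - θb) ≤ θ - θa := by
  refine le_of_bas hS fun h hh => ?_
  obtain ⟨k1, hk1, e1, he1, H1⟩ := NN.early hpos Na N N₁ r (h / 4) (by positivity)
  obtain ⟨k2, hk2, e2, he2, H2⟩ := NN.late hpos Nb N₂ xb x₂ t i (h / 4) (by positivity)
  obtain ⟨e3, he3, H3⟩ := d.mx hpos (h / 4) (by positivity)
  obtain ⟨e₀, he₀, l1, l2, l3⟩ : ∃ e₀ : ℝ, 0 < e₀ ∧ e₀ ≤ e1 ∧ e₀ ≤ e2 ∧ e₀ ≤ e3 :=
    ⟨min e1 (min e2 e3), by positivity, min_le_left _ _,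
      (min_le_right _ _).trans (min_le_left _ _), (min_le_right _ _).trans (min_le_right _ _)⟩
  obtain ⟨k, hk, m1, m2, m3⟩ : ∃ k : ℝ, 0 < k ∧ k ≤ k1 ∧ k ≤ k2 ∧ k ≤ h / 4 / 2 :=
    ⟨min k1 (min k2 (h / 4 / 2)), by positivity, min_le_left _ _,
      (min_le_right _ _).trans (min_le_left _ _), (min_le_right _ _).trans (min_le_right _ _)⟩
  obtain ⟨K₀, M₀, hx0⟩ := xa e₀ he₀
  obtain ⟨K₁, M₁, hx1⟩ := x₁ e₀ he₀
  obtain ⟨K₂, M₂, hx2⟩ := x e₀ he₀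
  obtain ⟨K, hK⟩ : ∃ K, K = max K₀ (max K₁ K₂) := ⟨_, rfl⟩
  have n0 : K₀ ≤ K := by rw [hK]; exact le_max_left _ _
  have n1 : K₁ ≤ K := by rw [hK]; exact (le_max_left _ _).trans (le_max_right _ _)
  have n2 : K₂ ≤ K := by rw [hK]; exact (le_max_right _ _).trans (le_max_right _ _)
  refine Bas.mono 0 ((((H1 K).and (H2 K)).and (H3 K)).and
    (((hx0.and hx1).and hx2).and (((mx_ex hpos hη k hk).and (mx_ex hpos hη' k hk)).and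
      (pos_bas hpos)))) ?_
  rintro J - F A ⟨⟨⟨H1, H2⟩, H3⟩, ⟨⟨⟨u₀, hu₀, -⟩, u₁, hu₁, -⟩, u, hu, -⟩,
    ⟨⟨V, z, hz⟩, V', z₀', hz₀'⟩, hA⟩
  have hcl := isLaw_cond F.isLaw hA
  have hJ0 : (0 : ℝ) ≤ J := Nat.cast_nonneg J
  have hz' := hz.join hA (hf J F) (hg J F) hz₀'
  obtain ⟨z', hze⟩ : ∃ z' : F.Ω → V × V', z' = fun ω => (z ω, z₀' ω) := ⟨_, rfl⟩
  rw [← hze] at hz'
  have a1 := H1 V z (hz.le' m1) u₀ u u₁ (Qa.mono n0 l1 hu₀) (Q.mono n2 l1 hu)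
    (Q₁.mono n1 l1 hu₁)
  have a2 := H2 _ z' (hz'.le' m2) u₀ u (Qa.mono n0 l2 hu₀) (Q.mono n2 l2 hu)
  have a3 := H3 _ z' (hz'.le' m3) u₀ u₁ (Qa.mono n0 l3 hu₀) (Q₁.mono n1 l3 hu₁)
  have s1 := CH_le_add hcl.nonneg u u₁ (fun ω => (u₀ ω, (z' ω, y J F ω)))
  have s2 : CH (Pool.Agent.H49.Ent.cond F.p A True) u
      (fun ω => (u₁ ω, (u₀ ω, (z' ω, y J F ω)))) ≤
      CH (Pool.Agent.H49.Ent.cond F.p A True) u (fun ω => (u₁ ω, (u₀ ω, (z ω, y J F ω)))) := by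
    refine CH_mono_cond hcl.nonneg fun ω ω' _ _ hh => ?_
    rw [hze] at hh
    simp only [Prod.mk.injEq] at hh ⊢
    exact ⟨hh.1, hh.2.1, hh.2.2.1.1, hh.2.2.2⟩
  nlinarith

/-- The relative numbers are nonnegative. -/
theorem NN.rnonneg (hS : S.Ne)
    (hpos : ∀ (τ : ℝ) (J : ℕ) (F : Fam m J) (A : F.Ω → Prop), S.St τ J F A → 0 < Pe F.p A)
    {η : ℝ} (hη : RNum S f g η) {Qa : Qt m U₀} {Q : Qt m U} {θa θ : ℝ}
    (Na : NN S f g y Qa θa) (N : NN S f g y (Qa.prod Q) θ) (xa : Exs S Qa) (x : Exs S Q) :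
    0 ≤ θ - θa := by
  refine le_of_bas hS fun h hh => ?_
  obtain ⟨k, hk, e, he, H⟩ := NN.cond hpos N Na h hh
  obtain ⟨K₀, M₀, hx0⟩ := xa e he
  obtain ⟨K₁, M₁, hx1⟩ := x e he
  refine Bas.mono 0 (((H (max K₀ K₁)).and (hx0.and hx1)).and ((mx_ex hpos hη k hk).and
    (pos_bas hpos))) ?_
  rintro J - F A ⟨⟨H, ⟨u₀, hu₀, -⟩, u, hu, -⟩, ⟨V, z, hz⟩, hA⟩
  have h1 := (abs_le.1 (H V z hz u₀ u (Qa.mono (le_max_left _ _) le_rfl hu₀)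
    (Q.mono (le_max_right _ _) le_rfl hu))).2
  have h2 := CH_nonneg (isLaw_cond F.isLaw hA).nonneg u (fun ω => (u₀ ω, (z ω, y J F ω)))
  linarith

/-! ### Families -/

/-- **A relative two-parameter family** at the rational windows of `(A, B)`, with steps less than
`lam`. -/
structure TwoRel (S : PCl m) (f : ∀ (J : ℕ) (F : Fam m J), F.Ω → α J F)
    (y : ∀ (J : ℕ) (F : Fam m J), F.Ω → γ J F) (Q₀ : ℚ → Qt m U₀) (Q : ℚ → ℚ → Qt m U)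
    (A B lam : ℝ) : Prop where
  exs₀ : ∀ w : ℚ, A < w → (w : ℝ) < B → Exs S (Q₀ w)
  exs : ∀ w o : ℚ, A < w → w ≤ o → (o : ℝ) < B → (o : ℝ) < w + lam → Exs S (Q w o)
  tr : ∀ w v : ℚ, A < w → w ≤ v → (v : ℝ) < B → (v : ℝ) < w + lam →
    Few S f (vg (v : ℝ)) y (Q₀ v) (Q₀ w)
  row : ∀ w v o : ℚ, A < w → w ≤ v → v ≤ o → (o : ℝ) < B → (o : ℝ) < w + lam →
    Few S f (vg (w : ℝ)) y ((Q₀ w).prod (Q w o)) (Q w v)
  chg : ∀ w v o : ℚ, A < w → w ≤ v → v ≤ o → (o : ℝ) < B → (o : ℝ) < w + lam →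
    Few S f (vg (v : ℝ)) y ((Q₀ w).prod (Q w o)) (Q v o)
  own : ∀ w v : ℚ, A < w → w ≤ v → (v : ℝ) < B → (v : ℝ) < w + lam →
    Few S f (vg (v : ℝ)) y (Q₀ w) (Q w v)

theorem TwoRel.sub {S' : PCl m} (hs : ∀ (τ : ℝ) (J : ℕ) (F : Fam m J) (A : F.Ω → Prop),
    S'.St τ J F A → S.St τ J F A) {Q₀ : ℚ → Qt m U₀} {Q : ℚ → ℚ → Qt m U} {A B lam : ℝ}
    (h : TwoRel S f y Q₀ Q A B lam) : TwoRel S' f y Q₀ Q A B lam where
  exs₀ w a b := (h.exs₀ w a b).sub hs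
  exs w o a b c d := (h.exs w o a b c d).sub hs
  tr w v a b c d := (h.tr w v a b c d).sub hs
  row w v o a b c d e := (h.row w v o a b c d e).sub hs
  chg w v o a b c d e := (h.chg w v o a b c d e).sub hs
  own w v a b c d := (h.own w v a b c d).sub hs

/-- A smaller interval and smaller steps. -/
theorem TwoRel.mono {Q₀ : ℚ → Qt m U₀} {Q : ℚ → ℚ → Qt m U} {A A' B B' lam lam' : ℝ}
    (h : TwoRel S f y Q₀ Q A B lam) (hA : A ≤ A') (hB : B' ≤ B) (hl : lam' ≤ lam) :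
    TwoRel S f y Q₀ Q A' B' lam' where
  exs₀ w a b := h.exs₀ w (by linarith) (by linarith)
  exs w o a b c d := h.exs w o (by linarith) b (by linarith) (by linarith)
  tr w v a b c d := h.tr w v (by linarith) b (by linarith) (by linarith)
  row w v o a b c d e := h.row w v o (by linarith) b c (by linarith) (by linarith)
  chg w v o a b c d e := h.chg w v o (by linarith) b c (by linarith) (by linarith)
  own w v a b c d := h.own w v (by linarith) b (by linarith) (by linarith)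

/-- Few bits, with a longer product in the condition. -/
theorem few_pr1 {Q₀ : Qt m U₀} {Q₁ : Qt m U₁} {Q₂ : Qt m U₂} {U' : Type} {Q' : Qt m U'}
    (hpos : ∀ (τ : ℝ) (J : ℕ) (F : Fam m J) (A : F.Ω → Prop), S.St τ J F A → 0 < Pe F.p A)
    (h : Few S f g y (Q₀.prod Q₁) Q') : Few S f g y (Q₀.prod (Q₁.prod Q₂)) Q' := by
  intro c hc
  obtain ⟨e, he, H⟩ := h c hc
  refine ⟨e, he, fun K => Bas.mono 0 ((H K).and (pos_bas hpos)) ?_⟩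
  rintro J - F A ⟨H, hA⟩ u u' hu hu'
  obtain ⟨V, z, hz, h1⟩ := H (fun ω => ((u ω).1, (u ω).2.1)) u' ⟨hu.1, hu.2.1⟩ hu'
  refine ⟨V, z, hz, le_trans (CH_mono_cond (isLaw_cond F.isLaw hA).nonneg ?_) h1⟩
  intro ω ω' _ _ hh
  simp only [Prod.mk.injEq] at hh ⊢
  exact ⟨⟨by rw [hh.1], by rw [hh.1]⟩, hh.2⟩

theorem few_pr2 {Q₀ : Qt m U₀} {Q₁ : Qt m U₁} {Q₂ : Qt m U₂} {U' : Type} {Q' : Qt m U'}
    (hpos : ∀ (τ : ℝ) (J : ℕ) (F : Fam m J) (A : F.Ω → Prop), S.St τ J F A → 0 < Pe F.p A)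
    (h : Few S f g y (Q₀.prod Q₂) Q') : Few S f g y (Q₀.prod (Q₁.prod Q₂)) Q' := by
  intro c hc
  obtain ⟨e, he, H⟩ := h c hc
  refine ⟨e, he, fun K => Bas.mono 0 ((H K).and (pos_bas hpos)) ?_⟩
  rintro J - F A ⟨H, hA⟩ u u' hu hu'
  obtain ⟨V, z, hz, h1⟩ := H (fun ω => ((u ω).1, (u ω).2.2)) u' ⟨hu.1, hu.2.2⟩ hu'
  refine ⟨V, z, hz, le_trans (CH_mono_cond (isLaw_cond F.isLaw hA).nonneg ?_) h1⟩
  intro ω ω' _ _ hh
  simp only [Prod.mk.injEq] at hh ⊢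
  exact ⟨⟨by rw [hh.1], by rw [hh.1]⟩, hh.2⟩

/-- **Products.** -/
theorem TwoRel.prod
    (hpos : ∀ (τ : ℝ) (J : ℕ) (F : Fam m J) (A : F.Ω → Prop), S.St τ J F A → 0 < Pe F.p A)
    {Q₀ : ℚ → Qt m U₀} {Q₁ : ℚ → ℚ → Qt m U₁} {Q₂ : ℚ → ℚ → Qt m U₂} {A B lam : ℝ}
    (h₁ : TwoRel S f y Q₀ Q₁ A B lam) (h₂ : TwoRel S f y Q₀ Q₂ A B lam) :
    TwoRel S f y Q₀ (fun w o => (Q₁ w o).prod (Q₂ w o)) A B lam where
  exs₀ := h₁.exs₀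
  exs w o a b c d := (h₁.exs w o a b c d).prod (h₂.exs w o a b c d)
  tr := h₁.tr
  row w v o a b c d e := Few.pair hpos (few_pr1 hpos (h₁.row w v o a b c d e))
    (few_pr2 hpos (h₂.row w v o a b c d e))
  chg w v o a b c d e := Few.pair hpos (few_pr1 hpos (h₁.chg w v o a b c d e))
    (few_pr2 hpos (h₂.chg w v o a b c d e))
  own w v a b c d := Few.pair hpos (h₁.own w v a b c d) (h₂.own w v a b c d)

/-- **An absolute family is a relative family**, for every condition whose change of charts is few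
bits. -/
theorem TwoPar.rel
    (hpos : ∀ (τ : ℝ) (J : ℕ) (F : Fam m J) (A : F.Ω → Prop), S.St τ J F A → 0 < Pe F.p A)
    {Q₀ : ℚ → Qt m U₀} {Q : ℚ → ℚ → Qt m U} {A B lam : ℝ} (h : TwoPar S f y Q A B lam)
    (x₀ : ∀ w : ℚ, A < w → (w : ℝ) < B → Exs S (Q₀ w))
    (t : ∀ w v : ℚ, A < w → w ≤ v → (v : ℝ) < B → (v : ℝ) < w + lam →
      Few S f (vg (v : ℝ)) y (Q₀ v) (Q₀ w)) : TwoRel S f y Q₀ Q A B lam where
  exs₀ := x₀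
  exs := h.exs
  tr := t
  row w v o a b c d e := Few.snd hpos (h.row w v o a b c d e)
  chg w v o a b c d e := Few.snd hpos (h.chg w v o a b c d e)
  own w v a b c d := Few0.few hpos (h.own w v a b c d)

/-- **The relative numbers**: `θ w o` is the number of `Q w o` given the record at the window `w`,
`y` and `Q₀ w`. -/
structure TRel (S : PCl m) (f : ∀ (J : ℕ) (F : Fam m J), F.Ω → α J F)
    (y : ∀ (J : ℕ) (F : Fam m J), F.Ω → γ J F) (Q₀ : ℚ → Qt m U₀) (Q : ℚ → ℚ → Qt m U)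
    (A B lam : ℝ) (θ₀ : ℚ → ℝ) (θ : ℚ → ℚ → ℝ) : Prop where
  n₀ : ∀ w : ℚ, A < w → (w : ℝ) < B → NN S f (vg (w : ℝ)) y (Q₀ w) (θ₀ w)
  n : ∀ w o : ℚ, A < w → w ≤ o → (o : ℝ) < B → (o : ℝ) < w + lam →
    NN S f (vg (w : ℝ)) y ((Q₀ w).prod (Q w o)) (θ₀ w + θ w o)

theorem TRel.sub {S' : PCl m} (hs : ∀ (τ : ℝ) (J : ℕ) (F : Fam m J) (A : F.Ω → Prop),
    S'.St τ J F A → S.St τ J F A) {Q₀ : ℚ → Qt m U₀} {Q : ℚ → ℚ → Qt m U} {A B lam : ℝ}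
    {θ₀ : ℚ → ℝ} {θ : ℚ → ℚ → ℝ} (h : TRel S f y Q₀ Q A B lam θ₀ θ) :
    TRel S' f y Q₀ Q A B lam θ₀ θ :=
  ⟨fun w a b => (h.n₀ w a b).sub hs, fun w o a b c d => (h.n w o a b c d).sub hs⟩

/-- **The relative numbers are nonnegative and superadditive.** -/
theorem TRel.super (hS : S.Ne)
    (hpos : ∀ (τ : ℝ) (J : ℕ) (F : Fam m J) (A : F.Ω → Prop), S.St τ J F A → 0 < Pe F.p A)
    {Q₀ : ℚ → Qt m U₀} {Q : ℚ → ℚ → Qt m U} {A B lam : ℝ} (hB : B ≤ 1)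
    (hη : ∀ w : ℚ, A < w → (w : ℝ) < B → ∃ η, RNum S f (vg (w : ℝ)) η)
    (h : TwoRel S f y Q₀ Q A B lam) {θ₀ : ℚ → ℝ} {θ : ℚ → ℚ → ℝ}
    (hθ : TRel S f y Q₀ Q A B lam θ₀ θ) :
    (∀ w o : ℚ, A < w → w ≤ o → (o : ℝ) < B → (o : ℝ) < w + lam → 0 ≤ θ w o) ∧
    ∀ w v o : ℚ, A < w → w ≤ v → v ≤ o → (o : ℝ) < B → (o : ℝ) < w + lam →
      θ w v + θ v o ≤ θ w o := by
  constructor
  · intro w o a b c d
    have b' : (w : ℝ) ≤ o := by exact_mod_cast b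
    obtain ⟨η, hη⟩ := hη w a (by linarith)
    have h1 := NN.rnonneg hS hpos hη (hθ.n₀ w a (by linarith)) (hθ.n w o a b c d)
      (h.exs₀ w a (by linarith)) (h.exs w o a b c d)
    linarith
  · intro w v o a b c d e
    have b' : (w : ℝ) ≤ v := by exact_mod_cast b
    have c' : (v : ℝ) ≤ o := by exact_mod_cast c
    obtain ⟨η, hη₁⟩ := hη w a (by linarith)
    obtain ⟨η', hη₂⟩ := hη v (by linarith) (by linarith)
    have h1 := NN.rsuper (η := η) (η' := η') hS hpos (fun J F => ⟨fun x => x, fun _ => rfl⟩)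
      (fun J F => vg_mono b' (by linarith) J F) hη₁ hη₂ (hθ.n₀ w a (by linarith))
      (hθ.n w o a (b.trans c) d e) (hθ.n w v a b (by linarith) (by linarith))
      (hθ.n₀ v (by linarith) (by linarith)) (hθ.n v o (by linarith) c d (by linarith))
      (h.exs₀ w a (by linarith)) (h.exs w o a (b.trans c) d e)
      (h.exs w v a b (by linarith) (by linarith)) (h.exs₀ v (by linarith) (by linarith))
      (h.exs v o (by linarith) c d (by linarith)) (h.row w v o a b c d e)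
      (h.tr w v a b (by linarith) (by linarith)) (h.own w v a b (by linarith) (by linarith))
      (h.chg w v o a b c d e)
    linarith

open Set MeasureTheory in
/-- **Additive in the boxes of almost every point.** -/
theorem TRel.ae (hS : S.Ne)
    (hpos : ∀ (τ : ℝ) (J : ℕ) (F : Fam m J) (A : F.Ω → Prop), S.St τ J F A → 0 < Pe F.p A)
    {Q₀ : ℚ → Qt m U₀} {Q : ℚ → ℚ → Qt m U} {A B lam : ℝ} (hB : B ≤ 1) (hlam : 0 < lam)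
    (hη : ∀ w : ℚ, A < w → (w : ℝ) < B → ∃ η, RNum S f (vg (w : ℝ)) η)
    (h : TwoRel S f y Q₀ Q A B lam) {θ₀ : ℚ → ℝ} {θ : ℚ → ℚ → ℝ}
    (hθ : TRel S f y Q₀ Q A B lam θ₀ θ) :
    ∀ᵐ g : ℝ, g ∈ Ioo A B → ∀ e : ℝ, 0 < e → ∃ r₀ : ℝ, 0 < r₀ ∧ ∀ r : ℝ, 0 < r → r < r₀ →
      ∀ w v o : ℚ, g - r ≤ w → w ≤ v → v ≤ o → (o : ℝ) ≤ g + r →
        θ w o - θ w v - θ v o ≤ e * r := by
  obtain ⟨h0, h2⟩ := hθ.super hS hpos hB hη h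
  exact la_ae2 hlam h0 h2

/-- **One subclass with the numbers of countably many relative families.** -/
theorem rel_cls {ι : Type} [Countable ι] (hS : S.Ne)
    (hpos : ∀ (τ : ℝ) (J : ℕ) (F : Fam m J) (A : F.Ω → Prop), S.St τ J F A → 0 < Pe F.p A)
    (U₀ U : ι → Type) (α γ : ι → ∀ J : ℕ, Fam m J → Type)
    (f : ∀ (i : ι) (J : ℕ) (F : Fam m J), F.Ω → α i J F)
    (y : ∀ (i : ι) (J : ℕ) (F : Fam m J), F.Ω → γ i J F) (Q₀ : ∀ i, ℚ → Qt m (U₀ i))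
    (Q : ∀ i, ℚ → ℚ → Qt m (U i)) (A B lam : ι → ℝ)
    (h : ∀ i, TwoRel S (f i) (y i) (Q₀ i) (Q i) (A i) (B i) (lam i)) (hlam : ∀ i, 0 < lam i) :
    ∃ S' : PCl m, S'.Ne ∧
      (∀ (τ : ℝ) (J : ℕ) (F : Fam m J) (A : F.Ω → Prop), S'.St τ J F A → S.St τ J F A) ∧
      ∀ i, ∃ (θ₀ : ℚ → ℝ) (θ : ℚ → ℚ → ℝ),
        TRel S' (f i) (y i) (Q₀ i) (Q i) (A i) (B i) (lam i) θ₀ θ := by
  classical
  obtain ⟨S₁, h1, h2, h3⟩ := nn_ext_ct hS hpos (ι := {x : ι × ℚ // A x.1 < x.2 ∧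
      (x.2 : ℝ) < B x.1}) (fun x => U₀ x.1.1)
    (fun x => α x.1.1) (fun x J F => LnT F) (fun x => γ x.1.1) (fun x => f x.1.1)
    (fun x => vg (x.1.2 : ℝ)) (fun x => y x.1.1) (fun x => Q₀ x.1.1 x.1.2)
    (fun x => (h x.1.1).exs₀ _ x.2.1 x.2.2)
    (fun x => (h x.1.1).tr _ _ x.2.1 le_rfl x.2.2 (by linarith [hlam x.1.1]))
  have hpos₁ : ∀ (τ : ℝ) (J : ℕ) (F : Fam m J) (A : F.Ω → Prop), S₁.St τ J F A → 0 < Pe F.p A :=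
    fun τ J F A h => hpos τ J F A (h2 τ J F A h)
  obtain ⟨S', g1, g2, g3⟩ := nn_ext_ct h1 hpos₁ (ι := {x : ι × ℚ × ℚ // A x.1 < x.2.1 ∧
      x.2.1 ≤ x.2.2 ∧ (x.2.2 : ℝ) < B x.1 ∧ (x.2.2 : ℝ) < x.2.1 + lam x.1})
    (fun x => U₀ x.1.1 × U x.1.1)
    (fun x => α x.1.1) (fun x J F => LnT F) (fun x => γ x.1.1) (fun x => f x.1.1)
    (fun x => vg (x.1.2.1 : ℝ)) (fun x => y x.1.1)
    (fun x => (Q₀ x.1.1 x.1.2.1).prod (Q x.1.1 x.1.2.1 x.1.2.2))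
    (fun x => by
      have b' : ((x.1.2.1 : ℚ) : ℝ) ≤ x.1.2.2 := by exact_mod_cast x.2.2.1
      exact (((h x.1.1).exs₀ _ x.2.1 (by linarith [x.2.2.2.1])).prod
        ((h x.1.1).exs _ _ x.2.1 x.2.2.1 x.2.2.2.1 x.2.2.2.2)).sub h2)
    (fun x => by
      have b' : ((x.1.2.1 : ℚ) : ℝ) ≤ x.1.2.2 := by exact_mod_cast x.2.2.1
      refine Few.sub h2 (Few.pair hpos (Few.fst hpos ((h x.1.1).tr _ _ x.2.1 le_rfl
        (by linarith [x.2.2.2.1]) (by linarith [hlam x.1.1])))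
        ((h x.1.1).row _ _ _ x.2.1 x.2.2.1 le_rfl x.2.2.2.1 x.2.2.2.2)))
  choose θ hθ using h3
  choose θ' hθ' using g3
  refine ⟨S', g1, fun τ J F A hA => h2 τ J F A (g2 τ J F A hA), fun i => ?_⟩
  refine ⟨fun w => if hx : A i < w ∧ (w : ℝ) < B i then θ ⟨(i, w), hx⟩ else 0,
    fun w o => (if hx : A i < w ∧ w ≤ o ∧ (o : ℝ) < B i ∧ (o : ℝ) < w + lam i then
    θ' ⟨(i, w, o), hx⟩ else 0) - (if hx : A i < w ∧ (w : ℝ) < B i then θ ⟨(i, w), hx⟩ else 0),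
    fun w a b => ?_, fun w o a b c d => ?_⟩
  · have hx : A i < w ∧ (w : ℝ) < B i := ⟨a, b⟩
    simp only [hx, and_self, dif_pos]
    exact (hθ ⟨(i, w), hx⟩).sub g2
  · have b' : (w : ℝ) ≤ o := by exact_mod_cast b
    have hx : A i < w ∧ w ≤ o ∧ (o : ℝ) < B i ∧ (o : ℝ) < w + lam i := ⟨a, b, c, d⟩
    have hx' : A i < w ∧ (w : ℝ) < B i := ⟨a, by linarith⟩
    simp only [hx, hx', and_self, dif_pos]
    have h5 := hθ' ⟨(i, w, o), hx⟩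
    have e : θ ⟨(i, w), hx'⟩ + (θ' ⟨(i, w, o), hx⟩ - θ ⟨(i, w), hx'⟩) = θ' ⟨(i, w, o), hx⟩ := by
      ring
    rw [e]
    exact h5

/-- **No look-ahead**, relative form: at the windows `w ≤ v ≤ o`, the record at `v` does not see
the quantity behind `v`, given `Q₀ w`, up to the defect `θ w o - θ w v - θ v o`. -/
theorem TwoRel.la
    (hpos : ∀ (τ : ℝ) (J : ℕ) (F : Fam m J) (A : F.Ω → Prop), S.St τ J F A → 0 < Pe F.p A)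
    {Q₀ : ℚ → Qt m U₀} {Q : ℚ → ℚ → Qt m U} {A B lam : ℝ} (h : TwoRel S f y Q₀ Q A B lam)
    {θ₀ : ℚ → ℝ} {θ : ℚ → ℚ → ℝ} (hθ : TRel S f y Q₀ Q A B lam θ₀ θ) {w v o : ℚ} (h1 : A < w)
    (h2 : w ≤ v) (h3 : v ≤ o) (h4 : (o : ℝ) < B) (h5 : (o : ℝ) < w + lam) (c : ℝ) (hc : 0 < c) :
    ∃ k : ℝ, 0 < k ∧ ∃ e₀ : ℝ, 0 < e₀ ∧ ∀ K : ℕ, Bas S (fun J F A =>
      ∀ (V : Type) (z : F.Ω → V) (V' : Type) (z' : F.Ω → V'), Mx f (vg (w : ℝ)) k F A z →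
      Mx f (vg (v : ℝ)) k F A z' → ∀ u₀ u u₁, (Q₀ w).P K e₀ J F A u₀ →
      (Q w o).P K e₀ J F A u → (Q w v).P K e₀ J F A u₁ →
      CH (Pool.Agent.H49.Ent.cond F.p A True) u (fun ω => (u₁ ω, (u₀ ω, (z ω, y J F ω)))) ≤
        CH (Pool.Agent.H49.Ent.cond F.p A True) u (fun ω => (u₀ ω, (z' ω, y J F ω))) +
          (θ w o - θ w v - θ v o + c) * J) := by
  have h2' : (w : ℝ) ≤ v := by exact_mod_cast h2
  have h3' : (v : ℝ) ≤ o := by exact_mod_cast h3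
  obtain ⟨k, hk, e₀, he₀, H⟩ := NN.rla hpos (hθ.n₀ w h1 (by linarith))
    (hθ.n w o h1 (h2.trans h3) h4 h5) (hθ.n w v h1 h2 (by linarith) (by linarith))
    (hθ.n₀ v (by linarith) (by linarith)) (hθ.n v o (by linarith) h3 h4 (by linarith))
    (h.exs₀ v (by linarith) (by linarith)) (h.exs v o (by linarith) h3 h4 (by linarith))
    (h.row w v o h1 h2 h3 h4 h5) (h.tr w v h1 h2 (by linarith) (by linarith))
    (h.chg w v o h1 h2 h3 h4 h5) c hc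
  refine ⟨k, hk, e₀, he₀, fun K => Bas.mono 0 (H K) ?_⟩
  intro J _ F A H V z V' z' hz hz' u₀ u u₁ hu₀ hu hu₁
  refine (H V z V' z' hz hz' u₀ u u₁ hu₀ hu hu₁).trans (le_of_eq ?_)
  ring

end Pool.LA91
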