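import Pool.Agent.H91.LA.Njet
import Pool.Agent.H91.LA.Rel

/-!
# Jets over nested charts: few bits, existence, relative families

`few_jetN`: a jet over a label of the whole chain, `few_jets`: the jets of the chain, `exs_jets`,
`two_jetN`: the jets of a coordinate over a chain, relative to the jets of the chain to a fixed
number of digits, are a relative two-parameter family.
-/

set_option autoImplicit false

namespace Pool.LA91

open Finset Real MvPolynomial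
open Pool.Agent.H49.Ent Pool.Agent.H32.Dense Pool.STK Pool.KA Pool.KSAT Pool.K2S Pool.PB Pool.GEN
open Pool.S6C Pool.RCD
open Pool.GRD (LbP)
open Pool.EXW (chain_le)

variable {m : ℕ} {U U' U₀ U₁ : Type} {α β γ : ∀ J : ℕ, Fam m J → Type}
  {f : ∀ (J : ℕ) (F : Fam m J), F.Ω → α J F} {g : ∀ (J : ℕ) (F : Fam m J), F.Ω → β J F}
  {y : ∀ (J : ℕ) (F : Fam m J), F.Ω → γ J F} {S : PCl m}

/-! ### Finitely many quantities -/

theorem few_fin
    (hpos : ∀ (τ : ℝ) (J : ℕ) (F : Fam m J) (A : F.Ω → Prop), S.St τ J F A → 0 < Pe F.p A)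
    {Q : Qt m U} {Q' : ℕ → Qt m ℤ} {n : ℕ} (h : ∀ i < n, Few S f g y Q (Q' i)) (c : ℝ)
    (hc : 0 < c) : ∃ e₀ : ℝ, 0 < e₀ ∧ ∀ K : ℕ, Bas S (fun J F A => ∀ (u : F.Ω → U)
      (X : ℕ → F.Ω → ℤ), Q.P K e₀ J F A u → (∀ i < n, (Q' i).P K e₀ J F A (X i)) →
      ∃ (V : Type) (z : F.Ω → V), Cl2 (f J F) (g J F) A z ∧
        CH (Pool.Agent.H49.Ent.cond F.p A True) (fun ω (i : Fin n) => X i ω)
          (fun ω => (u ω, (z ω, y J F ω))) ≤ c * J) := by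
  induction n generalizing c with
  | zero =>
    refine ⟨1, one_pos, fun K => Bas.mono 0 (pos_bas hpos) ?_⟩
    rintro J - F A hA u X - -
    have hcl := isLaw_cond F.isLaw hA
    have hJ0 : (0 : ℝ) ≤ J := Nat.cast_nonneg J
    refine ⟨Unit, fun _ => (), ⟨⟨fun _ => (), fun _ _ => rfl⟩, fun _ => (), fun _ _ => rfl⟩, ?_⟩
    have h1 := CH_le_int hcl.nonneg hcl.sum_one (fun _ : F.Ω => (0 : ℤ))
      (fun ω => (u ω, ((), y J F ω))) (fun _ => 0) (fun _ _ _ _ _ => by simp)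
    rw [Ex_const hcl.sum_one] at h1
    have h2 : CH (Pool.Agent.H49.Ent.cond F.p A True) (fun ω (i : Fin 0) => X i ω)
        (fun ω => (u ω, ((), y J F ω))) ≤ CH (Pool.Agent.H49.Ent.cond F.p A True)
        (fun _ : F.Ω => (0 : ℤ)) (fun ω => (u ω, ((), y J F ω))) :=
      CH_mono_left hcl.nonneg fun ω ω' _ _ _ => funext fun i => absurd i.2 (Nat.not_lt_zero _)
    have h3 : Real.log (2 * 0 + 1) = 0 := by norm_num
    rw [h3] at h1
    exact (h2.trans h1).trans (by positivity)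
  | succ n ih =>
    obtain ⟨e₁, he₁, H₁⟩ := ih (fun i hi => h i (by omega)) (c / 2) (half_pos hc)
    obtain ⟨e₂, he₂, H₂⟩ := h n (Nat.lt_succ_self n) (c / 2) (half_pos hc)
    refine ⟨min e₁ e₂, lt_min he₁ he₂, fun K => Bas.mono 0 (((H₁ K).and (H₂ K)).and
      (pos_bas hpos)) ?_⟩
    rintro J - F A ⟨⟨H₁, H₂⟩, hA⟩ u X hu hX
    have hcl := isLaw_cond F.isLaw hA
    obtain ⟨V₁, z₁, hz₁, h1⟩ := H₁ u X (Q.mono le_rfl (min_le_left _ _) hu)
      fun i hi => (Q' i).mono le_rfl (min_le_left _ _) (hX i (by omega))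
    obtain ⟨V₂, z₂, hz₂, h2⟩ := H₂ u (X n) (Q.mono le_rfl (min_le_right _ _) hu)
      ((Q' n).mono le_rfl (min_le_right _ _) (hX n (Nat.lt_succ_self n)))
    refine ⟨V₁ × V₂, fun ω => (z₁ ω, z₂ ω), hz₁.join hz₂, ?_⟩
    have h3 : CH (Pool.Agent.H49.Ent.cond F.p A True) (fun ω (i : Fin (n + 1)) => X i ω)
        (fun ω => (u ω, ((z₁ ω, z₂ ω), y J F ω))) ≤ CH (Pool.Agent.H49.Ent.cond F.p A True)
        (fun ω => (X n ω, fun i : Fin n => X i ω)) (fun ω => (u ω, ((z₁ ω, z₂ ω), y J F ω))) := by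
      refine CH_mono_left hcl.nonneg fun ω ω' _ _ hh => ?_
      have h4 := (Prod.ext_iff.mp hh).1
      refine funext fun i => ?_
      rcases Nat.lt_or_ge i n with h5 | h5
      · exact congrFun (Prod.ext_iff.mp h4).2 ⟨i, h5⟩
      · have h6 : (i : ℕ) = n := by have := i.2; omega
        show X i ω = X i ω'
        rw [h6]
        exact (Prod.ext_iff.mp h4).1
    have h4 := CH_chain hcl.nonneg (X n) (fun ω (i : Fin n) => X i ω)
      (fun ω => (u ω, ((z₁ ω, z₂ ω), y J F ω)))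
    have h5 : CH (Pool.Agent.H49.Ent.cond F.p A True) (fun ω (i : Fin n) => X i ω)
        (fun ω => (u ω, ((z₁ ω, z₂ ω), y J F ω))) ≤ CH (Pool.Agent.H49.Ent.cond F.p A True)
        (fun ω (i : Fin n) => X i ω) (fun ω => (u ω, (z₁ ω, y J F ω))) := by
      refine CH_mono_cond hcl.nonneg fun ω ω' _ _ hh => ?_
      simp only [Prod.mk.injEq] at hh ⊢
      exact ⟨hh.1, hh.2.1.1, hh.2.2⟩
    have h6 : CH (Pool.Agent.H49.Ent.cond F.p A True) (X n)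
        (fun ω => ((fun i : Fin n => X i ω), (u ω, ((z₁ ω, z₂ ω), y J F ω)))) ≤
        CH (Pool.Agent.H49.Ent.cond F.p A True) (X n) (fun ω => (u ω, (z₂ ω, y J F ω))) := by
      refine CH_mono_cond hcl.nonneg fun ω ω' _ _ hh => ?_
      simp only [Prod.mk.injEq] at hh ⊢
      exact ⟨hh.2.1, hh.2.2.1.2, hh.2.2.2⟩
    linarith

theorem exs_fin {Q' : ℕ → Qt m ℤ} {n : ℕ} (h : ∀ i < n, Exs S (Q' i)) (e : ℝ) (he : 0 < e) :
    ∃ (K : ℕ) (M : ℝ), Bas S (fun J F A => ∃ X : ℕ → F.Ω → ℤ,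
      (∀ i < n, (Q' i).P K e J F A (X i)) ∧
      (cnt F.p (fun ω (i : Fin n) => X i ω) A : ℝ) ≤ Real.exp (M * J)) := by
  induction n with
  | zero =>
    refine ⟨0, 0, ⟨1, one_pos, 0, fun J _ F A _ => ⟨fun _ _ => 0, fun i hi =>
      absurd hi (Nat.not_lt_zero _), ?_⟩⟩⟩
    have h1 := cnt_one_le F.p (fun _ : Fin 0 => (0 : ℤ)) A
    have h2 : (fun (_ : F.Ω) (_ : Fin 0) => (0 : ℤ)) = fun _ => (fun _ : Fin 0 => (0 : ℤ)) := rfl
    rw [zero_mul, Real.exp_zero]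
    exact_mod_cast h1
  | succ n ih =>
    obtain ⟨K₁, M₁, H₁⟩ := ih fun i hi => h i (by omega)
    obtain ⟨K₂, M₂, H₂⟩ := h n (Nat.lt_succ_self n) e he
    refine ⟨max K₁ K₂, M₁ + M₂, Bas.mono 0 (H₁.and H₂) ?_⟩
    rintro J - F A ⟨⟨X, hX, hc⟩, Y, hY, hc'⟩
    refine ⟨Function.update X n Y, fun i hi => ?_, ?_⟩
    · rcases Nat.lt_or_ge i n with h5 | h5
      · rw [Function.update_of_ne (by omega)]
        exact (Q' i).mono (le_max_left _ _) le_rfl (hX i h5)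
      · rw [show i = n by omega, Function.update_self]
        exact (Q' n).mono (le_max_right _ _) le_rfl hY
    · have h1 := cnt_comp_le F.p (fun ω => ((fun i : Fin n => X i ω), Y ω))
        (fun ω (i : Fin (n + 1)) => Function.update X n Y i ω) (A := A)
        (fun q (i : Fin (n + 1)) => if hi : (i : ℕ) < n then q.1 ⟨i, hi⟩ else q.2) (by
        intro ω _ _
        funext i
        by_cases hi : (i : ℕ) < n
        · simp only [dif_pos hi]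
          rw [Function.update_of_ne (by omega)]
        · simp only [dif_neg hi]
          have : (i : ℕ) = n := by have := i.2; omega
          rw [this, Function.update_self])
      have h2 := cnt_pair F.p (fun ω (i : Fin n) => X i ω) Y A
      have h3 : (cnt F.p (fun ω (i : Fin (n + 1)) => Function.update X n Y i ω) A : ℝ) ≤
          cnt F.p (fun ω (i : Fin n) => X i ω) A * cnt F.p Y A := by
        exact_mod_cast h1.trans h2
      refine h3.trans ?_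
      rw [add_mul, Real.exp_add]
      exact mul_le_mul hc hc' (Nat.cast_nonneg _) (Real.exp_pos _).le

/-! ### The jets of a chain -/

theorem few_qjets
    (hpos : ∀ (τ : ℝ) (J : ℕ) (F : Fam m J) (A : F.Ω → Prop), S.St τ J F A → 0 < Pe F.p A)
    {Q : Qt m U} {c : ℕ → Fin m} {r₀ r j : ℕ} {w p N : ℕ → ℕ → ℝ}
    (h : ∀ i, r₀ ≤ i → i < r → ∀ j' ≤ j, Few S f g y Q
      (qJet m ((range i).image c) (c i) j' (w i j') (p i j') (N i j'))) :
    Few S f g y Q (qJets m c r₀ r j w p N) := by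
  classical
  intro ε hε
  obtain ⟨Qn, hQn⟩ : ∃ Qn : ℕ → Qt m ℤ, Qn = fun n => if r₀ ≤ n / (j + 1) then
    qJet m ((range (n / (j + 1))).image c) (c (n / (j + 1))) (n % (j + 1))
      (w (n / (j + 1)) (n % (j + 1))) (p (n / (j + 1)) (n % (j + 1)))
      (N (n / (j + 1)) (n % (j + 1))) else Qt.fn (fun _ _ _ => 0) := ⟨_, rfl⟩
  have hfew : ∀ n < r * (j + 1), Few S f g y Q (Qn n) := by
    intro n hn
    rw [hQn]
    have h1 : n / (j + 1) < r := Nat.div_lt_of_lt_mul (by rw [mul_comm]; exact hn)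
    have h2 : n % (j + 1) ≤ j := Nat.lt_succ_iff.1 (Nat.mod_lt n (Nat.succ_pos j))
    by_cases h3 : r₀ ≤ n / (j + 1)
    · simp only [if_pos h3]
      exact h _ h3 h1 _ h2
    · simp only [if_neg h3]
      intro c' hc'
      refine ⟨1, one_pos, fun K => Bas.mono 0 (pos_bas hpos) ?_⟩
      rintro J - F A hA u u' - hu'
      have hcl := isLaw_cond F.isLaw hA
      refine ⟨Unit, fun _ => (), ⟨⟨fun _ => (), fun _ _ => rfl⟩, fun _ => (), fun _ _ => rfl⟩, ?_⟩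
      have h4 := CH_le_int hcl.nonneg hcl.sum_one u'
        (fun ω => (u ω, ((), y J F ω))) (fun _ => 0) (fun ω ω' hω hω' _ => by
          rw [hu' ω (of_cond_pos hω), hu' ω' (of_cond_pos hω')]
          simp)
      rw [Ex_const hcl.sum_one] at h4
      have h5 : Real.log (2 * 0 + 1) = 0 := by norm_num
      rw [h5] at h4
      exact h4.trans (by positivity)
  obtain ⟨e₀, he₀, H⟩ := few_fin hpos hfew ε hε
  refine ⟨e₀, he₀, fun K => Bas.mono 0 ((H K).and (pos_bas hpos)) ?_⟩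
  rintro J - F A ⟨H, hA⟩ u u' hu ⟨hu', hz⟩
  have hcl := isLaw_cond F.isLaw hA
  obtain ⟨V, z, hzc, h1⟩ := H u (fun n ω => u' ω (n / (j + 1)) (n % (j + 1))) hu (by
    intro n hn
    have h1 : n / (j + 1) < r := Nat.div_lt_of_lt_mul (by rw [mul_comm]; exact hn)
    have h2 : n % (j + 1) ≤ j := Nat.lt_succ_iff.1 (Nat.mod_lt n (Nat.succ_pos j))
    rw [hQn]
    by_cases h3 : r₀ ≤ n / (j + 1)
    · simp only [if_pos h3]
      exact hu' _ h3 h1 _ h2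
    · simp only [if_neg h3]
      intro ω hω
      exact hz ω hω _ _ (fun hn => h3 hn.1))
  refine ⟨V, z, hzc, le_trans (CH_mono_left hcl.nonneg fun ω ω' hω hω' hh => ?_) h1⟩
  have h2 := (Prod.ext_iff.mp hh).1
  funext i j'
  by_cases hin : r₀ ≤ i ∧ i < r ∧ j' ≤ j
  · have h3 : i * (j + 1) + j' < r * (j + 1) := by
      have := Nat.mul_le_mul_right (j + 1) (Nat.succ_le_of_lt hin.2.1)
      rw [Nat.succ_mul] at this
      have := hin.2.2
      omega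
    have h4 := congrFun h2 ⟨i * (j + 1) + j', h3⟩
    have h5 : (i * (j + 1) + j') / (j + 1) = i := by
      rw [Nat.add_comm, Nat.add_mul_div_right _ _ (Nat.succ_pos j),
        Nat.div_eq_of_lt (by have := hin.2.2; omega), zero_add]
    have h6 : (i * (j + 1) + j') % (j + 1) = j' := by
      rw [Nat.add_comm, Nat.add_mul_mod_self_right, Nat.mod_eq_of_lt (by
        have := hin.2.2; omega)]
    simp only [h5, h6] at h4
    exact h4
  · rw [hz ω (of_cond_pos hω) i j' hin, hz ω' (of_cond_pos hω') i j' hin]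

theorem exs_qjets {c : ℕ → Fin m} {r₀ r j : ℕ} {w p N : ℕ → ℕ → ℝ}
    (h : ∀ i, r₀ ≤ i → i < r → ∀ j' ≤ j, Exs S
      (qJet m ((range i).image c) (c i) j' (w i j') (p i j') (N i j'))) :
    Exs S (qJets m c r₀ r j w p N) := by
  classical
  intro e he
  obtain ⟨Qn, hQn⟩ : ∃ Qn : ℕ → Qt m ℤ, Qn = fun n => if r₀ ≤ n / (j + 1) then
    qJet m ((range (n / (j + 1))).image c) (c (n / (j + 1))) (n % (j + 1))
      (w (n / (j + 1)) (n % (j + 1))) (p (n / (j + 1)) (n % (j + 1)))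
      (N (n / (j + 1)) (n % (j + 1))) else Qt.fn (fun _ _ _ => 0) := ⟨_, rfl⟩
  have hexs : ∀ n < r * (j + 1), Exs S (Qn n) := by
    intro n hn
    rw [hQn]
    have h1 : n / (j + 1) < r := Nat.div_lt_of_lt_mul (by rw [mul_comm]; exact hn)
    have h2 : n % (j + 1) ≤ j := Nat.lt_succ_iff.1 (Nat.mod_lt n (Nat.succ_pos j))
    by_cases h3 : r₀ ≤ n / (j + 1)
    · simp only [if_pos h3]
      exact h _ h3 h1 _ h2
    · simp only [if_neg h3]
      intro e _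
      refine ⟨0, 0, ⟨1, one_pos, 0, fun J _ F A _ => ⟨fun _ => 0, fun _ _ => rfl, ?_⟩⟩⟩
      have h1 := cnt_one_le F.p (0 : ℤ) A
      rw [zero_mul, Real.exp_zero]
      exact_mod_cast h1
  obtain ⟨K, M, H⟩ := exs_fin hexs e he
  refine ⟨K, M, Bas.mono 0 H ?_⟩
  rintro J - F A ⟨X, hX, hc⟩
  refine ⟨fun ω i j' => if r₀ ≤ i ∧ i < r ∧ j' ≤ j then X (i * (j + 1) + j') ω else 0,
    ⟨fun i hi0 hi j' hj' => ?_, fun ω _ i j' hin => if_neg hin⟩, ?_⟩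
  · have h3 : i * (j + 1) + j' < r * (j + 1) := by
      have := Nat.mul_le_mul_right (j + 1) (Nat.succ_le_of_lt hi)
      rw [Nat.succ_mul] at this
      omega
    have h4 := hX _ h3
    rw [hQn] at h4
    have h5 : (i * (j + 1) + j') / (j + 1) = i := by
      rw [Nat.add_comm, Nat.add_mul_div_right _ _ (Nat.succ_pos j),
        Nat.div_eq_of_lt (by omega), zero_add]
    have h6 : (i * (j + 1) + j') % (j + 1) = j' := by
      rw [Nat.add_comm, Nat.add_mul_mod_self_right, Nat.mod_eq_of_lt (by omega)]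
    simp only [h5, h6, if_pos hi0] at h4
    have h7 : (fun ω => if r₀ ≤ i ∧ i < r ∧ j' ≤ j then X (i * (j + 1) + j') ω else 0) =
        X (i * (j + 1) + j') := by
      funext ω
      exact if_pos ⟨hi0, hi, hj'⟩
    rw [h7]
    exact h4
  · refine le_trans ?_ hc
    have h1 := cnt_comp_le F.p (fun ω (n : Fin (r * (j + 1))) => X n ω)
      (fun ω i j' => if r₀ ≤ i ∧ i < r ∧ j' ≤ j then X (i * (j + 1) + j') ω else 0) (A := A)
      (fun q i j' => if h : (r₀ ≤ i ∧ i < r ∧ j' ≤ j) ∧ i * (j + 1) + j' < r * (j + 1) then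
        q ⟨i * (j + 1) + j', h.2⟩ else 0) (by
      intro ω _ _
      funext i j'
      by_cases hin : r₀ ≤ i ∧ i < r ∧ j' ≤ j
      · have h3 : i * (j + 1) + j' < r * (j + 1) := by
          have := Nat.mul_le_mul_right (j + 1) (Nat.succ_le_of_lt hin.2.1)
          rw [Nat.succ_mul] at this
          have := hin.2.2
          omega
        rw [if_pos hin, dif_pos ⟨hin, h3⟩]
      · rw [if_neg hin, dif_neg (fun hn => hin hn.1)])
    exact_mod_cast h1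

/-! ### Few bits over nested charts -/

/-- A part of the chain. -/
theorem Chn.take {c : ℕ → Fin m} {r₀ r : ℕ} {w u₀ u₁ : ℝ} {s rd : ℕ → ℝ}
    (h : Chn S c r₀ r w u₀ u₁ s rd) {n : ℕ} (hn0 : r₀ ≤ n) (hn : n ≤ r) :
    Chn S c r₀ n w u₀ u₁ s rd :=
  ⟨hn0, h.inj.mono (Set.Iio_subset_Iio hn), h.w0, h.wu0, h.u0, h.wu1, h.u1,
    fun i a b => h.s0 i a (by omega), fun i a b => h.r1 i a (by omega),
    fun i a b => h.att i a (by omega), h.base, fun k a b => h.pre k a (by omega),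
    fun ρ hρ => Bas.mono 0 (h.ful ρ hρ) fun _ _ _ _ H V z z' hz i a b =>
      H V z z' hz i a (by omega)⟩

/-- Fewer jets. -/
theorem qJets_take {c : ℕ → Fin m} {r₀ r j n k : ℕ} {w p N : ℕ → ℕ → ℝ} (hn : n ≤ r)
    (hk : k ≤ j) {K : ℕ} {e : ℝ} {J : ℕ} {F : Fam m J} {A : F.Ω → Prop} {u : F.Ω → ℕ → ℕ → ℤ}
    (h : (qJets m c r₀ r j w p N).P K e J F A u) :
    (qJets m c r₀ n k w p N).P K e J F A
      (fun ω i j' => if r₀ ≤ i ∧ i < n ∧ j' ≤ k then u ω i j' else 0) := by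
  refine ⟨fun i a b j' c' => ?_, fun ω _ i j' hin => if_neg hin⟩
  have h1 := h.1 i a (by omega) j' (by omega)
  have h2 : (fun ω => if r₀ ≤ i ∧ i < n ∧ j' ≤ k then u ω i j' else 0) = fun ω => u ω i j' := by
    funext ω
    exact if_pos ⟨a, b, c'⟩
  rw [h2]
  exact h1

/-- **Change of charts over a nested chain.** -/
theorem few_jetN {C₀ : ℝ} (htm : TmC S C₀) {c : ℕ → Fin m} {r₀ r : ℕ}
    {w u₀ u₁ : ℝ} {s rd : ℕ → ℝ} (hch : Chn S c r₀ r w u₀ u₁ s rd) {k : Fin m} {j : ℕ}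
    {wv pv Nv : ℕ → ℕ → ℝ} {lv : ℕ → ℝ} {w₁ w₂ p₁ p₂ N₁ N₂ p₀ lam σ₀ : ℝ}
    (hwv : ∀ i, r₀ ≤ i → i < r → ∀ j' ≤ j, wv i j' ≤ w) (hw₁ : w₁ ≤ w) (hw₂ : w₂ ≤ w)
    (hu0 : u₀ < p₀) (hp0 : p₀ ≤ 1) (hlam : 0 < lam) (hσ₀ : 0 < σ₀)
    (hlv : ∀ i, r₀ ≤ i → i < r → 0 < lv i)
    (h1 : ∀ i, r₀ ≤ i → i < r → ∀ j' ≤ j, s i + lv i + σ₀ ≤ Nv i j' + j' * u₀)
    (h2 : ∀ i, r₀ ≤ i → i < r → ∀ j' ≤ j,
      s i + lv i + σ₀ ≤ min (pv i j') (s i) + min lam (p₀ - u₀))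
    (h2' : ∀ i, r₀ ≤ i → i < r → ∀ j' ≤ j, ∀ l, r₀ ≤ l → l < i →
      s i + lv i + σ₀ ≤ min (pv i j') (s i) + lv l)
    (hN : N₂ ≤ N₁)
    (h3 : N₂ + j * u₀ + σ₀ ≤ min p₁ p₂ + min lam (p₀ - u₀))
    (h3' : ∀ l, r₀ ≤ l → l < r → N₂ + j * u₀ + σ₀ ≤ min p₁ p₂ + lv l)
    (hf : ∀ (J : ℕ) (F : Fam m J), ∃ φ : α J F → PtT F, ∀ ω, ptr F J ω = φ (f J F ω))
    (hy : Kn ((range r₀).image c) p₀ lam y) :
    Few S f (vg w) y ((qJets m c r₀ r j wv pv Nv).prod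
      (qJet m ((range r).image c) k j w₁ p₁ N₁)) (qJet m ((range r).image c) k j w₂ p₂ N₂) := by
  intro h hh
  refine ⟨σ₀ / 8, by linarith, fun K => Bas.mono 0 (few_jetN_e htm hch (k := k) (j := j)
    (w₁ := w₁) (w₂ := w₂) (p₁ := p₁) (p₂ := p₂) (N₁ := N₁) (N₂ := N₂) (κ := -σ₀) hwv hw₁ hw₂ hu0
    hp0 hlam hσ₀ (by linarith) hlv h1 h2 h2' hN (by linarith)
    (fun l a b => by linarith [h3' l a b]) hf hy hh K) ?_⟩
  rintro J - F A H u u' ⟨hu1, hu2⟩ hu'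
  obtain ⟨V, z, hz, hH⟩ := H (fun ω => (u ω).1) (fun ω => (u ω).2) u' hu1 hu2 hu'
  refine ⟨V, z, hz, hH.trans (le_of_eq ?_)⟩
  ring

/-- **Change of charts for the jets of a nested chain.** -/
theorem few_jets {C₀ : ℝ} (htm : TmC S C₀)
    (hpos : ∀ (τ : ℝ) (J : ℕ) (F : Fam m J) (A : F.Ω → Prop), S.St τ J F A → 0 < Pe F.p A)
    {c : ℕ → Fin m} {r₀ r : ℕ}
    {w u₀ u₁ : ℝ} {s rd : ℕ → ℝ} (hch : Chn S c r₀ r w u₀ u₁ s rd) {j : ℕ}
    {wv pv Nv wv' pv' Nv' : ℕ → ℕ → ℝ} {lv : ℕ → ℝ} {p₀ lam σ₀ : ℝ}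
    (hwv : ∀ i, r₀ ≤ i → i < r → ∀ j' ≤ j, wv i j' ≤ w)
    (hwv' : ∀ i, r₀ ≤ i → i < r → ∀ j' ≤ j, wv' i j' ≤ w)
    (hu0 : u₀ < p₀) (hp0 : p₀ ≤ 1) (hlam : 0 < lam) (hσ₀ : 0 < σ₀)
    (hlv : ∀ i, r₀ ≤ i → i < r → 0 < lv i)
    (h1 : ∀ i, r₀ ≤ i → i < r → ∀ j' ≤ j, s i + lv i + σ₀ ≤ Nv i j' + j' * u₀)
    (h2 : ∀ i, r₀ ≤ i → i < r → ∀ j' ≤ j,
      s i + lv i + σ₀ ≤ min (pv i j') (s i) + min lam (p₀ - u₀))
    (h2' : ∀ i, r₀ ≤ i → i < r → ∀ j' ≤ j, ∀ l, r₀ ≤ l → l < i →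
      s i + lv i + σ₀ ≤ min (pv i j') (s i) + lv l)
    (hN : ∀ i, r₀ ≤ i → i < r → ∀ j' ≤ j, Nv' i j' ≤ Nv i j')
    (h3 : ∀ i, r₀ ≤ i → i < r → ∀ j' ≤ j,
      Nv' i j' + j' * u₀ + σ₀ ≤ min (pv i j') (pv' i j') + min lam (p₀ - u₀))
    (h3' : ∀ i, r₀ ≤ i → i < r → ∀ j' ≤ j, ∀ l, r₀ ≤ l → l < i →
      Nv' i j' + j' * u₀ + σ₀ ≤ min (pv i j') (pv' i j') + lv l)
    (hf : ∀ (J : ℕ) (F : Fam m J), ∃ φ : α J F → PtT F, ∀ ω, ptr F J ω = φ (f J F ω))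
    (hy : Kn ((range r₀).image c) p₀ lam y) :
    Few S f (vg w) y (qJets m c r₀ r j wv pv Nv) (qJets m c r₀ r j wv' pv' Nv') := by
  refine few_qjets hpos fun i hi0 hi j' hj' => ?_
  have key := few_jetN htm (hch.take hi0 hi.le) (k := c i) (j := j') (wv := wv) (pv := pv)
    (Nv := Nv) (lv := lv) (w₁ := wv i j') (w₂ := wv' i j') (p₁ := pv i j') (p₂ := pv' i j')
    (N₁ := Nv i j') (N₂ := Nv' i j') (fun l a b j'' c' => hwv l a (by omega) j'' (by omega))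
    (hwv i hi0 hi j' hj') (hwv' i hi0 hi j' hj') hu0 hp0 hlam hσ₀
    (fun l a b => hlv l a (by omega)) (fun l a b j'' c' => h1 l a (by omega) j'' (by omega))
    (fun l a b j'' c' => h2 l a (by omega) j'' (by omega))
    (fun l a b j'' c' l' a' b' => h2' l a (by omega) j'' (by omega) l' a' b')
    (hN i hi0 hi j' hj') (h3 i hi0 hi j' hj') (fun l a b => h3' i hi0 hi j' hj' l a b) hf hy
  intro h hh
  obtain ⟨e, he, H⟩ := key h hh
  refine ⟨e, he, fun K => Bas.mono 0 ((H K).and (pos_bas hpos)) ?_⟩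
  rintro J - F A ⟨H, hA⟩ u u' hu hu'
  obtain ⟨V, z, hz, h1⟩ := H (fun ω => ((fun l j'' => if r₀ ≤ l ∧ l < i ∧ j'' ≤ j' then
    u ω l j'' else 0), u ω i j')) u' ⟨qJets_take hi.le hj' hu, hu.1 i hi0 hi j' hj'⟩ hu'
  refine ⟨V, z, hz, le_trans (CH_mono_cond (isLaw_cond F.isLaw hA).nonneg ?_) h1⟩
  intro ω ω' _ _ hh
  simp only [Prod.mk.injEq] at hh ⊢
  exact ⟨⟨by rw [hh.1], by rw [hh.1]⟩, hh.2⟩

/-- A factor which is few bits. -/
theorem few0_cut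
    (hpos : ∀ (τ : ℝ) (J : ℕ) (F : Fam m J) (A : F.Ω → Prop), S.St τ J F A → 0 < Pe F.p A)
    {Q₀ : Qt m U₀} {Q₁ : Qt m U₁} {Q' : Qt m U'} (x : Exs S Q₁) (h0 : Few0 S f g y Q₁)
    (hf : Few S f g y (Q₀.prod Q₁) Q') : Few S f g y Q₀ Q' := by
  intro h hh
  obtain ⟨e1, he1, H1⟩ := h0 (h / 2) (half_pos hh)
  obtain ⟨e2, he2, H2⟩ := hf (h / 2) (half_pos hh)
  obtain ⟨K₀, M₀, hx⟩ := x (min e1 e2) (lt_min he1 he2)
  refine ⟨min e1 e2, lt_min he1 he2, fun K => ?_⟩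
  refine Bas.mono 0 (((H1 (max K K₀)).and (H2 (max K K₀))).and (hx.and (pos_bas hpos))) ?_
  rintro J - F A ⟨⟨H1, H2⟩, ⟨u₁, hu₁, -⟩, hA⟩ u₀ u' hu₀ hu'
  have hcl := isLaw_cond F.isLaw hA
  obtain ⟨V, z, hz, h1⟩ := H1 u₁ (Q₁.mono (le_max_right _ _) (min_le_left _ _) hu₁)
  obtain ⟨V', z', hz', h2⟩ := H2 (fun ω => (u₀ ω, u₁ ω)) u'
    ⟨Q₀.mono (le_max_left _ _) (min_le_right _ _) hu₀,
      Q₁.mono (le_max_right _ _) (min_le_right _ _) hu₁⟩
    (Q'.mono (le_max_left _ _) (min_le_right _ _) hu')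
  refine ⟨V × V', fun ω => (z ω, z' ω), hz.join hz', ?_⟩
  have h3 := CH_le_add hcl.nonneg u' u₁ (fun ω => (u₀ ω, ((z ω, z' ω), y J F ω)))
  have h4 : CH (Pool.Agent.H49.Ent.cond F.p A True) u₁
      (fun ω => (u₀ ω, ((z ω, z' ω), y J F ω))) ≤
      CH (Pool.Agent.H49.Ent.cond F.p A True) u₁ (fun ω => (z ω, y J F ω)) := by
    refine CH_mono_cond hcl.nonneg fun ω ω' _ _ hh => ?_
    simp only [Prod.mk.injEq] at hh ⊢
    exact ⟨hh.2.1.1, hh.2.2⟩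
  have h5 : CH (Pool.Agent.H49.Ent.cond F.p A True) u'
      (fun ω => (u₁ ω, (u₀ ω, ((z ω, z' ω), y J F ω)))) ≤
      CH (Pool.Agent.H49.Ent.cond F.p A True) u' (fun ω => ((u₀ ω, u₁ ω), (z' ω, y J F ω))) := by
    refine CH_mono_cond hcl.nonneg fun ω ω' _ _ hh => ?_
    simp only [Prod.mk.injEq] at hh ⊢
    exact ⟨⟨hh.2.1, hh.1⟩, hh.2.2.1.2, hh.2.2.2⟩
  linarith

/-- **The jets over a nested chain, relative to the jets of the chain to a fixed number of digits,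
are a relative two-parameter family.** -/
theorem two_jetN {C₀ : ℝ} (htm : TmC S C₀)
    (hpos : ∀ (τ : ℝ) (J : ℕ) (F : Fam m J) (A : F.Ω → Prop), S.St τ J F A → 0 < Pe F.p A)
    {c : ℕ → Fin m} {r₀ r : ℕ} {k : Fin m} {j : ℕ} {A B lam lam' p₀ σ₀ : ℝ} (hA : 0 ≤ A)
    {u₀ u₁ p rk : ℚ → ℝ} {s rd : ℚ → ℕ → ℝ} {N₀ : ℕ → ℕ → ℝ} {lv : ℕ → ℝ}
    (hch : ∀ w : ℚ, A < w → (w : ℝ) < B → Chn S c r₀ r w (u₀ w) (u₁ w) (s w) (rd w))
    (hrd : ∀ w : ℚ, A < w → (w : ℝ) < B → ∀ i, r₀ ≤ i → i < r → 0 ≤ rd w i)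
    (hrk : ∀ w : ℚ, A < w → (w : ℝ) < B → 0 ≤ rk w)
    (hatt : ∀ w : ℚ, A < w → (w : ℝ) < B → Att S ((range r).image c) k w (p w) (rk w))
    (hu₀ : ∀ w : ℚ, A < w → (w : ℝ) < B → u₀ w < p₀) (hp0 : p₀ ≤ 1) (hlam' : 0 < lam')
    (hσ₀ : 0 < σ₀) (hlam : 0 < lam) (hlv : ∀ i, r₀ ≤ i → i < r → 0 < lv i)
    (hf : ∀ (J : ℕ) (F : Fam m J), ∃ φ : α J F → PtT F, ∀ ω, ptr F J ω = φ (f J F ω))
    (hy : Kn ((range r₀).image c) p₀ lam' y)
    (hsm : ∀ w v : ℚ, A < w → w ≤ v → (v : ℝ) < B → (v : ℝ) < w + lam → ∀ i, r₀ ≤ i → i < r →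
      s w i ≤ s v i)
    (c1 : ∀ v : ℚ, A < v → (v : ℝ) < B → ∀ i, r₀ ≤ i → i < r → ∀ j' ≤ j,
      s v i + lv i + σ₀ ≤ N₀ i j' + j' * u₀ v)
    (c2 : ∀ w v : ℚ, A < w → w ≤ v → (v : ℝ) < B → (v : ℝ) < w + lam → ∀ i, r₀ ≤ i → i < r →
      s v i + lv i + σ₀ ≤ s w i + min lam' (p₀ - u₀ v))
    (c2' : ∀ w v : ℚ, A < w → w ≤ v → (v : ℝ) < B → (v : ℝ) < w + lam → ∀ i, r₀ ≤ i → i < r →
      ∀ l, r₀ ≤ l → l < i → s v i + lv i + σ₀ ≤ s w i + lv l)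
    (c4 : ∀ w v : ℚ, A < w → w ≤ v → (v : ℝ) < B → (v : ℝ) < w + lam → ∀ i, r₀ ≤ i → i < r →
      ∀ j' ≤ j, N₀ i j' + j' * u₀ v + σ₀ ≤ s w i + min lam' (p₀ - u₀ v))
    (c4' : ∀ w v : ℚ, A < w → w ≤ v → (v : ℝ) < B → (v : ℝ) < w + lam → ∀ i, r₀ ≤ i → i < r →
      ∀ j' ≤ j, ∀ l, r₀ ≤ l → l < i → N₀ i j' + j' * u₀ v + σ₀ ≤ s w i + lv l)
    (hmono : ∀ v o : ℚ, A < v → v ≤ o → (o : ℝ) < B → p v - j * v ≤ p o - j * o)
    (c3 : ∀ w v o : ℚ, A < w → w ≤ v → v ≤ o → (o : ℝ) < B → (o : ℝ) < w + lam →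
      p o - j * o + j * u₀ v + σ₀ ≤ min (p w) (p v) + min lam' (p₀ - u₀ v))
    (c3' : ∀ w v o : ℚ, A < w → w ≤ v → v ≤ o → (o : ℝ) < B → (o : ℝ) < w + lam →
      ∀ l, r₀ ≤ l → l < r → p o - j * o + j * u₀ v + σ₀ ≤ min (p w) (p v) + lv l) :
    TwoRel S f y (fun w => qJets m c r₀ r j (fun _ _ => (w : ℝ)) (fun i _ => s w i) N₀)
      (fun w o => qJet m ((range r).image c) k j w (p w) (p o - j * o)) A B lam where
  exs₀ w a b := exs_qjets fun i hi0 hi j' _ => exs_jet (hrd w a b i hi0 hi)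
    ((hch w a b).att i hi0 hi)
  exs w o a b c' d := by
    have b' : (w : ℝ) ≤ o := by exact_mod_cast b
    exact exs_jet (hrk w a (by linarith)) (hatt w a (by linarith))
  tr w v a b c' d := by
    have b' : (w : ℝ) ≤ v := by exact_mod_cast b
    have a' : A < v := by linarith
    refine few_jets htm hpos (hch v a' c') (wv := fun _ _ => (v : ℝ)) (lv := lv)
      (fun _ _ _ _ _ => le_rfl) (fun _ _ _ _ _ => b') (hu₀ v a' c') hp0 hlam' hσ₀ hlv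
      (fun i e1 e2 j' e3 => c1 v a' c' i e1 e2 j' e3) (fun i e1 e2 j' _ => ?_)
      (fun i e1 e2 j' _ l e4 e5 => ?_) (fun _ _ _ _ _ => le_rfl) (fun i e1 e2 j' e3 => ?_)
      (fun i e1 e2 j' e3 l e4 e5 => ?_) hf hy
    · rw [min_self]
      exact c2 v v a' le_rfl c' (by linarith) i e1 e2
    · rw [min_self]
      exact c2' v v a' le_rfl c' (by linarith) i e1 e2 l e4 e5
    · rw [min_eq_right (hsm w v a b c' d i e1 e2)]
      exact c4 w v a b c' d i e1 e2 j' e3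
    · rw [min_eq_right (hsm w v a b c' d i e1 e2)]
      exact c4' w v a b c' d i e1 e2 j' e3 l e4 e5
  row w v o a b c' d e := by
    have b' : (w : ℝ) ≤ v := by exact_mod_cast b
    have c'' : (v : ℝ) ≤ o := by exact_mod_cast c'
    have hwB : (w : ℝ) < B := by linarith
    refine few_jetN htm (hch w a hwB) (lv := lv) (fun _ _ _ _ _ => le_rfl) le_rfl le_rfl
      (hu₀ w a hwB) hp0 hlam' hσ₀ hlv (fun i e1 e2 j' e3 => c1 w a hwB i e1 e2 j' e3)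
      (fun i e1 e2 j' _ => ?_) (fun i e1 e2 j' _ l e4 e5 => ?_)
      (hmono v o (by linarith) c' d) (c3 w w v a le_rfl b (by linarith) (by linarith))
      (fun l e4 e5 => c3' w w v a le_rfl b (by linarith) (by linarith) l e4 e5) hf hy
    · rw [min_self]
      exact c2 w w a le_rfl hwB (by linarith) i e1 e2
    · rw [min_self]
      exact c2' w w a le_rfl hwB (by linarith) i e1 e2 l e4 e5
  chg w v o a b c' d e := by
    have b' : (w : ℝ) ≤ v := by exact_mod_cast b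
    have c'' : (v : ℝ) ≤ o := by exact_mod_cast c'
    have a' : A < v := by linarith
    have hvB : (v : ℝ) < B := by linarith
    have hvl : (v : ℝ) < w + lam := by linarith
    refine few_jetN htm (hch v a' hvB) (lv := lv) (fun _ _ _ _ _ => b') b' le_rfl
      (hu₀ v a' hvB) hp0 hlam' hσ₀ hlv (fun i e1 e2 j' e3 => c1 v a' hvB i e1 e2 j' e3)
      (fun i e1 e2 j' _ => ?_) (fun i e1 e2 j' _ l e4 e5 => ?_) le_rfl
      (c3 w v o a b c' d e) (fun l e4 e5 => c3' w v o a b c' d e l e4 e5) hf hy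
    · rw [min_eq_left (hsm w v a b hvB hvl i e1 e2)]
      exact c2 w v a b hvB hvl i e1 e2
    · rw [min_eq_left (hsm w v a b hvB hvl i e1 e2)]
      exact c2' w v a b hvB hvl i e1 e2 l e4 e5
  own w v a b c' d := by
    have b' : (w : ℝ) ≤ v := by exact_mod_cast b
    have a' : A < v := by linarith
    have hx : Exs S (qJet m ((range r).image c) k j v (p v) (p v - j * v)) :=
      exs_jet (hrk v a' c') (hatt v a' c')
    have h0 : Few0 S f (vg (v : ℝ)) y (qJet m ((range r).image c) k j v (p v) (p v - j * v)) :=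
      few0_jet htm (by linarith) (by linarith [(hch v a' c').wu0, (hch v a' c').u0])
        (by linarith) _ _ _
    refine few0_cut hpos hx h0 ?_
    refine few_jetN htm (hch v a' c') (lv := lv) (fun _ _ _ _ _ => b') le_rfl b'
      (hu₀ v a' c') hp0 hlam' hσ₀ hlv (fun i e1 e2 j' e3 => c1 v a' c' i e1 e2 j' e3)
      (fun i e1 e2 j' _ => ?_) (fun i e1 e2 j' _ l e4 e5 => ?_) le_rfl ?_ ?_ hf hy
    · rw [min_eq_left (hsm w v a b c' d i e1 e2)]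
      exact c2 w v a b c' d i e1 e2
    · rw [min_eq_left (hsm w v a b c' d i e1 e2)]
      exact c2' w v a b c' d i e1 e2 l e4 e5
    · rw [min_comm]
      exact c3 w v v a b le_rfl c' d
    · intro l e4 e5
      rw [min_comm]
      exact c3' w v v a b le_rfl c' d l e4 e5

end Pool.LA91
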