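import Pool.Agent.H91.LA.Dif

/-!
# Jets along lines

`jet j H b v`: the `j`-th derivative at `0` of `H` on the line through `b` with the direction `v`.
`jet_le`, `jet_sub_le`: bounds for polynomials which are bounded on a ball.
-/

set_option autoImplicit false

namespace Pool.LA91

open Finset Real MvPolynomial

variable {m : ℕ}

/-- The line through `b` with the direction `v`. -/
noncomputable def lp (b v : Option (Fin m) → ℝ) (o : Option (Fin m)) : Polynomial ℝ :=
  Polynomial.C (b o) + Polynomial.C (v o) * Polynomial.X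

/-- **The `j`-th derivative** of `H` on the line through `b` with the direction `v`. -/
noncomputable def jet (j : ℕ) (H : MvPolynomial (Option (Fin m)) ℝ)
    (b v : Option (Fin m) → ℝ) : ℝ :=
  (Polynomial.derivative^[j] (aeval (lp b v) H)).eval 0

theorem natDegree_lp (b v : Option (Fin m) → ℝ) (o : Option (Fin m)) :
    (lp b v o).natDegree ≤ 1 := by
  unfold lp
  refine (Polynomial.natDegree_add_le _ _).trans (max_le ?_ ?_)
  · rw [Polynomial.natDegree_C]
    exact Nat.zero_le _
  · exact (Polynomial.natDegree_C_mul_le _ _).trans Polynomial.natDegree_X_le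

theorem natDegree_alp {H : MvPolynomial (Option (Fin m)) ℝ} {D : ℕ} (hH : H.totalDegree ≤ D)
    (b v : Option (Fin m) → ℝ) : (aeval (lp b v) H).natDegree ≤ D :=
  Pool.KBX.natDegree_aeval_le _ _ (natDegree_lp b v) hH

theorem eval_alp (H : MvPolynomial (Option (Fin m)) ℝ) (b v : Option (Fin m) → ℝ) (t : ℝ) :
    (aeval (lp b v) H).eval t = eval (fun o => b o + t * v o) H := by
  rw [Pool.KBX.eval_aeval_poly]
  congr 2
  funext o
  simp only [lp, Polynomial.eval_add, Polynomial.eval_mul, Polynomial.eval_C, Polynomial.eval_X]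
  ring

theorem jet_sub (j : ℕ) (H H' : MvPolynomial (Option (Fin m)) ℝ) (b v : Option (Fin m) → ℝ) :
    jet j (H - H') b v = jet j H b v - jet j H' b v := by
  unfold jet
  rw [map_sub, Polynomial.iterate_derivative_sub, Polynomial.eval_sub]

/-- A polynomial which depends only on some of the coordinates. -/
theorem jet_congr {H : MvPolynomial (Option (Fin m)) ℝ} {I : Finset (Fin m)}
    (hH : ∀ b b' : Option (Fin m) → ℝ, b none = b' none →
      (∀ i ∈ I, b (some i) = b' (some i)) → eval b H = eval b' H) (j : ℕ)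
    {b b' v v' : Option (Fin m) → ℝ} (h0 : b none = b' none)
    (h1 : ∀ i ∈ I, b (some i) = b' (some i)) (h2 : v none = v' none)
    (h3 : ∀ i ∈ I, v (some i) = v' (some i)) : jet j H b v = jet j H b' v' := by
  have e : aeval (lp b v) H = aeval (lp b' v') H := by
    refine Polynomial.funext fun t => ?_
    rw [eval_alp, eval_alp]
    refine hH _ _ (by rw [h0, h2]) fun i hi => ?_
    rw [h1 i hi, h3 i hi]
  unfold jet
  rw [e]

/-! ### One variable -/

theorem natDegree_iter {q : Polynomial ℝ} {D : ℕ} (hq : q.natDegree ≤ D) (j : ℕ) :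
    (Polynomial.derivative^[j] q).natDegree ≤ D :=
  (Polynomial.natDegree_iterate_derivative q j).trans ((Nat.sub_le _ _).trans hq)

/-- Markov, iterated. -/
theorem markov_iter (D j : ℕ) : ∃ C : ℝ, 1 ≤ C ∧ ∀ (q : Polynomial ℝ) (S : ℝ),
    q.natDegree ≤ D → (∀ t ∈ Set.Icc (0 : ℝ) 1, |q.eval t| ≤ S) →
    ∀ t ∈ Set.Icc (0 : ℝ) 1, |(Polynomial.derivative^[j] q).eval t| ≤ C * S := by
  obtain ⟨C, hC, hmk⟩ := Pool.Agent.H40.BFL.unit_markov D
  refine ⟨C ^ j, one_le_pow₀ hC, ?_⟩
  intro q S hq hS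
  induction j with
  | zero =>
    intro t ht
    simpa using hS t ht
  | succ j ih =>
    intro t ht
    rw [Function.iterate_succ_apply']
    refine (hmk _ (C ^ j * S) (natDegree_iter hq j) ih t ht).trans (le_of_eq ?_)
    ring

theorem der_scale (q : Polynomial ℝ) (r : ℝ) (j : ℕ) :
    Polynomial.derivative^[j] (q.comp (Polynomial.C r * Polynomial.X)) =
      Polynomial.C (r ^ j) * (Polynomial.derivative^[j] q).comp
        (Polynomial.C r * Polynomial.X) := by
  induction j with
  | zero => simp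
  | succ j ih =>
    rw [Function.iterate_succ_apply', ih, Function.iterate_succ_apply',
      Polynomial.derivative_C_mul, Polynomial.derivative_comp, Polynomial.derivative_C_mul,
      Polynomial.derivative_X, mul_one, ← mul_assoc, pow_succ, Polynomial.C_mul]

/-- Markov on an interval of length `r`, at the end. -/
theorem markov_end (D j : ℕ) : ∃ C : ℝ, 1 ≤ C ∧ ∀ (q : Polynomial ℝ) (S r : ℝ),
    q.natDegree ≤ D → 0 < r → (∀ t ∈ Set.Icc (0 : ℝ) r, |q.eval t| ≤ S) →
    |(Polynomial.derivative^[j] q).eval 0| ≤ C * S / r ^ j := by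
  obtain ⟨C, hC, hmk⟩ := markov_iter D j
  refine ⟨C, hC, fun q S r hq hr hS => ?_⟩
  have h1 := hmk (q.comp (Polynomial.C r * Polynomial.X)) S (by
    refine Polynomial.natDegree_comp_le.trans ?_
    have : (Polynomial.C r * Polynomial.X : Polynomial ℝ).natDegree ≤ 1 :=
      (Polynomial.natDegree_C_mul_le _ _).trans Polynomial.natDegree_X_le
    calc q.natDegree * (Polynomial.C r * Polynomial.X : Polynomial ℝ).natDegree
        ≤ D * 1 := Nat.mul_le_mul hq this
      _ = D := mul_one D) (by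
    intro t ht
    rw [Polynomial.eval_comp, Polynomial.eval_mul, Polynomial.eval_C, Polynomial.eval_X]
    exact hS _ ⟨mul_nonneg hr.le ht.1, by nlinarith [ht.2]⟩) 0 ⟨le_rfl, zero_le_one⟩
  rw [der_scale, Polynomial.eval_mul, Polynomial.eval_C, Polynomial.eval_comp,
    Polynomial.eval_mul, Polynomial.eval_C, Polynomial.eval_X, mul_zero, abs_mul,
    abs_of_pos (pow_pos hr j)] at h1
  rw [le_div_iff₀ (pow_pos hr j), mul_comm]
  exact h1

/-- A bounded polynomial on `[0, R]` changes little on `[0, 1]`. -/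
theorem markov_chg (D : ℕ) : ∃ C : ℝ, 1 ≤ C ∧ ∀ (q : Polynomial ℝ) (S R : ℝ),
    q.natDegree ≤ D → 1 ≤ R → (∀ t ∈ Set.Icc (0 : ℝ) R, |q.eval t| ≤ S) →
    |q.eval 1 - q.eval 0| ≤ C * S / R := by
  obtain ⟨C, hC, hmk⟩ := Pool.Agent.H40.BFL.unit_markov D
  refine ⟨C, hC, fun q S R hq hR hS => ?_⟩
  have hR0 : 0 < R := by linarith
  obtain ⟨g, hg⟩ : ∃ g, g = q.comp (Polynomial.C R * Polynomial.X) := ⟨_, rfl⟩
  have hev : ∀ t, g.eval t = q.eval (R * t) := by
    intro t
    rw [hg, Polynomial.eval_comp, Polynomial.eval_mul, Polynomial.eval_C, Polynomial.eval_X]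
  have h1 := hmk g S (by
    rw [hg]
    refine Polynomial.natDegree_comp_le.trans ?_
    have : (Polynomial.C R * Polynomial.X : Polynomial ℝ).natDegree ≤ 1 :=
      (Polynomial.natDegree_C_mul_le _ _).trans Polynomial.natDegree_X_le
    calc q.natDegree * (Polynomial.C R * Polynomial.X : Polynomial ℝ).natDegree
        ≤ D * 1 := Nat.mul_le_mul hq this
      _ = D := mul_one D) (by
    intro t ht
    rw [hev]
    exact hS _ ⟨mul_nonneg hR0.le ht.1, by nlinarith [ht.2]⟩)
  have h2 := (convex_Icc (0 : ℝ) 1).norm_image_sub_le_of_norm_deriv_le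
    (f := fun t => g.eval t) (C := C * S) (fun t _ => g.differentiableAt) (by
      intro t ht
      rw [Polynomial.deriv, Real.norm_eq_abs]
      exact h1 t ht) (x := 0) (y := 1 / R) ⟨le_rfl, zero_le_one⟩
    ⟨by positivity, by rw [div_le_one hR0]; exact hR⟩
  simp only [Real.norm_eq_abs] at h2
  rw [hev, hev, mul_zero, mul_one_div, div_self hR0.ne', sub_zero,
    abs_of_pos (by positivity : (0 : ℝ) < 1 / R)] at h2
  calc |q.eval 1 - q.eval 0| ≤ C * S * (1 / R) := h2
    _ = C * S / R := by ring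

/-! ### Several variables -/

/-- **A polynomial which is bounded on a ball is Lipschitz** on the ball of half the radius. -/
theorem lip_ball (m D : ℕ) : ∃ C : ℝ, 1 ≤ C ∧ ∀ (H : MvPolynomial (Option (Fin m)) ℝ)
    (b₀ b b' : Option (Fin m) → ℝ) (r s B : ℝ), H.totalDegree ≤ D → 0 < s → s ≤ r →
    (∀ b, (∀ o, |b o - b₀ o| ≤ 2 * r) → |eval b H| ≤ B) → (∀ o, |b' o - b₀ o| ≤ r) →
    (∀ o, |b o - b' o| ≤ s) → |eval b H - eval b' H| ≤ C * B * (s / r) := by
  obtain ⟨C, hC, hmk⟩ := markov_chg D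
  refine ⟨C, hC, fun H b₀ b b' r s B hH hs hsr hB hb' hbb => ?_⟩
  have hr : 0 < r := lt_of_lt_of_le hs hsr
  have h1 := hmk (aeval (lp b' (fun o => b o - b' o)) H) B (r / s)
    (natDegree_alp hH _ _) ((one_le_div hs).2 hsr) (by
      intro t ht
      rw [eval_alp]
      refine hB _ fun o => ?_
      have e1 : b' o + t * (b o - b' o) - b₀ o = (b' o - b₀ o) + t * (b o - b' o) := by ring
      rw [e1]
      have e2 : |t * (b o - b' o)| ≤ r := by
        rw [abs_mul, abs_of_nonneg ht.1]
        calc t * |b o - b' o| ≤ r / s * s :=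
              mul_le_mul ht.2 (hbb o) (abs_nonneg _) (by positivity)
          _ = r := by field_simp
      calc |(b' o - b₀ o) + t * (b o - b' o)| ≤ |b' o - b₀ o| + |t * (b o - b' o)| :=
            abs_add_le _ _
        _ ≤ 2 * r := by linarith [hb' o])
  rw [eval_alp, eval_alp] at h1
  have e3 : (fun o => b' o + 1 * (b o - b' o)) = b := by
    funext o
    ring
  have e4 : (fun o => b' o + 0 * (b o - b' o)) = b' := by
    funext o
    ring
  rw [e3, e4] at h1
  refine h1.trans (le_of_eq ?_)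
  field_simp

/-- **The jets of a polynomial which is bounded on a ball.** -/
theorem jet_le (m D j : ℕ) : ∃ C : ℝ, 1 ≤ C ∧ ∀ (H : MvPolynomial (Option (Fin m)) ℝ)
    (b₀ b v : Option (Fin m) → ℝ) (r B : ℝ), H.totalDegree ≤ D → 0 < r →
    (∀ b, (∀ o, |b o - b₀ o| ≤ 2 * r) → |eval b H| ≤ B) → (∀ o, |b o - b₀ o| ≤ r) →
    (∀ o, |v o| ≤ 1) → |jet j H b v| ≤ C * B / r ^ j := by
  obtain ⟨C, hC, hmk⟩ := markov_end D j
  refine ⟨C, hC, fun H b₀ b v r B hH hr hB hb hv => ?_⟩
  refine hmk _ B r (natDegree_alp hH _ _) hr fun t ht => ?_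
  rw [eval_alp]
  refine hB _ fun o => ?_
  have e1 : b o + t * v o - b₀ o = (b o - b₀ o) + t * v o := by ring
  rw [e1]
  have e2 : |t * v o| ≤ r := by
    rw [abs_mul, abs_of_nonneg ht.1]
    calc t * |v o| ≤ r * 1 := mul_le_mul ht.2 (hv o) (abs_nonneg _) hr.le
      _ = r := mul_one r
  calc |(b o - b₀ o) + t * v o| ≤ |b o - b₀ o| + |t * v o| := abs_add_le _ _
    _ ≤ 2 * r := by linarith [hb o]

/-- **The jets at near points in near directions.** -/
theorem jet_sub_le (m D j : ℕ) : ∃ C : ℝ, 1 ≤ C ∧ ∀ (H : MvPolynomial (Option (Fin m)) ℝ)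
    (b₀ b b' v v' : Option (Fin m) → ℝ) (r s σ B : ℝ), H.totalDegree ≤ D → 0 < r → 0 < s →
    0 ≤ σ → s + r * σ ≤ 2 * r →
    (∀ b, (∀ o, |b o - b₀ o| ≤ 4 * r) → |eval b H| ≤ B) → (∀ o, |b' o - b₀ o| ≤ r) →
    (∀ o, |v' o| ≤ 1) → (∀ o, |b o - b' o| ≤ s) → (∀ o, |v o - v' o| ≤ σ) →
    |jet j H b v - jet j H b' v'| ≤ C * B * ((s + r * σ) / r) / r ^ j := by
  obtain ⟨C₁, hC₁, hl⟩ := lip_ball m D
  obtain ⟨C₂, hC₂, hmk⟩ := markov_end D j
  refine ⟨C₁ * C₂, one_le_mul_of_one_le_of_one_le hC₁ hC₂, ?_⟩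
  intro H b₀ b b' v v' r s σ B hH hr hs hσ hsr hB hb' hv' hbb hvv
  have hB0 : 0 ≤ B := by
    have := hB b₀ (fun o => by rw [sub_self, abs_zero]; positivity)
    exact (abs_nonneg _).trans this
  have h1 : jet j H b v - jet j H b' v' =
      (Polynomial.derivative^[j] (aeval (lp b v) H - aeval (lp b' v') H)).eval 0 := by
    unfold jet
    rw [Polynomial.iterate_derivative_sub, Polynomial.eval_sub]
  rw [h1]
  have h2 := hmk (aeval (lp b v) H - aeval (lp b' v') H) (C₁ * B * ((s + r * σ) / (2 * r))) r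
    ((Polynomial.natDegree_sub_le _ _).trans (max_le (natDegree_alp hH _ _)
      (natDegree_alp hH _ _))) hr (by
      intro t ht
      rw [Polynomial.eval_sub, eval_alp, eval_alp]
      refine hl H b₀ _ _ (2 * r) (s + r * σ) B hH (by positivity) hsr (fun b hb => hB b fun o => ?_)
        (fun o => ?_) fun o => ?_
      · refine (hb o).trans (le_of_eq (by ring))
      · have e1 : b' o + t * v' o - b₀ o = (b' o - b₀ o) + t * v' o := by ring
        rw [e1]
        have e2 : |t * v' o| ≤ r := by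
          rw [abs_mul, abs_of_nonneg ht.1]
          calc t * |v' o| ≤ r * 1 := mul_le_mul ht.2 (hv' o) (abs_nonneg _) hr.le
            _ = r := mul_one r
        calc |(b' o - b₀ o) + t * v' o| ≤ |b' o - b₀ o| + |t * v' o| := abs_add_le _ _
          _ ≤ 2 * r := by linarith [hb' o]
      · have e1 : b o + t * v o - (b' o + t * v' o) = (b o - b' o) + t * (v o - v' o) := by ring
        rw [e1]
        have e2 : |t * (v o - v' o)| ≤ r * σ := by
          rw [abs_mul, abs_of_nonneg ht.1]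
          exact mul_le_mul ht.2 (hvv o) (abs_nonneg _) hr.le
        calc |(b o - b' o) + t * (v o - v' o)| ≤ |b o - b' o| + |t * (v o - v' o)| :=
              abs_add_le _ _
          _ ≤ s + r * σ := by linarith [hbb o])
  refine h2.trans ?_
  refine div_le_div_of_nonneg_right ?_ (pow_pos hr j).le
  have e5 : (s + r * σ) / (2 * r) ≤ (s + r * σ) / r := by
    refine div_le_div_of_nonneg_left (by positivity) hr (by linarith)
  calc C₂ * (C₁ * B * ((s + r * σ) / (2 * r))) = C₁ * C₂ * B * ((s + r * σ) / (2 * r)) := by ring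
    _ ≤ C₁ * C₂ * B * ((s + r * σ) / r) := mul_le_mul_of_nonneg_left e5 (by positivity)

end Pool.LA91
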