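import Pool.Agent.H91.LA.Num
import Pool.Agent.H23.LOV.Sup

/-!
# No look-ahead

Three quantities: `Q` (window `w`, ball `o`), `Q₁` (window `w`, ball `v`), `Q₂` (window `v`, ball
`o`). The numbers are superadditive (`NN.super`). If they are almost additive, the record at `v`
does not see the quantity behind `v` (`NN.nla`). Superadditive numbers at rational indices are
additive, up to `e r`, in the `r`-boxes of almost every point (`la_ae`).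
-/

set_option autoImplicit false

namespace Pool.LA91

open Finset Real
open Pool.Agent.H49.Ent Pool.Agent.H32.Dense Pool.STK Pool.KA Pool.KSAT Pool.K2S Pool.PB Pool.S6C
  Pool.GEN Pool.RCD

variable {m : ℕ} {U U₁ U₂ : Type} {α β γ α' β' : ∀ J : ℕ, Fam m J → Type}
  {f : ∀ (J : ℕ) (F : Fam m J), F.Ω → α J F} {g : ∀ (J : ℕ) (F : Fam m J), F.Ω → β J F}
  {f' : ∀ (J : ℕ) (F : Fam m J), F.Ω → α' J F} {g' : ∀ (J : ℕ) (F : Fam m J), F.Ω → β' J F}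
  {y : ∀ (J : ℕ) (F : Fam m J), F.Ω → γ J F}

/-- **Few bits** given a closed function and `y`. -/
def Few0 (S : PCl m) (f : ∀ (J : ℕ) (F : Fam m J), F.Ω → α J F)
    (g : ∀ (J : ℕ) (F : Fam m J), F.Ω → β J F) (y : ∀ (J : ℕ) (F : Fam m J), F.Ω → γ J F)
    (Q : Qt m U) : Prop :=
  ∀ h : ℝ, 0 < h → ∃ e₀ : ℝ, 0 < e₀ ∧ ∀ K : ℕ, Bas S (fun J F A => ∀ u,
    Q.P K e₀ J F A u → ∃ (V : Type) (z : F.Ω → V),
      Cl2 (f J F) (g J F) A z ∧ CH (Pool.Agent.H49.Ent.cond F.p A True) u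
        (fun ω => (z ω, y J F ω)) ≤ h * J)

theorem Few0.sub {S S' : PCl m} (hs : ∀ (τ : ℝ) (J : ℕ) (F : Fam m J) (A : F.Ω → Prop),
    S'.St τ J F A → S.St τ J F A) {Q : Qt m U} (h : Few0 S f g y Q) : Few0 S' f g y Q := by
  intro c hc
  obtain ⟨e, he, h1⟩ := h c hc
  exact ⟨e, he, fun K => (h1 K).sub hs⟩

theorem pos_bas {S : PCl m}
    (hpos : ∀ (τ : ℝ) (J : ℕ) (F : Fam m J) (A : F.Ω → Prop), S.St τ J F A → 0 < Pe F.p A) :
    Bas S (fun _ F A => 0 < Pe F.p A) := ⟨1, one_pos, 0, fun J _ F A hA => hpos 1 J F A hA⟩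

/-- Few bits given the record. -/
theorem Few.mx {S : PCl m}
    (hpos : ∀ (τ : ℝ) (J : ℕ) (F : Fam m J) (A : F.Ω → Prop), S.St τ J F A → 0 < Pe F.p A)
    {Q : Qt m U} {Q₁ : Qt m U₁} (hF : Few S f g y Q Q₁) (h : ℝ) (hh : 0 < h) :
    ∃ e₀ : ℝ, 0 < e₀ ∧ ∀ K : ℕ, Bas S (fun J F A => ∀ (V : Type) (z : F.Ω → V),
      Mx f g (h / 2) F A z → ∀ u u₁, Q.P K e₀ J F A u → Q₁.P K e₀ J F A u₁ →
      CH (Pool.Agent.H49.Ent.cond F.p A True) u₁ (fun ω => (u ω, (z ω, y J F ω))) ≤ h * J) := by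
  obtain ⟨e₀, he₀, h1⟩ := hF (h / 2) (half_pos hh)
  refine ⟨e₀, he₀, fun K => Bas.mono 0 ((h1 K).and (pos_bas hpos)) ?_⟩
  rintro J - F A ⟨h2, hA⟩ V z ⟨hz, hmax⟩ u u₁ hu hu₁
  have hcl := isLaw_cond F.isLaw hA
  obtain ⟨V₁, z₁, hz₁, h3⟩ := h2 u u₁ hu hu₁
  have h4 := hmax _ _ hz₁
  have h5 := CH_le_add hcl.nonneg u₁ z₁ (fun ω => (u ω, (z ω, y J F ω)))
  have h6 : CH (Pool.Agent.H49.Ent.cond F.p A True) z₁ (fun ω => (u ω, (z ω, y J F ω))) ≤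
      CH (Pool.Agent.H49.Ent.cond F.p A True) z₁ z := by
    refine CH_mono_cond hcl.nonneg fun ω ω' _ _ hh => ?_
    simp only [Prod.mk.injEq] at hh
    exact hh.2.1
  have h7 : CH (Pool.Agent.H49.Ent.cond F.p A True) u₁
      (fun ω => (z₁ ω, (u ω, (z ω, y J F ω)))) ≤
      CH (Pool.Agent.H49.Ent.cond F.p A True) u₁ (fun ω => (u ω, (z₁ ω, y J F ω))) := by
    refine CH_mono_cond hcl.nonneg fun ω ω' _ _ hh => ?_
    simp only [Prod.mk.injEq] at hh ⊢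
    exact ⟨hh.2.1, hh.1, hh.2.2.2⟩
  linarith

theorem Few0.mx {S : PCl m}
    (hpos : ∀ (τ : ℝ) (J : ℕ) (F : Fam m J) (A : F.Ω → Prop), S.St τ J F A → 0 < Pe F.p A)
    {Q : Qt m U} (hF : Few0 S f g y Q) (h : ℝ) (hh : 0 < h) :
    ∃ e₀ : ℝ, 0 < e₀ ∧ ∀ K : ℕ, Bas S (fun J F A => ∀ (V : Type) (z : F.Ω → V),
      Mx f g (h / 2) F A z → ∀ u, Q.P K e₀ J F A u →
      CH (Pool.Agent.H49.Ent.cond F.p A True) u (fun ω => (z ω, y J F ω)) ≤ h * J) := by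
  obtain ⟨e₀, he₀, h1⟩ := hF (h / 2) (half_pos hh)
  refine ⟨e₀, he₀, fun K => Bas.mono 0 ((h1 K).and (pos_bas hpos)) ?_⟩
  rintro J - F A ⟨h2, hA⟩ V z ⟨hz, hmax⟩ u hu
  have hcl := isLaw_cond F.isLaw hA
  obtain ⟨V₁, z₁, hz₁, h3⟩ := h2 u hu
  have h4 := hmax _ _ hz₁
  have h5 := CH_le_add hcl.nonneg u z₁ (fun ω => (z ω, y J F ω))
  have h6 : CH (Pool.Agent.H49.Ent.cond F.p A True) z₁ (fun ω => (z ω, y J F ω)) ≤
      CH (Pool.Agent.H49.Ent.cond F.p A True) z₁ z :=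
    CH_mono_cond hcl.nonneg fun _ _ _ _ hh => (Prod.ext_iff.mp hh).1
  have h7 : CH (Pool.Agent.H49.Ent.cond F.p A True) u (fun ω => (z₁ ω, (z ω, y J F ω))) ≤
      CH (Pool.Agent.H49.Ent.cond F.p A True) u (fun ω => (z₁ ω, y J F ω)) := by
    refine CH_mono_cond hcl.nonneg fun ω ω' _ _ hh => ?_
    simp only [Prod.mk.injEq] at hh ⊢
    exact ⟨hh.1, hh.2.2⟩
  linarith

/-- Records exist. -/
theorem mx_ex {S : PCl m}
    (hpos : ∀ (τ : ℝ) (J : ℕ) (F : Fam m J) (A : F.Ω → Prop), S.St τ J F A → 0 < Pe F.p A)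
    {η : ℝ} (hη : RNum S f g η) (k : ℝ) (hk : 0 < k) :
    Bas S (fun J F A => ∃ (V : Type) (z : F.Ω → V), Mx f g k F A z) := by
  obtain ⟨κ, hκ, h1⟩ := hη.max hpos k hk
  refine Bas.mono 0 (h1.and (hη.at' (k / 2) (half_pos hk))) ?_
  rintro J - F A ⟨h2, V, z, hz, hv⟩
  refine ⟨V, z, hz, fun V' z' hz' => ?_⟩
  exact ((h2 V z hz hv A (fun _ h => h) (Lg.refl F hκ.le A).2).2.2 V' z' hz').2

/-- A record of finer variables which contains a record of coarser variables. -/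
theorem Mx.join {J : ℕ} {F : Fam m J} {A : F.Ω → Prop} (hA : 0 < Pe F.p A)
    (hf : ∃ φ : α' J F → α J F, ∀ ω, f J F ω = φ (f' J F ω))
    (hg : ∃ φ : β' J F → β J F, ∀ ω, g J F ω = φ (g' J F ω)) {k k' : ℝ} {V V' : Type}
    {z : F.Ω → V} {z' : F.Ω → V'} (h : Mx f g k F A z) (h' : Mx f' g' k' F A z') :
    Mx f' g' k' F A (fun ω => (z ω, z' ω)) := by
  obtain ⟨φ, hφ⟩ := hf
  obtain ⟨ψ, hψ⟩ := hg
  refine ⟨(h.1.mono ⟨φ, fun ω _ => hφ ω⟩ ⟨ψ, fun ω _ => hψ ω⟩).join h'.1, fun V₁ z₁ hz₁ => ?_⟩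
  refine le_trans ?_ (h'.2 V₁ z₁ hz₁)
  exact CH_mono_cond (isLaw_cond F.isLaw hA).nonneg fun _ _ _ _ hh => (Prod.ext_iff.mp hh).2

/-- **No look-ahead**, on records. -/
theorem NN.nla {S : PCl m}
    (hpos : ∀ (τ : ℝ) (J : ℕ) (F : Fam m J) (A : F.Ω → Prop), S.St τ J F A → 0 < Pe F.p A)
    {Q : Qt m U} {Q₁ : Qt m U₁} {Q₂ : Qt m U₂} {θ θ₁ θ₂ : ℝ}
    (N : NN S f g y Q θ) (N₁ : NN S f g y Q₁ θ₁) (N₂ : NN S f' g' y Q₂ θ₂) (x₂ : Exs S Q₂)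
    (r : Few S f g y Q Q₁) (i : Few S f' g' y Q Q₂) (h : ℝ) (hh : 0 < h) :
    ∃ k : ℝ, 0 < k ∧ ∃ e₀ : ℝ, 0 < e₀ ∧ ∀ K : ℕ, Bas S (fun J F A =>
      ∀ (V : Type) (z : F.Ω → V) (V' : Type) (z' : F.Ω → V'), Mx f g k F A z →
      Mx f' g' k F A z' → ∀ u u₁, Q.P K e₀ J F A u → Q₁.P K e₀ J F A u₁ →
      CH (Pool.Agent.H49.Ent.cond F.p A True) u (fun ω => (u₁ ω, (z ω, y J F ω))) ≤
        CH (Pool.Agent.H49.Ent.cond F.p A True) u (fun ω => (z' ω, y J F ω)) +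
          (θ - θ₁ - θ₂ + h) * J) := by
  obtain ⟨k1, hk1, e1, he1, H1⟩ := N (h / 8) (by positivity)
  obtain ⟨k2, hk2, e2, he2, H2⟩ := N₁ (h / 8) (by positivity)
  obtain ⟨k3, hk3, e3, he3, H3⟩ := N₂ (h / 8) (by positivity)
  obtain ⟨e4, he4, H4⟩ := r.mx hpos (h / 8) (by positivity)
  obtain ⟨e5, he5, H5⟩ := i.mx hpos (h / 8) (by positivity)
  obtain ⟨e₀, he₀, l1, l2, l3, l4, l5⟩ : ∃ e₀ : ℝ, 0 < e₀ ∧ e₀ ≤ e1 ∧ e₀ ≤ e2 ∧ e₀ ≤ e3 ∧
      e₀ ≤ e4 ∧ e₀ ≤ e5 :=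
    ⟨min e1 (min e2 (min e3 (min e4 e5))), by positivity, min_le_left _ _,
      (min_le_right _ _).trans (min_le_left _ _),
      (min_le_right _ _).trans ((min_le_right _ _).trans (min_le_left _ _)),
      (min_le_right _ _).trans ((min_le_right _ _).trans ((min_le_right _ _).trans
        (min_le_left _ _))),
      (min_le_right _ _).trans ((min_le_right _ _).trans ((min_le_right _ _).trans
        (min_le_right _ _)))⟩
  obtain ⟨k, hk, m1, m2, m3, m4⟩ : ∃ k : ℝ, 0 < k ∧ k ≤ k1 ∧ k ≤ k2 ∧ k ≤ k3 ∧ k ≤ h / 8 / 2 :=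
    ⟨min k1 (min k2 (min k3 (h / 8 / 2))), by positivity, min_le_left _ _,
      (min_le_right _ _).trans (min_le_left _ _),
      (min_le_right _ _).trans ((min_le_right _ _).trans (min_le_left _ _)),
      (min_le_right _ _).trans ((min_le_right _ _).trans (min_le_right _ _))⟩
  obtain ⟨K₂, M₂, hx⟩ := x₂ e₀ he₀
  refine ⟨k, hk, e₀, he₀, fun K => ?_⟩
  refine Bas.mono 0 ((((((H1 (max K K₂)).and (H2 (max K K₂))).and (H3 (max K K₂))).and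
    (H4 (max K K₂))).and (H5 (max K K₂))).and (hx.and (pos_bas hpos))) ?_
  rintro J - F A ⟨⟨⟨⟨⟨H1, H2⟩, H3⟩, H4⟩, H5⟩, ⟨u₂, hu₂, -⟩, hA⟩ V z V' z' hz hz' u u₁ hu hu₁
  have hcl := isLaw_cond F.isLaw hA
  have hJ0 : (0 : ℝ) ≤ J := Nat.cast_nonneg J
  have mxm : ∀ {a b : ℝ} {V : Type} {z : F.Ω → V}, a ≤ b → Mx f g a F A z → Mx f g b F A z :=
    fun hab hz => ⟨hz.1, fun V' z' hz' => (hz.2 V' z' hz').trans
      (mul_le_mul_of_nonneg_right hab hJ0)⟩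
  have mxm' : ∀ {a b : ℝ} {V : Type} {z : F.Ω → V}, a ≤ b → Mx f' g' a F A z →
      Mx f' g' b F A z := fun hab hz => ⟨hz.1, fun V' z' hz' => (hz.2 V' z' hz').trans
      (mul_le_mul_of_nonneg_right hab hJ0)⟩
  have q0 := Q.mono (le_max_left K K₂) l1 hu
  have q1 := Q₁.mono (le_max_left K K₂) l2 hu₁
  have q2 := Q₂.mono (le_max_right K K₂) l3 hu₂
  have a1 := (abs_le.1 (H1 V z (mxm m1 hz) u q0)).2
  have a2 := (abs_le.1 (H2 V z (mxm m2 hz) u₁ q1)).1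
  have a3 := (abs_le.1 (H3 V' z' (mxm' m3 hz') u₂ q2)).1
  have a4 := H4 V z (mxm m4 hz) u u₁ (Q.mono (le_max_left K K₂) l4 hu)
    (Q₁.mono (le_max_left K K₂) l4 hu₁)
  have a5 := H5 V' z' (mxm' m4 hz') u u₂ (Q.mono (le_max_left K K₂) l5 hu)
    (Q₂.mono (le_max_right K K₂) l5 hu₂)
  -- the chain rules
  have s1 := CH_chain hcl.nonneg u u₁ (fun ω => (z ω, y J F ω))
  have s2 := CH_chain hcl.nonneg u₁ u (fun ω => (z ω, y J F ω))
  have s3 : CH (Pool.Agent.H49.Ent.cond F.p A True) (fun ω => (u ω, u₁ ω))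
      (fun ω => (z ω, y J F ω)) = CH (Pool.Agent.H49.Ent.cond F.p A True)
      (fun ω => (u₁ ω, u ω)) (fun ω => (z ω, y J F ω)) := by
    refine CH_congr hcl.nonneg ?_ ?_ (fun _ _ _ _ h => h) (fun _ _ _ _ h => h) <;>
    · intro ω ω' _ _ hh
      simp only [Prod.mk.injEq] at hh ⊢
      tauto
  have s4 := CH_le_add hcl.nonneg u₂ u (fun ω => (z' ω, y J F ω))
  nlinarith

/-- The numbers are nonnegative. -/
theorem NN.nonneg {S : PCl m} (hS : S.Ne)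
    (hpos : ∀ (τ : ℝ) (J : ℕ) (F : Fam m J) (A : F.Ω → Prop), S.St τ J F A → 0 < Pe F.p A)
    {η : ℝ} (hη : RNum S f g η) {Q : Qt m U} {θ : ℝ} (N : NN S f g y Q θ) (x : Exs S Q) :
    0 ≤ θ := by
  refine le_of_bas hS fun ε hε => ?_
  obtain ⟨k, hk, e, he, H⟩ := N ε hε
  obtain ⟨K, M, hx⟩ := x e he
  refine Bas.mono 0 (((H K).and hx).and ((mx_ex hpos hη k hk).and (pos_bas hpos))) ?_
  rintro J - F A ⟨⟨H, u, hu, -⟩, ⟨V, z, hz⟩, hA⟩
  have h1 := (abs_le.1 (H V z hz u hu)).2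
  have h2 := CH_nonneg (isLaw_cond F.isLaw hA).nonneg u (fun ω => (z ω, y J F ω))
  linarith

/-- The numbers are at most the numbers of values. -/
theorem NN.le_cnt {S : PCl m} (hS : S.Ne)
    (hpos : ∀ (τ : ℝ) (J : ℕ) (F : Fam m J) (A : F.Ω → Prop), S.St τ J F A → 0 < Pe F.p A)
    {η : ℝ} (hη : RNum S f g η) {Q : Qt m U} {θ M : ℝ} (N : NN S f g y Q θ)
    (x : ∀ e : ℝ, 0 < e → ∃ K : ℕ, Bas S (fun J F A => ∃ u, Q.P K e J F A u ∧
      (cnt F.p u A : ℝ) ≤ Real.exp (M * J))) : θ ≤ M := by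
  refine le_of_bas hS fun ε hε => ?_
  obtain ⟨k, hk, e, he, H⟩ := N ε hε
  obtain ⟨K, hx⟩ := x e he
  refine Bas.mono 0 (((H K).and hx).and ((mx_ex hpos hη k hk).and (pos_bas hpos))) ?_
  rintro J - F A ⟨⟨H, u, hu, hc⟩, ⟨V, z, hz⟩, hA⟩
  have hcl := isLaw_cond F.isLaw hA
  have h1 := (abs_le.1 (H V z hz u hu)).1
  have h2 := (CH_le_H' hcl u (fun ω => (z ω, y J F ω))).trans (H_le_cnt F.isLaw u hA)
  have h3 : (1 : ℝ) ≤ cnt F.p u A := by exact_mod_cast one_le_cnt F.isLaw u hA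
  have h4 := Real.log_le_log (by linarith) hc
  rw [Real.log_exp] at h4
  linarith

/-- **The numbers are superadditive.** -/
theorem NN.super {S : PCl m} (hS : S.Ne)
    (hpos : ∀ (τ : ℝ) (J : ℕ) (F : Fam m J) (A : F.Ω → Prop), S.St τ J F A → 0 < Pe F.p A)
    (hf : ∀ (J : ℕ) (F : Fam m J), ∃ φ : α' J F → α J F, ∀ ω, f J F ω = φ (f' J F ω))
    (hg : ∀ (J : ℕ) (F : Fam m J), ∃ φ : β' J F → β J F, ∀ ω, g J F ω = φ (g' J F ω))
    {η η' : ℝ} (hη : RNum S f g η) (hη' : RNum S f' g' η')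
    {Q : Qt m U} {Q₁ : Qt m U₁} {Q₂ : Qt m U₂} {θ θ₁ θ₂ : ℝ}
    (N : NN S f g y Q θ) (N₁ : NN S f g y Q₁ θ₁) (N₂ : NN S f' g' y Q₂ θ₂) (x : Exs S Q)
    (x₁ : Exs S Q₁) (x₂ : Exs S Q₂)
    (r : Few S f g y Q Q₁) (d : Few0 S f' g' y Q₁) (i : Few S f' g' y Q Q₂) :
    θ₁ + θ₂ ≤ θ := by
  refine le_of_bas hS fun h hh => ?_
  obtain ⟨k1, hk1, e1, he1, H1⟩ := N (h / 8) (by positivity)
  obtain ⟨k2, hk2, e2, he2, H2⟩ := N₁ (h / 8) (by positivity)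
  obtain ⟨k3, hk3, e3, he3, H3⟩ := N₂ (h / 8) (by positivity)
  obtain ⟨e4, he4, H4⟩ := r.mx hpos (h / 8) (by positivity)
  obtain ⟨e5, he5, H5⟩ := i.mx hpos (h / 8) (by positivity)
  obtain ⟨e6, he6, H6⟩ := d.mx hpos (h / 8) (by positivity)
  obtain ⟨e₀, he₀, l1, l2, l3, l4, l5, l6⟩ : ∃ e₀ : ℝ, 0 < e₀ ∧ e₀ ≤ e1 ∧ e₀ ≤ e2 ∧ e₀ ≤ e3 ∧
      e₀ ≤ e4 ∧ e₀ ≤ e5 ∧ e₀ ≤ e6 :=
    ⟨min e1 (min e2 (min e3 (min e4 (min e5 e6)))), by positivity, min_le_left _ _,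
      (min_le_right _ _).trans (min_le_left _ _),
      (min_le_right _ _).trans ((min_le_right _ _).trans (min_le_left _ _)),
      (min_le_right _ _).trans ((min_le_right _ _).trans ((min_le_right _ _).trans
        (min_le_left _ _))),
      (min_le_right _ _).trans ((min_le_right _ _).trans ((min_le_right _ _).trans
        ((min_le_right _ _).trans (min_le_left _ _)))),
      (min_le_right _ _).trans ((min_le_right _ _).trans ((min_le_right _ _).trans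
        ((min_le_right _ _).trans (min_le_right _ _))))⟩
  obtain ⟨k, hk, m1, m2, m3, m4⟩ : ∃ k : ℝ, 0 < k ∧ k ≤ k1 ∧ k ≤ k2 ∧ k ≤ k3 ∧ k ≤ h / 8 / 2 :=
    ⟨min k1 (min k2 (min k3 (h / 8 / 2))), by positivity, min_le_left _ _,
      (min_le_right _ _).trans (min_le_left _ _),
      (min_le_right _ _).trans ((min_le_right _ _).trans (min_le_left _ _)),
      (min_le_right _ _).trans ((min_le_right _ _).trans (min_le_right _ _))⟩
  obtain ⟨K₀, M₀, hx0⟩ := x e₀ he₀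
  obtain ⟨K₁, M₁, hx1⟩ := x₁ e₀ he₀
  obtain ⟨K₂, M₂, hx2⟩ := x₂ e₀ he₀
  obtain ⟨K, hK⟩ : ∃ K, K = max K₀ (max K₁ K₂) := ⟨_, rfl⟩
  have n0 : K₀ ≤ K := by rw [hK]; exact le_max_left _ _
  have n1 : K₁ ≤ K := by rw [hK]; exact (le_max_left _ _).trans (le_max_right _ _)
  have n2 : K₂ ≤ K := by rw [hK]; exact (le_max_right _ _).trans (le_max_right _ _)
  refine Bas.mono 0 ((((((H1 K).and (H2 K)).and (H3 K)).and (H4 K)).and ((H5 K).and (H6 K))).and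
    (((hx0.and hx1).and hx2).and (((mx_ex hpos hη k hk).and (mx_ex hpos hη' k hk)).and
      (pos_bas hpos)))) ?_
  rintro J - F A ⟨⟨⟨⟨⟨H1, H2⟩, H3⟩, H4⟩, H5, H6⟩, ⟨⟨⟨u, hu, -⟩, u₁, hu₁, -⟩, u₂, hu₂, -⟩,
    ⟨⟨V, z, hz⟩, V', z₀', hz₀'⟩, hA⟩
  have hcl := isLaw_cond F.isLaw hA
  have hJ0 : (0 : ℝ) ≤ J := Nat.cast_nonneg J
  have hz' := hz.join hA (hf J F) (hg J F) hz₀'
  obtain ⟨z', hze⟩ : ∃ z' : F.Ω → V × V', z' = fun ω => (z ω, z₀' ω) := ⟨_, rfl⟩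
  rw [← hze] at hz'
  have mxm : ∀ {a b : ℝ} {V : Type} {z : F.Ω → V}, a ≤ b → Mx f g a F A z → Mx f g b F A z :=
    fun hab hz => ⟨hz.1, fun V' z' hz' => (hz.2 V' z' hz').trans
      (mul_le_mul_of_nonneg_right hab hJ0)⟩
  have mxm' : ∀ {a b : ℝ} {V : Type} {z : F.Ω → V}, a ≤ b → Mx f' g' a F A z →
      Mx f' g' b F A z := fun hab hz => ⟨hz.1, fun V' z' hz' => (hz.2 V' z' hz').trans
      (mul_le_mul_of_nonneg_right hab hJ0)⟩
  have a1 := (abs_le.1 (H1 V z (mxm m1 hz) u (Q.mono n0 l1 hu))).2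
  have a2 := (abs_le.1 (H2 V z (mxm m2 hz) u₁ (Q₁.mono n1 l2 hu₁))).1
  have a3 := (abs_le.1 (H3 _ z' (mxm' m3 hz') u₂ (Q₂.mono n2 l3 hu₂))).1
  have a4 := H4 V z (mxm m4 hz) u u₁ (Q.mono n0 l4 hu) (Q₁.mono n1 l4 hu₁)
  have a5 := H5 _ z' (mxm' m4 hz') u u₂ (Q.mono n0 l5 hu) (Q₂.mono n2 l5 hu₂)
  have a6 := H6 _ z' (mxm' m4 hz') u₁ (Q₁.mono n1 l6 hu₁)
  have s1 := CH_chain hcl.nonneg u u₁ (fun ω => (z ω, y J F ω))
  have s2 := CH_chain hcl.nonneg u₁ u (fun ω => (z ω, y J F ω))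
  have s3 : CH (Pool.Agent.H49.Ent.cond F.p A True) (fun ω => (u ω, u₁ ω))
      (fun ω => (z ω, y J F ω)) = CH (Pool.Agent.H49.Ent.cond F.p A True)
      (fun ω => (u₁ ω, u ω)) (fun ω => (z ω, y J F ω)) := by
    refine CH_congr hcl.nonneg ?_ ?_ (fun _ _ _ _ h => h) (fun _ _ _ _ h => h) <;>
    · intro ω ω' _ _ hh
      simp only [Prod.mk.injEq] at hh ⊢
      tauto
  have s4 := CH_le_add hcl.nonneg u₂ u (fun ω => (z' ω, y J F ω))
  have s5 := CH_le_add hcl.nonneg u u₁ (fun ω => (z' ω, y J F ω))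
  have s6 : CH (Pool.Agent.H49.Ent.cond F.p A True) u (fun ω => (u₁ ω, (z' ω, y J F ω))) ≤
      CH (Pool.Agent.H49.Ent.cond F.p A True) u (fun ω => (u₁ ω, (z ω, y J F ω))) := by
    refine CH_mono_cond hcl.nonneg fun ω ω' _ _ hh => ?_
    rw [hze] at hh
    simp only [Prod.mk.injEq] at hh ⊢
    exact ⟨hh.1, hh.2.1.1, hh.2.2⟩
  nlinarith

/-! ### Almost every point -/

open Set MeasureTheory in
/-- **Superadditive numbers at rational indices** are additive in the boxes of almost every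
point. -/
theorem la_ae {θ : ℚ → ℚ → ℝ} {A B lam M : ℝ} (hlam : 0 < lam)
    (h0 : ∀ w o : ℚ, A ≤ w → w ≤ o → (o : ℝ) ≤ B → (o : ℝ) ≤ w + lam → 0 ≤ θ w o)
    (hM : ∀ w o : ℚ, A ≤ w → w ≤ o → (o : ℝ) ≤ B → (o : ℝ) ≤ w + lam → θ w o ≤ M)
    (h2 : ∀ w v o : ℚ, A ≤ w → w ≤ v → v ≤ o → (o : ℝ) ≤ B → (o : ℝ) ≤ w + lam →
      θ w v + θ v o ≤ θ w o) :
    ∀ᵐ g : ℝ, g ∈ Ioo A B → ∀ e : ℝ, 0 < e → ∃ r₀ : ℝ, 0 < r₀ ∧ ∀ r : ℝ, 0 < r → r < r₀ →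
      ∀ w v o : ℚ, g - r ≤ w → w ≤ v → v ≤ o → (o : ℝ) ≤ g + r →
        θ w o - θ w v - θ v o ≤ e * r := by
  obtain ⟨T, hT⟩ : ∃ T : ℝ → ℝ → Set ℝ, T = fun w o => {x | x = 0 ∨ ∃ w' o' : ℚ, w ≤ (w' : ℝ) ∧
    w' ≤ o' ∧ (o' : ℝ) ≤ o ∧ x = θ w' o'} := ⟨_, rfl⟩
  have hz : ∀ w o, (0 : ℝ) ∈ T w o := by
    intro w o
    rw [hT]
    exact Or.inl rfl
  have hbd : ∀ w o : ℝ, A ≤ w → w ≤ o → o ≤ B → o ≤ w + lam → BddAbove (T w o) := by
    intro w o hw hwo ho hl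
    refine ⟨max 0 M, ?_⟩
    rintro x hx
    rw [hT] at hx
    rcases hx with rfl | ⟨w', o', a1, a2, a3, rfl⟩
    · exact le_max_left _ _
    · exact (hM w' o' (hw.trans a1) a2 (a3.trans ho) (by linarith)).trans (le_max_right _ _)
  obtain ⟨G, hG⟩ : ∃ G : ℝ → ℝ → ℝ, G = fun w o => sSup (T w o) := ⟨_, rfl⟩
  have hmon : ∀ w o w' o' : ℚ, A ≤ w → w ≤ w' → w' ≤ o' → o' ≤ o → (o : ℝ) ≤ B →
      (o : ℝ) ≤ w + lam → θ w' o' ≤ θ w o := by
    intro w o w' o' hw a1 a2 a3 ho hl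
    have b1 : (w : ℝ) ≤ w' := by exact_mod_cast a1
    have b2 : (w' : ℝ) ≤ o' := by exact_mod_cast a2
    have b3 : (o' : ℝ) ≤ o := by exact_mod_cast a3
    have c1 := h2 w w' o hw a1 (a2.trans a3) ho hl
    have c2 := h2 w' o' o (hw.trans b1) a2 a3 ho (by linarith)
    have c3 := h0 w w' hw a1 (by linarith) (by linarith)
    have c4 := h0 o' o (by linarith) a3 ho (by linarith)
    linarith
  have hGe : ∀ w o : ℚ, A ≤ w → w ≤ o → (o : ℝ) ≤ B → (o : ℝ) ≤ w + lam → G w o = θ w o := by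
    intro w o hw hwo ho hl
    have hwo' : (w : ℝ) ≤ o := by exact_mod_cast hwo
    rw [hG]
    refine le_antisymm (csSup_le ⟨0, hz _ _⟩ ?_) (le_csSup (hbd _ _ hw hwo' ho hl) ?_)
    · intro x hx
      rw [hT] at hx
      rcases hx with rfl | ⟨w', o', a1, a2, a3, rfl⟩
      · exact h0 w o hw hwo ho hl
      · exact hmon w o w' o' hw (by exact_mod_cast a1) a2 (by exact_mod_cast a3) ho hl
    · rw [hT]
      exact Or.inr ⟨w, o, le_rfl, hwo, le_rfl, rfl⟩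
  have hG0 : ∀ w o : ℝ, A ≤ w → w ≤ o → o ≤ B → o ≤ w + lam → 0 ≤ G w o := by
    intro w o a1 a2 a3 a4
    rw [hG]
    exact le_csSup (hbd w o a1 a2 a3 a4) (hz w o)
  have hGs : ∀ w v o : ℝ, A ≤ w → w ≤ v → v ≤ o → o ≤ B → o ≤ w + lam →
      G w v + G v o ≤ G w o := by
    intro w v o hw hwv hvo ho hl
    have hb := hbd w o hw (hwv.trans hvo) ho hl
    have key : ∀ x ∈ T w v, ∀ x' ∈ T v o, x + x' ≤ G w o := by
      intro x hx x' hx'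
      rw [hT] at hx hx'
      have gle : ∀ w' o' : ℚ, w ≤ w' → w' ≤ o' → (o' : ℝ) ≤ o → θ w' o' ≤ G w o := by
        intro w' o' a1 a2 a3
        rw [hG]
        refine le_csSup hb ?_
        rw [hT]
        exact Or.inr ⟨w', o', a1, a2, a3, rfl⟩
      rcases hx with rfl | ⟨w1, v1, a1, a2, a3, rfl⟩
      · rcases hx' with rfl | ⟨v2, o2, b1, b2, b3, rfl⟩
        · rw [add_zero]
          exact hG0 w o hw (hwv.trans hvo) ho hl
        · rw [zero_add]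
          exact gle v2 o2 (hwv.trans b1) b2 b3
      · rcases hx' with rfl | ⟨v2, o2, b1, b2, b3, rfl⟩
        · rw [add_zero]
          exact gle w1 v1 a1 a2 (a3.trans hvo)
        · have c0 : v1 ≤ v2 := by
            have : (v1 : ℝ) ≤ v2 := a3.trans b1
            exact_mod_cast this
          have a2' : (w1 : ℝ) ≤ v1 := by exact_mod_cast a2
          have b2' : (v2 : ℝ) ≤ o2 := by exact_mod_cast b2
          have c1 := h2 w1 v1 o2 (hw.trans a1) a2 (c0.trans b2) (b3.trans ho) (by linarith)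
          have c2 := h2 v1 v2 o2 (by linarith) c0 b2 (b3.trans ho) (by linarith)
          have c3 := h0 v1 v2 (by linarith) c0 (by linarith) (by linarith)
          have c4 := gle w1 o2 a1 (a2.trans (c0.trans b2)) b3
          linarith
    rw [hG] at key ⊢
    have k1 : ∀ x' ∈ T v o, sSup (T w v) ≤ sSup (T w o) - x' := by
      intro x' hx'
      exact csSup_le ⟨0, hz _ _⟩ fun x hx => by linarith [key x hx x' hx']
    have k2 : sSup (T v o) ≤ sSup (T w o) - sSup (T w v) :=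
      csSup_le ⟨0, hz _ _⟩ fun x' hx' => by linarith [k1 x' hx']
    simp only
    linarith
  have := Pool.LOV23.sup_ae (F := G) (A := A) (B := B) hlam hG0 hGs
  filter_upwards [this] with g hg hgAB e he
  obtain ⟨r₀, hr₀, hr⟩ := hg hgAB e he
  refine ⟨min r₀ (min (lam / 2) (min (g - A) (B - g))), lt_min hr₀ (lt_min (by linarith)
    (lt_min (by linarith [hgAB.1]) (by linarith [hgAB.2]))), fun r hr1 hr2 w v o hw hwv hvo ho => ?_⟩
  have l1 : r < r₀ := hr2.trans_le (min_le_left _ _)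
  have l2 : r < lam / 2 := hr2.trans_le ((min_le_right _ _).trans (min_le_left _ _))
  have l3 : r < g - A := hr2.trans_le ((min_le_right _ _).trans ((min_le_right _ _).trans
    (min_le_left _ _)))
  have l4 : r < B - g := hr2.trans_le ((min_le_right _ _).trans ((min_le_right _ _).trans
    (min_le_right _ _)))
  have hwv' : (w : ℝ) ≤ v := by exact_mod_cast hwv
  have hvo' : (v : ℝ) ≤ o := by exact_mod_cast hvo
  have h5 := hr r hr1 l1 w v o hw hwv' hvo' ho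
  rw [hGe w o (by linarith) (hwv.trans hvo) (by linarith) (by linarith),
    hGe w v (by linarith) hwv (by linarith) (by linarith),
    hGe v o (by linarith) hvo (by linarith) (by linarith)] at h5
  exact h5

end Pool.LA91
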