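import Pool.Agent.H91.LA.Dif
import Pool.Agent.H91.LA.Fml
import Pool.Agent.H91.LA.Sup
import Pool.Agent.H92.GN.Vis
import Pool.Agent.H45.EXA.ExvB

/-!
# Natural jets in a class

`qJet I k j w p N`: the `j`-th jet of the own path of the coordinate `k` over a closed label at the
window `w`, of precision `p`, over the coordinates `I`, to `N` digits. `few_jet`: if `y` knows the
time, the exact point over `I` and `lam J` digits of the direction, then at a window `w` the jets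
over the labels of one window are functions of the jets over the labels of another window and of
the labels, if `N + j u < p + min lam (1 - u)`, where the coordinates in `I` are full behind `u J`
digits.
-/

set_option autoImplicit false

namespace Pool.LA91

open Finset Real MvPolynomial
open Pool.Agent.H49.Ent Pool.Agent.H32.Dense Pool.STK Pool.KA Pool.KSAT Pool.K2S Pool.PB Pool.GEN
open Pool.S6C Pool.RCD
open Pool.GRD (LbP Pb_mono_pos)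
open Pool.UNJ (ceI Tub)
open Pool.BFL (Pb)

variable {m : ℕ}

theorem p2_le {x : ℝ} (hx : 0 ≤ x) : (2 : ℝ) ^ ⌊x⌋₊ ≤ (2 : ℝ) ^ x := by
  rw [← Real.rpow_natCast]
  exact Real.rpow_le_rpow_of_exponent_le (by norm_num) (Nat.floor_le hx)

theorem ip2_le (x : ℝ) : 1 / (2 : ℝ) ^ ⌊x⌋₊ ≤ 2 * (2 : ℝ) ^ (-x) := by
  have h1 : x - 1 ≤ (⌊x⌋₊ : ℝ) := by
    have := Nat.lt_floor_add_one x
    linarith
  have h2 : (2 : ℝ) ^ (x - 1) ≤ (2 : ℝ) ^ ⌊x⌋₊ := by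
    rw [← Real.rpow_natCast]
    exact Real.rpow_le_rpow_of_exponent_le (by norm_num) h1
  have h3 : 0 < (2 : ℝ) ^ (x - 1) := Real.rpow_pos_of_pos (by norm_num) _
  refine (one_div_le_one_div_of_le h3 h2).trans (le_of_eq ?_)
  rw [one_div, ← Real.rpow_neg (by norm_num), neg_sub, sub_eq_add_neg,
    Real.rpow_add (by norm_num), Real.rpow_one]

theorem exp_p2 (x : ℝ) : Real.exp (x * Real.log 2) = (2 : ℝ) ^ x := by
  rw [Real.rpow_def_of_pos (by norm_num), mul_comm]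

theorem of_cond_pos {Ω : Type} [Fintype Ω] {p : Ω → ℝ} {A : Ω → Prop} {ω : Ω}
    (h : 0 < Pool.Agent.H49.Ent.cond p A True ω) : A ω := by
  by_contra hne
  unfold Pool.Agent.H49.Ent.cond at h
  rw [if_neg (by simpa using hne)] at h
  exact lt_irrefl _ h

theorem cond_pos_p {Ω : Type} [Fintype Ω] {p : Ω → ℝ} (hp : IsLaw p) {A : Ω → Prop} {ω : Ω}
    (h : 0 < Pool.Agent.H49.Ent.cond p A True ω) : 0 < p ω := by
  rcases lt_or_eq_of_le (hp.nonneg ω) with h' | h'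
  · exact h'
  · exfalso
    unfold Pool.Agent.H49.Ent.cond at h
    rw [← h', zero_div, ite_self] at h
    exact lt_irrefl _ h

theorem cnt_cond_le {Ω β : Type} [Fintype Ω] {p : Ω → ℝ} (hp : IsLaw p) (Y : Ω → β)
    (A : Ω → Prop) : cnt (Pool.Agent.H49.Ent.cond p A True) Y (fun _ => True) ≤ cnt p Y A := by
  rw [← cset_card, ← cset_card]
  refine Finset.card_le_card fun x hx => ?_
  obtain ⟨ω, h1, -, rfl⟩ := of_mem_cset hx
  exact mem_cset Y (cond_pos_p hp h1) (of_cond_pos h1)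

/-! ### Families -/

/-- **Change of the charts**, for a family. -/
theorem few_fam (m K j : ℕ) : ∃ C : ℝ, 1 ≤ C ∧ ∀ (J : ℕ) (F : Fam m J) (A : F.Ω → Prop)
    (I : Finset (Fin m)) (k : Fin m) (w u a l P₁ P₂ : ℕ) (s₁ s₂ : ℝ) (V₁ V₂ : Type)
    (z₁ : PtT F → V₁) (z₁' : LnT F → V₁) (G₁ : V₁ → MvPolynomial (Option (Fin m)) ℝ)
    (z₂ : PtT F → V₂) (z₂' : LnT F → V₂) (G₂ : V₂ → MvPolynomial (Option (Fin m)) ℝ)
    (u₁ u₂ : F.Ω → ℤ) (Y : Type) (y : F.Ω → Y) (θ e η M : ℝ), 0 < Pe F.p A →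
    (J : ℝ) * Real.log 2 - e ≤
      CH (Pool.Agent.H49.Ent.cond F.p A True) F.T (fun ω => (F.l ω, F.Z ω)) →
    LbP F I k K J w P₁ A z₁ z₁' G₁ → LbP F I k K J w P₂ A z₂ z₂' G₂ →
    w ≤ u → u + 1 ≤ a → u ≤ J → 0 ≤ θ → 0 ≤ e → 0 < η → η ≤ 1 → 0 ≤ M →
    I.card * (((J - u : ℕ) : ℝ) * Real.log 2) - θ ≤ CH (Pool.Agent.H49.Ent.cond F.p A True)
      (fun ω => ceI I (fun _ => J) (F.x ω))
      (fun ω => (ceI I (fun _ => u) (F.x ω), (z₁' (slam F w ω), z₂' (slam F w ω)), F.W ω)) →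
    C * (θ + e + 1) / η ≤ ((J - u : ℕ) : ℝ) * Real.log 2 → 0 < s₂ → s₂ ≤ s₁ →
    s₂ * (C * (Real.exp (C * (θ + e + 1) / η) * (1 / 2 ^ P₁ + 1 / 2 ^ P₂)) *
      (2 ^ u / 2 ^ a + 1 / 2 ^ l) * (2 ^ u) ^ j) ≤ 1 →
    (∃ φ : Y → ℕ × (Fin m → ℤ) × (Fin m → ℤ), ∀ ω, φ (y ω) = (F.T ω,
      (fun i => if i ∈ I then F.X a ω i else 0), (fun i => if i ∈ I then F.D l ω i else 0))) →
    (∀ ω, A ω → u₁ ω = ⌊s₁ * ojet F k j (G₁ (z₁' (slam F w ω))) ω⌋) →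
    (∀ ω, A ω → u₂ ω = ⌊s₂ * ojet F k j (G₂ (z₂' (slam F w ω))) ω⌋) →
    (cnt F.p u₂ A : ℝ) ≤ Real.exp M →
    CH (Pool.Agent.H49.Ent.cond F.p A True) u₂
      (fun ω => (u₁ ω, ((z₁' (slam F w ω), z₂' (slam F w ω)), y ω))) ≤
      Real.log 2 + Real.log 7 + η * M := by
  classical
  obtain ⟨C₁, hC₁, hdif⟩ := dif_ball m K
  obtain ⟨C₂, hC₂, hchg⟩ := chg_fam m K j
  refine ⟨max C₁ C₂, hC₁.trans (le_max_left _ _), ?_⟩
  intro J F A I k w u a l P₁ P₂ s₁ s₂ V₁ V₂ z₁ z₁' G₁ z₂ z₂' G₂ u₁ u₂ Y y θ e η M hA htm h₁ h₂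
    hwu hua huJ hθ he hη hη1 hM hful hX p2 hn hsm hy hu₁ hu₂ hc
  have hq := isLaw_cond F.isLaw hA
  have hqA : ∀ ω, 0 < Pool.Agent.H49.Ent.cond F.p A True ω → A ω := fun ω hω => of_cond_pos hω
  obtain ⟨φ, hφ⟩ := hy
  obtain ⟨Cm, hCm⟩ : ∃ Cm : ℝ, Cm = max C₁ C₂ := ⟨_, rfl⟩
  rw [← hCm] at hX hsm
  have m1 : C₁ ≤ Cm := by rw [hCm]; exact le_max_left _ _
  have m2 : C₂ ≤ Cm := by rw [hCm]; exact le_max_right _ _
  have mE : C₁ * (θ + e + 1) / η ≤ Cm * (θ + e + 1) / η :=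
    div_le_div_of_nonneg_right (mul_le_mul_of_nonneg_right m1 (by linarith)) hη.le
  have huX : u + (J - u) = J := by omega
  have key := hdif J F (Pool.Agent.H49.Ent.cond F.p A True) I k w u (J - u) A J P₁ J P₂ V₁ V₂
    z₁ z₁' G₁ z₂ z₂' G₂ θ e η hq hqA htm (by omega) h₁ h₂ hwu hθ he hη hη1 (by
      rw [huX]
      exact hful) (mE.trans hX)
  obtain ⟨B, hB⟩ : ∃ B : ℝ, B = Real.exp (Cm * (θ + e + 1) / η) * (1 / 2 ^ P₁ + 1 / 2 ^ P₂) :=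
    ⟨_, rfl⟩
  have hB0 : 0 ≤ B := by
    rw [hB]
    positivity
  rw [← hB] at hsm
  have hbb : Real.exp (C₁ * (θ + e + 1) / η) * (1 / 2 ^ P₁ + 1 / 2 ^ P₂) ≤ B := by
    rw [hB]
    exact mul_le_mul_of_nonneg_right (Real.exp_le_exp.2 mE) (by positivity)
  -- the function of the conditions
  obtain ⟨κ, hκ⟩ : ∃ κ : ℤ × ((V₁ × V₂) × Y) → ℝ, κ = fun x =>
      (x.1 : ℝ) * (s₂ / s₁) + s₂ * jet j (G₁ x.2.1.1 - G₂ x.2.1.2)
        (bx I J a (φ x.2.2).1 (φ x.2.2).2.1) (vx I l (φ x.2.2).2.2) := ⟨_, rfl⟩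
  have hlog : Real.log (2 * 3 + 1) = Real.log 7 := by norm_num
  rw [← hlog]
  refine CH_near hq u₂ (fun ω => (u₁ ω, ((z₁' (slam F w ω), z₂' (slam F w ω)), y ω))) κ
    (fun ω => ¬ ∀ b : Option (Fin m) → ℝ, (∀ o, |b o - bt F ω o| ≤ 2 / 2 ^ u) →
      |eval b (G₁ (z₁' (slam F w ω)) - G₂ (z₂' (slam F w ω)))| ≤
        Real.exp (C₁ * (θ + e + 1) / η) * (1 / 2 ^ P₁ + 1 / 2 ^ P₂)) key hM (by norm_num) ?_ ?_
  · refine le_trans ?_ hc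
    exact_mod_cast cnt_cond_le F.isLaw u₂ A
  · intro ω hω hgood
    rw [not_not] at hgood
    have hAω := hqA ω hω
    have h3 := hchg J F I (G₁ (z₁' (slam F w ω)) - G₂ (z₂' (slam F w ω))) u a l B ω
      ((MvPolynomial.totalDegree_sub _ _).trans (max_le (h₁.deg _) (h₂.deg _)))
      (fun b b' hb hb' => by
        rw [map_sub, map_sub, h₁.dep _ b b' hb hb', h₂.dep _ b b' hb hb']) hua
      (fun b hb => (hgood b hb).trans hbb)
    have h4 := ojet_sub F k j (G₁ (z₁' (slam F w ω))) (G₂ (z₂' (slam F w ω))) ω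
    have h5 : κ (u₁ ω, ((z₁' (slam F w ω), z₂' (slam F w ω)), y ω)) = (u₁ ω : ℝ) * (s₂ / s₁) +
        s₂ * jet j (G₁ (z₁' (slam F w ω)) - G₂ (z₂' (slam F w ω)))
        (bx I J a (F.T ω) (fun i => if i ∈ I then F.X a ω i else 0))
        (vx I l (fun i => if i ∈ I then F.D l ω i else 0)) := by
      rw [hκ]
      simp only [hφ ω]
    rw [h5]
    obtain ⟨o₁, ho₁⟩ : ∃ o₁ : ℝ, o₁ = ojet F k j (G₁ (z₁' (slam F w ω))) ω := ⟨_, rfl⟩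
    obtain ⟨o₂, ho₂⟩ : ∃ o₂ : ℝ, o₂ = ojet F k j (G₂ (z₂' (slam F w ω))) ω := ⟨_, rfl⟩
    obtain ⟨Je, hJe⟩ : ∃ Je : ℝ, Je = jet j (G₁ (z₁' (slam F w ω)) - G₂ (z₂' (slam F w ω)))
      (bt F ω) (bd F ω) := ⟨_, rfl⟩
    obtain ⟨Jf, hJf⟩ : ∃ Jf : ℝ, Jf = jet j (G₁ (z₁' (slam F w ω)) - G₂ (z₂' (slam F w ω)))
        (bx I J a (F.T ω) (fun i => if i ∈ I then F.X a ω i else 0))
        (vx I l (fun i => if i ∈ I then F.D l ω i else 0)) := ⟨_, rfl⟩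
    rw [← ho₁, ← ho₂, ← hJe] at h4
    rw [← hJe, ← hJf] at h3
    rw [← hJf, hu₁ ω hAω, hu₂ ω hAω, ← ho₁, ← ho₂]
    have p1 : 0 < s₁ := lt_of_lt_of_le p2 hn
    -- the first floor
    have a1 := Int.floor_le (s₁ * o₁)
    have a2 := Int.lt_floor_add_one (s₁ * o₁)
    have a3 := Int.floor_le (s₂ * o₂)
    have a4 := Int.lt_floor_add_one (s₂ * o₂)
    have b1 : |(⌊s₁ * o₁⌋ : ℝ) * (s₂ / s₁) - s₂ * o₁| ≤ 1 := by
      have e1 : (⌊s₁ * o₁⌋ : ℝ) * (s₂ / s₁) - s₂ * o₁ =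
          ((⌊s₁ * o₁⌋ : ℝ) - s₁ * o₁) * (s₂ / s₁) := by
        field_simp
      have e2 : s₂ / s₁ ≤ 1 := (div_le_one p1).2 hn
      rw [e1, abs_mul, abs_of_pos (div_pos p2 p1)]
      have e3 : |(⌊s₁ * o₁⌋ : ℝ) - s₁ * o₁| ≤ 1 := by
        rw [abs_le]
        constructor <;> linarith
      exact mul_le_one₀ e3 (div_pos p2 p1).le e2
    have b2 : |s₂ * Je - s₂ * Jf| ≤ 1 := by
      rw [← mul_sub, abs_mul, abs_of_pos p2]
      refine le_trans (mul_le_mul_of_nonneg_left ?_ p2.le) hsm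
      refine h3.trans ?_
      have q1 : (0 : ℝ) ≤ 2 ^ u / 2 ^ a + 1 / 2 ^ l := by positivity
      have q2 : (0 : ℝ) ≤ (2 ^ u) ^ j := by positivity
      refine mul_le_mul_of_nonneg_right (mul_le_mul_of_nonneg_right ?_ q1) q2
      exact mul_le_mul_of_nonneg_right m2 hB0
    have b3 : s₂ * o₂ = s₂ * o₁ + s₂ * Je := by
      rw [h4]
      ring
    rw [abs_le] at b1 b2 ⊢
    constructor <;> linarith [b1.1, b1.2, b2.1, b2.2]

/-! ### Classes -/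

/-- **Fullness**: the coordinates in `I` are full behind `u J` digits, given the closed functions at
the window `w` and the side information. -/
def Ful (S : PCl m) (I : Finset (Fin m)) (w u : ℝ) : Prop :=
  ∀ ρ : ℝ, 0 < ρ → Bas S (fun J F A => ∀ (V : Type) (z : PtT F → V) (z' : LnT F → V),
      (∀ ω, A ω → z (ptr F J ω) = z' (slam F ⌊w * J⌋₊ ω)) →
      I.card * (((J - ⌊u * J⌋₊ : ℕ) : ℝ) * Real.log 2) - ρ * J ≤
        CH (Pool.Agent.H49.Ent.cond F.p A True) (fun ω => ceI I (fun _ => J) (F.x ω))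
          (fun ω => (ceI I (fun _ => ⌊u * J⌋₊) (F.x ω), z' (slam F ⌊w * J⌋₊ ω), F.W ω)))

theorem Ful.sub {S S' : PCl m} (hs : ∀ (τ : ℝ) (J : ℕ) (F : Fam m J) (A : F.Ω → Prop),
    S'.St τ J F A → S.St τ J F A) {I : Finset (Fin m)} {w u : ℝ} (h : Ful S I w u) :
    Ful S' I w u := fun ρ hρ => (h ρ hρ).sub hs

/-- `y` knows the time, `p₀ J` digits of the point over `I` and `lam J` digits of the direction. -/
def Kn (I : Finset (Fin m)) (p₀ lam : ℝ) {γ : ∀ J : ℕ, Fam m J → Type}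
    (y : ∀ (J : ℕ) (F : Fam m J), F.Ω → γ J F) : Prop :=
  ∀ (J : ℕ) (F : Fam m J), ∃ φ : γ J F → ℕ × (Fin m → ℤ) × (Fin m → ℤ), ∀ ω,
    φ (y J F ω) = (F.T ω, (fun i => if i ∈ I then F.X ⌊p₀ * J⌋₊ ω i else 0),
      (fun i => if i ∈ I then F.D ⌊lam * J⌋₊ ω i else 0))

/-- **The jets of the own path** of the coordinate `k`, of order `j`, over a closed label over `I`
of precision `p` at the window `w`, to `N` digits. -/
noncomputable def qJet (m : ℕ) (I : Finset (Fin m)) (k : Fin m) (j : ℕ) (w p N : ℝ) : Qt m ℤ where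
  P K e J F A u := (cnt F.p u A : ℝ) ≤ Real.exp (K * J) ∧
    ∃ (V : Type) (z : PtT F → V) (z' : LnT F → V) (G : V → MvPolynomial (Option (Fin m)) ℝ),
      LbP F I k K J ⌊w * J⌋₊ ⌊(p - e) * J⌋₊ A z z' G ∧
      ∀ ω, A ω → u ω = ⌊(2 : ℝ) ^ (N * J) * ojet F k j (G (z' (slam F ⌊w * J⌋₊ ω))) ω⌋
  sub := by
    rintro K e J F A B u hB ⟨hc, V, z, z', G, hl, hu⟩
    refine ⟨le_trans ?_ hc, V, z, z', G, hl.sub hB, fun ω hω => hu ω (hB ω hω)⟩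
    exact_mod_cast cnt_mono F.p u hB
  mono := by
    rintro K K' e e' J F A u hK he ⟨hc, V, z, z', G, hl, hu⟩
    refine ⟨hc.trans (Real.exp_le_exp.2 ?_), V, z, z', G, hl.mono (Finset.Subset.refl _) hK
      (Nat.floor_le_floor (mul_le_mul_of_nonneg_right (by linarith) (Nat.cast_nonneg J))), hu⟩
    exact mul_le_mul_of_nonneg_right (by exact_mod_cast hK) (Nat.cast_nonneg J)

/-- **Change of the charts**: at a window `w`, the jets over the labels of the window `w₂ ≤ w` are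
few bits given the jets over the labels of the window `w₁ ≤ w`. -/
theorem few_jet {S : PCl m} {C₀ : ℝ} (htm : TmC S C₀) {I : Finset (Fin m)} {k : Fin m} {j : ℕ}
    {w w₁ w₂ p₁ p₂ N₁ N₂ p₀ lam u₀ : ℝ} (hw₁ : w₁ ≤ w) (hw₂ : w₂ ≤ w) (hw : w ≤ 1) (hwu : w ≤ u₀)
    (hu0 : 0 ≤ u₀) (hu1 : u₀ < p₀) (hp0 : p₀ ≤ 1) (hful : ∀ u : ℝ, u₀ < u → u < 1 → Ful S I w u)
    {α γ : ∀ J : ℕ, Fam m J → Type} {f : ∀ (J : ℕ) (F : Fam m J), F.Ω → α J F}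
    {y : ∀ (J : ℕ) (F : Fam m J), F.Ω → γ J F}
    (hf : ∀ (J : ℕ) (F : Fam m J), ∃ φ : α J F → PtT F, ∀ ω, ptr F J ω = φ (f J F ω))
    (hy : Kn I p₀ lam y) (hN : N₂ ≤ N₁)
    (hlt : N₂ + j * u₀ < min p₁ p₂ + min lam (p₀ - u₀)) :
    Few S f (vg w) y (qJet m I k j w₁ p₁ N₁) (qJet m I k j w₂ p₂ N₂) := by
  classical
  intro h hh
  obtain ⟨p, hp⟩ : ∃ p, p = min p₁ p₂ := ⟨_, rfl⟩
  obtain ⟨L, hL⟩ : ∃ L, L = min lam (p₀ - u₀) := ⟨_, rfl⟩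
  rw [← hp, ← hL] at hlt
  have hp1 : p ≤ p₁ := by rw [hp]; exact min_le_left _ _
  have hp2 : p ≤ p₂ := by rw [hp]; exact min_le_right _ _
  have hL1 : L ≤ lam := by rw [hL]; exact min_le_left _ _
  have hL2 : L ≤ p₀ - u₀ := by rw [hL]; exact min_le_right _ _
  obtain ⟨σ, hσ⟩ : ∃ σ, σ = p + L - (N₂ + j * u₀) := ⟨_, rfl⟩
  have hσ0 : 0 < σ := by rw [hσ]; linarith
  have hj0 : (0 : ℝ) ≤ j := Nat.cast_nonneg j
  obtain ⟨δ, hδ⟩ : ∃ δ : ℝ, δ = min (σ / (8 * ((j : ℝ) + 1))) ((p₀ - u₀) / 2) := ⟨_, rfl⟩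
  have hδ0 : 0 < δ := by
    rw [hδ]
    refine lt_min (by positivity) (by linarith)
  have hδ1 : ((j : ℝ) + 1) * δ ≤ σ / 8 := by
    have e1 : δ ≤ σ / (8 * ((j : ℝ) + 1)) := by rw [hδ]; exact min_le_left _ _
    have e2 : ((j : ℝ) + 1) * (σ / (8 * ((j : ℝ) + 1))) = σ / 8 := by field_simp
    rw [← e2]
    exact mul_le_mul_of_nonneg_left e1 (by linarith)
  have hδ2 : δ ≤ (p₀ - u₀) / 2 := by rw [hδ]; exact min_le_right _ _
  refine ⟨σ / 4, by linarith, fun K => ?_⟩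
  obtain ⟨C, hC, hfam⟩ := few_fam m K j
  have hC0 : 0 < C := by linarith
  have hl2 : 0 < Real.log 2 := Real.log_pos one_lt_two
  obtain ⟨η, hη⟩ : ∃ η : ℝ, η = min 1 (h / (2 * ((K : ℝ) + 1))) := ⟨_, rfl⟩
  have hη0 : 0 < η := by
    rw [hη]
    exact lt_min one_pos (by positivity)
  have hη1 : η ≤ 1 := by rw [hη]; exact min_le_left _ _
  have hηK : η * K ≤ h / 2 := by
    have e1 : η ≤ h / (2 * ((K : ℝ) + 1)) := by rw [hη]; exact min_le_right _ _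
    have e2 : (K : ℝ) * (h / (2 * ((K : ℝ) + 1))) ≤ h / 2 := by
      rw [mul_div_assoc', div_le_iff₀ (by positivity)]
      have : (0 : ℝ) ≤ K := Nat.cast_nonneg K
      nlinarith
    have e3 := mul_le_mul_of_nonneg_left e1 (Nat.cast_nonneg (α := ℝ) K)
    linarith
  obtain ⟨ψ, hψ⟩ : ∃ ψ : ℝ, ψ = η * min (σ / 8) ((p₀ - u₀) / 2) * Real.log 2 / (3 * C) := ⟨_, rfl⟩
  have hmn0 : 0 < min (σ / 8) ((p₀ - u₀) / 2) := lt_min (by linarith) (by linarith)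
  have hψ0 : 0 < ψ := by
    rw [hψ]
    positivity
  have hψ1 : C * (3 * ψ) / η = min (σ / 8) ((p₀ - u₀) / 2) * Real.log 2 := by
    rw [hψ]
    field_simp
  -- the limits
  obtain ⟨J₃, hJ₃⟩ := exists_nat_ge (Real.log (16 * C) / (σ / 8 * Real.log 2) + 1 / ψ +
    1 / ((p₀ - u₀) / 2) + (Real.log 2 + Real.log 7) / (h / 2))
  refine Bas.mono J₃ ((hful (u₀ + δ) (by linarith) (by linarith) ψ hψ0).and
    (Pool.GRW.tmc_bas htm hψ0)) ?_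
  rintro J hJ F A ⟨hF, hA, hT⟩ u u' ⟨-, V₁, z₁, z₁', G₁, hl₁, hu₁⟩ ⟨hc, V₂, z₂, z₂', G₂, hl₂, hu₂⟩
  have hJ3 : (J₃ : ℝ) ≤ J := by exact_mod_cast hJ
  have hJ0 : (0 : ℝ) ≤ J := Nat.cast_nonneg J
  have hl12 : 0 ≤ Real.log (16 * C) := Real.log_nonneg (by linarith)
  have hl7 : 0 < Real.log 7 := Real.log_pos (by norm_num)
  have t1 : 0 ≤ Real.log (16 * C) / (σ / 8 * Real.log 2) := by positivity
  have t2 : 0 < 1 / ψ := by positivity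
  have t3 : 0 < 1 / ((p₀ - u₀) / 2) := div_pos one_pos (by linarith)
  have t4 : 0 < (Real.log 2 + Real.log 7) / (h / 2) := by positivity
  have f1 : Real.log (16 * C) ≤ σ / 8 * Real.log 2 * J := by
    have : Real.log (16 * C) / (σ / 8 * Real.log 2) ≤ J := by linarith
    rw [div_le_iff₀ (by positivity)] at this
    linarith
  have f2 : 1 ≤ ψ * J := by
    have : 1 / ψ ≤ J := by linarith
    rw [div_le_iff₀ hψ0] at this
    linarith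
  have f3 : 1 ≤ (p₀ - u₀) / 2 * J := by
    have : 1 / ((p₀ - u₀) / 2) ≤ J := by linarith
    rw [div_le_iff₀ (by linarith)] at this
    linarith
  have f4 : Real.log 2 + Real.log 7 ≤ h / 2 * J := by
    have : (Real.log 2 + Real.log 7) / (h / 2) ≤ J := by linarith
    rw [div_le_iff₀ (by positivity)] at this
    linarith
  -- the integers
  have hwJ : ⌊w * J⌋₊ ≤ J := floor_le hw J
  have hw1J : ⌊w₁ * J⌋₊ ≤ ⌊w * J⌋₊ := Nat.floor_le_floor (mul_le_mul_of_nonneg_right hw₁ hJ0)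
  have hw2J : ⌊w₂ * J⌋₊ ≤ ⌊w * J⌋₊ := Nat.floor_le_floor (mul_le_mul_of_nonneg_right hw₂ hJ0)
  have huf : ((⌊(u₀ + δ) * J⌋₊ : ℕ) : ℝ) ≤ (u₀ + δ) * J := Nat.floor_le (by positivity)
  have hua1 : ⌊(u₀ + δ) * J⌋₊ + 1 ≤ ⌊p₀ * J⌋₊ := by
    refine Nat.le_floor ?_
    push_cast
    have : (u₀ + δ) * J ≤ (p₀ - (p₀ - u₀) / 2) * J :=
      mul_le_mul_of_nonneg_right (by linarith) hJ0
    linarith
  have haJ : ⌊p₀ * J⌋₊ ≤ J := floor_le hp0 J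
  have huJ1 : ⌊(u₀ + δ) * J⌋₊ ≤ J := by omega
  have hl₁' := hl₁.win hw1J hwJ
  have hl₂' := hl₂.win hw2J hwJ
  obtain ⟨y₁, hy₁⟩ : ∃ y₁ : LnT F → V₁, y₁ = fun s =>
    z₁' (s.1, s.2.1, s.2.2 / 2 ^ (⌊w * J⌋₊ - ⌊w₁ * J⌋₊)) := ⟨_, rfl⟩
  obtain ⟨y₂, hy₂⟩ : ∃ y₂ : LnT F → V₂, y₂ = fun s =>
    z₂' (s.1, s.2.1, s.2.2 / 2 ^ (⌊w * J⌋₊ - ⌊w₂ * J⌋₊)) := ⟨_, rfl⟩
  rw [← hy₁] at hl₁'
  rw [← hy₂] at hl₂'
  have g1 : ∀ ω, y₁ (slam F ⌊w * J⌋₊ ω) = z₁' (slam F ⌊w₁ * J⌋₊ ω) := fun ω => by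
    rw [hy₁]
    show z₁' ((slam F ⌊w * J⌋₊ ω).1, (slam F ⌊w * J⌋₊ ω).2.1,
      (slam F ⌊w * J⌋₊ ω).2.2 / 2 ^ (⌊w * J⌋₊ - ⌊w₁ * J⌋₊)) = _
    rw [← slam_coarse F hw1J hwJ ω]
  have g2 : ∀ ω, y₂ (slam F ⌊w * J⌋₊ ω) = z₂' (slam F ⌊w₂ * J⌋₊ ω) := fun ω => by
    rw [hy₂]
    show z₂' ((slam F ⌊w * J⌋₊ ω).1, (slam F ⌊w * J⌋₊ ω).2.1,
      (slam F ⌊w * J⌋₊ ω).2.2 / 2 ^ (⌊w * J⌋₊ - ⌊w₂ * J⌋₊)) = _
    rw [← slam_coarse F hw2J hwJ ω]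
  refine ⟨V₁ × V₂, fun ω => (y₁ (slam F ⌊w * J⌋₊ ω), y₂ (slam F ⌊w * J⌋₊ ω)), ⟨?_, ?_⟩, ?_⟩
  · obtain ⟨φ, hφ⟩ := hf J F
    refine ⟨fun a => (z₁ (φ a), z₂ (φ a)), fun ω hω => ?_⟩
    show (y₁ (slam F ⌊w * J⌋₊ ω), y₂ (slam F ⌊w * J⌋₊ ω)) = (z₁ (φ (f J F ω)), z₂ (φ (f J F ω)))
    rw [← hφ ω, hl₁'.cls ω hω, hl₂'.cls ω hω]
  · exact ⟨fun s => (y₁ s, y₂ s), fun ω _ => rfl⟩
  have hexp : C * (ψ * J + ψ * J + 1) / η ≤ min (σ / 8) ((p₀ - u₀) / 2) * Real.log 2 * J := by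
    rw [← hψ1]
    have e1 : C * (ψ * J + ψ * J + 1) ≤ C * (3 * ψ) * J := by nlinarith
    calc C * (ψ * J + ψ * J + 1) / η ≤ C * (3 * ψ) * J / η := div_le_div_of_nonneg_right e1 hη0.le
      _ = _ := by ring
  have key := hfam J F A I k ⌊w * J⌋₊ ⌊(u₀ + δ) * J⌋₊ ⌊p₀ * J⌋₊ ⌊lam * J⌋₊ ⌊(p₁ - σ / 4) * J⌋₊
    ⌊(p₂ - σ / 4) * J⌋₊ (2 ^ (N₁ * J)) (2 ^ (N₂ * J)) V₁ V₂ z₁ y₁ G₁ z₂ y₂ G₂ u u' (γ J F) (y J F)
    (ψ * J) (ψ * J) η (K * J) hA (by linarith) hl₁' hl₂'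
    (Nat.floor_le_floor (mul_le_mul_of_nonneg_right (by linarith) hJ0)) hua1 huJ1 (by positivity)
    (by positivity) hη0 hη1 (by positivity) ?_ ?_ (Real.rpow_pos_of_pos (by norm_num) _)
    (Real.rpow_le_rpow_of_exponent_le (by norm_num) (mul_le_mul_of_nonneg_right hN hJ0)) ?_
    (hy J F)
    (fun ω hω => by rw [g1 ω]; exact hu₁ ω hω) (fun ω hω => by rw [g2 ω]; exact hu₂ ω hω) hc
  · refine key.trans ?_
    have : η * (K * J) ≤ h / 2 * J := by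
      calc η * (K * J) = η * K * J := by ring
        _ ≤ h / 2 * J := mul_le_mul_of_nonneg_right hηK hJ0
    linarith
  · have h3 := hF (V₁ × V₂) (fun x => (z₁ x, z₂ x)) (fun x => (y₁ x, y₂ x)) (fun ω hω => by
      rw [hl₁'.cls ω hω, hl₂'.cls ω hω])
    exact h3
  · refine hexp.trans ?_
    rw [Nat.cast_sub huJ1]
    calc min (σ / 8) ((p₀ - u₀) / 2) * Real.log 2 * J ≤ (p₀ - u₀) / 2 * Real.log 2 * J :=
          mul_le_mul_of_nonneg_right (mul_le_mul_of_nonneg_right (min_le_right _ _) hl2.le) hJ0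
      _ = ((p₀ - u₀) / 2 * J) * Real.log 2 := by ring
      _ ≤ ((J : ℝ) - (⌊(u₀ + δ) * J⌋₊ : ℕ)) * Real.log 2 := by
        refine mul_le_mul_of_nonneg_right ?_ hl2.le
        have h1 : (u₀ + δ) * J ≤ (p₀ - (p₀ - u₀) / 2) * J :=
          mul_le_mul_of_nonneg_right (by linarith) hJ0
        have h2 : p₀ * J ≤ 1 * J := mul_le_mul_of_nonneg_right hp0 hJ0
        linarith
  · -- the exponents
    have a2 : Real.exp (C * (ψ * J + ψ * J + 1) / η) ≤ 2 ^ (σ / 8 * J) := by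
      rw [← exp_p2]
      refine Real.exp_le_exp.2 (hexp.trans ?_)
      have : min (σ / 8) ((p₀ - u₀) / 2) * Real.log 2 * J ≤ σ / 8 * Real.log 2 * J :=
        mul_le_mul_of_nonneg_right (mul_le_mul_of_nonneg_right (min_le_left _ _) hl2.le) hJ0
      linarith
    have a3 : 1 / (2 : ℝ) ^ ⌊(p₁ - σ / 4) * J⌋₊ ≤ 2 * 2 ^ (-((p - σ / 4) * J)) := by
      refine (ip2_le _).trans (mul_le_mul_of_nonneg_left ?_ (by norm_num))
      refine Real.rpow_le_rpow_of_exponent_le (by norm_num) ?_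
      have : (p - σ / 4) * J ≤ (p₁ - σ / 4) * J := mul_le_mul_of_nonneg_right (by linarith) hJ0
      linarith
    have a4 : 1 / (2 : ℝ) ^ ⌊(p₂ - σ / 4) * J⌋₊ ≤ 2 * 2 ^ (-((p - σ / 4) * J)) := by
      refine (ip2_le _).trans (mul_le_mul_of_nonneg_left ?_ (by norm_num))
      refine Real.rpow_le_rpow_of_exponent_le (by norm_num) ?_
      have : (p - σ / 4) * J ≤ (p₂ - σ / 4) * J := mul_le_mul_of_nonneg_right (by linarith) hJ0
      linarith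
    have a5 : (2 : ℝ) ^ ⌊(u₀ + δ) * J⌋₊ ≤ 2 ^ ((u₀ + δ) * J) := p2_le (by positivity)
    have a6 : (2 : ℝ) ^ ⌊(u₀ + δ) * J⌋₊ / 2 ^ ⌊p₀ * J⌋₊ ≤ 2 * 2 ^ (-((L - δ) * J)) := by
      rw [div_eq_mul_one_div]
      have e1 := ip2_le (p₀ * J)
      have e2 : (0 : ℝ) < 2 ^ ((u₀ + δ) * J) := Real.rpow_pos_of_pos (by norm_num) _
      calc (2 : ℝ) ^ ⌊(u₀ + δ) * J⌋₊ * (1 / 2 ^ ⌊p₀ * J⌋₊)
          ≤ 2 ^ ((u₀ + δ) * J) * (2 * 2 ^ (-(p₀ * J))) :=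
            mul_le_mul a5 e1 (by positivity) e2.le
        _ = 2 * 2 ^ ((u₀ + δ) * J + -(p₀ * J)) := by
            rw [Real.rpow_add (by norm_num)]
            ring
        _ ≤ 2 * 2 ^ (-((L - δ) * J)) := by
            refine mul_le_mul_of_nonneg_left ?_ (by norm_num)
            refine Real.rpow_le_rpow_of_exponent_le (by norm_num) ?_
            have : (u₀ + δ) * J ≤ (p₀ - (L - δ)) * J :=
              mul_le_mul_of_nonneg_right (by linarith) hJ0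
            linarith
    have a7 : 1 / (2 : ℝ) ^ ⌊lam * J⌋₊ ≤ 2 * 2 ^ (-((L - δ) * J)) := by
      refine (ip2_le _).trans (mul_le_mul_of_nonneg_left ?_ (by norm_num))
      refine Real.rpow_le_rpow_of_exponent_le (by norm_num) ?_
      have : (L - δ) * J ≤ lam * J := mul_le_mul_of_nonneg_right (by linarith) hJ0
      linarith
    have a8 : ((2 : ℝ) ^ ⌊(u₀ + δ) * J⌋₊) ^ j ≤ 2 ^ (j * ((u₀ + δ) * J)) := by
      refine (pow_le_pow_left₀ (by positivity) a5 j).trans (le_of_eq ?_)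
      rw [← Real.rpow_natCast, ← Real.rpow_mul (by norm_num)]
      congr 1
      ring
    have b1 : (0 : ℝ) < 2 ^ (-((p - σ / 4) * J)) := Real.rpow_pos_of_pos (by norm_num) _
    have b2 : (0 : ℝ) < 2 ^ (-((L - δ) * J)) := Real.rpow_pos_of_pos (by norm_num) _
    have b3 : (0 : ℝ) < 2 ^ (σ / 8 * J) := Real.rpow_pos_of_pos (by norm_num) _
    have b4 : (0 : ℝ) < 2 ^ (N₂ * J) := Real.rpow_pos_of_pos (by norm_num) _
    have b5 : (0 : ℝ) < 2 ^ (j * ((u₀ + δ) * J)) := Real.rpow_pos_of_pos (by norm_num) _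
    have c1 : Real.exp (C * (ψ * J + ψ * J + 1) / η) *
        (1 / 2 ^ ⌊(p₁ - σ / 4) * J⌋₊ + 1 / 2 ^ ⌊(p₂ - σ / 4) * J⌋₊) ≤
        2 ^ (σ / 8 * J) * (4 * 2 ^ (-((p - σ / 4) * J))) := by
      refine mul_le_mul a2 (by linarith) (by positivity) b3.le
    have c2 : (2 : ℝ) ^ ⌊(u₀ + δ) * J⌋₊ / 2 ^ ⌊p₀ * J⌋₊ + 1 / 2 ^ ⌊lam * J⌋₊ ≤
        4 * 2 ^ (-((L - δ) * J)) := by linarith
    calc (2 : ℝ) ^ (N₂ * J) * (C * (Real.exp (C * (ψ * J + ψ * J + 1) / η) *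
          (1 / 2 ^ ⌊(p₁ - σ / 4) * J⌋₊ + 1 / 2 ^ ⌊(p₂ - σ / 4) * J⌋₊)) *
          (2 ^ ⌊(u₀ + δ) * J⌋₊ / 2 ^ ⌊p₀ * J⌋₊ + 1 / 2 ^ ⌊lam * J⌋₊) * (2 ^ ⌊(u₀ + δ) * J⌋₊) ^ j)
        ≤ 2 ^ (N₂ * J) * (C * (2 ^ (σ / 8 * J) * (4 * 2 ^ (-((p - σ / 4) * J)))) *
          (4 * 2 ^ (-((L - δ) * J))) * 2 ^ (j * ((u₀ + δ) * J))) := by
          refine mul_le_mul_of_nonneg_left ?_ b4.le
          refine mul_le_mul ?_ a8 (by positivity) (by positivity)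
          refine mul_le_mul ?_ c2 (by positivity) (by positivity)
          exact mul_le_mul_of_nonneg_left c1 hC0.le
      _ = 16 * C * (2 ^ (N₂ * J) * 2 ^ (σ / 8 * J) * 2 ^ (-((p - σ / 4) * J)) *
          2 ^ (-((L - δ) * J)) * 2 ^ (j * ((u₀ + δ) * J))) := by ring
      _ = 16 * C * 2 ^ (N₂ * J + σ / 8 * J + -((p - σ / 4) * J) + -((L - δ) * J) +
          j * ((u₀ + δ) * J)) := by
          rw [Real.rpow_add (by norm_num), Real.rpow_add (by norm_num),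
            Real.rpow_add (by norm_num), Real.rpow_add (by norm_num)]
      _ ≤ 16 * C * 2 ^ (-(σ / 8 * J)) := by
          refine mul_le_mul_of_nonneg_left ?_ (by positivity)
          refine Real.rpow_le_rpow_of_exponent_le (by norm_num) ?_
          have e1 : N₂ * J + σ / 8 * J + -((p - σ / 4) * J) + -((L - δ) * J) +
              j * ((u₀ + δ) * J) = (-σ + σ / 8 + σ / 4 + ((j : ℝ) + 1) * δ) * J := by
            rw [hσ]
            ring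
          rw [e1]
          have : (-σ + σ / 8 + σ / 4 + ((j : ℝ) + 1) * δ) * J ≤ (-(σ / 8)) * J :=
            mul_le_mul_of_nonneg_right (by linarith) hJ0
          linarith
      _ ≤ 1 := by
          have e1 : 16 * C = Real.exp (Real.log (16 * C)) := (Real.exp_log (by positivity)).symm
          rw [← exp_p2, e1, ← Real.exp_add, Real.exp_le_one_iff]
          linarith

end Pool.LA91
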