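import Pool.Agent.H91.LA.Afn
import Pool.Agent.H91.LA.Rel

/-!
# More digits of one label

`Dg2 S Q Q' c`: there are functions with `Q` and `Q'` such that the second one has at most `c J`
bits given the first one. `dg_qA`: the jets of one label to more digits. `NN.le_dg`: the numbers.
-/

set_option autoImplicit false

namespace Pool.LA91

open Finset Real MvPolynomial
open Pool.Agent.H49.Ent Pool.Agent.H32.Dense Pool.STK Pool.KA Pool.KSAT Pool.K2S Pool.PB Pool.GEN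
open Pool.S6C Pool.RCD
open Pool.GRD (LbP Pb_mono_pos)
open Pool.BFL (Pb)

variable {m : ℕ} {U U' U₁ U₁' U₂ U₂' : Type}

/-- **More digits**: the second quantity has `c J` bits given the first one. -/
def Dg2 (S : PCl m) (Q : Qt m U) (Q' : Qt m U') (c : ℝ) : Prop :=
  ∀ e : ℝ, 0 < e → ∃ (K : ℕ) (M : ℝ), Bas S (fun J F A => ∃ u u', Q.P K e J F A u ∧
    Q'.P K e J F A u' ∧ CH (Pool.Agent.H49.Ent.cond F.p A True) u' u ≤ c * J + M)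

theorem Dg2.sub {S S' : PCl m} (hs : ∀ (τ : ℝ) (J : ℕ) (F : Fam m J) (A : F.Ω → Prop),
    S'.St τ J F A → S.St τ J F A) {Q : Qt m U} {Q' : Qt m U'} {c : ℝ} (h : Dg2 S Q Q' c) :
    Dg2 S' Q Q' c := by
  intro e he
  obtain ⟨K, M, H⟩ := h e he
  exact ⟨K, M, H.sub hs⟩

theorem dg_refl {S : PCl m}
    (hpos : ∀ (τ : ℝ) (J : ℕ) (F : Fam m J) (A : F.Ω → Prop), S.St τ J F A → 0 < Pe F.p A)
    {Q : Qt m U} (x : Exs S Q) : Dg2 S Q Q 0 := by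
  intro e he
  obtain ⟨K, M, H⟩ := x e he
  refine ⟨K, 0, Bas.mono 0 (H.and (pos_bas hpos)) ?_⟩
  rintro J - F A ⟨⟨u, hu, -⟩, hA⟩
  refine ⟨u, u, hu, hu, le_of_eq ?_⟩
  rw [zero_mul, add_zero]
  exact CH_eq_zero (isLaw_cond F.isLaw hA).nonneg fun _ _ _ _ h => h

theorem Dg2.prod {S : PCl m}
    (hpos : ∀ (τ : ℝ) (J : ℕ) (F : Fam m J) (A : F.Ω → Prop), S.St τ J F A → 0 < Pe F.p A)
    {Q₁ : Qt m U₁} {Q₁' : Qt m U₁'} {Q₂ : Qt m U₂} {Q₂' : Qt m U₂'} {c₁ c₂ : ℝ}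
    (h₁ : Dg2 S Q₁ Q₁' c₁) (h₂ : Dg2 S Q₂ Q₂' c₂) :
    Dg2 S (Q₁.prod Q₂) (Q₁'.prod Q₂') (c₁ + c₂) := by
  intro e he
  obtain ⟨K₁, M₁, H₁⟩ := h₁ e he
  obtain ⟨K₂, M₂, H₂⟩ := h₂ e he
  refine ⟨max K₁ K₂, M₁ + M₂, Bas.mono 0 ((H₁.and H₂).and (pos_bas hpos)) ?_⟩
  rintro J - F A ⟨⟨⟨u₁, u₁', a₁, b₁, d₁⟩, u₂, u₂', a₂, b₂, d₂⟩, hA⟩
  have hcl := isLaw_cond F.isLaw hA
  refine ⟨fun ω => (u₁ ω, u₂ ω), fun ω => (u₁' ω, u₂' ω),
    ⟨Q₁.mono (le_max_left _ _) le_rfl a₁, Q₂.mono (le_max_right _ _) le_rfl a₂⟩,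
    ⟨Q₁'.mono (le_max_left _ _) le_rfl b₁, Q₂'.mono (le_max_right _ _) le_rfl b₂⟩, ?_⟩
  have s1 := CH_subadd hcl.nonneg u₁' u₂' (fun ω => (u₁ ω, u₂ ω))
  have s2 : CH (Pool.Agent.H49.Ent.cond F.p A True) u₁' (fun ω => (u₁ ω, u₂ ω)) ≤
      CH (Pool.Agent.H49.Ent.cond F.p A True) u₁' u₁ :=
    CH_mono_cond hcl.nonneg fun _ _ _ _ h => (Prod.ext_iff.mp h).1
  have s3 : CH (Pool.Agent.H49.Ent.cond F.p A True) u₂' (fun ω => (u₁ ω, u₂ ω)) ≤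
      CH (Pool.Agent.H49.Ent.cond F.p A True) u₂' u₂ :=
    CH_mono_cond hcl.nonneg fun _ _ _ _ h => (Prod.ext_iff.mp h).2
  linarith

/-- The numbers of a quantity with more digits. -/
theorem NN.le_dg {S : PCl m} (hS : S.Ne)
    (hpos : ∀ (τ : ℝ) (J : ℕ) (F : Fam m J) (A : F.Ω → Prop), S.St τ J F A → 0 < Pe F.p A)
    {α β γ : ∀ J : ℕ, Fam m J → Type} {f : ∀ (J : ℕ) (F : Fam m J), F.Ω → α J F}
    {g : ∀ (J : ℕ) (F : Fam m J), F.Ω → β J F} {y : ∀ (J : ℕ) (F : Fam m J), F.Ω → γ J F}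
    {η : ℝ} (hη : RNum S f g η) {Q : Qt m U} {Q₁ : Qt m U₁} {Q' : Qt m U'} {θ θ' c : ℝ}
    (N : NN S f g y Q θ) (N' : NN S f g y Q' θ') (x : Exs S Q) (F₁ : Few S f g y Q Q₁)
    (d : Dg2 S Q₁ Q' c) : θ' ≤ θ + c := by
  refine le_of_bas hS fun h hh => ?_
  obtain ⟨k1, hk1, e1, he1, H1⟩ := N (h / 8) (by positivity)
  obtain ⟨k2, hk2, e2, he2, H2⟩ := N' (h / 8) (by positivity)
  obtain ⟨e3, he3, H3⟩ := F₁.mx hpos (h / 8) (by positivity)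
  obtain ⟨e₀, he₀, l1, l2, l3⟩ : ∃ e₀ : ℝ, 0 < e₀ ∧ e₀ ≤ e1 ∧ e₀ ≤ e2 ∧ e₀ ≤ e3 :=
    ⟨min e1 (min e2 e3), by positivity, min_le_left _ _,
      (min_le_right _ _).trans (min_le_left _ _), (min_le_right _ _).trans (min_le_right _ _)⟩
  obtain ⟨k, hk, m1, m2, m3⟩ : ∃ k : ℝ, 0 < k ∧ k ≤ k1 ∧ k ≤ k2 ∧ k ≤ h / 8 / 2 :=
    ⟨min k1 (min k2 (h / 8 / 2)), by positivity, min_le_left _ _,
      (min_le_right _ _).trans (min_le_left _ _), (min_le_right _ _).trans (min_le_right _ _)⟩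
  obtain ⟨K₀, M₀, hx⟩ := x e₀ he₀
  obtain ⟨K₁, M₁, hd⟩ := d e₀ he₀
  obtain ⟨J₁, hJ₁⟩ := exists_nat_ge (M₁ / (h / 8))
  obtain ⟨K, hK⟩ : ∃ K, K = max K₀ K₁ := ⟨_, rfl⟩
  have n0 : K₀ ≤ K := by rw [hK]; exact le_max_left _ _
  have n1 : K₁ ≤ K := by rw [hK]; exact le_max_right _ _
  refine Bas.mono J₁ (((((H1 K).and (H2 K)).and (H3 K)).and (hx.and hd)).and
    ((mx_ex hpos hη k hk).and (pos_bas hpos))) ?_
  rintro J hJ F A ⟨⟨⟨⟨H1, H2⟩, H3⟩, ⟨u, hu, -⟩, u₁, u', hu₁, hu', hd⟩, ⟨V, z, hz⟩, hA⟩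
  have hcl := isLaw_cond F.isLaw hA
  have hJ0 : (0 : ℝ) ≤ J := Nat.cast_nonneg J
  have hJ1 : (J₁ : ℝ) ≤ J := by exact_mod_cast hJ
  have f1 : M₁ ≤ h / 8 * J := by
    have : M₁ / (h / 8) ≤ J := hJ₁.trans hJ1
    rw [div_le_iff₀ (by positivity)] at this
    linarith
  have a1 := (abs_le.1 (H1 V z (hz.le' m1) u (Q.mono n0 l1 hu))).2
  have a2 := (abs_le.1 (H2 V z (hz.le' m2) u' (Q'.mono n1 l2 hu'))).1
  have a3 := H3 V z (hz.le' m3) u u₁ (Q.mono n0 l3 hu) (Q₁.mono n1 l3 hu₁)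
  have s1 := CH_le_add hcl.nonneg u' u₁ (fun ω => (z ω, y J F ω))
  have s2 := CH_le_add hcl.nonneg u₁ u (fun ω => (z ω, y J F ω))
  have s3 : CH (Pool.Agent.H49.Ent.cond F.p A True) u' (fun ω => (u₁ ω, (z ω, y J F ω))) ≤
      CH (Pool.Agent.H49.Ent.cond F.p A True) u' u₁ :=
    CH_mono_cond hcl.nonneg fun _ _ _ _ h => (Prod.ext_iff.mp h).1
  nlinarith

/-- The digits of a real function to more depth. -/
theorem dig_CH {Ω : Type} [Fintype Ω] {q : Ω → ℝ} (hq : IsLaw q) (X : Ω → ℝ) {a a' : ℝ}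
    (ha : a ≤ a') : CH q (fun ω => ⌊(2 : ℝ) ^ a' * X ω⌋) (fun ω => ⌊(2 : ℝ) ^ a * X ω⌋) ≤
      (a' - a) * Real.log 2 + Real.log 5 := by
  have b0 : (0 : ℝ) < 2 ^ a := Real.rpow_pos_of_pos (by norm_num) _
  have b1 : (1 : ℝ) ≤ 2 ^ (a' - a) := Real.one_le_rpow (by norm_num) (by linarith)
  have b2 : (2 : ℝ) ^ a' = 2 ^ (a' - a) * 2 ^ a := by
    rw [← Real.rpow_add (by norm_num)]
    congr 1
    ring
  have h1 := CH_le_int hq.nonneg hq.sum_one (fun ω => ⌊(2 : ℝ) ^ a' * X ω⌋)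
    (fun ω => ⌊(2 : ℝ) ^ a * X ω⌋) (fun _ => 2 ^ (a' - a) + 1) (by
      intro ω ω' _ _ hh
      have h2 := Int.abs_sub_lt_one_of_floor_eq_floor hh
      have h3 : |(2 : ℝ) ^ a' * X ω - 2 ^ a' * X ω'| ≤ 2 ^ (a' - a) := by
        rw [b2, mul_assoc, mul_assoc, ← mul_sub, abs_mul, abs_of_pos (by linarith)]
        exact mul_le_of_le_one_right (by linarith) h2.le
      have h4 := abs_le.1 h3
      have f1 := Int.floor_le ((2 : ℝ) ^ a' * X ω)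
      have f2 := Int.lt_floor_add_one ((2 : ℝ) ^ a' * X ω)
      have f3 := Int.floor_le ((2 : ℝ) ^ a' * X ω')
      have f4 := Int.lt_floor_add_one ((2 : ℝ) ^ a' * X ω')
      push_cast
      rw [abs_le]
      constructor <;> linarith [h4.1, h4.2])
  rw [Ex_const hq.sum_one] at h1
  refine h1.trans ?_
  have h2 : 2 * ((2 : ℝ) ^ (a' - a) + 1) + 1 ≤ 2 ^ (a' - a) * 5 := by linarith
  refine (Real.log_le_log (by positivity) h2).trans (le_of_eq ?_)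
  rw [Real.log_mul (by positivity) (by norm_num), Real.log_rpow (by norm_num)]

/-- The jets of a label with bounded jets. -/
theorem qA_mk {m : ℕ} (I : Finset (Fin m)) (ι k : Fin m) (j : ℕ) (w p N e : ℝ) (K : ℕ) :
    ∃ M : ℕ, K ≤ M ∧ ∃ J₁ : ℕ, ∀ J ≥ J₁, ∀ (F : Fam m J) (A : F.Ω → Prop) (V : Type)
      (z : PtT F → V) (z' : LnT F → V) (G : V → MvPolynomial (Option (Fin m)) ℝ) (c : V → ℝ),
      LbP F (insert ι I) k K J ⌊w * J⌋₊ ⌊(p - e) * J⌋₊ A z z' G → (∀ x, AfI ι (c x) (G x)) →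
      (∀ ω, A ω → |ojet F k j (G (z' (slam F ⌊w * J⌋₊ ω))) ω| ≤ (2 : ℝ) ^ ((K : ℝ) * J)) →
      (qA m I ι k j w p N).P M e J F A
        (fun ω => ⌊(2 : ℝ) ^ (N * J) * ojet F k j (G (z' (slam F ⌊w * J⌋₊ ω))) ω⌋) := by
  have hl2 : 0 < Real.log 2 := Real.log_pos one_lt_two
  obtain ⟨B, hB⟩ : ∃ B : ℝ, B = |N| + K := ⟨_, rfl⟩
  have hB0 : 0 ≤ B := by
    rw [hB]
    positivity
  obtain ⟨M, hM⟩ : ∃ M : ℕ, M = max K ⌈B * Real.log 2 + 1⌉₊ := ⟨_, rfl⟩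
  have hM1 : B * Real.log 2 + 1 ≤ M := by
    refine (Nat.le_ceil _).trans ?_
    rw [hM]
    exact_mod_cast le_max_right _ _
  have hKM : K ≤ M := by
    rw [hM]
    exact le_max_left _ _
  obtain ⟨J₁, hJ₁⟩ := exists_nat_ge (Real.log 5)
  refine ⟨M, hKM, J₁, fun J hJ F A V z z' G c hlb ha hbig => ?_⟩
  have hJ0 : (0 : ℝ) ≤ J := Nat.cast_nonneg J
  have hJ1 : (J₁ : ℝ) ≤ J := by exact_mod_cast hJ
  have hcnt : (cnt F.p (fun ω => ⌊(2 : ℝ) ^ (N * J) *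
      ojet F k j (G (z' (slam F ⌊w * J⌋₊ ω))) ω⌋) A : ℝ) ≤ Real.exp (M * J) := by
    have b1 : (1 : ℝ) ≤ 2 ^ (B * J) := by
      rw [← exp_p2]
      exact Real.one_le_exp (by positivity)
    have h1 := cnt_le_of_abs (p := F.p) (u := fun ω => ⌊(2 : ℝ) ^ (N * J) *
      ojet F k j (G (z' (slam F ⌊w * J⌋₊ ω))) ω⌋) (A := A) (B := 2 * 2 ^ (B * J))
      (by positivity) (by
        intro ω hω
        have h2 := hbig ω hω
        obtain ⟨o, ho⟩ : ∃ o, o = ojet F k j (G (z' (slam F ⌊w * J⌋₊ ω))) ω := ⟨_, rfl⟩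
        rw [← ho] at h2 ⊢
        have h3 : |(2 : ℝ) ^ (N * J) * o| ≤ 2 ^ (B * J) := by
          have b3 : (0 : ℝ) < 2 ^ (N * J) := Real.rpow_pos_of_pos (by norm_num) _
          rw [abs_mul, abs_of_pos b3]
          calc (2 : ℝ) ^ (N * J) * |o| ≤ 2 ^ (N * J) * 2 ^ ((K : ℝ) * J) :=
                mul_le_mul_of_nonneg_left h2 b3.le
            _ ≤ 2 ^ (B * J) := by
                rw [← Real.rpow_add (by norm_num)]
                refine Real.rpow_le_rpow_of_exponent_le (by norm_num) ?_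
                have := mul_le_mul_of_nonneg_right (le_abs_self N) hJ0
                rw [hB]
                linarith
        have h4 := Int.floor_le ((2 : ℝ) ^ (N * J) * o)
        have h5 := Int.lt_floor_add_one ((2 : ℝ) ^ (N * J) * o)
        have h6 := abs_le.1 h3
        rw [abs_le]
        constructor <;> linarith [h6.1, h6.2])
    refine h1.trans ?_
    have h2 : 2 * (2 * (2 : ℝ) ^ (B * J)) + 1 ≤ 5 * 2 ^ (B * J) := by linarith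
    refine h2.trans ?_
    rw [← exp_p2]
    calc 5 * Real.exp (B * J * Real.log 2)
        = Real.exp (Real.log 5) * Real.exp (B * J * Real.log 2) := by
          rw [Real.exp_log (by norm_num)]
      _ = Real.exp (Real.log 5 + B * J * Real.log 2) := (Real.exp_add _ _).symm
      _ ≤ Real.exp (M * J) := by
          refine Real.exp_le_exp.2 ?_
          have := mul_le_mul_of_nonneg_right hM1 hJ0
          nlinarith [hJ₁.trans hJ1]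
  exact ⟨hcnt, V, z, z', G, c, hlb.mono (Finset.Subset.refl _) hKM le_rfl, ha, fun _ _ => rfl⟩

/-- **The jets of one label** to more digits. -/
theorem dg_qA {S : PCl m}
    (hpos : ∀ (τ : ℝ) (J : ℕ) (F : Fam m J) (A : F.Ω → Prop), S.St τ J F A → 0 < Pe F.p A)
    {I : Finset (Fin m)} {ι k : Fin m} {j : ℕ} {w p N N' : ℝ} (h : AttQ S I ι k j w p)
    (hN : N ≤ N') : Dg2 S (qA m I ι k j w p N) (qA m I ι k j w p N') ((N' - N) * Real.log 2) := by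
  intro e he
  obtain ⟨K, hK⟩ := h e he
  obtain ⟨M₁, hM₁, J₁, H₁⟩ := qA_mk I ι k j w p N e K
  obtain ⟨M₂, hM₂, J₂, H₂⟩ := qA_mk I ι k j w p N' e K
  refine ⟨max M₁ M₂, Real.log 5, Bas.mono (max J₁ J₂) (hK.and (pos_bas hpos)) ?_⟩
  rintro J hJ F A ⟨⟨V, z, z', G, c, hlb, ha, hbig⟩, hA⟩
  have h1 := H₁ J ((le_max_left _ _).trans hJ) F A V z z' G c hlb ha hbig
  have h2 := H₂ J ((le_max_right _ _).trans hJ) F A V z z' G c hlb ha hbig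
  refine ⟨_, _, (qA m I ι k j w p N).mono (le_max_left _ _) le_rfl h1,
    (qA m I ι k j w p N').mono (le_max_right _ _) le_rfl h2, ?_⟩
  have hJ0 : (0 : ℝ) ≤ J := Nat.cast_nonneg J
  have h3 := dig_CH (isLaw_cond F.isLaw hA)
    (fun ω => ojet F k j (G (z' (slam F ⌊w * J⌋₊ ω))) ω) (a := N * J) (a' := N' * J)
    (mul_le_mul_of_nonneg_right hN hJ0)
  refine h3.trans (le_of_eq ?_)
  ring

end Pool.LA91
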