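import Pool.Agent.H91.LA.Jpt

/-!
# Change of charts for the jets over nested charts

`qJets`: the jets of the coordinates with charts (V1); `few_jetN_e`: the jets of a coordinate over
a label of the whole chain are few bits given the jets over another label, the jets of the chain
and the base; with explicit accuracy.
-/

set_option autoImplicit false

namespace Pool.LA91

open Finset Real MvPolynomial
open Pool.Agent.H49.Ent Pool.Agent.H32.Dense Pool.STK Pool.KA Pool.KSAT Pool.K2S Pool.PB Pool.GEN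
open Pool.S6C Pool.RCD
open Pool.GRD (LbP Pb_mono_pos)
open Pool.BFL (Pb)
open Pool.LIV (Pb_mono25 Pb_or25 Pb_ex25)
open Pool.GRW (xr xr_near tmc_bas)

variable {m J : ℕ}

/-! ### Powers -/

theorem E_add (J : ℕ) (a b : ℝ) : (2 : ℝ) ^ (a * J) * 2 ^ (b * J) = 2 ^ ((a + b) * J) := by
  rw [← Real.rpow_add (by norm_num)]
  congr 1
  ring

theorem E_mono (J : ℕ) {a b : ℝ} (h : a ≤ b) : (2 : ℝ) ^ (a * J) ≤ 2 ^ (b * J) :=
  Real.rpow_le_rpow_of_exponent_le (by norm_num) (mul_le_mul_of_nonneg_right h (Nat.cast_nonneg J))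

theorem E_pow (J : ℕ) (a : ℝ) (n : ℕ) : ((2 : ℝ) ^ (a * J)) ^ n = 2 ^ (n * a * J) := by
  rw [← Real.rpow_natCast, ← Real.rpow_mul (by norm_num)]
  congr 1
  ring

theorem E_pos (J : ℕ) (a : ℝ) : (0 : ℝ) < 2 ^ (a * J) := Real.rpow_pos_of_pos (by norm_num) _

theorem E_one {J : ℕ} {a : ℝ} (ha : 0 ≤ a) : (1 : ℝ) ≤ 2 ^ (a * J) :=
  Real.one_le_rpow (by norm_num) (mul_nonneg ha (Nat.cast_nonneg J))

theorem E_big {a C : ℝ} (ha : 0 < a) : ∃ J₀ : ℕ, ∀ J ≥ J₀, C ≤ (2 : ℝ) ^ (a * J) := by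
  have hl2 : 0 < Real.log 2 := Real.log_pos one_lt_two
  obtain ⟨J₀, hJ₀⟩ := exists_nat_ge (Real.log (max C 1) / (a * Real.log 2))
  refine ⟨J₀, fun J hJ => ?_⟩
  have h1 : (J₀ : ℝ) ≤ J := by exact_mod_cast hJ
  have h2 : Real.log (max C 1) / (a * Real.log 2) ≤ J := hJ₀.trans h1
  rw [div_le_iff₀ (by positivity)] at h2
  have h3 : (0 : ℝ) < max C 1 := lt_max_of_lt_right one_pos
  calc C ≤ max C 1 := le_max_left _ _
    _ = Real.exp (Real.log (max C 1)) := (Real.exp_log h3).symm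
    _ ≤ Real.exp (a * J * Real.log 2) := Real.exp_le_exp.2 (by linarith)
    _ = 2 ^ (a * J) := exp_p2 _

theorem E_floor_le {J : ℕ} {x : ℝ} (hx : 0 ≤ x) : (2 : ℝ) ^ ⌊x * J⌋₊ ≤ 2 ^ (x * J) :=
  p2_le (mul_nonneg hx (Nat.cast_nonneg J))

theorem E_floor_ge (J : ℕ) (x : ℝ) : (2 : ℝ) ^ (x * J) ≤ 4 * 2 ^ ⌊x * J⌋₊ := by
  have h1 := ip2_le (x * J)
  have h2 : (0 : ℝ) < 2 ^ ⌊x * J⌋₊ := by positivity
  have h3 : (0 : ℝ) < 2 ^ (x * (J : ℝ)) := Real.rpow_pos_of_pos (by norm_num) _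
  rw [Real.rpow_neg (by norm_num), div_le_iff₀ h2] at h1
  have h4 : (2 : ℝ) * (2 ^ (x * (J : ℝ)))⁻¹ * 2 ^ ⌊x * J⌋₊ * 2 ^ (x * (J : ℝ)) =
      2 * 2 ^ ⌊x * J⌋₊ := by
    field_simp
  have h5 := mul_le_mul_of_nonneg_right h1 h3.le
  rw [h4, one_mul] at h5
  linarith

theorem E_inv_floor (J : ℕ) (x : ℝ) : 1 / (2 : ℝ) ^ ⌊x * J⌋₊ ≤ 2 * 2 ^ (-x * J) := by
  have h1 := ip2_le (x * J)
  rw [← neg_mul] at h1
  exact h1

theorem E_inv_floor_ge {J : ℕ} {x y : ℝ} (hy : 0 ≤ y) (hxy : x ≤ y) :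
    (2 : ℝ) ^ (-y * J) ≤ 1 / 2 ^ ⌊x * J⌋₊ := by
  have hJ : (0 : ℝ) ≤ J := Nat.cast_nonneg J
  have h1 : (2 : ℝ) ^ ⌊x * J⌋₊ ≤ 2 ^ (y * J) := by
    refine (pow_le_pow_right₀ (by norm_num) (Nat.floor_le_floor
      (mul_le_mul_of_nonneg_right hxy hJ))).trans (E_floor_le hy)
  rw [neg_mul, Real.rpow_neg (by norm_num), ← one_div]
  exact one_div_le_one_div_of_le (by positivity) h1

/-- A sum of small terms. -/
theorem tau_le {r i : ℕ} (hi : i ≤ r) {σ : ℕ → ℝ} {σb Y Z : ℝ} (hZ : 0 ≤ Z)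
    (hb : Y * σb ≤ Z) (h : ∀ l < i, Y * σ l ≤ Z) :
    Y * (σb + ∑ l ∈ range i, σ l) ≤ (r + 1) * Z := by
  rw [mul_add, Finset.mul_sum]
  have h1 : ∑ l ∈ range i, Y * σ l ≤ ∑ _l ∈ range i, Z :=
    Finset.sum_le_sum fun l hl => h l (mem_range.1 hl)
  rw [Finset.sum_const, card_range, nsmul_eq_mul] at h1
  have h2 : (i : ℝ) * Z ≤ r * Z := mul_le_mul_of_nonneg_right (by exact_mod_cast hi) hZ
  linarith

/-! ### Normal forms of labels -/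

/-- The polynomial itself, if it is of the degree `K` and depends on `I` only. -/
noncomputable def nfp (K : ℕ) (I : Finset (Fin m)) (P : MvPolynomial (Option (Fin m)) ℝ) :
    MvPolynomial (Option (Fin m)) ℝ := by
  classical
  exact if P.totalDegree ≤ K ∧ (∀ b b' : Option (Fin m) → ℝ, b none = b' none →
    (∀ i ∈ I, b (some i) = b' (some i)) → eval b P = eval b' P) then P else 0

theorem LbP.nfp {F : Fam m J} {I : Finset (Fin m)} {k : Fin m} {K r w P : ℕ}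
    {A : F.Ω → Prop} {V : Type} {z : PtT F → V} {z' : LnT F → V}
    {G : V → MvPolynomial (Option (Fin m)) ℝ} (h : LbP F I k K r w P A z z' G) :
    LbP F I k K r w P A (fun a => G (z a)) (fun s => G (z' s)) (nfp K I) ∧
      ∀ v, nfp K I (G v) = G v := by
  classical
  have e : ∀ v, LA91.nfp K I (G v) = G v := fun v => by
    unfold LA91.nfp
    exact if_pos ⟨h.deg v, h.dep v⟩
  refine ⟨⟨fun v => ?_, fun v b b' h1 h2 => ?_, fun ω hω => ?_, fun ω hω => ?_⟩, e⟩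
  · unfold LA91.nfp
    split_ifs with h1
    · exact h1.1
    · rw [totalDegree_zero]
      exact Nat.zero_le _
  · unfold LA91.nfp
    split_ifs with h3
    · exact h3.2 b b' h1 h2
    · rw [map_zero, map_zero]
  · rw [h.cls ω hω]
  · rw [e]
    exact h.pos ω hω

/-! ### The quantity -/

/-- **The jets of the coordinates with charts**, of the orders `0 .. j`. -/
noncomputable def qJets (m : ℕ) (c : ℕ → Fin m) (r₀ r j : ℕ) (w p N : ℕ → ℕ → ℝ) :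
    Qt m (ℕ → ℕ → ℤ) where
  P K e J F A u := (∀ i, r₀ ≤ i → i < r → ∀ j' ≤ j,
      (qJet m ((range i).image c) (c i) j' (w i j') (p i j') (N i j')).P K e J F A
        (fun ω => u ω i j')) ∧
    ∀ ω, A ω → ∀ i j', ¬ (r₀ ≤ i ∧ i < r ∧ j' ≤ j) → u ω i j' = 0
  sub := by
    rintro K e J F A B u hB ⟨h1, h2⟩
    exact ⟨fun i a b j' c' => (qJet m _ _ _ _ _ _).sub hB (h1 i a b j' c'),
      fun ω hω => h2 ω (hB ω hω)⟩
  mono := by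
    rintro K K' e e' J F A u hK he ⟨h1, h2⟩
    exact ⟨fun i a b j' c' => (qJet m _ _ _ _ _ _).mono hK he (h1 i a b j' c'), h2⟩

/-! ### The theorem -/

theorem fjt_congr {c : ℕ → Fin m} {r₀ a l : ℕ} {N : ℕ → ℕ → ℝ} {X X' D D' : Fin m → ℤ}
    (hX : ∀ i < r₀, X (c i) = X' (c i)) (hD : ∀ i < r₀, D (c i) = D' (c i)) (u : ℕ → ℕ → ℤ) :
    fjt c r₀ a l N X D u = fjt c r₀ a l N X' D' u := by
  funext i j
  unfold fjt
  by_cases h : i < r₀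
  · rw [if_pos h, if_pos h, hX i h, hD i h]
  · rw [if_neg h, if_neg h]

theorem arith_core {J j : ℕ} {C ε μ σ₀ a b e d Xl σl : ℝ} (hC : 0 ≤ C) (ha : μ ≤ a) (hb : μ ≤ b)
    (he : e ≤ σ₀ / 8) (hd : d ≤ σ₀ / 8) (hε : ((j : ℝ) + 1) * ε ≤ σ₀ / 8) (hσ0 : 0 ≤ σl)
    (hσl : σl ≤ 16 * 2 ^ (-(Xl - σ₀ / 8) * J)) :
    C * (2 ^ (ε * J)) ^ j * (2 ^ (ε * J) * (1 / 2 ^ ⌊(a - e) * J⌋₊ + 1 / 2 ^ ⌊(b - d) * J⌋₊)) * σl ≤
      64 * C * 2 ^ ((3 * σ₀ / 8 - μ - Xl) * J) := by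
  have h1 : 1 / (2 : ℝ) ^ ⌊(a - e) * J⌋₊ ≤ 2 * 2 ^ ((σ₀ / 8 - μ) * J) :=
    (E_inv_floor J (a - e)).trans (mul_le_mul_of_nonneg_left (E_mono J (by linarith))
      (by norm_num))
  have h2 : 1 / (2 : ℝ) ^ ⌊(b - d) * J⌋₊ ≤ 2 * 2 ^ ((σ₀ / 8 - μ) * J) :=
    (E_inv_floor J (b - d)).trans (mul_le_mul_of_nonneg_left (E_mono J (by linarith))
      (by norm_num))
  have h3 : ((2 : ℝ) ^ (ε * J)) ^ j * 2 ^ (ε * J) ≤ 2 ^ (σ₀ / 8 * J) := by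
    rw [← pow_succ, E_pow]
    refine E_mono J ?_
    push_cast
    exact hε
  have h4 : 1 / (2 : ℝ) ^ ⌊(a - e) * J⌋₊ + 1 / 2 ^ ⌊(b - d) * J⌋₊ ≤
      4 * 2 ^ ((σ₀ / 8 - μ) * J) := by linarith
  have e1 : (0 : ℝ) < 2 ^ (σ₀ / 8 * J) := E_pos J _
  have e2 : (0 : ℝ) < 2 ^ ((σ₀ / 8 - μ) * J) := E_pos J _
  have e3 : (0 : ℝ) < 2 ^ (ε * J) := E_pos J _
  calc C * (2 ^ (ε * J)) ^ j * (2 ^ (ε * J) * (1 / 2 ^ ⌊(a - e) * J⌋₊ + 1 / 2 ^ ⌊(b - d) * J⌋₊)) *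
        σl
      = C * ((2 ^ (ε * J)) ^ j * 2 ^ (ε * J)) *
        (1 / 2 ^ ⌊(a - e) * J⌋₊ + 1 / 2 ^ ⌊(b - d) * J⌋₊) * σl := by ring
    _ ≤ C * 2 ^ (σ₀ / 8 * J) * (4 * 2 ^ ((σ₀ / 8 - μ) * J)) *
        (16 * 2 ^ (-(Xl - σ₀ / 8) * J)) := by
        refine mul_le_mul ?_ hσl hσ0 (by positivity)
        refine mul_le_mul (mul_le_mul_of_nonneg_left h3 hC) h4 (by positivity) (by positivity)
    _ = 64 * C * (2 ^ (σ₀ / 8 * J) * 2 ^ ((σ₀ / 8 - μ) * J) * 2 ^ (-(Xl - σ₀ / 8) * J)) := by ring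
    _ = 64 * C * 2 ^ ((3 * σ₀ / 8 - μ - Xl) * J) := by
        rw [E_add, E_add]
        congr 2
        ring

/-- **Change of charts over a nested chain**, with explicit accuracy. -/
theorem few_jetN_e {S : PCl m} {C₀ : ℝ} (htm : TmC S C₀) {c : ℕ → Fin m} {r₀ r : ℕ}
    {w u₀ u₁ : ℝ} {s rd : ℕ → ℝ} (hch : Chn S c r₀ r w u₀ u₁ s rd) {k : Fin m} {j : ℕ}
    {wv pv Nv : ℕ → ℕ → ℝ} {lv : ℕ → ℝ} {w₁ w₂ p₁ p₂ N₁ N₂ p₀ lam σ₀ κ : ℝ}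
    (hwv : ∀ i, r₀ ≤ i → i < r → ∀ j' ≤ j, wv i j' ≤ w) (hw₁ : w₁ ≤ w) (hw₂ : w₂ ≤ w)
    (hu0 : u₀ < p₀) (hp0 : p₀ ≤ 1) (hlam : 0 < lam) (hσ₀ : 0 < σ₀) (hκ : 0 ≤ κ + σ₀)
    (hlv : ∀ i, r₀ ≤ i → i < r → 0 < lv i)
    (h1 : ∀ i, r₀ ≤ i → i < r → ∀ j' ≤ j, s i + lv i + σ₀ ≤ Nv i j' + j' * u₀)
    (h2 : ∀ i, r₀ ≤ i → i < r → ∀ j' ≤ j,
      s i + lv i + σ₀ ≤ min (pv i j') (s i) + min lam (p₀ - u₀))
    (h2' : ∀ i, r₀ ≤ i → i < r → ∀ j' ≤ j, ∀ l, r₀ ≤ l → l < i →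
      s i + lv i + σ₀ ≤ min (pv i j') (s i) + lv l)
    (hN : N₂ ≤ N₁)
    (h3 : N₂ + j * u₀ ≤ min p₁ p₂ + min lam (p₀ - u₀) + κ)
    (h3' : ∀ l, r₀ ≤ l → l < r → N₂ + j * u₀ ≤ min p₁ p₂ + lv l + κ)
    {α γ : ∀ J : ℕ, Fam m J → Type} {f : ∀ (J : ℕ) (F : Fam m J), F.Ω → α J F}
    {y : ∀ (J : ℕ) (F : Fam m J), F.Ω → γ J F}
    (hf : ∀ (J : ℕ) (F : Fam m J), ∃ φ : α J F → PtT F, ∀ ω, ptr F J ω = φ (f J F ω))
    (hy : Kn ((range r₀).image c) p₀ lam y) {h : ℝ} (hh : 0 < h) (K : ℕ) :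
    Bas S (fun J F A => ∀ (uu : F.Ω → ℕ → ℕ → ℤ) (u u' : F.Ω → ℤ),
      (qJets m c r₀ r j wv pv Nv).P K (σ₀ / 8) J F A uu →
      (qJet m ((range r).image c) k j w₁ p₁ N₁).P K (σ₀ / 8) J F A u →
      (qJet m ((range r).image c) k j w₂ p₂ N₂).P K (σ₀ / 8) J F A u' →
      ∃ (V : Type) (z : F.Ω → V), Cl2 (f J F) (vg w J F) A z ∧
        CH (Pool.Agent.H49.Ent.cond F.p A True) u' (fun ω => ((uu ω, u ω), (z ω, y J F ω))) ≤
          (h + κ + σ₀) * J) := by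
  classical
  have hr := hch.hr
  have hw0 := hch.w0
  have hwu0 := hch.wu0
  have hu01 := hch.u0
  have hw1 : w < 1 := by linarith
  have hu00 : 0 ≤ u₀ := by linarith
  have hj0 : (0 : ℝ) ≤ j := Nat.cast_nonneg j
  have hr0 : (0 : ℝ) ≤ r := Nat.cast_nonneg r
  have hK0 : (0 : ℝ) ≤ K := Nat.cast_nonneg K
  -- the numbers
  obtain ⟨ε, hε⟩ : ∃ ε : ℝ, ε = σ₀ / (8 * ((j : ℝ) + 1)) := ⟨_, rfl⟩
  have hε0 : 0 < ε := by rw [hε]; positivity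
  have hε1 : ((j : ℝ) + 1) * ε ≤ σ₀ / 8 := by
    rw [hε]
    refine le_of_eq ?_
    field_simp
  obtain ⟨υ, hυ⟩ : ∃ υ : ℝ, υ = min ε ((p₀ - u₀) / 2) := ⟨_, rfl⟩
  have hυ0 : 0 < υ := by rw [hυ]; exact lt_min hε0 (by linarith)
  have hυ1 : υ ≤ ε := by rw [hυ]; exact min_le_left _ _
  have hυ2 : υ ≤ (p₀ - u₀) / 2 := by rw [hυ]; exact min_le_right _ _
  have hε8 : ε ≤ σ₀ / 8 := by
    refine le_trans ?_ hε1
    exact le_mul_of_one_le_left hε0.le (by linarith)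
  obtain ⟨u₂, hu₂⟩ : ∃ u₂ : ℝ, u₂ = u₀ + υ := ⟨_, rfl⟩
  have hu02 : u₀ < u₂ := by linarith
  have hu2p : u₂ < p₀ := by linarith
  have hu21 : u₂ < 1 := by linarith
  have hu20 : 0 ≤ u₂ := by linarith
  obtain ⟨Kc, d, hd, hnb⟩ := nbx_cls htm hch hu02 hu21 K hε0 (show 0 < σ₀ / 8 by linarith)
  obtain ⟨K', hK'⟩ : ∃ K', K' = (range r).sup Kc := ⟨_, rfl⟩
  obtain ⟨C, hC, hpt⟩ := jetN_pt m r K K' j
  have hC0 : 0 ≤ C := by linarith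
  obtain ⟨Λ, hΛ⟩ : ∃ Λ : ℝ, Λ = min lam (p₀ - u₂) := ⟨_, rfl⟩
  have hΛ0 : 0 < Λ := by rw [hΛ]; exact lt_min hlam (by linarith)
  have hΛ1 : Λ ≤ lam := by rw [hΛ]; exact min_le_left _ _
  have hΛ2 : Λ ≤ p₀ - u₂ := by rw [hΛ]; exact min_le_right _ _
  have hΛ3 : min lam (p₀ - u₀) - σ₀ / 8 ≤ Λ := by
    rw [hΛ]
    refine le_min ?_ ?_
    · have := min_le_left lam (p₀ - u₀)
      linarith
    · have := min_le_right lam (p₀ - u₀)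
      linarith
  have hν : ∃ ν : ℝ, 0 < ν ∧ ν ≤ Λ ∧ ∀ l < r, r₀ ≤ l → ν ≤ lv l := by
    have key : ∀ n ≤ r, ∃ ν : ℝ, 0 < ν ∧ ν ≤ Λ ∧ ∀ l < n, r₀ ≤ l → ν ≤ lv l := by
      intro n
      induction n with
      | zero =>
        intro _
        exact ⟨Λ, hΛ0, le_rfl, fun l hl => absurd hl (Nat.not_lt_zero l)⟩
      | succ n ih =>
        intro hn
        obtain ⟨ν, a1, a2, a3⟩ := ih (by omega)
        by_cases hn0 : r₀ ≤ n
        · refine ⟨min ν (lv n), lt_min a1 (hlv n hn0 (by omega)), (min_le_left _ _).trans a2,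
            fun l hl hl0 => ?_⟩
          rcases Nat.lt_or_ge l n with h4 | h4
          · exact (min_le_left _ _).trans (a3 l h4 hl0)
          · rw [show l = n by omega]
            exact min_le_right _ _
        · exact ⟨ν, a1, a2, fun l hl hl0 => a3 l (by omega) hl0⟩
    exact key r le_rfl
  obtain ⟨ν, hν0, hνΛ, hνl⟩ := hν
  obtain ⟨NE, hNE⟩ : ∃ NE : ℝ, NE = 2 * (r * (j + 1)) + 1 := ⟨_, rfl⟩
  have hNE0 : 0 < NE := by rw [hNE]; positivity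
  obtain ⟨η, hη⟩ : ∃ η : ℝ, η = min 1 (h / (2 * NE * ((K : ℝ) + 1))) := ⟨_, rfl⟩
  have hη0 : 0 < η := by rw [hη]; exact lt_min one_pos (by positivity)
  have hη1 : η ≤ 1 := by rw [hη]; exact min_le_left _ _
  have hηK : NE * η * K ≤ h / 2 := by
    have e1 : η ≤ h / (2 * NE * ((K : ℝ) + 1)) := by rw [hη]; exact min_le_right _ _
    have e2 : NE * η * K ≤ NE * (h / (2 * NE * ((K : ℝ) + 1))) * K :=
      mul_le_mul_of_nonneg_right (mul_le_mul_of_nonneg_left e1 hNE0.le) hK0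
    have e3 : NE * (h / (2 * NE * ((K : ℝ) + 1))) * K = h / 2 * (K / ((K : ℝ) + 1)) := by
      field_simp
    have e4 : (K : ℝ) / ((K : ℝ) + 1) ≤ 1 := by
      rw [div_le_one (by positivity)]
      linarith
    rw [e3] at e2
    have e5 := mul_le_mul_of_nonneg_left e4 (show 0 ≤ h / 2 by linarith)
    linarith
  -- the limits
  obtain ⟨J₁, hJ₁⟩ := E_big (a := 5 * σ₀ / 8) (C := 128 * C * (r + 1)) (by linarith)
  obtain ⟨J₂, hJ₂⟩ := E_big (a := ν) (C := 64 * ((j : ℝ) + 1) * (r + 1)) hν0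
  obtain ⟨J₃, hJ₃⟩ := E_big (a := σ₀) (C := 2) hσ₀
  obtain ⟨J₄, hJ₄⟩ := E_big (a := σ₀ / 2) (C := 64 * C * (r + 1) * 4 ^ j) (by linarith)
  obtain ⟨J₅, hJ₅⟩ := exists_nat_ge ((Real.log 2 + Real.log 7) / (h / 2))
  have hownA : Bas S (fun J F A => ∀ i < r, ∀ j' < j + 1, ∀ (P : ℕ) (V : Type) (z : PtT F → V)
      (z' : LnT F → V) (G : V → MvPolynomial (Option (Fin m)) ℝ),
      LbP F ((range i).image c) (c i) (Kc i) J ⌊w * J⌋₊ P A z z' G →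
      Pb (Pool.Agent.H49.Ent.cond F.p A True) (fun ω =>
        ¬ |ojet F (c i) j' (G (z' (slam F ⌊w * J⌋₊ ω))) ω| ≤
          2 ^ ((ε + j' * w) * J) * (1 / 2 ^ P)) ≤ η) :=
    Bas.all r fun i _ => Bas.all (j + 1) fun j' _ =>
      own_cls htm ((range i).image c) (c i) j' (Kc i) hw0 hw1 hη0 hε0
  refine Bas.mono (J₁ + J₂ + J₃ + J₄ + J₅ + 1) ((hnb η hη0 hη1).and (hownA.and
    (tmc_bas htm one_pos))) ?_
  rintro J hJ F A ⟨⟨V, z, z', g, hlab, hg0, hgc, hbox⟩, hown, hA, -⟩ uu u u' ⟨huu, -⟩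
    ⟨-, V₁, z₁, z₁', G₁, hl₁, hu₁⟩ ⟨hcu, V₂, z₂, z₂', G₂, hl₂, hu₂'⟩
  have hJ0 : (0 : ℝ) ≤ J := Nat.cast_nonneg J
  have hJpos : 1 ≤ J := by omega
  have f1 := hJ₁ J (by omega)
  have f2 := hJ₂ J (by omega)
  have f3 := hJ₃ J (by omega)
  have f4 := hJ₄ J (by omega)
  have f5 : Real.log 2 + Real.log 7 ≤ h / 2 * J := by
    have e1 : (J₅ : ℝ) ≤ J := by exact_mod_cast (show J₅ ≤ J by omega)
    have e2 := hJ₅.trans e1
    rw [div_le_iff₀ (by positivity)] at e2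
    linarith
  -- the windows
  have hwJ : ⌊w * J⌋₊ ≤ J := floor_le hw1.le J
  have hw1J : ⌊w₁ * J⌋₊ ≤ ⌊w * J⌋₊ := Nat.floor_le_floor (mul_le_mul_of_nonneg_right hw₁ hJ0)
  have hw2J : ⌊w₂ * J⌋₊ ≤ ⌊w * J⌋₊ := Nat.floor_le_floor (mul_le_mul_of_nonneg_right hw₂ hJ0)
  have hUJ : ⌊u₂ * J⌋₊ < J := by
    have e1 : ((⌊u₂ * J⌋₊ : ℕ) : ℝ) ≤ u₂ * J := Nat.floor_le (by positivity)
    have e2 : (1 : ℝ) ≤ J := by exact_mod_cast hJpos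
    have e3 : u₂ * J < 1 * J := mul_lt_mul_of_pos_right hu21 (by linarith)
    have e4 : ((⌊u₂ * J⌋₊ : ℕ) : ℝ) < J := by linarith
    exact_mod_cast e4
  -- the labels of the coordinate `k`
  have hl₁' := hl₁.win hw1J hwJ
  have hl₂' := hl₂.win hw2J hwJ
  obtain ⟨y₁, hy₁⟩ : ∃ y₁ : LnT F → V₁, y₁ = fun s =>
    z₁' (s.1, s.2.1, s.2.2 / 2 ^ (⌊w * J⌋₊ - ⌊w₁ * J⌋₊)) := ⟨_, rfl⟩
  obtain ⟨y₂, hy₂⟩ : ∃ y₂ : LnT F → V₂, y₂ = fun s =>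
    z₂' (s.1, s.2.1, s.2.2 / 2 ^ (⌊w * J⌋₊ - ⌊w₂ * J⌋₊)) := ⟨_, rfl⟩
  rw [← hy₁] at hl₁'
  rw [← hy₂] at hl₂'
  have g1 : ∀ ω, y₁ (slam F ⌊w * J⌋₊ ω) = z₁' (slam F ⌊w₁ * J⌋₊ ω) := fun ω => by
    rw [hy₁]
    show z₁' ((slam F ⌊w * J⌋₊ ω).1, (slam F ⌊w * J⌋₊ ω).2.1,
      (slam F ⌊w * J⌋₊ ω).2.2 / 2 ^ (⌊w * J⌋₊ - ⌊w₁ * J⌋₊)) = _
    rw [← slam_coarse F hw1J hwJ ω]
  have g2 : ∀ ω, y₂ (slam F ⌊w * J⌋₊ ω) = z₂' (slam F ⌊w₂ * J⌋₊ ω) := fun ω => by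
    rw [hy₂]
    show z₂' ((slam F ⌊w * J⌋₊ ω).1, (slam F ⌊w * J⌋₊ ω).2.1,
      (slam F ⌊w * J⌋₊ ω).2.2 / 2 ^ (⌊w * J⌋₊ - ⌊w₂ * J⌋₊)) = _
    rw [← slam_coarse F hw2J hwJ ω]
  -- the labels of the chain
  have hex : ∀ i j' : ℕ, ∃ (a : PtT F → MvPolynomial (Option (Fin m)) ℝ)
      (a' : LnT F → MvPolynomial (Option (Fin m)) ℝ),
      (∀ ω, A ω → a (ptr F J ω) = a' (slam F ⌊w * J⌋₊ ω)) ∧
      (r₀ ≤ i → i < r → j' ≤ j → LbP F ((range i).image c) (c i) K J ⌊w * J⌋₊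
        ⌊(pv i j' - σ₀ / 8) * J⌋₊ A a a' (nfp K ((range i).image c)) ∧
        (∀ s, nfp K ((range i).image c) (a' s) = a' s) ∧
        ∀ ω, A ω → uu ω i j' = ⌊(2 : ℝ) ^ (Nv i j' * J) *
          ojet F (c i) j' (a' (slam F ⌊w * J⌋₊ ω)) ω⌋) := by
    intro i j'
    by_cases hin : r₀ ≤ i ∧ i < r ∧ j' ≤ j
    · obtain ⟨-, Va, za, za', Ga, hla, hua⟩ := huu i hin.1 hin.2.1 j' hin.2.2
      have hwi : ⌊wv i j' * J⌋₊ ≤ ⌊w * J⌋₊ := Nat.floor_le_floor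
        (mul_le_mul_of_nonneg_right (hwv i hin.1 hin.2.1 j' hin.2.2) hJ0)
      have hla' := LbP.nfp (hla.win hwi hwJ)
      refine ⟨_, _, hla'.1.cls, fun _ _ _ => ⟨hla'.1, fun s => hla'.2 _, fun ω hω => ?_⟩⟩
      have e1 : za' ((slam F ⌊w * J⌋₊ ω).1, (slam F ⌊w * J⌋₊ ω).2.1,
          (slam F ⌊w * J⌋₊ ω).2.2 / 2 ^ (⌊w * J⌋₊ - ⌊wv i j' * J⌋₊)) =
          za' (slam F ⌊wv i j' * J⌋₊ ω) := by
        rw [← slam_coarse F hwi hwJ ω]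
      simp only [e1]
      exact hua ω hω
    · exact ⟨fun _ => 0, fun _ => 0, fun _ _ => rfl, fun a b c => absurd ⟨a, b, c⟩ hin⟩
  choose a a' hacl hain using hex
  have hadep : ∀ i, r₀ ≤ i → i < r → ∀ j' ≤ j, ∀ s, DepN c i (a' i j' s) ∧
      (a' i j' s).totalDegree ≤ K := by
    intro i hi0 hi j' hj' s
    obtain ⟨b1, b2, -⟩ := hain i j' hi0 hi hj'
    rw [← b2 s]
    refine ⟨fun x x' e1 e2 => b1.dep _ x x' e1 fun l hl => ?_, b1.deg _⟩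
    obtain ⟨l', hl', rfl⟩ := mem_image.1 hl
    exact e2 l' (mem_range.1 hl')
  have hgdep : ∀ i, r₀ ≤ i → i < r → ∀ v, DepN c i (g v i) := by
    intro i hi0 hi v x x' e1 e2
    refine (hlab i hi0 hi).dep v x x' e1 fun l hl => ?_
    obtain ⟨l', hl', rfl⟩ := mem_image.1 hl
    exact e2 l' (mem_range.1 hl')
  have hgdeg : ∀ i < r, ∀ v, (g v i).totalDegree ≤ K' := by
    intro i hi v
    rcases Nat.lt_or_ge i r₀ with h' | h'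
    · rw [hg0 v i (Or.inl h'), totalDegree_zero]
      exact Nat.zero_le _
    · rw [hK']
      exact ((hlab i h' hi).deg v).trans (Finset.le_sup (f := Kc) (mem_range.2 hi))
  have hG12 : ∀ v₁ v₂, DepN c r (G₁ v₁ - G₂ v₂) ∧ (G₁ v₁ - G₂ v₂).totalDegree ≤ K := by
    intro v₁ v₂
    refine ⟨fun x x' e1 e2 => ?_, (totalDegree_sub _ _).trans (max_le (hl₁.deg _) (hl₂.deg _))⟩
    have e3 : ∀ i ∈ (range r).image c, x (some i) = x' (some i) := by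
      intro i hi
      obtain ⟨l, hl, rfl⟩ := mem_image.1 hi
      exact e2 l (mem_range.1 hl)
    rw [map_sub, map_sub, hl₁.dep _ x x' e1 e3, hl₂.dep _ x x' e1 e3]
  -- the bad events
  have hq := isLaw_cond F.isLaw hA
  have h0 := hq.nonneg
  obtain ⟨gg, hgg⟩ : ∃ gg : ℕ → ℕ, gg = fun i => ⌊(s i - d i) * J⌋₊ := ⟨_, rfl⟩
  obtain ⟨bad1, hbad1⟩ : ∃ bad1 : ℕ → ℕ → F.Ω → Prop, bad1 = fun i j' ω =>
    (r₀ ≤ i ∧ j' ≤ j) ∧ ¬ ∀ x, NB F c r₀ i ⌊u₂ * J⌋₊ (fun i => 2 / 2 ^ gg i)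
        (g (z' (slam F ⌊w * J⌋₊ ω))) ω x →
      |eval x (a' i j' (slam F ⌊w * J⌋₊ ω) - g (z' (slam F ⌊w * J⌋₊ ω)) i)| ≤
        2 ^ (ε * J) * (1 / 2 ^ ⌊(pv i j' - σ₀ / 8) * J⌋₊ + 1 / 2 ^ gg i) := ⟨_, rfl⟩
  obtain ⟨bad2, hbad2⟩ : ∃ bad2 : ℕ → ℕ → F.Ω → Prop, bad2 = fun i j' ω =>
    r₀ ≤ i ∧ ¬ |ojet F (c i) j' (g (z' (slam F ⌊w * J⌋₊ ω)) i) ω| ≤
      2 ^ ((ε + j' * w) * J) * (1 / 2 ^ gg i) := ⟨_, rfl⟩
  obtain ⟨bad3, hbad3⟩ : ∃ bad3 : F.Ω → Prop, bad3 = fun ω =>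
    ¬ ∀ x, NB F c r₀ r ⌊u₂ * J⌋₊ (fun i => 2 / 2 ^ gg i)
        (g (z' (slam F ⌊w * J⌋₊ ω))) ω x →
      |eval x (G₁ (y₁ (slam F ⌊w * J⌋₊ ω)) - G₂ (y₂ (slam F ⌊w * J⌋₊ ω)))| ≤
        2 ^ (ε * J) * (1 / 2 ^ ⌊(p₁ - σ₀ / 8) * J⌋₊ + 1 / 2 ^ ⌊(p₂ - σ₀ / 8) * J⌋₊) := ⟨_, rfl⟩
  have hP1 : ∀ i < r, ∀ j' < j + 1, Pb (Pool.Agent.H49.Ent.cond F.p A True) (bad1 i j') ≤ η := by
    intro i hi j' hj'
    by_cases hi0 : r₀ ≤ i
    · obtain ⟨b1, b2, -⟩ := hain i j' hi0 hi (by omega)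
      have b3 := hbox i hi0 hi.le (c i) (max K (Kc i)) ⌊(pv i j' - σ₀ / 8) * J⌋₊
        ⌊(s i - d i) * J⌋₊ _ _ _ _ _ _ _ _ (by rw [if_pos hi])
        (b1.mono (Finset.Subset.refl _) (le_max_left _ _) le_rfl)
        ((LbP.of (hlab i hi0 hi)).mono (Finset.Subset.refl _) (le_max_right _ _) le_rfl)
      refine le_trans (Pb_mono25 h0 fun ω hω hn => ?_) b3
      rw [hbad1] at hn
      intro hall
      refine hn.2 fun x hx => ?_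
      rw [hgg] at hx ⊢
      have b4 := hall x hx
      rw [b2] at b4
      exact b4
    · refine le_trans (Pb_mono25 h0 (B := fun _ => False) fun ω hω hn => ?_) (le_of_eq_of_le ?_
        hη0.le)
      · rw [hbad1] at hn
        exact hi0 hn.1.1
      · unfold Pb
        simp
  have hP2 : ∀ i < r, ∀ j' < j + 1, Pb (Pool.Agent.H49.Ent.cond F.p A True) (bad2 i j') ≤ η := by
    intro i hi j' hj'
    by_cases hi0 : r₀ ≤ i
    · have b3 := hown i hi j' hj' _ _ _ _ _ (LbP.of (hlab i hi0 hi))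
      refine le_trans (Pb_mono25 h0 fun ω hω hn => ?_) b3
      rw [hbad2, hgg] at hn
      exact hn.2
    · refine le_trans (Pb_mono25 h0 (B := fun _ => False) fun ω hω hn => ?_) (le_of_eq_of_le ?_
        hη0.le)
      · rw [hbad2] at hn
        exact hi0 hn.1
      · unfold Pb
        simp
  have hP3 : Pb (Pool.Agent.H49.Ent.cond F.p A True) bad3 ≤ η := by
    have b3 := hbox r hr le_rfl k K ⌊(p₁ - σ₀ / 8) * J⌋₊ ⌊(p₂ - σ₀ / 8) * J⌋₊ V₁ V₂ z₁ y₁ G₁ z₂ y₂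
      G₂ (le_max_left _ _) hl₁' hl₂'
    rw [hbad3, hgg]
    exact b3
  obtain ⟨Bad, hBad⟩ : ∃ Bad : F.Ω → Prop, Bad = fun ω => (∃ i < r, ∃ j' < j + 1, bad1 i j' ω) ∨
    ((∃ i < r, ∃ j' < j + 1, bad2 i j' ω) ∨ bad3 ω) := ⟨_, rfl⟩
  have hPB : Pb (Pool.Agent.H49.Ent.cond F.p A True) Bad ≤ NE * η := by
    rw [hBad]
    have b1 : Pb (Pool.Agent.H49.Ent.cond F.p A True)
        (fun ω => ∃ i < r, ∃ j' < j + 1, bad1 i j' ω) ≤ r * (((j + 1 : ℕ) : ℝ) * η) :=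
      Pb_ex25 h0 (fun i ω => ∃ j' < j + 1, bad1 i j' ω) r fun i hi =>
        Pb_ex25 h0 (fun j' ω => bad1 i j' ω) (j + 1) fun j' hj' => hP1 i hi j' hj'
    have b2 : Pb (Pool.Agent.H49.Ent.cond F.p A True)
        (fun ω => ∃ i < r, ∃ j' < j + 1, bad2 i j' ω) ≤ r * (((j + 1 : ℕ) : ℝ) * η) :=
      Pb_ex25 h0 (fun i ω => ∃ j' < j + 1, bad2 i j' ω) r fun i hi =>
        Pb_ex25 h0 (fun j' ω => bad2 i j' ω) (j + 1) fun j' hj' => hP2 i hi j' hj'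
    refine (Pb_or25 h0 _ _).trans ?_
    have b4 := Pb_or25 h0 (fun ω => ∃ i < r, ∃ j' < j + 1, bad2 i j' ω) bad3
    push_cast at b1 b2
    rw [hNE]
    linarith
  -- the closed quantity and the value
  obtain ⟨φ, hφ⟩ := hy J F
  obtain ⟨Zc, hZc⟩ : ∃ Zc : F.Ω → (ℕ → MvPolynomial (Option (Fin m)) ℝ) ×
      ((ℕ → ℕ → MvPolynomial (Option (Fin m)) ℝ) × (MvPolynomial (Option (Fin m)) ℝ ×
        MvPolynomial (Option (Fin m)) ℝ)), Zc = fun ω => (g (z' (slam F ⌊w * J⌋₊ ω)),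
      ((fun i j' => a' i j' (slam F ⌊w * J⌋₊ ω)), (G₁ (y₁ (slam F ⌊w * J⌋₊ ω)),
        G₂ (y₂ (slam F ⌊w * J⌋₊ ω))))) := ⟨_, rfl⟩
  obtain ⟨κf, hκf⟩ : ∃ κf : ((ℕ → ℕ → ℤ) × ℤ) × (((ℕ → MvPolynomial (Option (Fin m)) ℝ) ×
      ((ℕ → ℕ → MvPolynomial (Option (Fin m)) ℝ) × (MvPolynomial (Option (Fin m)) ℝ ×
        MvPolynomial (Option (Fin m)) ℝ))) × γ J F) → ℝ, κf = fun W =>
      2 ^ (N₂ * J) * ((W.1.2 : ℝ) / 2 ^ (N₁ * J) + apv c j W.2.1.1 (((φ W.2.2).1 : ℝ) / 2 ^ J)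
        (fjt c r₀ ⌊p₀ * J⌋₊ ⌊lam * J⌋₊ (fun i j' => Nv i j' * J) (φ W.2.2).2.1 (φ W.2.2).2.2 W.1.1)
        (djt r₀ r j W.2.1.2.1 W.2.1.1) r (W.2.1.2.2.1 - W.2.1.2.2.2)) := ⟨_, rfl⟩
  refine ⟨_, Zc, ⟨?_, ?_⟩, ?_⟩
  · obtain ⟨ψ, hψ⟩ := hf J F
    refine ⟨fun x => (g (z (ψ x)), ((fun i j' => a i j' (ψ x)), (G₁ (z₁ (ψ x)),
      G₂ (z₂ (ψ x))))), fun ω hω => ?_⟩
    rw [hZc]
    show (g (z' (slam F ⌊w * J⌋₊ ω)),
      ((fun i j' => a' i j' (slam F ⌊w * J⌋₊ ω)), (G₁ (y₁ (slam F ⌊w * J⌋₊ ω)),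
        G₂ (y₂ (slam F ⌊w * J⌋₊ ω))))) = (g (z (ψ (f J F ω))),
      ((fun i j' => a i j' (ψ (f J F ω))), (G₁ (z₁ (ψ (f J F ω))), G₂ (z₂ (ψ (f J F ω))))))
    rw [← hψ ω, hgc ω hω, hl₁'.cls ω hω, hl₂'.cls ω hω]
    refine Prod.ext rfl (Prod.ext ?_ rfl)
    funext i j'
    exact (hacl i j' ω hω).symm
  · exact ⟨fun s => (g (z' s), ((fun i j' => a' i j' s), (G₁ (y₁ s), G₂ (y₂ s)))),
      fun ω _ => by rw [hZc]; rfl⟩
  have key := CH_near hq u' (fun ω => ((uu ω, u ω), (Zc ω, y J F ω))) κf Bad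
    (M := K * J) (D := 3 * 2 ^ ((κ + σ₀) * J)) hPB (by positivity) (by positivity)
    (le_trans (by exact_mod_cast cnt_cond_le F.isLaw u' A) hcu) ?_
  · refine key.trans ?_
    have e1 : (1 : ℝ) ≤ 2 ^ ((κ + σ₀) * J) := E_one hκ
    have e2 : 2 * (3 * (2 : ℝ) ^ ((κ + σ₀) * J)) + 1 ≤ 7 * 2 ^ ((κ + σ₀) * J) := by linarith
    have e3 := Real.log_le_log (by positivity) e2
    rw [Real.log_mul (by norm_num) (by positivity), ← exp_p2, Real.log_exp] at e3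
    have e4 : (κ + σ₀) * J * Real.log 2 ≤ (κ + σ₀) * J * 1 :=
      mul_le_mul_of_nonneg_left (by
        have := Real.log_two_lt_d9
        linarith) (mul_nonneg hκ hJ0)
    have e5 : NE * η * (K * J) ≤ h / 2 * J := by
      calc NE * η * (K * J) = NE * η * K * J := by ring
        _ ≤ h / 2 * J := mul_le_mul_of_nonneg_right hηK hJ0
    rw [← exp_p2]
    linarith
  -- the good points
  intro ω hω hgood
  have hωA : A ω := of_cond_pos hω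
  rw [hBad] at hgood
  push Not at hgood
  obtain ⟨hg1, hg2, hg3⟩ := hgood
  obtain ⟨sl, hsl⟩ : ∃ sl, sl = slam F ⌊w * J⌋₊ ω := ⟨_, rfl⟩
  obtain ⟨σf, hσf⟩ : ∃ σf : ℕ → ℝ, σf = fun i => if i < r₀ then 16 * 2 ^ (-Λ * J) else
    2 ^ (-lv i * J) := ⟨_, rfl⟩
  have hσb : ∀ i < r₀, σf i = 16 * 2 ^ (-Λ * J) := fun i hi => by rw [hσf]; exact if_pos hi
  have hσc : ∀ i, r₀ ≤ i → σf i = 2 ^ (-lv i * J) := fun i hi => by
    rw [hσf]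
    exact if_neg (not_lt.2 hi)
  have hσ0 : ∀ i, 0 < σf i := by
    intro i
    rcases Nat.lt_or_ge i r₀ with h' | h'
    · rw [hσb i h']
      have := E_pos J (-Λ)
      positivity
    · rw [hσc i h']
      exact E_pos J _
  have hEΛ := E_pos J (-Λ)
  obtain ⟨τf, hτf⟩ : ∃ τf : ℕ → ℝ, τf = fun i => 16 * 2 ^ (-Λ * J) + ∑ l ∈ range i, σf l :=
    ⟨_, rfl⟩
  have hτ0 : ∀ i, 0 < τf i := fun i => by
    rw [hτf]
    have := Finset.sum_nonneg (s := range i) fun l _ => (hσ0 l).le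
    show 0 < 16 * (2 : ℝ) ^ (-Λ * J) + ∑ l ∈ range i, σf l
    linarith
  have hτσ : ∀ i, ∀ l < i, σf l ≤ τf i := fun i l hl => by
    have e1 := Finset.single_le_sum (f := σf) (s := range i) (fun l _ => (hσ0 l).le)
      (mem_range.2 hl)
    rw [hτf]
    show σf l ≤ 16 * (2 : ℝ) ^ (-Λ * J) + ∑ l ∈ range i, σf l
    linarith
  -- the sizes of the terms
  have hterm : ∀ l < r, σf l ≤ 16 * 2 ^ (-ν * J) := by
    intro l hl
    rcases Nat.lt_or_ge l r₀ with h' | h'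
    · rw [hσb l h']
      exact mul_le_mul_of_nonneg_left (E_mono J (by linarith)) (by norm_num)
    · rw [hσc l h']
      have e1 := E_mono J (show -lv l ≤ -ν by linarith [hνl l hl h'])
      have e2 := E_pos J (-ν)
      linarith
  have hτ1 : ∀ i ≤ r, 4 * ((j : ℝ) + 1) * τf i ≤ 1 := by
    intro i hi
    have e1 : 64 * ((j : ℝ) + 1) * 2 ^ (-ν * J) ≤ 1 / (r + 1) := by
      rw [le_div_iff₀ (by positivity)]
      have e2 := mul_le_mul_of_nonneg_right f2 (E_pos J (-ν)).le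
      rw [E_add] at e2
      have e3 : (ν + -ν) * (J : ℝ) = 0 := by ring
      rw [e3, Real.rpow_zero] at e2
      linarith
    have e2 := tau_le hi (σ := σf) (σb := 16 * 2 ^ (-Λ * J)) (Y := 4 * ((j : ℝ) + 1))
      (Z := 1 / (r + 1)) (by positivity) (by
        refine le_trans ?_ e1
        have e4 := E_mono J (show -Λ ≤ -ν by linarith)
        have e5 := mul_le_mul_of_nonneg_left e4 (show (0 : ℝ) ≤ 64 * (j + 1) by positivity)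
        linarith) (fun l hl => by
        refine le_trans ?_ e1
        have e4 := hterm l (by omega)
        have e5 := mul_le_mul_of_nonneg_left e4 (show (0 : ℝ) ≤ 4 * (j + 1) by positivity)
        linarith)
    rw [hτf]
    refine e2.trans (le_of_eq ?_)
    field_simp
  have hσX : ∀ l, r₀ ≤ l → σf l ≤ 16 * 2 ^ (-(lv l - σ₀ / 8) * J) := by
    intro l hl
    rw [hσc l hl]
    have e1 := E_mono J (show -lv l ≤ -(lv l - σ₀ / 8) by linarith)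
    have e2 := E_pos J (-(lv l - σ₀ / 8))
    linarith
  have hσY : 16 * (2 : ℝ) ^ (-Λ * J) ≤ 16 * 2 ^ (-(min lam (p₀ - u₀) - σ₀ / 8) * J) :=
    mul_le_mul_of_nonneg_left (E_mono J (by linarith)) (by norm_num)
  obtain ⟨M, hM⟩ : ∃ M : ℝ, M = 2 ^ (ε * J) := ⟨_, rfl⟩
  have hM1 : 1 ≤ M := by rw [hM]; exact E_one hε0.le
  have hd8 : ∀ i, r₀ ≤ i → i < r → d i ≤ σ₀ / 8 ∧ 0 < d i := fun i a b => ⟨(hd i a b).2,
    (hd i a b).1⟩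
  have hU4 : (2 : ℝ) ^ (u₂ * J) ≤ 4 * 2 ^ ⌊u₂ * J⌋₊ := E_floor_ge J u₂
  have hUle : (2 : ℝ) ^ ⌊u₂ * J⌋₊ ≤ 2 ^ (u₂ * J) := E_floor_le hu20
  have hgg' : ∀ i, r₀ ≤ i → i < r → (2 : ℝ) ^ (-s i * J) ≤ 1 / 2 ^ gg i := by
    intro i hi0 hi
    rw [hgg]
    exact E_inv_floor_ge (hch.s0 i hi0 hi).1 (by linarith [(hd8 i hi0 hi).2])
  have hpj := hpt J F ω c r₀ ⌊u₂ * J⌋₊ ⌊p₀ * J⌋₊ ⌊lam * J⌋₊ gg (g (z' sl))
    (fun i j' => a' i j' sl) (G₁ (y₁ sl) - G₂ (y₂ sl)) (uu ω) (fun i j' => Nv i j' * J) σf τf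
    (fun i j' => 2 ^ (ε * J) * (1 / 2 ^ ⌊(pv i j' - σ₀ / 8) * J⌋₊ + 1 / 2 ^ gg i)) M
    (2 ^ (ε * J) * (1 / 2 ^ ⌊(p₁ - σ₀ / 8) * J⌋₊ + 1 / 2 ^ ⌊(p₂ - σ₀ / 8) * J⌋₊)) hr hch.inj hUJ
    (fun i hi => hg0 _ i (Or.inl hi)) (fun i a b => hgdep i a b _) (fun i hi => hgdeg i hi _)
    (fun i a b j' hj' => (hadep i a b j' hj' _).1) (fun i a b j' hj' => (hadep i a b j' hj' _).2)
    (hG12 _ _).1 (hG12 _ _).2 hM1 (fun i _ => hτ0 i) hτ1 (fun i _ => hτσ i) (fun i _ => hσ0 i)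
    (fun i _ _ j' _ => by positivity) ?_ ?_ ?_ ?_ ?_ ?_ ?_ ?_
  · -- the end
    obtain ⟨o₁, ho₁⟩ : ∃ o, o = ojet F k j (G₁ (y₁ sl)) ω := ⟨_, rfl⟩
    obtain ⟨o₂, ho₂⟩ : ∃ o, o = ojet F k j (G₂ (y₂ sl)) ω := ⟨_, rfl⟩
    obtain ⟨jt, hjt⟩ : ∃ jt, jt = jet j (G₁ (y₁ sl) - G₂ (y₂ sl)) (bt F ω) (bd F ω) := ⟨_, rfl⟩
    have e1 : o₂ = o₁ + jt := by
      rw [ho₁, ho₂, hjt]
      exact ojet_sub F k j _ _ ω
    have e2 : u' ω = ⌊(2 : ℝ) ^ (N₂ * J) * o₂⌋ := by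
      rw [hu₂' ω hωA, ho₂, hsl, g2]
    have e3 : u ω = ⌊(2 : ℝ) ^ (N₁ * J) * o₁⌋ := by
      rw [hu₁ ω hωA, ho₁, hsl, g1]
    obtain ⟨av, hav⟩ : ∃ av, av = apv c j (g (z' sl)) ((F.T ω : ℝ) / 2 ^ J)
      (fjt c r₀ ⌊p₀ * J⌋₊ ⌊lam * J⌋₊ (fun i j' => Nv i j' * J) (fun i => F.X ⌊p₀ * J⌋₊ ω i)
        (fun i => F.D ⌊lam * J⌋₊ ω i) (uu ω)) (djt r₀ r j (fun i j' => a' i j' sl) (g (z' sl))) r
      (G₁ (y₁ sl) - G₂ (y₂ sl)) := ⟨_, rfl⟩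
    rw [← hav, ← hjt] at hpj
    have e4 : κf ((uu ω, u ω), (Zc ω, y J F ω)) =
        2 ^ (N₂ * J) * ((u ω : ℝ) / 2 ^ (N₁ * J) + av) := by
      rw [hκf, hav, hZc]
      show (2 : ℝ) ^ (N₂ * J) * ((u ω : ℝ) / 2 ^ (N₁ * J) + apv c j
        (g (z' (slam F ⌊w * J⌋₊ ω))) (((φ (y J F ω)).1 : ℝ) / 2 ^ J)
        (fjt c r₀ ⌊p₀ * J⌋₊ ⌊lam * J⌋₊ (fun i j' => Nv i j' * J) (φ (y J F ω)).2.1
          (φ (y J F ω)).2.2 (uu ω))
        (djt r₀ r j (fun i j' => a' i j' (slam F ⌊w * J⌋₊ ω)) (g (z' (slam F ⌊w * J⌋₊ ω)))) r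
        (G₁ (y₁ (slam F ⌊w * J⌋₊ ω)) - G₂ (y₂ (slam F ⌊w * J⌋₊ ω)))) = _
      rw [hφ ω, ← hsl]
      congr 3
      refine fjt_congr (fun i hi => ?_) (fun i hi => ?_) (uu ω)
      · exact if_pos (mem_image_of_mem c (mem_range.2 hi))
      · exact if_pos (mem_image_of_mem c (mem_range.2 hi))
    rw [e4]
    have hA2 := E_pos J N₂
    have hA1 := E_pos J N₁
    have b1 : |(u' ω : ℝ) - 2 ^ (N₂ * J) * o₂| ≤ 1 := by
      rw [e2]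
      have c1 := Int.floor_le ((2 : ℝ) ^ (N₂ * J) * o₂)
      have c2 := Int.lt_floor_add_one ((2 : ℝ) ^ (N₂ * J) * o₂)
      rw [abs_le]
      constructor <;> linarith
    have b2 : |(2 : ℝ) ^ (N₂ * J) * (o₁ - (u ω : ℝ) / 2 ^ (N₁ * J))| ≤ 1 := by
      have c1 := Int.floor_le ((2 : ℝ) ^ (N₁ * J) * o₁)
      have c2 := Int.lt_floor_add_one ((2 : ℝ) ^ (N₁ * J) * o₁)
      rw [← e3] at c1 c2
      have c3 : |(2 : ℝ) ^ (N₁ * J) * o₁ - u ω| ≤ 1 := by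
        rw [abs_le]
        constructor <;> linarith
      have c4 : (2 : ℝ) ^ (N₂ * J) * (o₁ - (u ω : ℝ) / 2 ^ (N₁ * J)) =
          2 ^ (N₂ * J) / 2 ^ (N₁ * J) * ((2 : ℝ) ^ (N₁ * J) * o₁ - u ω) := by
        field_simp
      rw [c4, abs_mul, abs_of_pos (by positivity)]
      have c5 : (2 : ℝ) ^ (N₂ * J) / 2 ^ (N₁ * J) ≤ 1 := by
        rw [div_le_one hA1]
        exact E_mono J hN
      calc (2 : ℝ) ^ (N₂ * J) / 2 ^ (N₁ * J) * |(2 : ℝ) ^ (N₁ * J) * o₁ - u ω| ≤ 1 * 1 :=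
            mul_le_mul c5 c3 (abs_nonneg _) zero_le_one
        _ = 1 := one_mul 1
    have b3 : |(2 : ℝ) ^ (N₂ * J) * (jt - av)| ≤ 2 ^ ((κ + σ₀) * J) := by
      rw [abs_mul, abs_of_pos hA2]
      obtain ⟨Z, hZ⟩ : ∃ Z : ℝ, Z = 64 * C * 2 ^ ((3 * σ₀ / 8 + κ - N₂ - j * u₀) * J) := ⟨_, rfl⟩
      have hEZ := E_pos J (3 * σ₀ / 8 + κ - N₂ - j * u₀)
      have hZ0 : 0 ≤ Z := by rw [hZ]; positivity
      have c1 := tau_le (r := r) (i := r) le_rfl (σ := σf) (σb := 16 * 2 ^ (-Λ * J))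
        (Y := C * M ^ j * (2 ^ (ε * J) * (1 / 2 ^ ⌊(p₁ - σ₀ / 8) * J⌋₊ +
          1 / 2 ^ ⌊(p₂ - σ₀ / 8) * J⌋₊))) (Z := Z) hZ0 (by
          rw [hM]
          refine (arith_core (μ := min p₁ p₂) hC0 (min_le_left _ _) (min_le_right _ _) le_rfl
            le_rfl hε1 (by positivity) hσY).trans ?_
          rw [hZ]
          exact mul_le_mul_of_nonneg_left (E_mono J (by linarith)) (by positivity))
        (fun l hl => by
          rw [hM]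
          rcases Nat.lt_or_ge l r₀ with h' | h'
          · rw [hσb l h']
            refine (arith_core (μ := min p₁ p₂) hC0 (min_le_left _ _) (min_le_right _ _) le_rfl
              le_rfl hε1 (by positivity) hσY).trans ?_
            rw [hZ]
            exact mul_le_mul_of_nonneg_left (E_mono J (by linarith)) (by positivity)
          · refine (arith_core (μ := min p₁ p₂) hC0 (min_le_left _ _) (min_le_right _ _) le_rfl
              le_rfl hε1 (hσ0 l).le (hσX l h')).trans ?_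
            rw [hZ]
            exact mul_le_mul_of_nonneg_left (E_mono J (by linarith [h3' l h' hl])) (by positivity))
      have c2 : (4 * (2 : ℝ) ^ ⌊u₂ * J⌋₊) ^ j ≤ 4 ^ j * 2 ^ (j * u₂ * J) := by
        rw [mul_pow, ← E_pow]
        exact mul_le_mul_of_nonneg_left (pow_le_pow_left₀ (by positivity) hUle j) (by positivity)
      have c3 : |jt - av| ≤ (r + 1) * Z * (4 ^ j * 2 ^ (j * u₂ * J)) := by
        refine hpj.trans (mul_le_mul ?_ c2 (by positivity) (by positivity))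
        refine le_trans (le_of_eq ?_) c1
        rw [hτf]
        ring
      have hju : (j : ℝ) * u₂ ≤ j * u₀ + σ₀ / 8 := by
        have d1 : (j : ℝ) * υ ≤ σ₀ / 8 := by
          refine le_trans ?_ hε1
          calc (j : ℝ) * υ ≤ j * ε := mul_le_mul_of_nonneg_left hυ1 hj0
            _ ≤ (j + 1) * ε := mul_le_mul_of_nonneg_right (by linarith) hε0.le
        rw [hu₂, mul_add]
        linarith
      calc (2 : ℝ) ^ (N₂ * J) * |jt - av|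
          ≤ 2 ^ (N₂ * J) * ((r + 1) * Z * (4 ^ j * 2 ^ (j * u₂ * J))) :=
            mul_le_mul_of_nonneg_left c3 hA2.le
        _ = 64 * C * (r + 1) * 4 ^ j * (2 ^ (N₂ * J) *
            2 ^ ((3 * σ₀ / 8 + κ - N₂ - j * u₀) * J) * 2 ^ (j * u₂ * J)) := by
            rw [hZ]
            ring
        _ = 64 * C * (r + 1) * 4 ^ j * 2 ^ ((3 * σ₀ / 8 + κ + (j * u₂ - j * u₀)) * J) := by
            rw [E_add, E_add]
            congr 2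
            ring
        _ ≤ 2 ^ (σ₀ / 2 * J) * 2 ^ ((σ₀ / 2 + κ) * J) := by
            refine mul_le_mul f4 (E_mono J (by linarith)) (E_pos J _).le (E_pos J _).le
        _ = 2 ^ ((κ + σ₀) * J) := by
            rw [E_add]
            congr 2
            ring
    have b4 : (1 : ℝ) ≤ 2 ^ ((κ + σ₀) * J) := E_one hκ
    have e5 : (u' ω : ℝ) - 2 ^ (N₂ * J) * ((u ω : ℝ) / 2 ^ (N₁ * J) + av) =
        ((u' ω : ℝ) - 2 ^ (N₂ * J) * o₂) + ((2 : ℝ) ^ (N₂ * J) * (o₁ - (u ω : ℝ) / 2 ^ (N₁ * J)) +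
          2 ^ (N₂ * J) * (jt - av)) := by
      rw [e1]
      ring
    rw [e5]
    refine (abs_add_le _ _).trans ?_
    have b5 := abs_add_le ((2 : ℝ) ^ (N₂ * J) * (o₁ - (u ω : ℝ) / 2 ^ (N₁ * J)))
      (2 ^ (N₂ * J) * (jt - av))
    linarith
  · -- the boxes
    intro i hi0 hi j' hj' x hx
    have b1 := hg1 i hi j' (by omega)
    rw [hbad1] at b1
    simp only [not_and, not_not] at b1
    rw [hsl] at hx ⊢
    exact b1 ⟨hi0, hj'⟩ x hx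
  · intro x hx
    rw [hbad3] at hg3
    simp only [not_not] at hg3
    rw [hsl] at hx ⊢
    exact hg3 x hx
  · intro i hi0 hi
    rw [hsl, hgg]
    exact (hlab i hi0 hi).pos ω hωA
  · -- the own jets
    intro i hi0 hi j' hj1 hj'
    have b1 := hg2 i hi j' (by omega)
    rw [hbad2] at b1
    simp only [not_and, not_not] at b1
    have b2 := b1 hi0
    rw [← hsl] at b2
    refine b2.trans ?_
    have b3 : (2 : ℝ) ^ ((ε + j' * w) * J) ≤ M * (4 * 2 ^ ⌊u₂ * J⌋₊) ^ j' := by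
      rw [← E_add, hM]
      refine mul_le_mul_of_nonneg_left ?_ (E_pos J _).le
      calc (2 : ℝ) ^ (j' * w * J) ≤ 2 ^ (j' * u₂ * J) :=
            E_mono J (mul_le_mul_of_nonneg_left (by linarith) (Nat.cast_nonneg j'))
        _ = (2 ^ (u₂ * J)) ^ j' := (E_pow J u₂ j').symm
        _ ≤ _ := pow_le_pow_left₀ (E_pos J _).le hU4 j'
    calc (2 : ℝ) ^ ((ε + j' * w) * J) * (1 / 2 ^ gg i)
        ≤ M * (4 * 2 ^ ⌊u₂ * J⌋₊) ^ j' * (1 / 2 ^ gg i) :=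
          mul_le_mul_of_nonneg_right b3 (by positivity)
      _ = M * (1 / 2 ^ gg i) * (4 * 2 ^ ⌊u₂ * J⌋₊) ^ j' := by ring
  · -- the base
    intro i hi
    rw [hσb i hi]
    have b1 := E_inv_floor J p₀
    calc 8 * (2 : ℝ) ^ ⌊u₂ * J⌋₊ / 2 ^ ⌊p₀ * J⌋₊
        = 8 * 2 ^ ⌊u₂ * J⌋₊ * (1 / 2 ^ ⌊p₀ * J⌋₊) := by ring
      _ ≤ 8 * 2 ^ (u₂ * J) * (2 * 2 ^ (-p₀ * J)) :=
        mul_le_mul (mul_le_mul_of_nonneg_left hUle (by norm_num)) b1 (by positivity)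
          (mul_nonneg (by norm_num) (E_pos J _).le)
      _ = 16 * (2 ^ (u₂ * J) * 2 ^ (-p₀ * J)) := by ring
      _ = 16 * 2 ^ ((u₂ + -p₀) * J) := by rw [E_add]
      _ ≤ 16 * 2 ^ (-Λ * J) := mul_le_mul_of_nonneg_left (E_mono J (by linarith)) (by norm_num)
  · intro i hi
    rw [hσb i hi]
    have b1 := E_inv_floor J lam
    have b2 := E_mono J (show -lam ≤ -Λ by linarith)
    have b3 : (2 : ℝ) / 2 ^ ⌊lam * J⌋₊ = 2 * (1 / 2 ^ ⌊lam * J⌋₊) := by ring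
    rw [b3]
    linarith
  · -- the digits of the jets
    intro i hi0 hi j' hj'
    obtain ⟨-, -, b1⟩ := hain i j' hi0 hi hj'
    rw [b1 ω hωA, ← hsl]
    obtain ⟨o, ho⟩ : ∃ o, o = ojet F (c i) j' (a' i j' sl) ω := ⟨_, rfl⟩
    rw [← ho]
    have hN0 := E_pos J (Nv i j')
    have c1 := Int.floor_le ((2 : ℝ) ^ (Nv i j' * J) * o)
    have c2 := Int.lt_floor_add_one ((2 : ℝ) ^ (Nv i j' * J) * o)
    have b2 : |((⌊(2 : ℝ) ^ (Nv i j' * J) * o⌋ : ℤ) : ℝ) / 2 ^ (Nv i j' * J) - o| ≤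
        2 ^ (-Nv i j' * J) := by
      have c3 : ((⌊(2 : ℝ) ^ (Nv i j' * J) * o⌋ : ℤ) : ℝ) / 2 ^ (Nv i j' * J) - o =
          (((⌊(2 : ℝ) ^ (Nv i j' * J) * o⌋ : ℤ) : ℝ) - 2 ^ (Nv i j' * J) * o) /
            2 ^ (Nv i j' * J) := by
        field_simp
      have c4 : (2 : ℝ) ^ (-Nv i j' * J) = 1 / 2 ^ (Nv i j' * J) := by
        rw [neg_mul, Real.rpow_neg (by norm_num), one_div]
      rw [c3, c4, abs_div, abs_of_pos hN0]
      refine div_le_div_of_nonneg_right ?_ hN0.le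
      rw [abs_le]
      constructor <;> linarith
    refine b2.trans ?_
    rw [hσc i hi0]
    have b3 := hgg' i hi0 hi
    have b4 := h1 i hi0 hi j' hj'
    have b5 : (2 : ℝ) ^ (-σ₀ * J) ≤ 1 / 2 := by
      rw [neg_mul, Real.rpow_neg (by norm_num), ← one_div]
      exact one_div_le_one_div_of_le (by norm_num) f3
    have b6 : (2 : ℝ) ^ (j' * u₂ * J) ≤ (4 * 2 ^ ⌊u₂ * J⌋₊) ^ j' := by
      rw [← E_pow]
      exact pow_le_pow_left₀ (E_pos J _).le hU4 j'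
    have hj'0 : (0 : ℝ) ≤ j' := Nat.cast_nonneg j'
    have b7 : (j' : ℝ) * u₀ ≤ j' * u₂ := mul_le_mul_of_nonneg_left hu02.le hj'0
    have e0 := E_pos J (-lv i)
    calc (2 : ℝ) ^ (-Nv i j' * J) ≤ 2 ^ ((-lv i + -s i + -σ₀ + j' * u₂) * J) :=
          E_mono J (by linarith)
      _ = 2 ^ (-lv i * J) * 2 ^ (-s i * J) * 2 ^ (-σ₀ * J) * 2 ^ (j' * u₂ * J) := by
          rw [E_add, E_add, E_add]
      _ ≤ 2 ^ (-lv i * J) * (1 / 2 ^ gg i) * (1 / 2) * (4 * 2 ^ ⌊u₂ * J⌋₊) ^ j' := by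
          refine mul_le_mul (mul_le_mul (mul_le_mul_of_nonneg_left b3 e0.le) b5
            (E_pos J _).le (by positivity)) b6 (E_pos J _).le (by positivity)
      _ = _ := by ring
  · -- the constants
    intro i hi0 hi j' hj'
    obtain ⟨Z, hZ⟩ : ∃ Z : ℝ, Z = 64 * C * 2 ^ ((-(s i + lv i) + -(5 * σ₀ / 8)) * J) := ⟨_, rfl⟩
    have hEZ := E_pos J (-(s i + lv i) + -(5 * σ₀ / 8))
    have hZ0 : 0 ≤ Z := by rw [hZ]; positivity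
    have a2 := h2 i hi0 hi j' hj'
    have c1 := tau_le (r := r) (i := i) hi.le (σ := σf) (σb := 16 * 2 ^ (-Λ * J))
      (Y := C * M ^ j * (2 ^ (ε * J) * (1 / 2 ^ ⌊(pv i j' - σ₀ / 8) * J⌋₊ +
        1 / 2 ^ ⌊(s i - d i) * J⌋₊))) (Z := Z) hZ0 (by
        rw [hM]
        refine (arith_core (μ := min (pv i j') (s i)) hC0 (min_le_left _ _) (min_le_right _ _)
          le_rfl (hd8 i hi0 hi).1 hε1 (by positivity) hσY).trans ?_
        rw [hZ]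
        exact mul_le_mul_of_nonneg_left (E_mono J (by linarith)) (by positivity))
      (fun l hl => by
        rw [hM]
        rcases Nat.lt_or_ge l r₀ with h' | h'
        · rw [hσb l h']
          refine (arith_core (μ := min (pv i j') (s i)) hC0 (min_le_left _ _) (min_le_right _ _)
            le_rfl (hd8 i hi0 hi).1 hε1 (by positivity) hσY).trans ?_
          rw [hZ]
          exact mul_le_mul_of_nonneg_left (E_mono J (by linarith)) (by positivity)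
        · refine (arith_core (μ := min (pv i j') (s i)) hC0 (min_le_left _ _) (min_le_right _ _)
            le_rfl (hd8 i hi0 hi).1 hε1 (hσ0 l).le (hσX l h')).trans ?_
          rw [hZ]
          exact mul_le_mul_of_nonneg_left (E_mono J (by linarith [h2' i hi0 hi j' hj' l h' hl]))
            (by positivity))
    have c2 : (r + 1) * Z * 2 ≤ 2 ^ (-lv i * J) * 2 ^ (-s i * J) := by
      have c3 : (2 : ℝ) ^ ((-(s i + lv i) + -(5 * σ₀ / 8)) * J) =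
          2 ^ (-lv i * J) * 2 ^ (-s i * J) * 2 ^ (-(5 * σ₀ / 8) * J) := by
        rw [E_add, E_add]
        congr 2
        ring
      have c4 : 128 * C * (r + 1) * 2 ^ (-(5 * σ₀ / 8) * J) ≤ 1 := by
        have c5 := mul_le_mul_of_nonneg_right f1 (E_pos J (-(5 * σ₀ / 8))).le
        rw [E_add] at c5
        have c6 : (5 * σ₀ / 8 + -(5 * σ₀ / 8)) * (J : ℝ) = 0 := by ring
        rw [c6, Real.rpow_zero] at c5
        exact c5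
      have e0 := E_pos J (-lv i)
      have e1 := E_pos J (-s i)
      calc (r + 1) * Z * 2 = 2 ^ (-lv i * J) * 2 ^ (-s i * J) *
            (128 * C * (r + 1) * 2 ^ (-(5 * σ₀ / 8) * J)) := by
            rw [hZ, c3]
            ring
        _ ≤ 2 ^ (-lv i * J) * 2 ^ (-s i * J) * 1 :=
          mul_le_mul_of_nonneg_left c4 (by positivity)
        _ = _ := mul_one _
    have c3 : (2 : ℝ) ^ (-lv i * J) * 2 ^ (-s i * J) ≤ σf i * (1 / 2 ^ gg i) := by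
      rw [hσc i hi0]
      exact mul_le_mul_of_nonneg_left (hgg' i hi0 hi) (E_pos J _).le
    have c4 : gg i = ⌊(s i - d i) * J⌋₊ := by rw [hgg]
    rw [← c4] at c1
    have c5 : 2 * (C * M ^ j * (2 ^ (ε * J) * (1 / 2 ^ ⌊(pv i j' - σ₀ / 8) * J⌋₊ + 1 / 2 ^ gg i) *
        τf i)) = (C * M ^ j * (2 ^ (ε * J) * (1 / 2 ^ ⌊(pv i j' - σ₀ / 8) * J⌋₊ + 1 / 2 ^ gg i)) *
        (16 * 2 ^ (-Λ * J) + ∑ l ∈ range i, σf l)) * 2 := by
      rw [hτf]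
      ring
    rw [c5]
    have c6 := mul_le_mul_of_nonneg_right c1 (show (0 : ℝ) ≤ 2 by norm_num)
    linarith

end Pool.LA91
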