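import Pool.Agent.H91.LA.Nst
import Pool.Agent.H91.LA.Nat
import Pool.Agent.H45.EXA.Nbc
import Pool.Agent.H72.EXW.Full

/-!
# Closed polynomials on nested natural boxes, for families

A chain of coordinates `c 0, c 1, …, c (r - 1)`: the first `r₀` are the base (full behind `u`
digits); the other ones have closed charts over all earlier coordinates and are full behind their
precisions, given the earlier coordinates exactly. `nbx_fam`: a closed polynomial which is small at
the own points is small on the natural boxes, outside a small event. The loss in the direction `l`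
depends on the degrees of the charts after `l` only.
-/

set_option autoImplicit false

namespace Pool.LA91

open Finset Real MvPolynomial
open Pool.Agent.H49.Ent Pool.Agent.H32.Dense Pool.STK Pool.KA Pool.KSAT Pool.K2S Pool.PB Pool.GEN
open Pool.S6C Pool.RCD
open Pool.GRD (LbP Pb_mono_pos)
open Pool.BFL (Pb)
open Pool.LIV (Pb_mono25 Pb_or25 Pb_ex25)
open Pool.GRW (uc uc_zero uc_succ uc_inj depU_of DepU DBx Cg kmx le_kmx one_le_Cg Cm Cg_le_Cm
  one_le_Cm Cm_mono xr xr_near off_full gall)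
open Pool.EXW (chain_le abs_floor_sub)
open Pool.PB.Trl (rt rt_mem t_rt)

variable {m J : ℕ}

theorem floor_xr (F : Fam m J) (ω : F.Ω) (i : Fin m) {n : ℕ} (hn : n ≤ J) :
    ⌊(2 : ℝ) ^ n * xr F ω (some i)⌋ = F.X n ω i := by
  show ⌊(2 : ℝ) ^ n * ((F.X J ω i : ℝ) / 2 ^ J)⌋ = ⌊(2 : ℝ) ^ n * F.x ω i⌋
  have h1 : (2 : ℝ) ^ n * ((F.X J ω i : ℝ) / 2 ^ J) = (F.X J ω i : ℝ) / ((2 ^ (J - n) : ℕ) : ℝ) := by
    have : (2 : ℝ) ^ J = 2 ^ n * 2 ^ (J - n) := by
      rw [← pow_add]
      congr 1
      omega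
    rw [this]
    push_cast
    field_simp
  have h2 : (2 : ℝ) ^ n * F.x ω i = ((2 : ℝ) ^ J * F.x ω i) / ((2 ^ (J - n) : ℕ) : ℝ) := by
    have : (2 : ℝ) ^ J = 2 ^ n * 2 ^ (J - n) := by
      rw [← pow_add]
      congr 1
      omega
    rw [this]
    push_cast
    field_simp
  rw [h1, h2, Int.floor_div_natCast, Int.floor_div_natCast, Int.floor_intCast]
  rfl

/-- The position of the samples of one line in one window. -/
theorem x_win (F : Fam m J) {u : ℕ} (hu : u ≤ J) {ω ω' : F.Ω} (h : slam F u ω = slam F u ω')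
    (i : Fin m) : |F.x ω i - F.x ω' i| ≤ 1 / 2 ^ u := by
  have h1 := eval_lc F hu ω (some i)
  have h2 := eval_lc F hu ω' (some i)
  rw [h] at h1
  have e1 : bt F ω (some i) = F.x ω i := rfl
  have e2 : bt F ω' (some i) = F.x ω' i := rfl
  rw [← e1, ← e2, ← h1, ← h2]
  simp only [lc, Polynomial.eval_add, Polynomial.eval_C, Polynomial.eval_mul, Polynomial.eval_X]
  have h3 := F.dir ω' i
  have e3 : (slam F u ω').1.2 i = F.d ω' i := rfl
  have r1 := rt_mem F u ω
  have r2 := rt_mem F u ω'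
  obtain ⟨a, ha⟩ : ∃ a, a = rt F u ω := ⟨_, rfl⟩
  obtain ⟨b, hb⟩ : ∃ b, b = rt F u ω' := ⟨_, rfl⟩
  rw [← ha] at r1 ⊢
  rw [← hb] at r2 ⊢
  have h4 : |a - b| ≤ 1 := by
    rw [abs_le]
    constructor <;> linarith [r1.1, r1.2, r2.1, r2.2]
  have hp : (0 : ℝ) < 2 ^ u := by positivity
  have h5 : ∀ p q s d : ℝ, (p + q * d + s * d * a) - (p + q * d + s * d * b) = s * d * (a - b) := by
    intro p q s d
    ring
  have key : ∀ (p d : ℝ), |d| ≤ 1 → |(p + 1 / 2 ^ u * d * a) - (p + 1 / 2 ^ u * d * b)| ≤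
      1 / 2 ^ u := by
    intro p d hd
    have e : (p + 1 / 2 ^ u * d * a) - (p + 1 / 2 ^ u * d * b) = 1 / 2 ^ u * (d * (a - b)) := by
      ring
    rw [e, abs_mul, abs_of_pos (by positivity : (0 : ℝ) < 1 / 2 ^ u)]
    have : |d * (a - b)| ≤ 1 := by
      rw [abs_mul]
      exact mul_le_one₀ hd (abs_nonneg _) h4
    calc (1 : ℝ) / 2 ^ u * |d * (a - b)| ≤ 1 / 2 ^ u * 1 :=
          mul_le_mul_of_nonneg_left this (by positivity)
      _ = 1 / 2 ^ u := mul_one _
  refine le_trans (le_of_eq ?_) (key ((slam F u ω').1.1 i + ((slam F u ω').2.2 : ℝ) / 2 ^ u *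
    (slam F u ω').1.2 i) ((slam F u ω').1.2 i) (by rw [e3]; exact h3))
  congr 1
  ring

/-- **A closed polynomial which is small at the own points is small on the natural boxes.** -/
theorem nbx_fam {r₀ r : ℕ} (hr : r₀ ≤ r) {F : Fam m J} {A : F.Ω → Prop} {q : F.Ω → ℝ}
    (hq : IsLaw q) (hqA : ∀ ω, 0 < q ω → A ω) {c : ℕ → Fin m} (hc : Set.InjOn c (Set.Iio r))
    {K e ρ g M : ℕ → ℕ} {w u L KD Mt : ℕ} {W : Type} {z : PtT F → W} {z' : LnT F → W}
    {G : W → ℕ → MvPolynomial (Option (Fin m)) ℝ} {D : W → MvPolynomial (Option (Fin m)) ℝ}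
    (hG : ∀ i, r₀ ≤ i → i < r → LbOK F ((range i).image c) (c i) (K i) (e i) J w (ρ i) (g i) A
      z z' (fun v => G v i))
    (hρ : ∀ i, r₀ ≤ i → i < r → ρ i ≤ J) (hDd : ∀ v, (D v).totalDegree ≤ KD)
    (hD : ∀ v, DepC c r (D v)) (hwu : w ≤ u) (hu : u + L ≤ J)
    (hgJ : ∀ i, r₀ ≤ i → i < r → g i + e i + m + 2 + L ≤ J)
    (hM : ∀ l i, r₀ ≤ l → l < i → i < r → K i ≤ M l) (hMD : ∀ l, KD ≤ M l)
    (hMt : ∀ i, r₀ ≤ i → i < r → K i ≤ Mt) (hMtD : KD ≤ Mt)
    {θ : ℕ → ℝ} (hθ : ∀ l, 0 ≤ θ l) {θt θb : ℝ} (hθt : 0 ≤ θt) (hθb : 0 ≤ θb)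
    (htime : (L : ℝ) * Real.log 2 - θt ≤ CH q (F.T1 (u + L)) (slam F u))
    (hbase : r₀ * (((J : ℝ) - u) * Real.log 2) - θb ≤
      CH q (fun ω (l : Fin r₀) => F.X J ω (c l))
        (fun ω => ((fun l : Fin r₀ => F.X u ω (c l)), z' (slam F w ω), F.W ω)))
    (hfull : ∀ i, r₀ ≤ i → i < r → ((J : ℝ) - g i) * Real.log 2 - θ i ≤
      CH q (fun ω => F.X J ω (c i))
        (fun ω => ((fun l' : Fin i => F.X J ω (c l')), z' (slam F w ω), F.W ω)))
    {τ η γ : ℝ} (hη : 0 < η) (hη1 : η ≤ 1) (hτ : 0 < τ)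
    (h1 : ∀ i, r₀ ≤ i → i < r → Cm (r + 1) (M i) * (θ i + 5) * (8 ^ r / η) ≤ γ)
    (h1b : Cm (r + 1) Mt * (θb + 2 * r + 1) * (8 ^ r / η) ≤ γ)
    (h1t : Cm (r + 1) Mt * (θt + 2 * r + 1) * (8 ^ r / η) ≤ γ)
    (hγL : γ ≤ L * Real.log 2)
    (hsm : ∀ ω, A ω → |eval (xr F ω) (D (z' (slam F w ω)))| ≤ τ) :
    Pb q (fun ω => ¬ ∀ x : Option (Fin m) → ℝ, |x none - F.t ω| ≤ 1 / 2 ^ u →
      (∀ l < r₀, |x (some (c l)) - xr F ω (some (c l))| ≤ 1 / 2 ^ u) →
      (∀ i, r₀ ≤ i → i < r →
        |x (some (c i)) - eval x (G (z' (slam F w ω)) i)| ≤ 2 / 2 ^ g i) →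
      |eval x (D (z' (slam F w ω)))| ≤ Real.exp ((r + 1) * γ) * τ) ≤ η := by
  classical
  have h0 := hq.nonneg
  have huJ : u ≤ J := by omega
  have hl2 : 0 < Real.log 2 := Real.log_pos one_lt_two
  have hl3 : Real.log 3 ≤ 2 := by
    have := Real.log_le_sub_one_of_pos (show (0 : ℝ) < 3 by norm_num)
    linarith
  have hl5 : Real.log 5 ≤ 2 := by
    have h5 : Real.log 5 = Real.log (5 / 2) + Real.log 2 := by
      rw [← Real.log_mul (by norm_num) (by norm_num)]
      norm_num
    have := Real.log_le_sub_one_of_pos (show (0 : ℝ) < 5 / 4 by norm_num)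
    have h6 : Real.log (5 / 2) = Real.log (5 / 4) + Real.log 2 := by
      rw [← Real.log_mul (by norm_num) (by norm_num)]
      norm_num
    have := Real.log_two_lt_d9
    linarith
  have hr0 : (0 : ℝ) ≤ r := Nat.cast_nonneg r
  have hr₀r : (r₀ : ℝ) ≤ r := by exact_mod_cast hr
  -- the data of the chain
  obtain ⟨v, hv⟩ : ∃ v : F.Ω → ℕ × (Fin r₀ → ℤ) × W, v = fun ω =>
    (F.T1 u ω, (fun l : Fin r₀ => F.X u ω (c l)), z' (slam F w ω)) := ⟨_, rfl⟩
  obtain ⟨Φ, hΦ⟩ : ∃ Φ : ℕ × (Fin r₀ → ℤ) × W → ℕ → MvPolynomial (Option (Fin m)) ℝ,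
      Φ = fun s x => if x = 0 then C ((s.1 : ℝ) / 2 ^ u) else
        if h : x - 1 < r₀ then C ((s.2.1 ⟨x - 1, h⟩ : ℝ) / 2 ^ u) else
          if x - 1 < r then G s.2.2 (x - 1) else 0 := ⟨_, rfl⟩
  have hΦ0 : ∀ s, Φ s 0 = C ((s.1 : ℝ) / 2 ^ u) := fun s => by rw [hΦ]; rfl
  have hΦb : ∀ s x (h : x < r₀), Φ s (x + 1) = C ((s.2.1 ⟨x, h⟩ : ℝ) / 2 ^ u) := fun s x h => by
    rw [hΦ]
    simp only [Nat.add_sub_cancel, if_neg (Nat.succ_ne_zero x), dif_pos h]
  have hΦs : ∀ s x, r₀ ≤ x → x < r → Φ s (x + 1) = G s.2.2 x := fun s x h h' => by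
    rw [hΦ]
    simp only [Nat.add_sub_cancel, if_neg (Nat.succ_ne_zero x), dif_neg (not_lt.2 h), if_pos h']
  have hΦz : ∀ s x, r₀ ≤ x → r ≤ x → Φ s (x + 1) = 0 := fun s x h h' => by
    rw [hΦ]
    simp only [Nat.add_sub_cancel, if_neg (Nat.succ_ne_zero x), dif_neg (not_lt.2 h),
      if_neg (not_lt.2 h')]
  obtain ⟨g', hg'⟩ : ∃ g' : ℕ → ℕ, g' = fun x => if x = 0 then u else if x - 1 < r₀ then u else
    g (x - 1) := ⟨_, rfl⟩
  have hg'0 : g' 0 = u := by rw [hg']; rfl
  have hg'b : ∀ x, x < r₀ → g' (x + 1) = u := fun x h => by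
    rw [hg']
    simp only [Nat.add_sub_cancel, if_neg (Nat.succ_ne_zero x), if_pos h]
  have hg's : ∀ x, r₀ ≤ x → g' (x + 1) = g x := fun x h => by
    rw [hg']
    simp only [Nat.add_sub_cancel, if_neg (Nat.succ_ne_zero x), if_neg (not_lt.2 h)]
  obtain ⟨K', hK'⟩ : ∃ K' : ℕ → ℕ, K' = fun x => if x = r + 1 then KD else
    if x = 0 then 0 else if x - 1 < r₀ then 0 else K (x - 1) := ⟨_, rfl⟩
  have hK'n : K' (r + 1) = KD := by rw [hK']; exact if_pos rfl
  have hK'0 : K' 0 = 0 := by
    rw [hK']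
    simp
  have hK'b : ∀ x, x < r₀ → K' (x + 1) = 0 := fun x hx => by
    rw [hK']
    simp only [Nat.add_sub_cancel, if_neg (Nat.succ_ne_zero x)]
    rw [if_neg (by omega), if_pos hx]
  have hK's : ∀ x, r₀ ≤ x → x < r → K' (x + 1) = K x := fun x hx hx' => by
    rw [hK']
    simp only [Nat.add_sub_cancel, if_neg (Nat.succ_ne_zero x)]
    rw [if_neg (by omega), if_neg (by omega)]
  have hdepC : ∀ s j, r₀ ≤ j → j < r → DepC c j (G s j) := by
    intro s j hj hj' b₁ b₂ hn hbb
    refine (hG j hj hj').dep s b₁ b₂ hn fun k hk => ?_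
    obtain ⟨x, hx, rfl⟩ := mem_image.1 hk
    exact hbb x (mem_range.1 hx)
  have hdep : ∀ s x, DepU (uc c) x (Φ s x) := by
    intro s x
    rcases x with - | x
    · intro b₁ b₂ _
      rw [hΦ0, eval_C, eval_C]
    · rcases Nat.lt_or_ge x r₀ with h | h
      · intro b₁ b₂ _
        rw [hΦb s x h, eval_C, eval_C]
      · rcases Nat.lt_or_ge x r with h' | h'
        · rw [hΦs s x h h']
          exact depU_of (hdepC s.2.2 x h h') le_rfl
        · intro b₁ b₂ _
          rw [hΦz s x h h', map_zero, map_zero]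
  have hdepD : ∀ s : ℕ × (Fin r₀ → ℤ) × W, DepU (uc c) (r + 1) (D s.2.2) := fun s =>
    depU_of (hD s.2.2) le_rfl
  have hdeg : ∀ s, ∀ x < r + 1, (Φ s x).totalDegree ≤ K' x := by
    intro s x hx
    rcases x with - | x
    · rw [hΦ0, totalDegree_C]
      exact Nat.zero_le _
    · rcases Nat.lt_or_ge x r₀ with h | h
      · rw [hΦb s x h, totalDegree_C]
        exact Nat.zero_le _
      · rw [hΦs s x h (by omega), hK's x h (by omega)]
        exact (hG x h (by omega)).deg _
  -- the own points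
  have hloc : ∀ ω, A ω → ∀ l, r₀ ≤ l → l < r →
      |xr F ω (some (c l)) - eval (xr F ω) (G (z' (slam F w ω)) l)| ≤ 2 / 2 ^ g l := by
    intro ω hω l hl hlr
    have hb' := hG l hl hlr
    have hgl := hgJ l hl hlr
    have k1 := hb'.pos ω hω
    have k2 := xr_near F ω (some (c l))
    have k3 := mvσ (G (z' (slam F w ω)) l) (bt F ω) (xr F ω) (2 ^ e l) fun y hy o =>
      hb'.lip ω hω y (fun o' => ((hy o').trans (xr_near F ω o')).trans
        (Pool.PB.inv_mono (hρ l hl hlr))) o
    have k4 : ∑ o, |xr F ω o - bt F ω o| ≤ (m + 1) * (1 / 2 ^ J) := by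
      refine (Finset.sum_le_sum fun o _ => xr_near F ω o).trans (le_of_eq ?_)
      rw [Finset.sum_const, Finset.card_univ, Fintype.card_option, Fintype.card_fin, nsmul_eq_mul]
      push_cast
      ring
    have k5 := k3.trans (mul_le_mul_of_nonneg_left k4 (by positivity))
    have k6 : |xr F ω (some (c l)) - eval (xr F ω) (G (z' (slam F w ω)) l)| ≤
        1 / 2 ^ J + (1 / 2 ^ g l + 2 ^ e l * ((m + 1) * (1 / 2 ^ J))) := by
      have e1 : xr F ω (some (c l)) - eval (xr F ω) (G (z' (slam F w ω)) l) =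
          (xr F ω (some (c l)) - bt F ω (some (c l))) +
          ((F.x ω (c l) - eval (bt F ω) (G (z' (slam F w ω)) l)) +
          -(eval (xr F ω) (G (z' (slam F w ω)) l) - eval (bt F ω) (G (z' (slam F w ω)) l))) := by
        show _ = (xr F ω (some (c l)) - F.x ω (c l)) + _
        ring
      rw [e1]
      refine (abs_add_le _ _).trans (add_le_add k2 ((abs_add_le _ _).trans (add_le_add k1 ?_)))
      rw [abs_neg]
      exact k5
    refine k6.trans ?_
    have hJ0 : (0 : ℝ) < 2 ^ J := by positivity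
    have hg0 : (0 : ℝ) < 2 ^ g l := by positivity
    have k7 : (1 + 2 ^ e l * ((m : ℝ) + 1)) * 2 ^ g l ≤ 2 ^ J := by
      have e2 : (m : ℝ) + 1 ≤ 2 ^ m := by
        have := Nat.lt_two_pow_self (n := m)
        exact_mod_cast this
      have e3 : (1 : ℝ) ≤ 2 ^ e l := one_le_pow₀ (by norm_num)
      have e4 : (1 : ℝ) ≤ 2 ^ m := one_le_pow₀ (by norm_num)
      have e5 : (1 : ℝ) + 2 ^ e l * ((m : ℝ) + 1) ≤ 2 ^ e l * 2 ^ m * 2 := by
        have := mul_le_mul_of_nonneg_left e2 (by positivity : (0 : ℝ) ≤ 2 ^ e l)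
        nlinarith
      calc _ ≤ 2 ^ e l * 2 ^ m * 2 * 2 ^ g l := mul_le_mul_of_nonneg_right e5 hg0.le
        _ = 2 ^ (e l + m + 1 + g l) := by
          rw [pow_add, pow_add, pow_add, pow_one]
        _ ≤ 2 ^ J := pow_le_pow_right₀ (by norm_num) (by omega)
    have k8 : (1 : ℝ) / 2 ^ J + 2 ^ e l * ((m + 1) * (1 / 2 ^ J)) ≤ 1 / 2 ^ g l := by
      have e1 : (1 : ℝ) / 2 ^ J + 2 ^ e l * ((m + 1) * (1 / 2 ^ J)) =
          (1 + 2 ^ e l * ((m : ℝ) + 1)) / 2 ^ J := by ring
      rw [e1, div_le_div_iff₀ hJ0 hg0, one_mul]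
      exact k7
    have e6 : (2 : ℝ) / 2 ^ g l = 1 / 2 ^ g l + 1 / 2 ^ g l := by ring
    rw [e6]
    linarith
  have hu0 : (0 : ℝ) < 2 ^ u := by positivity
  have hflt : ∀ ω, |F.t ω - (F.T1 u ω : ℝ) / 2 ^ u| ≤ 1 / 2 ^ u := by
    intro ω
    have k1 := T1_real F huJ ω
    have e1 : F.t ω - (F.T1 u ω : ℝ) / 2 ^ u = (2 ^ u * F.t ω - F.T1 u ω) / 2 ^ u := by
      field_simp
    rw [e1, abs_div, abs_of_pos hu0]
    refine div_le_div_of_nonneg_right ?_ hu0.le
    rw [abs_le]
    constructor <;> linarith [k1.1, k1.2]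
  have hflx : ∀ ω i, |xr F ω (some i) - (F.X u ω i : ℝ) / 2 ^ u| ≤ 1 / 2 ^ u := by
    intro ω i
    have k1 := floor_xr F ω i huJ
    have k2 := fl_near u (xr F ω (some i))
    rw [k1, abs_sub_comm] at k2
    exact k2
  have hu12 : (1 : ℝ) / 2 ^ u ≤ 2 / 2 ^ u := by
    have : (0 : ℝ) < 1 / 2 ^ u := by positivity
    have e : (2 : ℝ) / 2 ^ u = 1 / 2 ^ u + 1 / 2 ^ u := by ring
    linarith
  have hown : ∀ ω, A ω → ∀ x < r + 1,
      |xr F ω (uc c x) - eval (xr F ω) (Φ (v ω) x)| ≤ 2 / 2 ^ g' x := by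
    intro ω hω x hx
    rcases x with - | x
    · rw [hΦ0, eval_C, hg'0, uc_zero, hv]
      exact (hflt ω).trans hu12
    · rcases Nat.lt_or_ge x r₀ with h | h
      · rw [hΦb _ x h, eval_C, hg'b x h, uc_succ, hv]
        exact (hflx ω (c x)).trans hu12
      · rw [hΦs _ x h (by omega), hg's x h, uc_succ, hv]
        exact hloc ω hω x h (by omega)
  -- the losses
  obtain ⟨θ', hθ'⟩ : ∃ θ' : ℕ → ℝ, θ' = fun x => if x = 0 then θt + 2 * r else
    if x - 1 < r₀ then θb + 2 * r else θ (x - 1) + 4 := ⟨_, rfl⟩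
  have hθ'0 : θ' 0 = θt + 2 * r := by rw [hθ']; rfl
  have hθ'b : ∀ x, x < r₀ → θ' (x + 1) = θb + 2 * r := fun x h => by
    rw [hθ']
    simp only [Nat.add_sub_cancel, if_neg (Nat.succ_ne_zero x), if_pos h]
  have hθ's : ∀ x, r₀ ≤ x → θ' (x + 1) = θ x + 4 := fun x h => by
    rw [hθ']
    simp only [Nat.add_sub_cancel, if_neg (Nat.succ_ne_zero x), if_neg (not_lt.2 h)]
  have hθ'n : ∀ x, 0 ≤ θ' x := by
    intro x
    rcases x with - | x
    · rw [hθ'0]
      linarith
    · rcases Nat.lt_or_ge x r₀ with h | h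
      · rw [hθ'b x h]
        linarith
      · rw [hθ's x h]
        have := hθ x
        linarith
  have hkm : ∀ x, kmx K' x (r + 1) ≤ Mt := by
    intro x
    refine Finset.sup_le fun y hy => ?_
    have hy' := Finset.mem_Ioc.1 hy
    rcases Nat.lt_or_ge y (r + 1) with k1 | k1
    · obtain ⟨y, rfl⟩ : ∃ y', y = y' + 1 := ⟨y - 1, by omega⟩
      rcases Nat.lt_or_ge y r₀ with h | h
      · rw [hK'b y h]
        exact Nat.zero_le _
      · rw [hK's y h (by omega)]
        exact hMt y h (by omega)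
    · rw [show y = r + 1 by omega, hK'n]
      exact hMtD
  have hγx : ∀ x < r + 1, Pool.GRW.Cg (r + 1) (kmx K' x (r + 1)) * (θ' x + 1) / (η / 8 ^ x) ≤ γ := by
    intro x hx
    have e1 : ∀ a : ℝ, a / (η / 8 ^ x) = a * (8 ^ x / η) := by
      intro a
      field_simp
    rw [e1]
    have h8 : (8 : ℝ) ^ x / η ≤ 8 ^ r / η :=
      div_le_div_of_nonneg_right (pow_le_pow_right₀ (by norm_num) (by omega)) hη.le
    have hC0 : 0 ≤ Pool.GRW.Cg (r + 1) (kmx K' x (r + 1)) := zero_le_one.trans (one_le_Cg _ _)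
    have hx1 : 0 ≤ θ' x + 1 := by linarith [hθ'n x]
    refine (mul_le_mul_of_nonneg_left h8 (mul_nonneg hC0 hx1)).trans ?_
    have h8' : (0 : ℝ) ≤ 8 ^ r / η := by positivity
    rcases x with - | x
    · rw [hθ'0]
      refine le_trans ?_ h1t
      refine mul_le_mul_of_nonneg_right (mul_le_mul_of_nonneg_right ?_ (by linarith)) h8'
      exact Cg_le_Cm le_rfl (hkm 0)
    · rcases Nat.lt_or_ge x r₀ with h | h
      · rw [hθ'b x h]
        refine le_trans ?_ h1b
        refine mul_le_mul_of_nonneg_right (mul_le_mul_of_nonneg_right ?_ (by linarith)) h8'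
        exact Cg_le_Cm le_rfl (hkm _)
      · rw [hθ's x h]
        refine le_trans ?_ (h1 x h (by omega))
        have e2 : θ x + 4 + 1 = θ x + 5 := by ring
        rw [e2]
        refine mul_le_mul_of_nonneg_right (mul_le_mul_of_nonneg_right ?_ (by linarith [hθ x])) h8'
        refine Cg_le_Cm le_rfl (Finset.sup_le fun y hy => ?_)
        have hy' := Finset.mem_Ioc.1 hy
        rcases Nat.lt_or_ge y (r + 1) with k1 | k1
        · obtain ⟨y, rfl⟩ : ∃ y', y = y' + 1 := ⟨y - 1, by omega⟩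
          rw [hK's y (by omega) (by omega)]
          exact hM x y h (by omega) (by omega)
        · rw [show y = r + 1 by omega, hK'n]
          exact hMD x
  have hA0 : Pb q (fun ω => ¬ A ω) ≤ 0 := by
    have h2 : Pb q (fun ω => ¬ A ω) ≤ Pb q (fun _ => False) :=
      Pb_mono25 h0 fun ω hω hn => hn (hqA ω hω)
    refine h2.trans (le_of_eq ?_)
    unfold Pb
    simp
  have key := gall (r + 1) (q := q) (u := uc c) (X := xr F) (v := v) (Φ := Φ)
    (D := fun s => D s.2.2) (g := g') (K := K') (L := fun _ => L) (A := A) (θ := θ') (τ := τ)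
    (η := η) hq (uc_inj hc) hdeg (fun s => by rw [hK'n]; exact hDd _) hdep hdepD hθ'n hη hη1 hτ ?_
    (fun x hx => (hγx x hx).trans hγL) hA0 hown (fun ω hω => by rw [hv]; exact hsm ω hω)
  · refine le_trans (Pb_mono25 h0 fun ω hω hn => ?_) key
    intro hall
    refine hn fun x hx0 hxb hxs => ?_
    have k1 := hall x ⟨fun i hi => absurd hi (Nat.not_lt_zero _), fun i _ hi => ?_⟩
    · have e3 : D (v ω).2.2 = D (z' (slam F w ω)) := by rw [hv]
      rw [e3] at k1
      refine k1.trans (mul_le_mul_of_nonneg_right (Real.exp_le_exp.2 ?_) hτ.le)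
      refine (Finset.sum_le_sum fun y hy => ?_).trans
        (?_ : ∑ y ∈ range (r + 1), γ ≤ (r + 1) * γ)
      · exact hγx y (Finset.mem_range.1 hy)
      · rw [Finset.sum_const, Finset.card_range, nsmul_eq_mul]
        push_cast
        exact le_rfl
    · rcases i with - | i
      · show |x (uc c 0) - eval _ _| ≤ 2 / 2 ^ g' 0
        rw [hΦ0, eval_C, hg'0, uc_zero, hv]
        have e1 : x none - (F.T1 u ω : ℝ) / 2 ^ u = (x none - F.t ω) +
          (F.t ω - (F.T1 u ω : ℝ) / 2 ^ u) := by ring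
        have e2 : (2 : ℝ) / 2 ^ u = 1 / 2 ^ u + 1 / 2 ^ u := by ring
        simp only
        rw [e1, e2]
        exact (abs_add_le _ _).trans (add_le_add hx0 (hflt ω))
      · rcases Nat.lt_or_ge i r₀ with h | h
        · show |x (uc c (i + 1)) - eval _ _| ≤ 2 / 2 ^ g' (i + 1)
          rw [hΦb _ i h, eval_C, hg'b i h, uc_succ, hv]
          have e1 : x (some (c i)) - (F.X u ω (c i) : ℝ) / 2 ^ u =
            (x (some (c i)) - xr F ω (some (c i))) +
            (xr F ω (some (c i)) - (F.X u ω (c i) : ℝ) / 2 ^ u) := by ring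
          have e2 : (2 : ℝ) / 2 ^ u = 1 / 2 ^ u + 1 / 2 ^ u := by ring
          simp only
          rw [e1, e2]
          exact (abs_add_le _ _).trans (add_le_add (hxb i h) (hflx ω (c i)))
        · show |x (uc c (i + 1)) - eval _ _| ≤ 2 / 2 ^ g' (i + 1)
          rw [hΦs _ i h (by omega), hg's i h, uc_succ, hv]
          exact hxs i h (by omega)
  · intro x hx
    rcases x with - | x
    · -- the time
      rw [hθ'0, hg'0]
      obtain ⟨Xu, hXu⟩ : ∃ Xu : F.Ω → Fin r₀ → ℤ, Xu = fun ω (l : Fin r₀) => F.X u ω (c l) := ⟨_, rfl⟩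
      have k1 : (L : ℝ) * Real.log 2 - (θt + 2 * r) ≤
          CH q (F.T1 (u + L)) (fun ω => (Xu ω, slam F u ω)) := by
        have s1 := CH_le_add h0 (F.T1 (u + L)) Xu (slam F u)
        have s2 : CH q Xu (slam F u) ≤ ∑ l : Fin r₀, (2 : ℝ) := by
          have s3 := chain_le hq (fun (l : Fin r₀) ω => F.X u ω (c l)) (slam F u)
            (fun _ => (2 : ℝ)) (by
            intro l
            have k2 := CH_le_int h0 hq.sum_one (fun ω => F.X u ω (c l))
              (fun ω => ((fun l' : Fin r₀ => if l' < l then F.X u ω (c l') else 0), slam F u ω))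
              (fun _ => 2) (by
              intro ω ω' _ _ hh
              have h3 := x_win F huJ (Prod.ext_iff.mp hh).2 (c l)
              refine (abs_floor_sub _ _).trans ?_
              rw [← mul_sub, abs_mul, abs_of_pos hu0]
              have h4 := mul_le_mul_of_nonneg_left h3 hu0.le
              rw [mul_one_div_cancel hu0.ne'] at h4
              linarith)
            rw [Ex_const hq.sum_one] at k2
            refine k2.trans ?_
            have : (2 : ℝ) * 2 + 1 = 5 := by norm_num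
            rw [this]
            exact hl5)
          rw [hXu]
          exact s3
        rw [Finset.sum_const, Finset.card_univ, Fintype.card_fin, nsmul_eq_mul] at s2
        linarith
      refine k1.trans ?_
      have e0 : ∀ ω, eval (xr F ω) (Φ (v ω) 0) = (F.T1 u ω : ℝ) / 2 ^ u := by
        intro ω
        rw [hΦ0, eval_C, hv]
      have e1 : ∀ ω (k : ℕ), (2 : ℝ) ^ (u + k) * (xr F ω (uc c 0) - eval (xr F ω) (Φ (v ω) 0)) =
          2 ^ (u + k) * F.t ω - ((2 ^ k * F.T1 u ω : ℕ) : ℝ) := by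
        intro ω k
        rw [e0, uc_zero]
        show (2 : ℝ) ^ (u + k) * (F.t ω - _) = _
        push_cast
        rw [pow_add]
        field_simp
      have e2 : ∀ ω, ∀ k, u + k ≤ J → ⌊(2 : ℝ) ^ (u + k) *
          (xr F ω (uc c 0) - eval (xr F ω) (Φ (v ω) 0))⌋ =
          (F.T1 (u + k) ω : ℤ) - (2 ^ k * F.T1 u ω : ℕ) := by
        intro ω k hk
        rw [e1 ω k, Int.floor_sub_natCast, Pool.UNJ.floor_t F hk]
      refine (CH_mono_left h0 (X' := fun ω => ⌊(2 : ℝ) ^ (u + L) *
        (xr F ω (uc c 0) - eval (xr F ω) (Φ (v ω) 0))⌋) fun ω ω' _ _ hh => ?_).trans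
        (CH_mono_cond h0 fun ω ω' _ _ hh => ?_)
      · have k2 := Prod.ext_iff.mp hh
        have k3 : ⌊(2 : ℝ) ^ (u + L) * (xr F ω (uc c 0) - eval (xr F ω) (Φ (v ω) 0))⌋ =
          ⌊(2 : ℝ) ^ (u + L) * (xr F ω' (uc c 0) - eval (xr F ω') (Φ (v ω') 0))⌋ := k2.1
        rw [e2 ω L hu, e2 ω' L hu] at k3
        have k4 : F.T1 u ω = F.T1 u ω' := congrArg (fun s => s.2.2.2) k2.2
        rw [k4] at k3
        have k5 : (F.T1 (u + L) ω : ℤ) = F.T1 (u + L) ω' := by linarith
        exact_mod_cast k5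
      · have k2 := Prod.ext_iff.mp hh
        have k4 : F.T1 u ω = F.T1 u ω' := congrArg (fun s => s.2.2) k2.2
        refine Prod.ext ?_ (Prod.ext ?_ ?_)
        · have k3 := e2 ω 0 (by omega)
          have k4 := e2 ω' 0 (by omega)
          rw [Nat.add_zero] at k3 k4
          show ⌊(2 : ℝ) ^ u * (xr F ω (uc c 0) - eval (xr F ω) (Φ (v ω) 0))⌋ =
            ⌊(2 : ℝ) ^ u * (xr F ω' (uc c 0) - eval (xr F ω') (Φ (v ω') 0))⌋
          rw [k3, k4]
          push_cast
          ring
        · funext k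
          exact absurd k.2 (Nat.not_lt_zero _)
        · rw [hv]
          have k5 := k2.1
          rw [hXu] at k5
          refine Prod.ext k4 (Prod.ext k5 ?_)
          show z' (slam F w ω) = z' (slam F w ω')
          have k6 := k2.2
          simp only at k6
          rw [slam_coarse F hwu huJ ω, slam_coarse F hwu huJ ω', k6]
    · rcases Nat.lt_or_ge x r₀ with hxb | hxb
      · -- the base
        rw [hθ'b x hxb, hg'b x hxb]
        obtain ⟨cb, hcb⟩ : ∃ cb : F.Ω → (Fin r₀ → ℤ) × W × (ℕ × F.ζ), cb = fun ω =>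
          ((fun l : Fin r₀ => F.X u ω (c l)), z' (slam F w ω), F.W ω) := ⟨_, rfl⟩
        rw [← hcb] at hbase
        obtain ⟨pv, hpv⟩ : ∃ pv : Fin r₀ → F.Ω → (Fin r₀ → ℤ) × ((Fin r₀ → ℤ) × W × (ℕ × F.ζ)),
          pv = fun l ω => ((fun l' : Fin r₀ => if l' < l then F.X J ω (c l') else 0), cb ω) :=
            ⟨_, rfl⟩
        have huJr : ((J - u : ℕ) : ℝ) = (J : ℝ) - u := by
          rw [Nat.cast_sub huJ]
        -- one coordinate
        have one : ∀ l : Fin r₀, CH q (fun ω => F.X J ω (c l)) (pv l) ≤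
            ((J : ℝ) - u) * Real.log 2 + Real.log 3 := by
          intro l
          have k2 := CH_le_int h0 hq.sum_one (fun ω => F.X J ω (c l)) (pv l)
            (fun _ => 2 ^ (J - u)) (by
            intro ω ω' _ _ hh
            rw [hpv, hcb] at hh
            have h3 : F.X u ω (c l) = F.X u ω' (c l) :=
              congrFun (congrArg (fun s => s.2.1) hh) l
            have h4 := Int.abs_sub_lt_one_of_floor_eq_floor (show
              ⌊(2 : ℝ) ^ u * xr F ω (some (c l))⌋ = ⌊(2 : ℝ) ^ u * xr F ω' (some (c l))⌋ by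
                rw [floor_xr F ω (c l) huJ, floor_xr F ω' (c l) huJ, h3])
            have e3 : (2 : ℝ) ^ u * xr F ω (some (c l)) - 2 ^ u * xr F ω' (some (c l)) =
                (((F.X J ω (c l) - F.X J ω' (c l) : ℤ) : ℝ)) / 2 ^ (J - u) := by
              show (2 : ℝ) ^ u * ((F.X J ω (c l) : ℝ) / 2 ^ J) - 2 ^ u *
                ((F.X J ω' (c l) : ℝ) / 2 ^ J) = _
              have : (2 : ℝ) ^ J = 2 ^ u * 2 ^ (J - u) := by
                rw [← pow_add]
                congr 1
                omega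
              rw [this]
              push_cast
              field_simp
            rw [e3, abs_div, abs_of_pos (by positivity : (0 : ℝ) < 2 ^ (J - u)),
              div_lt_one (by positivity)] at h4
            exact h4.le)
          rw [Ex_const hq.sum_one] at k2
          refine k2.trans ?_
          have h5 : 2 * (2 : ℝ) ^ (J - u) + 1 ≤ 2 ^ (J - u) * 3 := by
            have : (1 : ℝ) ≤ 2 ^ (J - u) := one_le_pow₀ (by norm_num)
            linarith
          refine (Real.log_le_log (by positivity) h5).trans ?_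
          rw [Real.log_mul (by positivity) (by norm_num), Real.log_pow, huJr]
        -- the coordinate `x`
        have spec : CH q (fun ω => F.X J ω (c x)) (pv ⟨x, hxb⟩) ≤
            CH q (fun ω => F.X (u + L) ω (c x)) (pv ⟨x, hxb⟩) +
              (((J : ℝ) - u - L) * Real.log 2 + Real.log 3) := by
          have s1 := CH_le_add h0 (fun ω => F.X J ω (c x)) (fun ω => F.X (u + L) ω (c x))
            (pv ⟨x, hxb⟩)
          have k2 := CH_le_int h0 hq.sum_one (fun ω => F.X J ω (c x))
            (fun ω => (F.X (u + L) ω (c x), pv ⟨x, hxb⟩ ω)) (fun _ => 2 ^ (J - (u + L))) (by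
            intro ω ω' _ _ hh
            have h3 : F.X (u + L) ω (c x) = F.X (u + L) ω' (c x) := (Prod.ext_iff.mp hh).1
            have h4 := Int.abs_sub_lt_one_of_floor_eq_floor (show
              ⌊(2 : ℝ) ^ (u + L) * xr F ω (some (c x))⌋ =
                ⌊(2 : ℝ) ^ (u + L) * xr F ω' (some (c x))⌋ by
                rw [floor_xr F ω (c x) hu, floor_xr F ω' (c x) hu, h3])
            have e3 : (2 : ℝ) ^ (u + L) * xr F ω (some (c x)) - 2 ^ (u + L) *
                xr F ω' (some (c x)) =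
                (((F.X J ω (c x) - F.X J ω' (c x) : ℤ) : ℝ)) / 2 ^ (J - (u + L)) := by
              show (2 : ℝ) ^ (u + L) * ((F.X J ω (c x) : ℝ) / 2 ^ J) - 2 ^ (u + L) *
                ((F.X J ω' (c x) : ℝ) / 2 ^ J) = _
              have : (2 : ℝ) ^ J = 2 ^ (u + L) * 2 ^ (J - (u + L)) := by
                rw [← pow_add]
                congr 1
                omega
              rw [this]
              push_cast
              field_simp
            rw [e3, abs_div, abs_of_pos (by positivity : (0 : ℝ) < 2 ^ (J - (u + L))),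
              div_lt_one (by positivity)] at h4
            exact h4.le)
          rw [Ex_const hq.sum_one] at k2
          have h5 : 2 * (2 : ℝ) ^ (J - (u + L)) + 1 ≤ 2 ^ (J - (u + L)) * 3 := by
            have : (1 : ℝ) ≤ 2 ^ (J - (u + L)) := one_le_pow₀ (by norm_num)
            linarith
          have h6 := Real.log_le_log (by positivity) h5
          rw [Real.log_mul (by positivity) (by norm_num), Real.log_pow] at h6
          have h7 : ((J - (u + L) : ℕ) : ℝ) = (J : ℝ) - u - L := by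
            rw [Nat.cast_sub hu]
            push_cast
            ring
          rw [h7] at h6
          linarith
        have s1 := chain_le hq (fun (l : Fin r₀) ω => F.X J ω (c l)) cb
          (fun l => if l = ⟨x, hxb⟩ then CH q (fun ω => F.X (u + L) ω (c x)) (pv ⟨x, hxb⟩) +
              (((J : ℝ) - u - L) * Real.log 2 + Real.log 3) else
              ((J : ℝ) - u) * Real.log 2 + Real.log 3) (by
            intro l
            have h3 := one l
            rw [hpv] at h3
            by_cases hl : l = ⟨x, hxb⟩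
            · rw [if_pos hl, hl]
              have h4 := spec
              rw [hpv] at h4 ⊢
              exact h4
            · rw [if_neg hl]
              exact h3)
        have s2 : (∑ l : Fin r₀, (if l = ⟨x, hxb⟩ then
            CH q (fun ω => F.X (u + L) ω (c x)) (pv ⟨x, hxb⟩) +
              (((J : ℝ) - u - L) * Real.log 2 + Real.log 3) else
              ((J : ℝ) - u) * Real.log 2 + Real.log 3)) =
            CH q (fun ω => F.X (u + L) ω (c x)) (pv ⟨x, hxb⟩) - L * Real.log 2 +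
              r₀ * (((J : ℝ) - u) * Real.log 2 + Real.log 3) := by
          have h3 : ∀ l : Fin r₀, (if l = ⟨x, hxb⟩ then
            CH q (fun ω => F.X (u + L) ω (c x)) (pv ⟨x, hxb⟩) +
              (((J : ℝ) - u - L) * Real.log 2 + Real.log 3) else
              ((J : ℝ) - u) * Real.log 2 + Real.log 3) =
              (if l = ⟨x, hxb⟩ then CH q (fun ω => F.X (u + L) ω (c x)) (pv ⟨x, hxb⟩) -
                L * Real.log 2 else 0) + (((J : ℝ) - u) * Real.log 2 + Real.log 3) := by
            intro l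
            split_ifs
            · ring
            · ring
          rw [Finset.sum_congr rfl fun l _ => h3 l, Finset.sum_add_distrib,
            Finset.sum_ite_eq' Finset.univ, if_pos (Finset.mem_univ _), Finset.sum_const,
            Finset.card_univ, Fintype.card_fin, nsmul_eq_mul]
        rw [s2] at s1
        have hr3 : (r₀ : ℝ) * Real.log 3 ≤ 2 * r := by
          have : (r₀ : ℝ) * Real.log 3 ≤ r₀ * 2 :=
            mul_le_mul_of_nonneg_left hl3 (Nat.cast_nonneg r₀)
          linarith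
        have s3 : (L : ℝ) * Real.log 2 - (θb + 2 * r) ≤
            CH q (fun ω => F.X (u + L) ω (c x)) (pv ⟨x, hxb⟩) := by
          have e4 : (r₀ : ℝ) * (((J : ℝ) - u) * Real.log 2 + Real.log 3) =
            r₀ * (((J : ℝ) - u) * Real.log 2) + r₀ * Real.log 3 := by ring
          rw [e4] at s1
          linarith
        refine s3.trans ?_
        have e2 : ∀ ω, ∀ k, u + k ≤ J → ⌊(2 : ℝ) ^ (u + k) *
            (xr F ω (uc c (x + 1)) - eval (xr F ω) (Φ (v ω) (x + 1)))⌋ =
            F.X (u + k) ω (c x) - 2 ^ k * F.X u ω (c x) := by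
          intro ω k hk
          rw [hΦb _ x hxb, eval_C, uc_succ, hv]
          have e5 : (2 : ℝ) ^ (u + k) * (xr F ω (some (c x)) - (F.X u ω (c x) : ℝ) / 2 ^ u) =
              2 ^ (u + k) * xr F ω (some (c x)) - ((2 ^ k * F.X u ω (c x) : ℤ) : ℝ) := by
            push_cast
            rw [pow_add]
            field_simp
          simp only
          rw [e5, Int.floor_sub_intCast, floor_xr F ω (c x) hk]
        refine (CH_mono_left h0 (X' := fun ω => ⌊(2 : ℝ) ^ (u + L) *
          (xr F ω (uc c (x + 1)) - eval (xr F ω) (Φ (v ω) (x + 1)))⌋)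
          fun ω ω' _ _ hh => ?_).trans (CH_mono_cond h0 fun ω ω' _ _ hh => ?_)
        · have k2 := Prod.ext_iff.mp hh
          have k3 : ⌊(2 : ℝ) ^ (u + L) * (xr F ω (uc c (x + 1)) -
              eval (xr F ω) (Φ (v ω) (x + 1)))⌋ =
            ⌊(2 : ℝ) ^ (u + L) * (xr F ω' (uc c (x + 1)) -
              eval (xr F ω') (Φ (v ω') (x + 1)))⌋ := k2.1
          rw [e2 ω L hu, e2 ω' L hu] at k3
          have k4 := k2.2
          rw [hpv, hcb] at k4
          have k5 : F.X u ω (c x) = F.X u ω' (c x) :=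
            congrFun (congrArg (fun s => s.2.1) k4) ⟨x, hxb⟩
          rw [k5] at k3
          show F.X (u + L) ω (c x) = F.X (u + L) ω' (c x)
          linarith
        · rw [hpv, hcb] at hh
          have k2 := Prod.ext_iff.mp hh
          have k3 := Prod.ext_iff.mp k2.2
          have k4 := Prod.ext_iff.mp k3.2
          have k5 : F.T ω = F.T ω' := congrArg Prod.fst k4.2
          have k7 : F.X u ω (c x) = F.X u ω' (c x) := congrFun k3.1 ⟨x, hxb⟩
          refine Prod.ext ?_ (Prod.ext (funext fun k => ?_) ?_)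
          · have k6 := e2 ω 0 (by omega)
            have k8 := e2 ω' 0 (by omega)
            rw [Nat.add_zero, pow_zero, one_mul, sub_self] at k6 k8
            show ⌊(2 : ℝ) ^ u * (xr F ω (uc c (x + 1)) - eval (xr F ω) (Φ (v ω) (x + 1)))⌋ =
              ⌊(2 : ℝ) ^ u * (xr F ω' (uc c (x + 1)) - eval (xr F ω') (Φ (v ω') (x + 1)))⌋
            rw [k6, k8]
          · rcases k with ⟨k, hk⟩
            rcases k with - | k
            · show F.t ω = F.t ω'
              unfold Fam.t
              rw [k5]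
            · show xr F ω (uc c (k + 1)) = xr F ω' (uc c (k + 1))
              rw [uc_succ]
              show (F.X J ω (c k) : ℝ) / 2 ^ J = (F.X J ω' (c k) : ℝ) / 2 ^ J
              have k6 := congrFun k2.1 ⟨k, by omega⟩
              have hlt : (⟨k, by omega⟩ : Fin r₀) < ⟨x, hxb⟩ := by
                rw [Fin.mk_lt_mk]
                omega
              simp only [hlt, if_true] at k6
              rw [k6]
          · rw [hv]
            refine Prod.ext ?_ (Prod.ext k3.1 k4.1)
            show F.T1 u ω = F.T1 u ω'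
            unfold Fam.T1
            rw [k5]
      · -- a coordinate with a chart
        have hxr : x < r := by omega
        have k1 := hfull x hxb hxr
        rw [hθ's x hxb, hg's x hxb]
        have hgx := hgJ x hxb hxr
        obtain ⟨cc, hcc⟩ : ∃ cc : F.Ω → (Fin (x + 1) → ℝ) × (ℕ × (Fin r₀ → ℤ) × W), cc = fun ω =>
          ((fun k : Fin (x + 1) => xr F ω (uc c k)), v ω) := ⟨_, rfl⟩
        have k2 : CH q (fun ω => F.X J ω (c x))
            (fun ω => ((fun l' : Fin x => F.X J ω (c l')), z' (slam F w ω), F.W ω)) ≤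
            CH q (fun ω => F.X J ω (c x)) cc := by
          refine CH_mono_cond h0 fun ω ω' _ _ hh => ?_
          have k3 := Prod.ext_iff.mp hh
          have k4 := Prod.ext_iff.mp k3.2
          have k5 : F.T ω = F.T ω' := congrArg Prod.fst k4.2
          have k8 : ∀ k (_ : k < x), F.X J ω (c k) = F.X J ω' (c k) := fun k hk =>
            congrFun k3.1 ⟨k, hk⟩
          rw [hcc]
          refine Prod.ext (funext fun k => ?_) ?_
          · rcases k with ⟨k, hk⟩
            rcases k with - | k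
            · show F.t ω = F.t ω'
              unfold Fam.t
              rw [k5]
            · show xr F ω (uc c (k + 1)) = xr F ω' (uc c (k + 1))
              rw [uc_succ]
              show (F.X J ω (c k) : ℝ) / 2 ^ J = (F.X J ω' (c k) : ℝ) / 2 ^ J
              rw [k8 k (by omega)]
          · rw [hv]
            refine Prod.ext ?_ (Prod.ext (funext fun l => ?_) k4.1)
            · show F.T1 u ω = F.T1 u ω'
              unfold Fam.T1
              rw [k5]
            · show F.X u ω (c l) = F.X u ω' (c l)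
              rw [← floor_xr F ω (c l) huJ, ← floor_xr F ω' (c l) huJ]
              have k9 : xr F ω (some (c l)) = xr F ω' (some (c l)) := by
                show (F.X J ω (c l) : ℝ) / 2 ^ J = (F.X J ω' (c l) : ℝ) / 2 ^ J
                rw [k8 l (by have := l.2; omega)]
              rw [k9]
        have k3 := off_full hq (J := J) (g := g x) (L := L) (by omega)
          (Y := fun ω => F.X J ω (c x))
          (ξ := fun ω => xr F ω (uc c (x + 1)) - eval (xr F ω) (Φ (v ω) (x + 1))) (c := cc)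
          (fun ω hω => by
            have := hown ω (hqA ω hω) (x + 1) hx
            rwa [hg's x hxb] at this) (fun ω ω' _ _ hh => by
            rw [hcc] at hh
            have k4 := Prod.ext_iff.mp hh
            have k5 : v ω = v ω' := k4.2
            have k6 : eval (xr F ω) (Φ (v ω) (x + 1)) = eval (xr F ω') (Φ (v ω') (x + 1)) := by
              rw [← k5]
              refine hdep (v ω) (x + 1) _ _ fun k hk => ?_
              exact congrFun k4.1 ⟨k, hk⟩
            rw [k6, uc_succ]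
            show (F.X J ω (c x) : ℝ) / 2 ^ J - (F.X J ω' (c x) : ℝ) / 2 ^ J =
              (F.X J ω (c x) : ℝ) / 2 ^ J - _ - ((F.X J ω' (c x) : ℝ) / 2 ^ J - _)
            ring) (k1.trans k2)
        rw [hcc] at k3
        exact k3

end Pool.LA91
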