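import Pool.Agent.H91.LA.Afn
import Pool.Agent.H6.OWN.TieB

/-!
# Attained affine labels

`ojet_wpt`: the own jets over a polynomial which is near the own path in the whole window.
`attQ_of`: the labels of the class, if they hold in the whole window.
-/

set_option autoImplicit false

namespace Pool.LA91

open Finset Real MvPolynomial
open Pool.Agent.H49.Ent Pool.Agent.H32.Dense Pool.STK Pool.KA Pool.KSAT Pool.K2S Pool.PB Pool.GEN
open Pool.S6C Pool.RCD
open Pool.GRD (LbP Pb_mono_pos)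
open Pool.BFL (Pb)
open Pool.MIC6 (wp wt wpt wp_eq)
open Pool.PB.Trl (rt rt_mem t_rt)

variable {m : ℕ}

/-- **The own jets** over a polynomial which is near the own path in the whole window. -/
theorem ojet_wpt (m K j : ℕ) : ∃ C : ℝ, 1 ≤ C ∧ ∀ (J : ℕ) (F : Fam m J) (w : ℕ) (k : Fin m)
    (G : MvPolynomial (Option (Fin m)) ℝ) (S : ℝ) (ω : F.Ω), w ≤ J → G.totalDegree ≤ K →
    (∀ σ ∈ Set.Icc (0 : ℝ) 1, |wp F w ω σ k - eval (wpt F w ω σ) G| ≤ S) →
    |ojet F k j G ω| ≤ C * S * (2 ^ w) ^ j := by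
  obtain ⟨C, hC, hmk⟩ := markov_iter (max 1 K) j
  refine ⟨C, hC, fun J F w k G S ω hw hG hS => ?_⟩
  obtain ⟨q, hq⟩ : ∃ q, q = aeval (lp (bt F ω) (bd F ω)) (X (some k) - G) := ⟨_, rfl⟩
  have hdeg : (X (some k) - G : MvPolynomial (Option (Fin m)) ℝ).totalDegree ≤ max 1 K :=
    (totalDegree_sub _ _).trans (max_le_max (totalDegree_X _).le hG)
  have hpt : ∀ σ : ℝ, (fun o => bt F ω o + 1 / 2 ^ w * (σ - rt F w ω) * bd F ω o) =
      wpt F w ω σ := by
    intro σ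
    funext o
    cases o with
    | none =>
      have h1 := t_rt F hw ω
      show F.t ω + 1 / 2 ^ w * (σ - rt F w ω) * 1 = ((slam F w ω).2.2 : ℝ) / 2 ^ w +
        1 / 2 ^ w * σ
      rw [h1]
      ring
    | some i => exact (wp_eq F hw ω σ i).symm
  have h2 := hmk (q.comp (Polynomial.C (1 / 2 ^ w) * (Polynomial.X - Polynomial.C (rt F w ω)))) S
    (by
      refine Polynomial.natDegree_comp_le.trans ?_
      have h3 : (Polynomial.C (1 / 2 ^ w : ℝ) *
          (Polynomial.X - Polynomial.C (rt F w ω))).natDegree ≤ 1 :=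
        (Polynomial.natDegree_C_mul_le _ _).trans (Polynomial.natDegree_X_sub_C_le _)
      have h4 : q.natDegree ≤ max 1 K := by
        rw [hq]
        exact natDegree_alp hdeg _ _
      calc _ ≤ max 1 K * 1 := Nat.mul_le_mul h4 h3
        _ = max 1 K := mul_one _) (by
      intro σ hσ
      rw [Polynomial.eval_comp, Polynomial.eval_mul, Polynomial.eval_C, Polynomial.eval_sub,
        Polynomial.eval_X, Polynomial.eval_C, hq, eval_alp, hpt σ, map_sub, eval_X]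
      exact hS σ hσ) (rt F w ω) (rt_mem F w ω)
  rw [der_aff, Polynomial.eval_mul, Polynomial.eval_C, Polynomial.eval_comp, Polynomial.eval_mul,
    Polynomial.eval_C, Polynomial.eval_sub, Polynomial.eval_X, Polynomial.eval_C, sub_self,
    mul_zero, abs_mul, abs_of_pos (by positivity : (0 : ℝ) < (1 / 2 ^ w) ^ j), one_div_pow,
    one_div, inv_mul_le_iff₀ (by positivity)] at h2
  have h3 : ojet F k j G ω = (Polynomial.derivative^[j] q).eval 0 := by
    rw [hq]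
    rfl
  rw [h3]
  refine h2.trans (le_of_eq ?_)
  ring

/-- **Attained labels** which are affine in `ι`, from labels in the windows `⌊w' J⌋ + 2` which hold
in the whole window. -/
theorem attQ_of {S : PCl m} {I : Finset (Fin m)} {ι k : Fin m} (j : ℕ) {w' w p : ℝ}
    (hw : w' < w) (hw0 : 0 ≤ w') (hw1 : w ≤ 1)
    (h : ∀ e : ℝ, 0 < e → ∃ K : ℕ, Bas S (fun J F A => ∃ (V : Type) (z : PtT F → V)
      (z' : LnT F → V) (G : V → MvPolynomial (Option (Fin m)) ℝ) (c : V → ℝ),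
      LbP F (insert ι I) k K J (⌊w' * J⌋₊ + 2) ⌊(p - e) * J⌋₊ A z z' G ∧
      (∀ x, AfI ι (c x) (G x)) ∧
      ∀ ω, A ω → ∀ σ ∈ Set.Icc (0 : ℝ) 1, |wp F (⌊w' * J⌋₊ + 2) ω σ k -
        eval (wpt F (⌊w' * J⌋₊ + 2) ω σ) (G (z' (slam F (⌊w' * J⌋₊ + 2) ω)))| ≤ 1)) :
    AttQ S I ι k j w p := by
  intro e he
  obtain ⟨K, hK⟩ := h e he
  obtain ⟨C, hC, hjet⟩ := ojet_wpt m K j
  obtain ⟨J₁, hJ₁⟩ := exists_nat_ge (3 / (w - w') + C)
  refine ⟨max K (j + 1), Bas.mono (J₁ + 2) hK ?_⟩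
  rintro J hJ F A ⟨V, z, z', G, c, hl, ha, hb⟩
  have hJ0 : (0 : ℝ) ≤ J := Nat.cast_nonneg J
  have hJ1 : (J₁ : ℝ) ≤ J := by exact_mod_cast (by omega : J₁ ≤ J)
  have t1 : 0 < 3 / (w - w') := div_pos (by norm_num) (by linarith)
  have f1 : 3 ≤ (w - w') * J := by
    have : 3 / (w - w') ≤ J := by linarith
    rw [div_le_iff₀ (by linarith)] at this
    linarith
  have f2 : C ≤ J := by linarith
  have hwJ : ⌊w * J⌋₊ ≤ J := floor_le hw1 J
  have hww : ⌊w' * J⌋₊ + 2 ≤ ⌊w * J⌋₊ := by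
    refine Nat.le_floor ?_
    push_cast
    have h1 : ((⌊w' * J⌋₊ : ℕ) : ℝ) ≤ w' * J := Nat.floor_le (by positivity)
    linarith
  have hl' := hl.win hww hwJ
  have g1 : ∀ ω, z' ((slam F ⌊w * J⌋₊ ω).1, (slam F ⌊w * J⌋₊ ω).2.1,
      (slam F ⌊w * J⌋₊ ω).2.2 / 2 ^ (⌊w * J⌋₊ - (⌊w' * J⌋₊ + 2))) =
      z' (slam F (⌊w' * J⌋₊ + 2) ω) := fun ω => by
    rw [← slam_coarse F hww hwJ ω]
  refine ⟨V, z, _, G, c, hl'.mono (Finset.Subset.refl _) (le_max_left _ _) le_rfl, ha,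
    fun ω hω => ?_⟩
  have h3 := hjet J F (⌊w' * J⌋₊ + 2) k (G (z' (slam F (⌊w' * J⌋₊ + 2) ω))) 1 ω (by omega)
    (hl.deg _) (hb ω hω)
  rw [g1 ω]
  refine h3.trans ?_
  have h4 : C ≤ 2 ^ J := by
    have h5 : (J : ℝ) ≤ 2 ^ J := by exact_mod_cast (Nat.lt_two_pow_self).le
    linarith
  have h6 : ((2 : ℝ) ^ (⌊w' * J⌋₊ + 2)) ^ j ≤ (2 ^ J) ^ j :=
    pow_le_pow_left₀ (by positivity) (pow_le_pow_right₀ (by norm_num) (by omega)) j
  calc C * 1 * ((2 : ℝ) ^ (⌊w' * J⌋₊ + 2)) ^ j ≤ 2 ^ J * (2 ^ J) ^ j := by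
        rw [mul_one]
        exact mul_le_mul h4 h6 (by positivity) (by positivity)
    _ = 2 ^ (((j + 1 : ℕ) : ℝ) * J) := by
        rw [← pow_succ', ← pow_mul, ← Real.rpow_natCast]
        congr 1
        push_cast
        ring
    _ ≤ 2 ^ (((max K (j + 1) : ℕ) : ℝ) * J) := by
        refine Real.rpow_le_rpow_of_exponent_le (by norm_num) ?_
        exact mul_le_mul_of_nonneg_right (by exact_mod_cast le_max_right _ _) hJ0

end Pool.LA91
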