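import Pool.Agent.H91.LA.Nst

/-!
# Approximations of the jets along a nested chain

`apx`: approximations of the jets of the heights `x (c i) - g i` of a path over charts `g i`,
from approximations `f i j` of the jets over other labels and the differences `D i j` of the
labels; `apx_ok`: their accuracy.
-/

set_option autoImplicit false

namespace Pool.LA91

open Finset Real MvPolynomial
open Pool.Agent.H49.Ent Pool.Agent.H32.Dense Pool.STK Pool.KA Pool.KSAT Pool.K2S Pool.PB Pool.GEN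

variable {m : ℕ}

/-- The path of the time. -/
noncomputable def tm (m : ℕ) (t : ℝ) (o : Option (Fin m)) : Polynomial ℝ := match o with
  | none => Polynomial.C t + Polynomial.X
  | some _ => 0

theorem lp_none {b v : Option (Fin m) → ℝ} (hv : v none = 1) :
    lp b v none = tm m (b none) none := by
  show Polynomial.C (b none) + Polynomial.C (v none) * Polynomial.X =
    Polynomial.C (b none) + Polynomial.X
  rw [hv, map_one, one_mul]

/-- The path over the charts depends on the time and the heights only. -/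
theorem nst_congr {c : ℕ → Fin m} {r : ℕ} (hc : Set.InjOn c (Set.Iio r))
    {g : ℕ → MvPolynomial (Option (Fin m)) ℝ} (hg : ∀ i < r, DepN c i (g i))
    {P P' : Option (Fin m) → Polynomial ℝ} (h0 : P none = P' none) {h h' : ℕ → Polynomial ℝ}
    {k : ℕ} (hk : k ≤ r) (hh : ∀ l < k, h l = h' l) :
    ∀ l < k, nst c g P h k (some (c l)) = nst c g P' h' k (some (c l)) := by
  intro l
  induction l using Nat.strong_induction_on with
  | _ l ih =>
    intro hl
    rw [nst_ht hc hg P h hl hk, nst_ht hc hg P' h' hl hk, hh l hl]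
    congr 1
    refine aeval_depN (hg l (by omega)) ?_ fun i hi => ih i hi (by omega)
    rw [nst_none, nst_none, h0]

theorem aeval_nst {c : ℕ → Fin m} {r : ℕ} (hc : Set.InjOn c (Set.Iio r))
    {g : ℕ → MvPolynomial (Option (Fin m)) ℝ} (hg : ∀ i < r, DepN c i (g i))
    {P P' : Option (Fin m) → Polynomial ℝ} (h0 : P none = P' none) {h h' : ℕ → Polynomial ℝ}
    {k : ℕ} (hk : k ≤ r) (hh : ∀ l < k, h l = h' l) {D : MvPolynomial (Option (Fin m)) ℝ}
    (hD : DepN c k D) : aeval (nst c g P h k) D = aeval (nst c g P' h' k) D := by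
  refine aeval_depN hD ?_ fun l hl => nst_congr hc hg h0 hk hh l hl
  rw [nst_none, nst_none, h0]

/-- **The approximations.** -/
noncomputable def apx (c : ℕ → Fin m) (g : ℕ → MvPolynomial (Option (Fin m)) ℝ) (t : ℝ)
    (f : ℕ → ℕ → ℝ) (D : ℕ → ℕ → MvPolynomial (Option (Fin m)) ℝ) : ℕ → ℕ → ℕ → ℝ
  | 0 => fun _ _ => 0
  | n + 1 => Function.update (apx c g t f D n) n (fun j => f n j +
      (Polynomial.derivative^[j] (aeval (nst c g (tm m t)
        (fun l => tay j (apx c g t f D n l)) n) (D n j))).eval 0)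

theorem apx_stay (c : ℕ → Fin m) (g : ℕ → MvPolynomial (Option (Fin m)) ℝ) (t : ℝ)
    (f : ℕ → ℕ → ℝ) (D : ℕ → ℕ → MvPolynomial (Option (Fin m)) ℝ) {n k l : ℕ} (hl : l < n)
    (hn : n ≤ k) : apx c g t f D k l = apx c g t f D n l := by
  induction k with
  | zero => omega
  | succ k ih =>
    rcases Nat.eq_or_lt_of_le hn with h1 | h1
    · rw [h1]
    · rw [← ih (by omega)]
      show Function.update _ _ _ _ = _
      rw [Function.update_of_ne (by omega)]

/-- **The accuracy of the approximations.** -/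
theorem apx_ok (m r K K' j : ℕ) : ∃ C : ℝ, 1 ≤ C ∧
    ∀ (c : ℕ → Fin m) (g : ℕ → MvPolynomial (Option (Fin m)) ℝ)
      (D : ℕ → ℕ → MvPolynomial (Option (Fin m)) ℝ) (f : ℕ → ℕ → ℝ) (b v : Option (Fin m) → ℝ)
      (s₀ δ σ τ : ℕ → ℝ) (B : ℕ → ℕ → ℝ) (ρ M : ℝ), Set.InjOn c (Set.Iio r) →
      (∀ i < r, DepN c i (g i)) → (∀ i < r, (g i).totalDegree ≤ K') →
      (∀ i < r, ∀ j' ≤ j, DepN c i (D i j')) → (∀ i < r, ∀ j' ≤ j, (D i j').totalDegree ≤ K) →
      v none = 1 → 0 < ρ → 1 ≤ M → (∀ i < r, 0 < τ i) → (∀ i < r, 4 * ((j : ℝ) + 1) * τ i ≤ 1) →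
      (∀ i < r, ∀ l < i, σ l ≤ τ i) → (∀ i < r, 0 < δ i) → (∀ i < r, ∀ j' ≤ j, 0 ≤ B i j') →
      (∀ i < r, ∀ j' ≤ j, ∀ x : Option (Fin m) → ℝ, |x none - b none| ≤ ρ →
        (∀ l < i, |x (some (c l)) - eval x (g l) - s₀ l| ≤ 2 * δ l) → |eval x (D i j')| ≤ B i j') →
      (∀ i < r, |jet 0 (X (some (c i)) - g i) b v - s₀ i| ≤ δ i) →
      (∀ i < r, ∀ j', 1 ≤ j' → j' ≤ j → |jet j' (X (some (c i)) - g i) b v| ≤
        M * δ i / ρ ^ j') →
      (∀ i < r, ∀ j' ≤ j, |f i j' - (jet j' (X (some (c i)) - g i) b v - jet j' (D i j') b v)| ≤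
        σ i * δ i / (2 * ρ ^ j')) →
      (∀ i < r, ∀ j' ≤ j, 2 * (C * M ^ j * (B i j' * τ i)) ≤ σ i * δ i) →
      ∀ n ≤ r, ∀ l < n, ∀ j' ≤ j, |apx c g (b none) f D n l j' -
        jet j' (X (some (c l)) - g l) b v| ≤ σ l * δ l / ρ ^ j' := by
  have hex : ∀ n j' : ℕ, ∃ C : ℝ, 1 ≤ C ∧
    ∀ (c : ℕ → Fin m) (g : ℕ → MvPolynomial (Option (Fin m)) ℝ)
      (D : MvPolynomial (Option (Fin m)) ℝ) (b v : Option (Fin m) → ℝ) (s₀ δ : ℕ → ℝ)
      (a : ℕ → ℕ → ℝ) (ρ B M σ : ℝ), Set.InjOn c (Set.Iio n) →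
      (∀ i < n, DepN c i (g i)) → (∀ i < n, (g i).totalDegree ≤ K') → DepN c n D →
      D.totalDegree ≤ K → v none = 1 → 0 < ρ → 1 ≤ M → 0 < σ → 4 * ((j' : ℝ) + 1) * σ ≤ 1 →
      (∀ i < n, 0 < δ i) →
      (∀ x : Option (Fin m) → ℝ, |x none - b none| ≤ ρ →
        (∀ i < n, |x (some (c i)) - eval x (g i) - s₀ i| ≤ 2 * δ i) → |eval x D| ≤ B) →
      (∀ i < n, |jet 0 (X (some (c i)) - g i) b v - s₀ i| ≤ δ i) →
      (∀ i < n, ∀ j'', 1 ≤ j'' → j'' ≤ j' → |jet j'' (X (some (c i)) - g i) b v| ≤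
        M * δ i / ρ ^ j'') →
      (∀ i < n, ∀ j'' ≤ j', |a i j'' - jet j'' (X (some (c i)) - g i) b v| ≤ σ * δ i / ρ ^ j'') →
      |jet j' D b v - (Polynomial.derivative^[j']
        (aeval (nst c g (lp b v) (fun i => tay j' (a i)) n) D)).eval 0| ≤
        C * M ^ j' * (B * σ) / ρ ^ j' := fun n j' => jet_nst m n K K' j'
  choose Cf hCf1 hCf using hex
  obtain ⟨C, hC⟩ : ∃ C : ℝ, C = 1 + ∑ n ∈ range (r + 1), ∑ j' ∈ range (j + 1), Cf n j' := ⟨_, rfl⟩
  have hCf0 : ∀ n j', 0 ≤ Cf n j' := fun n j' => zero_le_one.trans (hCf1 n j')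
  have hCle : ∀ n ≤ r, ∀ j' ≤ j, Cf n j' ≤ C := by
    intro n hn j' hj'
    have h1 : Cf n j' ≤ ∑ j' ∈ range (j + 1), Cf n j' :=
      Finset.single_le_sum (f := fun j' => Cf n j') (fun i _ => hCf0 n i)
        (mem_range.2 (by omega))
    have h2 : ∑ j' ∈ range (j + 1), Cf n j' ≤ ∑ n ∈ range (r + 1), ∑ j' ∈ range (j + 1), Cf n j' :=
      Finset.single_le_sum (f := fun n => ∑ j' ∈ range (j + 1), Cf n j')
        (fun i _ => Finset.sum_nonneg fun i' _ => hCf0 i i') (mem_range.2 (by omega))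
    rw [hC]
    linarith
  refine ⟨C, ?_, ?_⟩
  · rw [hC]
    have : 0 ≤ ∑ n ∈ range (r + 1), ∑ j' ∈ range (j + 1), Cf n j' :=
      Finset.sum_nonneg fun i _ => Finset.sum_nonneg fun i' _ => hCf0 i i'
    linarith
  intro c g D f b v s₀ δ σ τ B ρ M hc hg hgd hD hDd hv hρ hM hτ0 hτ1 hτσ hδ hB hbox h0 hj hf hCB
  have hM0 : (0 : ℝ) ≤ M := by linarith
  intro n
  induction n with
  | zero =>
    intro _ l hl
    exact absurd hl (Nat.not_lt_zero l)
  | succ n ih =>
    intro hn l hl j' hj'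
    rcases Nat.lt_or_ge l n with h1 | h1
    · rw [apx_stay c g (b none) f D h1 (Nat.le_succ n)]
      exact ih (by omega) l h1 j' hj'
    · obtain rfl : l = n := by omega
      have hρj : 0 < ρ ^ j' := pow_pos hρ j'
      have e1 : apx c g (b none) f D (l + 1) l j' = f l j' +
          (Polynomial.derivative^[j'] (aeval (nst c g (tm m (b none))
            (fun l' => tay j' (apx c g (b none) f D l l')) l) (D l j'))).eval 0 := by
        show Function.update (apx c g (b none) f D l) l _ l j' = _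
        rw [Function.update_self]
      have hlr : l < r := by omega
      have hcl : Set.InjOn c (Set.Iio l) := fun a ha a' ha' haa =>
        hc (Set.mem_Iio.2 (lt_trans ha hlr)) (Set.mem_Iio.2 (lt_trans ha' hlr)) haa
      have hjj : (j' : ℝ) ≤ j := by exact_mod_cast hj'
      have key := hCf l j' c g (D l j') b v s₀ δ (apx c g (b none) f D l) ρ (B l j') M (τ l) hcl
        (fun i hi => hg i (by omega)) (fun i hi => hgd i (by omega)) (hD l hlr j' hj')
        (hDd l hlr j' hj') hv hρ hM (hτ0 l hlr) (by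
          refine le_trans ?_ (hτ1 l hlr)
          exact mul_le_mul_of_nonneg_right (by linarith) (hτ0 l hlr).le)
        (fun i hi => hδ i (by omega)) (hbox l hlr j' hj') (fun i hi => h0 i (by omega))
        (fun i hi j'' a1 a2 => hj i (by omega) j'' a1 (by omega)) (fun i hi j'' a1 => by
          refine (ih (by omega) i hi j'' (by omega)).trans ?_
          refine div_le_div_of_nonneg_right ?_ (pow_pos hρ j'').le
          exact mul_le_mul_of_nonneg_right (hτσ l hlr i hi) (hδ i (by omega)).le)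
      have e2 : aeval (nst c g (lp b v) (fun l' => tay j' (apx c g (b none) f D l l')) l) (D l j') =
          aeval (nst c g (tm m (b none)) (fun l' => tay j' (apx c g (b none) f D l l')) l)
            (D l j') :=
        aeval_nst hc hg (lp_none hv) hlr.le (fun _ _ => rfl) (hD l hlr j' hj')
      rw [e2] at key
      rw [e1]
      obtain ⟨val, hval⟩ : ∃ val, val = (Polynomial.derivative^[j'] (aeval (nst c g (tm m (b none))
            (fun l' => tay j' (apx c g (b none) f D l l')) l) (D l j'))).eval 0 := ⟨_, rfl⟩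
      rw [← hval] at key ⊢
      have hf' := hf l hlr j' hj'
      have hBτ : 0 ≤ B l j' * τ l := mul_nonneg (hB l hlr j' hj') (hτ0 l hlr).le
      have k1 : Cf l j' * M ^ j' * (B l j' * τ l) / ρ ^ j' ≤ σ l * δ l / (2 * ρ ^ j') := by
        rw [div_le_div_iff₀ hρj (by positivity)]
        have k2 : Cf l j' * M ^ j' ≤ C * M ^ j := mul_le_mul (hCle l hlr.le j' hj')
          (pow_le_pow_right₀ hM hj') (by positivity) ((hCf0 l j').trans (hCle l hlr.le j' hj'))
        have k3 := mul_le_mul_of_nonneg_right k2 hBτ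
        have k4 := hCB l hlr j' hj'
        have k5 : 2 * (Cf l j' * M ^ j' * (B l j' * τ l)) ≤ σ l * δ l := by linarith
        have k6 := mul_le_mul_of_nonneg_right k5 hρj.le
        linarith
      have e3 : f l j' + val - jet j' (X (some (c l)) - g l) b v =
          (f l j' - (jet j' (X (some (c l)) - g l) b v - jet j' (D l j') b v)) -
          (jet j' (D l j') b v - val) := by ring
      have e4 : σ l * δ l / ρ ^ j' = σ l * δ l / (2 * ρ ^ j') + σ l * δ l / (2 * ρ ^ j') := by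
        field_simp
        ring
      rw [e3, e4]
      refine (abs_sub _ _).trans (add_le_add hf' (key.trans k1))

/-- **The value of the jet** of `H` along the approximate path. -/
noncomputable def apv (c : ℕ → Fin m) (j : ℕ) (g : ℕ → MvPolynomial (Option (Fin m)) ℝ) (t : ℝ)
    (f : ℕ → ℕ → ℝ) (D : ℕ → ℕ → MvPolynomial (Option (Fin m)) ℝ) (r : ℕ)
    (H : MvPolynomial (Option (Fin m)) ℝ) : ℝ :=
  (Polynomial.derivative^[j] (aeval (nst c g (tm m t)
    (fun l => tay j (apx c g t f D r l)) r) H)).eval 0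

/-- **The accuracy of the value.** -/
theorem apv_ok (m r K K' j : ℕ) : ∃ C : ℝ, 1 ≤ C ∧
    ∀ (c : ℕ → Fin m) (g : ℕ → MvPolynomial (Option (Fin m)) ℝ)
      (D : ℕ → ℕ → MvPolynomial (Option (Fin m)) ℝ) (f : ℕ → ℕ → ℝ) (b v : Option (Fin m) → ℝ)
      (s₀ δ σ τ : ℕ → ℝ) (B : ℕ → ℕ → ℝ) (ρ M : ℝ) (H : MvPolynomial (Option (Fin m)) ℝ)
      (BH : ℝ), Set.InjOn c (Set.Iio r) →
      (∀ i < r, DepN c i (g i)) → (∀ i < r, (g i).totalDegree ≤ K') →
      (∀ i < r, ∀ j' ≤ j, DepN c i (D i j')) → (∀ i < r, ∀ j' ≤ j, (D i j').totalDegree ≤ K) →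
      DepN c r H → H.totalDegree ≤ K →
      v none = 1 → 0 < ρ → 1 ≤ M → (∀ i ≤ r, 0 < τ i) → (∀ i ≤ r, 4 * ((j : ℝ) + 1) * τ i ≤ 1) →
      (∀ i ≤ r, ∀ l < i, σ l ≤ τ i) → (∀ i < r, 0 < δ i) → (∀ i < r, ∀ j' ≤ j, 0 ≤ B i j') →
      (∀ i < r, ∀ j' ≤ j, ∀ x : Option (Fin m) → ℝ, |x none - b none| ≤ ρ →
        (∀ l < i, |x (some (c l)) - eval x (g l) - s₀ l| ≤ 2 * δ l) →
        |eval x (D i j')| ≤ B i j') →
      (∀ x : Option (Fin m) → ℝ, |x none - b none| ≤ ρ →
        (∀ l < r, |x (some (c l)) - eval x (g l) - s₀ l| ≤ 2 * δ l) → |eval x H| ≤ BH) →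
      (∀ i < r, |jet 0 (X (some (c i)) - g i) b v - s₀ i| ≤ δ i) →
      (∀ i < r, ∀ j', 1 ≤ j' → j' ≤ j → |jet j' (X (some (c i)) - g i) b v| ≤
        M * δ i / ρ ^ j') →
      (∀ i < r, ∀ j' ≤ j, |f i j' - (jet j' (X (some (c i)) - g i) b v - jet j' (D i j') b v)| ≤
        σ i * δ i / (2 * ρ ^ j')) →
      (∀ i < r, ∀ j' ≤ j, 2 * (C * M ^ j * (B i j' * τ i)) ≤ σ i * δ i) →
      |jet j H b v - apv c j g (b none) f D r H| ≤ C * M ^ j * (BH * τ r) / ρ ^ j := by
  obtain ⟨C₁, hC₁, h₁⟩ := apx_ok m r K K' j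
  obtain ⟨C₂, hC₂, h₂⟩ := jet_nst m r K K' j
  refine ⟨max C₁ C₂, le_max_of_le_left hC₁, ?_⟩
  intro c g D f b v s₀ δ σ τ B ρ M H BH hc hg hgd hD hDd hH hHd hv hρ hM hτ0 hτ1 hτσ hδ hB hbox
    hboxH h0 hj hf hCB
  have hM0 : (0 : ℝ) ≤ M ^ j := pow_nonneg (by linarith) j
  have hapx := h₁ c g D f b v s₀ δ σ τ B ρ M hc hg hgd hD hDd hv hρ hM (fun i hi => hτ0 i hi.le)
    (fun i hi => hτ1 i hi.le) (fun i hi => hτσ i hi.le) hδ hB hbox h0 hj hf (fun i hi j' hj' => by
      refine le_trans ?_ (hCB i hi j' hj')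
      have h3 : 0 ≤ B i j' * τ i := mul_nonneg (hB i hi j' hj') (hτ0 i hi.le).le
      have h4 : C₁ * M ^ j ≤ max C₁ C₂ * M ^ j :=
        mul_le_mul_of_nonneg_right (le_max_left _ _) hM0
      have h5 := mul_le_mul_of_nonneg_right h4 h3
      linarith)
  have hBH : 0 ≤ BH := (abs_nonneg _).trans (hboxH b (by
    rw [sub_self, abs_zero]
    exact hρ.le) fun l hl => by
      have h3 := h0 l hl
      have h4 : jet 0 (X (some (c l)) - g l) b v = b (some (c l)) - eval b (g l) := by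
        unfold jet
        rw [Function.iterate_zero, id_eq, eval_alp, map_sub, eval_X]
        simp only [zero_mul, add_zero]
      rw [h4] at h3
      have h5 := hδ l hl
      linarith)
  have key := h₂ c g H b v s₀ δ (apx c g (b none) f D r) ρ BH M (τ r) hc hg hgd hH hHd hv hρ hM
    (hτ0 r le_rfl) (hτ1 r le_rfl) hδ hboxH h0 hj (fun i hi j' hj' => by
      refine (hapx r le_rfl i hi j' hj').trans ?_
      refine div_le_div_of_nonneg_right ?_ (pow_pos hρ j').le
      exact mul_le_mul_of_nonneg_right (hτσ r le_rfl i hi) (hδ i hi).le)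
  rw [aeval_nst hc hg (lp_none hv) le_rfl (fun _ _ => rfl) hH] at key
  refine key.trans (div_le_div_of_nonneg_right ?_ (pow_pos hρ j).le)
  refine mul_le_mul_of_nonneg_right ?_ (mul_nonneg hBH (hτ0 r le_rfl).le)
  exact mul_le_mul_of_nonneg_right (le_max_right _ _) hM0

end Pool.LA91
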