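import Pool.Agent.H91.LA.Apx
import Pool.Agent.H91.LA.Nbxc

/-!
# The jets over nested charts, at one point

`jetN_pt`: the jet of a polynomial which is small on the natural box of the charts, at the own
point, from the digits of the base and the digits of the jets of the coordinates with charts.
-/

set_option autoImplicit false

namespace Pool.LA91

open Finset Real MvPolynomial
open Pool.Agent.H49.Ent Pool.Agent.H32.Dense Pool.STK Pool.KA Pool.KSAT Pool.K2S Pool.PB Pool.GEN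
open Pool.S6C Pool.RCD
open Pool.GRD (LbP Pb_mono_pos)
open Pool.GRW (xr xr_near)

variable {m J : ℕ}

theorem jet_X (o : Option (Fin m)) (b v : Option (Fin m) → ℝ) :
    jet 0 (X o) b v = b o ∧ jet 1 (X o) b v = v o ∧ ∀ j, jet (j + 2) (X o) b v = 0 := by
  have h : aeval (lp b v) (X o : MvPolynomial (Option (Fin m)) ℝ) =
      Polynomial.C (b o) + Polynomial.C (v o) * Polynomial.X := by
    rw [aeval_X]
    rfl
  refine ⟨?_, ?_, fun j => ?_⟩
  · unfold jet
    rw [h]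
    simp
  · unfold jet
    rw [h]
    simp
  · unfold jet
    rw [h, Function.iterate_add_apply]
    have h2 : Polynomial.derivative^[2] (Polynomial.C (b o) +
        Polynomial.C (v o) * Polynomial.X) = 0 := by
      simp
    rw [h2, Polynomial.iterate_derivative_zero, Polynomial.eval_zero]

/-- The known part of the jets of the charts. -/
noncomputable def fjt (c : ℕ → Fin m) (r₀ a l : ℕ) (N : ℕ → ℕ → ℝ) (X D : Fin m → ℤ)
    (u : ℕ → ℕ → ℤ) (i j : ℕ) : ℝ :=
  if i < r₀ then (if j = 0 then (X (c i) : ℝ) / 2 ^ a else if j = 1 then (D (c i) : ℝ) / 2 ^ l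
    else 0) else (u i j : ℝ) / 2 ^ N i j

/-- The differences of the labels and the charts. -/
noncomputable def djt (r₀ r j : ℕ) (G : ℕ → ℕ → MvPolynomial (Option (Fin m)) ℝ)
    (g : ℕ → MvPolynomial (Option (Fin m)) ℝ) (i j' : ℕ) : MvPolynomial (Option (Fin m)) ℝ :=
  if r₀ ≤ i ∧ i < r ∧ j' ≤ j then G i j' - g i else 0

/-- **The jets over nested charts**, at one point. -/
theorem jetN_pt (m r K K' j : ℕ) : ∃ C : ℝ, 1 ≤ C ∧
    ∀ (J : ℕ) (F : Fam m J) (ω : F.Ω) (c : ℕ → Fin m) (r₀ U a l : ℕ) (gg : ℕ → ℕ)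
      (g : ℕ → MvPolynomial (Option (Fin m)) ℝ) (G : ℕ → ℕ → MvPolynomial (Option (Fin m)) ℝ)
      (H : MvPolynomial (Option (Fin m)) ℝ) (uu : ℕ → ℕ → ℤ) (N : ℕ → ℕ → ℝ)
      (σ τ : ℕ → ℝ) (B : ℕ → ℕ → ℝ) (M BH : ℝ),
      r₀ ≤ r → Set.InjOn c (Set.Iio r) → U < J → (∀ i < r₀, g i = 0) →
      (∀ i, r₀ ≤ i → i < r → DepN c i (g i)) → (∀ i < r, (g i).totalDegree ≤ K') →
      (∀ i, r₀ ≤ i → i < r → ∀ j' ≤ j, DepN c i (G i j')) →
      (∀ i, r₀ ≤ i → i < r → ∀ j' ≤ j, (G i j').totalDegree ≤ K) →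
      DepN c r H → H.totalDegree ≤ K → 1 ≤ M → (∀ i ≤ r, 0 < τ i) →
      (∀ i ≤ r, 4 * ((j : ℝ) + 1) * τ i ≤ 1) → (∀ i ≤ r, ∀ l < i, σ l ≤ τ i) →
      (∀ i < r, 0 < σ i) →
      (∀ i, r₀ ≤ i → i < r → ∀ j' ≤ j, 0 ≤ B i j') →
      (∀ i, r₀ ≤ i → i < r → ∀ j' ≤ j, ∀ x, NB F c r₀ i U (fun i => 2 / 2 ^ gg i) g ω x →
        |eval x (G i j' - g i)| ≤ B i j') →
      (∀ x, NB F c r₀ r U (fun i => 2 / 2 ^ gg i) g ω x → |eval x H| ≤ BH) →
      (∀ i, r₀ ≤ i → i < r → |F.x ω (c i) - eval (bt F ω) (g i)| ≤ 1 / 2 ^ gg i) →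
      (∀ i, r₀ ≤ i → i < r → ∀ j', 1 ≤ j' → j' ≤ j →
        |ojet F (c i) j' (g i) ω| ≤ M * (1 / 2 ^ gg i) * (4 * 2 ^ U) ^ j') →
      (∀ i < r₀, 8 * 2 ^ U / 2 ^ a ≤ σ i) → (∀ i < r₀, 2 / 2 ^ l ≤ σ i) →
      (∀ i, r₀ ≤ i → i < r → ∀ j' ≤ j, |(uu i j' : ℝ) / 2 ^ N i j' - ojet F (c i) j' (G i j') ω| ≤
        σ i * (1 / 2 ^ gg i) / 2 * (4 * 2 ^ U) ^ j') →
      (∀ i, r₀ ≤ i → i < r → ∀ j' ≤ j, 2 * (C * M ^ j * (B i j' * τ i)) ≤
        σ i * (1 / 2 ^ gg i)) →
      |jet j H (bt F ω) (bd F ω) - apv c j g ((F.T ω : ℝ) / 2 ^ J)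
        (fjt c r₀ a l N (fun i => F.X a ω i) (fun i => F.D l ω i) uu) (djt r₀ r j G g) r H| ≤
        C * M ^ j * (BH * τ r) * (4 * 2 ^ U) ^ j := by
  obtain ⟨C, hC, key⟩ := apv_ok m r (max K K') K' j
  refine ⟨C, hC, ?_⟩
  intro J F ω c r₀ U a l gg g G H uu N σ τ B M BH hr hc hU hg0 hg hgd hG hGd hH hHd hM hτ0 hτ1
    hτσ hσ hB hbox hboxH hpos hown hba hbl huu hCB
  obtain ⟨ρ, hρ⟩ : ∃ ρ : ℝ, ρ = 1 / (4 * 2 ^ U) := ⟨_, rfl⟩
  have hρ0 : 0 < ρ := by rw [hρ]; positivity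
  have hρU : 4 * ρ = 1 / 2 ^ U := by
    rw [hρ]
    field_simp
  have hρJ : 2 * ρ + 1 / 2 ^ J ≤ 1 / 2 ^ U := by
    have e1 : (1 : ℝ) / 2 ^ J ≤ 1 / 2 ^ (U + 1) := Pool.PB.inv_mono hU
    have e2 : (1 : ℝ) / 2 ^ (U + 1) = 2 * ρ := by
      rw [hρ, pow_succ]
      field_simp
      norm_num
    linarith
  have hρp : ∀ j' : ℕ, (1 : ℝ) / ρ ^ j' = (4 * 2 ^ U) ^ j' := by
    intro j'
    rw [hρ, one_div_pow, one_div_one_div]
  obtain ⟨δ, hδ⟩ : ∃ δ : ℕ → ℝ, δ = fun i => if i < r₀ then ρ else 1 / 2 ^ gg i := ⟨_, rfl⟩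
  have hδb : ∀ i < r₀, δ i = ρ := fun i hi => by rw [hδ]; exact if_pos hi
  have hδc : ∀ i, r₀ ≤ i → δ i = 1 / 2 ^ gg i := fun i hi => by
    rw [hδ]
    exact if_neg (not_lt.2 hi)
  obtain ⟨s₀, hs₀⟩ : ∃ s₀ : ℕ → ℝ, s₀ = fun i => if i < r₀ then F.x ω (c i) else 0 := ⟨_, rfl⟩
  have hsb : ∀ i < r₀, s₀ i = F.x ω (c i) := fun i hi => by rw [hs₀]; exact if_pos hi
  have hsc : ∀ i, r₀ ≤ i → s₀ i = 0 := fun i hi => by rw [hs₀]; exact if_neg (not_lt.2 hi)
  have hdb : ∀ i < r₀, ∀ j', djt r₀ r j G g i j' = 0 := fun i hi j' => by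
    unfold djt
    rw [if_neg (by omega)]
  have hdc : ∀ i, r₀ ≤ i → i < r → ∀ j' ≤ j, djt r₀ r j G g i j' = G i j' - g i :=
    fun i hi hi' j' hj' => by
      unfold djt
      rw [if_pos ⟨hi, hi', hj'⟩]
  obtain ⟨B', hB'⟩ : ∃ B' : ℕ → ℕ → ℝ, B' = fun i j' => if i < r₀ then 0 else B i j' := ⟨_, rfl⟩
  have hBb : ∀ i < r₀, ∀ j', B' i j' = 0 := fun i hi j' => by rw [hB']; exact if_pos hi
  have hBc : ∀ i, r₀ ≤ i → ∀ j', B' i j' = B i j' := fun i hi j' => by
    rw [hB']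
    exact if_neg (not_lt.2 hi)
  obtain ⟨f, hf⟩ : ∃ f, f = fjt c r₀ a l N (fun i => F.X a ω i) (fun i => F.D l ω i) uu := ⟨_, rfl⟩
  have hfc : ∀ i, r₀ ≤ i → ∀ j', f i j' = (uu i j' : ℝ) / 2 ^ N i j' := fun i hi j' => by
    rw [hf]
    exact if_neg (not_lt.2 hi)
  have hbase : ∀ i < r₀, jet 0 (X (some (c i)) - g i) (bt F ω) (bd F ω) = F.x ω (c i) ∧
      jet 1 (X (some (c i)) - g i) (bt F ω) (bd F ω) = F.d ω (c i) ∧
      ∀ j', jet (j' + 2) (X (some (c i)) - g i) (bt F ω) (bd F ω) = 0 := by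
    intro i hi
    rw [hg0 i hi, sub_zero]
    exact jet_X (some (c i)) (bt F ω) (bd F ω)
  have hdep : ∀ i < r, DepN c i (g i) := by
    intro i hi
    rcases Nat.lt_or_ge i r₀ with h | h
    · intro b b' _ _
      rw [hg0 i h, map_zero, map_zero]
    · exact hg i h hi
  -- the box
  have hNB : ∀ n, n ≤ r → ∀ x : Option (Fin m) → ℝ, |x none - bt F ω none| ≤ ρ →
      (∀ l < n, |x (some (c l)) - eval x (g l) - s₀ l| ≤ 2 * δ l) → r₀ ≤ n →
      NB F c r₀ n U (fun i => 2 / 2 ^ gg i) g ω x := by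
    intro n hn x h1 h2 h3
    refine ⟨?_, fun i hi => ?_, fun i hi hi' => ?_⟩
    · have : |x none - F.t ω| ≤ ρ := h1
      refine this.trans ?_
      rw [← hρU]
      linarith
    · have h4 := h2 i (by omega)
      rw [hg0 i hi, map_zero, sub_zero, hsb i hi, hδb i hi] at h4
      have h5 := xr_near F ω (some (c i))
      have h6 : bt F ω (some (c i)) = F.x ω (c i) := rfl
      rw [h6] at h5
      have e1 : x (some (c i)) - xr F ω (some (c i)) = (x (some (c i)) - F.x ω (c i)) -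
        (xr F ω (some (c i)) - F.x ω (c i)) := by ring
      rw [e1]
      refine (abs_sub _ _).trans ?_
      linarith
    · have h4 := h2 i hi'
      rw [hsc i hi, sub_zero, hδc i hi] at h4
      refine h4.trans (le_of_eq ?_)
      ring
  have hout := key c g (djt r₀ r j G g) f (bt F ω) (bd F ω) s₀ δ σ τ B' ρ M H BH hc hdep hgd ?_ ?_
    hH (hHd.trans (le_max_left _ _)) rfl hρ0 hM hτ0 hτ1 hτσ ?_ ?_ ?_ ?_ ?_ ?_ ?_ ?_
  · have e1 : bt F ω none = (F.T ω : ℝ) / 2 ^ J := rfl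
    rw [e1, hf] at hout
    refine hout.trans (le_of_eq ?_)
    rw [div_eq_mul_one_div, hρp]
  · -- dependence
    intro i hi j' hj'
    rcases Nat.lt_or_ge i r₀ with h | h
    · rw [hdb i h j']
      intro b b' _ _
      rw [map_zero, map_zero]
    · rw [hdc i h hi j' hj']
      intro b b' h1 h2
      rw [map_sub, map_sub, hG i h hi j' hj' b b' h1 h2, hg i h hi b b' h1 h2]
  · -- degree
    intro i hi j' hj'
    rcases Nat.lt_or_ge i r₀ with h | h
    · rw [hdb i h j', totalDegree_zero]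
      exact Nat.zero_le _
    · rw [hdc i h hi j' hj']
      exact (totalDegree_sub _ _).trans (max_le_max (hGd i h hi j' hj') (hgd i hi))
  · intro i hi
    rcases Nat.lt_or_ge i r₀ with h | h
    · rw [hδb i h]
      exact hρ0
    · rw [hδc i h]
      positivity
  · intro i hi j' hj'
    rcases Nat.lt_or_ge i r₀ with h | h
    · rw [hBb i h]
    · rw [hBc i h]
      exact hB i h hi j' hj'
  · -- the boxes
    intro i hi j' hj' x h1 h2
    rcases Nat.lt_or_ge i r₀ with h | h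
    · rw [hdb i h, map_zero, abs_zero, hBb i h]
    · rw [hdc i h hi j' hj', hBc i h]
      exact hbox i h hi j' hj' x (hNB i hi.le x h1 h2 h)
  · intro x h1 h2
    exact hboxH x (hNB r le_rfl x h1 h2 hr)
  · -- the own heights
    intro i hi
    rcases Nat.lt_or_ge i r₀ with h | h
    · rw [(hbase i h).1, hsb i h, sub_self, abs_zero, hδb i h]
      exact hρ0.le
    · rw [hsc i h, sub_zero, hδc i h]
      have e1 : jet 0 (X (some (c i)) - g i) (bt F ω) (bd F ω) =
          F.x ω (c i) - eval (bt F ω) (g i) := by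
        unfold jet
        rw [Function.iterate_zero, id_eq, eval_alp, map_sub, eval_X]
        simp only [zero_mul, add_zero]
        rfl
      rw [e1]
      exact hpos i h hi
  · -- the own jets
    intro i hi j' h1 h2
    rcases Nat.lt_or_ge i r₀ with h | h
    · rw [hδb i h]
      rcases Nat.eq_or_lt_of_le h1 with h3 | h3
      · rw [← h3, (hbase i h).2.1, pow_one, mul_div_assoc, div_self hρ0.ne', mul_one]
        exact (F.dir ω (c i)).trans hM
      · obtain ⟨j₂, rfl⟩ : ∃ j₂, j' = j₂ + 2 := ⟨j' - 2, by omega⟩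
        rw [(hbase i h).2.2, abs_zero]
        positivity
    · rw [hδc i h, div_eq_mul_one_div _ (ρ ^ j'), hρp]
      exact hown i h hi j' h1 h2
  · -- the approximations
    intro i hi j' hj'
    rcases Nat.lt_or_ge i r₀ with h | h
    · have hjz : jet j' (djt r₀ r j G g i j') (bt F ω) (bd F ω) = 0 := by
        rw [hdb i h]
        unfold jet
        rw [map_zero, Polynomial.iterate_derivative_zero, Polynomial.eval_zero]
      rw [hjz, sub_zero, hδb i h]
      rcases Nat.eq_zero_or_pos j' with h3 | h3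
      · subst h3
        have e1 : f i 0 = (F.X a ω (c i) : ℝ) / 2 ^ a := by
          rw [hf]
          unfold fjt
          rw [if_pos h, if_pos rfl]
        rw [e1, (hbase i h).1, pow_zero, mul_one]
        have e2 := fl_near a (F.x ω (c i))
        have e3 : |(F.X a ω (c i) : ℝ) / 2 ^ a - F.x ω (c i)| ≤ 1 / 2 ^ a := e2
        refine e3.trans ?_
        have e4 := mul_le_mul_of_nonneg_right (hba i h) hρ0.le
        have e5 : 8 * 2 ^ U / 2 ^ a * ρ = 2 * (1 / 2 ^ a) := by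
          rw [hρ]
          field_simp
          norm_num
        rw [e5] at e4
        linarith
      · rcases Nat.eq_or_lt_of_le h3 with h4 | h4
        · have h4' : j' = 1 := by omega
          subst h4'
          have e1 : f i 1 = (F.D l ω (c i) : ℝ) / 2 ^ l := by
            rw [hf]
            unfold fjt
            rw [if_pos h, if_neg (by norm_num), if_pos rfl]
          rw [e1, (hbase i h).2.1, pow_one]
          have e2 := fl_near l (F.d ω (c i))
          have e3 : |(F.D l ω (c i) : ℝ) / 2 ^ l - F.d ω (c i)| ≤ 1 / 2 ^ l := e2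
          refine e3.trans ?_
          have e4 := hbl i h
          have e5 : σ i * ρ / (2 * ρ) = σ i / 2 := by
            field_simp
          rw [e5]
          have e6 : (2 : ℝ) / 2 ^ l = 2 * (1 / 2 ^ l) := by ring
          rw [e6] at e4
          linarith
        · obtain ⟨j₂, rfl⟩ : ∃ j₂, j' = j₂ + 2 := ⟨j' - 2, by omega⟩
          have e1 : f i (j₂ + 2) = 0 := by
            rw [hf]
            unfold fjt
            rw [if_pos h, if_neg (by omega), if_neg (by omega)]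
          rw [e1, (hbase i h).2.2, sub_zero, abs_zero]
          have := (hσ i hi).le
          positivity
    · rw [hfc i h, hdc i h hi j' hj', hδc i h]
      have e1 : jet j' (X (some (c i)) - g i) (bt F ω) (bd F ω) -
          jet j' (G i j' - g i) (bt F ω) (bd F ω) = ojet F (c i) j' (G i j') ω := by
        unfold ojet
        rw [jet_sub, jet_sub, jet_sub]
        ring
      rw [e1]
      refine (huu i h hi j' hj').trans (le_of_eq ?_)
      rw [← hρp]
      field_simp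
  · -- the constants
    intro i hi j' hj'
    rcases Nat.lt_or_ge i r₀ with h | h
    · rw [hBb i h, hδb i h, zero_mul, mul_zero, mul_zero]
      exact mul_nonneg (hσ i hi).le hρ0.le
    · rw [hBc i h, hδc i h]
      exact hCB i h hi j' hj'

end Pool.LA91
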