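import Pool.Agent.H91.LA.Jet

/-!
# Jets of polynomials on nested boxes

A chain of coordinates `c 0, c 1, …` with charts `g i` (polynomials in the time and the coordinates
before `c i`). `nst`: the path whose heights over the charts are given. `jet_nst`: if `D` is small
on the nested box, the jets of `D` on the own line are determined, up to a small error, by
approximations of the jets of the heights of the own line.
-/

set_option autoImplicit false

namespace Pool.LA91

open Finset Real MvPolynomial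

variable {m : ℕ}

/-! ### Polynomials in one variable -/

theorem natDegree_aevalE {σ : Type} (Q : MvPolynomial σ ℝ) (g : σ → Polynomial ℝ) {E : ℕ}
    (hg : ∀ i, (g i).natDegree ≤ E) {D : ℕ} (h : Q.totalDegree ≤ D) :
    (MvPolynomial.aeval g Q).natDegree ≤ D * E := by
  rw [MvPolynomial.aeval_def, MvPolynomial.eval₂_eq]
  refine Polynomial.natDegree_sum_le_of_forall_le _ _ fun α hα => ?_
  refine (Polynomial.natDegree_mul_le).trans ?_
  have h1 : (algebraMap ℝ (Polynomial ℝ) (MvPolynomial.coeff α Q)).natDegree = 0 :=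
    Polynomial.natDegree_C _
  have h2 : (∏ i ∈ α.support, g i ^ α i).natDegree ≤ α.degree * E := by
    refine (Polynomial.natDegree_prod_le _ _).trans ?_
    rw [Finsupp.degree_apply, Finset.sum_mul]
    refine Finset.sum_le_sum fun i _ => ?_
    refine Polynomial.natDegree_pow_le.trans ?_
    exact Nat.mul_le_mul_left (α i) (hg i)
  rw [h1, zero_add]
  exact h2.trans (Nat.mul_le_mul_right E ((MvPolynomial.le_totalDegree hα).trans h))

/-- The polynomial of degree `j` with the derivatives `a k` at `0`. -/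
noncomputable def tay (j : ℕ) (a : ℕ → ℝ) : Polynomial ℝ :=
  ∑ k ∈ range (j + 1), Polynomial.C (a k / (k.factorial : ℝ)) * Polynomial.X ^ k

theorem natDegree_tay (j : ℕ) (a : ℕ → ℝ) : (tay j a).natDegree ≤ j := by
  unfold tay
  refine Polynomial.natDegree_sum_le_of_forall_le _ _ fun k hk => ?_
  refine (Polynomial.natDegree_C_mul_X_pow_le _ _).trans ?_
  have := Finset.mem_range.1 hk
  omega

theorem eval_tay (j : ℕ) (a : ℕ → ℝ) (t : ℝ) :
    (tay j a).eval t = ∑ k ∈ range (j + 1), a k / (k.factorial : ℝ) * t ^ k := by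
  unfold tay
  rw [Polynomial.eval_finsetSum]
  refine Finset.sum_congr rfl fun k _ => ?_
  rw [Polynomial.eval_mul, Polynomial.eval_C, Polynomial.eval_pow, Polynomial.eval_X]

theorem der_zero (p : Polynomial ℝ) (k : ℕ) :
    (Polynomial.derivative^[k] p).eval 0 = (k.factorial : ℝ) * p.coeff k := by
  rw [← Polynomial.coeff_zero_eq_eval_zero, Polynomial.coeff_iterate_derivative, zero_add,
    Nat.descFactorial_self, nsmul_eq_mul]

theorem der_of_dvd {p q : Polynomial ℝ} {j : ℕ} (h : Polynomial.X ^ (j + 1) ∣ p - q) :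
    (Polynomial.derivative^[j] p).eval 0 = (Polynomial.derivative^[j] q).eval 0 := by
  rw [der_zero, der_zero]
  have h1 := (Polynomial.X_pow_dvd_iff.1 h) j (Nat.lt_succ_self j)
  rw [Polynomial.coeff_sub] at h1
  have : p.coeff j = q.coeff j := by linarith
  rw [this]

theorem dvd_tay (p : Polynomial ℝ) (j : ℕ) : Polynomial.X ^ (j + 1) ∣
    p - tay j (fun k => (Polynomial.derivative^[k] p).eval 0) := by
  rw [Polynomial.X_pow_dvd_iff]
  intro d hd
  rw [Polynomial.coeff_sub]
  unfold tay
  rw [Polynomial.finsetSum_coeff, Finset.sum_eq_single d]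
  · rw [Polynomial.coeff_C_mul, Polynomial.coeff_X_pow, if_pos rfl]
    beta_reduce
    rw [der_zero]
    have : (d.factorial : ℝ) ≠ 0 := by exact_mod_cast d.factorial_ne_zero
    field_simp
    ring
  · intro k _ hk
    rw [Polynomial.coeff_C_mul, Polynomial.coeff_X_pow, if_neg (Ne.symm hk), mul_zero]
  · intro h
    exact absurd (Finset.mem_range.2 hd) h

theorem dvd_aeval {σ : Type} (Q : MvPolynomial σ ℝ) {P P' : σ → Polynomial ℝ}
    {d : Polynomial ℝ} (h : ∀ o, d ∣ P o - P' o) : d ∣ aeval P Q - aeval P' Q := by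
  induction Q using MvPolynomial.induction_on with
  | C a => simp
  | add p q hp hq =>
    rw [map_add, map_add]
    have e : aeval P p + aeval P q - (aeval P' p + aeval P' q) =
        (aeval P p - aeval P' p) + (aeval P q - aeval P' q) := by ring
    rw [e]
    exact dvd_add hp hq
  | mul_X p o hp =>
    rw [map_mul, map_mul, aeval_X, aeval_X]
    have e : aeval P p * P o - aeval P' p * P' o =
        (aeval P p - aeval P' p) * P o + aeval P' p * (P o - P' o) := by ring
    rw [e]
    exact dvd_add (dvd_mul_of_dvd_left hp _) (dvd_mul_of_dvd_right (h o) _)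

/-! ### The chain -/

/-- The polynomial depends on the time and the coordinates `c l`, `l < n`, only. -/
def DepN (c : ℕ → Fin m) (n : ℕ) (P : MvPolynomial (Option (Fin m)) ℝ) : Prop :=
  ∀ b b' : Option (Fin m) → ℝ, b none = b' none → (∀ l < n, b (some (c l)) = b' (some (c l))) →
    eval b P = eval b' P

theorem aeval_depN {c : ℕ → Fin m} {n : ℕ} {g : MvPolynomial (Option (Fin m)) ℝ}
    (hg : DepN c n g) {P P' : Option (Fin m) → Polynomial ℝ} (h0 : P none = P' none)
    (h : ∀ l < n, P (some (c l)) = P' (some (c l))) : aeval P g = aeval P' g := by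
  refine Polynomial.funext fun t => ?_
  rw [Pool.KBX.eval_aeval_poly, Pool.KBX.eval_aeval_poly]
  exact hg _ _ (by rw [h0]) fun l hl => by rw [h l hl]

/-- **The path with given heights** over the charts. -/
noncomputable def nst (c : ℕ → Fin m) (g : ℕ → MvPolynomial (Option (Fin m)) ℝ)
    (P : Option (Fin m) → Polynomial ℝ) (h : ℕ → Polynomial ℝ) :
    ℕ → Option (Fin m) → Polynomial ℝ
  | 0 => P
  | k + 1 => Function.update (nst c g P h k) (some (c k)) (aeval (nst c g P h k) (g k) + h k)

theorem nst_none (c : ℕ → Fin m) (g : ℕ → MvPolynomial (Option (Fin m)) ℝ)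
    (P : Option (Fin m) → Polynomial ℝ) (h : ℕ → Polynomial ℝ) (k : ℕ) :
    nst c g P h k none = P none := by
  induction k with
  | zero => rfl
  | succ k ih =>
    show Function.update _ _ _ _ = _
    rw [Function.update_of_ne (by simp), ih]

theorem nst_stay {c : ℕ → Fin m} {r : ℕ} (hc : Set.InjOn c (Set.Iio r))
    (g : ℕ → MvPolynomial (Option (Fin m)) ℝ) (P : Option (Fin m) → Polynomial ℝ)
    (h : ℕ → Polynomial ℝ) {l k : ℕ} (hl : l < k) (hk : k ≤ r) :
    nst c g P h k (some (c l)) = nst c g P h (l + 1) (some (c l)) := by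
  induction k with
  | zero => omega
  | succ k ih =>
    rcases Nat.eq_or_lt_of_le (Nat.lt_succ_iff.1 hl) with h1 | h1
    · rw [h1]
    · rw [← ih h1 (by omega)]
      show Function.update _ _ _ _ = _
      rw [Function.update_of_ne]
      intro h2
      have := hc (show l ∈ Set.Iio r from by simp only [Set.mem_Iio]; omega)
        (show k ∈ Set.Iio r from by simp only [Set.mem_Iio]; omega)
        (Option.some_injective _ h2)
      omega

/-- The heights of the path. -/
theorem nst_ht {c : ℕ → Fin m} {r : ℕ} (hc : Set.InjOn c (Set.Iio r))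
    {g : ℕ → MvPolynomial (Option (Fin m)) ℝ} (hg : ∀ i < r, DepN c i (g i))
    (P : Option (Fin m) → Polynomial ℝ) (h : ℕ → Polynomial ℝ) {l k : ℕ} (hl : l < k)
    (hk : k ≤ r) : nst c g P h k (some (c l)) = aeval (nst c g P h k) (g l) + h l := by
  rw [nst_stay hc g P h hl hk]
  show Function.update _ _ _ _ = _
  rw [Function.update_self]
  congr 1
  refine aeval_depN (hg l (by omega)) ?_ fun i hi => ?_
  · rw [nst_none, nst_none]
  · rw [nst_stay hc g P h hi (by omega), nst_stay hc g P h (hi.trans hl) hk]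

theorem nst_deg {c : ℕ → Fin m} {g : ℕ → MvPolynomial (Option (Fin m)) ℝ}
    {P : Option (Fin m) → Polynomial ℝ} {h : ℕ → Polynomial ℝ} {K E : ℕ} (hK : 1 ≤ K)
    {r : ℕ} (hg : ∀ i < r, (g i).totalDegree ≤ K) (hP : ∀ o, (P o).natDegree ≤ E)
    (hh : ∀ i < r, (h i).natDegree ≤ E) {k : ℕ} (hk : k ≤ r) (o : Option (Fin m)) :
    (nst c g P h k o).natDegree ≤ K ^ k * E := by
  induction k generalizing o with
  | zero =>
    rw [pow_zero, one_mul]
    exact hP o
  | succ k ih =>
    have h1 : ∀ o, (nst c g P h k o).natDegree ≤ K ^ k * E := fun o => ih (by omega) o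
    have h2 : K ^ k * E ≤ K ^ (k + 1) * E :=
      Nat.mul_le_mul_right E (Nat.pow_le_pow_right hK (by omega))
    have h3 : E ≤ K ^ k * E := Nat.le_mul_of_pos_left E (Nat.pow_pos (by omega))
    show (Function.update (nst c g P h k) _ _ o).natDegree ≤ _
    by_cases ho : o = some (c k)
    · rw [ho, Function.update_self]
      refine (Polynomial.natDegree_add_le _ _).trans (max_le ?_ ?_)
      · refine (natDegree_aevalE _ _ h1 (hg k (by omega))).trans (le_of_eq ?_)
        rw [pow_succ]
        ring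
      · exact (hh k (by omega)).trans (h3.trans h2)
    · rw [Function.update_of_ne ho]
      exact (h1 o).trans h2

theorem nst_dvd {c : ℕ → Fin m} {g : ℕ → MvPolynomial (Option (Fin m)) ℝ}
    {P P' : Option (Fin m) → Polynomial ℝ} {h h' : ℕ → Polynomial ℝ} {d : Polynomial ℝ} {r : ℕ}
    (hP : ∀ o, d ∣ P o - P' o) (hh : ∀ i < r, d ∣ h i - h' i) {k : ℕ} (hk : k ≤ r)
    (o : Option (Fin m)) : d ∣ nst c g P h k o - nst c g P' h' k o := by
  induction k generalizing o with
  | zero => exact hP o
  | succ k ih =>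
    show d ∣ Function.update (nst c g P h k) _ _ o - Function.update (nst c g P' h' k) _ _ o
    by_cases ho : o = some (c k)
    · rw [ho, Function.update_self, Function.update_self]
      have e : aeval (nst c g P h k) (g k) + h k - (aeval (nst c g P' h' k) (g k) + h' k) =
          (aeval (nst c g P h k) (g k) - aeval (nst c g P' h' k) (g k)) + (h k - h' k) := by ring
      rw [e]
      exact dvd_add (dvd_aeval _ fun o => ih (by omega) o) (hh k (by omega))
    · rw [Function.update_of_ne ho, Function.update_of_ne ho]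
      exact ih (by omega) o

/-- The own line. -/
theorem nst_own (c : ℕ → Fin m) (g : ℕ → MvPolynomial (Option (Fin m)) ℝ)
    (P : Option (Fin m) → Polynomial ℝ) (k : ℕ) :
    nst c g P (fun i => aeval P (X (some (c i)) - g i)) k = P := by
  induction k with
  | zero => rfl
  | succ k ih =>
    show Function.update (nst c g P _ k) _ _ = P
    rw [ih]
    beta_reduce
    rw [map_sub, aeval_X, add_sub_cancel, Function.update_eq_self]

/-- The heights determine the point. -/
theorem pt_unique {c : ℕ → Fin m} {r : ℕ} {g : ℕ → MvPolynomial (Option (Fin m)) ℝ}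
    (hg : ∀ i < r, DepN c i (g i)) {x x' : Option (Fin m) → ℝ} (h0 : x none = x' none)
    (h : ∀ i < r, x (some (c i)) - eval x (g i) = x' (some (c i)) - eval x' (g i)) :
    ∀ i < r, x (some (c i)) = x' (some (c i)) := by
  intro i
  induction i using Nat.strong_induction_on with
  | _ i ih =>
    intro hi
    have h1 := hg i hi x x' h0 fun l hl => ih l hl (hl.trans hi)
    have h2 := h i hi
    linarith

/-- The evaluated path. -/
theorem nst_pt {c : ℕ → Fin m} {r : ℕ} (hc : Set.InjOn c (Set.Iio r))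
    {g : ℕ → MvPolynomial (Option (Fin m)) ℝ} (hg : ∀ i < r, DepN c i (g i))
    (P : Option (Fin m) → Polynomial ℝ) (h : ℕ → Polynomial ℝ) (t : ℝ) {i : ℕ} (hi : i < r) :
    (nst c g P h r (some (c i))).eval t -
      eval (fun o => (nst c g P h r o).eval t) (g i) = (h i).eval t := by
  have h1 := congrArg (Polynomial.eval t) (nst_ht hc hg P h hi le_rfl)
  rw [Polynomial.eval_add, Pool.KBX.eval_aeval_poly] at h1
  linarith

/-- **The jets on nested boxes.** -/
theorem jet_nst (m r K K' j : ℕ) : ∃ C : ℝ, 1 ≤ C ∧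
    ∀ (c : ℕ → Fin m) (g : ℕ → MvPolynomial (Option (Fin m)) ℝ)
      (D : MvPolynomial (Option (Fin m)) ℝ) (b v : Option (Fin m) → ℝ) (s₀ δ : ℕ → ℝ)
      (a : ℕ → ℕ → ℝ) (ρ B M σ : ℝ), Set.InjOn c (Set.Iio r) →
      (∀ i < r, DepN c i (g i)) → (∀ i < r, (g i).totalDegree ≤ K') → DepN c r D →
      D.totalDegree ≤ K → v none = 1 → 0 < ρ → 1 ≤ M → 0 < σ → 4 * ((j : ℝ) + 1) * σ ≤ 1 →
      (∀ i < r, 0 < δ i) →
      (∀ x : Option (Fin m) → ℝ, |x none - b none| ≤ ρ →
        (∀ i < r, |x (some (c i)) - eval x (g i) - s₀ i| ≤ 2 * δ i) → |eval x D| ≤ B) →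
      (∀ i < r, |jet 0 (X (some (c i)) - g i) b v - s₀ i| ≤ δ i) →
      (∀ i < r, ∀ j', 1 ≤ j' → j' ≤ j → |jet j' (X (some (c i)) - g i) b v| ≤
        M * δ i / ρ ^ j') →
      (∀ i < r, ∀ j' ≤ j, |a i j' - jet j' (X (some (c i)) - g i) b v| ≤ σ * δ i / ρ ^ j') →
      |jet j D b v - (Polynomial.derivative^[j]
        (aeval (nst c g (lp b v) (fun i => tay j (a i)) r) D)).eval 0| ≤
        C * M ^ j * (B * σ) / ρ ^ j := by
  obtain ⟨K₁, hK₁⟩ : ∃ K₁, K₁ = max 1 K' := ⟨_, rfl⟩
  obtain ⟨E, hE⟩ : ∃ E : ℕ, E = max 1 j := ⟨_, rfl⟩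
  obtain ⟨N, hN⟩ : ∃ N : ℕ, N = K * (K₁ ^ r * E) := ⟨_, rfl⟩
  obtain ⟨C₁, hC₁, hchg⟩ := markov_chg N
  obtain ⟨C₂, hC₂, hend⟩ := markov_end N j
  obtain ⟨n, hn⟩ : ∃ n : ℝ, n = 4 * ((j : ℝ) + 1) := ⟨_, rfl⟩
  have hj0 : (0 : ℝ) ≤ j := Nat.cast_nonneg j
  have hn4 : 4 ≤ n := by rw [hn]; linarith
  refine ⟨C₂ * (C₁ * n) * (2 * n) ^ j, ?_, ?_⟩
  · have h1 : (1 : ℝ) ≤ (2 * n) ^ j := one_le_pow₀ (by linarith)
    have h2 : (1 : ℝ) ≤ C₁ * n := by nlinarith
    have h3 : (1 : ℝ) ≤ C₂ * (C₁ * n) := by nlinarith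
    nlinarith
  intro c g D b v s₀ δ a ρ B M σ hc hg hgd hD hDd hv hρ hM hσ hσ1 hδ hbox h0 hj happ
  obtain ⟨η, hη⟩ : ∃ η : ℕ → ℕ → ℝ, η = fun i j' => jet j' (X (some (c i)) - g i) b v := ⟨_, rfl⟩
  have hη' : ∀ i j', jet j' (X (some (c i)) - g i) b v = η i j' := fun i j' => by rw [hη]
  simp only [hη'] at h0 hj happ
  -- the three paths
  obtain ⟨P₂, hP₂⟩ : ∃ P₂, P₂ = nst c g (lp b v) (fun i => tay j (η i)) r := ⟨_, rfl⟩
  obtain ⟨P₃, hP₃⟩ : ∃ P₃, P₃ = nst c g (lp b v) (fun i => tay j (a i)) r := ⟨_, rfl⟩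
  rw [← hP₃]
  have hE1 : 1 ≤ E := by rw [hE]; exact le_max_left _ _
  have hjE : j ≤ E := by rw [hE]; exact le_max_right _ _
  have hK1 : 1 ≤ K₁ := by rw [hK₁]; exact le_max_left _ _
  have hgd' : ∀ i < r, (g i).totalDegree ≤ K₁ := fun i hi => (hgd i hi).trans (by
    rw [hK₁]
    exact le_max_right _ _)
  have hlp : ∀ o, (lp b v o).natDegree ≤ E := fun o => (natDegree_lp b v o).trans hE1
  have hd2 : (aeval P₂ D).natDegree ≤ N := by
    rw [hN, hP₂]
    exact natDegree_aevalE D _ (fun o => nst_deg hK1 hgd' hlp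
      (fun i _ => (natDegree_tay j _).trans hjE) le_rfl o) hDd
  have hd3 : (aeval P₃ D).natDegree ≤ N := by
    rw [hN, hP₃]
    exact natDegree_aevalE D _ (fun o => nst_deg hK1 hgd' hlp
      (fun i _ => (natDegree_tay j _).trans hjE) le_rfl o) hDd
  -- the truncated path
  have e1 : jet j D b v = (Polynomial.derivative^[j] (aeval P₂ D)).eval 0 := by
    unfold jet
    refine der_of_dvd (dvd_aeval D fun o => ?_)
    have h1 := nst_own c g (lp b v) r
    have h2 : lp b v o = nst c g (lp b v) (fun i => aeval (lp b v) (X (some (c i)) - g i)) r o :=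
      by rw [h1]
    rw [h2, hP₂]
    refine nst_dvd (fun o => by rw [sub_self]; exact dvd_zero _) (fun i _ => ?_) le_rfl o
    rw [hη]
    exact dvd_tay _ j
  -- the window
  obtain ⟨R, hR⟩ : ∃ R : ℝ, R = ρ / (2 * n * M) := ⟨_, rfl⟩
  have hn0 : 0 < n := by linarith
  have hM0 : 0 < M := by linarith
  have hR0 : 0 < R := by rw [hR]; positivity
  have hRρ : R ≤ ρ := by
    rw [hR, div_le_iff₀ (by positivity)]
    nlinarith [mul_le_mul (show (1 : ℝ) ≤ 2 * n by linarith) hM (by norm_num) (by linarith)]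
  have hpow : ∀ t : ℝ, 0 ≤ t → t ≤ R → ∀ k, (t / ρ) ^ k ≤ 1 := by
    intro t ht htR k
    refine pow_le_one₀ (by positivity) ?_
    rw [div_le_one hρ]
    linarith
  have hpow1 : ∀ t : ℝ, 0 ≤ t → t ≤ R → ∀ k, 1 ≤ k → M * (t / ρ) ^ k ≤ 1 / (2 * n) := by
    intro t ht htR k hk
    obtain ⟨k', rfl⟩ : ∃ k', k = k' + 1 := ⟨k - 1, by omega⟩
    rw [pow_succ]
    have h1 := hpow t ht htR k'
    have h2 : t / ρ ≤ 1 / (2 * n * M) := by
      rw [div_le_div_iff₀ hρ (by positivity), one_mul]
      rw [hR, le_div_iff₀ (by positivity)] at htR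
      exact htR
    have h3 : 0 ≤ t / ρ := by positivity
    calc M * ((t / ρ) ^ k' * (t / ρ)) ≤ M * (1 * (1 / (2 * n * M))) := by
          refine mul_le_mul_of_nonneg_left ?_ hM0.le
          exact mul_le_mul h1 h2 h3 zero_le_one
      _ = 1 / (2 * n) := by
          field_simp
  have hfac : ∀ k : ℕ, (1 : ℝ) ≤ k.factorial := fun k => by exact_mod_cast k.factorial_pos
  -- the heights
  have hht : ∀ t : ℝ, 0 ≤ t → t ≤ R → ∀ i < r, |(tay j (η i)).eval t - s₀ i| ≤ 5 / 4 * δ i := by
    intro t ht htR i hi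
    rw [eval_tay, Finset.sum_range_succ' _ j]
    simp only [Nat.factorial_zero, Nat.cast_one, div_one, pow_zero, mul_one]
    have h1 : |∑ k ∈ range j, η i (k + 1) / ((k + 1).factorial : ℝ) * t ^ (k + 1)| ≤
        ∑ k ∈ range j, δ i * (1 / (2 * n)) := by
      refine (Finset.abs_sum_le_sum_abs _ _).trans (Finset.sum_le_sum fun k hk => ?_)
      have hk' := Finset.mem_range.1 hk
      have h2 := hj i hi (k + 1) (by omega) (by omega)
      have h3 := hpow1 t ht htR (k + 1) (by omega)
      rw [abs_mul, abs_div, abs_of_pos (lt_of_lt_of_le one_pos (hfac (k + 1))),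
        abs_of_nonneg (pow_nonneg ht _)]
      have h4 : |η i (k + 1)| / ((k + 1).factorial : ℝ) ≤ |η i (k + 1)| :=
        div_le_self (abs_nonneg _) (hfac _)
      have hρk : 0 < ρ ^ (k + 1) := by positivity
      calc |η i (k + 1)| / ((k + 1).factorial : ℝ) * t ^ (k + 1)
          ≤ M * δ i / ρ ^ (k + 1) * t ^ (k + 1) :=
            mul_le_mul_of_nonneg_right (h4.trans h2) (pow_nonneg ht _)
        _ = δ i * (M * (t / ρ) ^ (k + 1)) := by
            rw [div_pow]
            ring
        _ ≤ δ i * (1 / (2 * n)) := mul_le_mul_of_nonneg_left h3 (hδ i hi).le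
    rw [Finset.sum_const, Finset.card_range, nsmul_eq_mul] at h1
    have h2 : (j : ℝ) * (δ i * (1 / (2 * n))) ≤ 1 / 4 * δ i := by
      have h3 : (j : ℝ) * (1 / (2 * n)) ≤ 1 / 4 := by
        rw [mul_one_div, div_le_div_iff₀ (by positivity) (by norm_num), hn]
        nlinarith
      have := mul_le_mul_of_nonneg_right h3 (hδ i hi).le
      nlinarith
    have h3 := h0 i hi
    have h4 : (∑ k ∈ range j, η i (k + 1) / ((k + 1).factorial : ℝ) * t ^ (k + 1)) + η i 0 - s₀ i =
        (∑ k ∈ range j, η i (k + 1) / ((k + 1).factorial : ℝ) * t ^ (k + 1)) + (η i 0 - s₀ i) := by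
      ring
    rw [h4]
    refine (abs_add_le _ _).trans ?_
    linarith
  have hdf : ∀ t : ℝ, 0 ≤ t → t ≤ R → ∀ i < r,
      |(tay j (a i)).eval t - (tay j (η i)).eval t| ≤ n / 4 * σ * δ i := by
    intro t ht htR i hi
    rw [eval_tay, eval_tay, ← Finset.sum_sub_distrib]
    have h1 : |∑ k ∈ range (j + 1), (a i k / (k.factorial : ℝ) * t ^ k -
        η i k / (k.factorial : ℝ) * t ^ k)| ≤ ∑ k ∈ range (j + 1), σ * δ i := by
      refine (Finset.abs_sum_le_sum_abs _ _).trans (Finset.sum_le_sum fun k hk => ?_)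
      have hk' := Finset.mem_range.1 hk
      have h2 := happ i hi k (by omega)
      have h3 := hpow t ht htR k
      have e : a i k / (k.factorial : ℝ) * t ^ k - η i k / (k.factorial : ℝ) * t ^ k =
          (a i k - η i k) / (k.factorial : ℝ) * t ^ k := by ring
      rw [e, abs_mul, abs_div, abs_of_pos (lt_of_lt_of_le one_pos (hfac k)),
        abs_of_nonneg (pow_nonneg ht _)]
      have h4 : |a i k - η i k| / (k.factorial : ℝ) ≤ |a i k - η i k| :=
        div_le_self (abs_nonneg _) (hfac _)
      calc |a i k - η i k| / (k.factorial : ℝ) * t ^ k ≤ σ * δ i / ρ ^ k * t ^ k :=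
            mul_le_mul_of_nonneg_right (h4.trans h2) (pow_nonneg ht _)
        _ = σ * δ i * (t / ρ) ^ k := by
            rw [div_pow]
            ring
        _ ≤ σ * δ i * 1 := mul_le_mul_of_nonneg_left h3 (mul_pos hσ (hδ i hi)).le
        _ = σ * δ i := mul_one _
    rw [Finset.sum_const, Finset.card_range, nsmul_eq_mul] at h1
    refine h1.trans (le_of_eq ?_)
    rw [hn]
    push_cast
    ring
  -- the difference at one time
  have hB0 : 0 ≤ B := by
    have h1 := hbox (fun o => (P₂ o).eval 0) (by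
      rw [hP₂, nst_none]
      simp only [lp, Polynomial.eval_add, Polynomial.eval_C, Polynomial.eval_mul,
        Polynomial.eval_X, mul_zero, add_zero, sub_self, abs_zero]
      exact hρ.le) (fun i hi => by
      have h2 := hht 0 le_rfl hR0.le i hi
      have h3 := nst_pt hc hg (lp b v) (fun i => tay j (η i)) 0 hi
      simp only [hP₂]
      rw [h3]
      have := hδ i hi
      linarith)
    exact (abs_nonneg _).trans h1
  have hσn : n * σ ≤ 1 := by rw [hn]; exact hσ1
  have key : ∀ t ∈ Set.Icc (0 : ℝ) R,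
      |(aeval P₂ D - aeval P₃ D).eval t| ≤ C₁ * B * (n * σ) := by
    intro t ht
    obtain ⟨hs, hsE⟩ : ∃ h : ℕ → Polynomial ℝ, h = fun i =>
      Polynomial.C ((tay j (η i)).eval t) + Polynomial.C ((tay j (a i)).eval t -
        (tay j (η i)).eval t) * Polynomial.X := ⟨_, rfl⟩
    obtain ⟨P₄, hP₄⟩ : ∃ P₄, P₄ = nst c g (fun o => Polynomial.C ((lp b v o).eval t)) hs r :=
      ⟨_, rfl⟩
    have hev : ∀ s i, (hs i).eval s = (tay j (η i)).eval t + ((tay j (a i)).eval t -
        (tay j (η i)).eval t) * s := by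
      intro s i
      rw [hsE]
      simp only [Polynomial.eval_add, Polynomial.eval_C, Polynomial.eval_mul, Polynomial.eval_X]
    have hd4 : (aeval P₄ D).natDegree ≤ N := by
      rw [hN, hP₄]
      refine natDegree_aevalE D _ (fun o => nst_deg hK1 hgd' (E := E) (fun o => by
        rw [Polynomial.natDegree_C]
        exact Nat.zero_le _) (fun i _ => ?_) le_rfl o) hDd
      rw [hsE]
      refine (Polynomial.natDegree_add_le _ _).trans (max_le ?_ ?_)
      · rw [Polynomial.natDegree_C]
        exact Nat.zero_le _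
      · exact ((Polynomial.natDegree_C_mul_le _ _).trans Polynomial.natDegree_X_le).trans hE1
    have hnone : ∀ s, (P₄ none).eval s = b none + t := by
      intro s
      rw [hP₄, nst_none]
      simp only [Polynomial.eval_C, lp, Polynomial.eval_add, Polynomial.eval_mul,
        Polynomial.eval_X, hv, one_mul]
    have hat : ∀ s, ∀ i < r, (P₄ (some (c i))).eval s -
        eval (fun o => (P₄ o).eval s) (g i) = (hs i).eval s := by
      intro s i hi
      rw [hP₄]
      exact nst_pt hc hg _ hs s hi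
    have e2 : (aeval P₄ D).eval 0 = (aeval P₂ D).eval t := by
      rw [Pool.KBX.eval_aeval_poly, Pool.KBX.eval_aeval_poly]
      have h0' : (fun o => (P₄ o).eval 0) none = (fun o => (P₂ o).eval t) none := by
        simp only
        rw [hnone, hP₂, nst_none]
        simp only [lp, Polynomial.eval_add, Polynomial.eval_C, Polynomial.eval_mul,
          Polynomial.eval_X, hv, one_mul]
      refine hD _ _ h0' (pt_unique (x := fun o => (P₄ o).eval 0) (x' := fun o => (P₂ o).eval t)
        hg h0' fun i hi => ?_)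
      rw [hat 0 i hi, hev, mul_zero, add_zero, hP₂]
      exact (nst_pt hc hg (lp b v) (fun i => tay j (η i)) t hi).symm
    have e3 : (aeval P₄ D).eval 1 = (aeval P₃ D).eval t := by
      rw [Pool.KBX.eval_aeval_poly, Pool.KBX.eval_aeval_poly]
      have h0' : (fun o => (P₄ o).eval 1) none = (fun o => (P₃ o).eval t) none := by
        simp only
        rw [hnone, hP₃, nst_none]
        simp only [lp, Polynomial.eval_add, Polynomial.eval_C, Polynomial.eval_mul,
          Polynomial.eval_X, hv, one_mul]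
      refine hD _ _ h0' (pt_unique (x := fun o => (P₄ o).eval 1) (x' := fun o => (P₃ o).eval t)
        hg h0' fun i hi => ?_)
      rw [hat 1 i hi, hev, mul_one, add_sub_cancel, hP₃]
      exact (nst_pt hc hg (lp b v) (fun i => tay j (a i)) t hi).symm
    have h4 := hchg (aeval P₄ D) B (1 / (n * σ)) hd4 (by
      rw [le_div_iff₀ (by positivity), one_mul]
      exact hσn) (by
      intro s hs'
      rw [Pool.KBX.eval_aeval_poly]
      refine hbox _ ?_ fun i hi => ?_
      · rw [hnone, add_sub_cancel_left, abs_of_nonneg ht.1]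
        exact ht.2.trans hRρ
      · rw [hat s i hi, hev]
        have h5 := hht t ht.1 ht.2 i hi
        have h6 := hdf t ht.1 ht.2 i hi
        have e4 : (tay j (η i)).eval t + ((tay j (a i)).eval t - (tay j (η i)).eval t) * s -
            s₀ i = ((tay j (η i)).eval t - s₀ i) +
              ((tay j (a i)).eval t - (tay j (η i)).eval t) * s := by ring
        rw [e4]
        have h7 : |((tay j (a i)).eval t - (tay j (η i)).eval t) * s| ≤ 1 / 4 * δ i := by
          rw [abs_mul, abs_of_nonneg hs'.1]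
          calc _ ≤ n / 4 * σ * δ i * (1 / (n * σ)) :=
                mul_le_mul h6 hs'.2 hs'.1 (mul_nonneg (by positivity) (hδ i hi).le)
            _ = 1 / 4 * δ i := by
                field_simp
        refine (abs_add_le _ _).trans ?_
        have := hδ i hi
        linarith)
    rw [e2, e3, abs_sub_comm] at h4
    rw [Polynomial.eval_sub]
    refine h4.trans (le_of_eq ?_)
    rw [one_div, div_inv_eq_mul]
  have h5 := hend (aeval P₂ D - aeval P₃ D) (C₁ * B * (n * σ)) R
    ((Polynomial.natDegree_sub_le _ _).trans (max_le hd2 hd3)) hR0 key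
  rw [Polynomial.iterate_derivative_sub, Polynomial.eval_sub, ← e1] at h5
  refine h5.trans (le_of_eq ?_)
  rw [hR, div_pow, mul_pow, mul_pow]
  have : ρ ^ j ≠ 0 := by positivity
  field_simp

end Pool.LA91
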