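import Pool.Agent.H91.LA.Sup
import Pool.Agent.H92.GN.Prod

/-!
# Two-parameter families of natural quantities

`Q w o`: the quantity over the charts of the window `w`, to the natural digits of the window `o`.
`TwoPar`: the quantity to fewer digits is few bits (`row`), the quantity over the charts of a later
window is few bits at this window (`chg`), and the natural digits of the own window are few bits
(`own`). `la_cls`: for countably many families there is one subclass with numbers, which are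
additive, up to `e r`, in the `r`-boxes of almost every point. `TwoPar.la`: no look-ahead.
-/

set_option autoImplicit false

namespace Pool.LA91

open Finset Real
open Pool.Agent.H49.Ent Pool.Agent.H32.Dense Pool.STK Pool.KA Pool.KSAT Pool.K2S Pool.PB Pool.S6C
  Pool.GEN Pool.RCD

variable {m : ℕ} {U U₁ U₂ : Type} {α γ : ∀ J : ℕ, Fam m J → Type}
  {f : ∀ (J : ℕ) (F : Fam m J), F.Ω → α J F} {y : ∀ (J : ℕ) (F : Fam m J), F.Ω → γ J F}
  {S : PCl m}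

/-- **A two-parameter family** at the rational windows of `(A, B)`, with steps less than `lam`. -/
structure TwoPar (S : PCl m) (f : ∀ (J : ℕ) (F : Fam m J), F.Ω → α J F)
    (y : ∀ (J : ℕ) (F : Fam m J), F.Ω → γ J F) (Q : ℚ → ℚ → Qt m U) (A B lam : ℝ) : Prop where
  exs : ∀ w o : ℚ, A < w → w ≤ o → (o : ℝ) < B → (o : ℝ) < w + lam → Exs S (Q w o)
  row : ∀ w v o : ℚ, A < w → w ≤ v → v ≤ o → (o : ℝ) < B → (o : ℝ) < w + lam →
    Few S f (vg (w : ℝ)) y (Q w o) (Q w v)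
  chg : ∀ w v o : ℚ, A < w → w ≤ v → v ≤ o → (o : ℝ) < B → (o : ℝ) < w + lam →
    Few S f (vg (v : ℝ)) y (Q w o) (Q v o)
  own : ∀ w v : ℚ, A < w → w ≤ v → (v : ℝ) < B → (v : ℝ) < w + lam →
    Few0 S f (vg (v : ℝ)) y (Q w v)

theorem TwoPar.sub {S' : PCl m} (hs : ∀ (τ : ℝ) (J : ℕ) (F : Fam m J) (A : F.Ω → Prop),
    S'.St τ J F A → S.St τ J F A) {Q : ℚ → ℚ → Qt m U} {A B lam : ℝ}
    (h : TwoPar S f y Q A B lam) : TwoPar S' f y Q A B lam where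
  exs w o a b c d := (h.exs w o a b c d).sub hs
  row w v o a b c d e := (h.row w v o a b c d e).sub hs
  chg w v o a b c d e := (h.chg w v o a b c d e).sub hs
  own w v a b c d := (h.own w v a b c d).sub hs

/-- Few bits, one after the other. -/
theorem Few0.seq {β : ∀ J : ℕ, Fam m J → Type} {g : ∀ (J : ℕ) (F : Fam m J), F.Ω → β J F}
    {Q₁ : Qt m U₁} {Q₂ : Qt m U₂}
    (hpos : ∀ (τ : ℝ) (J : ℕ) (F : Fam m J) (A : F.Ω → Prop), S.St τ J F A → 0 < Pe F.p A)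
    (h₁ : Few0 S f g y Q₁) (h₂ : Few S f g y Q₁ Q₂) : Few0 S f g y (Q₁.prod Q₂) := by
  intro c hc
  obtain ⟨e₁, he₁, H₁⟩ := h₁ (c / 2) (half_pos hc)
  obtain ⟨e₂, he₂, H₂⟩ := h₂ (c / 2) (half_pos hc)
  refine ⟨min e₁ e₂, lt_min he₁ he₂, fun K => Bas.mono 0 (((H₁ K).and (H₂ K)).and
    (pos_bas hpos)) ?_⟩
  rintro J - F A ⟨⟨H₁, H₂⟩, hA⟩ u' hu'
  have hcl := isLaw_cond F.isLaw hA
  have l1 : min e₁ e₂ ≤ e₁ := min_le_left _ _
  have l2 : min e₁ e₂ ≤ e₂ := min_le_right _ _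
  obtain ⟨V, z, hz, a1⟩ := H₁ (fun ω => (u' ω).1) (Q₁.mono le_rfl l1 hu'.1)
  obtain ⟨V', z', hz', a2⟩ := H₂ (fun ω => (u' ω).1) (fun ω => (u' ω).2)
    (Q₁.mono le_rfl l2 hu'.1) (Q₂.mono le_rfl l2 hu'.2)
  refine ⟨_, _, hz.join hz', ?_⟩
  have s1 := CH_chain hcl.nonneg (fun ω => (u' ω).2) (fun ω => (u' ω).1)
    (fun ω => ((z ω, z' ω), y J F ω))
  have s2 : CH (Pool.Agent.H49.Ent.cond F.p A True) (fun ω => (u' ω).1)
      (fun ω => ((z ω, z' ω), y J F ω)) ≤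
      CH (Pool.Agent.H49.Ent.cond F.p A True) (fun ω => (u' ω).1)
        (fun ω => (z ω, y J F ω)) := by
    refine CH_mono_cond hcl.nonneg fun ω ω' _ _ hh => ?_
    simp only [Prod.mk.injEq] at hh ⊢
    exact ⟨hh.1.1, hh.2⟩
  have s3 : CH (Pool.Agent.H49.Ent.cond F.p A True) (fun ω => (u' ω).2)
      (fun ω => ((u' ω).1, ((z ω, z' ω), y J F ω))) ≤
      CH (Pool.Agent.H49.Ent.cond F.p A True) (fun ω => (u' ω).2)
        (fun ω => ((u' ω).1, (z' ω, y J F ω))) := by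
    refine CH_mono_cond hcl.nonneg fun ω ω' _ _ hh => ?_
    simp only [Prod.mk.injEq] at hh ⊢
    exact ⟨hh.1, hh.2.1.2, hh.2.2⟩
  have s4 : CH (Pool.Agent.H49.Ent.cond F.p A True) u' (fun ω => ((z ω, z' ω), y J F ω)) ≤
      CH (Pool.Agent.H49.Ent.cond F.p A True) (fun ω => ((u' ω).2, (u' ω).1))
        (fun ω => ((z ω, z' ω), y J F ω)) := by
    refine CH_mono_left hcl.nonneg fun ω ω' _ _ hh => ?_
    simp only [Prod.mk.injEq] at hh
    exact Prod.ext hh.1.2 hh.1.1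
  change CH (Pool.Agent.H49.Ent.cond F.p A True) u' (fun ω => ((z ω, z' ω), y J F ω)) ≤ c * J
  linarith

theorem Few0.pair {β : ∀ J : ℕ, Fam m J → Type} {g : ∀ (J : ℕ) (F : Fam m J), F.Ω → β J F}
    {Q₁ : Qt m U₁} {Q₂ : Qt m U₂}
    (hpos : ∀ (τ : ℝ) (J : ℕ) (F : Fam m J) (A : F.Ω → Prop), S.St τ J F A → 0 < Pe F.p A)
    (h₁ : Few0 S f g y Q₁) (h₂ : Few0 S f g y Q₂) : Few0 S f g y (Q₁.prod Q₂) := by
  refine Few0.seq hpos h₁ ?_
  intro c hc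
  obtain ⟨e, he, H⟩ := h₂ c hc
  refine ⟨e, he, fun K => Bas.mono 0 ((H K).and (pos_bas hpos)) ?_⟩
  rintro J - F A ⟨H, hA⟩ u u' - hu'
  obtain ⟨V, z, hz, a⟩ := H u' hu'
  refine ⟨V, z, hz, le_trans (CH_mono_cond (isLaw_cond F.isLaw hA).nonneg ?_) a⟩
  intro ω ω' _ _ hh
  exact (Prod.ext_iff.mp hh).2

/-- **Products.** -/
theorem TwoPar.prod
    (hpos : ∀ (τ : ℝ) (J : ℕ) (F : Fam m J) (A : F.Ω → Prop), S.St τ J F A → 0 < Pe F.p A)
    {Q₁ : ℚ → ℚ → Qt m U₁} {Q₂ : ℚ → ℚ → Qt m U₂} {A B lam : ℝ}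
    (h₁ : TwoPar S f y Q₁ A B lam) (h₂ : TwoPar S f y Q₂ A B lam) :
    TwoPar S f y (fun w o => (Q₁ w o).prod (Q₂ w o)) A B lam where
  exs w o a b c d := (h₁.exs w o a b c d).prod (h₂.exs w o a b c d)
  row w v o a b c d e := Few.prod hpos (h₁.row w v o a b c d e) (h₂.row w v o a b c d e)
  chg w v o a b c d e := Few.prod hpos (h₁.chg w v o a b c d e) (h₂.chg w v o a b c d e)
  own w v a b c d := Few0.pair hpos (h₁.own w v a b c d) (h₂.own w v a b c d)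

/-- A smaller interval and smaller steps. -/
theorem TwoPar.mono {Q : ℚ → ℚ → Qt m U} {A A' B B' lam lam' : ℝ} (h : TwoPar S f y Q A B lam)
    (hA : A ≤ A') (hB : B' ≤ B) (hl : lam' ≤ lam) : TwoPar S f y Q A' B' lam' where
  exs w o a b c d := h.exs w o (by linarith) b (by linarith) (by linarith)
  row w v o a b c d e := h.row w v o (by linarith) b c (by linarith) (by linarith)
  chg w v o a b c d e := h.chg w v o (by linarith) b c (by linarith) (by linarith)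
  own w v a b c d := h.own w v (by linarith) b (by linarith) (by linarith)

open Set MeasureTheory in
/-- **Superadditive numbers at rational indices**, without a bound. -/
theorem la_ae2 {θ : ℚ → ℚ → ℝ} {A B lam : ℝ} (hlam : 0 < lam)
    (h0 : ∀ w o : ℚ, A < w → w ≤ o → (o : ℝ) < B → (o : ℝ) < w + lam → 0 ≤ θ w o)
    (h2 : ∀ w v o : ℚ, A < w → w ≤ v → v ≤ o → (o : ℝ) < B → (o : ℝ) < w + lam →
      θ w v + θ v o ≤ θ w o) :
    ∀ᵐ g : ℝ, g ∈ Ioo A B → ∀ e : ℝ, 0 < e → ∃ r₀ : ℝ, 0 < r₀ ∧ ∀ r : ℝ, 0 < r → r < r₀ →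
      ∀ w v o : ℚ, g - r ≤ w → w ≤ v → v ≤ o → (o : ℝ) ≤ g + r →
        θ w o - θ w v - θ v o ≤ e * r := by
  have key : ∀ a b : ℚ, A < a → a < b → (b : ℝ) < B → (b : ℝ) < a + lam →
      ∀ᵐ g : ℝ, g ∈ Ioo (a : ℝ) b → ∀ e : ℝ, 0 < e → ∃ r₀ : ℝ, 0 < r₀ ∧ ∀ r : ℝ, 0 < r → r < r₀ →
      ∀ w v o : ℚ, g - r ≤ w → w ≤ v → v ≤ o → (o : ℝ) ≤ g + r →
        θ w o - θ w v - θ v o ≤ e * r := by
    intro a b ha hab hb hl
    refine la_ae (A := a) (B := b) (lam := lam) (M := θ a b) hlam ?_ ?_ ?_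
    · intro w o h1 h2 h3 _
      exact h0 w o (lt_of_lt_of_le ha h1) h2 (lt_of_le_of_lt h3 hb) (by linarith)
    · intro w o h1 h3 h4 _
      have e1 : (w : ℝ) ≤ o := by exact_mod_cast h3
      have h1' : a ≤ w := by exact_mod_cast h1
      have h4' : o ≤ b := by exact_mod_cast h4
      have c1 := h2 a w b ha h1' (h3.trans h4') hb hl
      have c2 := h2 w o b (lt_of_lt_of_le ha h1) h3 h4' hb (by linarith)
      have c3 := h0 a w ha h1' (by linarith) (by linarith)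
      have c4 := h0 o b (by linarith) h4' hb (by linarith)
      linarith
    · intro w v o h1 h3 h4 h5 _
      have e1 : (w : ℝ) ≤ v := by exact_mod_cast h3
      exact h2 w v o (lt_of_lt_of_le ha h1) h3 h4 (lt_of_le_of_lt h5 hb) (by linarith)
  have hall : ∀ᵐ g : ℝ, ∀ a b : ℚ, A < a → a < b → (b : ℝ) < B → (b : ℝ) < a + lam →
      g ∈ Ioo (a : ℝ) b → ∀ e : ℝ, 0 < e → ∃ r₀ : ℝ, 0 < r₀ ∧ ∀ r : ℝ, 0 < r → r < r₀ →
      ∀ w v o : ℚ, g - r ≤ w → w ≤ v → v ≤ o → (o : ℝ) ≤ g + r →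
        θ w o - θ w v - θ v o ≤ e * r := by
    rw [ae_all_iff]
    intro a
    rw [ae_all_iff]
    intro b
    by_cases h : A < a ∧ a < b ∧ (b : ℝ) < B ∧ (b : ℝ) < a + lam
    · filter_upwards [key a b h.1 h.2.1 h.2.2.1 h.2.2.2] with g hg _ _ _ _ h5
      exact hg h5
    · refine Filter.Eventually.of_forall fun g h1 h2 h3 h4 => ?_
      exact absurd ⟨h1, h2, h3, h4⟩ h
  filter_upwards [hall] with g hg hgAB
  obtain ⟨a, ha1, ha2⟩ := exists_rat_btwn (show max A (g - lam / 2) < g from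
    max_lt hgAB.1 (by linarith))
  obtain ⟨b, hb1, hb2⟩ := exists_rat_btwn (show g < min B (g + lam / 2) from
    lt_min hgAB.2 (by linarith))
  have e1 := le_max_left A (g - lam / 2)
  have e2 := le_max_right A (g - lam / 2)
  have e3 := min_le_left B (g + lam / 2)
  have e4 := min_le_right B (g + lam / 2)
  refine hg a b (by linarith) (by exact_mod_cast ha2.trans hb1) (by linarith) (by linarith)
    ⟨ha2, hb1⟩

/-- The numbers of a two-parameter family: `θ w o` is the number of `Q w o` given the record at the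
window `w` and `y`. -/
def TNum (S : PCl m) (f : ∀ (J : ℕ) (F : Fam m J), F.Ω → α J F)
    (y : ∀ (J : ℕ) (F : Fam m J), F.Ω → γ J F) (Q : ℚ → ℚ → Qt m U) (A B lam : ℝ)
    (θ : ℚ → ℚ → ℝ) : Prop :=
  ∀ w o : ℚ, A < w → w ≤ o → (o : ℝ) < B → (o : ℝ) < w + lam →
    NN S f (vg (w : ℝ)) y (Q w o) (θ w o)

theorem TNum.sub {S' : PCl m} (hs : ∀ (τ : ℝ) (J : ℕ) (F : Fam m J) (A : F.Ω → Prop),
    S'.St τ J F A → S.St τ J F A) {Q : ℚ → ℚ → Qt m U} {A B lam : ℝ} {θ : ℚ → ℚ → ℝ}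
    (h : TNum S f y Q A B lam θ) : TNum S' f y Q A B lam θ :=
  fun w o a b c d => (h w o a b c d).sub hs

/-- **The numbers are nonnegative and superadditive.** -/
theorem TNum.super (hS : S.Ne)
    (hpos : ∀ (τ : ℝ) (J : ℕ) (F : Fam m J) (A : F.Ω → Prop), S.St τ J F A → 0 < Pe F.p A)
    {Q : ℚ → ℚ → Qt m U} {A B lam : ℝ} (hB : B ≤ 1)
    (hη : ∀ w : ℚ, A < w → (w : ℝ) < B → ∃ η, RNum S f (vg (w : ℝ)) η)
    (h : TwoPar S f y Q A B lam) {θ : ℚ → ℚ → ℝ} (hθ : TNum S f y Q A B lam θ) :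
    (∀ w o : ℚ, A < w → w ≤ o → (o : ℝ) < B → (o : ℝ) < w + lam → 0 ≤ θ w o) ∧
    ∀ w v o : ℚ, A < w → w ≤ v → v ≤ o → (o : ℝ) < B → (o : ℝ) < w + lam →
      θ w v + θ v o ≤ θ w o := by
  constructor
  · intro w o a b c d
    have b' : (w : ℝ) ≤ o := by exact_mod_cast b
    obtain ⟨η, hη⟩ := hη w a (by linarith)
    exact (hθ w o a b c d).nonneg hS hpos hη (h.exs w o a b c d)
  · intro w v o a b c d e
    have b' : (w : ℝ) ≤ v := by exact_mod_cast b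
    have c' : (v : ℝ) ≤ o := by exact_mod_cast c
    obtain ⟨η, hη₁⟩ := hη w a (by linarith)
    obtain ⟨η', hη₂⟩ := hη v (by linarith) (by linarith)
    refine NN.super (η := η) (η' := η') hS hpos (fun J F => ⟨fun x => x, fun _ => rfl⟩)
      (fun J F => ?_) hη₁ hη₂ (hθ w o a (b.trans c) d e) (hθ w v a b (by linarith) (by linarith))
      (hθ v o (by linarith) c d (by linarith)) (h.exs w o a (b.trans c) d e)
      (h.exs w v a b (by linarith) (by linarith)) (h.exs v o (by linarith) c d (by linarith))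
      (h.row w v o a b c d e) (h.own w v a b (by linarith) (by linarith)) (h.chg w v o a b c d e)
    exact vg_mono b' (by linarith) J F

open Set MeasureTheory in
/-- **Additive in the boxes of almost every point.** -/
theorem TNum.ae (hS : S.Ne)
    (hpos : ∀ (τ : ℝ) (J : ℕ) (F : Fam m J) (A : F.Ω → Prop), S.St τ J F A → 0 < Pe F.p A)
    {Q : ℚ → ℚ → Qt m U} {A B lam : ℝ} (hB : B ≤ 1) (hlam : 0 < lam)
    (hη : ∀ w : ℚ, A < w → (w : ℝ) < B → ∃ η, RNum S f (vg (w : ℝ)) η)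
    (h : TwoPar S f y Q A B lam) {θ : ℚ → ℚ → ℝ} (hθ : TNum S f y Q A B lam θ) :
    ∀ᵐ g : ℝ, g ∈ Ioo A B → ∀ e : ℝ, 0 < e → ∃ r₀ : ℝ, 0 < r₀ ∧ ∀ r : ℝ, 0 < r → r < r₀ →
      ∀ w v o : ℚ, g - r ≤ w → w ≤ v → v ≤ o → (o : ℝ) ≤ g + r →
        θ w o - θ w v - θ v o ≤ e * r := by
  obtain ⟨h0, h2⟩ := hθ.super hS hpos hB hη h
  exact la_ae2 hlam h0 h2

/-- **One subclass with the numbers of countably many two-parameter families.** -/
theorem la_cls {ι : Type} [Countable ι] (hS : S.Ne)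
    (hpos : ∀ (τ : ℝ) (J : ℕ) (F : Fam m J) (A : F.Ω → Prop), S.St τ J F A → 0 < Pe F.p A)
    (U : ι → Type) (α γ : ι → ∀ J : ℕ, Fam m J → Type)
    (f : ∀ (i : ι) (J : ℕ) (F : Fam m J), F.Ω → α i J F)
    (y : ∀ (i : ι) (J : ℕ) (F : Fam m J), F.Ω → γ i J F) (Q : ∀ i, ℚ → ℚ → Qt m (U i))
    (A B lam : ι → ℝ) (h : ∀ i, TwoPar S (f i) (y i) (Q i) (A i) (B i) (lam i)) :
    ∃ S' : PCl m, S'.Ne ∧
      (∀ (τ : ℝ) (J : ℕ) (F : Fam m J) (A : F.Ω → Prop), S'.St τ J F A → S.St τ J F A) ∧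
      ∀ i, ∃ θ : ℚ → ℚ → ℝ, TNum S' (f i) (y i) (Q i) (A i) (B i) (lam i) θ := by
  classical
  obtain ⟨κ, hκ⟩ : ∃ κ : Type, κ = {x : ι × ℚ × ℚ // A x.1 < x.2.1 ∧ x.2.1 ≤ x.2.2 ∧
    (x.2.2 : ℝ) < B x.1 ∧ (x.2.2 : ℝ) < x.2.1 + lam x.1} := ⟨_, rfl⟩
  subst hκ
  obtain ⟨S', h1, h2, h3⟩ := nn_ext_ct hS hpos (fun x : {x : ι × ℚ × ℚ // A x.1 < x.2.1 ∧
      x.2.1 ≤ x.2.2 ∧ (x.2.2 : ℝ) < B x.1 ∧ (x.2.2 : ℝ) < x.2.1 + lam x.1} => U x.1.1)
    (fun x => α x.1.1) (fun x J F => LnT F) (fun x => γ x.1.1) (fun x => f x.1.1)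
    (fun x => vg (x.1.2.1 : ℝ)) (fun x => y x.1.1) (fun x => Q x.1.1 x.1.2.1 x.1.2.2)
    (fun x => (h x.1.1).exs _ _ x.2.1 x.2.2.1 x.2.2.2.1 x.2.2.2.2)
    (fun x => (h x.1.1).row _ _ _ x.2.1 x.2.2.1 le_rfl x.2.2.2.1 x.2.2.2.2)
  refine ⟨S', h1, h2, fun i => ?_⟩
  choose θ hθ using h3
  refine ⟨fun w o => if hx : A i < w ∧ w ≤ o ∧ (o : ℝ) < B i ∧ (o : ℝ) < w + lam i then
    θ ⟨(i, w, o), hx⟩ else 0, fun w o a b c d => ?_⟩
  have hx : A i < w ∧ w ≤ o ∧ (o : ℝ) < B i ∧ (o : ℝ) < w + lam i := ⟨a, b, c, d⟩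
  simp only [hx, and_self, dif_pos]
  exact hθ ⟨(i, w, o), hx⟩

/-- **No look-ahead**: at the windows `w ≤ v ≤ o`, the record at `v` does not see the quantity
behind `v`, up to the defect `θ w o - θ w v - θ v o`. -/
theorem TwoPar.la
    (hpos : ∀ (τ : ℝ) (J : ℕ) (F : Fam m J) (A : F.Ω → Prop), S.St τ J F A → 0 < Pe F.p A)
    {Q : ℚ → ℚ → Qt m U} {A B lam : ℝ} (h : TwoPar S f y Q A B lam) {θ : ℚ → ℚ → ℝ}
    (hθ : TNum S f y Q A B lam θ) {w v o : ℚ} (h1 : A < w) (h2 : w ≤ v) (h3 : v ≤ o)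
    (h4 : (o : ℝ) < B) (h5 : (o : ℝ) < w + lam) (c : ℝ) (hc : 0 < c) :
    ∃ k : ℝ, 0 < k ∧ ∃ e₀ : ℝ, 0 < e₀ ∧ ∀ K : ℕ, Bas S (fun J F A =>
      ∀ (V : Type) (z : F.Ω → V) (V' : Type) (z' : F.Ω → V'), Mx f (vg (w : ℝ)) k F A z →
      Mx f (vg (v : ℝ)) k F A z' → ∀ u u₁, (Q w o).P K e₀ J F A u → (Q w v).P K e₀ J F A u₁ →
      CH (Pool.Agent.H49.Ent.cond F.p A True) u (fun ω => (u₁ ω, (z ω, y J F ω))) ≤
        CH (Pool.Agent.H49.Ent.cond F.p A True) u (fun ω => (z' ω, y J F ω)) +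
          (θ w o - θ w v - θ v o + c) * J) := by
  have h2' : (w : ℝ) ≤ v := by exact_mod_cast h2
  have h3' : (v : ℝ) ≤ o := by exact_mod_cast h3
  exact NN.nla hpos (hθ w o h1 (h2.trans h3) h4 h5) (hθ w v h1 h2 (by linarith) (by linarith))
    (hθ v o (by linarith) h3 h4 (by linarith)) (h.exs v o (by linarith) h3 h4 (by linarith))
    (h.row w v o h1 h2 h3 h4 h5) (h.chg w v o h1 h2 h3 h4 h5) c hc

end Pool.LA91
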